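import Mathlib

/-! Four colour theorem: maps, minimal counterexamples, patterns, rings. Definitions only. -/

namespace Pool.Agent.MP_8c1b0d_co.CT4

open Equiv Finset Function

/-- the Klein four-group of colours -/
abbrev K : Type := ZMod 2 × ZMod 2

/-- a map whose vertices (orbits of `n`) have degree two or three; `e` reverses a dart -/
structure Map (D : Type) where
  e : Perm D
  n : Perm D
  ee : ∀ d, e (e d) = d
  e_ne : ∀ d, e d ≠ d
  n_ne : ∀ d, n d ≠ d
  n23 : ∀ d, n (n d) = d ∨ n (n (n d)) = d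

namespace Map

variable {D : Type} (G : Map D)

/-- the face permutation -/
def f : Perm D := G.n * G.e

theorem f_apply (d : D) : G.f d = G.n (G.e d) := rfl

def Cubic : Prop := ∀ d, G.n (G.n (G.n d)) = d

open scoped Classical in
/-- the sum of `c` over the vertex of `d` -/
noncomputable def vsum {A : Type} [Add A] (c : D → A) (d : D) : A :=
  if G.n (G.n d) = d then c d + c (G.n d) else c d + c (G.n d) + c (G.n (G.n d))

/-- flows (cycles) with values in a group of exponent two -/
def Cyc {A : Type} [Add A] [Zero A] (c : D → A) : Prop :=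
  (∀ d, c (G.e d) = c d) ∧ ∀ d, G.vsum c d = 0

/-- every cycle is the coboundary of a function on the faces -/
def Planar : Prop := ∀ c : D → ZMod 2, G.Cyc c →
  ∃ h : D → ZMod 2, (∀ d, h (G.f d) = h d) ∧ ∀ d, c d = h d + h (G.e d)

/-- unions of vertices -/
def Closed (A : Set D) : Prop := ∀ d, G.n d ∈ A ↔ d ∈ A

/-- the darts leaving `A` -/
def out (A : Set D) : Set D := {d | d ∈ A ∧ G.e d ∉ A}

def Bridgeless : Prop := ∀ A : Set D, G.Closed A → ∀ b ∈ G.out A, ∃ d ∈ G.out A, d ≠ b

/-- a nowhere zero flow, that is a three edge colouring -/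
def Colourable : Prop := ∃ c : D → K, G.Cyc c ∧ ∀ d, c d ≠ 0

/-- minimal counterexample -/
structure MinCex [Fintype D] : Prop where
  cubic : G.Cubic
  planar : G.Planar
  bridgeless : G.Bridgeless
  not_col : ¬ G.Colourable
  min : ∀ (D' : Type) [Fintype D'] (G' : Map D'), Fintype.card D' < Fintype.card D →
    G'.Planar → G'.Bridgeless → G'.Colourable

/-- the mirror image: same `e`, face permutation `f⁻¹` -/
def mirror : Map D where
  e := G.e
  n := G.e * G.n⁻¹ * G.e
  ee := G.ee
  e_ne := G.e_ne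
  n_ne d h := G.n_ne (G.e d) (by
    have := congrArg (fun x => G.n (G.e x)) h
    simpa [G.ee] using this.symm)
  n23 d := by
    rcases G.n23 (G.e d) with h | h
    · left
      have : G.n⁻¹ (G.n⁻¹ (G.e d)) = G.e d := by simpa [Equiv.symm_apply_eq] using h.symm
      simp only [Perm.mul_apply, G.ee, this]
    · right
      have : G.n⁻¹ (G.n⁻¹ (G.n⁻¹ (G.e d))) = G.e d := by
        simpa [Equiv.symm_apply_eq] using h.symm
      simp only [Perm.mul_apply, G.ee, this]

/-- the size of the face of `d` -/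
noncomputable def deg (d : D) : ℕ := minimalPeriod G.f d

/-- `go d [t₁, …, tₘ] = e f^tₘ … e f^t₁ d` -/
def go (d : D) (w : List ℤ) : D := w.foldl (fun x t => G.e ((G.f ^ t) x)) d

end Map

/-- a pattern lists words with a mask of allowed face sizes (bit 12 stands for all sizes ≥ 12) -/
abbrev Pattern : Type := List (List ℤ × ℕ)

def Map.Holds {D : Type} (G : Map D) (p : Pattern) (d : D) : Prop :=
  ∀ c ∈ p, c.2.testBit (min (G.deg (G.go d c.1)) 12) = true

/-- the mirror image of a pattern -/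
def Pattern.neg (p : Pattern) : Pattern := p.map fun c => (c.1.map Neg.neg, c.2)

/-- a pattern that occurs in no minimal counterexample -/
def Pattern.Excluded (p : Pattern) : Prop :=
  ∀ (D : Type) [Fintype D] (G : Map D), G.MinCex → ∀ d, ¬ G.Holds p d

/-! ### Rings and Kempe chains -/

namespace Map

variable {D : Type} (G : Map D)

/-- `A` is a union of vertices, `l 0 … l (r-1)` are its legs in cyclic order, all other darts of `A`
are inner darts, and the legs are connected inside `A` -/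
structure Ring (A : Set D) (r : ℕ) (l : ℕ → D) : Prop where
  closed : G.Closed A
  mem : ∀ j < r, l j ∈ A
  inj : ∀ i < r, ∀ j < r, l i = l j → i = j
  inner : ∀ d ∈ A, (∀ j < r, l j ≠ d) → G.e d ∈ A ∧ ∀ j < r, l j ≠ G.e d
  ring : ∀ j < r, G.f.SameCycle (G.e (l j)) (l ((j + 1) % r))
  conn : ∀ i < r, ∀ j < r, Relation.ReflTransGen
    (fun x y => y = G.n x ∨ (y = G.e x ∧ ∀ j < r, l j ≠ x)) (l i) (l j)

/-- `κ` is the trace on the legs of a colouring of the outside of `A` -/
def Trace (A : Set D) (r : ℕ) (l : ℕ → D) (κ : ℕ → K) : Prop :=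
  ∃ c : D → K, (∀ d, (d ∉ A ∨ ∃ j < r, l j = d) → c (G.e d) = c d ∧ c d ≠ 0) ∧
    (∀ d ∉ A, G.vsum c d = 0) ∧ ∀ j < r, κ j = c (l j)

end Map

/-- a Kempe closed set of colourings of a ring of size `r` -/
structure KempeClosed (r : ℕ) (S : (ℕ → K) → Prop) : Prop where
  ext : ∀ κ κ', (∀ j < r, κ j = κ' j) → S κ → S κ'
  ne : ∀ κ, S κ → ∀ j < r, κ j ≠ 0
  sum : ∀ κ, S κ → ∑ j ∈ range r, κ j = 0
  perm : ∀ (σ : K ≃+ K) κ, S κ → S fun j => σ (κ j)
  kempe : ∀ κ, S κ → ∀ θ : K, θ ≠ 0 → ∃ M : ℕ → ℕ,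
    (∀ a < r, κ a ≠ θ → M a < r ∧ κ (M a) ≠ θ ∧ M a ≠ a ∧ M (M a) = a) ∧
    (∀ a < r, ∀ b < r, κ a ≠ θ → κ b ≠ θ → a < b → b < M a → a < M b ∧ M b < M a) ∧
    ∀ T : ℕ → Bool, (∀ a < r, κ a ≠ θ → T (M a) = T a) →
      S fun a => if κ a ≠ θ ∧ T a = true then κ a + θ else κ a

end Pool.Agent.MP_8c1b0d_co.CT4
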