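import Pool.Agent.MP_8c1b0d_co.CT4.PA

attribute [-instance] Submodule.normedAddCommGroup SeminormedAddCommGroup.toAddCommGroup
  SubfieldClass.toSubringClass RKHS.instFunLike NonUnitalSubringClass.addSubgroupClass
  NonUnitalNonAssocRing.toAddCommGroup AddQuantale.instAddRightMono forall_prop_decidable
  Unique.instSubsingleton MonTypeEquivalenceMon.monMonoid SubringClass.toRing littleWedderburn
  CommRing.toRing IdemSemiring.toSemiring Submodule.IsLattice.finite
  ContDiffMapSupportedInClass.toDFunLike SubringClass.addSubgroupClass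
  Group.IsPerfect.subsingleton_of_isMulCommutative instCharZeroOfIsSemireal
  AddQuantale.instAddLeftMono TestFunctionClass.toDFunLike Semiring.toMonoid
  QuotientAddGroup.rightRelDecidable RCLike.charZero_rclike CompletePartialOrder.toPartialOrder
  Multiset.decidableDforallMultiset NumberField.instFiniteDimensional Option.decidableForallMem
  IdemSemiring.toCanonicallyOrderedAdd AddCommMonoidWithOne.toAddMonoidWithOne
  SetLike.GradeZero.instRing

set_option linter.unusedSectionVars false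
set_option linter.unusedVariables false
set_option linter.unusedSimpArgs false

/-! Euler inequality and the discharging lemma. -/

namespace Pool.Agent.MP_8c1b0d_co.CT4.Map

open Equiv Finset Function

variable {D : Type} [Fintype D] {G : Map D}

section
variable (σ : Perm D)

theorem Euler_per (d : D) : d ∈ periodicPts σ := σ.injective.mem_periodicPts d

theorem Euler_pos (d : D) : 0 < minimalPeriod σ d := minimalPeriod_pos_of_mem_periodicPts (Euler_per σ d)

theorem Euler_inv {x d : D} (h : σ.SameCycle x d) : minimalPeriod σ d = minimalPeriod σ x := by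
  obtain ⟨i, rfl⟩ := h.exists_nat_pow_eq
  exact minimalPeriod_apply_iterate (Euler_per σ x) i

open scoped Classical in
theorem Euler_orb (g : D → ℚ) (x : D) :
    ∑ i ∈ range (minimalPeriod σ x), g ((σ ^ i) x) = ∑ d, if σ.SameCycle x d then g d else 0 := by
  rw [← sum_filter]
  refine sum_bij (fun i _ => (σ ^ i) x) (fun i _ => by simp only [mem_filter, mem_univ, Perm.sameCycle_pow_right, Perm.SameCycle.refl, and_self])
    (fun i hi j hj h => iterate_injOn_Iio_minimalPeriod (mem_range.1 hi) (mem_range.1 hj) h)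
    (fun d hd => ?_) fun _ _ => rfl
  obtain ⟨i, rfl⟩ := (mem_filter.1 hd).2.exists_nat_pow_eq
  exact ⟨i % minimalPeriod σ x, mem_range.2 (Nat.mod_lt _ (Euler_pos σ x)),
    iterate_mod_minimalPeriod_eq⟩

open scoped Classical in
theorem Euler_one (x : D) : (∑ d, if σ.SameCycle x d then (minimalPeriod σ d : ℚ)⁻¹ else 0) = 1 := by
  rw [← Euler_orb, sum_congr rfl fun i _ => by rw [Euler_inv σ (x := x) ⟨(i : ℤ), by simp⟩]]
  simp [(Euler_pos σ x).ne']

theorem Euler_avg (u : D → ℚ) :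
    ∑ d, (minimalPeriod σ d : ℚ)⁻¹ * ∑ i ∈ range (minimalPeriod σ d), u ((σ ^ i) d) = ∑ d, u d := by
  classical
  simp only [Euler_orb, mul_sum]
  rw [sum_comm]
  refine sum_congr rfl fun x _ => ?_
  refine Eq.trans ?_ (one_mul (u x))
  rw [← Euler_one σ x, sum_mul]
  refine sum_congr rfl fun d _ => ?_
  by_cases h : σ.SameCycle x d
  · simp [h, h.symm]
  · simp [h, mt Perm.SameCycle.symm h]

/-- the invariant functions -/
def EulerInv : Submodule (ZMod 2) (D → ZMod 2) :=
  LinearMap.range (LinearMap.funLeft (ZMod 2) (ZMod 2) (Quotient.mk (Perm.SameCycle.setoid σ)))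

theorem Euler_mem {c : D → ZMod 2} : c ∈ EulerInv σ ↔ ∀ d, c (σ d) = c d := by
  constructor
  · rintro ⟨g, rfl⟩ d
    exact congrArg g (Quotient.sound (show σ.SameCycle (σ d) d by simp [Perm.SameCycle.refl]))
  · refine fun h => ⟨Quotient.lift c fun x y (hxy : σ.SameCycle x y) => ?_, rfl⟩
    obtain ⟨i, rfl⟩ := hxy.exists_nat_pow_eq
    clear hxy
    induction i with
    | zero => rfl
    | succ i ih => rw [pow_succ', Perm.mul_apply, h, ih]

theorem Euler_dim :
    (Module.finrank (ZMod 2) (EulerInv σ) : ℚ) = ∑ d, (minimalPeriod σ d : ℚ)⁻¹ := by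
  classical
  rw [EulerInv, LinearMap.finrank_range_of_inj
    (LinearMap.funLeft_injective_of_surjective _ _ _ Quotient.mk_surjective),
    Module.finrank_fintype_fun_eq_card, ← sum_fiberwise univ (Quotient.mk (Perm.SameCycle.setoid σ)),
    Fintype.card_eq_sum_ones]
  push_cast
  refine sum_congr rfl fun q _ => ?_
  obtain ⟨x, rfl⟩ := Quotient.mk_surjective q
  rw [← Euler_one σ x, sum_filter]
  refine sum_congr rfl fun d _ => if_congr ?_ rfl rfl
  rw [Quotient.eq]
  exact Perm.sameCycle_comm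

end

theorem Euler_ineq [Nonempty D] (hc : G.Cubic) (hp : G.Planar) :
    (Fintype.card D : ℚ) + 6 ≤ 6 * ∑ d, (G.deg d : ℚ)⁻¹ := by
  have h2 : ∀ d, minimalPeriod G.e d = 2 := fun d => minimalPeriod_eq_prime (G.ee d) (G.e_ne d)
  have h3 : ∀ d, minimalPeriod G.n d = 3 := fun d =>
    have : Fact (Nat.Prime 3) := ⟨Nat.prime_three⟩
    minimalPeriod_eq_prime (hc d) (G.n_ne d)
  have e2 := Euler_dim G.e
  have e3 := Euler_dim G.n
  have e4 := Euler_dim G.f
  simp only [h2, h3, sum_const, card_univ, nsmul_eq_mul] at e2 e3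
  let V : (D → ZMod 2) →ₗ[ZMod 2] (D → ZMod 2) := LinearMap.id + LinearMap.funLeft _ _ G.n +
    LinearMap.funLeft _ _ fun d => G.n (G.n d)
  let W : (D → ZMod 2) →ₗ[ZMod 2] (D → ZMod 2) := LinearMap.id + LinearMap.funLeft _ _ G.e
  have hV : ∀ c d, V c d = c d + c (G.n d) + c (G.n (G.n d)) := fun _ _ => rfl
  have hW : ∀ c d, W c d = c d + c (G.e d) := fun _ _ => rfl
  have r1 := LinearMap.finrank_range_add_finrank_ker (V.domRestrict (EulerInv G.e))
  have r2 := LinearMap.finrank_range_add_finrank_ker (W.domRestrict (EulerInv G.f))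
  have r3 : LinearMap.range (V.domRestrict (EulerInv G.e)) ≤ EulerInv G.n := by
    rintro _ ⟨c, rfl⟩
    refine (Euler_mem _).2 fun d => ?_
    simp only [LinearMap.domRestrict_apply, hV, hc d]
    ring
  have r4 : (LinearMap.ker (V.domRestrict (EulerInv G.e))).map (EulerInv G.e).subtype ≤
      LinearMap.range (W.domRestrict (EulerInv G.f)) := by
    rintro _ ⟨c, h, rfl⟩
    obtain ⟨g, g1, g2⟩ := hp c ⟨(Euler_mem _).1 c.2, fun d => by
      rw [vsum, if_neg fun h' => G.n_ne d (by simpa [h'] using hc d)]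
      exact congrFun (LinearMap.mem_ker.1 h) d⟩
    exact ⟨⟨g, (Euler_mem _).2 g1⟩, funext fun d => (g2 d).symm⟩
  have r5 : 0 < Module.finrank (ZMod 2) (LinearMap.ker (W.domRestrict (EulerInv G.f))) :=
    Module.finrank_pos_iff_exists_ne_zero.2 ⟨⟨⟨1, (Euler_mem _).2 fun _ => rfl⟩,
      funext fun _ => show (1 : ZMod 2) + 1 = 0 from rfl⟩, fun h =>
        one_ne_zero (congrFun (congrArg (fun x => x.1.1) h) (Classical.arbitrary D))⟩
  have r6 := Submodule.finrank_mono r3
  have r7 := Submodule.finrank_mono r4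
  rw [Submodule.finrank_map_subtype_eq] at r7
  have r8 : (Module.finrank (ZMod 2) (EulerInv G.e) : ℚ) + 1 ≤
      Module.finrank (ZMod 2) (EulerInv G.n) + Module.finrank (ZMod 2) (EulerInv G.f) := by
    exact_mod_cast (by omega)
  rw [e2, e3, e4] at r8
  push_cast at r8
  simp only [deg]
  linarith only [r8]

/-- the only geometric identity the navigation needs -/
theorem nav_id (hc : G.Cubic) (x : D) : G.e (G.f⁻¹ (G.e x)) = G.f (G.e (G.f x)) := by
  have h : G.f⁻¹ (G.e x) = G.e (G.n (G.n (G.e x))) := by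
    rw [Perm.inv_eq_iff_eq, f_apply, G.ee, hc]
  rw [h, G.ee, f_apply, G.ee, f_apply]

theorem deg_pos (d : D) : 0 < G.deg d := Euler_pos _ d

theorem deg_f (d : D) (t : ℤ) : G.deg ((G.f ^ t) d) = G.deg d := Euler_inv _ ⟨t, rfl⟩

theorem f_pow_deg (d : D) : (G.f ^ G.deg d) d = d := iterate_minimalPeriod

/-- some face ends with positive charge, whatever `out` sends along the darts -/
theorem exists_pos [Nonempty D] (hc : G.Cubic) (hp : G.Planar) {c : ℤ} (h0 : 0 < c) (out : D → ℤ) :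
    ∃ d, 0 < c * (6 - (G.deg d : ℤ)) +
      ∑ i ∈ range (G.deg d), (out (G.e ((G.f ^ i) d)) - out ((G.f ^ i) d)) := by
  by_contra! h
  have h1 := Euler_avg G.f fun x => (out (G.e x) : ℚ) - out x
  rw [sum_sub_distrib, Equiv.sum_comp G.e fun x => (out x : ℚ), sub_self] at h1
  have h2 : ∑ d, ((c : ℚ) * (6 * (G.deg d : ℚ)⁻¹ - 1) + (G.deg d : ℚ)⁻¹ *
      ∑ i ∈ range (G.deg d), ((out (G.e ((G.f ^ i) d)) : ℚ) - out ((G.f ^ i) d))) ≤ 0 := by
    refine sum_nonpos fun d _ => ?_
    have h3 : (0 : ℚ) < G.deg d := Nat.cast_pos.2 (deg_pos d)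
    have h4 : (c : ℚ) * (6 - (G.deg d : ℚ)) +
        ∑ i ∈ range (G.deg d), ((out (G.e ((G.f ^ i) d)) : ℚ) - out ((G.f ^ i) d)) ≤ 0 := by
      exact_mod_cast h d
    refine le_of_eq_of_le ?_ (mul_nonpos_of_nonneg_of_nonpos (inv_pos.2 h3).le h4)
    field_simp
  rw [sum_add_distrib, ← mul_sum, sum_sub_distrib, ← mul_sum] at h2
  simp only [sum_const, card_univ, nsmul_eq_mul, mul_one] at h2
  have h5 : (0 : ℚ) < c := Int.cast_pos.2 h0
  have h6 := Euler_ineq hc hp
  simp only [deg] at h2 h6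
  nlinarith only [h1, h5, h2, h6]

end Pool.Agent.MP_8c1b0d_co.CT4.Map

/-! Navigation in a configuration; reverse positions are reverse darts. -/

namespace Pool.Agent.MP_8c1b0d_co.CT4.Conf

open Equiv Finset Function

variable {C : Conf}

/-- TASK Nav (all lemmas of this file). -/
theorem N_congr {w i j : ℕ} (h : i % C.γ w = j % C.γ w) : C.N w i = C.N w j := by
  unfold N
  rw [h]

theorem far_congr {w i j : ℕ} (h : i % C.γ w = j % C.γ w) : C.far w i = C.far w j := by
  unfold far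
  rw [N_congr h]

theorem rev_congr {w i j : ℕ} (h : i % C.γ w = j % C.γ w) : C.rev w i = C.rev w j := by
  unfold rev
  rw [far_congr h]

theorem pre_succ_mod (hw : C.WF) {w : ℕ} (h : w < C.k) (i : ℕ) :
    (C.pre w i + 1) % C.γ w = i % C.γ w := by
  have := (hw.gam w h).1
  rw [pre, show i + C.γ w - 1 + 1 = i + C.γ w by omega, Nat.add_mod_right]

theorem pre_succ_mod' (hw : C.WF) {w : ℕ} (h : w < C.k) (i : ℕ) :
    C.pre w (i + 1) % C.γ w = i % C.γ w := by
  rw [pre, show i + 1 + C.γ w - 1 = i + C.γ w by omega, Nat.add_mod_right]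

theorem pre_congr (hw : C.WF) {w i j : ℕ} (h : w < C.k) (hij : i % C.γ w = j % C.γ w) :
    C.pre w i % C.γ w = C.pre w j % C.γ w := by
  have := (hw.gam w h).1
  rw [pre, pre, Nat.add_sub_assoc this, Nat.add_sub_assoc this]
  exact Nat.ModEq.add_right _ hij

theorem far_lt (hw : C.WF) {w : ℕ} (h : w < C.k) (i : ℕ) : C.far w i < C.k := by
  have := hw.lab w h i
  unfold far
  omega

theorem far_rev (hw : C.WF) {w i : ℕ} (h : w < C.k) (hr : C.r ≤ C.N w i) :
    C.far (C.far w i) (C.rev w i) = w := by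
  rw [far, hw.sym w h i hr, Nat.add_sub_cancel_left]

theorem rev_rev (hw : C.WF) {w i : ℕ} (h : w < C.k) (hr : C.r ≤ C.N w i) :
    C.rev (C.far w i) (C.rev w i) % C.γ w = i % C.γ w := by
  have h1 := hw.sym _ (far_lt hw h i) (C.rev w i) (by rw [hw.sym w h i hr]; omega)
  rw [far_rev hw h hr] at h1
  exact hw.nodup w h _ _ (h1.trans (Nat.add_sub_cancel' hr))

/-- the triangle rule read from the other side (`tc` at the reverse position) -/
theorem tc' (hw : C.WF) {w i : ℕ} (h : w < C.k) (hr : C.r ≤ C.N w i) :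
    C.N (C.far w i) (C.pre (C.far w i) (C.rev w i)) = C.N w (i + 1) := by
  rw [← hw.tc _ (far_lt hw h i) (C.rev w i) (by rw [hw.sym w h i hr]; omega), far_rev hw h hr]
  exact N_congr (Nat.ModEq.add_right 1 (rev_rev hw h hr))

theorem InX.symm {a b : ℕ} (h : C.InX a b) : C.InX b a := by
  obtain ⟨p, hp, h⟩ := h
  exact ⟨p, hp, h.symm⟩

variable {D : Type} [Fintype D] {G : Map D} {b : ℕ → D}

omit [Fintype D] in
theorem psi_succ (w i : ℕ) : G.f (psi G b w i) = psi G b w (i + 1) := by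
  rw [psi, psi, pow_succ', Perm.mul_apply]

omit [Fintype D] in
theorem psi_sf (w i : ℕ) : G.sf (b w) (psi G b w i) := by
  exact ⟨i, by rw [zpow_natCast]; rfl⟩

theorem psi_eq_iff {w : ℕ} (hd : G.deg (b w) = C.γ w) (i j : ℕ) :
    psi G b w i = psi G b w j ↔ i % C.γ w = j % C.γ w := by
  have h0 := minimalPeriod_pos_of_mem_periodicPts (G.f.injective.mem_periodicPts (b w))
  rw [← hd, Map.deg, ← iterate_eq_iterate_iff_of_lt_minimalPeriod (Nat.mod_lt _ h0) (Nat.mod_lt _ h0),
    iterate_mod_minimalPeriod_eq, iterate_mod_minimalPeriod_eq]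
  rfl

theorem exists_psi {w : ℕ} {d : D} (h : G.sf (b w) d) : ∃ i, d = psi G b w i := by
  obtain ⟨i, -, hi⟩ := h.exists_pow_eq'
  exact ⟨i, hi.symm⟩

/-- `n (n x) = e (f⁻¹ x)` -/
theorem nn_psi (hc : G.Cubic) (hw : C.WF) {w : ℕ} (h : w < C.k) (hd : G.deg (b w) = C.γ w)
    (i : ℕ) : G.n (G.n (psi G b w i)) = G.e (psi G b w (C.pre w i)) := by
  rw [← (psi_eq_iff hd _ _).2 (pre_succ_mod hw h i), ← psi_succ, G.f_apply, hc]

theorem Pre.n_psi (hP : C.Pre G b) {w i : ℕ} (h : w < C.k) (hr : C.r ≤ C.N w i) :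
    G.n (psi G b w i) = psi G b (C.far w i) (C.rev w i + 1) := by
  rw [← psi_succ, ← hP.central w h i hr, G.f_apply, G.ee]

theorem Pre.n_psi' (hc : G.Cubic) (hw : C.WF) (hP : C.Pre G b) {w i : ℕ} (h : w < C.k)
    (hr : C.r ≤ C.N w (C.pre w i)) :
    G.n (psi G b w i) = G.e (psi G b (C.far w (C.pre w i))
      (C.pre (C.far w (C.pre w i)) (C.rev w (C.pre w i)))) := by
  rw [← nn_psi hc hw (far_lt hw h _) (hP.deg _ (far_lt hw h _)), ← hP.central w h _ hr,
    ← nn_psi hc hw h (hP.deg w h), hc]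

/-- a ring position looks at the face of the leg with the same label (induction along `Walk`:
`e x` and `n x = f (e x)` lie in one face; use `isleg`, or `n_psi'` and `tc'`) -/
theorem Pre.ring_face (hc : G.Cubic) (hw : C.WF) (hP : C.Pre G b) {w i : ℕ} (h : w < C.k)
    (hr : C.N w i < C.r) : G.sf (G.e (psi G b w i)) (C.leg G b (C.N w i)) := by
  have h0 : ∀ x, G.sf (G.e x) (G.n x) := fun x => ⟨1, by rw [zpow_one, G.f_apply, G.ee]⟩
  have h1 : ∀ w < C.k, ∀ i, C.N w i < C.r → C.N w (C.pre w i) < C.r →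
      G.sf (G.e (psi G b w i)) (C.leg G b (C.N w i)) := by
    intro w h i hr hr'
    rw [leg, hw.isleg w h i hr hr', (psi_eq_iff (hP.deg w h) _ _).2 (Nat.mod_mod i _)]
    exact h0 _
  have key : ∀ m, ∀ w < C.k, ∀ i, C.N w i < C.r → C.Walk m w i →
      G.sf (G.e (psi G b w i)) (C.leg G b (C.N w i)) := by
    intro m
    induction m with
    | zero => exact h1
    | succ m ih =>
      intro w h i hr hm
      rcases lt_or_ge (C.N w (C.pre w i)) C.r with h2 | h2
      · exact h1 w h i hr h2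
      · have h3 := (tc' hw h h2).trans (N_congr (pre_succ_mod hw h i))
        have h4 := ih _ (far_lt hw h _) _ (h3 ▸ hr) (hm.resolve_left h2.not_gt)
        rw [h3, ← hP.n_psi' hc hw h h2] at h4
        exact (h0 _).trans h4
  exact key 3 w h i hr (hw.walk w h i hr)

/-- Sizes come from the masks `2 ^ γ w` with `γ w < 12`. Induction on `Cen` for the statement
`w < k ∧ r ≤ N w i ∧ e (psi w i) = psi (far w i) (rev w i)`. Tree: `b w = e (f ^ rev w 0 (b (far w 0)))`
by the definition of `path` (if `far w 0 ≠ 0` then `far (far w 0) 0 = 0`). Triangle: with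
`x = psi w i`, `n x = psi w' (rev w i + 1)`, `n (n x) = psi w'' (rev w (pre w i))`, so `e (n x)` is
`f⁻¹ (n (n x))`, the position before; identify it with the reverse position by `tc`, `tc'`,
`nodup`, `sym`. -/
theorem pre_of_holds (hc : G.Cubic) (hw : C.WF) {d : D} (h : G.Holds C.pattern d) :
    C.Pre G fun w => G.go d (C.path w) := by
  set b : ℕ → D := fun w => G.go d (C.path w) with hb
  have hd : ∀ w < C.k, G.deg (b w) = C.γ w := by
    intro w hk
    have h1 := h (C.path w, 2 ^ C.γ w) (List.mem_map.2 ⟨w, List.mem_range.2 hk, rfl⟩)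
    rw [Nat.testBit_two_pow, decide_eq_true_iff] at h1
    have h2 := (hw.gam w hk).2
    change C.γ w = min (G.deg (b w)) 12 at h1
    omega
  have key : ∀ w i, C.Cen w i → w < C.k ∧ C.r ≤ C.N w i ∧
      G.e (psi G b w i) = psi G b (C.far w i) (C.rev w i) := by
    intro w i hi
    induction hi with
    | tree w h0 hk =>
      obtain ⟨h1, h2⟩ := hw.par w hk h0
      refine ⟨hk, h1, ?_⟩
      by_cases h3 : C.far w 0 = 0
      · simp only [psi, pow_zero, hb, Map.go, path, h0.ne', ↓ reduceIte, h3, List.foldl_cons, zpow_natCast, List.foldl_nil, Perm.coe_one, id_eq, G.ee]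
      · simp only [psi, pow_zero, hb, Map.go, path, h0.ne', ↓ reduceIte, h3, List.foldl_cons, zpow_natCast, List.foldl_nil, Perm.coe_one, id_eq, G.ee, h2.resolve_left h3]
    | rev w i _ ih =>
      obtain ⟨hk, hr, he⟩ := ih
      refine ⟨far_lt hw hk i, by rw [hw.sym w hk i hr]; omega, ?_⟩
      rw [← he, G.ee, far_rev hw hk hr]
      exact (psi_eq_iff (hd w hk) _ _).2 (rev_rev hw hk hr).symm
    | tri w i _ _ ih ih' =>
      obtain ⟨hk, hr, he⟩ := ih
      obtain ⟨-, hr', he'⟩ := ih'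
      have h1 := hw.tc w hk i hr
      have h2 : C.far (C.far w i) (C.rev w i + 1) = C.far w (C.pre w i) := by rw [far, h1, far]
      have h3 := hw.sym _ (far_lt hw hk i) _ (h1 ▸ hr')
      have h4 := far_lt hw hk (C.pre w i)
      refine ⟨far_lt hw hk i, h1 ▸ hr', ?_⟩
      rw [h2] at h3 ⊢
      rw [← (psi_eq_iff (hd _ h4) _ _).2 (hw.nodup _ h4 _ _ (((tc' hw hk hr').trans
        (N_congr (pre_succ_mod hw hk i))).trans ((Nat.add_sub_cancel' hr).symm.trans h3.symm))),
        ← psi_succ, ← he, G.f_apply, G.ee,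
        ← G.e.apply_eq_iff_eq, G.ee, ← nn_psi hc hw h4 (hd _ h4), ← he', ← nn_psi hc hw hk (hd w hk), hc]
    | mod w i j _ hij ih =>
      obtain ⟨hk, hr, he⟩ := ih
      rw [← N_congr hij, ← far_congr hij, ← rev_congr hij, ← (psi_eq_iff (hd w hk) _ _).2 hij]
      exact ⟨hk, hr, he⟩
  exact ⟨hd, fun w hk i hr => (key w i (hw.shell w hk i hr)).2.2⟩

end Pool.Agent.MP_8c1b0d_co.CT4.Conf

/-! A Boolean test for well formed configurations. The tables of sizes and labels are packed
into numbers; all loops are raw recursors. -/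

namespace Pool.Agent.MP_8c1b0d_co.CT4

namespace WFB

noncomputable section

/-- `p i` for all `i < n` -/
def allR (n : ℕ) (p : ℕ → Bool) : Bool := Nat.rec true (fun i ih => p i && ih) n

/-- `p i` for some `i < n` -/
def anyR (n : ℕ) (p : ℕ → Bool) : Bool := Nat.rec false (fun i ih => p i || ih) n

/-- `p a` for all entries -/
def allL {α : Type} (l : List α) (p : α → Bool) : Bool := List.rec true (fun a _ ih => p a && ih) l

/-- evaluate a number before going on -/
def frc {α : Type} (x : ℕ) (f : ℕ → α) : α := Nat.rec (f 0) (fun n _ => f (Nat.succ n)) x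

/-- entry `n` of a list -/
def nth {α : Type} (d : α) (l : List α) : ℕ → α :=
  List.rec (fun _ => d) (fun x _ ih n => Nat.rec x (fun m _ => ih m) n) l

/-- bit `n` of `m` -/
def tb (m n : ℕ) : Bool := Nat.beq (Nat.mod (Nat.shiftRight m n) 2) 1

/-- set bit `n` of `m` -/
def sb (m n : ℕ) : ℕ := Nat.lor m (Nat.shiftLeft 1 n)

/-- pack the values of `f` in chunks of `s` bits -/
def enc {α : Type} (s : ℕ) (f : α → ℕ) (l : List α) : ℕ :=
  List.rec 0 (fun a _ ih => Nat.add (f a) (Nat.shiftLeft ih s)) l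

/-- chunk `i` -/
def dec (s x i : ℕ) : ℕ := Nat.mod (Nat.shiftRight x (Nat.mul s i)) (Nat.shiftLeft 1 s)

/-- the first of `n` chunks that equals `a` -/
def idx (a n : ℕ) : ℕ → ℕ :=
  Nat.rec (fun _ => 0) (fun _ ih x =>
    cond (Nat.beq (Nat.mod x 256) a) 0 (Nat.succ (ih (Nat.shiftRight x 8)))) n

/-- small entries, none repeated, none in the mask -/
def nd (l : List ℕ) : ℕ → Bool :=
  List.rec (fun _ => true) (fun a _ ih m => Nat.blt a 256 && !tb m a && ih (sb m a)) l

theorem allR_iff {n : ℕ} {p : ℕ → Bool} : allR n p = true ↔ ∀ i < n, p i = true := by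
  induction n with
  | zero => simp [allR]
  | succ n ih =>
    rw [show allR (n + 1) p = (p n && allR n p) from rfl, Bool.and_eq_true, ih,
      Nat.forall_lt_succ_right, and_comm]

theorem anyR_iff {n : ℕ} {p : ℕ → Bool} : anyR n p = true ↔ ∃ i < n, p i = true := by
  induction n with
  | zero => simp [anyR]
  | succ n ih =>
    rw [show anyR (n + 1) p = (p n || anyR n p) from rfl, Bool.or_eq_true, ih,
      Nat.exists_lt_succ_right, or_comm]

theorem allL_iff {α : Type} {l : List α} {p : α → Bool} :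
    allL l p = true ↔ ∀ a ∈ l, p a = true := by
  induction l with
  | nil => simp [allL]
  | cons a l ih =>
    rw [show allL (a :: l) p = (p a && allL l p) from rfl, Bool.and_eq_true, ih,
      List.forall_mem_cons]

theorem frc_eq {α : Type} (x : ℕ) (f : ℕ → α) : frc x f = f x := by
  cases x <;> rfl

theorem nth_eq {α : Type} (d : α) (l : List α) (n : ℕ) : nth d l n = l.getD n d := by
  induction l generalizing n with
  | nil => rfl
  | cons a l ih =>
    cases n with
    | zero => rfl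
    | succ n => exact ih n

theorem tb_eq (m n : ℕ) : tb m n = m.testBit n := by
  rw [Nat.testBit_eq_decide_div_mod_eq, ← Nat.shiftRight_eq_div_pow, Bool.eq_iff_iff, tb,
    Nat.beq_eq, decide_eq_true_iff]
  rfl

theorem tb_sb (m n j : ℕ) : tb (sb m n) j = true ↔ tb m j = true ∨ n = j := by
  rw [tb_eq, tb_eq, show sb m n = m ||| 1 <<< n from rfl, Nat.one_shiftLeft, Nat.testBit_or,
    Bool.or_eq_true, Nat.testBit_two_pow, decide_eq_true_iff]

theorem enc_cons {α : Type} (s : ℕ) (f : α → ℕ) (a : α) (l : List α) :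
    enc s f (a :: l) = f a + 2 ^ s * enc s f l := by
  rw [mul_comm, ← Nat.shiftLeft_eq]
  rfl

theorem dec_def (s x i : ℕ) : dec s x i = x / 2 ^ (s * i) % 2 ^ s := by
  rw [← Nat.shiftRight_eq_div_pow, ← Nat.one_shiftLeft]
  rfl

theorem dec_enc {α : Type} {s : ℕ} {f : α → ℕ} {d : α} (hd : f d = 0) {l : List α}
    (h : ∀ a ∈ l, f a < 2 ^ s) (i : ℕ) : dec s (enc s f l) i = f (l.getD i d) := by
  induction l generalizing i with
  | nil => simp [dec_def, enc, hd]
  | cons a l ih =>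
    have ha := h a List.mem_cons_self
    cases i with
    | zero => simp [dec_def, enc_cons, Nat.mod_eq_of_lt ha]
    | succ i =>
      rw [List.getD_cons_succ, ← ih fun b hb => h b (List.mem_cons_of_mem _ hb), dec_def, dec_def,
        enc_cons, mul_add_one, pow_add, mul_comm (2 ^ (s * i)), ← Nat.div_div_eq_div_mul,
        Nat.add_mul_div_left _ _ (by positivity), Nat.div_eq_of_lt ha, zero_add]

theorem idx_enc (a : ℕ) {l : List ℕ} (h : ∀ b ∈ l, b < 256) :
    idx a l.length (enc 8 (fun b => b) l) = l.idxOf a := by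
  induction l with
  | nil => rfl
  | cons b l ih =>
    have hb := h b List.mem_cons_self
    have e1 : Nat.mod (enc 8 (fun b => b) (b :: l)) 256 = b := by
      rw [enc_cons]
      change _ % 256 = b
      omega
    have e2 : Nat.shiftRight (enc 8 (fun b => b) (b :: l)) 8 = enc 8 (fun b => b) l := by
      rw [enc_cons]
      change _ >>> 8 = _
      omega
    change cond (Nat.beq (Nat.mod _ 256) a) 0 (Nat.succ (idx a l.length (Nat.shiftRight _ 8))) = _
    rw [e1, e2, ih fun c hc => h c (List.mem_cons_of_mem _ hc), List.idxOf_cons]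
    by_cases hab : b = a
    · simp [hab]
    · have : Nat.beq b a = false := by rw [← Bool.not_eq_true, Nat.beq_eq]; exact hab
      rw [this, beq_false_of_ne hab]

theorem nd_sound {l : List ℕ} {m : ℕ} (h : nd l m = true) :
    l.Nodup ∧ ∀ a ∈ l, a < 256 ∧ ¬ tb m a = true := by
  induction l generalizing m with
  | nil => simp
  | cons a l ih =>
    change (Nat.blt a 256 && !tb m a && nd l (sb m a)) = true at h
    simp only [Bool.and_eq_true, Nat.blt_eq, Bool.not_eq_true'] at h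
    obtain ⟨h1, h2⟩ := ih h.2
    refine ⟨List.nodup_cons.2 ⟨fun ha => (h2 a ha).2 ((tb_sb _ _ _).2 (.inr rfl)), h1⟩,
      List.forall_mem_cons.2 ⟨⟨h.1.1, by simp [h.1.2]⟩, fun b hb =>
        ⟨(h2 b hb).1, fun hm => (h2 b hb).2 ((tb_sb _ _ _).2 (.inl hm))⟩⟩⟩

variable (r k : ℕ) (γ : ℕ → ℕ) (N rev : ℕ → ℕ → ℕ) (L : ℕ → ℕ × ℕ) (X : List (ℕ × ℕ))

/-- the position before `i` -/
def pre (w i : ℕ) : ℕ := Nat.sub (Nat.add i (γ w)) 1

/-- the mask of the contract edges -/
def xm : ℕ :=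
  List.rec 0 (fun p _ m => sb (sb m (Nat.add (Nat.mul 64 (Nat.add r p.1)) (N p.1 p.2)))
    (Nat.add (Nat.mul 64 (N p.1 p.2)) (Nat.add r p.1))) X

/-- `a`, `b` are not joined by a contract edge -/
def nx (x a b : ℕ) : Bool := !tb x (Nat.add (Nat.mul 64 a) b)

/-- `a` is an end of a contract edge -/
def endB (a : ℕ) : Bool := X.any fun p => Nat.beq a (Nat.add r p.1) || Nat.beq a (N p.1 p.2)

/-- Boolean form of `Walk` -/
def walkB (m : ℕ) : ℕ → ℕ → Bool :=
  Nat.rec (fun w i => Nat.blt (N w (pre γ w i)) r) (fun _ ih w i =>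
    frc (pre γ w i) fun j => frc (N w j) fun b => Nat.blt b r ||
      frc (Nat.sub b r) fun v => ih v (pre γ v (rev w j))) m

/-- the position `(w, i)` is in the mask -/
def known (m w i : ℕ) : Bool :=
  frc (Nat.mod i (γ w)) fun j => Nat.blt j 16 && tb m (Nat.add (Nat.mul 16 w) j)

/-- add the position `(w, i)` to the mask -/
def add1 (m w i : ℕ) : ℕ :=
  frc (Nat.mod i (γ w)) fun j => cond (Nat.blt j 16) (sb m (Nat.add (Nat.mul 16 w) j)) m

/-- add the position `(w, i)` and its reverse to the mask -/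
def add2 (m w i : ℕ) : ℕ := add1 γ (add1 γ m w i) (Nat.sub (N w i) r) (rev w i)

/-- the positions of the parent tree -/
def mask0 : ℕ := Nat.rec 0 (fun w m => cond (Nat.blt 0 w) (add2 r γ N rev m w 0) m) k

/-- the triangles of the certificate -/
def mask (sh : List (ℕ × ℕ)) : ℕ → ℕ :=
  List.rec (fun m => m) (fun p _ ih m => frc m fun m => ih
    (cond (known γ m p.1 p.2 && known γ m p.1 (pre γ p.1 p.2))
      (frc (Nat.sub (N p.1 p.2) r) fun v => frc (Nat.succ (rev p.1 p.2)) fun j =>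
        add2 r γ N rev m v j) m)) sh

/-- the test at a position; `m` is the final mask, `x` the mask of the contract -/
def posB (m x w i : ℕ) : Bool :=
  frc (N w i) fun a => frc (N w (pre γ w i)) fun b =>
  Nat.blt a (Nat.add r k) &&
  (cond (Nat.blt a r)
    (walkB r γ N rev 3 w i && (Nat.ble r b || (Nat.beq (L a).1 w && Nat.beq (L a).2 i)))
    (frc (Nat.sub a r) fun v => frc (rev w i) fun j =>
      Nat.beq (N v j) (Nat.add r w) && Nat.beq (N v (Nat.succ j)) b && known γ m w i)) &&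
  (nx x (Nat.add r w) a || (nx x a b && nx x (Nat.add r w) b))

/-- the test at a kernel face -/
def faceB (m x w : ℕ) : Bool :=
  Nat.blt 0 (γ w) && Nat.blt (γ w) 12 &&
  (Nat.beq w 0 || (Nat.ble r (N w 0) && (Nat.beq (Nat.sub (N w 0) r) 0 ||
    Nat.beq (Nat.sub (N (Nat.sub (N w 0) r) 0) r) 0))) &&
  allR (γ w) (posB r k γ N rev L m x w)

/-- the test at a leg -/
def legB (j : ℕ) : Bool :=
  frc (L j).1 fun w => frc (L j).2 fun i => Nat.blt w k && Nat.blt i (γ w) &&
    Nat.beq (N w i) j && Nat.beq (N w (pre γ w i)) (Nat.mod (Nat.succ j) r)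

/-- `v` is a triad -/
def triadB (x v : ℕ) : Bool :=
  allR (γ v) (fun i => nx x (Nat.add r v) (N v i)) &&
  anyR (γ v) (fun i₃ => endB r N X (N v i₃) && anyR i₃ fun i₂ => endB r N X (N v i₂) &&
    anyR i₂ fun i₁ => endB r N X (N v i₁)) &&
  (!Nat.beq (γ v) 5 || anyR 5 fun i => nx x (N v i) (N v (pre γ v i)) &&
    nx x (N v (Nat.succ i)) (N v i))

/-- the whole test on given tables -/
def core (sh : List (ℕ × ℕ)) : Bool :=
  frc (mask r γ N rev sh (mask0 r k γ N rev)) fun m => frc (xm r N X) fun x =>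
  Nat.blt 0 k && allR k (faceB r k γ N rev L m x) && allR r (legB r k γ N L) &&
  Nat.blt 0 X.length && Nat.ble X.length 4 && (Nat.ble X.length 3 || anyR k (triadB r γ N X x)) &&
  allL X fun p => Nat.blt p.1 k

variable {C : Conf}

theorem nx_sound {a b : ℕ} (h : nx (xm C.r C.N C.X) a b = true) : ¬ C.InX a b := by
  rintro ⟨p, hp, hab⟩
  have : ∀ l : List (ℕ × ℕ), p ∈ l → tb (xm C.r C.N l) (Nat.add (Nat.mul 64 a) b) = true := by
    intro l hl
    induction l with
    | nil => simp at hl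
    | cons q l ih =>
      change tb (sb (sb (xm C.r C.N l) _) _) _ = true
      rw [tb_sb, tb_sb]
      rcases List.mem_cons.1 hl with rfl | hl
      · rcases hab with ⟨rfl, rfl⟩ | ⟨rfl, rfl⟩
        · exact .inl (.inr rfl)
        · exact .inr rfl
      · exact .inl (.inl (ih hl))
  rw [nx, this _ hp] at h
  exact absurd h (by decide)

theorem endB_sound {a : ℕ} (h : endB C.r C.N C.X a = true) : ∃ b, C.InX a b := by
  simp only [endB, List.any_eq_true, Bool.or_eq_true, Nat.beq_eq] at h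
  obtain ⟨p, hp, h | h⟩ := h
  · exact ⟨_, p, hp, Or.inl ⟨h, rfl⟩⟩
  · exact ⟨_, p, hp, Or.inr ⟨rfl, h⟩⟩

theorem walkB_sound (m : ℕ) {w i : ℕ} (h : walkB C.r C.γ C.N C.rev m w i = true) :
    C.Walk m w i := by
  induction m generalizing w i with
  | zero => exact Nat.blt_eq.mp h
  | succ m ih =>
    change (frc _ fun j => frc (C.N w j) fun b => Nat.blt b C.r || frc (Nat.sub b C.r) fun v =>
      walkB C.r C.γ C.N C.rev m v (pre C.γ v (C.rev w j))) = true at h
    simp only [frc_eq, Bool.or_eq_true, Nat.blt_eq] at h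
    exact h.imp_right ih

theorem pre_mod {w : ℕ} (h : 0 < C.γ w) (i : ℕ) :
    C.pre w (i % C.γ w) % C.γ w = C.pre w i % C.γ w := by
  rw [Conf.pre, Conf.pre, Nat.add_sub_assoc h, Nat.add_sub_assoc h]
  exact Nat.ModEq.add_right _ (Nat.mod_modEq _ _)

theorem walk_mod {m w i : ℕ} (h : 0 < C.γ w) (hm : C.Walk m w (i % C.γ w)) : C.Walk m w i := by
  cases m <;> simp only [Conf.Walk] at hm ⊢ <;>
    simpa only [Conf.N_congr (pre_mod h i), Conf.far_congr (pre_mod h i),
      Conf.rev_congr (pre_mod h i)] using hm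

/-- all positions of the mask are central -/
def Inv (C : Conf) (m : ℕ) : Prop :=
  ∀ w i, i < 16 → tb m (Nat.add (Nat.mul 16 w) i) = true → C.Cen w i

theorem Inv.known {m w i : ℕ} (hm : Inv C m) (h : known C.γ m w i = true) : C.Cen w i := by
  simp only [WFB.known, frc_eq, Bool.and_eq_true, Nat.blt_eq] at h
  exact .mod _ _ _ (hm _ _ h.1 h.2) (Nat.mod_mod _ _)

theorem Inv.add1 {m w i : ℕ} (hm : Inv C m) (h : C.Cen w i) : Inv C (add1 C.γ m w i) := by
  rw [WFB.add1, frc_eq]
  cases hb : Nat.blt (Nat.mod i (C.γ w)) 16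
  · exact hm
  · intro v j hj ht
    rw [Nat.blt_eq] at hb
    rcases (tb_sb _ _ _).1 ht with ht | ht
    · exact hm v j hj ht
    · change i % C.γ w < 16 at hb
      change 16 * w + i % C.γ w = 16 * v + j at ht
      obtain rfl : w = v := by omega
      obtain rfl : i % C.γ w = j := by omega
      exact .mod _ _ _ h (Nat.mod_mod _ _).symm

theorem Inv.add2 {m w i : ℕ} (hm : Inv C m) (h : C.Cen w i) :
    Inv C (add2 C.r C.γ C.N C.rev m w i) :=
  (hm.add1 h).add1 (.rev _ _ h)

theorem inv_mask0 {n : ℕ} (hn : n ≤ C.k) : Inv C (mask0 C.r n C.γ C.N C.rev) := by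
  induction n with
  | zero =>
    intro w i _ h
    simp [mask0, tb_eq] at h
  | succ n ih =>
    change Inv C (cond (Nat.blt 0 n) (add2 _ _ _ _ (mask0 C.r n C.γ C.N C.rev) n 0)
      (mask0 C.r n C.γ C.N C.rev))
    cases hb : Nat.blt 0 n
    · exact ih (by omega)
    · exact (ih (by omega)).add2 (.tree n (Nat.blt_eq.mp hb) hn)

theorem Inv.mask (sh : List (ℕ × ℕ)) {m : ℕ} (hm : Inv C m) :
    Inv C (mask C.r C.γ C.N C.rev sh m) := by
  induction sh generalizing m with
  | nil => exact hm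
  | cons p sh ih =>
    have e : WFB.mask C.r C.γ C.N C.rev (p :: sh) m = frc m fun m =>
      WFB.mask C.r C.γ C.N C.rev sh (cond (WFB.known C.γ m p.1 p.2 &&
        WFB.known C.γ m p.1 (pre C.γ p.1 p.2)) (frc (Nat.sub (C.N p.1 p.2) C.r) fun v =>
          frc (Nat.succ (C.rev p.1 p.2)) fun j => WFB.add2 C.r C.γ C.N C.rev m v j) m) := rfl
    simp only [e, frc_eq]
    apply ih
    cases hb : WFB.known C.γ m p.1 p.2 && WFB.known C.γ m p.1 (pre C.γ p.1 p.2)
    · exact hm
    · rw [Bool.and_eq_true] at hb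
      exact hm.add2 (.tri _ _ (hm.known hb.1) (hm.known hb.2))

theorem posB_sound {m w i : ℕ} (hm : Inv C m) (hg : 0 < C.γ w)
    (h : posB C.r C.k C.γ C.N C.rev C.L m (xm C.r C.N C.X) w (i % C.γ w) = true) :
    C.N w i < C.r + C.k ∧
    (C.N w i < C.r → C.Walk 3 w i ∧
      (C.N w (C.pre w i) < C.r → C.L (C.N w i) = (w, i % C.γ w))) ∧
    (C.r ≤ C.N w i → C.N (C.far w i) (C.rev w i) = C.r + w ∧
      C.N (C.far w i) (C.rev w i + 1) = C.N w (C.pre w i) ∧ C.Cen w i) ∧
    (C.InX (C.r + w) (C.N w i) →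
      ¬ C.InX (C.N w i) (C.N w (C.pre w i)) ∧ ¬ C.InX (C.r + w) (C.N w (C.pre w i))) := by
  have e := Nat.mod_mod i (C.γ w)
  have e' : C.N w (pre C.γ w (i % C.γ w)) = C.N w (C.pre w i) := Conf.N_congr (pre_mod hg i)
  simp only [posB, frc_eq, Conf.N_congr e, Conf.rev_congr e, e', Bool.and_eq_true,
    Bool.or_eq_true, Nat.blt_eq] at h
  obtain ⟨⟨h1, h2⟩, h3⟩ := h
  refine ⟨h1, fun hr => ?_, fun hr => ?_, fun hx =>
    (h3.resolve_left fun hn => nx_sound hn hx).imp nx_sound nx_sound⟩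
  · rw [Nat.blt_eq.mpr hr] at h2
    simp only [cond_true, Bool.and_eq_true, Bool.or_eq_true, Nat.ble_eq, Nat.beq_eq] at h2
    exact ⟨walk_mod hg (walkB_sound 3 h2.1), fun hr' =>
      Prod.ext (h2.2.resolve_left hr'.not_ge).1 (h2.2.resolve_left hr'.not_ge).2⟩
  · have hb : Nat.blt (C.N w i) C.r = false := by
      rw [← Bool.not_eq_true, Nat.blt_eq]
      exact hr.not_gt
    rw [hb] at h2
    simp only [cond_false, Bool.and_eq_true, Nat.beq_eq] at h2
    exact ⟨h2.1.1, h2.1.2, .mod _ _ _ (hm.known h2.2) e⟩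

theorem core_sound {sh : List (ℕ × ℕ)} (hn : ∀ l ∈ C.nb, l.Nodup)
    (h : core C.r C.k C.γ C.N C.rev C.L C.X sh = true) : C.WF := by
  simp only [core, faceB, legB, frc_eq, Bool.and_eq_true, Bool.or_eq_true, allR_iff, anyR_iff,
    allL_iff, Nat.blt_eq, Nat.ble_eq, Nat.beq_eq] at h
  obtain ⟨⟨⟨⟨⟨⟨h1, h2⟩, h3⟩, h4⟩, h5⟩, h6⟩, h7⟩ := h
  have hg : ∀ w < C.k, 0 < C.γ w := fun w hw => (h2 w hw).1.1.1
  have hp := fun w hw i => posB_sound (i := i) ((inv_mask0 le_rfl).mask sh) (hg w hw)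
    ((h2 w hw).2 _ (Nat.mod_lt _ (hg w hw)))
  refine ⟨h1, fun w hw => (h2 w hw).1.1, fun w hw i => (hp w hw i).1, fun w hw i j hij => ?_,
    fun w hw i hr => ((hp w hw i).2.2.1 hr).1, fun w hw i hr => ((hp w hw i).2.2.1 hr).2.1,
    fun w hw h0 => (h2 w hw).1.2.resolve_left h0.ne', fun w hw i hr => ((hp w hw i).2.2.1 hr).2.2,
    fun j hj => ⟨(h3 j hj).1.1.1, (h3 j hj).1.1.2, (h3 j hj).1.2, (h3 j hj).2⟩,
    fun w hw i hr => ((hp w hw i).2.1 hr).2, fun w hw i hr => ((hp w hw i).2.1 hr).1,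
    List.length_pos_iff.1 h4, h5, h6.imp_right fun ⟨v, hv, ht⟩ => ⟨v, hv, ?_⟩, h7,
    fun w hw i => (hp w hw i).2.2.2⟩
  · have hi : i % C.γ w < (C.nb.getD w []).length := Nat.mod_lt _ (hg w hw)
    have hj : j % C.γ w < (C.nb.getD w []).length := Nat.mod_lt _ (hg w hw)
    rw [Conf.N, Conf.N, List.getD_eq_getElem _ _ hi, List.getD_eq_getElem _ _ hj] at hij
    refine (hn _ ?_).getElem_inj_iff.1 hij
    rw [List.getD_eq_getElem _ _ hw]
    exact List.getElem_mem _
  · simp only [triadB, Bool.and_eq_true, Bool.or_eq_true, allR_iff, anyR_iff] at ht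
    obtain ⟨⟨t1, i₃, a3, b3, i₂, a2, b2, i₁, a1, b1⟩, t3⟩ := ht
    refine ⟨fun i => ?_, ⟨i₁, i₂, i₃, a1, a2, a3, endB_sound b1, endB_sound b2, endB_sound b3⟩,
      fun h5 => ?_⟩
    · rw [← Conf.N_congr (Nat.mod_mod i _)]
      exact nx_sound (t1 _ (Nat.mod_lt _ (hg v hv)))
    · obtain ⟨i, -, hi⟩ := t3.resolve_left (by simp [h5])
      exact ⟨i, hi.imp nx_sound nx_sound⟩

/-- length of a list -/
def len (l : List ℕ) : ℕ := List.rec 0 (fun _ _ ih => Nat.succ ih) l

theorem len_eq (l : List ℕ) : len l = l.length := by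
  induction l with
  | nil => rfl
  | cons a l ih => exact congrArg Nat.succ ih

/-- the label table read from the packed tables -/
def fN (G T w i : ℕ) : ℕ := dec 8 (dec 128 T w) (Nat.mod i (dec 8 G w))

/-- the reverse positions read from the packed tables -/
def fRev (r G T w i : ℕ) : ℕ :=
  frc (Nat.sub (fN G T w i) r) fun v => idx (Nat.add r w) (dec 8 G v) (dec 128 T v)

end

end WFB

namespace Conf

open WFB

/-- The test; `sh` is the certificate for `shell`: an entry `(w, i)` needs `(w, i)` and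
`(w, pre w i)` known and adds `(far w i, rev w i + 1)` and its reverse. -/
noncomputable def wfB (C : Conf) (sh : List (ℕ × ℕ)) : Bool :=
  allL C.nb (fun l => nd l 0 && Nat.blt (len l) 256 &&
    Nat.blt (enc 8 (fun b => b) l) (Nat.shiftLeft 1 128)) &&
  frc C.r fun r => frc C.k fun k => frc (enc 8 len C.nb) fun G =>
    frc (enc 128 (enc 8 fun b => b) C.nb) fun T =>
      core r k (dec 8 G) (fN G T) (fRev r G T) (nth (0, 0) C.legs) C.X sh

theorem wfB_sound {C : Conf} {sh : List (ℕ × ℕ)} (h : C.wfB sh = true) : C.WF := by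
  simp only [wfB, frc_eq, Bool.and_eq_true, allL_iff, Nat.blt_eq] at h
  obtain ⟨h1, h⟩ := h
  have hs : ∀ w, ∀ b ∈ C.nb.getD w [], b < 256 := by
    intro w b hb
    rcases lt_or_ge w C.nb.length with hw | hw
    · rw [List.getD_eq_getElem _ _ hw] at hb
      exact ((nd_sound (h1 _ (List.getElem_mem _)).1.1).2 b hb).1
    · rw [List.getD_eq_default _ _ hw] at hb
      exact absurd hb List.not_mem_nil
  have eG : dec 8 (enc 8 len C.nb) = C.γ := funext fun w =>
    (dec_enc (d := []) rfl (fun l hl => (h1 l hl).1.2) w).trans (len_eq _)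
  have eT : ∀ w, dec 128 (enc 128 (enc 8 fun b => b) C.nb) w =
      enc 8 (fun b => b) (C.nb.getD w []) :=
    dec_enc (d := []) rfl fun l hl => (h1 l hl).2.trans_eq (Nat.one_shiftLeft 128)
  have eN : fN (enc 8 len C.nb) (enc 128 (enc 8 fun b => b) C.nb) = C.N := by
    funext w i
    rw [fN, eG, eT]
    exact dec_enc (d := 0) rfl (hs w) _
  have eR : fRev C.r (enc 8 len C.nb) (enc 128 (enc 8 fun b => b) C.nb) = C.rev := by
    funext w i
    rw [fRev, frc_eq, eN, eG, eT]
    exact idx_enc _ (hs _)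
  have eL : nth (0, 0) C.legs = C.L := funext (nth_eq _ _)
  rw [eG, eN, eR, eL] at h
  exact core_sound (fun l hl => (nd_sound (h1 l hl).1.1).1) h

end Conf

end Pool.Agent.MP_8c1b0d_co.CT4

/-! Lists of configurations with their certificates. -/

namespace Pool.Agent.MP_8c1b0d_co.CT4.Chk

/-- a configuration with the data of the checker -/
structure Job where
  C : Conf
  sh : List (ℕ × ℕ)
  w₁ : ℕ
  t₁ : ET
  w₂ : ℕ
  t₂ : ET
  prog : List ℕ

noncomputable def Job.ok (T : Tab) (j : Job) : Bool :=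
  j.C.wfB j.sh && check T j.C j.w₁ j.t₁ j.w₂ j.t₂ j.prog

/-- all jobs of the list pass -/
def AllOk (T : Tab) : List Job → Prop
  | [] => True
  | j :: l => j.ok T = true ∧ AllOk T l

/-- all jobs of the list pass, as a Boolean -/
noncomputable def allB (T : Tab) (l : List Job) : Bool :=
  List.rec true (fun j _ ih => Bool.rec false ih (j.ok T)) l

theorem AllOk.last {T : Tab} : ∀ {l : List Job}, allB T l = true → AllOk T l
  | [], _ => True.intro
  | j :: l, h => by
    have h' : (Bool.rec false (allB T l) (j.ok T) : Bool) = true := h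
    cases e : j.ok T <;> rw [e] at h'
    · exact absurd h' Bool.false_ne_true
    · exact ⟨e, AllOk.last h'⟩

theorem AllOk.append {T : Tab} {l' : List Job} (h' : AllOk T l') :
    ∀ {l : List Job}, AllOk T l → AllOk T (l ++ l')
  | [], _ => h'
  | _ :: _, h => ⟨h.1, h'.append h.2⟩

theorem AllOk.step {T : Tab} (n : ℕ) {l : List Job} (h : allB T (l.take n) = true)
    (h' : AllOk T (l.drop n)) : AllOk T l :=
  List.take_append_drop n l ▸ h'.append (AllOk.last h)

end Pool.Agent.MP_8c1b0d_co.CT4.Chk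

/-! The reducibility checker: specifications. Definitions only. -/

namespace Pool.Agent.MP_8c1b0d_co.CT4.Chk

open Finset

/-- a bit as an element of the field with two elements -/
def bz (b : Bool) : ZMod 2 := if b then 1 else 0

/-- the colouring with index `j` -/
def dec (E₁ E₂ : List ℕ) (j a : ℕ) : K :=
  (bz ((E₁.getD a 0).testBit j), bz ((E₂.getD a 0).testBit j))

/-- the colour with code `c < 4` -/
def code (c : ℕ) : K := (bz (decide (2 ≤ c)), bz (decide (c % 2 = 1)))

/-- the `τ`-th subset of size `m` of `range n` -/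
def sbs : ℕ → ℕ → ℕ → Finset ℕ
  | 0, _, _ => ∅
  | n + 1, m, τ => if τ < n.choose m then sbs n m τ else insert n (sbs n (m - 1) (τ - n.choose m))

/-- the rank of `a` in `U` -/
def rk (U : Finset ℕ) (a : ℕ) : ℕ := (U.filter (· < a)).card

/-- the index with sign vector `m` and subset number `τ` in group `i + 1` -/
noncomputable def ix (r i m τ : ℕ) : ℕ := off r i + (m * wd r (i + 1) + τ)

/-- what the proofs use about the colourings `d j` -/
structure Layout (r : ℕ) (d : ℕ → ℕ → K) : Prop where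
  fst : ∀ i < r / 2, ∀ m < 2 ^ (2 * i), ∀ τ < wd r (i + 1), ∀ a < r,
    (d (ix r i m τ) a).1 = if a ∈ sbs r (2 * (i + 1)) τ then 1 else 0
  out : ∀ i < r / 2, ∀ m < 2 ^ (2 * i), ∀ τ < wd r (i + 1), ∀ a < r,
    a ∉ sbs r (2 * (i + 1)) τ → (d (ix r i m τ) a).2 = 1
  snd : ∀ i < r / 2, ∀ m < 2 ^ (2 * i), ∀ τ < wd r (i + 1), ∀ a ∈ sbs r (2 * (i + 1)) τ,
    rk (sbs r (2 * (i + 1)) τ) a ≠ 0 →
    (d (ix r i m τ) a).2 = bz (m.testBit (ex (i + 1) (rk (sbs r (2 * (i + 1)) τ) a)))
  sum : ∀ i < r / 2, ∀ m < 2 ^ (2 * i), ∀ τ < wd r (i + 1), ∑ a ∈ range r, d (ix r i m τ) a = 0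

/-- all colourings in `x` lie outside `S` -/
def Inv (r : ℕ) (d : ℕ → ℕ → K) (S : (ℕ → K) → Prop) (x : ℕ) : Prop :=
  ∀ j < tot r, x.testBit j = true → ¬ S (d j)

/-- the labels `b (i-1) … b 0` form a path of the tree -/
def Path (b : ℕ → ℕ) : ℕ → MT → Prop
  | 0, _ => True
  | i + 1, t => ∃ c, find (b i) t = some c ∧ Path b i c

/-- the change of the even sign bits that goes with the odd sign bits `α` below `i` -/
def mu (b : ℕ → ℕ) (α : ℕ) : ℕ → ℕ
  | 0 => 0
  | i + 1 => mu b α i ^^^ (if α.testBit i = true ∧ b i ≠ 0 then 2 ^ (b i - 1) else 0)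

/-- noncrossing perfect matchings of `range n` -/
def NC (n : ℕ) (M : ℕ → ℕ) : Prop := (∀ a < n, M a < n ∧ M a ≠ a ∧ M (M a) = a) ∧
  ∀ a < n, ∀ b < n, a < b → b < M a → a < M b ∧ M b < M a

/-- the network permutes the indices inside the colour symmetry classes -/
def NetSpec (r : ℕ) (d : ℕ → ℕ → K) (l : List (ℕ × ℕ)) : Prop :=
  ∀ x, ∀ j < tot r, (net l x).testBit j = true →
    ∃ j' < tot r, x.testBit j' = true ∧ ∃ σ : K ≃+ K, ∀ a < r, d j' a = σ (d j a)

/-- correct tables -/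
structure TabOk (T : Tab) (d : ℕ → ℕ → K) : Prop where
  lay : Layout T.r d
  net : NetSpec T.r d T.net
  H : ∀ j < tot T.r, ∀ c < 4, ∀ i < T.r,
    (hget T.H c i).testBit j = decide (∑ a ∈ range i, d j a = code c)
  mt : ∀ i < T.r / 2, cov (i + 1) i [] (some (nth MT.nil T.mt i)) = true

end Pool.Agent.MP_8c1b0d_co.CT4.Chk

/-! Basic facts on the bit operations of the checker. -/

namespace Pool.Agent.MP_8c1b0d_co.CT4.Chk

open Finset

/-- TASK Bits (all lemmas of this file). `Nat.land_eq`, `Nat.lor_eq`, `Nat.xor_eq`,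
`Nat.shiftLeft_eq'`, `Nat.shiftRight_eq`, `Nat.add_eq`, … turn the raw operations into the usual symbols. -/
theorem ones_eq (n : ℕ) : ones n = 2 ^ n - 1 := by
  show 1 <<< n - 1 = 2 ^ n - 1
  rw [Nat.one_shiftLeft]

theorem testBit_ones (n j : ℕ) : (ones n).testBit j = decide (j < n) := by
  rw [ones_eq, Nat.testBit_two_pow_sub_one]

theorem frc_eq (x : ℕ) (k : ℕ → ℕ) : frc x k = k x := by
  cases x <;> rfl

theorem seq_eq (x y : ℕ) : seq x y = y := by
  rfl

theorem orZ_eq (x y : ℕ) : orZ x y = x ||| y := by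
  cases x with
  | zero => exact (Nat.zero_or y).symm
  | succ x => rfl

theorem fold_zero (f : ℕ → ℕ → ℕ) (x : ℕ) : fold f x 0 = x := rfl

theorem fold_succ (f : ℕ → ℕ → ℕ) (x n : ℕ) : fold f x (n + 1) = f n (fold f x n) := rfl

theorem nth_eq {α : Type} (d : α) (l : List α) (n : ℕ) : nth d l n = l.getD n d := by
  induction l generalizing n with
  | nil => rfl
  | cons a l ih =>
    cases n with
    | zero => rfl
    | succ n => exact ih n

theorem bits_testBit_app {a t : ℕ} (ha : a < 2 ^ t) (b j : ℕ) :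
    (a ||| b <<< t).testBit j = if j < t then a.testBit j else b.testBit (j - t) := by
  rw [Nat.testBit_or, Nat.testBit_shiftLeft]
  by_cases h : j < t
  · have h1 : ¬ j ≥ t := by omega
    simp [h, h1]
  · have h1 : j ≥ t := by omega
    rw [Nat.testBit_lt_two_pow (ha.trans_le (Nat.pow_le_pow_right (by norm_num) h1))]
    simp [h, h1]

theorem bits_shift_lt {b u : ℕ} (hb : b < 2 ^ u) (t : ℕ) : b <<< t < 2 ^ (t + u) := by
  rw [Nat.shiftLeft_eq, pow_add, mul_comm]
  exact Nat.mul_lt_mul_of_pos_left hb (Nat.two_pow_pos t)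

theorem bits_app_lt {a b t u : ℕ} (ha : a < 2 ^ t) (hb : b < 2 ^ u) :
    a ||| b <<< t < 2 ^ (t + u) :=
  Nat.or_lt_two_pow (ha.trans_le (Nat.pow_le_pow_right (by norm_num) (Nat.le_add_right t u)))
    (bits_shift_lt hb t)

theorem bits_dbl_zero (x s : ℕ) : dbl x s 0 = x := rfl

theorem bits_dbl_succ (x s m : ℕ) :
    dbl x s (m + 1) = dbl x s m ||| dbl x s m <<< (s * 2 ^ m) := by
  rw [← Nat.shiftLeft_eq]
  rfl

theorem bits_dbl_lt {x s : ℕ} (hx : x < 2 ^ s) (m : ℕ) : dbl x s m < 2 ^ (s * 2 ^ m) := by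
  induction m with
  | zero => simpa [bits_dbl_zero] using hx
  | succ m ih =>
    have h : s * 2 ^ (m + 1) = s * 2 ^ m + s * 2 ^ m := by ring
    rw [bits_dbl_succ, h]
    exact bits_app_lt ih ih

theorem testBit_dbl {x s : ℕ} (hx : x < 2 ^ s) (m q : ℕ) {p : ℕ} (hp : p < s) :
    (dbl x s m).testBit (q * s + p) = (decide (q < 2 ^ m) && x.testBit p) := by
  induction m generalizing q with
  | zero =>
    rw [bits_dbl_zero]
    rcases Nat.eq_zero_or_pos q with rfl | hq
    · simp
    · have h1 : ¬ q < 2 ^ 0 := by omega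
      have h2 : s ≤ q * s + p := by nlinarith only [hq]
      rw [Nat.testBit_lt_two_pow (hx.trans_le (Nat.pow_le_pow_right (by norm_num) h2))]
      simp only [h1, decide_false, Bool.false_and]
  | succ m ih =>
    rw [bits_dbl_succ, bits_testBit_app (bits_dbl_lt hx m)]
    have h2 : 2 ^ (m + 1) = 2 ^ m + 2 ^ m := by rw [pow_succ]; omega
    by_cases hq : q < 2 ^ m
    · have h1 : q * s + p < s * 2 ^ m := by nlinarith only [hp, hq]
      rw [if_pos h1, ih q]
      have h3 : q < 2 ^ (m + 1) := by omega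
      simp only [hq, h3]
    · obtain ⟨q', rfl⟩ := Nat.exists_eq_add_of_le (Nat.le_of_not_lt hq)
      have h4 : (2 ^ m + q') * s + p = s * 2 ^ m + (q' * s + p) := by ring
      have h1 : ¬ (2 ^ m + q') * s + p < s * 2 ^ m := by omega
      rw [if_neg h1, h4, Nat.add_sub_cancel_left, ih q']
      have h3 : (2 ^ m + q' < 2 ^ (m + 1)) ↔ q' < 2 ^ m := by omega
      simp only [h3]

theorem dbl_lt {x s : ℕ} (hx : x < 2 ^ s) (m : ℕ) : dbl x s m < 2 ^ (s * 2 ^ m) := by
  exact bits_dbl_lt hx m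

theorem testBit_fold_lor (f : ℕ → ℕ) (x n j : ℕ) :
    (fold (fun i s => Nat.lor s (f i)) x n).testBit j = true ↔
      x.testBit j = true ∨ ∃ i < n, (f i).testBit j = true := by
  induction n with
  | zero => simp [fold_zero]
  | succ n ih =>
    rw [fold_succ, Nat.lor_eq, Nat.testBit_or, Bool.or_eq_true, ih]
    constructor
    · rintro ((h | ⟨i, hi, h⟩) | h)
      · exact Or.inl h
      · exact Or.inr ⟨i, by omega, h⟩
      · exact Or.inr ⟨n, by omega, h⟩
    · rintro (h | ⟨i, hi, h⟩)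
      · exact Or.inl (Or.inl h)
      · rcases Nat.lt_succ_iff_lt_or_eq.1 hi with h1 | rfl
        · exact Or.inl (Or.inr ⟨i, h1, h⟩)
        · exact Or.inr h

theorem bits_bz_xor (a b : Bool) : bz (a ^^ b) = bz a + bz b := by
  cases a <;> cases b <;> decide

theorem bz_fold_xor (f : ℕ → ℕ) (n j : ℕ) :
    bz ((fold (fun i s => Nat.xor s (f i)) 0 n).testBit j) =
      ∑ i ∈ range n, bz ((f i).testBit j) := by
  induction n with
  | zero => simp [fold_zero, bz]
  | succ n ih =>
    rw [fold_succ, Nat.xor_eq, Nat.testBit_xor, bits_bz_xor, ih, Finset.sum_range_succ]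

theorem ch_eq (n m : ℕ) : ch n m = n.choose m := by
  exact (Nat.choose_eq_descFactorial_div_factorial n m).symm

theorem wd_eq (r k : ℕ) : wd r k = r.choose (2 * k) := by
  exact ch_eq r (2 * k)

theorem sb_succ (i : ℕ) : sb (i + 1) = 2 * i := by
  show 2 * (i + 1) - 2 = 2 * i
  omega

theorem sz_succ (r i : ℕ) : sz r (i + 1) = 2 ^ (2 * i) * wd r (i + 1) := by
  show wd r (i + 1) <<< sb (i + 1) = _
  rw [sb_succ, Nat.shiftLeft_eq, mul_comm]

theorem off_succ (r i : ℕ) : off r (i + 1) = off r i + sz r (i + 1) := rfl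

theorem off_mono (r : ℕ) {i j : ℕ} (h : i ≤ j) : off r i ≤ off r j := by
  induction j, h using Nat.le_induction with
  | base => exact le_rfl
  | succ j _ ih => rw [off_succ]; omega

theorem ix_lt {r i m τ : ℕ} (hi : i < r / 2) (hm : m < 2 ^ (2 * i)) (hτ : τ < wd r (i + 1)) :
    ix r i m τ < tot r := by
  have h1 : off r (i + 1) ≤ off r (r / 2) := off_mono r hi
  have h2 : m * wd r (i + 1) + τ < sz r (i + 1) := by
    rw [sz_succ]
    nlinarith only [hm, hτ]
  rw [off_succ] at h1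
  show off r i + (m * wd r (i + 1) + τ) < off r (r / 2)
  omega

theorem bits_exists_off (r n : ℕ) {j : ℕ} (hj : j < off r n) :
    ∃ i < n, ∃ p < sz r (i + 1), j = off r i + p := by
  induction n with
  | zero => exact absurd hj (Nat.not_lt_zero j)
  | succ n ih =>
    by_cases h : j < off r n
    · obtain ⟨i, hi, p, hp, h1⟩ := ih h
      exact ⟨i, by omega, p, hp, h1⟩
    · rw [off_succ] at hj
      exact ⟨n, by omega, j - off r n, by omega, by omega⟩

theorem exists_ix {r j : ℕ} (hj : j < tot r) :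
    ∃ i < r / 2, ∃ m < 2 ^ (2 * i), ∃ τ < wd r (i + 1), j = ix r i m τ := by
  obtain ⟨i, hi, p, hp, rfl⟩ := bits_exists_off r (r / 2) hj
  rw [sz_succ] at hp
  have hW : 0 < wd r (i + 1) := by
    rcases Nat.eq_zero_or_pos (wd r (i + 1)) with h | h
    · rw [h] at hp
      omega
    · exact h
  refine ⟨i, hi, p / wd r (i + 1), (Nat.div_lt_iff_lt_mul hW).2 hp, p % wd r (i + 1),
    Nat.mod_lt _ hW, ?_⟩
  unfold ix
  rw [Nat.div_add_mod']

theorem bits_cat_aux {r : ℕ} {f : ℕ → ℕ} (n : ℕ) (hf : ∀ i < n, f (i + 1) < 2 ^ sz r (i + 1)) :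
    fold (fun i s => Nat.lor s (Nat.shiftLeft (f (Nat.succ i)) (off r i))) 0 n < 2 ^ off r n ∧
    ∀ i < n, ∀ p < sz r (i + 1),
      (fold (fun i s => Nat.lor s (Nat.shiftLeft (f (Nat.succ i)) (off r i))) 0 n).testBit
        (off r i + p) = (f (i + 1)).testBit p := by
  induction n with
  | zero => exact ⟨Nat.two_pow_pos _, fun i hi => absurd hi (Nat.not_lt_zero i)⟩
  | succ n ih =>
    obtain ⟨h1, h2⟩ := ih fun i hi => hf i (by omega)
    rw [fold_succ]
    generalize fold (fun i s => Nat.lor s (Nat.shiftLeft (f (Nat.succ i)) (off r i))) 0 n = y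
      at h1 h2 ⊢
    have e : Nat.lor y (Nat.shiftLeft (f (Nat.succ n)) (off r n)) =
        y ||| f (n + 1) <<< off r n := rfl
    rw [e]
    refine ⟨?_, fun i hi p hp => ?_⟩
    · rw [off_succ]
      exact bits_app_lt h1 (hf n (by omega))
    · rw [bits_testBit_app h1]
      rcases Nat.lt_succ_iff_lt_or_eq.1 hi with h3 | rfl
      · have h4 : off r (i + 1) ≤ off r n := off_mono r h3
        rw [off_succ] at h4
        rw [if_pos (by omega)]
        exact h2 i h3 p hp
      · rw [if_neg (by omega), Nat.add_sub_cancel_left]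

theorem testBit_cat {r : ℕ} {f : ℕ → ℕ} (hf : ∀ i < r / 2, f (i + 1) < 2 ^ sz r (i + 1)) {i p : ℕ}
    (hi : i < r / 2) (hp : p < sz r (i + 1)) :
    (cat r f).testBit (off r i + p) = (f (i + 1)).testBit p := by
  exact (bits_cat_aux (r / 2) hf).2 i hi p hp

theorem bits_pat_eq (W u e c : ℕ) : pat W (e + c + 1) u e =
    dbl (dbl u W e <<< (W * 2 ^ e)) (W * 2 ^ (e + 1)) c := by
  have h : e + c + 1 - (e + 1) = c := by omega
  rw [← Nat.shiftLeft_eq, ← Nat.shiftLeft_eq]
  show dbl (dbl u W e <<< (W <<< e)) (W <<< (e + 1)) (e + c + 1 - (e + 1)) = _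
  rw [h]

theorem bits_blk_lt {W u : ℕ} (hu : u < 2 ^ W) (e : ℕ) :
    dbl u W e <<< (W * 2 ^ e) < 2 ^ (W * 2 ^ (e + 1)) := by
  have h : W * 2 ^ (e + 1) = W * 2 ^ e + W * 2 ^ e := by ring
  rw [h]
  exact bits_shift_lt (dbl_lt hu e) _

theorem testBit_pat {W d u e : ℕ} (hu : u < 2 ^ W) (he : e < d) (m : ℕ) {τ : ℕ} (hτ : τ < W) :
    (pat W d u e).testBit (m * W + τ) = (decide (m < 2 ^ d) && m.testBit e && u.testBit τ) := by
  obtain ⟨c, rfl⟩ := Nat.exists_eq_add_of_lt he
  rw [bits_pat_eq]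
  have hP : 0 < 2 ^ (e + 1) := Nat.two_pow_pos _
  have hm' : m % 2 ^ (e + 1) < 2 ^ (e + 1) := Nat.mod_lt _ hP
  have h1 : m * W + τ = m / 2 ^ (e + 1) * (W * 2 ^ (e + 1)) + (m % 2 ^ (e + 1) * W + τ) := by
    have h := Nat.div_add_mod' m (2 ^ (e + 1))
    calc m * W + τ = (m / 2 ^ (e + 1) * 2 ^ (e + 1) + m % 2 ^ (e + 1)) * W + τ := by rw [h]
      _ = _ := by ring
  have h2 : m % 2 ^ (e + 1) * W + τ < W * 2 ^ (e + 1) := by nlinarith only [hτ, hm']
  rw [h1, testBit_dbl (bits_blk_lt hu e) c _ h2, Nat.testBit_shiftLeft]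
  have h3 : m / 2 ^ (e + 1) < 2 ^ c ↔ m < 2 ^ (e + c + 1) := by
    rw [Nat.div_lt_iff_lt_mul hP, ← pow_add, show c + (e + 1) = e + c + 1 by omega]
  have h4 : m.testBit e = (m % 2 ^ (e + 1)).testBit e := by
    rw [Nat.testBit_mod_two_pow]
    simp
  have h6 : 2 ^ (e + 1) = 2 ^ e + 2 ^ e := by rw [pow_succ]; omega
  simp only [h3]
  rw [h4, Bool.and_assoc]
  congr 1
  generalize m % 2 ^ (e + 1) = m' at hm' h2 ⊢
  by_cases h5 : m' < 2 ^ e
  · have h7 : ¬ m' * W + τ ≥ W * 2 ^ e := by nlinarith only [hτ, h5]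
    rw [Nat.testBit_lt_two_pow h5]
    simp only [h7, decide_false, Bool.false_and]
  · obtain ⟨a, rfl⟩ := Nat.exists_eq_add_of_le (Nat.le_of_not_lt h5)
    have ha : a < 2 ^ e := by omega
    have h8 : (2 ^ e + a) * W + τ = W * 2 ^ e + (a * W + τ) := by ring
    have h7 : (2 ^ e + a) * W + τ ≥ W * 2 ^ e := by omega
    rw [Nat.testBit_two_pow_add_eq, Nat.testBit_lt_two_pow ha]
    rw [decide_eq_true h7, h8, Nat.add_sub_cancel_left, testBit_dbl hu e a hτ, decide_eq_true ha]
    simp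

theorem pat_lt {W d u e : ℕ} (hu : u < 2 ^ W) (he : e < d) : pat W d u e < 2 ^ (2 ^ d * W) := by
  obtain ⟨c, rfl⟩ := Nat.exists_eq_add_of_lt he
  have h : 2 ^ (e + c + 1) * W = W * 2 ^ (e + 1) * 2 ^ c := by ring
  rw [bits_pat_eq, h]
  exact dbl_lt (bits_blk_lt hu e) c

theorem inX_iff (C : Conf) (a b : ℕ) : inX C C.X a b = true ↔ C.InX a b := by
  unfold inX Conf.InX
  simp only [List.any_eq_true, Bool.or_eq_true, Bool.and_eq_true, Nat.beq_eq, Nat.add_eq]

theorem inX_nil (C : Conf) (a b : ℕ) : inX C [] a b = false := rfl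

theorem code_inj {a b : ℕ} (ha : a < 4) (hb : b < 4) (h : code a = code b) : a = b := by
  interval_cases a <;> interval_cases b <;> first | rfl | exact absurd h (by decide)

theorem exists_code (x : K) : ∃ a < 4, code a = x := by
  revert x
  decide

end Pool.Agent.MP_8c1b0d_co.CT4.Chk

/-! What the unavoidability checker proves. A wheel gives a value below five to each of the `5 D`
positions; position `5 i + j` belongs to spoke `i`. -/

namespace Pool.Agent.MP_8c1b0d_co.CT4.UChk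

open Chk Finset

/-- the wheel lies in the mask `A` -/
def Fit (D A : ℕ) (ω : ℕ → ℕ) : Prop := ∀ p < 5 * D, A.testBit (5 * p + ω p) = true

/-- the wheel avoids the bits of `F` -/
def Av (D F : ℕ) (ω : ℕ → ℕ) : Prop := ∀ p < 5 * D, F.testBit (5 * p + ω p) = false

/-- the wheel seen from spoke `k` -/
def rt (D k : ℕ) (ω : ℕ → ℕ) : ℕ → ℕ := fun p => ω ((p + 5 * k) % (5 * D))

open scoped Classical in
/-- what a rule counts at spoke zero -/
noncomputable def Rl.val (a : Rl) (D : ℕ) (ω : ℕ → ℕ) : ℕ :=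
  if Fit D a.M ω ↔ a.neg = false then a.w else 0

/-- what all rules count at spoke zero -/
noncomputable def cost (D : ℕ) (l : List Rl) (ω : ℕ → ℕ) : ℕ := (l.map fun a => a.val D ω).sum

/-- what all rules count at the spokes in `S` -/
noncomputable def tot (D : ℕ) (l : List Rl) (ω : ℕ → ℕ) (S : ℕ) : ℕ :=
  ∑ i ∈ range D, if S.testBit i = true then cost D l (rt D i ω) else 0

/-- a class of wheels that is closed under rotation -/
structure Wh (D : ℕ) (W : Set (ℕ → ℕ)) : Prop where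
  lt : ∀ ω ∈ W, ∀ p, ω p < 5
  rot : ∀ ω ∈ W, ∀ k, rt D k ω ∈ W

/-- the tables of `X` belong to the rules `l` -/
def Ok (X : Ctx) (l : List Rl) : Prop :=
  0 < X.D ∧ X.D ≤ 12 ∧ X.sz = 64 * l.length ∧ X.R = rows X.D l ∧ X.y0 = pack (ini X.D) l ∧
    X.w0 = pack Rl.w l ∧ X.D * (l.map Rl.w).sum < 2 ^ 63

noncomputable instance (X : Ctx) (l : List Rl) : Decidable (Ok X l) := by
  unfold Ok; infer_instance

/-- the meaning of entry `n` -/
def Val (X : Ctx) (l : List Rl) (W : Set (ℕ → ℕ)) (n : ℕ) : Prop :=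
  ∀ ω ∈ W, X.cap < tot X.D l ω (ones X.D) → Av X.D (fb X n) ω →
    tot X.D l ω (Nat.xor (ones X.D) (co X n)) ≤ bd X n

/-- bit `q` of the field of the rule `a` has to stay -/
def Alive (D : ℕ) (a : Rl) (ω : ℕ → ℕ) (q : ℕ) : Prop :=
  (a.neg = false ∧ q = 0 ∧ Fit D a.M ω) ∨
    (a.neg = true ∧ q < 5 * D ∧ a.M.testBit (5 * q + ω q) = false)

/-- `T` holds all bits that have to stay at the spokes in `S` -/
def Keep (D : ℕ) (l : List Rl) (ω : ℕ → ℕ) (S T : ℕ) : Prop :=
  ∀ i < D, S.testBit i = true → ∀ r, ∀ a, l[r]? = some a → ∀ q, Alive D a (rt D i ω) q →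
    T.testBit (i * (64 * l.length) + (64 * r + q)) = true

/-- the top bits of all fields are zero -/
def Low (Y : ℕ) : Prop := ∀ k, Y.testBit (64 * k + 63) = false

theorem Keep.mono {D : ℕ} {l : List Rl} {ω : ℕ → ℕ} {S S' T : ℕ} (h : Keep D l ω S T)
    (hS : ∀ i < D, S'.testBit i = true → S.testBit i = true) : Keep D l ω S' T :=
  fun i hi hs => h i hi (hS i hi hs)

theorem Keep.and {D : ℕ} {l : List Rl} {ω : ℕ → ℕ} {S T T' : ℕ} (h : Keep D l ω S T)
    (h' : Keep D l ω S T') : Keep D l ω S (T &&& T') := fun i hi hs r a ha q hq => by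
  rw [Nat.testBit_and, h i hi hs r a ha q hq, h' i hi hs r a ha q hq, Bool.and_self]

theorem Low.and {Y : ℕ} (h : Low Y) (T : ℕ) : Low (Y &&& T) := fun k => by
  rw [Nat.testBit_and, h k, Bool.false_and]

end Pool.Agent.MP_8c1b0d_co.CT4.UChk
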