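import Pool.Agent.MP_8c1b0d_co.CT4.T13
import Pool.Agent.MP_8c1b0d_co.CT4.PB

/-! Reducible configurations. -/

namespace Pool.Agent.MP_8c1b0d_co.CT4.Chk

set_option maxRecDepth 100000
set_option exponentiation.threshold 100000

noncomputable def jobs2 : List Job := [⟨⟨8, [[9, 10, 11, 0, 7, 6], [8, 6, 5, 4, 10], [8, 9, 4, 3, 2, 11], [8, 10, 2, 1, 0]], [(3, 4), (3, 3), (2, 4), (2, 3), (1, 3), (1, 2), (0, 5), (0, 4)], [(0, 3), (0, 5), (2, 2), (2, 4)]⟩, [(0, 1), (0, 2)], 0, (.cons 2 0xf (.cons 1 0xf0f .nil (.cons 3 0xf0f .nil .nil)) .nil), 3, (.cons 0 0xf000 (.cons 2 0xf00f (.cons 1 0xf0f .nil .nil) .nil) .nil), [0, 0, 8, 0, 8, 0, 4, 0, 0, 8, 0, 4, 0]⟩,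
  ⟨⟨8, [[9, 10, 11, 12, 2, 1, 0], [8, 0, 7, 6, 10], [8, 9, 6, 5, 11], [8, 10, 5, 4, 12], [8, 11, 4, 3, 2]], [(0, 6), (0, 5), (4, 4), (4, 3), (3, 3), (2, 3), (1, 3), (1, 2)], [(1, 1), (1, 3), (2, 4)]⟩, [(0, 1), (0, 2), (0, 3)], 0, (.cons 2 0xf (.cons 1 0xf0f .nil (.cons 3 0xf0f (.cons 4 0xf00f .nil .nil) .nil)) .nil), 0, (.cons 2 0xf (.cons 1 0xf0f .nil (.cons 3 0xf0f (.cons 4 0xf00f .nil .nil) .nil)) .nil), [0, 0, 24, 0, 0, 12, 0, 0, 8, 0, 0]⟩,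
  ⟨⟨8, [[9, 10, 11, 6, 5, 4], [8, 4, 3, 2, 12, 10], [8, 9, 12, 0, 11], [8, 10, 0, 7, 6], [9, 2, 1, 0, 10]], [(4, 3), (4, 2), (1, 3), (1, 2), (0, 5), (0, 4), (3, 4), (3, 3)], [(0, 1), (0, 3), (0, 5)]⟩, [(0, 1), (0, 2), (1, 5)], 2, (.cons 0 0xf00 (.cons 1 0xf0f (.cons 4 0xff0 .nil .nil) (.cons 3 0xf0f .nil .nil)) .nil), 4, (.cons 2 0xf0000 (.cons 0 0xf0f00 (.cons 1 0xf0f0f .nil (.cons 3 0xf0f .nil .nil)) .nil) .nil), [0, 0, 24, 0, 0, 24, 0, 12, 0, 0, 8, 0, 0]⟩,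
  ⟨⟨8, [[9, 10, 11, 0, 7, 6], [8, 6, 5, 4, 12, 10], [8, 9, 12, 13, 11], [8, 10, 13, 2, 1, 0], [9, 4, 3, 13, 10], [10, 12, 3, 2, 11]], [(3, 5), (3, 4), (5, 3), (4, 2), (1, 3), (1, 2), (0, 5), (0, 4)], [(0, 0), (0, 2)]⟩, [(0, 1), (0, 2), (1, 5), (2, 3), (2, 4)], 0, (.cons 1 0xf (.cons 2 0xff (.cons 4 0xfff (.cons 5 0xf0f0f (.cons 3 0xf00f0f .nil .nil) .nil) .nil) .nil) .nil), 3, (.cons 0 0xf000 (.cons 1 0xf00f (.cons 4 0xf0ff (.cons 5 0xff0ff (.cons 2 0xfff0ff .nil .nil) .nil) .nil) .nil) .nil), [0, 0, 24, 0, 0, 12, 0, 0, 12, 0]⟩,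
  ⟨⟨8, [[9, 10, 0, 11, 12, 4], [8, 4, 3, 13, 10], [8, 9, 13, 1, 0], [8, 0, 7, 14, 12], [8, 11, 14, 5, 4], [9, 3, 2, 1, 10], [11, 7, 6, 5, 12]], [(2, 4), (5, 3), (5, 2), (1, 2), (4, 4), (6, 3), (6, 2), (3, 2)], [(0, 2), (0, 5)]⟩, [(0, 1), (0, 4), (1, 4), (3, 4)], 0, (.cons 1 0xf (.cons 2 0xff (.cons 5 0xff0 .nil .nil) .nil) (.cons 3 0xf (.cons 4 0xf00f (.cons 6 0xff000 .nil .nil) .nil) .nil)), 2, (.cons 0 0xf00 (.cons 1 0xf0f (.cons 5 0xff0 .nil .nil) (.cons 3 0xf (.cons 4 0xf00f (.cons 6 0xff000 .nil .nil) .nil) .nil)) .nil), [0, 0, 8, 0, 0, 8, 0, 16, 0, 0, 8, 0]⟩]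

noncomputable def jobs3 : List Job := [⟨⟨9, [[10, 11, 12, 13, 2, 1, 0], [9, 0, 8, 7, 11], [9, 10, 7, 6, 5, 12], [9, 11, 5, 4, 13], [9, 12, 4, 3, 2]], [(0, 6), (0, 5), (4, 4), (4, 3), (3, 3), (2, 4), (2, 3), (1, 3), (1, 2)], [(0, 1), (2, 2), (2, 4)]⟩, [(0, 1), (0, 2), (0, 3)], 0, (.cons 2 0xf (.cons 1 0xf0f .nil (.cons 3 0xf0f (.cons 4 0xf00f .nil .nil) .nil)) .nil), 0, (.cons 2 0xf (.cons 1 0xf0f .nil (.cons 3 0xf0f (.cons 4 0xf00f .nil .nil) .nil)) .nil), [0, 0, 28, 0, 0, 24, 0, 0, 12, 0, 0, 24, 0, 0, 12, 0, 0, 8]⟩,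
  ⟨⟨9, [[10, 11, 12, 13, 5, 4], [9, 4, 3, 2, 11], [9, 10, 2, 1, 0, 12], [9, 11, 0, 8, 7, 13], [9, 12, 7, 6, 5]], [(2, 4), (2, 3), (1, 3), (1, 2), (0, 5), (4, 4), (4, 3), (3, 4), (3, 3)], [(0, 1), (0, 5)]⟩, [(0, 1), (0, 2), (0, 3)], 2, (.cons 0 0xf00 (.cons 1 0xf0f .nil (.cons 3 0xf0f (.cons 4 0xf00f .nil .nil) .nil)) .nil), 2, (.cons 0 0xf00 (.cons 1 0xf0f .nil (.cons 3 0xf0f (.cons 4 0xf00f .nil .nil) .nil)) .nil), [0, 0, 24, 0, 0, 28, 0, 0, 24, 0, 0, 24, 0, 0, 8, 0, 0, 24, 0, 0]⟩,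
  ⟨⟨9, [[10, 11, 12, 13, 2, 1, 0], [9, 0, 8, 7, 14, 11], [9, 10, 14, 5, 12], [9, 11, 5, 4, 13], [9, 12, 4, 3, 2], [10, 7, 6, 5, 11]], [(0, 6), (0, 5), (4, 4), (4, 3), (3, 3), (5, 3), (5, 2), (1, 3), (1, 2)], [(0, 1), (1, 2), (2, 3)]⟩, [(0, 1), (0, 2), (0, 3), (1, 5)], 0, (.cons 2 0xf (.cons 1 0xf0f (.cons 5 0xff0 .nil .nil) (.cons 3 0xf0f (.cons 4 0xf00f .nil .nil) .nil)) .nil), 0, (.cons 2 0xf (.cons 1 0xf0f (.cons 5 0xff0 .nil .nil) (.cons 3 0xf0f (.cons 4 0xf00f .nil .nil) .nil)) .nil), [0, 0, 24, 0, 0, 28, 0, 0, 24, 0, 0, 24]⟩,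
  ⟨⟨9, [[10, 11, 12, 13, 14, 2, 1, 0], [9, 0, 8, 7, 11], [9, 10, 7, 6, 12], [9, 11, 6, 5, 13], [9, 12, 5, 4, 14], [9, 13, 4, 3, 2]], [(0, 7), (0, 6), (5, 4), (5, 3), (4, 3), (3, 3), (2, 3), (1, 3), (1, 2)], [(0, 0), (1, 3)]⟩, [(0, 1), (0, 2), (0, 3), (0, 4)], 0, (.cons 2 0xf (.cons 1 0xf0f .nil (.cons 3 0xf0f (.cons 4 0xf00f (.cons 5 0xf000f .nil .nil) .nil) .nil)) .nil), 0, (.cons 1 0xf (.cons 3 0xff (.cons 2 0xf0ff .nil (.cons 4 0xf00f (.cons 5 0xf000f .nil .nil) .nil)) .nil) .nil), [0, 0, 24, 0, 0, 28, 0, 0, 24, 0, 0, 8, 0, 0, 20, 0, 0, 24]⟩,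
  ⟨⟨9, [[10, 4, 13, 14, 0, 11], [9, 11, 12, 6, 5, 4], [9, 0, 8, 12, 10], [10, 11, 8, 7, 6], [9, 4, 3, 15, 14], [9, 13, 15, 1, 0], [13, 3, 2, 1, 14]], [(5, 4), (6, 3), (6, 2), (4, 2), (1, 5), (1, 4), (3, 4), (3, 3), (2, 2)], [(1, 1), (1, 3), (2, 2)]⟩, [(0, 0), (0, 3), (1, 2), (4, 4)], 0, (.cons 1 0xf (.cons 2 0xff (.cons 3 0xff0 .nil .nil) .nil) (.cons 4 0xf (.cons 5 0xf000f (.cons 6 0xff0000 .nil .nil) .nil) .nil)), 5, (.cons 1 0xf00000 (.cons 2 0xf000f0 (.cons 0 0xf00ff0 (.cons 4 0xf0000f (.cons 6 0xff0000 .nil .nil) .nil) (.cons 3 0xff0 .nil .nil)) .nil) .nil), [0, 0, 12, 0, 0, 24, 0, 0, 24, 0, 12, 0, 0, 16, 0, 0]⟩,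
  ⟨⟨9, [[10, 11, 12, 4, 13, 14, 0], [9, 0, 8, 7, 11], [9, 10, 7, 6, 12], [9, 11, 6, 5, 4], [9, 4, 3, 15, 14], [9, 13, 15, 1, 0], [13, 3, 2, 1, 14]], [(5, 4), (6, 3), (6, 2), (4, 2), (3, 4), (3, 3), (2, 3), (1, 3), (1, 2)], [(1, 1), (2, 3)]⟩, [(0, 1), (0, 2), (0, 5), (4, 4)], 0, (.cons 2 0xf (.cons 1 0xf0f .nil (.cons 3 0xf0f .nil .nil)) (.cons 4 0xf (.cons 5 0xf000f (.cons 6 0xff0000 .nil .nil) .nil) .nil)), 5, (.cons 0 0xf00000 (.cons 2 0xf (.cons 1 0xf0f .nil (.cons 3 0xf0f .nil .nil)) (.cons 4 0xf0000f (.cons 6 0xff0000 .nil .nil) .nil)) .nil), [0, 0, 24, 0, 0, 8, 0, 0, 12, 0, 0, 24, 0, 0, 8, 0, 0]⟩,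
  ⟨⟨9, [[10, 11, 12, 13, 2, 1, 0], [9, 0, 8, 7, 14, 11], [9, 10, 14, 15, 12], [9, 11, 15, 4, 13], [9, 12, 4, 3, 2], [10, 7, 6, 5, 15, 11], [11, 14, 5, 4, 12]], [(0, 6), (0, 5), (4, 4), (4, 3), (6, 3), (5, 3), (5, 2), (1, 3), (1, 2)], [(0, 0), (4, 2), (4, 4)]⟩, [(0, 1), (0, 2), (0, 3), (1, 5), (2, 3), (2, 4)], 0, (.cons 3 0xf (.cons 2 0xf00f (.cons 6 0xff0f (.cons 5 0xf000f0f (.cons 1 0xf00f0f .nil .nil) .nil) .nil) (.cons 4 0xf00f .nil .nil)) .nil), 0, (.cons 1 0xf (.cons 3 0xff (.cons 2 0xf0ff (.cons 6 0xfff0 (.cons 5 0xf000ff0 .nil .nil) .nil) (.cons 4 0xf00f .nil .nil)) .nil) .nil), [0, 0, 28, 0, 0, 24, 0, 0, 12, 0, 0]⟩,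
  ⟨⟨9, [[10, 11, 12, 4, 3, 2], [9, 2, 1, 0, 13, 11], [9, 10, 13, 14, 12], [9, 11, 14, 6, 5, 4], [10, 0, 8, 7, 14, 11], [11, 13, 7, 6, 12]], [(1, 3), (1, 2), (0, 5), (0, 4), (3, 5), (3, 4), (5, 3), (4, 3), (4, 2)], [(0, 0)]⟩, [(0, 1), (0, 2), (1, 5), (2, 3), (2, 4)], 1, (.cons 0 0xf0 (.cons 2 0xff (.cons 3 0xfff (.cons 5 0xfff0 (.cons 4 0xf00ff0 .nil .nil) .nil) .nil) .nil) .nil), 1, (.cons 0 0xf0 (.cons 2 0xff (.cons 4 0xfff (.cons 5 0xf0f0f (.cons 3 0xf00f0f .nil .nil) .nil) .nil) .nil) .nil), [0, 0, 28, 0, 0, 28, 0, 0, 24, 0, 0, 24, 0, 0, 24, 0, 0]⟩]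

noncomputable def jobs7 : List Job := [⟨⟨11, [[12, 13, 14, 15, 16, 2, 1, 0], [11, 0, 10, 17, 13], [11, 12, 17, 8, 14], [11, 13, 8, 7, 6, 15], [11, 14, 6, 5, 4, 16], [11, 15, 4, 3, 2], [12, 10, 9, 8, 13]], [(0, 7), (0, 6), (5, 4), (5, 3), (4, 4), (4, 3), (3, 4), (3, 3), (6, 3), (6, 2), (1, 2)], [(0, 2), (3, 2), (3, 4)]⟩, [(0, 1), (0, 2), (0, 3), (0, 4), (1, 4)], 0, (.cons 2 0xf (.cons 1 0xf0f (.cons 6 0xff0 .nil .nil) (.cons 3 0xf0f (.cons 4 0xf00f (.cons 5 0xf000f .nil .nil) .nil) .nil)) .nil), 0, (.cons 3 0xf (.cons 1 0xf00f (.cons 2 0xf0ff (.cons 6 0xff0 .nil .nil) .nil) (.cons 4 0xf00f (.cons 5 0xf000f .nil .nil) .nil)) .nil), [0, 0, 56, 0, 0, 48, 0, 0, 28, 0, 0, 48, 0, 0, 12, 0, 0, 48, 0, 0, 28, 0, 0, 48, 0, 0, 24, 0, 0, 48, 0, 40, 0, 0]⟩,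
  ⟨⟨11, [[12, 13, 14, 15, 8, 7, 6], [11, 6, 5, 4, 16, 13], [11, 12, 16, 2, 1, 0, 14], [11, 13, 0, 17, 15], [11, 14, 17, 9, 8], [12, 4, 3, 2, 13], [14, 0, 10, 9, 15]], [(2, 5), (2, 4), (5, 3), (5, 2), (1, 3), (1, 2), (0, 6), (0, 5), (4, 4), (6, 3), (6, 2)], [(0, 1), (0, 4), (0, 6)]⟩, [(0, 1), (0, 2), (0, 3), (1, 5), (3, 4)], 2, (.cons 0 0xf00 (.cons 1 0xf0f (.cons 5 0xff0 .nil .nil) (.cons 3 0xf0f (.cons 4 0xf00f (.cons 6 0xff000 .nil .nil) .nil) .nil)) .nil), 2, (.cons 0 0xf00 (.cons 1 0xf0f (.cons 5 0xff0 .nil .nil) (.cons 3 0xf0f (.cons 4 0xf00f (.cons 6 0xff000 .nil .nil) .nil) .nil)) .nil), [0, 0, 56, 0, 0, 48, 0, 0, 28, 0, 0, 56, 0, 0, 40, 0, 0, 56, 0, 0, 56, 0, 0, 28, 0, 0, 48, 0, 0, 8, 0, 0, 16, 0, 0, 48, 0, 0]⟩,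
  ⟨⟨11, [[12, 13, 14, 15, 16, 2, 1, 0], [11, 0, 10, 17, 13], [11, 12, 17, 8, 7, 6, 14], [11, 13, 6, 5, 15], [11, 14, 5, 4, 16], [11, 15, 4, 3, 2], [12, 10, 9, 8, 13]], [(0, 7), (0, 6), (5, 4), (5, 3), (4, 3), (3, 3), (2, 5), (2, 4), (6, 3), (6, 2), (1, 2)], [(0, 0)]⟩, [(0, 1), (0, 2), (0, 3), (0, 4), (1, 4)], 0, (.cons 2 0xf (.cons 1 0xf0f (.cons 6 0xff0 .nil .nil) (.cons 3 0xf0f (.cons 4 0xf00f (.cons 5 0xf000f .nil .nil) .nil) .nil)) .nil), 0, (.cons 1 0xf (.cons 2 0xff (.cons 3 0xf0f (.cons 4 0xf00f (.cons 5 0xf000f .nil .nil) .nil) (.cons 6 0xff0 .nil .nil)) .nil) .nil), [0, 0, 60, 0, 0, 56, 0, 0, 60, 0, 0, 60, 0, 0, 60, 0, 0, 52, 0, 0, 24, 0, 48, 0, 0, 56, 0, 0, 60, 0, 0]⟩,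
  ⟨⟨11, [[12, 13, 14, 15, 16, 1, 0], [11, 0, 10, 9, 13], [11, 12, 9, 8, 7, 14], [11, 13, 7, 6, 5, 15], [11, 14, 5, 4, 3, 16], [11, 15, 3, 2, 1]], [(0, 6), (5, 4), (5, 3), (4, 4), (4, 3), (3, 4), (3, 3), (2, 4), (2, 3), (1, 3), (1, 2)], [(0, 2), (3, 2), (3, 4)]⟩, [(0, 1), (0, 2), (0, 3), (0, 4)], 0, (.cons 2 0xf (.cons 1 0xf0f .nil (.cons 3 0xf0f (.cons 4 0xf00f (.cons 5 0xf000f .nil .nil) .nil) .nil)) .nil), 0, (.cons 3 0xf (.cons 1 0xf00f (.cons 2 0xf0ff .nil .nil) (.cons 4 0xf00f (.cons 5 0xf000f .nil .nil) .nil)) .nil), [0, 0, 56, 0, 0, 56, 0, 0, 60, 0, 0, 52, 0, 0, 60, 0, 0, 56, 0, 0, 56, 0, 0, 28, 0, 0, 48, 0, 0, 24, 0, 0, 56, 0, 0, 24, 0, 0, 16, 0, 8, 0]⟩,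
  ⟨⟨11, [[12, 13, 14, 15, 16, 0, 10, 9], [11, 9, 8, 7, 13], [11, 12, 7, 17, 14], [11, 13, 17, 5, 4, 3, 15], [11, 14, 3, 2, 16], [11, 15, 2, 1, 0], [13, 7, 6, 5, 14]], [(5, 4), (5, 3), (4, 3), (3, 5), (3, 4), (6, 3), (6, 2), (1, 3), (1, 2), (0, 7), (0, 6)], [(0, 2), (0, 4), (0, 6)]⟩, [(0, 1), (0, 2), (0, 3), (0, 4), (2, 4)], 0, (.cons 2 0xf (.cons 1 0xf0f .nil (.cons 3 0xf0f (.cons 4 0xf00f (.cons 5 0xf000f .nil .nil) (.cons 6 0xff00 .nil .nil)) .nil)) .nil), 5, (.cons 0 0xf00000 (.cons 3 0xf0000f (.cons 6 0xf00f (.cons 2 0xf00f00f (.cons 1 0xf0f .nil .nil) .nil) (.cons 4 0xf0f00f .nil .nil)) .nil) .nil), [0, 0, 60, 0, 0, 56, 0, 0, 52, 0, 0, 56, 0, 0, 24, 0, 0, 56, 0, 0, 28, 0, 0, 48, 0, 0, 24, 0, 0, 48, 0, 0, 24, 0, 0, 48, 0, 0, 24, 0, 0, 8, 0, 24, 0, 0, 48, 0, 0, 8, 0, 16]⟩,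
  ⟨⟨11, [[12, 13, 14, 15, 6, 5, 4], [11, 4, 3, 2, 13], [11, 12, 2, 1, 0, 16, 14], [11, 13, 16, 9, 8, 15], [11, 14, 8, 7, 6], [13, 0, 10, 9, 14]], [(2, 4), (2, 3), (1, 3), (1, 2), (0, 6), (0, 5), (4, 4), (4, 3), (3, 4), (5, 3), (5, 2)], [(0, 1), (0, 4), (0, 6), (2, 2)]⟩, [(0, 1), (0, 2), (0, 3), (2, 6)], 2, (.cons 0 0xf00 (.cons 1 0xf0f .nil (.cons 3 0xf0f (.cons 4 0xf00f .nil (.cons 5 0xff00 .nil .nil)) .nil)) .nil), 2, (.cons 0 0xf00 (.cons 1 0xf0f .nil (.cons 3 0xf0f (.cons 4 0xf00f .nil (.cons 5 0xff00 .nil .nil)) .nil)) .nil), [0, 0, 56, 0, 0, 56, 0, 0, 60, 0, 0, 56, 0, 0, 56, 0, 0, 24, 0, 0, 48, 0, 0, 56, 0, 0, 60, 0, 0, 52, 0, 0, 60, 0, 0, 48, 0, 0, 28, 0, 0, 56, 0, 0, 24, 0, 0, 24, 0, 0, 48, 0, 0, 16, 0, 0, 8, 0, 0, 32]⟩,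
  ⟨⟨11, [[12, 13, 14, 15, 16, 2, 1, 0], [11, 0, 10, 9, 13], [11, 12, 9, 8, 7, 14], [11, 13, 7, 6, 15], [11, 14, 6, 5, 4, 16], [11, 15, 4, 3, 2]], [(0, 7), (0, 6), (5, 4), (5, 3), (4, 4), (4, 3), (3, 3), (2, 4), (2, 3), (1, 3), (1, 2)], [(0, 1), (2, 2), (2, 4)]⟩, [(0, 1), (0, 2), (0, 3), (0, 4)], 0, (.cons 2 0xf (.cons 1 0xf0f .nil (.cons 3 0xf0f (.cons 4 0xf00f (.cons 5 0xf000f .nil .nil) .nil) .nil)) .nil), 0, (.cons 2 0xf (.cons 1 0xf0f .nil (.cons 4 0xf0f (.cons 3 0xf0f0f .nil (.cons 5 0xf000f .nil .nil)) .nil)) .nil), [0, 0, 56, 0, 0, 56, 0, 0, 60, 0, 0, 60, 0, 0, 56, 0, 0, 24, 0, 0, 56, 0, 0, 28, 0, 0, 56, 0, 0, 56, 0, 0, 60, 0, 0, 52, 0, 0, 56, 0, 0, 56, 0, 0, 60, 0, 0, 56, 0, 0, 48, 0, 0, 28, 0]⟩]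

noncomputable def jobs9 : List Job := [⟨⟨12, [[13, 14, 15, 6, 16, 17, 18, 0], [12, 0, 11, 10, 19, 14], [12, 13, 19, 20, 15], [12, 14, 20, 7, 6], [12, 6, 5, 21, 17], [12, 16, 21, 22, 18], [12, 17, 22, 2, 1, 0], [13, 10, 9, 8, 20, 14], [14, 19, 8, 7, 15], [16, 5, 4, 22, 17], [17, 21, 4, 3, 2, 18]], [(6, 5), (6, 4), (10, 4), (10, 3), (9, 2), (4, 2), (3, 4), (8, 3), (7, 3), (7, 2), (1, 3), (1, 2)], [(0, 0), (1, 4), (7, 3)]⟩, [(0, 1), (0, 2), (0, 5), (0, 6), (1, 5), (2, 3), (2, 4), (4, 4), (5, 3), (5, 4)], 0, (.cons 1 0xf (.cons 2 0xff (.cons 7 0xfff (.cons 8 0xf0000f0f (.cons 3 0xf00000f0f .nil .nil) .nil) .nil) .nil) (.cons 4 0xf (.cons 5 0xf000f (.cons 9 0xff000f (.cons 10 0xf000f0000f (.cons 6 0xf0000f0000f .nil .nil) .nil) .nil) .nil) .nil)), 6, (.cons 0 0xf000000 (.cons 1 0xf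 (.cons 7 0xff (.cons 3 0xf00000ff (.cons 8 0xf000f0ff (.cons 2 0xff000f0ff .nil .nil) .nil) .nil) .nil) (.cons 5 0xf00000f (.cons 4 0xff0000f (.cons 9 0xfff0000 (.cons 10 0xf00ff00000 .nil .nil) .nil) .nil) .nil)) .nil), [0, 0, 56, 0, 0, 60, 0, 0, 120, 0, 0, 48, 0, 0]⟩,
  ⟨⟨12, [[13, 14, 15, 16, 17, 18, 1, 0], [12, 0, 11, 10, 14], [12, 13, 10, 9, 8, 19, 20, 15], [12, 14, 20, 5, 16], [12, 15, 5, 4, 17], [12, 16, 4, 3, 18], [12, 17, 3, 2, 1], [14, 8, 7, 6, 20], [14, 19, 6, 5, 15]], [(0, 7), (6, 4), (6, 3), (5, 3), (4, 3), (8, 3), (7, 3), (7, 2), (2, 4), (2, 3), (1, 3), (1, 2)], [(0, 0)]⟩, [(0, 1), (0, 2), (0, 3), (0, 4), (0, 5), (2, 6), (2, 7)], 0, (.cons 2 0xf (.cons 1 0xf0f .nil (.cons 3 0xf0f (.cons 4 0xf00f (.cons 5 0xf000f (.cons 6 0xf0000f .nil .nil) .nil) (.cons 8 0xff00 (.cons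 7 0xf00000f00 .nil .nil) .nil)) .nil)) .nil), 0, (.cons 1 0xf (.cons 3 0xff (.cons 2 0xf0ff (.cons 8 0xff00 (.cons 7 0xf00000f00 .nil .nil) .nil) (.cons 4 0xf00f (.cons 5 0xf000f (.cons 6 0xf0000f .nil .nil) .nil) .nil)) .nil) .nil), [0, 0, 124, 0, 0, 56, 0, 0, 60, 0, 0, 48, 0, 0, 48, 0, 0, 56, 0, 0]⟩,
  ⟨⟨12, [[13, 14, 15, 0, 16, 17, 18, 7], [12, 7, 6, 5, 19, 20, 14], [12, 13, 20, 21, 15], [12, 14, 21, 2, 1, 0], [12, 0, 11, 10, 17], [12, 16, 10, 9, 18], [12, 17, 9, 8, 7], [13, 5, 4, 3, 20], [13, 19, 3, 21, 14], [14, 20, 3, 2, 15]], [(3, 5), (3, 4), (9, 3), (7, 3), (7, 2), (1, 3), (1, 2), (6, 4), (6, 3), (5, 3), (4, 3), (4, 2)], [(0, 3), (0, 5), (5, 2)]⟩, [(0, 1), (0, 2), (0, 5), (0, 6), (1, 5), (1, 6), (2, 3), (2, 4)], 0, (.cons 1 0xf (.cons 2 0xff (.cons 8 0xfff (.cons 9 0xf00000f0f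 (.cons 3 0xf000000f0f .nil .nil) (.cons 7 0xf000000f0 .nil .nil)) .nil) .nil) (.cons 5 0xf (.cons 4 0xf0000f .nil (.cons 6 0xf0000f .nil .nil)) .nil)), 3, (.cons 0 0xf000 (.cons 2 0xf00f (.cons 1 0xff0f (.cons 8 0xfff0 (.cons 7 0xf000000f0 .nil (.cons 9 0xf0000ff00 .nil .nil)) .nil) .nil) (.cons 5 0xf (.cons 4 0xf0000f .nil (.cons 6 0xf0000f .nil .nil)) .nil)) .nil), [0, 0, 120, 0, 0, 56, 0, 0, 52, 0, 0, 56, 0, 0, 56, 0]⟩,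
  ⟨⟨12, [[13, 14, 15, 16, 17, 2, 1, 0], [12, 0, 11, 10, 18, 19, 20, 14], [12, 13, 20, 21, 15], [12, 14, 21, 6, 5, 16], [12, 15, 5, 4, 17], [12, 16, 4, 3, 2], [13, 10, 9, 8, 19], [13, 18, 8, 7, 20], [13, 19, 7, 21, 14], [14, 20, 7, 6, 15]], [(0, 7), (0, 6), (5, 4), (5, 3), (4, 3), (3, 4), (9, 3), (7, 3), (6, 3), (6, 2), (1, 3), (1, 2)], [(0, 1), (9, 2)]⟩, [(0, 1), (0, 2), (0, 3), (0, 4), (1, 5), (1, 6), (1, 7), (2, 3), (2, 4)], 0, (.cons 3 0xf (.cons 2 0xf00f (.cons 9 0xff0f (.cons 8 0xf000000f0f (.cons 1 0xf00000f0f (.cons 7 0xf000000f0 (.cons 6 0xf00000f0 .nil .nil) .nil) .nil) .nil) .nil) (.cons 4 0xf00f (.cons 5 0xf000f .nil .nil) .nil)) .nil), 0, (.cons 2 0xf (.cons 3 0xf0f (.cons 9 0xff0f (.cons 8 0xf000000f0f (.cons 7 0xf00000f0f (.cons 1 0xff0000f0f (.cons 6 0xf00000f0 .nil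 .nil) .nil) .nil) .nil) (.cons 4 0xf00f (.cons 5 0xf000f .nil .nil) .nil)) .nil) .nil), [0, 0, 120, 0, 0, 56, 0, 0, 48, 0, 0, 60, 0, 48, 0, 0]⟩,
  ⟨⟨12, [[13, 14, 15, 16, 2, 1, 0], [12, 0, 11, 10, 17, 18, 14], [12, 13, 18, 19, 15], [12, 14, 19, 20, 21, 16], [12, 15, 21, 4, 3, 2], [13, 10, 9, 8, 18], [13, 17, 8, 19, 14], [14, 18, 8, 20, 15], [15, 19, 8, 7, 6, 21], [15, 20, 6, 5, 4, 16]], [(0, 6), (0, 5), (4, 5), (4, 4), (9, 4), (9, 3), (8, 4), (8, 3), (5, 3), (5, 2), (1, 3), (1, 2)], [(0, 3)]⟩, [(0, 1), (0, 2), (0, 3), (1, 5), (1, 6), (2, 3), (2, 4), (3, 3), (3, 4), (3, 5)], 0, (.cons 1 0xf (.cons 2 0xff (.cons 6 0xfff (.cons 7 0xf000f0f (.cons 3 0xf0000f0f (.cons 8 0xf000f00f (.cons 9 0xf0000f00f (.cons 4 0xf00000f00f .nil .nil) .nil) .nil) .nil) (.cons 5 0xf0000f0 .nil .nil)) .nil)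 .nil) .nil), 0, (.cons 4 0xf (.cons 1 0xf000f (.cons 2 0xf00ff (.cons 6 0xf0fff (.cons 7 0xf0f0f0f (.cons 3 0xf00f0f0f (.cons 8 0xf00ff000 (.cons 9 0xf000ff000 .nil .nil) .nil) .nil) (.cons 5 0xf0000f0 .nil .nil)) .nil) .nil) .nil) .nil), [0, 0, 120, 0, 0, 56, 0, 0, 56, 0, 0, 48, 0, 0]⟩,
  ⟨⟨12, [[13, 14, 15, 16, 2, 1, 0], [12, 0, 11, 10, 17, 18, 14], [12, 13, 18, 19, 15], [12, 14, 19, 6, 5, 4, 16], [12, 15, 4, 3, 2], [13, 10, 9, 8, 18], [13, 17, 8, 7, 19, 14], [14, 18, 7, 6, 15]], [(0, 6), (0, 5), (4, 4), (4, 3), (3, 5), (3, 4), (7, 3), (6, 3), (5, 3), (5, 2), (1, 3), (1, 2)], [(0, 1), (5, 4), (6, 3)]⟩, [(0, 1), (0, 2), (0, 3), (1, 5), (1, 6), (2, 3), (2, 4)], 0, (.cons 3 0xf (.cons 2 0xf00f (.cons 7 0xff0f (.cons 6 0xf0000f0f (.cons 1 0xf000f0f (.cons 5 0xf0000f0 .nil .nil) .nil)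 .nil) .nil) (.cons 4 0xf00f .nil .nil)) .nil), 0, (.cons 2 0xf (.cons 3 0xf0f (.cons 7 0xff0f (.cons 6 0xf0000f0f (.cons 5 0xf000f0f (.cons 1 0xff00f0f .nil .nil) .nil) .nil) (.cons 4 0xf00f .nil .nil)) .nil) .nil), [0, 0, 60, 0, 0, 124, 0, 0, 56, 0, 0, 24, 0, 0, 48, 0, 0, 56, 0, 0, 56, 0]⟩,
  ⟨⟨12, [[13, 14, 15, 16, 17, 2, 1, 0], [12, 0, 11, 10, 18, 14], [12, 13, 18, 19, 20, 15], [12, 14, 20, 5, 16], [12, 15, 5, 4, 17], [12, 16, 4, 3, 2], [13, 10, 9, 8, 19, 14], [14, 18, 8, 7, 6, 20], [14, 19, 6, 5, 15]], [(0, 7), (0, 6), (5, 4), (5, 3), (4, 3), (8, 3), (7, 4), (7, 3), (6, 3), (6, 2), (1, 3), (1, 2)], [(0, 0), (6, 1), (6, 3)]⟩, [(0, 1), (0, 2), (0, 3), (0, 4), (1, 5), (2, 3), (2, 4), (2, 5)], 0, (.cons 3 0xf (.cons 2 0xf00f (.cons 8 0xff0f (.cons 7 0xf00000f0f (.cons 6 0xf0000f0f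 (.cons 1 0xf000f0f .nil .nil) .nil) .nil) .nil) (.cons 4 0xf00f (.cons 5 0xf000f .nil .nil) .nil)) .nil), 0, (.cons 1 0xf (.cons 3 0xff (.cons 2 0xf0ff (.cons 8 0xfff0 (.cons 7 0xf00000ff0 (.cons 6 0xf0000ff0 .nil .nil) .nil) .nil) (.cons 4 0xf00f (.cons 5 0xf000f .nil .nil) .nil)) .nil) .nil), [0, 0, 120, 0, 0, 60, 0, 0, 120, 0, 0, 56, 0]⟩,
  ⟨⟨12, [[13, 14, 15, 16, 17, 2, 1, 0], [12, 0, 11, 10, 18, 14], [12, 13, 18, 19, 15], [12, 14, 19, 20, 6, 5, 16], [12, 15, 5, 21, 17], [12, 16, 21, 3, 2], [13, 10, 9, 19, 14], [14, 18, 9, 8, 20, 15], [15, 19, 8, 7, 6], [16, 5, 4, 3, 17]], [(0, 7), (0, 6), (5, 4), (9, 3), (9, 2), (3, 5), (8, 4), (8, 3), (7, 3), (6, 2), (1, 3), (1, 2)], [(3, 3)]⟩, [(0, 1), (0, 2), (0, 3), (0, 4), (1, 5), (2, 3), (2, 4), (3, 3), (4, 4)], 0, (.cons 3 0xf (.cons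 2 0xf00f (.cons 7 0xff0f (.cons 6 0xf0000f0f (.cons 1 0xf000f0f .nil .nil) (.cons 8 0xf000f000 .nil .nil)) .nil) (.cons 4 0xf00f (.cons 5 0xf000f (.cons 9 0xff0000 .nil .nil) .nil) .nil)) .nil), 0, (.cons 3 0xf (.cons 8 0xf00f (.cons 2 0xf0000f00f (.cons 7 0xf0000ff0f (.cons 6 0xf0000f0f (.cons 1 0xf000f0f .nil .nil) .nil) .nil) .nil) (.cons 4 0xf00f (.cons 5 0xf000f (.cons 9 0xff0000 .nil .nil) .nil) .nil)) .nil), [0, 0, 124, 0, 0, 56, 0, 0, 48, 0, 0, 56, 0, 0, 48, 0, 0]⟩,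
  ⟨⟨12, [[13, 14, 15, 16, 17, 18, 1, 0], [12, 0, 11, 10, 19, 14], [12, 13, 19, 8, 7, 15], [12, 14, 7, 6, 16], [12, 15, 6, 5, 4, 17], [12, 16, 4, 3, 18], [12, 17, 3, 2, 1], [13, 10, 9, 8, 14]], [(0, 7), (6, 4), (6, 3), (5, 3), (4, 4), (4, 3), (3, 3), (2, 4), (7, 3), (7, 2), (1, 3), (1, 2)], [(0, 2), (3, 2)]⟩, [(0, 1), (0, 2), (0, 3), (0, 4), (0, 5), (1, 5)], 0, (.cons 2 0xf (.cons 1 0xf0f (.cons 7 0xff0 .nil .nil) (.cons 3 0xf0f (.cons 4 0xf00f (.cons 5 0xf000f (.cons 6 0xf0000f .nil .nil) .nil) .nil) .nil)) .nil), 0, (.cons 3 0xf (.cons 1 0xf00f (.cons 2 0xf0ff (.cons 7 0xff0 .nil .nil) .nil) (.cons 5 0xf00f (.cons 4 0xf0f00f .nil (.cons 6 0xf0000f .nil .nil)) .nil)) .nil), [0, 0, 112, 0, 0, 60, 0, 0, 56, 0, 0, 56, 0, 0, 52, 0, 0, 56, 0, 0, 48, 0, 0]⟩,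
  ⟨⟨12, [[13, 14, 15, 16, 17, 18, 2, 1, 0], [12, 0, 11, 10, 19, 14], [12, 13, 19, 20, 15], [12, 14, 20, 8, 7, 16], [12, 15, 7, 6, 21, 17], [12, 16, 21, 22, 18], [12, 17, 22, 4, 3, 2], [13, 10, 9, 20, 14], [14, 19, 9, 8, 15], [16, 6, 5, 22, 17], [17, 21, 5, 4, 18]], [(0, 8), (0, 7), (6, 5), (6, 4), (10, 3), (9, 2), (4, 3), (3, 4), (8, 3), (7, 2), (1, 3), (1, 2)], [(3, 5)]⟩, [(0, 1), (0, 2), (0, 3), (0, 4), (0, 5), (1, 5), (2, 3), (2, 4), (4, 5), (5, 3), (5, 4)], 0, (.cons 3 0xf (.cons 2 0xf00f (.cons 8 0xff0f (.cons 7 0xf00000f0f (.cons 1 0xf0000f0f .nil .nil) .nil) .nil) (.cons 4 0xf00f (.cons 5 0xf000f (.cons 9 0xff000f (.cons 10 0xf000f0000f (.cons 6 0xf0000f0000f .nil .nil) .nil) .nil) .nil) .nil)) .nil), 0, (.cons 3 0xf (.cons 2 0xf00f (.cons 8 0xff0f (.cons 7 0xf00000f0f (.cons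 1 0xf0000f0f .nil .nil) .nil) .nil) (.cons 4 0xf00f (.cons 5 0xf000f (.cons 9 0xff000f (.cons 10 0xf000f0000f (.cons 6 0xf0000f0000f .nil .nil) .nil) .nil) .nil) .nil)) .nil), [0, 0, 56, 0, 0, 120, 0, 0, 48, 0, 0, 56, 0, 0]⟩,
  ⟨⟨12, [[13, 14, 15, 0, 16, 17, 8], [12, 8, 7, 6, 18, 14], [12, 13, 18, 19, 20, 15], [12, 14, 20, 1, 0], [12, 0, 11, 21, 17], [12, 16, 21, 9, 8], [13, 6, 5, 4, 19, 14], [14, 18, 4, 3, 2, 20], [14, 19, 2, 1, 15], [16, 11, 10, 9, 17]], [(3, 4), (8, 3), (7, 4), (7, 3), (6, 3), (6, 2), (1, 3), (1, 2), (5, 4), (9, 3), (9, 2), (4, 2)], [(1, 1), (1, 3)]⟩, [(0, 1), (0, 2), (0, 5), (1, 5), (2, 3), (2, 4), (2, 5), (4, 4)], 0, (.cons 1 0xf (.cons 2 0xff (.cons 6 0xfff (.cons 7 0xf000f0f (.cons 8 0xf0000f0f (.cons 3 0xf00000f0f .nil .nil) .nil) .nil) .nil) .nil) (.cons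 4 0xf (.cons 5 0xf000f (.cons 9 0xff0000 .nil .nil) .nil) .nil)), 3, (.cons 0 0xf000 (.cons 2 0xf00f (.cons 1 0xff0f (.cons 6 0xfff0 (.cons 7 0xf00ff00 (.cons 8 0xf000ff00 .nil .nil) .nil) .nil) .nil) (.cons 4 0xf (.cons 5 0xf000f (.cons 9 0xff0000 .nil .nil) .nil) .nil)) .nil), [0, 0, 56, 0, 0, 56, 0, 0, 120, 0, 0, 24, 0, 0, 48, 0, 0]⟩,
  ⟨⟨12, [[13, 14, 15, 16, 17, 18, 19], [12, 19, 20, 2, 1, 0, 14], [12, 13, 0, 11, 10, 15], [12, 14, 10, 9, 8, 16], [12, 15, 8, 7, 6, 17], [12, 16, 6, 5, 18], [12, 17, 5, 21, 19], [12, 18, 21, 20, 13], [13, 19, 21, 4, 3, 2], [18, 5, 4, 20, 19]], [(1, 5), (1, 4), (8, 5), (8, 4), (9, 2), (5, 3), (4, 4), (4, 3), (3, 4), (3, 3), (2, 4), (2, 3)], [(0, 4), (1, 2), (5, 3)]⟩, [(0, 0), (0, 1), (0, 2), (0, 3), (0, 4), (0, 5), (0, 6), (1, 2), (6, 4), (7, 3)],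 1, (.cons 0 0xf0 (.cons 2 0xff (.cons 3 0xfff (.cons 4 0xf0ff (.cons 5 0xf00ff (.cons 6 0xf000ff (.cons 7 0xf0000ff (.cons 9 0xff0000f0 (.cons 8 0xf0f00000f0 .nil .nil) .nil) .nil) .nil) .nil) .nil) .nil) .nil) .nil), 1, (.cons 8 0xf0 (.cons 0 0xf000000f0 (.cons 5 0xf000000ff (.cons 2 0xf000ff (.cons 3 0xf00f0f (.cons 4 0xf0f00f .nil .nil) .nil) (.cons 7 0xf00f000ff (.cons 6 0xff0f0000f (.cons 9 0xfff000000 .nil .nil) .nil) .nil)) .nil) .nil) .nil), [0, 0, 120, 0, 0, 120, 0, 0, 56, 0, 0]⟩,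
  ⟨⟨12, [[13, 14, 15, 16, 17, 18, 2, 1, 0], [12, 0, 11, 10, 19, 14], [12, 13, 19, 20, 15], [12, 14, 20, 7, 16], [12, 15, 7, 21, 17], [12, 16, 21, 22, 18], [12, 17, 22, 4, 3, 2], [13, 10, 9, 8, 20, 14], [14, 19, 8, 7, 15], [16, 7, 6, 22, 17], [17, 21, 6, 5, 4, 18]], [(0, 8), (0, 7), (6, 5), (6, 4), (10, 4), (10, 3), (9, 2), (8, 3), (7, 3), (7, 2), (1, 3), (1, 2)], [(1, 3)]⟩, [(0, 1), (0, 2), (0, 3), (0, 4), (0, 5), (1, 5), (2, 3), (2, 4), (4, 4), (5, 3), (5, 4)], 0, (.cons 3 0xf (.cons 2 0xf00f (.cons 8 0xff0f (.cons 7 0xf00000f0f (.cons 1 0xf0000f0f .nil .nil) .nil) .nil) (.cons 4 0xf00f (.cons 5 0xf000f (.cons 9 0xff000f (.cons 10 0xf000f0000f (.cons 6 0xf0000f0000f .nil .nil) .nil) .nil) .nil) .nil)) .nil), 0, (.cons 3 0xf (.cons 2 0xf00f (.cons 8 0xff0f (.cons 7 0xf00000f0f (.cons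 1 0xf0000f0f .nil .nil) .nil) .nil) (.cons 4 0xf00f (.cons 5 0xf000f (.cons 9 0xff000f (.cons 10 0xf000f0000f (.cons 6 0xf0000f0000f .nil .nil) .nil) .nil) .nil) .nil)) .nil), [0, 0, 56, 0, 0, 56, 0, 0, 120, 0, 0, 56, 0, 0]⟩,
  ⟨⟨12, [[13, 14, 15, 16, 17, 2, 1, 0], [12, 0, 11, 10, 18, 14], [12, 13, 18, 8, 7, 15], [12, 14, 7, 19, 16], [12, 15, 19, 20, 17], [12, 16, 20, 4, 3, 2], [13, 10, 9, 8, 14], [15, 7, 6, 20, 16], [16, 19, 6, 5, 4, 17]], [(0, 7), (0, 6), (5, 5), (5, 4), (8, 4), (8, 3), (7, 2), (2, 4), (6, 3), (6, 2), (1, 3), (1, 2)], [(0, 1), (2, 4)]⟩, [(0, 1), (0, 2), (0, 3), (0, 4), (1, 5), (3, 4), (4, 3), (4, 4)], 0, (.cons 2 0xf (.cons 1 0xf0f (.cons 6 0xff0 .nil .nil) (.cons 3 0xf0f (.cons 4 0xf00f (.cons 7 0xff00f (.cons 8 0xf00f000f (.cons 5 0xf000f000f .nil .nil) .nil)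 .nil) .nil) .nil)) .nil), 0, (.cons 2 0xf (.cons 1 0xf0f (.cons 6 0xff0 .nil .nil) (.cons 3 0xf0f (.cons 4 0xf00f (.cons 7 0xff00f (.cons 8 0xf00f000f (.cons 5 0xf000f000f .nil .nil) .nil) .nil) .nil) .nil)) .nil), [0, 0, 60, 0, 0, 120, 0, 0, 56, 0, 0, 56, 0, 0, 48, 0, 0, 56, 0]⟩,
  ⟨⟨12, [[13, 14, 15, 16, 17, 4, 18, 19, 0], [12, 0, 11, 20, 14], [12, 13, 20, 21, 15], [12, 14, 21, 8, 7, 16], [12, 15, 7, 6, 17], [12, 16, 6, 5, 4], [12, 4, 3, 22, 19], [12, 18, 22, 1, 0], [13, 11, 10, 21, 14], [14, 20, 10, 9, 8, 15], [18, 3, 2, 1, 19]], [(7, 4), (10, 3), (10, 2), (6, 2), (5, 4), (5, 3), (4, 3), (3, 4), (9, 4), (9, 3), (8, 2), (1, 2)], [(0, 1), (9, 2), (9, 4)]⟩, [(0, 1), (0, 2), (0, 3), (0, 4), (0, 7), (1, 4), (2, 3), (2, 4), (6, 4)], 0, (.cons 3 0xf (.cons 2 0xf00f (.cons 9 0xff0f (.cons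 8 0xf000000f0f (.cons 1 0xf00000f0f .nil .nil) .nil) .nil) (.cons 4 0xf00f (.cons 5 0xf000f .nil .nil) .nil)) (.cons 6 0xf (.cons 7 0xf00000f (.cons 10 0xff000000 .nil .nil) .nil) .nil)), 7, (.cons 0 0xf0000000 (.cons 2 0xf (.cons 3 0xf0f (.cons 9 0xff0f (.cons 8 0xf000000f0f (.cons 1 0xf00000f0f .nil .nil) .nil) (.cons 4 0xf00f (.cons 5 0xf000f .nil .nil) .nil)) .nil) (.cons 6 0xf000000f (.cons 10 0xff000000 .nil .nil) .nil)) .nil), [0, 0, 56, 0, 0, 56, 0, 0, 88, 0, 0, 48, 0, 0, 56, 0, 0]⟩,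
  ⟨⟨12, [[13, 14, 15, 16, 17, 2, 1, 0], [12, 0, 11, 10, 18, 19, 14], [12, 13, 19, 7, 15], [12, 14, 7, 20, 16], [12, 15, 20, 5, 4, 17], [12, 16, 4, 3, 2], [13, 10, 9, 8, 19], [13, 18, 8, 7, 14], [15, 7, 6, 5, 16]], [(0, 7), (0, 6), (5, 4), (5, 3), (4, 4), (8, 3), (8, 2), (7, 3), (6, 3), (6, 2), (1, 3), (1, 2)], [(2, 4)]⟩, [(0, 1), (0, 2), (0, 3), (0, 4), (1, 5), (1, 6), (3, 4)], 0, (.cons 2 0xf (.cons 1 0xf0f (.cons 7 0xff0 (.cons 6 0xf00000f0 .nil .nil) .nil) (.cons 3 0xf0f (.cons 4 0xf00f (.cons 5 0xf000f .nil (.cons 8 0xff000 .nil .nil)) .nil) .nil)) .nil), 0, (.cons 2 0xf (.cons 1 0xf0f (.cons 7 0xff0 (.cons 6 0xf00000f0 .nil .nil) .nil) (.cons 3 0xf0f (.cons 4 0xf00f (.cons 5 0xf000f .nil (.cons 8 0xff000 .nil .nil)) .nil) .nil)) .nil), [0, 0, 120, 0, 0, 124, 0, 0, 48, 0, 0,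 24, 0, 0, 48, 0, 0]⟩,
  ⟨⟨12, [[13, 14, 15, 16, 17, 2, 1, 0], [12, 0, 11, 18, 14], [12, 13, 18, 19, 8, 20, 15], [12, 14, 20, 6, 5, 16], [12, 15, 5, 4, 17], [12, 16, 4, 3, 2], [13, 11, 10, 19, 14], [14, 18, 10, 9, 8], [14, 8, 7, 6, 15]], [(0, 7), (0, 6), (5, 4), (5, 3), (4, 3), (3, 4), (8, 3), (8, 2), (7, 4), (7, 3), (6, 2), (1, 2)], [(0, 0), (6, 1), (6, 3)]⟩, [(0, 1), (0, 2), (0, 3), (0, 4), (1, 4), (2, 3), (2, 6)], 0, (.cons 2 0xf (.cons 1 0xf0f (.cons 6 0xff0 (.cons 7 0xf000f00 .nil .nil) .nil) (.cons 3 0xf0f (.cons 4 0xf00f (.cons 5 0xf000f .nil .nil) (.cons 8 0xff00 .nil .nil)) .nil)) .nil), 0, (.cons 1 0xf (.cons 6 0xff (.cons 7 0xf0000ff (.cons 2 0xff0000ff (.cons 3 0xf0f (.cons 4 0xf00f (.cons 5 0xf000f .nil .nil) (.cons 8 0xff00 .nil .nil)) .nil) .nil) .nil) .nil) .nil),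 [0, 0, 112, 0, 0, 60, 0, 0, 56, 0, 0, 112, 0, 0, 56]⟩,
  ⟨⟨12, [[13, 14, 15, 16, 17, 2, 1, 0], [12, 0, 11, 10, 18, 19, 14], [12, 13, 19, 20, 15], [12, 14, 20, 7, 21, 16], [12, 15, 21, 22, 17], [12, 16, 22, 4, 3, 2], [13, 10, 9, 8, 19], [13, 18, 8, 20, 14], [14, 19, 8, 7, 15], [15, 7, 6, 22, 16], [16, 21, 6, 5, 4, 17]], [(0, 7), (0, 6), (5, 5), (5, 4), (10, 4), (10, 3), (9, 2), (8, 3), (6, 3), (6, 2), (1, 3), (1, 2)], [(6, 2)]⟩, [(0, 1), (0, 2), (0, 3), (0, 4), (1, 5), (1, 6), (2, 3), (2, 4), (3, 5), (4, 3), (4, 4)], 0, (.cons 3 0xf (.cons 2 0xf00f (.cons 8 0xff0f (.cons 7 0xf00000f0f (.cons 1 0xf0000f0f (.cons 6 0xf00000f0 .nil .nil) .nil) .nil) .nil) (.cons 4 0xf00f (.cons 9 0xff00f (.cons 10 0xf0000f000f (.cons 5 0xf00000f000f .nil .nil) .nil) .nil) .nil)) .nil), 0, (.cons 3 0xf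 (.cons 2 0xf00f (.cons 8 0xff0f (.cons 7 0xf00000f0f (.cons 1 0xf0000f0f (.cons 6 0xf00000f0 .nil .nil) .nil) .nil) .nil) (.cons 4 0xf00f (.cons 9 0xff00f (.cons 10 0xf0000f000f (.cons 5 0xf00000f000f .nil .nil) .nil) .nil) .nil)) .nil), [0, 0, 120, 0, 0, 56, 0, 0, 48, 0, 0, 56, 0, 0]⟩,
  ⟨⟨12, [[13, 14, 15, 16, 17, 1, 0], [12, 0, 11, 10, 18, 14], [12, 13, 18, 8, 7, 6, 15], [12, 14, 6, 5, 16], [12, 15, 5, 4, 19, 17], [12, 16, 19, 2, 1], [13, 10, 9, 8, 14], [16, 4, 3, 2, 17]], [(0, 6), (5, 4), (7, 3), (7, 2), (4, 3), (3, 3), (2, 5), (2, 4), (6, 3), (6, 2), (1, 3), (1, 2)], [(0, 2), (3, 2)]⟩, [(0, 1), (0, 2), (0, 3), (0, 4), (1, 5), (4, 5)], 0, (.cons 2 0xf (.cons 1 0xf0f (.cons 6 0xff0 .nil .nil) (.cons 3 0xf0f (.cons 4 0xf00f (.cons 5 0xf000f (.cons 7 0xff0000 .nil .nil) .nil) .nil)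 .nil)) .nil), 0, (.cons 3 0xf (.cons 1 0xf00f (.cons 2 0xf0ff (.cons 6 0xff0 .nil .nil) .nil) (.cons 4 0xf00f (.cons 5 0xf000f (.cons 7 0xff0000 .nil .nil) .nil) .nil)) .nil), [0, 0, 120, 0, 0, 60, 0, 0, 56, 0, 0, 60, 0, 0, 48, 0, 0, 56, 0, 0, 56, 0, 0]⟩,
  ⟨⟨12, [[13, 14, 15, 16, 9, 17, 18, 5], [12, 5, 4, 3, 19, 14], [12, 13, 19, 20, 15], [12, 14, 20, 1, 0, 21, 16], [12, 15, 21, 10, 9], [12, 9, 8, 22, 18], [12, 17, 22, 6, 5], [13, 3, 2, 20, 14], [14, 19, 2, 1, 15], [15, 0, 11, 10, 16], [17, 8, 7, 6, 18]], [(3, 4), (8, 3), (7, 2), (1, 3), (1, 2), (6, 4), (10, 3), (10, 2), (5, 2), (4, 4), (9, 3), (9, 2)], [(0, 0), (1, 3), (2, 2)]⟩, [(0, 1), (0, 2), (0, 3), (0, 6), (1, 5), (2, 3), (2, 4), (3, 6), (5, 4)], 3, (.cons 0 0xf000 (.cons 2 0xf00f (.cons 1 0xff0f (.cons 7 0xfff0 (.cons 8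 0xf000ff00 .nil .nil) .nil) .nil) (.cons 4 0xf00f (.cons 9 0xff000 .nil .nil) (.cons 5 0xf (.cons 6 0xf0000f (.cons 10 0xff00000 .nil .nil) .nil) .nil))) .nil), 3, (.cons 2 0xf000 (.cons 7 0xff00 (.cons 0 0xf000ff00 (.cons 1 0xf0000f0f .nil (.cons 4 0xf00f (.cons 9 0xff000 .nil .nil) (.cons 5 0xf (.cons 6 0xf0000f (.cons 10 0xff00000 .nil .nil) .nil) .nil))) (.cons 8 0xf000ff00 .nil .nil)) .nil) .nil), [0, 0, 112, 0, 0, 56, 0, 0, 48, 0, 0, 56, 0, 0, 48]⟩,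
  ⟨⟨12, [[13, 14, 15, 6, 16, 17, 18, 0], [12, 0, 11, 10, 19, 14], [12, 13, 19, 8, 15], [12, 14, 8, 7, 6], [12, 6, 5, 4, 17], [12, 16, 4, 20, 18], [12, 17, 20, 2, 1, 0], [13, 10, 9, 8, 14], [17, 4, 3, 2, 18]], [(6, 5), (6, 4), (8, 3), (8, 2), (4, 3), (4, 2), (3, 4), (3, 3), (7, 3), (7, 2), (1, 3), (1, 2)], [(1, 1), (1, 3), (1, 5)]⟩, [(0, 1), (0, 2), (0, 5), (0, 6), (1, 5), (5, 4)], 0, (.cons 2 0xf (.cons 1 0xf0f (.cons 7 0xff0 .nil .nil) (.cons 3 0xf0f .nil .nil)) (.cons 5 0xf (.cons 4 0xf0000f .nil (.cons 6 0xf0000f (.cons 8 0xff00000 .nil .nil) .nil)) .nil)), 6, (.cons 1 0xf000000 (.cons 2 0xf0000f0 (.cons 0 0xf000ff0 (.cons 3 0xf0f .nil (.cons 5 0xf00000f (.cons 4 0xf0000f .nil (.cons 8 0xff00000 .nil .nil)) .nil)) (.cons 7 0xff0 .nil .nil)) .nil) .nil), [0, 0, 48, 0, 0, 112,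 0, 0, 28, 0, 0, 32, 0, 0, 56, 0, 0, 56, 0, 0, 24, 0, 32, 0, 0]⟩,
  ⟨⟨12, [[13, 14, 15, 16, 17, 2, 1, 0], [12, 0, 11, 10, 18, 14], [12, 13, 18, 8, 15], [12, 14, 8, 7, 6, 19, 16], [12, 15, 19, 20, 17], [12, 16, 20, 3, 2], [13, 10, 9, 8, 14], [15, 6, 5, 4, 20, 16], [16, 19, 4, 3, 17]], [(0, 7), (0, 6), (5, 4), (8, 3), (7, 3), (7, 2), (3, 4), (3, 3), (6, 3), (6, 2), (1, 3), (1, 2)], [(0, 2), (3, 2), (3, 4)]⟩, [(0, 1), (0, 2), (0, 3), (0, 4), (1, 5), (3, 6), (4, 3), (4, 4)], 0, (.cons 2 0xf (.cons 1 0xf0f (.cons 6 0xff0 .nil .nil) (.cons 3 0xf0f (.cons 4 0xf00f (.cons 7 0xff00f (.cons 8 0xf00f000f (.cons 5 0xf000f000f .nil .nil) .nil) .nil) .nil) .nil)) .nil), 0, (.cons 3 0xf (.cons 1 0xf00f (.cons 2 0xf0ff (.cons 6 0xff0 .nil .nil) .nil) (.cons 4 0xf00f (.cons 5 0xff00f (.cons 8 0xfff000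 (.cons 7 0xf000ff000 .nil .nil) .nil) .nil) .nil)) .nil), [0, 0, 120, 0, 0, 60, 0, 0, 48, 0, 0, 56, 0, 0, 56, 0, 0, 56, 0, 0, 16, 0]⟩,
  ⟨⟨12, [[13, 14, 15, 16, 17, 18, 2, 1, 0], [12, 0, 11, 10, 14], [12, 13, 10, 9, 19, 15], [12, 14, 19, 20, 16], [12, 15, 20, 7, 6, 17], [12, 16, 6, 5, 4, 18], [12, 17, 4, 3, 2], [14, 9, 8, 20, 15], [15, 19, 8, 7, 16]], [(0, 8), (0, 7), (6, 4), (6, 3), (5, 4), (5, 3), (4, 4), (8, 3), (7, 2), (2, 3), (1, 3), (1, 2)], [(0, 4), (5, 2), (5, 4)]⟩, [(0, 1), (0, 2), (0, 3), (0, 4), (0, 5), (2, 5), (3, 3), (3, 4)], 0, (.cons 4 0xf (.cons 3 0xf000f (.cons 8 0xff00f (.cons 7 0xf0000f00f (.cons 2 0xf000f00f (.cons 1 0xf0f .nil .nil) .nil) .nil) .nil) (.cons 5 0xf000f (.cons 6 0xf0000f .nil .nil) .nil)) .nil), 0, (.cons 5 0xf (.cons 2 0xf0000f (.cons 1 0xf0f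 .nil (.cons 3 0xf00f0f (.cons 7 0xf0ff0f (.cons 8 0xf0f0f00f (.cons 4 0xf00f0f00f .nil .nil) .nil) .nil) .nil)) (.cons 6 0xf0000f .nil .nil)) .nil), [0, 0, 120, 0, 0, 56, 0, 0, 112, 0, 0, 52, 0, 0, 24, 0, 0]⟩,
  ⟨⟨12, [[13, 14, 15, 16, 17, 2, 1, 0], [12, 0, 11, 10, 14], [12, 13, 10, 9, 18, 19, 15], [12, 14, 19, 20, 16], [12, 15, 20, 4, 17], [12, 16, 4, 3, 2], [14, 9, 8, 7, 19], [14, 18, 7, 6, 5, 20, 15], [15, 19, 5, 4, 16]], [(0, 7), (0, 6), (5, 4), (5, 3), (8, 3), (7, 4), (7, 3), (6, 3), (6, 2), (2, 3), (1, 3), (1, 2)], [(0, 2), (3, 2)]⟩, [(0, 1), (0, 2), (0, 3), (0, 4), (2, 5), (2, 6), (3, 3), (3, 4)], 0, (.cons 2 0xf (.cons 1 0xf0f .nil (.cons 3 0xf0f (.cons 7 0xff0f (.cons 8 0xf000f00f (.cons 4 0xf0000f00f (.cons 5 0xf000f .nil .nil) .nil) (.cons 6 0xf0000f00 .nil .nil)) .nil)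 .nil)) .nil), 0, (.cons 3 0xf (.cons 7 0xf00f (.cons 6 0xf000f00f (.cons 2 0xff00f00f (.cons 1 0xf0f .nil .nil) .nil) (.cons 4 0xf000f00f (.cons 5 0xf000f .nil (.cons 8 0xf00ff000 .nil .nil)) .nil)) .nil) .nil), [0, 0, 116, 0, 0, 56, 0, 0, 56, 0, 0, 56, 0, 0, 56, 0, 0, 24, 0, 0, 48, 0, 0]⟩,
  ⟨⟨12, [[13, 0, 17, 18, 19, 6, 14], [12, 14, 15, 16, 2, 1, 0], [12, 6, 5, 15, 13], [13, 14, 5, 4, 16], [13, 15, 4, 3, 2], [12, 0, 11, 20, 18], [12, 17, 20, 9, 8, 19], [12, 18, 8, 7, 6], [17, 11, 10, 9, 18]], [(1, 6), (1, 5), (4, 4), (4, 3), (3, 3), (2, 2), (7, 4), (7, 3), (6, 4), (8, 3), (8, 2), (5, 2)], [(2, 3), (4, 2), (4, 4)]⟩, [(0, 0), (0, 3), (0, 4), (1, 2), (1, 3), (5, 4)], 0, (.cons 1 0xf (.cons 2 0xff (.cons 3 0xff0 (.cons 4 0xf0f0 .nil .nil) .nil) .nil) (.cons 6 0xf (.cons 5 0xf00000f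 (.cons 8 0xff00000 .nil .nil) (.cons 7 0xf00000f .nil .nil)) .nil)), 1, (.cons 0 0xf0 (.cons 2 0xff (.cons 3 0xff0 (.cons 4 0xf0f0 .nil .nil) .nil) (.cons 6 0xf (.cons 5 0xf00000f (.cons 8 0xff00000 .nil .nil) (.cons 7 0xf00000f .nil .nil)) .nil)) .nil), [0, 0, 120, 0, 0, 56, 0, 0, 112, 0, 0, 28, 0, 0, 56, 0, 0]⟩,
  ⟨⟨12, [[13, 14, 15, 0, 16, 17, 18, 6], [12, 6, 5, 4, 19, 14], [12, 13, 19, 20, 15], [12, 14, 20, 1, 0], [12, 0, 11, 10, 17], [12, 16, 10, 21, 18], [12, 17, 21, 8, 7, 6], [13, 4, 3, 2, 20, 14], [14, 19, 2, 1, 15], [17, 10, 9, 8, 18]], [(3, 4), (8, 3), (7, 3), (7, 2), (1, 3), (1, 2), (6, 5), (6, 4), (9, 3), (9, 2), (4, 3), (4, 2)], [(0, 4), (0, 7)]⟩, [(0, 1), (0, 2), (0, 5), (0, 6), (1, 5), (2, 3), (2, 4), (5, 4)], 0, (.cons 1 0xf (.cons 2 0xff (.cons 7 0xfff (.cons 8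 0xf0000f0f (.cons 3 0xf00000f0f .nil .nil) .nil) .nil) .nil) (.cons 5 0xf (.cons 4 0xf0000f .nil (.cons 6 0xf0000f (.cons 9 0xff00000 .nil .nil) .nil)) .nil)), 3, (.cons 0 0xf000 (.cons 2 0xf00f (.cons 1 0xff0f (.cons 7 0xfff0 (.cons 8 0xf000ff00 .nil .nil) .nil) .nil) (.cons 4 0xf (.cons 5 0xf000f (.cons 6 0xf0000f (.cons 9 0xff00000 .nil .nil) .nil) .nil) .nil)) .nil), [0, 0, 52, 0, 0, 56, 0, 0, 56, 0, 0, 112, 0, 0, 16, 0, 0, 48, 0, 0]⟩,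
  ⟨⟨12, [[13, 14, 15, 16, 17, 18, 19, 20, 2, 1, 0], [12, 0, 11, 10, 14], [12, 13, 10, 21, 15], [12, 14, 21, 8, 16], [12, 15, 8, 22, 17], [12, 16, 22, 6, 18], [12, 17, 6, 5, 19], [12, 18, 5, 4, 20], [12, 19, 4, 3, 2], [14, 10, 9, 8, 15], [16, 8, 7, 6, 17]], [(0, 10), (0, 9), (8, 4), (8, 3), (7, 3), (6, 3), (10, 3), (10, 2), (9, 3), (9, 2), (1, 3), (1, 2)], [(1, 1), (1, 3), (9, 3)]⟩, [(0, 1), (0, 2), (0, 3), (0, 4), (0, 5), (0, 6), (0, 7), (2, 4), (4, 4)], 0, (.cons 2 0xf (.cons 1 0xf0f .nil (.cons 3 0xf0f (.cons 4 0xf00f (.cons 5 0xf000f (.cons 6 0xf0000f (.cons 7 0xf00000f (.cons 8 0xf000000f .nil .nil) .nil) (.cons 10 0xff0000 .nil .nil)) .nil) (.cons 9 0xff00 .nil .nil)) .nil)) .nil), 0, (.cons 2 0xf (.cons 1 0xf0f .nil (.cons 3 0xf0f (.cons 4 0xf00f (.cons 5 0xf000f (.cons 6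 0xf0000f (.cons 7 0xf00000f (.cons 8 0xf000000f .nil .nil) .nil) (.cons 10 0xff0000 .nil .nil)) .nil) (.cons 9 0xff00 .nil .nil)) .nil)) .nil), [0, 0, 60, 0, 0, 116, 0, 0, 120, 0, 0, 56, 0, 0]⟩,
  ⟨⟨12, [[13, 14, 15, 16, 17, 1, 0], [12, 0, 11, 10, 18, 14], [12, 13, 18, 8, 7, 15], [12, 14, 7, 6, 5, 19, 16], [12, 15, 19, 20, 17], [12, 16, 20, 3, 2, 1], [13, 10, 9, 8, 14], [15, 5, 4, 20, 16], [16, 19, 4, 3, 17]], [(0, 6), (5, 5), (5, 4), (8, 3), (7, 2), (3, 4), (3, 3), (2, 4), (6, 3), (6, 2), (1, 3), (1, 2)], [(1, 1), (1, 3)]⟩, [(0, 1), (0, 2), (0, 3), (0, 4), (1, 5), (3, 6), (4, 3), (4, 4)], 0, (.cons 2 0xf (.cons 1 0xf0f (.cons 6 0xff0 .nil .nil) (.cons 3 0xf0f (.cons 4 0xf00f (.cons 7 0xff00f (.cons 8 0xf00f000f (.cons 5 0xf000f000f .nil .nil) .nil) .nil) .nil) .nil)) .nil), 0,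 (.cons 2 0xf (.cons 1 0xf0f (.cons 6 0xff0 .nil .nil) (.cons 3 0xf0f (.cons 4 0xf00f (.cons 7 0xff00f (.cons 8 0xf00f000f (.cons 5 0xf000f000f .nil .nil) .nil) .nil) .nil) .nil)) .nil), [0, 0, 120, 0, 0, 60, 0, 0, 56, 0, 0, 60, 0, 0, 56, 0, 0, 56, 0, 0]⟩,
  ⟨⟨12, [[13, 14, 15, 6, 16, 17, 0], [12, 0, 11, 10, 18, 14], [12, 13, 18, 19, 15], [12, 14, 19, 8, 7, 6], [12, 6, 5, 20, 21, 17], [12, 16, 21, 2, 1, 0], [13, 10, 9, 19, 14], [14, 18, 9, 8, 15], [16, 5, 4, 3, 21], [16, 20, 3, 2, 17]], [(5, 5), (5, 4), (9, 3), (8, 3), (8, 2), (4, 2), (3, 5), (3, 4), (7, 3), (6, 2), (1, 3), (1, 2)], [(0, 3), (0, 5)]⟩, [(0, 1), (0, 2), (0, 5), (1, 5), (2, 3), (2, 4), (4, 4), (4, 5)], 0, (.cons 1 0xf (.cons 2 0xff (.cons 6 0xfff (.cons 7 0xf000f0f (.cons 3 0xf0000f0f .nil .nil) .nil) .nil) .nil) (.cons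 4 0xf (.cons 5 0xf000f (.cons 9 0xff0000 (.cons 8 0xf0000f0000 .nil .nil) .nil) .nil) .nil)), 5, (.cons 0 0xf00000 (.cons 1 0xf (.cons 2 0xff (.cons 6 0xfff (.cons 7 0xf000f0f (.cons 3 0xf0000f0f .nil .nil) .nil) .nil) .nil) (.cons 4 0xf0000f (.cons 9 0xff0000 (.cons 8 0xf0000f0000 .nil .nil) .nil) .nil)) .nil), [0, 0, 120, 0, 0, 56, 0, 0, 116, 0, 0, 56, 0, 0]⟩,
  ⟨⟨12, [[13, 14, 15, 16, 2, 1, 0], [12, 0, 11, 10, 17, 18, 14], [12, 13, 18, 7, 15], [12, 14, 7, 19, 16], [12, 15, 19, 20, 4, 3, 2], [13, 10, 9, 8, 18], [13, 17, 8, 7, 14], [15, 7, 6, 20, 16], [16, 19, 6, 5, 4]], [(0, 6), (0, 5), (4, 6), (4, 5), (8, 4), (8, 3), (7, 2), (6, 3), (5, 3), (5, 2), (1, 3), (1, 2)], [(2, 4)]⟩, [(0, 1), (0, 2), (0, 3), (1, 5), (1, 6), (3, 4), (4, 3)], 0, (.cons 2 0xf (.cons 1 0xf0f (.cons 6 0xff0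 (.cons 5 0xf0000f0 .nil .nil) .nil) (.cons 3 0xf0f (.cons 4 0xf00f (.cons 7 0xff000 (.cons 8 0xf00f0000 .nil .nil) .nil) .nil) .nil)) .nil), 0, (.cons 2 0xf (.cons 1 0xf0f (.cons 6 0xff0 (.cons 5 0xf0000f0 .nil .nil) .nil) (.cons 3 0xf0f (.cons 4 0xf00f (.cons 7 0xff000 (.cons 8 0xf00f0000 .nil .nil) .nil) .nil) .nil)) .nil), [0, 0, 120, 0, 0, 124, 0, 0, 48, 0, 0, 52, 0, 0, 24, 0, 0]⟩,
  ⟨⟨12, [[13, 14, 15, 16, 17, 18, 2, 1, 0], [12, 0, 11, 10, 14], [12, 13, 10, 9, 8, 19, 15], [12, 14, 19, 20, 16], [12, 15, 20, 5, 17], [12, 16, 5, 4, 18], [12, 17, 4, 3, 2], [14, 8, 7, 6, 20, 15], [15, 19, 6, 5, 16]], [(0, 8), (0, 7), (6, 4), (6, 3), (5, 3), (8, 3), (7, 3), (7, 2), (2, 4), (2, 3), (1, 3), (1, 2)], [(0, 3), (2, 5), (4, 3)]⟩, [(0, 1), (0, 2), (0, 3), (0, 4), (0, 5), (2, 6), (3, 3),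 (3, 4)], 0, (.cons 4 0xf (.cons 3 0xf000f (.cons 8 0xff00f (.cons 7 0xf0000f00f (.cons 2 0xf000f00f (.cons 1 0xf0f .nil .nil) .nil) .nil) .nil) (.cons 5 0xf000f (.cons 6 0xf0000f .nil .nil) .nil)) .nil), 0, (.cons 4 0xf (.cons 2 0xf000f (.cons 1 0xf0f .nil (.cons 7 0xf0f0f (.cons 8 0xf00f0f0f (.cons 3 0xff00f0f0f .nil .nil) .nil) .nil)) (.cons 5 0xf000f (.cons 6 0xf0000f .nil .nil) .nil)) .nil), [0, 0, 120, 0, 0, 120, 0, 0, 56, 0, 0, 56, 0, 0, 48, 0, 0]⟩,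
  ⟨⟨12, [[13, 0, 18, 19, 8, 20, 14], [12, 14, 15, 16, 17, 2, 1, 0], [12, 20, 21, 15, 13], [13, 14, 21, 5, 16], [13, 15, 5, 4, 17], [13, 16, 4, 3, 2], [12, 0, 11, 22, 19], [12, 18, 22, 9, 8], [12, 8, 7, 6, 21, 14], [20, 6, 5, 15, 14], [18, 11, 10, 9, 19]], [(1, 7), (1, 6), (5, 4), (5, 3), (4, 3), (9, 2), (8, 3), (8, 2), (7, 4), (10, 3), (10, 2), (6, 2)], [(1, 2), (0, 5), (3, 3)]⟩, [(0, 0), (0, 3), (0, 6), (1, 2), (1, 3), (1, 4), (6, 4), (8, 5), (2, 3)], 0, (.cons 1 0xf (.cons 2 0xff (.cons 3 0xfff (.cons 4 0xf0f0 (.cons 5 0xf00f0 .nil .nil) (.cons 9 0xff0f (.cons 8 0xf000000f0f .nil .nil) .nil)) .nil) .nil) (.cons 6 0xf (.cons 7 0xf00000f (.cons 10 0xff000000 .nil .nil) .nil) .nil)), 1, (.cons 3 0xf0 (.cons 0 0xf0f0 (.cons 8 0xf0ff (.cons 9 0xf0000f0ff (.cons 2 0xff0000f0ff .nil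 .nil) .nil) (.cons 6 0xf (.cons 7 0xf00000f (.cons 10 0xff000000 .nil .nil) .nil) .nil)) (.cons 4 0xf0f0 (.cons 5 0xf00f0 .nil .nil) .nil)) .nil), [0, 0, 120, 0, 0, 112, 0, 0, 24, 0, 0, 48, 0, 0]⟩,
  ⟨⟨12, [[13, 14, 15, 0, 16, 17, 6], [12, 6, 5, 4, 18, 14], [12, 13, 18, 19, 15], [12, 14, 19, 1, 0], [12, 0, 11, 10, 20, 17], [12, 16, 20, 8, 7, 6], [13, 4, 3, 2, 19, 14], [14, 18, 2, 1, 15], [16, 10, 9, 8, 17]], [(3, 4), (7, 3), (6, 3), (6, 2), (1, 3), (1, 2), (5, 5), (5, 4), (8, 3), (8, 2), (4, 3), (4, 2)], [(4, 1), (4, 3), (5, 3), (5, 5)]⟩, [(0, 1), (0, 2), (0, 5), (1, 5), (2, 3), (2, 4), (4, 5)], 0, (.cons 1 0xf (.cons 2 0xff (.cons 6 0xfff (.cons 7 0xf000f0f (.cons 3 0xf0000f0f .nil .nil) .nil) .nil) .nil) (.cons 4 0xf (.cons 5 0xf000f (.cons 8 0xff0000 .nil .nil) .nil) .nil)),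 3, (.cons 0 0xf000 (.cons 2 0xf00f (.cons 1 0xff0f (.cons 6 0xfff0 (.cons 7 0xf00ff00 .nil .nil) .nil) .nil) (.cons 4 0xf (.cons 5 0xf000f (.cons 8 0xff0000 .nil .nil) .nil) .nil)) .nil), [0, 0, 56, 0, 0, 48, 0, 0, 28, 0, 0, 112, 0, 44, 0, 0, 52, 0, 0, 40, 0]⟩,
  ⟨⟨12, [[13, 14, 10, 9, 8, 18, 15], [12, 15, 16, 17, 1, 0, 14], [12, 13, 0, 11, 10], [12, 18, 19, 16, 13], [13, 15, 19, 4, 3, 17], [13, 16, 3, 2, 1], [12, 8, 7, 6, 20, 19, 15], [18, 20, 4, 16, 15], [18, 6, 5, 4, 19]], [(1, 5), (5, 4), (5, 3), (4, 4), (8, 3), (8, 2), (6, 3), (6, 2), (0, 4), (0, 3), (2, 4), (2, 3)], [(1, 1)]⟩, [(0, 0), (0, 1), (0, 6), (1, 2), (1, 3), (6, 5), (6, 6), (3, 3)], 1, (.cons 0 0xf0 (.cons 2 0xff .nil (.cons 3 0xff (.cons 6 0xf0ff (.cons 7 0xf00f0f0 (.cons 4 0xf000f0f0 (.cons 5 0xf00f0 .nil .nil)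 (.cons 8 0xff000000 .nil .nil)) .nil) .nil) .nil)) .nil), 1, (.cons 3 0xf0 (.cons 0 0xf0f0 (.cons 2 0xff .nil (.cons 6 0xf0ff (.cons 8 0xf00f0f0 (.cons 7 0xf0f00f0f0 (.cons 4 0xf000f0f0 (.cons 5 0xf00f0 .nil .nil) .nil) .nil) .nil) .nil)) .nil) .nil), [0, 0, 60, 0, 0, 120, 0, 0, 60, 0, 0, 112, 0, 0, 24, 0, 0]⟩,
  ⟨⟨12, [[13, 6, 17, 18, 19, 0, 14], [12, 14, 15, 16, 8, 7, 6], [12, 0, 11, 15, 13], [13, 14, 11, 10, 16], [13, 15, 10, 9, 8], [12, 6, 5, 4, 20, 18], [12, 17, 20, 21, 19], [12, 18, 21, 2, 1, 0], [17, 4, 3, 21, 18], [18, 20, 3, 2, 19]], [(7, 5), (7, 4), (9, 3), (8, 2), (5, 3), (5, 2), (1, 6), (1, 5), (4, 4), (4, 3), (3, 3), (2, 2)], [(2, 2)]⟩, [(0, 0), (0, 3), (0, 4), (1, 2), (1, 3), (5, 5), (6, 3), (6, 4)], 0, (.cons 1 0xf (.cons 2 0xff (.cons 3 0xff0 (.cons 4 0xf0f0 .nil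 .nil) .nil) .nil) (.cons 5 0xf (.cons 6 0xf0000f (.cons 8 0xff0000f (.cons 9 0xf0f00000f (.cons 7 0xf00f00000f .nil .nil) .nil) .nil) .nil) .nil)), 7, (.cons 0 0xf0000000 (.cons 1 0xf (.cons 2 0xff (.cons 3 0xff0 (.cons 4 0xf0f0 .nil .nil) .nil) .nil) (.cons 6 0xf000000f (.cons 5 0xff00000f (.cons 8 0xfff00000 (.cons 9 0xfff000000 .nil .nil) .nil) .nil) .nil)) .nil), [0, 0, 56, 0, 0, 56, 0, 0, 112, 0, 0, 56, 0, 0, 56, 0, 0]⟩,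
  ⟨⟨12, [[13, 14, 15, 16, 0, 17, 18, 7], [12, 7, 6, 19, 14], [12, 13, 19, 20, 15], [12, 14, 20, 3, 2, 16], [12, 15, 2, 1, 0], [12, 0, 11, 21, 18], [12, 17, 21, 9, 8, 7], [13, 6, 5, 20, 14], [14, 19, 5, 4, 3, 15], [17, 11, 10, 9, 18]], [(4, 4), (4, 3), (3, 4), (8, 4), (8, 3), (7, 2), (1, 2), (6, 5), (6, 4), (9, 3), (9, 2), (5, 2)], [(0, 3)]⟩, [(0, 1), (0, 2), (0, 3), (0, 6), (1, 4), (2, 3), (2, 4), (5, 4)], 0, (.cons 3 0xf (.cons 2 0xf00f (.cons 8 0xff0f (.cons 7 0xf00000f0f (.cons 1 0xf0000f0f .nil .nil) .nil) .nil) (.cons 4 0xf00f .nil .nil)) (.cons 5 0xf (.cons 6 0xf0000f (.cons 9 0xff00000 .nil .nil) .nil) .nil)), 4, (.cons 0 0xf0000 (.cons 1 0xf000f (.cons 2 0xf00ff (.cons 7 0xf0fff (.cons 8 0xf00f0f0f (.cons 3 0xf000f0f0f .nil .nil) .nil) .nil) .nil) (.cons 5 0xf (.cons 9 0xf0000f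 (.cons 6 0xf000f0000f .nil .nil) .nil) .nil)) .nil), [0, 0, 56, 0, 0, 60, 0, 0, 112, 0, 0, 56, 0, 0, 48, 0, 0, 56, 0, 0]⟩,
  ⟨⟨12, [[13, 14, 15, 16, 17, 2, 1, 0], [12, 0, 11, 10, 18, 14], [12, 13, 18, 19, 7, 15], [12, 14, 7, 6, 5, 16], [12, 15, 5, 4, 17], [12, 16, 4, 3, 2], [13, 10, 9, 19, 14], [14, 18, 9, 8, 7]], [(0, 7), (0, 6), (5, 4), (5, 3), (4, 3), (3, 4), (3, 3), (7, 4), (7, 3), (6, 2), (1, 3), (1, 2)], [(0, 2), (3, 2), (3, 4)]⟩, [(0, 1), (0, 2), (0, 3), (0, 4), (1, 5), (2, 3)], 0, (.cons 2 0xf (.cons 1 0xf0f (.cons 6 0xff0 (.cons 7 0xf000f00 .nil .nil) .nil) (.cons 3 0xf0f (.cons 4 0xf00f (.cons 5 0xf000f .nil .nil) .nil) .nil)) .nil), 0, (.cons 3 0xf (.cons 1 0xf00f (.cons 2 0xf0ff (.cons 6 0xff0 (.cons 7 0xf000f00 .nil .nil) .nil) .nil) (.cons 4 0xf00f (.cons 5 0xf000f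 .nil .nil) .nil)) .nil), [0, 0, 120, 0, 0, 56, 0, 0, 48, 0, 112, 0, 28, 0, 0, 48, 0, 0, 24, 0, 0]⟩,
  ⟨⟨12, [[13, 14, 15, 16, 17, 18, 2, 1, 0], [12, 0, 11, 19, 14], [12, 13, 19, 20, 15], [12, 14, 20, 8, 7, 16], [12, 15, 7, 6, 5, 17], [12, 16, 5, 4, 18], [12, 17, 4, 3, 2], [13, 11, 10, 20, 14], [14, 19, 10, 9, 8, 15]], [(0, 8), (0, 7), (6, 4), (6, 3), (5, 3), (4, 4), (4, 3), (3, 4), (8, 4), (8, 3), (7, 2), (1, 2)], [(0, 3), (4, 2), (4, 4)]⟩, [(0, 1), (0, 2), (0, 3), (0, 4), (0, 5), (1, 4), (2, 3), (2, 4)], 0, (.cons 5 0xf (.cons 4 0xf0000f (.cons 3 0xf000f (.cons 2 0xf00f (.cons 8 0xff0f (.cons 7 0xf00000f0f (.cons 1 0xf0000f0f .nil .nil) .nil) .nil) .nil) .nil) (.cons 6 0xf0000f .nil .nil)) .nil), 0, (.cons 4 0xf (.cons 1 0xf000f (.cons 2 0xf00ff (.cons 7 0xf0fff (.cons 8 0xf00f0f0f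 (.cons 3 0xf000f0f0f .nil .nil) .nil) .nil) .nil) (.cons 5 0xf000f (.cons 6 0xf0000f .nil .nil) .nil)) .nil), [0, 0, 120, 0, 0, 56, 0, 0, 120, 0, 0, 24, 0, 48, 0, 0, 28, 0, 0]⟩,
  ⟨⟨12, [[13, 14, 15, 16, 17, 18, 19, 2, 1, 0], [12, 0, 11, 20, 14], [12, 13, 20, 9, 15], [12, 14, 9, 8, 16], [12, 15, 8, 7, 6, 17], [12, 16, 6, 5, 18], [12, 17, 5, 4, 19], [12, 18, 4, 3, 2], [13, 11, 10, 9, 14]], [(0, 9), (0, 8), (7, 4), (7, 3), (6, 3), (5, 3), (4, 4), (4, 3), (3, 3), (8, 3), (8, 2), (1, 2)], [(0, 3), (4, 2), (4, 4)]⟩, [(0, 1), (0, 2), (0, 3), (0, 4), (0, 5), (0, 6), (1, 4)], 0, (.cons 2 0xf (.cons 1 0xf0f (.cons 8 0xff0 .nil .nil) (.cons 3 0xf0f (.cons 4 0xf00f (.cons 5 0xf000f (.cons 6 0xf0000f (.cons 7 0xf00000f .nil .nil) .nil) .nil) .nil) .nil)) .nil), 0, (.cons 4 0xf (.cons 2 0xf000f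 (.cons 1 0xf0f (.cons 8 0xff0 .nil .nil) (.cons 3 0xf0f0f .nil .nil)) (.cons 6 0xf000f (.cons 5 0xf0f000f .nil (.cons 7 0xf00000f .nil .nil)) .nil)) .nil), [0, 0, 120, 0, 0, 28, 0, 0, 120, 0, 0, 56, 0, 0, 48, 0, 0, 60, 0, 0, 8]⟩,
  ⟨⟨12, [[13, 14, 15, 16, 0, 17, 18, 7], [12, 7, 6, 5, 19, 14], [12, 13, 19, 20, 15], [12, 14, 20, 3, 2, 16], [12, 15, 2, 1, 0], [12, 0, 11, 21, 18], [12, 17, 21, 9, 8, 7], [13, 5, 4, 20, 14], [14, 19, 4, 3, 15], [17, 11, 10, 9, 18]], [(4, 4), (4, 3), (3, 4), (8, 3), (7, 2), (1, 3), (1, 2), (6, 5), (6, 4), (9, 3), (9, 2), (5, 2)], [(0, 3)]⟩, [(0, 1), (0, 2), (0, 3), (0, 6), (1, 5), (2, 3), (2, 4), (5, 4)], 0, (.cons 3 0xf (.cons 2 0xf00f (.cons 8 0xff0f (.cons 7 0xf00000f0f (.cons 1 0xf0000f0f .nil .nil) .nil) .nil) (.cons 4 0xf00f .nil .nil)) (.cons 5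 0xf (.cons 6 0xf0000f (.cons 9 0xff00000 .nil .nil) .nil) .nil)), 4, (.cons 0 0xf0000 (.cons 1 0xf000f (.cons 2 0xf00ff (.cons 7 0xf0fff (.cons 8 0xf00f0f0f (.cons 3 0xf000f0f0f .nil .nil) .nil) .nil) .nil) (.cons 5 0xf (.cons 9 0xf0000f (.cons 6 0xf000f0000f .nil .nil) .nil) .nil)) .nil), [0, 0, 56, 0, 0, 56, 0, 0, 120, 0, 0, 56, 0, 0, 56, 0, 0, 56, 0, 0]⟩]

noncomputable def jobs11 : List Job := [⟨⟨12, [[13, 15, 8, 18, 19, 4, 16], [12, 16, 17, 1, 0, 14, 15], [13, 0, 11, 10, 15], [12, 13, 14, 10, 9, 8], [12, 4, 3, 17, 13], [13, 16, 3, 2, 1], [12, 8, 7, 20, 19], [12, 18, 20, 5, 4], [18, 7, 6, 5, 19]], [(1, 4), (5, 4), (5, 3), (4, 2), (7, 4), (8, 3), (8, 2), (6, 2), (3, 5), (3, 4), (2, 3), (2, 2)], [(1, 0), (0, 2), (0, 5)]⟩, [(0, 0), (0, 1), (0, 4), (1, 2), (1, 6), (6, 4)], 1, (.cons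 0 0xf0 (.cons 3 0xff (.cons 2 0xf0f0 .nil .nil) (.cons 4 0xff (.cons 5 0xf00f0 .nil .nil) (.cons 6 0xf (.cons 7 0xf00000f (.cons 8 0xff000000 .nil .nil) .nil) .nil))) .nil), 1, (.cons 0 0xf0 (.cons 2 0xff (.cons 3 0xfff .nil .nil) (.cons 4 0xff (.cons 5 0xf00f0 .nil .nil) (.cons 6 0xf (.cons 8 0xf00000f (.cons 7 0xf0f00000f .nil .nil) .nil) .nil))) .nil), [0, 0, 56, 0, 0, 120, 0, 0, 24, 0, 0, 48, 0, 0, 56, 0, 88, 0, 0, 48, 0, 0, 32, 0, 0, 16]⟩,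
  ⟨⟨12, [[13, 14, 15, 16, 17, 18, 19, 2, 1, 0], [12, 0, 11, 10, 14], [12, 13, 10, 9, 8, 15], [12, 14, 8, 7, 16], [12, 15, 7, 6, 17], [12, 16, 6, 5, 18], [12, 17, 5, 4, 19], [12, 18, 4, 3, 2]], [(0, 9), (0, 8), (7, 4), (7, 3), (6, 3), (5, 3), (4, 3), (3, 3), (2, 4), (2, 3), (1, 3), (1, 2)], [(0, 1), (2, 2), (2, 4)]⟩, [(0, 1), (0, 2), (0, 3), (0, 4), (0, 5), (0, 6)], 0, (.cons 2 0xf (.cons 1 0xf0f .nil (.cons 3 0xf0f (.cons 4 0xf00f (.cons 5 0xf000f (.cons 6 0xf0000f (.cons 7 0xf00000f .nil .nil) .nil) .nil) .nil) .nil)) .nil), 0, (.cons 2 0xf (.cons 1 0xf0f .nil (.cons 4 0xf0f (.cons 3 0xf0f0f .nil (.cons 5 0xf000f (.cons 6 0xf0000f (.cons 7 0xf00000f .nil .nil) .nil) .nil)) .nil)) .nil), [0, 0, 120, 0, 0, 60, 0, 0, 88, 0, 0, 56, 0, 0, 56, 0, 0, 20, 0, 0, 96, 0, 12, 0, 0]⟩,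
  ⟨⟨12, [[13, 14, 15, 16, 17, 1, 0], [12, 0, 18, 19, 14], [12, 13, 19, 8, 7, 6, 15], [12, 14, 6, 5, 16], [12, 15, 5, 4, 3, 17], [12, 16, 3, 2, 1], [13, 0, 11, 10, 19], [13, 18, 10, 9, 8, 14]], [(0, 6), (5, 4), (5, 3), (4, 4), (4, 3), (3, 3), (2, 5), (2, 4), (7, 4), (7, 3), (6, 3), (6, 2)], [(0, 3), (4, 2), (4, 4)]⟩, [(0, 1), (0, 2), (0, 3), (0, 4), (1, 3), (1, 4)], 0, (.cons 2 0xf (.cons 1 0xf0f (.cons 7 0xff0 (.cons 6 0xf00000f0 .nil .nil) .nil) (.cons 3 0xf0f (.cons 4 0xf00f (.cons 5 0xf000f .nil .nil) .nil) .nil)) .nil), 0, (.cons 4 0xf (.cons 2 0xf000f (.cons 1 0xf0f (.cons 7 0xff0 (.cons 6 0xf00000f0 .nil .nil) .nil) (.cons 3 0xf0f0f .nil .nil)) (.cons 5 0xf000f .nil .nil)) .nil), [0, 0, 120, 0, 0, 60, 0, 0, 120, 0, 0, 60, 0, 0, 56, 0, 0, 56, 0, 0, 48, 0, 0, 24, 0]⟩,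
  ⟨⟨12, [[13, 14, 15, 16, 17, 18, 2, 1, 0], [12, 0, 11, 10, 19, 14], [12, 13, 19, 20, 15], [12, 14, 20, 8, 7, 6, 16], [12, 15, 6, 5, 17], [12, 16, 5, 4, 18], [12, 17, 4, 3, 2], [13, 10, 9, 20, 14], [14, 19, 9, 8, 15]], [(0, 8), (0, 7), (6, 4), (6, 3), (5, 3), (4, 3), (3, 5), (3, 4), (8, 3), (7, 2), (1, 3), (1, 2)], [(0, 0), (1, 3)]⟩, [(0, 1), (0, 2), (0, 3), (0, 4), (0, 5), (1, 5), (2, 3), (2, 4)], 0, (.cons 5 0xf (.cons 4 0xf0000f (.cons 3 0xf000f (.cons 2 0xf00f (.cons 8 0xff0f (.cons 7 0xf00000f0f (.cons 1 0xf0000f0f .nil .nil) .nil) .nil) .nil) .nil) (.cons 6 0xf0000f .nil .nil)) .nil), 0, (.cons 1 0xf (.cons 3 0xff (.cons 2 0xf0ff (.cons 8 0xfff0 (.cons 7 0xf00000ff0 .nil .nil) .nil) (.cons 4 0xf00f (.cons 5 0xf000f (.cons 6 0xf0000f .nil .nil) .nil) .nil)) .nil) .nil), [0,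 0, 124, 0, 0, 56, 0, 0, 60, 0, 0, 56, 0, 0, 56, 0, 0, 56, 0, 0, 120]⟩,
  ⟨⟨12, [[13, 14, 15, 16, 4, 17, 18, 0], [12, 0, 11, 19, 14], [12, 13, 19, 9, 8, 15], [12, 14, 8, 7, 6, 16], [12, 15, 6, 5, 4], [12, 4, 3, 20, 18], [12, 17, 20, 1, 0], [13, 11, 10, 9, 14], [17, 3, 2, 1, 18]], [(6, 4), (8, 3), (8, 2), (5, 2), (4, 4), (4, 3), (3, 4), (3, 3), (2, 4), (7, 3), (7, 2), (1, 2)], [(0, 1), (2, 4), (7, 2)]⟩, [(0, 1), (0, 2), (0, 3), (0, 6), (1, 4), (5, 4)], 0, (.cons 2 0xf (.cons 1 0xf0f (.cons 7 0xff0 .nil .nil) (.cons 3 0xf0f (.cons 4 0xf00f .nil .nil) .nil)) (.cons 5 0xf (.cons 6 0xf0000f (.cons 8 0xff00000 .nil .nil) .nil) .nil)), 6, (.cons 0 0xf000000 (.cons 2 0xf (.cons 7 0xf0f (.cons 1 0xf0000f0f .nil .nil) (.cons 3 0xf0f (.cons 4 0xf00f .nil .nil) .nil)) (.cons 5 0xf00000f (.cons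 8 0xff00000 .nil .nil) .nil)) .nil), [0, 0, 120, 0, 0, 56, 0, 0, 56, 0, 0, 88, 0, 0, 48, 0, 0, 60, 0, 0, 48, 0, 0, 28, 0, 0]⟩,
  ⟨⟨12, [[13, 14, 15, 16, 17, 8, 7], [12, 7, 6, 18, 14], [12, 13, 18, 4, 3, 2, 15], [12, 14, 2, 1, 0, 19, 16], [12, 15, 19, 20, 17], [12, 16, 20, 9, 8], [13, 6, 5, 4, 14], [15, 0, 11, 10, 20, 16], [16, 19, 10, 9, 17]], [(3, 4), (3, 3), (2, 5), (2, 4), (6, 3), (6, 2), (1, 2), (0, 6), (5, 4), (8, 3), (7, 3), (7, 2)], [(0, 2), (0, 5)]⟩, [(0, 1), (0, 2), (0, 3), (0, 4), (1, 4), (3, 6), (4, 3), (4, 4)], 3, (.cons 0 0xf000 (.cons 2 0xf00f (.cons 1 0xf0f (.cons 6 0xff0 .nil .nil) .nil) (.cons 4 0xf00f (.cons 5 0xff00f (.cons 8 0xfff000 (.cons 7 0xf000ff000 .nil .nil) .nil) .nil) .nil)) .nil), 3, (.cons 0 0xf000 (.cons 1 0xf00f (.cons 2 0xf0ff (.cons 6 0xff0 .nil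 .nil) .nil) (.cons 4 0xf00f (.cons 7 0xff00f (.cons 8 0xf00f000f (.cons 5 0xf000f000f .nil .nil) .nil) .nil) .nil)) .nil), [0, 0, 120, 0, 0, 60, 0, 0, 88, 0, 0, 48, 0, 0, 56, 0, 0, 48, 0, 0, 48, 0, 0]⟩,
  ⟨⟨12, [[13, 14, 15, 16, 17, 18, 2, 1, 0], [12, 0, 11, 19, 14], [12, 13, 19, 9, 8, 15], [12, 14, 8, 7, 16], [12, 15, 7, 6, 5, 17], [12, 16, 5, 4, 18], [12, 17, 4, 3, 2], [13, 11, 10, 9, 14]], [(0, 8), (0, 7), (6, 4), (6, 3), (5, 3), (4, 4), (4, 3), (3, 3), (2, 4), (7, 3), (7, 2), (1, 2)], [(0, 3), (4, 2), (4, 4)]⟩, [(0, 1), (0, 2), (0, 3), (0, 4), (0, 5), (1, 4)], 0, (.cons 2 0xf (.cons 1 0xf0f (.cons 7 0xff0 .nil .nil) (.cons 3 0xf0f (.cons 4 0xf00f (.cons 5 0xf000f (.cons 6 0xf0000f .nil .nil) .nil) .nil) .nil)) .nil), 0, (.cons 4 0xf (.cons 2 0xf000f (.cons 1 0xf0f (.cons 7 0xff0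 .nil .nil) (.cons 3 0xf0f0f .nil .nil)) (.cons 5 0xf000f (.cons 6 0xf0000f .nil .nil) .nil)) .nil), [0, 0, 120, 0, 0, 56, 0, 0, 56, 0, 0, 120, 0, 0, 116, 0, 0, 24, 0, 0, 32, 0]⟩,
  ⟨⟨12, [[13, 14, 15, 16, 2, 1, 0], [12, 0, 11, 10, 17, 14], [12, 13, 17, 8, 18, 15], [12, 14, 18, 19, 4, 16], [12, 15, 4, 3, 2], [13, 10, 9, 8, 14], [14, 8, 7, 6, 19, 15], [15, 18, 6, 5, 4]], [(0, 6), (0, 5), (4, 4), (4, 3), (7, 4), (7, 3), (6, 3), (6, 2), (5, 3), (5, 2), (1, 3), (1, 2)], [(1, 1), (1, 3), (1, 5)]⟩, [(0, 1), (0, 2), (0, 3), (1, 5), (2, 5), (3, 3)], 0, (.cons 2 0xf (.cons 1 0xf0f (.cons 5 0xff0 .nil .nil) (.cons 3 0xf0f (.cons 4 0xf00f .nil (.cons 6 0xff00 (.cons 7 0xf00f000 .nil .nil) .nil)) .nil)) .nil), 0, (.cons 1 0xf (.cons 2 0xff (.cons 3 0xf0f (.cons 4 0xf00f .nil (.cons 6 0xff00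 (.cons 7 0xf00f000 .nil .nil) .nil)) (.cons 5 0xff0 .nil .nil)) .nil) .nil), [0, 0, 112, 0, 0, 56, 0, 0, 120, 0, 0, 52, 0, 0, 88, 0, 0, 40, 0, 24, 0, 0]⟩,
  ⟨⟨12, [[13, 14, 15, 16, 17, 1, 0], [12, 0, 11, 10, 18, 14], [12, 13, 18, 8, 7, 15], [12, 14, 7, 19, 16], [12, 15, 19, 5, 4, 3, 17], [12, 16, 3, 2, 1], [13, 10, 9, 8, 14], [15, 7, 6, 5, 16]], [(0, 6), (5, 4), (5, 3), (4, 5), (4, 4), (7, 3), (7, 2), (2, 4), (6, 3), (6, 2), (1, 3), (1, 2)], [(0, 1), (2, 4)]⟩, [(0, 1), (0, 2), (0, 3), (0, 4), (1, 5), (3, 4)], 0, (.cons 2 0xf (.cons 1 0xf0f (.cons 6 0xff0 .nil .nil) (.cons 3 0xf0f (.cons 4 0xf00f (.cons 5 0xf000f .nil (.cons 7 0xff000 .nil .nil)) .nil) .nil)) .nil), 0, (.cons 2 0xf (.cons 1 0xf0f (.cons 6 0xff0 .nil .nil) (.cons 4 0xf0f (.cons 3 0xf0f0f (.cons 7 0xff000 .nil .nil)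 (.cons 5 0xf000f .nil .nil)) .nil)) .nil), [0, 0, 124, 0, 0, 120, 0, 0, 56, 0, 0, 56, 0, 0, 24, 0, 0, 120, 0, 0, 24, 0, 0]⟩,
  ⟨⟨12, [[13, 14, 15, 16, 17, 1, 0], [12, 0, 11, 10, 18, 19, 14], [12, 13, 19, 7, 6, 5, 15], [12, 14, 5, 4, 16], [12, 15, 4, 3, 17], [12, 16, 3, 2, 1], [13, 10, 9, 8, 19], [13, 18, 8, 7, 14]], [(0, 6), (5, 4), (5, 3), (4, 3), (3, 3), (2, 5), (2, 4), (7, 3), (6, 3), (6, 2), (1, 3), (1, 2)], [(3, 4), (4, 3)]⟩, [(0, 1), (0, 2), (0, 3), (0, 4), (1, 5), (1, 6)], 0, (.cons 2 0xf (.cons 1 0xf0f (.cons 7 0xff0 (.cons 6 0xf00000f0 .nil .nil) .nil) (.cons 3 0xf0f (.cons 4 0xf00f (.cons 5 0xf000f .nil .nil) .nil) .nil)) .nil), 0, (.cons 2 0xf (.cons 1 0xf0f (.cons 7 0xff0 (.cons 6 0xf00000f0 .nil .nil) .nil) (.cons 3 0xf0f (.cons 4 0xf00f (.cons 5 0xf000f .nil .nil)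 .nil) .nil)) .nil), [0, 0, 112, 0, 0, 60, 0, 0, 56, 0, 0, 56, 0, 0, 56, 0, 0, 56, 0, 0, 56, 0, 0, 56, 0, 0, 48, 0, 0]⟩,
  ⟨⟨12, [[13, 14, 15, 16, 17, 2, 1, 0], [12, 0, 11, 10, 14], [12, 13, 10, 9, 8, 18, 15], [12, 14, 18, 19, 16], [12, 15, 19, 5, 4, 17], [12, 16, 4, 3, 2], [14, 8, 7, 6, 19, 15], [15, 18, 6, 5, 16]], [(0, 7), (0, 6), (5, 4), (5, 3), (4, 4), (7, 3), (6, 3), (6, 2), (2, 4), (2, 3), (1, 3), (1, 2)], [(0, 2), (3, 2)]⟩, [(0, 1), (0, 2), (0, 3), (0, 4), (2, 6), (3, 3), (3, 4)], 0, (.cons 2 0xf (.cons 1 0xf0f .nil (.cons 3 0xf0f (.cons 6 0xff0f (.cons 7 0xf00f00f (.cons 4 0xf000f00f (.cons 5 0xf000f .nil .nil) .nil) .nil) .nil) .nil)) .nil), 0, (.cons 3 0xf (.cons 6 0xf00f (.cons 1 0xf00f00f (.cons 2 0xf00f0ff .nil .nil) (.cons 4 0xf00f00f (.cons 5 0xf000f .nil (.cons 7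 0xf0ff000 .nil .nil)) .nil)) .nil) .nil), [0, 0, 124, 0, 0, 56, 0, 0, 124, 0, 0, 56, 0, 0, 24, 0, 0, 48, 0, 0, 56, 0, 0, 48, 0, 0]⟩,
  ⟨⟨12, [[13, 14, 15, 16, 17, 2, 1, 0], [12, 0, 11, 10, 18, 14], [12, 13, 18, 8, 7, 15], [12, 14, 7, 6, 16], [12, 15, 6, 5, 19, 17], [12, 16, 19, 3, 2], [13, 10, 9, 8, 14], [16, 5, 4, 3, 17]], [(0, 7), (0, 6), (5, 4), (7, 3), (7, 2), (4, 3), (3, 3), (2, 4), (6, 3), (6, 2), (1, 3), (1, 2)], [(0, 2), (3, 3), (5, 3)]⟩, [(0, 1), (0, 2), (0, 3), (0, 4), (1, 5), (4, 5)], 0, (.cons 2 0xf (.cons 1 0xf0f (.cons 6 0xff0 .nil .nil) (.cons 3 0xf0f (.cons 4 0xf00f (.cons 5 0xf000f (.cons 7 0xff0000 .nil .nil) .nil) .nil) .nil)) .nil), 0, (.cons 3 0xf (.cons 1 0xf00f (.cons 2 0xf0ff (.cons 6 0xff0 .nil .nil) .nil) (.cons 4 0xf00f (.cons 5 0xf000f (.cons 7 0xff0000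 .nil .nil) .nil) .nil)) .nil), [0, 0, 120, 0, 0, 56, 0, 0, 120, 0, 0, 120, 0, 0, 28, 0, 0, 48, 0, 0, 28, 0, 0]⟩,
  ⟨⟨12, [[13, 0, 18, 19, 8, 14], [12, 14, 15, 16, 17, 1, 0], [12, 8, 7, 15, 13], [13, 14, 7, 6, 5, 16], [13, 15, 5, 4, 3, 17], [13, 16, 3, 2, 1], [12, 0, 11, 20, 19], [12, 18, 20, 9, 8], [18, 11, 10, 9, 19]], [(1, 6), (5, 4), (5, 3), (4, 4), (4, 3), (3, 4), (3, 3), (2, 2), (7, 4), (8, 3), (8, 2), (6, 2)], [(1, 2), (3, 2), (3, 4)]⟩, [(0, 0), (0, 3), (1, 2), (1, 3), (1, 4), (6, 4)], 0, (.cons 1 0xf (.cons 2 0xff (.cons 3 0xff0 (.cons 4 0xf0f0 (.cons 5 0xf00f0 .nil .nil) .nil) .nil) .nil) (.cons 6 0xf (.cons 7 0xf00000f (.cons 8 0xff000000 .nil .nil) .nil) .nil)), 1, (.cons 3 0xf0 (.cons 0 0xf0f0 (.cons 2 0xf0ff .nil (.cons 6 0xf (.cons 7 0xf00000f (.cons 8 0xff000000 .nil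 .nil) .nil) .nil)) (.cons 4 0xf0f0 (.cons 5 0xf00f0 .nil .nil) .nil)) .nil), [0, 0, 124, 0, 0, 56, 0, 0, 48, 0, 0, 56, 0, 0, 48, 0, 0, 48, 0, 0, 56, 0, 0, 48, 0, 0, 32]⟩,
  ⟨⟨12, [[13, 14, 15, 16, 17, 18, 2, 1, 0], [12, 0, 11, 10, 19, 14], [12, 13, 19, 20, 15], [12, 14, 20, 7, 16], [12, 15, 7, 6, 5, 17], [12, 16, 5, 4, 18], [12, 17, 4, 3, 2], [13, 10, 9, 8, 20, 14], [14, 19, 8, 7, 15]], [(0, 8), (0, 7), (6, 4), (6, 3), (5, 3), (4, 4), (4, 3), (8, 3), (7, 3), (7, 2), (1, 3), (1, 2)], [(0, 3), (4, 2), (4, 4)]⟩, [(0, 1), (0, 2), (0, 3), (0, 4), (0, 5), (1, 5), (2, 3), (2, 4)], 0, (.cons 5 0xf (.cons 4 0xf0000f (.cons 3 0xf000f (.cons 2 0xf00f (.cons 8 0xff0f (.cons 7 0xf00000f0f (.cons 1 0xf0000f0f .nil .nil) .nil) .nil) .nil) .nil) (.cons 6 0xf0000f .nil .nil)) .nil), 0, (.cons 4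 0xf (.cons 1 0xf000f (.cons 2 0xf00ff (.cons 7 0xf0fff (.cons 8 0xf00f0f0f (.cons 3 0xf000f0f0f .nil .nil) .nil) .nil) .nil) (.cons 5 0xf000f (.cons 6 0xf0000f .nil .nil) .nil)) .nil), [0, 0, 60, 0, 0, 56, 0, 0, 56, 0, 0, 124, 0, 0, 88, 0, 96, 0]⟩,
  ⟨⟨12, [[13, 14, 15, 16, 17, 18, 1, 0], [12, 0, 11, 10, 19, 14], [12, 13, 19, 8, 15], [12, 14, 8, 7, 16], [12, 15, 7, 6, 5, 17], [12, 16, 5, 4, 3, 18], [12, 17, 3, 2, 1], [13, 10, 9, 8, 14]], [(0, 7), (6, 4), (6, 3), (5, 4), (5, 3), (4, 4), (4, 3), (3, 3), (7, 3), (7, 2), (1, 3), (1, 2)], [(0, 3), (4, 2), (4, 4)]⟩, [(0, 1), (0, 2), (0, 3), (0, 4), (0, 5), (1, 5)], 0, (.cons 2 0xf (.cons 1 0xf0f (.cons 7 0xff0 .nil .nil) (.cons 3 0xf0f (.cons 4 0xf00f (.cons 5 0xf000f (.cons 6 0xf0000f .nil .nil) .nil) .nil) .nil)) .nil), 0, (.cons 4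 0xf (.cons 2 0xf000f (.cons 1 0xf0f (.cons 7 0xff0 .nil .nil) (.cons 3 0xf0f0f .nil .nil)) (.cons 5 0xf000f (.cons 6 0xf0000f .nil .nil) .nil)) .nil), [0, 0, 112, 0, 0, 60, 0, 0, 116, 0, 0, 60, 0, 0, 120, 0, 28, 0, 0, 48, 0, 0]⟩,
  ⟨⟨12, [[13, 14, 15, 16, 17, 9, 18, 19, 5], [12, 5, 4, 3, 20, 14], [12, 13, 20, 21, 15], [12, 14, 21, 1, 0, 16], [12, 15, 0, 11, 17], [12, 16, 11, 10, 9], [12, 9, 8, 22, 19], [12, 18, 22, 6, 5], [13, 3, 2, 21, 14], [14, 20, 2, 1, 15], [18, 8, 7, 6, 19]], [(3, 4), (9, 3), (8, 2), (1, 3), (1, 2), (7, 4), (10, 3), (10, 2), (6, 2), (5, 4), (5, 3), (4, 3)], [(1, 2)]⟩, [(0, 1), (0, 2), (0, 3), (0, 4), (0, 7), (1, 5), (2, 3), (2, 4), (6, 4)], 3, (.cons 0 0xf000 (.cons 2 0xf00f (.cons 1 0xff0f (.cons 8 0xfff0 (.cons 9 0xf0000ff00 .nil .nil) .nil) .nil) (.cons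 4 0xf00f (.cons 5 0xf000f .nil .nil) (.cons 6 0xf (.cons 7 0xf00000f (.cons 10 0xff000000 .nil .nil) .nil) .nil))) .nil), 3, (.cons 0 0xf000 (.cons 2 0xf00f (.cons 1 0xff0f (.cons 8 0xfff0 (.cons 9 0xf0000ff00 .nil .nil) .nil) .nil) (.cons 4 0xf00f (.cons 5 0xf000f .nil .nil) (.cons 6 0xf (.cons 7 0xf00000f (.cons 10 0xff000000 .nil .nil) .nil) .nil))) .nil), [0, 0, 56, 0, 0, 120, 0, 0, 48, 0, 0, 120, 0, 0, 48, 0, 0]⟩,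
  ⟨⟨12, [[13, 14, 15, 16, 2, 1, 0], [12, 0, 17, 18, 19, 14], [12, 13, 19, 6, 5, 15], [12, 14, 5, 4, 16], [12, 15, 4, 3, 2], [13, 0, 11, 10, 18], [13, 17, 10, 9, 8, 19], [13, 18, 8, 7, 6, 14]], [(0, 6), (0, 5), (4, 4), (4, 3), (3, 3), (2, 4), (7, 4), (7, 3), (6, 4), (6, 3), (5, 3), (5, 2)], [(0, 0), (6, 2), (6, 4)]⟩, [(0, 1), (0, 2), (0, 3), (1, 3), (1, 4), (1, 5)], 1, (.cons 2 0xf0 (.cons 0 0xff0 (.cons 3 0xf0f (.cons 4 0xf00f .nil .nil) .nil) (.cons 7 0xff0 (.cons 6 0xf00000f0 (.cons 5 0xf0000f0 .nil .nil) .nil) .nil)) .nil), 0, (.cons 1 0xf (.cons 2 0xff (.cons 3 0xf0f (.cons 4 0xf00f .nil .nil) (.cons 7 0xff0 (.cons 6 0xf00000f0 (.cons 5 0xf0000f0 .nil .nil) .nil) .nil)) .nil) .nil), [0, 0, 124, 0, 0, 56, 0, 0, 120, 0, 0, 52, 0, 0, 56, 0, 0, 48, 0, 0, 48, 0, 0, 56, 0]⟩,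
  ⟨⟨12, [[13, 14, 15, 16, 2, 1, 0], [12, 0, 11, 17, 18, 14], [12, 13, 18, 7, 6, 15], [12, 14, 6, 19, 16], [12, 15, 19, 4, 3, 2], [13, 11, 10, 9, 18], [13, 17, 9, 8, 7, 14], [15, 6, 5, 4, 16]], [(0, 6), (0, 5), (4, 5), (4, 4), (7, 3), (7, 2), (2, 4), (6, 4), (6, 3), (5, 3), (5, 2), (1, 2)], [(1, 4), (6, 2), (6, 4)]⟩, [(0, 1), (0, 2), (0, 3), (1, 4), (1, 5), (3, 4)], 0, (.cons 2 0xf (.cons 1 0xf0f (.cons 6 0xff0 (.cons 5 0xf0000f0 .nil .nil) .nil) (.cons 3 0xf0f (.cons 4 0xf00f (.cons 7 0xff000 .nil .nil) .nil) .nil)) .nil), 0, (.cons 1 0xf (.cons 6 0xff (.cons 2 0xf0000ff (.cons 3 0xf0f (.cons 4 0xf00f (.cons 7 0xff000 .nil .nil) .nil) .nil) (.cons 5 0xf0000f0 .nil .nil)) .nil) .nil), [0, 0, 60, 0, 0, 60, 0, 0, 120, 0, 0, 60, 0, 0, 124, 0, 0, 88, 0, 0, 32]⟩,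
  ⟨⟨12, [[13, 0, 17, 18, 6, 14], [12, 14, 15, 16, 2, 1, 0], [12, 6, 5, 15, 13], [13, 14, 5, 4, 16], [13, 15, 4, 3, 2], [12, 0, 11, 10, 19, 18], [12, 17, 19, 8, 7, 6], [17, 10, 9, 8, 18]], [(1, 6), (1, 5), (4, 4), (4, 3), (3, 3), (2, 2), (6, 5), (6, 4), (7, 3), (7, 2), (5, 3), (5, 2)], [(5, 1), (5, 3), (6, 3), (6, 5)]⟩, [(0, 0), (0, 3), (1, 2), (1, 3), (5, 5)], 0, (.cons 1 0xf (.cons 2 0xff (.cons 3 0xff0 (.cons 4 0xf0f0 .nil .nil) .nil) .nil) (.cons 5 0xf (.cons 6 0xf0000f (.cons 7 0xff00000 .nil .nil) .nil) .nil)), 1, (.cons 0 0xf0 (.cons 2 0xff (.cons 3 0xff0 (.cons 4 0xf0f0 .nil .nil) .nil) (.cons 5 0xf (.cons 6 0xf0000f (.cons 7 0xff00000 .nil .nil) .nil) .nil)) .nil), [0, 0, 112, 0, 0, 24, 0, 0, 48, 0, 0, 60, 0, 0, 48, 0, 0, 28, 0, 0, 40, 0, 0, 40, 0, 0, 36, 0, 0, 16, 0, 0,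 32, 0, 32]⟩,
  ⟨⟨12, [[13, 14, 15, 0, 16, 17, 18, 6], [12, 6, 5, 19, 14], [12, 13, 19, 3, 2, 15], [12, 14, 2, 1, 0], [12, 0, 11, 10, 17], [12, 16, 10, 9, 8, 18], [12, 17, 8, 7, 6], [13, 5, 4, 3, 14]], [(3, 4), (3, 3), (2, 4), (7, 3), (7, 2), (1, 2), (6, 4), (6, 3), (5, 4), (5, 3), (4, 3), (4, 2)], [(0, 3), (0, 7), (5, 2), (5, 4)]⟩, [(0, 1), (0, 2), (0, 5), (0, 6), (1, 4)], 0, (.cons 2 0xf (.cons 1 0xf0f (.cons 7 0xff0 .nil .nil) (.cons 3 0xf0f .nil .nil)) (.cons 5 0xf (.cons 4 0xf0000f .nil (.cons 6 0xf0000f .nil .nil)) .nil)), 3, (.cons 0 0xf000 (.cons 2 0xf00f (.cons 1 0xf0f (.cons 7 0xff0 .nil .nil) .nil) (.cons 5 0xf (.cons 4 0xf0000f .nil (.cons 6 0xf0000f .nil .nil)) .nil)) .nil), [0, 0, 120, 0, 0, 56, 0, 0, 88, 0, 0, 120, 0, 0, 20, 0, 0, 48, 0, 0, 24, 0, 16, 0, 0, 16]⟩,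
  ⟨⟨12, [[13, 14, 15, 16, 17, 2, 1, 0], [12, 0, 11, 10, 18, 19, 14], [12, 13, 19, 6, 15], [12, 14, 6, 5, 16], [12, 15, 5, 4, 17], [12, 16, 4, 3, 2], [13, 10, 9, 8, 19], [13, 18, 8, 7, 6, 14]], [(0, 7), (0, 6), (5, 4), (5, 3), (4, 3), (3, 3), (7, 4), (7, 3), (6, 3), (6, 2), (1, 3), (1, 2)], [(0, 1), (2, 3)]⟩, [(0, 1), (0, 2), (0, 3), (0, 4), (1, 5), (1, 6)], 0, (.cons 2 0xf (.cons 1 0xf0f (.cons 7 0xff0 (.cons 6 0xf00000f0 .nil .nil) .nil) (.cons 3 0xf0f (.cons 4 0xf00f (.cons 5 0xf000f .nil .nil) .nil) .nil)) .nil), 0, (.cons 2 0xf (.cons 1 0xf0f (.cons 7 0xff0 (.cons 6 0xf00000f0 .nil .nil) .nil) (.cons 4 0xf0f (.cons 3 0xf0f0f .nil (.cons 5 0xf000f .nil .nil)) .nil)) .nil), [0, 0, 120, 0, 0, 56, 0, 0, 56, 0, 0, 112, 0, 0, 56, 0, 0, 48, 0, 0, 56, 0, 0, 48, 0, 0]⟩,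
  ⟨⟨12, [[13, 14, 15, 16, 17, 18, 1, 0], [12, 0, 11, 10, 19, 14], [12, 13, 19, 8, 7, 15], [12, 14, 7, 6, 16], [12, 15, 6, 5, 17], [12, 16, 5, 4, 3, 18], [12, 17, 3, 2, 1], [13, 10, 9, 8, 14]], [(0, 7), (6, 4), (6, 3), (5, 4), (5, 3), (4, 3), (3, 3), (2, 4), (7, 3), (7, 2), (1, 3), (1, 2)], [(0, 1), (2, 4)]⟩, [(0, 1), (0, 2), (0, 3), (0, 4), (0, 5), (1, 5)], 0, (.cons 2 0xf (.cons 1 0xf0f (.cons 7 0xff0 .nil .nil) (.cons 3 0xf0f (.cons 4 0xf00f (.cons 5 0xf000f (.cons 6 0xf0000f .nil .nil) .nil) .nil) .nil)) .nil), 0, (.cons 2 0xf (.cons 1 0xf0f (.cons 7 0xff0 .nil .nil) (.cons 4 0xf0f (.cons 3 0xf0f0f .nil (.cons 5 0xf000f (.cons 6 0xf0000f .nil .nil) .nil)) .nil)) .nil), [0, 0, 120, 0, 0, 56, 0, 0, 28, 0, 0, 112, 0, 0, 56, 0, 0, 56, 0, 0, 112, 0, 0]⟩,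
  ⟨⟨12, [[13, 14, 15, 16, 17, 18, 1, 0], [12, 0, 11, 19, 14], [12, 13, 19, 20, 15], [12, 14, 20, 8, 7, 16], [12, 15, 7, 6, 5, 17], [12, 16, 5, 4, 3, 18], [12, 17, 3, 2, 1], [13, 11, 10, 20, 14], [14, 19, 10, 9, 8, 15]], [(0, 7), (6, 4), (6, 3), (5, 4), (5, 3), (4, 4), (4, 3), (3, 4), (8, 4), (8, 3), (7, 2), (1, 2)], [(0, 1), (8, 2), (8, 4)]⟩, [(0, 1), (0, 2), (0, 3), (0, 4), (0, 5), (1, 4), (2, 3), (2, 4)], 0, (.cons 5 0xf (.cons 4 0xf0000f (.cons 3 0xf000f (.cons 2 0xf00f (.cons 8 0xff0f (.cons 7 0xf00000f0f (.cons 1 0xf0000f0f .nil .nil) .nil) .nil) .nil) .nil) (.cons 6 0xf0000f .nil .nil)) .nil), 0, (.cons 2 0xf (.cons 3 0xf0f (.cons 8 0xff0f (.cons 7 0xf00000f0f (.cons 1 0xf0000f0f .nil .nil) .nil) (.cons 4 0xf00f (.cons 5 0xf000f (.cons 6 0xf0000f .nil .nil) .nil) .nil)) .nil)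 .nil), [0, 0, 120, 0, 0, 120, 0, 0, 48, 0, 0, 56, 0, 0, 120, 0, 0, 48]⟩,
  ⟨⟨12, [[13, 14, 15, 0, 16, 17, 18, 6], [12, 6, 5, 4, 19, 14], [12, 13, 19, 20, 15], [12, 14, 20, 2, 1, 0], [12, 0, 11, 10, 21, 17], [12, 16, 21, 22, 18], [12, 17, 22, 7, 6], [13, 4, 3, 20, 14], [14, 19, 3, 2, 15], [16, 10, 9, 8, 22, 17], [17, 21, 8, 7, 18]], [(3, 5), (3, 4), (8, 3), (7, 2), (1, 3), (1, 2), (6, 4), (10, 3), (9, 3), (9, 2), (4, 3), (4, 2)], [(1, 1)]⟩, [(0, 1), (0, 2), (0, 5), (0, 6), (1, 5), (2, 3), (2, 4), (4, 5), (5, 3), (5, 4)], 0, (.cons 1 0xf (.cons 2 0xff (.cons 7 0xfff (.cons 8 0xf0000f0f (.cons 3 0xf00000f0f .nil .nil) .nil) .nil) .nil) (.cons 4 0xf (.cons 5 0xf000f (.cons 9 0xff000f (.cons 10 0xf000f0000f (.cons 6 0xf0000f0000f .nil .nil) .nil) .nil) .nil) .nil)), 3, (.cons 0 0xf000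 (.cons 2 0xf00f (.cons 1 0xff0f (.cons 7 0xfff0 (.cons 8 0xf000ff00 .nil .nil) .nil) .nil) (.cons 4 0xf (.cons 5 0xf000f (.cons 9 0xff000f (.cons 10 0xf000f0000f (.cons 6 0xf0000f0000f .nil .nil) .nil) .nil) .nil) .nil)) .nil), [0, 0, 60, 0, 0, 56, 0, 0, 120, 0, 0, 120, 0, 0]⟩,
  ⟨⟨12, [[13, 14, 15, 16, 17, 1, 0], [12, 0, 11, 10, 18, 19, 14], [12, 13, 19, 7, 6, 15], [12, 14, 6, 5, 16], [12, 15, 5, 4, 3, 17], [12, 16, 3, 2, 1], [13, 10, 9, 8, 19], [13, 18, 8, 7, 14]], [(0, 6), (5, 4), (5, 3), (4, 4), (4, 3), (3, 3), (2, 4), (7, 3), (6, 3), (6, 2), (1, 3), (1, 2)], [(0, 3), (4, 2), (4, 4)]⟩, [(0, 1), (0, 2), (0, 3), (0, 4), (1, 5), (1, 6)], 0, (.cons 2 0xf (.cons 1 0xf0f (.cons 7 0xff0 (.cons 6 0xf00000f0 .nil .nil) .nil) (.cons 3 0xf0f (.cons 4 0xf00f (.cons 5 0xf000f .nil .nil)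 .nil) .nil)) .nil), 0, (.cons 4 0xf (.cons 2 0xf000f (.cons 1 0xf0f (.cons 7 0xff0 (.cons 6 0xf00000f0 .nil .nil) .nil) (.cons 3 0xf0f0f .nil .nil)) (.cons 5 0xf000f .nil .nil)) .nil), [0, 0, 124, 0, 0, 124, 0, 0, 48, 0, 0, 28, 0, 0, 104, 0, 0, 24, 0, 0, 48, 0, 0, 24, 0, 0]⟩,
  ⟨⟨12, [[13, 14, 15, 16, 17, 7, 6, 5], [12, 5, 4, 3, 18, 14], [12, 13, 18, 1, 0, 15], [12, 14, 0, 19, 16], [12, 15, 19, 10, 9, 17], [12, 16, 9, 8, 7], [13, 3, 2, 1, 14], [15, 0, 11, 10, 16]], [(2, 4), (6, 3), (6, 2), (1, 3), (1, 2), (0, 7), (0, 6), (5, 4), (5, 3), (4, 4), (7, 3), (7, 2)], [(0, 1), (0, 5), (0, 7)]⟩, [(0, 1), (0, 2), (0, 3), (0, 4), (1, 5), (3, 4)], 3, (.cons 0 0xf000 (.cons 2 0xf00f (.cons 1 0xf0f (.cons 6 0xff0 .nil .nil) .nil) (.cons 4 0xf00f (.cons 5 0xf000f .nil (.cons 7 0xff000 .nil .nil))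 .nil)) .nil), 2, (.cons 0 0xf00 (.cons 1 0xf0f (.cons 6 0xff0 .nil .nil) (.cons 4 0xf0f (.cons 3 0xf0f0f (.cons 7 0xff000 .nil .nil) (.cons 5 0xf000f .nil .nil)) .nil)) .nil), [0, 0, 124, 0, 0, 56, 0, 0, 120, 0, 0, 52, 0, 0, 24, 0, 0, 112, 0, 0, 56, 0]⟩,
  ⟨⟨12, [[13, 14, 15, 16, 17, 18, 1, 0], [12, 0, 11, 19, 14], [12, 13, 19, 9, 8, 7, 15], [12, 14, 7, 6, 16], [12, 15, 6, 5, 17], [12, 16, 5, 4, 3, 18], [12, 17, 3, 2, 1], [13, 11, 10, 9, 14]], [(0, 7), (6, 4), (6, 3), (5, 4), (5, 3), (4, 3), (3, 3), (2, 5), (2, 4), (7, 3), (7, 2), (1, 2)], [(0, 2), (3, 3)]⟩, [(0, 1), (0, 2), (0, 3), (0, 4), (0, 5), (1, 4)], 0, (.cons 2 0xf (.cons 1 0xf0f (.cons 7 0xff0 .nil .nil) (.cons 3 0xf0f (.cons 4 0xf00f (.cons 5 0xf000f (.cons 6 0xf0000f .nil .nil) .nil) .nil) .nil)) .nil), 0, (.cons 3 0xf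 (.cons 1 0xf00f (.cons 2 0xf0ff (.cons 7 0xff0 .nil .nil) .nil) (.cons 5 0xf00f (.cons 4 0xf0f00f .nil (.cons 6 0xf0000f .nil .nil)) .nil)) .nil), [0, 0, 120, 0, 0, 60, 0, 0, 112, 0, 0, 56, 0, 0, 48, 0, 0, 52, 0, 0, 56, 0, 0, 48, 0, 0, 24, 0, 0]⟩,
  ⟨⟨12, [[13, 14, 15, 16, 17, 7, 6, 5], [12, 5, 4, 3, 14], [12, 13, 3, 2, 1, 15], [12, 14, 1, 0, 18, 19, 16], [12, 15, 19, 9, 17], [12, 16, 9, 8, 7], [15, 0, 11, 10, 19], [15, 18, 10, 9, 16]], [(3, 3), (2, 4), (2, 3), (1, 3), (1, 2), (0, 7), (0, 6), (5, 4), (5, 3), (7, 3), (6, 3), (6, 2)], [(0, 1), (2, 2), (2, 4)]⟩, [(0, 1), (0, 2), (0, 3), (0, 4), (3, 5), (3, 6)], 3, (.cons 0 0xf000 (.cons 2 0xf00f (.cons 1 0xf0f .nil .nil) (.cons 4 0xf00f (.cons 5 0xf000f .nil (.cons 7 0xff000 (.cons 6 0xf000f000 .nil .nil) .nil)) .nil)) .nil), 3, (.cons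 0 0xf000 (.cons 2 0xf00f (.cons 1 0xf0f .nil .nil) (.cons 4 0xf00f (.cons 5 0xf000f .nil (.cons 7 0xff000 (.cons 6 0xf000f000 .nil .nil) .nil)) .nil)) .nil), [0, 0, 120, 0, 0, 56, 0, 0, 120, 0, 0, 52, 0, 0, 24, 0, 0, 48, 0, 0, 120, 0, 0, 24]⟩,
  ⟨⟨12, [[13, 14, 15, 16, 2, 1, 0], [12, 0, 11, 10, 17, 14], [12, 13, 17, 18, 6, 15], [12, 14, 6, 19, 16], [12, 15, 19, 4, 3, 2], [13, 10, 9, 8, 18, 14], [14, 17, 8, 7, 6], [15, 6, 5, 4, 16]], [(0, 6), (0, 5), (4, 5), (4, 4), (7, 3), (7, 2), (6, 4), (6, 3), (5, 3), (5, 2), (1, 3), (1, 2)], [(3, 3)]⟩, [(0, 1), (0, 2), (0, 3), (1, 5), (2, 3), (3, 4)], 0, (.cons 2 0xf (.cons 1 0xf0f (.cons 5 0xff0 (.cons 6 0xf00f00 .nil .nil) .nil) (.cons 3 0xf0f (.cons 4 0xf00f (.cons 7 0xff000 .nil .nil) .nil) .nil)) .nil), 0, (.cons 2 0xf (.cons 1 0xf0f (.cons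 5 0xff0 (.cons 6 0xf00f00 .nil .nil) .nil) (.cons 3 0xf0f (.cons 7 0xf00f (.cons 4 0xf000f00f .nil .nil) .nil) .nil)) .nil), [0, 0, 120, 0, 0, 56, 0, 0, 56, 0, 0, 56, 0, 0, 56, 0, 0, 56, 0, 0, 120, 0, 0, 48, 0, 0]⟩,
  ⟨⟨12, [[13, 14, 15, 16, 17, 18, 2], [12, 2, 1, 0, 14], [12, 13, 0, 11, 10, 19, 15], [12, 14, 19, 8, 16], [12, 15, 8, 7, 6, 17], [12, 16, 6, 5, 4, 18], [12, 17, 4, 3, 2], [14, 10, 9, 8, 15]], [(1, 3), (1, 2), (6, 4), (6, 3), (5, 4), (5, 3), (4, 4), (4, 3), (7, 3), (7, 2), (2, 4), (2, 3)], [(0, 0), (7, 1), (7, 3)]⟩, [(0, 1), (0, 2), (0, 3), (0, 4), (0, 5), (2, 6)], 2, (.cons 0 0xf00 (.cons 1 0xf0f .nil (.cons 3 0xf0f (.cons 4 0xf00f (.cons 5 0xf000f (.cons 6 0xf0000f .nil .nil) .nil) (.cons 7 0xff00 .nil .nil)) .nil)) .nil), 1, (.cons 0 0xf0 (.cons 3 0xff (.cons 2 0xf0ff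 (.cons 7 0xff00 .nil .nil) (.cons 4 0xf00f (.cons 5 0xf000f (.cons 6 0xf0000f .nil .nil) .nil) .nil)) .nil) .nil), [0, 0, 120, 0, 0, 56, 0, 0, 56, 0, 0, 120, 0, 0, 56, 0, 0, 56, 0, 0, 56, 0, 0, 48, 0, 0]⟩,
  ⟨⟨12, [[13, 14, 15, 16, 17, 2, 1, 0], [12, 0, 11, 18, 19, 14], [12, 13, 19, 8, 7, 15], [12, 14, 7, 6, 5, 16], [12, 15, 5, 4, 17], [12, 16, 4, 3, 2], [13, 11, 10, 9, 19], [13, 18, 9, 8, 14]], [(0, 7), (0, 6), (5, 4), (5, 3), (4, 3), (3, 4), (3, 3), (2, 4), (7, 3), (6, 3), (6, 2), (1, 2)], [(0, 2), (3, 2), (3, 4)]⟩, [(0, 1), (0, 2), (0, 3), (0, 4), (1, 4), (1, 5)], 0, (.cons 2 0xf (.cons 1 0xf0f (.cons 7 0xff0 (.cons 6 0xf00000f0 .nil .nil) .nil) (.cons 3 0xf0f (.cons 4 0xf00f (.cons 5 0xf000f .nil .nil) .nil) .nil)) .nil), 0, (.cons 3 0xf (.cons 1 0xf00f (.cons 2 0xf0ff (.cons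 7 0xff0 (.cons 6 0xf00000f0 .nil .nil) .nil) .nil) (.cons 4 0xf00f (.cons 5 0xf000f .nil .nil) .nil)) .nil), [0, 0, 124, 0, 0, 56, 0, 0, 120, 0, 0, 24, 0, 0, 120, 0, 0, 60, 0, 0, 48, 0, 0]⟩,
  ⟨⟨12, [[13, 14, 15, 16, 17, 18, 2, 1, 0], [12, 0, 11, 19, 14], [12, 13, 19, 20, 15], [12, 14, 20, 8, 7, 6, 16], [12, 15, 6, 5, 17], [12, 16, 5, 4, 18], [12, 17, 4, 3, 2], [13, 11, 10, 20, 14], [14, 19, 10, 9, 8, 15]], [(0, 8), (0, 7), (6, 4), (6, 3), (5, 3), (4, 3), (3, 5), (3, 4), (8, 4), (8, 3), (7, 2), (1, 2)], [(8, 3)]⟩, [(0, 1), (0, 2), (0, 3), (0, 4), (0, 5), (1, 4), (2, 3), (2, 4)], 0, (.cons 5 0xf (.cons 4 0xf0000f (.cons 3 0xf000f (.cons 2 0xf00f (.cons 8 0xff0f (.cons 7 0xf00000f0f (.cons 1 0xf0000f0f .nil .nil) .nil) .nil) .nil) .nil) (.cons 6 0xf0000f .nil .nil)) .nil), 0, (.cons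 5 0xf (.cons 4 0xf0000f (.cons 3 0xf000f (.cons 2 0xf00f (.cons 8 0xff0f (.cons 7 0xf00000f0f (.cons 1 0xf0000f0f .nil .nil) .nil) .nil) .nil) .nil) (.cons 6 0xf0000f .nil .nil)) .nil), [0, 0, 120, 0, 0, 28, 0, 0, 120, 0, 0, 56, 0, 0, 56, 0, 0, 40, 0, 0, 60, 0, 0, 56, 0]⟩,
  ⟨⟨12, [[13, 14, 15, 16, 17, 18, 1, 0], [12, 0, 11, 19, 14], [12, 13, 19, 9, 15], [12, 14, 9, 8, 7, 20, 16], [12, 15, 20, 5, 4, 17], [12, 16, 4, 3, 18], [12, 17, 3, 2, 1], [13, 11, 10, 9, 14], [15, 7, 6, 5, 16]], [(0, 7), (6, 4), (6, 3), (5, 3), (4, 4), (8, 3), (8, 2), (3, 4), (3, 3), (7, 3), (7, 2), (1, 2)], [(1, 1), (2, 3)]⟩, [(0, 1), (0, 2), (0, 3), (0, 4), (0, 5), (1, 4), (3, 6)], 0, (.cons 2 0xf (.cons 1 0xf0f (.cons 7 0xff0 .nil .nil) (.cons 3 0xf0f (.cons 4 0xf00f (.cons 5 0xf000f (.cons 6 0xf0000f .nil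 .nil) (.cons 8 0xff000 .nil .nil)) .nil) .nil)) .nil), 0, (.cons 2 0xf (.cons 1 0xf0f (.cons 7 0xff0 .nil .nil) (.cons 3 0xf0f (.cons 4 0xf00f (.cons 5 0xf000f (.cons 6 0xf0000f .nil .nil) (.cons 8 0xff000 .nil .nil)) .nil) .nil)) .nil), [0, 0, 120, 0, 0, 60, 0, 0, 112, 0, 0, 56, 0, 0, 48, 0, 0, 56, 0, 0, 56, 0, 0, 48, 0]⟩,
  ⟨⟨12, [[13, 14, 15, 16, 17, 2, 1, 0], [12, 0, 11, 10, 18, 14], [12, 13, 18, 8, 7, 15], [12, 14, 7, 6, 19, 16], [12, 15, 19, 20, 17], [12, 16, 20, 4, 3, 2], [13, 10, 9, 8, 14], [15, 6, 5, 20, 16], [16, 19, 5, 4, 17]], [(0, 7), (0, 6), (5, 5), (5, 4), (8, 3), (7, 2), (3, 3), (2, 4), (6, 3), (6, 2), (1, 3), (1, 2)], [(0, 0), (0, 2), (3, 2)]⟩, [(0, 1), (0, 2), (0, 3), (0, 4), (1, 5), (3, 5), (4, 3), (4, 4)], 0, (.cons 2 0xf (.cons 1 0xf0f (.cons 6 0xff0 .nil .nil)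 (.cons 3 0xf0f (.cons 4 0xf00f (.cons 7 0xff00f (.cons 8 0xf00f000f (.cons 5 0xf000f000f .nil .nil) .nil) .nil) .nil) .nil)) .nil), 0, (.cons 1 0xf (.cons 3 0xff (.cons 2 0xf0ff (.cons 6 0xff0 .nil .nil) (.cons 4 0xf00f (.cons 5 0xff00f (.cons 8 0xfff000 (.cons 7 0xf000ff000 .nil .nil) .nil) .nil) .nil)) .nil) .nil), [0, 0, 124, 0, 0, 56, 0, 0, 116, 0, 0, 56, 0, 0, 56, 0, 0, 120, 0, 0]⟩,
  ⟨⟨12, [[13, 14, 15, 0, 16, 17, 8], [12, 8, 7, 6, 18, 14], [12, 13, 18, 19, 20, 15], [12, 14, 20, 2, 1, 0], [12, 0, 11, 21, 17], [12, 16, 21, 9, 8], [13, 6, 5, 4, 19, 14], [14, 18, 4, 3, 20], [14, 19, 3, 2, 15], [16, 11, 10, 9, 17]], [(3, 5), (3, 4), (8, 3), (7, 3), (6, 3), (6, 2), (1, 3), (1, 2), (5, 4), (9, 3), (9, 2), (4, 2)], [(9, 1), (9, 3)]⟩, [(0, 1), (0, 2), (0, 5), (1, 5), (2, 3), (2, 4),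 (2, 5), (4, 4)], 0, (.cons 1 0xf (.cons 2 0xff (.cons 6 0xfff (.cons 7 0xf000f0f (.cons 8 0xf0000f0f (.cons 3 0xf00000f0f .nil .nil) .nil) .nil) .nil) .nil) (.cons 4 0xf (.cons 5 0xf000f (.cons 9 0xff0000 .nil .nil) .nil) .nil)), 3, (.cons 0 0xf000 (.cons 2 0xf00f (.cons 1 0xff0f (.cons 6 0xfff0 (.cons 7 0xf00ff00 (.cons 8 0xf000ff00 .nil .nil) .nil) .nil) .nil) (.cons 4 0xf (.cons 5 0xf000f (.cons 9 0xff0000 .nil .nil) .nil) .nil)) .nil), [0, 0, 120, 0, 0, 56, 0, 0, 120, 0, 0, 88, 0, 0, 48, 0, 0]⟩,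
  ⟨⟨12, [[13, 6, 17, 18, 19, 0, 14], [12, 14, 15, 16, 8, 7, 6], [12, 0, 11, 15, 13], [13, 14, 11, 10, 16], [13, 15, 10, 9, 8], [12, 6, 5, 4, 20, 18], [12, 17, 20, 21, 19], [12, 18, 21, 1, 0], [17, 4, 3, 2, 21, 18], [18, 20, 2, 1, 19]], [(7, 4), (9, 3), (8, 3), (8, 2), (5, 3), (5, 2), (1, 6), (1, 5), (4, 4), (4, 3), (3, 3), (2, 2)], [(1, 1), (2, 1)]⟩, [(0, 0), (0, 3), (0, 4), (1, 2), (1, 3), (5, 5), (6, 3), (6, 4)], 0, (.cons 1 0xf (.cons 2 0xff (.cons 3 0xff0 (.cons 4 0xf0f0 .nil .nil) .nil) .nil) (.cons 5 0xf (.cons 6 0xf0000f (.cons 8 0xff0000f (.cons 9 0xf0f00000f (.cons 7 0xf00f00000f .nil .nil) .nil) .nil) .nil) .nil)), 7, (.cons 1 0xf0000000 (.cons 2 0xf00000f0 (.cons 0 0xf0000ff0 (.cons 6 0xf000000f (.cons 5 0xff00000f (.cons 8 0xfff00000 (.cons 9 0xfff000000 .nil .nil) .nil)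 .nil) .nil) (.cons 3 0xff0 (.cons 4 0xf0f0 .nil .nil) .nil)) .nil) .nil), [0, 0, 124, 0, 0, 60, 0, 0, 56, 0, 0, 120, 0, 0, 120, 0]⟩,
  ⟨⟨12, [[13, 0, 17, 18, 7, 14], [12, 14, 15, 16, 2, 1, 0], [12, 7, 6, 5, 15, 13], [13, 14, 5, 4, 16], [13, 15, 4, 3, 2], [12, 0, 11, 10, 19, 18], [12, 17, 19, 8, 7], [17, 10, 9, 8, 18]], [(1, 6), (1, 5), (4, 4), (4, 3), (3, 3), (2, 3), (2, 2), (6, 4), (7, 3), (7, 2), (5, 3), (5, 2)], [(1, 1), (2, 1), (2, 3)]⟩, [(0, 0), (0, 3), (1, 2), (1, 3), (5, 5)], 0, (.cons 1 0xf (.cons 2 0xff (.cons 3 0xff0 (.cons 4 0xf0f0 .nil .nil) .nil) .nil) (.cons 5 0xf (.cons 6 0xf0000f (.cons 7 0xff00000 .nil .nil) .nil) .nil)), 1, (.cons 2 0xf0 (.cons 0 0xff0 (.cons 5 0xf (.cons 6 0xf0000f (.cons 7 0xff00000 .nil .nil) .nil) .nil) (.cons 3 0xff0 (.cons 4 0xf0f0 .nil .nil)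 .nil)) .nil), [0, 0, 124, 0, 0, 56, 0, 0, 56, 0, 0, 56, 0, 0, 48, 0, 0, 24, 0, 0, 112, 0, 0, 24, 0, 0, 48, 0, 0, 28]⟩,
  ⟨⟨12, [[13, 14, 15, 16, 17, 1, 0], [12, 0, 11, 18, 19, 14], [12, 13, 19, 7, 6, 5, 15], [12, 14, 5, 4, 16], [12, 15, 4, 3, 17], [12, 16, 3, 2, 1], [13, 11, 10, 9, 19], [13, 18, 9, 8, 7, 14]], [(0, 6), (5, 4), (5, 3), (4, 3), (3, 3), (2, 5), (2, 4), (7, 4), (7, 3), (6, 3), (6, 2), (1, 2)], [(0, 0)]⟩, [(0, 1), (0, 2), (0, 3), (0, 4), (1, 4), (1, 5)], 0, (.cons 2 0xf (.cons 1 0xf0f (.cons 7 0xff0 (.cons 6 0xf00000f0 .nil .nil) .nil) (.cons 3 0xf0f (.cons 4 0xf00f (.cons 5 0xf000f .nil .nil) .nil) .nil)) .nil), 0, (.cons 1 0xf (.cons 2 0xff (.cons 3 0xf0f (.cons 4 0xf00f (.cons 5 0xf000f .nil .nil) .nil) (.cons 7 0xff0 (.cons 6 0xf00000f0 .nil .nil) .nil)) .nil) .nil),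 [0, 0, 112, 0, 0, 56, 0, 0, 120, 0, 0, 28, 0, 0, 56, 0, 0, 112, 0, 0, 28, 0, 0, 48, 0, 0]⟩,
  ⟨⟨12, [[13, 14, 15, 16, 17, 1, 0], [12, 0, 11, 10, 18, 19, 14], [12, 13, 19, 7, 15], [12, 14, 7, 6, 5, 16], [12, 15, 5, 4, 3, 17], [12, 16, 3, 2, 1], [13, 10, 9, 8, 19], [13, 18, 8, 7, 14]], [(0, 6), (5, 4), (5, 3), (4, 4), (4, 3), (3, 4), (3, 3), (7, 3), (6, 3), (6, 2), (1, 3), (1, 2)], [(0, 1), (2, 3), (6, 4)]⟩, [(0, 1), (0, 2), (0, 3), (0, 4), (1, 5), (1, 6)], 0, (.cons 2 0xf (.cons 1 0xf0f (.cons 7 0xff0 (.cons 6 0xf00000f0 .nil .nil) .nil) (.cons 3 0xf0f (.cons 4 0xf00f (.cons 5 0xf000f .nil .nil) .nil) .nil)) .nil), 0, (.cons 2 0xf (.cons 7 0xf0f (.cons 6 0xf0000f0f (.cons 1 0xff000f0f .nil .nil) .nil) (.cons 4 0xf0f (.cons 3 0xf0f0f .nil (.cons 5 0xf000f .nil .nil)) .nil)) .nil),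 [0, 0, 120, 0, 0, 56, 0, 0, 60, 0, 0, 56, 0, 0, 120, 0, 0, 48, 0, 0, 120, 0, 0]⟩,
  ⟨⟨12, [[13, 14, 15, 16, 17, 2, 1, 0], [12, 0, 11, 18, 19, 14], [12, 13, 19, 7, 6, 15], [12, 14, 6, 5, 16], [12, 15, 5, 4, 17], [12, 16, 4, 3, 2], [13, 11, 10, 9, 19], [13, 18, 9, 8, 7, 14]], [(0, 7), (0, 6), (5, 4), (5, 3), (4, 3), (3, 3), (2, 4), (7, 4), (7, 3), (6, 3), (6, 2), (1, 2)], [(1, 1), (1, 3), (1, 5)]⟩, [(0, 1), (0, 2), (0, 3), (0, 4), (1, 4), (1, 5)], 0, (.cons 2 0xf (.cons 1 0xf0f (.cons 7 0xff0 (.cons 6 0xf00000f0 .nil .nil) .nil) (.cons 3 0xf0f (.cons 4 0xf00f (.cons 5 0xf000f .nil .nil) .nil) .nil)) .nil), 0, (.cons 1 0xf (.cons 2 0xff (.cons 3 0xf0f (.cons 4 0xf00f (.cons 5 0xf000f .nil .nil) .nil) (.cons 6 0xff0 (.cons 7 0xf000ff0 .nil .nil) .nil)) .nil) .nil), [0, 0, 120, 0, 0,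 124, 0, 0, 56, 0, 0, 56, 0, 0, 56, 0, 0, 56, 0, 0, 124, 0, 0]⟩]

noncomputable def jobs14 : List Job := [⟨⟨12, [[13, 14, 15, 16, 17, 8, 7, 6], [12, 6, 5, 4, 18, 14], [12, 13, 18, 2, 1, 0, 15], [12, 14, 0, 11, 16], [12, 15, 11, 10, 17], [12, 16, 10, 9, 8], [13, 4, 3, 2, 14]], [(2, 5), (2, 4), (6, 3), (6, 2), (1, 3), (1, 2), (0, 7), (0, 6), (5, 4), (5, 3), (4, 3), (3, 3)], [(0, 1), (0, 5), (0, 7)]⟩, [(0, 1), (0, 2), (0, 3), (0, 4), (1, 5)], 2, (.cons 0 0xf00 (.cons 1 0xf0f (.cons 6 0xff0 .nil .nil) (.cons 3 0xf0f (.cons 4 0xf00f (.cons 5 0xf000f .nil .nil) .nil) .nil)) .nil), 2, (.cons 0 0xf00 (.cons 1 0xf0f (.cons 6 0xff0 .nil .nil) (.cons 4 0xf0f (.cons 3 0xf0f0f .nil (.cons 5 0xf000f .nil .nil)) .nil)) .nil), [0, 0, 112, 0, 0, 60, 0, 0, 112, 0, 0, 60, 0, 0, 120, 0, 0, 124, 0, 0,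 56, 0, 0, 60, 0, 0, 120, 0, 0, 56, 0, 0, 56, 0, 0, 92, 0, 0, 48, 0, 0, 56, 0, 0, 56, 0, 0, 56, 0, 0, 48, 0, 0, 40, 0, 0, 16, 0, 0, 16, 0]⟩,
  ⟨⟨12, [[13, 14, 15, 16, 17, 1, 0], [12, 0, 11, 10, 14], [12, 13, 10, 9, 8, 18, 15], [12, 14, 18, 6, 5, 16], [12, 15, 5, 4, 3, 17], [12, 16, 3, 2, 1], [14, 8, 7, 6, 15]], [(0, 6), (5, 4), (5, 3), (4, 4), (4, 3), (3, 4), (6, 3), (6, 2), (2, 4), (2, 3), (1, 3), (1, 2)], [(2, 2), (2, 4), (2, 6), (3, 4)]⟩, [(0, 1), (0, 2), (0, 3), (0, 4), (2, 6)], 0, (.cons 2 0xf (.cons 1 0xf0f .nil (.cons 3 0xf0f (.cons 4 0xf00f (.cons 5 0xf000f .nil .nil) (.cons 6 0xff00 .nil .nil)) .nil)) .nil), 0, (.cons 2 0xf (.cons 1 0xf0f .nil (.cons 3 0xf0f (.cons 4 0xf00f (.cons 5 0xf000f .nil .nil) (.cons 6 0xff00 .nil .nil)) .nil)) .nil), [0, 0, 112, 0, 0, 60, 0, 0,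 120, 0, 0, 120, 0, 0, 56, 0, 0, 60, 0, 0, 56, 0, 0, 112, 0, 0, 60, 0, 0, 56, 0, 0, 116, 0, 0, 56, 0, 0, 116, 0, 0, 88, 0, 0, 48, 0, 0, 24, 0, 0, 32, 0, 8, 0, 16, 0, 0, 32, 0, 0, 8, 0]⟩]

noncomputable def jobs18 : List Job := [⟨⟨13, [[14, 15, 16, 17, 18, 19, 20], [13, 20, 21, 2, 1, 0, 15], [13, 14, 0, 12, 11, 16], [13, 15, 11, 10, 9, 17], [13, 16, 9, 8, 18], [13, 17, 8, 7, 19], [13, 18, 7, 6, 20], [13, 19, 6, 5, 4, 21, 14], [14, 20, 4, 3, 2]], [(1, 5), (1, 4), (8, 4), (8, 3), (7, 4), (7, 3), (6, 3), (5, 3), (4, 3), (3, 4), (3, 3), (2, 4), (2, 3)], [(1, 6), (2, 4)]⟩, [(0, 0), (0, 1), (0, 2), (0, 3), (0, 4), (0, 5), (0, 6), (1, 2)], 1, (.cons 7 0xf0 (.cons 0 0xf00000f0 (.cons 6 0xf00000ff (.cons 5 0xf0000ff (.cons 4 0xf000ff (.cons 3 0xf00ff (.cons 2 0xf0ff .nil .nil) .nil) .nil)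 .nil) .nil) (.cons 8 0xf00000f0 .nil .nil)) .nil), 1, (.cons 2 0xf0 (.cons 7 0xff0 (.cons 0 0xf0000ff0 (.cons 6 0xf0000f0f (.cons 5 0xf000f0f (.cons 4 0xf00f0f (.cons 3 0xf0f0f .nil .nil) .nil) .nil) .nil) (.cons 8 0xf00000f0 .nil .nil)) .nil) .nil), [0, 0, 124, 0, 0, 124, 0, 0, 120, 0, 0, 56, 0, 0, 112, 0, 0, 56, 0, 0, 48, 0, 0]⟩,
  ⟨⟨13, [[14, 15, 16, 17, 18, 2, 1, 0], [13, 0, 12, 11, 19, 15], [13, 14, 19, 9, 8, 16], [13, 15, 8, 7, 20, 21, 17], [13, 16, 21, 22, 18], [13, 17, 22, 4, 3, 2], [14, 11, 10, 9, 15], [16, 7, 6, 5, 21], [16, 20, 5, 22, 17], [17, 21, 5, 4, 18]], [(0, 7), (0, 6), (5, 5), (5, 4), (9, 3), (7, 3), (7, 2), (3, 3), (2, 4), (6, 3), (6, 2), (1, 3), (1, 2)], [(3, 4), (7, 3)]⟩, [(0, 1), (0, 2), (0, 3), (0, 4), (1, 5), (3, 5), (3, 6), (4, 3), (4, 4)], 0, (.cons 2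 0xf (.cons 1 0xf0f (.cons 6 0xff0 .nil .nil) (.cons 3 0xf0f (.cons 4 0xf00f (.cons 8 0xff00f (.cons 9 0xf000f000f (.cons 5 0xf0000f000f .nil .nil) (.cons 7 0xf0000f000 .nil .nil)) .nil) .nil) .nil)) .nil), 0, (.cons 2 0xf (.cons 1 0xf0f (.cons 6 0xff0 .nil .nil) (.cons 3 0xf0f (.cons 7 0xf00f (.cons 4 0xf000f00f (.cons 8 0xf00ff00f (.cons 9 0xf000f000f (.cons 5 0xf0000f000f .nil .nil) .nil) .nil) .nil) .nil) .nil)) .nil), [0, 0, 120, 0, 0, 120, 0, 0, 120, 0, 0, 56, 0, 0, 48, 0, 0, 56, 0, 0, 112, 0, 0]⟩,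
  ⟨⟨13, [[14, 16, 8, 7, 6, 20, 17], [13, 17, 18, 1, 0, 15, 16], [14, 0, 12, 19, 16], [13, 14, 15, 19, 10, 9, 8], [13, 20, 21, 18, 14], [14, 17, 21, 2, 1], [16, 15, 12, 11, 10], [13, 6, 5, 4, 22, 21, 17], [20, 22, 2, 18, 17], [20, 4, 3, 2, 21]], [(1, 4), (5, 4), (9, 3), (9, 2), (7, 3), (7, 2), (0, 4), (0, 3), (3, 6), (3, 5), (6, 4), (6, 3), (2, 2)], [(4, 1), (7, 1), (7, 3)]⟩, [(0, 0), (0, 1), (0, 6), (1, 2), (1, 6), (3, 3), (7, 5), (7, 6), (4, 3)], 1, (.cons 3 0xf0 (.cons 0 0xf0f0 (.cons 4 0xff (.cons 7 0xf00ff (.cons 8 0xf00f00f0 (.cons 5 0xf000f00f0 .nil (.cons 9 0xff0000000 .nil .nil)) .nil) .nil) .nil) (.cons 2 0xf0f0 (.cons 6 0xff00 .nil .nil) .nil)) .nil), 1, (.cons 4 0xf0 (.cons 7 0xf00f0 (.cons 0 0xf00f00f0 (.cons 3 0xff (.cons 2 0xf0f0 (.cons 6 0xff00 .nil .nil) .nil) .nil)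 (.cons 5 0xf00f00f0 (.cons 8 0xf0ff0000 (.cons 9 0xff0000000 .nil .nil) .nil) .nil)) .nil) .nil), [0, 0, 120, 0, 0, 120, 0, 0, 60, 0, 0, 120, 0, 0, 112, 0, 0, 56, 0, 0, 48, 0, 0]⟩,
  ⟨⟨13, [[14, 15, 16, 17, 0, 18, 19, 8], [13, 8, 7, 20, 15], [13, 14, 20, 5, 4, 21, 16], [13, 15, 21, 22, 17], [13, 16, 22, 1, 0], [13, 0, 23, 24, 19], [13, 18, 24, 10, 9, 8], [14, 7, 6, 5, 15], [15, 4, 3, 2, 22, 16], [16, 21, 2, 1, 17], [18, 0, 12, 11, 24], [18, 23, 11, 10, 19]], [(4, 4), (9, 3), (8, 3), (8, 2), (2, 4), (7, 3), (7, 2), (1, 2), (6, 5), (6, 4), (11, 3), (10, 3), (10, 2)], [(0, 5)]⟩, [(0, 1), (0, 2), (0, 3), (0, 6), (1, 4), (2, 6), (3, 3), (3, 4), (5, 3), (5, 4)], 0, (.cons 2 0xf (.cons 1 0xf0f (.cons 7 0xff0 .nil .nil) (.cons 3 0xf0f (.cons 8 0xff0f (.cons 9 0xf0000f00f (.cons 4 0xf00000f00f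 .nil .nil) .nil) .nil) .nil)) (.cons 5 0xf (.cons 6 0xf0000f (.cons 11 0xff00000 (.cons 10 0xf00000f00000 .nil .nil) .nil) .nil) .nil)), 4, (.cons 0 0xf0000 (.cons 3 0xf000f (.cons 2 0xff00f (.cons 1 0xf0f (.cons 7 0xff0 .nil .nil) (.cons 8 0xfff00 (.cons 9 0xf000ff000 .nil .nil) .nil)) .nil) (.cons 5 0xf (.cons 11 0xf0000f (.cons 6 0xf00000f0000f .nil (.cons 10 0xf00000f00000 .nil .nil)) .nil) .nil)) .nil), [0, 0, 120, 0, 0, 120, 0, 0, 104, 0, 0, 56, 0, 0, 56, 0, 0, 112, 0, 0]⟩,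
  ⟨⟨13, [[14, 15, 16, 17, 18, 2, 1, 0], [13, 0, 19, 20, 21, 15], [13, 14, 21, 7, 6, 16], [13, 15, 6, 5, 17], [13, 16, 5, 4, 18], [13, 17, 4, 3, 2], [14, 0, 12, 11, 20], [14, 19, 11, 10, 9, 21], [14, 20, 9, 8, 7, 15]], [(0, 7), (0, 6), (5, 4), (5, 3), (4, 3), (3, 3), (2, 4), (8, 4), (8, 3), (7, 4), (7, 3), (6, 3), (6, 2)], [(1, 1), (1, 3), (1, 5)]⟩, [(0, 1), (0, 2), (0, 3), (0, 4), (1, 3), (1, 4), (1, 5)], 0, (.cons 4 0xf (.cons 3 0xf000f (.cons 2 0xf00f (.cons 1 0xf0f (.cons 8 0xff0 (.cons 7 0xf000000f0 (.cons 6 0xf00000f0 .nil .nil) .nil) .nil) .nil) .nil) (.cons 5 0xf000f .nil .nil)) .nil), 0, (.cons 1 0xf (.cons 2 0xff (.cons 3 0xf0f (.cons 4 0xf00f (.cons 5 0xf000f .nil .nil) .nil) (.cons 7 0xff0 (.cons 6 0xf00000f0 .nil (.cons 8 0xf0000ff0 .nil .nil)) .nil)) .nil) .nil), [0,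 0, 116, 0, 0, 120, 0, 0, 120, 0, 0, 112, 0, 0, 56, 0, 0, 60, 0, 112, 0, 0]⟩,
  ⟨⟨13, [[14, 15, 16, 17, 18, 2, 1, 0], [13, 0, 12, 19, 20, 15], [13, 14, 20, 8, 7, 16], [13, 15, 7, 6, 21, 17], [13, 16, 21, 22, 18], [13, 17, 22, 4, 3, 2], [14, 12, 11, 10, 20], [14, 19, 10, 9, 8, 15], [16, 6, 5, 22, 17], [17, 21, 5, 4, 18]], [(0, 7), (0, 6), (5, 5), (5, 4), (9, 3), (8, 2), (3, 3), (2, 4), (7, 4), (7, 3), (6, 3), (6, 2), (1, 2)], [(2, 5)]⟩, [(0, 1), (0, 2), (0, 3), (0, 4), (1, 4), (1, 5), (3, 5), (4, 3), (4, 4)], 0, (.cons 2 0xf (.cons 1 0xf0f (.cons 7 0xff0 (.cons 6 0xf00000f0 .nil .nil) .nil) (.cons 3 0xf0f (.cons 4 0xf00f (.cons 8 0xff00f (.cons 9 0xf000f000f (.cons 5 0xf0000f000f .nil .nil) .nil) .nil) .nil) .nil)) .nil), 0, (.cons 3 0xf (.cons 2 0xf00f (.cons 1 0xf0f (.cons 7 0xff0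 (.cons 6 0xf00000f0 .nil .nil) .nil) .nil) (.cons 4 0xf00f (.cons 8 0xff00f (.cons 9 0xf000f000f (.cons 5 0xf0000f000f .nil .nil) .nil) .nil) .nil)) .nil), [0, 0, 120, 0, 0, 120, 0, 0, 56, 0, 0, 120, 0, 0, 52, 0, 0, 112, 0, 0, 56, 0, 0]⟩,
  ⟨⟨13, [[14, 15, 16, 17, 18, 19, 1, 0], [13, 0, 20, 21, 15], [13, 14, 21, 10, 22, 16], [13, 15, 22, 8, 7, 17], [13, 16, 7, 6, 5, 18], [13, 17, 5, 4, 3, 19], [13, 18, 3, 2, 1], [14, 0, 12, 11, 21], [14, 20, 11, 10, 15], [15, 10, 9, 8, 16]], [(0, 7), (6, 4), (6, 3), (5, 4), (5, 3), (4, 4), (4, 3), (3, 4), (9, 3), (9, 2), (8, 3), (7, 3), (7, 2)], [(0, 1), (0, 3), (2, 3)]⟩, [(0, 1), (0, 2), (0, 3), (0, 4), (0, 5), (1, 3), (1, 4), (2, 5)], 0, (.cons 5 0xf (.cons 4 0xf0000f (.cons 3 0xf000f (.cons 2 0xf00f (.cons 1 0xf0f (.cons 8 0xff0 (.cons 7 0xf000000f0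 .nil .nil) .nil) (.cons 9 0xff00 .nil .nil)) .nil) .nil) (.cons 6 0xf0000f .nil .nil)) .nil), 0, (.cons 2 0xf (.cons 1 0xf0f (.cons 8 0xff0 (.cons 7 0xf000000f0 .nil .nil) .nil) (.cons 4 0xf0f (.cons 3 0xf0f0f (.cons 9 0xff00 .nil .nil) (.cons 5 0xf000f (.cons 6 0xf0000f .nil .nil) .nil)) .nil)) .nil), [0, 0, 120, 0, 0, 48, 0, 0, 120, 0, 0, 112, 0, 0, 56, 0, 0, 112, 0, 0, 124, 0]⟩,
  ⟨⟨13, [[14, 6, 18, 19, 0, 15], [13, 15, 16, 17, 7, 6], [13, 0, 12, 11, 16, 14], [14, 15, 11, 10, 9, 17], [14, 16, 9, 8, 7], [13, 6, 5, 20, 21, 19], [13, 18, 21, 2, 1, 0], [18, 5, 4, 3, 21], [18, 20, 3, 2, 19]], [(6, 5), (6, 4), (8, 3), (7, 3), (7, 2), (5, 2), (1, 5), (4, 4), (4, 3), (3, 4), (3, 3), (2, 3), (2, 2)], [(0, 1), (0, 3), (0, 5)]⟩, [(0, 0), (0, 3), (1, 2), (1, 3), (5, 4), (5, 5)], 0, (.cons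 1 0xf (.cons 2 0xff (.cons 3 0xff0 (.cons 4 0xf0f0 .nil .nil) .nil) .nil) (.cons 5 0xf (.cons 6 0xf0000f (.cons 8 0xff00000 (.cons 7 0xf00f00000 .nil .nil) .nil) .nil) .nil)), 6, (.cons 0 0xf000000 (.cons 2 0xf (.cons 3 0xf0f (.cons 4 0xff0f (.cons 1 0xfff0f .nil .nil) .nil) .nil) (.cons 5 0xf00000f (.cons 8 0xff00000 (.cons 7 0xf00f00000 .nil .nil) .nil) .nil)) .nil), [0, 0, 120, 0, 0, 120, 0, 0, 120, 0, 0, 48, 0, 0, 120, 0, 0, 48, 0, 0, 120, 0, 0]⟩,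
  ⟨⟨13, [[14, 15, 16, 17, 2, 1, 0], [13, 0, 18, 19, 20, 15], [13, 14, 20, 7, 6, 16], [13, 15, 6, 21, 17], [13, 16, 21, 4, 3, 2], [14, 0, 12, 11, 19], [14, 18, 11, 10, 9, 20], [14, 19, 9, 8, 7, 15], [16, 6, 5, 4, 17]], [(0, 6), (0, 5), (4, 5), (4, 4), (8, 3), (8, 2), (2, 4), (7, 4), (7, 3), (6, 4), (6, 3), (5, 3), (5, 2)], [(1, 3), (6, 2), (6, 4)]⟩, [(0, 1), (0, 2), (0, 3), (1, 3), (1, 4), (1, 5), (3, 4)], 1, (.cons 6 0xf0 (.cons 7 0xf0000f0 (.cons 2 0xf00000f0 (.cons 0 0xff0 (.cons 3 0xf0f (.cons 4 0xf00f (.cons 8 0xff000 .nil .nil) .nil) .nil) .nil) .nil) (.cons 5 0xf0000f0 .nil .nil)) .nil), 0, (.cons 1 0xf (.cons 6 0xff (.cons 2 0xf0000ff (.cons 3 0xf0f (.cons 4 0xf00f (.cons 8 0xff000 .nil .nil) .nil) (.cons 7 0xf000ff0 .nil .nil)) (.cons 5 0xf0000f0 .nil .nil)) .nil) .nil),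 [0, 0, 124, 0, 0, 120, 0, 0, 120, 0, 0, 112, 0, 0, 120, 0, 0, 52, 0, 0, 56, 0]⟩,
  ⟨⟨13, [[14, 15, 16, 17, 18, 19, 2, 1, 0], [13, 0, 12, 11, 15], [13, 14, 11, 10, 9, 20, 16], [13, 15, 20, 21, 17], [13, 16, 21, 22, 6, 5, 18], [13, 17, 5, 4, 19], [13, 18, 4, 3, 2], [15, 9, 8, 21, 16], [16, 20, 8, 22, 17], [17, 21, 8, 7, 6]], [(0, 8), (0, 7), (6, 4), (6, 3), (5, 3), (4, 5), (9, 4), (9, 3), (7, 2), (2, 4), (2, 3), (1, 3), (1, 2)], [(7, 1)]⟩, [(0, 1), (0, 2), (0, 3), (0, 4), (0, 5), (2, 6), (3, 3), (3, 4), (4, 3)], 0, (.cons 5 0xf (.cons 4 0xf0000f (.cons 3 0xf000f (.cons 8 0xff00f (.cons 7 0xf0000f00f (.cons 2 0xf000f00f (.cons 1 0xf0f .nil .nil) .nil) (.cons 9 0xf000f0000 .nil .nil)) .nil) .nil) (.cons 6 0xf0000f .nil .nil)) .nil), 0, (.cons 5 0xf (.cons 4 0xf0000f (.cons 3 0xf000f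 (.cons 8 0xff00f (.cons 7 0xf0000f00f (.cons 2 0xf000f00f (.cons 1 0xf0f .nil .nil) .nil) (.cons 9 0xf000f0000 .nil .nil)) .nil) .nil) (.cons 6 0xf0000f .nil .nil)) .nil), [0, 0, 124, 0, 0, 120, 0, 0, 120, 0, 0, 120, 0, 0, 52, 0, 0, 56, 0, 0, 48, 0, 0]⟩,
  ⟨⟨13, [[14, 15, 16, 17, 18, 19, 2, 1, 0], [13, 0, 12, 11, 20, 15], [13, 14, 20, 21, 16], [13, 15, 21, 9, 22, 17], [13, 16, 22, 7, 6, 5, 18], [13, 17, 5, 4, 19], [13, 18, 4, 3, 2], [14, 11, 10, 21, 15], [15, 20, 10, 9, 16], [16, 9, 8, 7, 17]], [(0, 8), (0, 7), (6, 4), (6, 3), (5, 3), (4, 5), (4, 4), (9, 3), (9, 2), (8, 3), (7, 2), (1, 3), (1, 2)], [(0, 0), (1, 3), (3, 2)]⟩, [(0, 1), (0, 2), (0, 3), (0, 4), (0, 5), (1, 5), (2, 3), (2, 4), (3, 5)], 0, (.cons 5 0xf (.cons 4 0xf0000f (.cons 3 0xf000f (.cons 2 0xf00f (.cons 8 0xff0f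 (.cons 7 0xf00000f0f (.cons 1 0xf0000f0f .nil .nil) .nil) .nil) (.cons 9 0xff000 .nil .nil)) .nil) (.cons 6 0xf0000f .nil .nil)) .nil), 0, (.cons 1 0xf (.cons 3 0xff (.cons 8 0xf0ff (.cons 7 0xf0000f0ff (.cons 2 0xff000f0ff .nil .nil) .nil) (.cons 4 0xf00f (.cons 5 0xf000f (.cons 6 0xf0000f .nil .nil) (.cons 9 0xff000 .nil .nil)) .nil)) .nil) .nil), [0, 0, 124, 0, 0, 120, 0, 0, 120, 0, 0, 56, 0, 0, 48, 0, 0, 48, 0, 0, 112, 0, 0, 48, 0]⟩,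
  ⟨⟨13, [[14, 15, 16, 17, 18, 19, 1, 0], [13, 0, 12, 11, 20, 15], [13, 14, 20, 21, 16], [13, 15, 21, 9, 8, 7, 17], [13, 16, 7, 6, 5, 18], [13, 17, 5, 4, 22, 19], [13, 18, 22, 2, 1], [14, 11, 10, 21, 15], [15, 20, 10, 9, 16], [18, 4, 3, 2, 19]], [(0, 7), (6, 4), (9, 3), (9, 2), (5, 3), (4, 4), (4, 3), (3, 5), (3, 4), (8, 3), (7, 2), (1, 3), (1, 2)], [(0, 3), (4, 2), (4, 4)]⟩, [(0, 1), (0, 2), (0, 3), (0, 4), (0, 5), (1, 5), (2, 3), (2, 4), (5, 5)], 0, (.cons 5 0xf (.cons 4 0xf0000f (.cons 3 0xf000f (.cons 2 0xf00f (.cons 8 0xff0f (.cons 7 0xf00000f0f (.cons 1 0xf0000f0f .nil .nil) .nil) .nil) .nil) .nil) (.cons 6 0xf0000f (.cons 9 0xff00000 .nil .nil) .nil)) .nil), 0, (.cons 4 0xf (.cons 1 0xf000f (.cons 2 0xf00ff (.cons 7 0xf0fff (.cons 8 0xf00f0f0f (.cons 3 0xf000f0f0f .nil .nil)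 .nil) .nil) .nil) (.cons 5 0xf000f (.cons 6 0xf0000f (.cons 9 0xff00000 .nil .nil) .nil) .nil)) .nil), [0, 0, 112, 0, 0, 120, 0, 0, 108, 0, 0, 112, 0, 0, 56, 0, 0, 52, 0, 0, 112]⟩,
  ⟨⟨13, [[14, 6, 18, 19, 20, 0, 15], [13, 15, 16, 17, 8, 7, 6], [13, 0, 12, 16, 14], [14, 15, 12, 11, 10, 17], [14, 16, 10, 9, 8], [13, 6, 5, 21, 19], [13, 18, 21, 22, 20], [13, 19, 22, 2, 1, 0], [18, 5, 4, 22, 19], [19, 21, 4, 3, 2, 20]], [(7, 5), (7, 4), (9, 4), (9, 3), (8, 2), (5, 2), (1, 6), (1, 5), (4, 4), (4, 3), (3, 4), (3, 3), (2, 2)], [(1, 2), (3, 2), (3, 4)]⟩, [(0, 0), (0, 3), (0, 4), (1, 2), (1, 3), (5, 4), (6, 3), (6, 4)], 0, (.cons 1 0xf (.cons 2 0xff (.cons 3 0xff0 (.cons 4 0xf0f0 .nil .nil) .nil) .nil) (.cons 5 0xf (.cons 6 0xf0000f (.cons 8 0xff0000f (.cons 9 0xf0f00000f (.cons 7 0xf00f00000f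 .nil .nil) .nil) .nil) .nil) .nil)), 7, (.cons 1 0xf0000000 (.cons 3 0xf00000f0 (.cons 0 0xf000f0f0 (.cons 2 0xf0ff .nil (.cons 6 0xf000000f (.cons 5 0xff00000f (.cons 8 0xfff00000 (.cons 9 0xfff000000 .nil .nil) .nil) .nil) .nil)) (.cons 4 0xf0f0 .nil .nil)) .nil) .nil), [0, 0, 120, 0, 0, 120, 0, 0, 120, 0, 0, 120, 0, 0, 112, 0, 0, 60, 0, 0, 16]⟩,
  ⟨⟨13, [[14, 15, 16, 17, 18, 19, 2, 1, 0], [13, 0, 12, 11, 20, 21, 15], [13, 14, 21, 8, 16], [13, 15, 8, 7, 17], [13, 16, 7, 6, 5, 18], [13, 17, 5, 4, 19], [13, 18, 4, 3, 2], [14, 11, 10, 9, 21], [14, 20, 9, 8, 15]], [(0, 8), (0, 7), (6, 4), (6, 3), (5, 3), (4, 4), (4, 3), (3, 3), (8, 3), (7, 3), (7, 2), (1, 3), (1, 2)], [(0, 3), (4, 2), (4, 4)]⟩, [(0, 1), (0, 2), (0, 3), (0, 4), (0, 5), (1, 5), (1, 6)], 0, (.cons 2 0xf (.cons 1 0xf0f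 (.cons 8 0xff0 (.cons 7 0xf000000f0 .nil .nil) .nil) (.cons 3 0xf0f (.cons 4 0xf00f (.cons 5 0xf000f (.cons 6 0xf0000f .nil .nil) .nil) .nil) .nil)) .nil), 0, (.cons 4 0xf (.cons 2 0xf000f (.cons 1 0xf0f (.cons 8 0xff0 (.cons 7 0xf000000f0 .nil .nil) .nil) (.cons 3 0xf0f0f .nil .nil)) (.cons 5 0xf000f (.cons 6 0xf0000f .nil .nil) .nil)) .nil), [0, 0, 120, 0, 0, 120, 0, 0, 112, 0, 0, 116, 0, 0, 120, 0, 0, 56, 0, 0, 56, 0, 16, 0]⟩,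
  ⟨⟨13, [[14, 15, 16, 17, 18, 2, 1, 0], [13, 0, 12, 11, 19, 15], [13, 14, 19, 20, 8, 16], [13, 15, 8, 7, 6, 21, 17], [13, 16, 21, 22, 18], [13, 17, 22, 3, 2], [14, 11, 10, 20, 15], [15, 19, 10, 9, 8], [16, 6, 5, 4, 22, 17], [17, 21, 4, 3, 18]], [(0, 7), (0, 6), (5, 4), (9, 3), (8, 3), (8, 2), (3, 4), (3, 3), (7, 4), (7, 3), (6, 2), (1, 3), (1, 2)], [(0, 0), (0, 2), (3, 2)]⟩, [(0, 1), (0, 2), (0, 3), (0, 4), (1, 5), (2, 3), (3, 6), (4, 3), (4, 4)], 0, (.cons 2 0xf (.cons 1 0xf0f (.cons 6 0xff0 (.cons 7 0xf000f00 .nil .nil) .nil) (.cons 3 0xf0f (.cons 4 0xf00f (.cons 8 0xff00f (.cons 9 0xf000f000f (.cons 5 0xf0000f000f .nil .nil) .nil) .nil) .nil) .nil)) .nil), 0, (.cons 1 0xf (.cons 3 0xff (.cons 2 0xf0ff (.cons 6 0xff0 (.cons 7 0xf000f00 .nil .nil) .nil) (.cons 4 0xf00f (.cons 5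 0xff00f (.cons 9 0xfff000 (.cons 8 0xf0000ff000 .nil .nil) .nil) .nil) .nil)) .nil) .nil), [0, 0, 120, 0, 0, 120, 0, 0, 124, 0, 0, 60, 0, 0, 112, 0, 0, 48, 0, 0, 120]⟩,
  ⟨⟨13, [[14, 15, 16, 17, 18, 19, 1, 0], [13, 0, 12, 11, 20, 15], [13, 14, 20, 9, 8, 16], [13, 15, 8, 7, 17], [13, 16, 7, 6, 18], [13, 17, 6, 5, 4, 21, 19], [13, 18, 21, 2, 1], [14, 11, 10, 9, 15], [18, 4, 3, 2, 19]], [(0, 7), (6, 4), (8, 3), (8, 2), (5, 4), (5, 3), (4, 3), (3, 3), (2, 4), (7, 3), (7, 2), (1, 3), (1, 2)], [(0, 1), (2, 4)]⟩, [(0, 1), (0, 2), (0, 3), (0, 4), (0, 5), (1, 5), (5, 6)], 0, (.cons 2 0xf (.cons 1 0xf0f (.cons 7 0xff0 .nil .nil) (.cons 3 0xf0f (.cons 4 0xf00f (.cons 5 0xf000f (.cons 6 0xf0000f (.cons 8 0xff00000 .nil .nil) .nil) .nil) .nil) .nil)) .nil), 0, (.cons 2 0xf (.cons 1 0xf0f (.cons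 7 0xff0 .nil .nil) (.cons 4 0xf0f (.cons 3 0xf0f0f .nil (.cons 5 0xf000f (.cons 6 0xf0000f (.cons 8 0xff00000 .nil .nil) .nil) .nil)) .nil)) .nil), [0, 0, 120, 0, 0, 60, 0, 0, 120, 0, 0, 56, 0, 0, 112, 0, 0, 56, 0, 0, 112, 0, 0, 48, 0, 48, 0]⟩,
  ⟨⟨13, [[14, 15, 21, 10, 22, 23, 6, 16], [13, 16, 17, 18, 19, 1, 0, 15], [13, 14, 0, 20, 21], [13, 6, 5, 17, 14], [14, 16, 5, 4, 18], [14, 17, 4, 3, 19], [14, 18, 3, 2, 1], [15, 0, 12, 11, 21], [13, 15, 20, 11, 10], [13, 10, 9, 24, 23], [13, 22, 24, 7, 6], [22, 9, 8, 7, 23]], [(1, 6), (6, 4), (6, 3), (5, 3), (4, 3), (3, 2), (10, 4), (11, 3), (11, 2), (9, 2), (8, 4), (7, 3), (7, 2)], [(2, 2), (2, 4)]⟩, [(0, 0), (0, 1), (0, 2), (0, 5), (1, 2), (1, 3), (1, 4), (2, 4), (9, 4)], 1, (.cons 0 0xf0 (.cons 2 0xff (.cons 8 0xf0f (.cons 7 0xf00000f00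 .nil .nil) .nil) (.cons 3 0xff (.cons 4 0xf0f0 (.cons 5 0xf00f0 (.cons 6 0xf000f0 .nil .nil) .nil) .nil) (.cons 9 0xf (.cons 10 0xf00000000f (.cons 11 0xff000000000 .nil .nil) .nil) .nil))) .nil), 1, (.cons 2 0xf0 (.cons 8 0xff0 (.cons 0 0xf00000ff0 (.cons 3 0xff (.cons 4 0xf0f0 (.cons 5 0xf00f0 (.cons 6 0xf000f0 .nil .nil) .nil) .nil) (.cons 9 0xf (.cons 10 0xf00000000f (.cons 11 0xff000000000 .nil .nil) .nil) .nil)) (.cons 7 0xf00000f00 .nil .nil)) .nil) .nil), [0, 0, 112, 0, 0, 112, 0, 0, 124, 0, 0, 120, 0, 0, 48, 0, 112, 0, 0]⟩,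
  ⟨⟨13, [[14, 15, 16, 17, 18, 2, 1, 0], [13, 0, 12, 11, 19, 15], [13, 14, 19, 9, 8, 20, 16], [13, 15, 20, 21, 17], [13, 16, 21, 6, 5, 22, 18], [13, 17, 22, 3, 2], [14, 11, 10, 9, 15], [15, 8, 7, 21, 16], [16, 20, 7, 6, 17], [17, 5, 4, 3, 18]], [(0, 7), (0, 6), (5, 4), (9, 3), (9, 2), (4, 4), (8, 3), (7, 2), (2, 4), (6, 3), (6, 2), (1, 3), (1, 2)], [(0, 1), (2, 4)]⟩, [(0, 1), (0, 2), (0, 3), (0, 4), (1, 5), (2, 6), (3, 3), (3, 4), (4, 6)], 0, (.cons 2 0xf (.cons 1 0xf0f (.cons 6 0xff0 .nil .nil) (.cons 3 0xf0f (.cons 7 0xff0f (.cons 8 0xf000f00f (.cons 4 0xf0000f00f (.cons 5 0xf000f (.cons 9 0xff0000 .nil .nil) .nil) .nil) .nil) .nil) .nil)) .nil), 0, (.cons 2 0xf (.cons 1 0xf0f (.cons 6 0xff0 .nil .nil) (.cons 4 0xf0f (.cons 3 0xf0f0f (.cons 8 0xfff00 (.cons 7 0xf0000ff00 .nil .nil)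 .nil) (.cons 5 0xf000f (.cons 9 0xff0000 .nil .nil) .nil)) .nil)) .nil), [0, 0, 120, 0, 0, 112, 0, 0, 56, 0, 0, 104, 0, 0, 60, 0, 0, 112, 0, 0, 56, 0, 0, 48, 0]⟩,
  ⟨⟨13, [[14, 15, 16, 17, 0, 18, 19, 8], [13, 8, 7, 20, 15], [13, 14, 20, 5, 4, 3, 16], [13, 15, 3, 21, 17], [13, 16, 21, 1, 0], [13, 0, 12, 11, 22, 19], [13, 18, 22, 23, 8], [14, 7, 6, 5, 15], [16, 3, 2, 1, 17], [18, 11, 10, 23, 19], [19, 22, 10, 9, 8]], [(4, 4), (8, 3), (8, 2), (2, 5), (2, 4), (7, 3), (7, 2), (1, 2), (10, 4), (10, 3), (9, 2), (5, 3), (5, 2)], [(0, 1), (0, 4), (0, 7)]⟩, [(0, 1), (0, 2), (0, 3), (0, 6), (1, 4), (3, 4), (5, 5), (6, 3)], 0, (.cons 2 0xf (.cons 1 0xf0f (.cons 7 0xff0 .nil .nil) (.cons 3 0xf0f (.cons 4 0xf00f (.cons 8 0xff000 .nil .nil) .nil) .nil)) (.cons 5 0xf (.cons 6 0xf0000f (.cons 9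 0xff00000 (.cons 10 0xf00f000000 .nil .nil) .nil) .nil) .nil)), 4, (.cons 0 0xf0000 (.cons 2 0xf000f (.cons 7 0xf0f (.cons 1 0xf0000f0f .nil .nil) (.cons 3 0xf0f0f (.cons 8 0xff000 .nil .nil) .nil)) (.cons 5 0xf (.cons 6 0xf0000f (.cons 9 0xff00000 (.cons 10 0xf00f000000 .nil .nil) .nil) .nil) .nil)) .nil), [0, 0, 120, 0, 0, 120, 0, 0, 52, 0, 0, 112, 0, 48, 0, 0, 48, 0, 0, 96, 0, 0, 48]⟩,
  ⟨⟨13, [[14, 15, 16, 17, 18, 19, 20, 6], [13, 6, 5, 4, 15], [13, 14, 4, 21, 16], [13, 15, 21, 2, 1, 0, 17], [13, 16, 0, 12, 18], [13, 17, 12, 11, 10, 22, 19], [13, 18, 22, 8, 20], [13, 19, 8, 7, 6], [15, 4, 3, 2, 16], [18, 10, 9, 8, 19]], [(3, 5), (3, 4), (8, 3), (8, 2), (1, 3), (1, 2), (7, 4), (7, 3), (9, 3), (9, 2), (5, 4), (5, 3), (4, 3)], [(3, 6), (4, 3)]⟩, [(0, 1), (0, 2), (0, 3), (0, 4),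 (0, 5), (0, 6), (2, 4), (5, 6)], 3, (.cons 2 0xf000 (.cons 0 0xff00 (.cons 1 0xf0f .nil (.cons 4 0xf00f (.cons 5 0xf000f (.cons 6 0xf0000f (.cons 7 0xf00000f .nil (.cons 9 0xff00000 .nil .nil)) .nil) .nil) .nil)) (.cons 8 0xff00 .nil .nil)) .nil), 3, (.cons 4 0xf000 (.cons 2 0xff000 (.cons 0 0xfff00 (.cons 1 0xf0f .nil (.cons 6 0xf000f (.cons 5 0xf0f000f (.cons 9 0xff00000 .nil .nil) (.cons 7 0xf00000f .nil .nil)) .nil)) (.cons 8 0xff00 .nil .nil)) .nil) .nil), [0, 0, 120, 0, 0, 112, 0, 0, 56, 0, 0, 112, 0, 0, 56, 0, 0, 112, 0, 0, 52, 0, 0, 24, 0]⟩,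
  ⟨⟨13, [[14, 15, 16, 6, 17, 18, 19, 0], [13, 0, 12, 11, 20, 21, 15], [13, 14, 21, 8, 16], [13, 15, 8, 7, 6], [13, 6, 5, 22, 18], [13, 17, 22, 23, 19], [13, 18, 23, 2, 1, 0], [14, 11, 10, 9, 21], [14, 20, 9, 8, 15], [17, 5, 4, 23, 18], [18, 22, 4, 3, 2, 19]], [(6, 5), (6, 4), (10, 4), (10, 3), (9, 2), (4, 2), (3, 4), (3, 3), (8, 3), (7, 3), (7, 2), (1, 3), (1, 2)], [(0, 0)]⟩, [(0, 1), (0, 2), (0, 5), (0, 6), (1, 5), (1, 6), (4, 4), (5, 3), (5, 4)], 0, (.cons 2 0xf (.cons 1 0xf0f (.cons 8 0xff0 (.cons 7 0xf000000f0 .nil .nil) .nil) (.cons 3 0xf0f .nil .nil)) (.cons 4 0xf (.cons 5 0xf000f (.cons 9 0xff000f (.cons 10 0xf000f0000f (.cons 6 0xf0000f0000f .nil .nil) .nil) .nil) .nil) .nil)), 6, (.cons 0 0xf000000 (.cons 1 0xf (.cons 8 0xff (.cons 2 0xf000000ff (.cons 3 0xf0f .nil .nil)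 (.cons 7 0xf000000f0 .nil .nil)) .nil) (.cons 5 0xf00000f (.cons 4 0xff0000f (.cons 9 0xfff0000 (.cons 10 0xf00ff00000 .nil .nil) .nil) .nil) .nil)) .nil), [0, 0, 120, 0, 0, 120, 0, 0, 120, 0, 0, 120, 0, 0, 56, 0, 0, 120, 0]⟩,
  ⟨⟨13, [[14, 15, 16, 17, 18, 10, 9, 8], [13, 8, 7, 19, 15], [13, 14, 19, 5, 20, 16], [13, 15, 20, 21, 1, 0, 17], [13, 16, 0, 22, 18], [13, 17, 22, 11, 10], [14, 7, 6, 5, 15], [15, 5, 4, 3, 21, 16], [16, 20, 3, 2, 1], [17, 0, 12, 11, 18]], [(3, 5), (8, 4), (8, 3), (7, 3), (7, 2), (6, 3), (6, 2), (1, 2), (0, 7), (0, 6), (5, 4), (9, 3), (9, 2)], [(0, 2), (0, 5), (0, 7)]⟩, [(0, 1), (0, 2), (0, 3), (0, 4), (1, 4), (2, 5), (3, 3), (4, 4)], 3, (.cons 0 0xf000 (.cons 2 0xf00f (.cons 1 0xf0f (.cons 6 0xff0 .nil .nil) (.cons 7 0xff00 (.cons 8 0xf000f000 .nil .nil)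 .nil)) (.cons 4 0xf00f (.cons 5 0xf000f (.cons 9 0xff0000 .nil .nil) .nil) .nil)) .nil), 3, (.cons 0 0xf000 (.cons 2 0xf00f (.cons 1 0xf0f (.cons 6 0xff0 .nil .nil) (.cons 7 0xff00 (.cons 8 0xf000f000 .nil .nil) .nil)) (.cons 4 0xf00f (.cons 5 0xf000f (.cons 9 0xff0000 .nil .nil) .nil) .nil)) .nil), [0, 0, 120, 0, 0, 124, 0, 0, 112, 0, 0, 120, 0, 0, 48, 0, 0, 96, 0, 0, 48, 0, 0]⟩,
  ⟨⟨13, [[14, 15, 16, 17, 2, 1, 0], [13, 0, 12, 11, 18, 15], [13, 14, 18, 19, 20, 16], [13, 15, 20, 6, 21, 17], [13, 16, 21, 4, 3, 2], [14, 11, 10, 19, 15], [15, 18, 10, 9, 8, 20], [15, 19, 8, 7, 6, 16], [16, 6, 5, 4, 17]], [(0, 6), (0, 5), (4, 5), (4, 4), (8, 3), (8, 2), (7, 4), (7, 3), (6, 4), (6, 3), (5, 2), (1, 3), (1, 2)], [(6, 2), (6, 4)]⟩, [(0, 1), (0, 2), (0, 3), (1, 5), (2, 3), (2, 4), (2, 5),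 (3, 5)], 0, (.cons 3 0xf (.cons 2 0xf00f (.cons 7 0xff0f (.cons 6 0xf0000f0f (.cons 5 0xf000f0f (.cons 1 0xf00f0f .nil .nil) .nil) .nil) .nil) (.cons 4 0xf00f (.cons 8 0xff000 .nil .nil) .nil)) .nil), 0, (.cons 3 0xf (.cons 2 0xf00f (.cons 7 0xff0f (.cons 6 0xf0000f0f (.cons 5 0xf000f0f (.cons 1 0xf00f0f .nil .nil) .nil) .nil) .nil) (.cons 4 0xf00f (.cons 8 0xff000 .nil .nil) .nil)) .nil), [0, 0, 124, 0, 0, 124, 0, 0, 120, 0, 0, 56, 0, 0, 56, 0, 0, 112, 0, 0, 120]⟩,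
  ⟨⟨13, [[14, 15, 16, 17, 8, 7, 6], [13, 6, 18, 19, 20, 15], [13, 14, 20, 1, 0, 16], [13, 15, 0, 12, 21, 17], [13, 16, 21, 10, 9, 8], [14, 6, 5, 4, 19], [14, 18, 4, 3, 20], [14, 19, 3, 2, 1, 15], [16, 12, 11, 10, 17]], [(2, 4), (7, 4), (7, 3), (6, 3), (5, 3), (5, 2), (0, 6), (0, 5), (4, 5), (4, 4), (8, 3), (8, 2), (3, 3)], [(1, 1), (7, 2), (7, 4)]⟩, [(0, 1), (0, 2), (0, 3), (1, 3), (1, 4), (1, 5), (3, 5)], 2, (.cons 0 0xf00 (.cons 1 0xf0f (.cons 7 0xff0 (.cons 6 0xf00000f0 (.cons 5 0xf0000f0 .nil .nil) .nil) .nil) (.cons 3 0xf0f (.cons 4 0xf00f (.cons 8 0xff000 .nil .nil) .nil) .nil)) .nil), 2, (.cons 0 0xf00 (.cons 1 0xf0f (.cons 7 0xff0 (.cons 6 0xf00000f0 (.cons 5 0xf0000f0 .nil .nil) .nil) .nil) (.cons 3 0xf0f (.cons 4 0xf00f (.cons 8 0xff000 .nil .nil) .nil) .nil)) .nil), [0,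 0, 120, 0, 0, 120, 0, 0, 56, 0, 0, 112, 0, 0, 120, 0, 0, 104, 0, 0, 48, 0, 0]⟩,
  ⟨⟨13, [[14, 15, 16, 17, 18, 2, 1, 0], [13, 0, 12, 11, 19, 15], [13, 14, 19, 20, 16], [13, 15, 20, 21, 8, 7, 6, 17], [13, 16, 6, 22, 18], [13, 17, 22, 4, 3, 2], [14, 11, 10, 20, 15], [15, 19, 10, 21, 16], [16, 20, 10, 9, 8], [17, 6, 5, 4, 18]], [(0, 7), (0, 6), (5, 5), (5, 4), (9, 3), (9, 2), (3, 6), (3, 5), (8, 4), (8, 3), (6, 2), (1, 3), (1, 2)], [(0, 2), (3, 4), (3, 6)]⟩, [(0, 1), (0, 2), (0, 3), (0, 4), (1, 5), (2, 3), (2, 4), (3, 3), (4, 4)], 0, (.cons 4 0xf (.cons 3 0xf000f (.cons 2 0xf00f (.cons 7 0xff0f (.cons 6 0xf0000f0f (.cons 1 0xf000f0f .nil .nil) (.cons 8 0xf000f000 .nil .nil)) .nil) .nil) (.cons 5 0xf000f (.cons 9 0xff0000 .nil .nil) .nil)) .nil), 0, (.cons 3 0xf (.cons 7 0xf00f (.cons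 6 0xf000f00f (.cons 2 0xff00f00f (.cons 1 0xf000f0f .nil .nil) .nil) (.cons 8 0xf000f000 .nil .nil)) (.cons 4 0xf00f (.cons 5 0xf000f (.cons 9 0xff0000 .nil .nil) .nil) .nil)) .nil), [0, 0, 120, 0, 0, 120, 0, 0, 56, 0, 0, 48, 0, 0, 112, 0, 0, 120, 0, 0, 120, 0]⟩,
  ⟨⟨13, [[14, 15, 16, 17, 18, 1, 0], [13, 0, 12, 11, 19, 15], [13, 14, 19, 20, 8, 16], [13, 15, 8, 7, 6, 21, 17], [13, 16, 21, 4, 3, 18], [13, 17, 3, 2, 1], [14, 11, 10, 20, 15], [15, 19, 10, 9, 8], [16, 6, 5, 4, 17]], [(0, 6), (5, 4), (5, 3), (4, 4), (8, 3), (8, 2), (3, 4), (3, 3), (7, 4), (7, 3), (6, 2), (1, 3), (1, 2)], [(0, 1), (1, 3), (2, 4)]⟩, [(0, 1), (0, 2), (0, 3), (0, 4), (1, 5), (2, 3), (3, 6)], 0, (.cons 2 0xf (.cons 1 0xf0f (.cons 6 0xff0 (.cons 7 0xf000f00 .nil .nil) .nil) (.cons 3 0xf0f (.cons 4 0xf00f (.cons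 5 0xf000f .nil (.cons 8 0xff000 .nil .nil)) .nil) .nil)) .nil), 0, (.cons 2 0xf (.cons 6 0xf0f (.cons 1 0xf000f0f .nil (.cons 7 0xf000f00 .nil .nil)) (.cons 4 0xf0f (.cons 3 0xf0f0f (.cons 8 0xff000 .nil .nil) (.cons 5 0xf000f .nil .nil)) .nil)) .nil), [0, 0, 124, 0, 0, 112, 0, 0, 120, 0, 0, 120, 0, 0, 120, 0, 0, 48, 0, 0, 56, 0, 0, 48]⟩,
  ⟨⟨13, [[14, 15, 16, 17, 4, 18, 19, 0], [13, 0, 12, 11, 20, 21, 15], [13, 14, 21, 7, 16], [13, 15, 7, 6, 17], [13, 16, 6, 5, 4], [13, 4, 3, 22, 19], [13, 18, 22, 1, 0], [14, 11, 10, 9, 21], [14, 20, 9, 8, 7, 15], [18, 3, 2, 1, 19]], [(6, 4), (9, 3), (9, 2), (5, 2), (4, 4), (4, 3), (3, 3), (8, 4), (8, 3), (7, 3), (7, 2), (1, 3), (1, 2)], [(1, 5), (8, 2), (8, 4)]⟩, [(0, 1), (0, 2), (0, 3), (0, 6), (1, 5), (1, 6), (5, 4)], 0, (.cons 2 0xf (.cons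 1 0xf0f (.cons 8 0xff0 (.cons 7 0xf000000f0 .nil .nil) .nil) (.cons 3 0xf0f (.cons 4 0xf00f .nil .nil) .nil)) (.cons 5 0xf (.cons 6 0xf0000f (.cons 9 0xff00000 .nil .nil) .nil) .nil)), 6, (.cons 1 0xf000000 (.cons 8 0xf0000f0 (.cons 0 0xf0f0000f0 (.cons 2 0xf000000ff (.cons 3 0xf0f (.cons 4 0xf00f .nil .nil) .nil) (.cons 5 0xf00000f (.cons 9 0xff00000 .nil .nil) .nil)) (.cons 7 0xf000000f0 .nil .nil)) .nil) .nil), [0, 0, 120, 0, 0, 112, 0, 0, 124, 0, 0, 120, 0, 0, 120, 0, 0, 48, 0, 0, 24, 0, 0]⟩,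
  ⟨⟨13, [[14, 15, 16, 17, 18, 1, 0], [13, 0, 12, 11, 19, 15], [13, 14, 19, 9, 8, 20, 16], [13, 15, 20, 21, 17], [13, 16, 21, 6, 5, 22, 18], [13, 17, 22, 3, 2, 1], [14, 11, 10, 9, 15], [15, 8, 7, 21, 16], [16, 20, 7, 6, 17], [17, 5, 4, 3, 18]], [(0, 6), (5, 5), (5, 4), (9, 3), (9, 2), (4, 4), (8, 3), (7, 2), (2, 4), (6, 3), (6, 2), (1, 3), (1, 2)], [(0, 1), (2, 2), (2, 4)]⟩, [(0, 1), (0, 2), (0, 3), (0, 4), (1, 5), (2, 6), (3, 3), (3, 4), (4, 6)], 0, (.cons 2 0xf (.cons 1 0xf0f (.cons 6 0xff0 .nil .nil) (.cons 3 0xf0f (.cons 7 0xff0f (.cons 8 0xf000f00f (.cons 4 0xf0000f00f (.cons 5 0xf000f (.cons 9 0xff0000 .nil .nil) .nil) .nil) .nil) .nil) .nil)) .nil), 0, (.cons 2 0xf (.cons 6 0xf0f (.cons 1 0xf000f0f .nil .nil) (.cons 4 0xf0f (.cons 3 0xf0f0f (.cons 8 0xfff00 (.cons 7 0xf0000ff00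 .nil .nil) .nil) (.cons 5 0xf000f (.cons 9 0xff0000 .nil .nil) .nil)) .nil)) .nil), [0, 0, 120, 0, 0, 120, 0, 0, 48, 0, 0, 112, 0, 0, 112, 0, 0, 112, 0, 0, 48, 0, 0]⟩,
  ⟨⟨13, [[14, 15, 16, 17, 18, 19, 20, 2, 1, 0], [13, 0, 12, 21, 15], [13, 14, 21, 10, 16], [13, 15, 10, 22, 17], [13, 16, 22, 8, 18], [13, 17, 8, 7, 6, 23, 19], [13, 18, 23, 4, 20], [13, 19, 4, 3, 2], [14, 12, 11, 10, 15], [16, 10, 9, 8, 17], [18, 6, 5, 4, 19]], [(0, 9), (0, 8), (7, 4), (7, 3), (10, 3), (10, 2), (5, 4), (5, 3), (9, 3), (9, 2), (8, 3), (8, 2), (1, 2)], [(0, 1), (2, 3)]⟩, [(0, 1), (0, 2), (0, 3), (0, 4), (0, 5), (0, 6), (1, 4), (3, 4), (5, 6)], 0, (.cons 3 0xf (.cons 2 0xf00f (.cons 1 0xf0f (.cons 8 0xff0 .nil .nil) .nil) (.cons 4 0xf00f (.cons 5 0xf000f (.cons 6 0xf0000f (.cons 7 0xf00000f .nil (.cons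 10 0xff00000 .nil .nil)) .nil) (.cons 9 0xff000 .nil .nil)) .nil)) .nil), 0, (.cons 2 0xf (.cons 1 0xf0f (.cons 8 0xff0 .nil .nil) (.cons 4 0xf0f (.cons 3 0xf0f0f (.cons 9 0xff000 .nil .nil) (.cons 5 0xf000f (.cons 6 0xf0000f (.cons 7 0xf00000f .nil (.cons 10 0xff00000 .nil .nil)) .nil) .nil)) .nil)) .nil), [0, 0, 120, 0, 0, 56, 0, 0, 112, 0, 0, 56, 0, 0, 120, 0, 0, 56, 0, 0, 104, 0, 0, 48, 0, 0]⟩,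
  ⟨⟨13, [[14, 15, 16, 17, 18, 3, 2, 1], [13, 1, 0, 19, 20, 21, 15], [13, 14, 21, 7, 16], [13, 15, 7, 6, 17], [13, 16, 6, 5, 18], [13, 17, 5, 4, 3], [14, 0, 12, 11, 20], [14, 19, 11, 10, 9, 21], [14, 20, 9, 8, 7, 15]], [(1, 2), (0, 7), (0, 6), (5, 4), (5, 3), (4, 3), (3, 3), (8, 4), (8, 3), (7, 4), (7, 3), (6, 3), (6, 2)], [(5, 2), (5, 4)]⟩, [(0, 1), (0, 2), (0, 3), (0, 4), (1, 4), (1, 5), (1, 6)], 1, (.cons 7 0xf0 (.cons 8 0xf00000f0 (.cons 2 0xf000000f0 (.cons 0 0xff0 (.cons 3 0xf0f (.cons 4 0xf00f (.cons 5 0xf000f .nil .nil) .nil) .nil) .nil) .nil) (.cons 6 0xf00000f0 .nil .nil)) .nil), 1, (.cons 7 0xf0 (.cons 8 0xf00000f0 (.cons 2 0xf000000f0 (.cons 0 0xff0 (.cons 3 0xf0f (.cons 4 0xf00f (.cons 5 0xf000f .nil .nil) .nil) .nil) .nil) .nil) (.cons 6 0xf00000f0 .nil .nil)) .nil),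 [0, 0, 124, 0, 0, 120, 0, 0, 56, 0, 0, 56, 0, 0, 112, 0, 0, 56, 0, 0, 112, 0, 0, 56, 0, 0]⟩,
  ⟨⟨13, [[14, 15, 16, 17, 18, 7, 6, 5], [13, 5, 19, 20, 21, 15], [13, 14, 21, 0, 12, 16], [13, 15, 12, 11, 10, 17], [13, 16, 10, 9, 18], [13, 17, 9, 8, 7], [14, 5, 4, 3, 20], [14, 19, 3, 2, 21], [14, 20, 2, 1, 0, 15]], [(8, 4), (8, 3), (7, 3), (6, 3), (6, 2), (0, 7), (0, 6), (5, 4), (5, 3), (4, 3), (3, 4), (3, 3), (2, 4)], [(0, 1), (0, 7), (2, 2)]⟩, [(0, 1), (0, 2), (0, 3), (0, 4), (1, 3), (1, 4), (1, 5)], 2, (.cons 0 0xf00 (.cons 1 0xf0f (.cons 8 0xff0 (.cons 7 0xf000000f0 (.cons 6 0xf00000f0 .nil .nil) .nil) .nil) (.cons 3 0xf0f (.cons 4 0xf00f (.cons 5 0xf000f .nil .nil) .nil) .nil)) .nil), 8, (.cons 2 0xf00000000 (.cons 0 0xf00000f00 (.cons 1 0xf00000f0f (.cons 7 0xf000000f0 (.cons 6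 0xf00000f0 .nil .nil) .nil) (.cons 5 0xf0f (.cons 4 0xf00f0f (.cons 3 0xf0f0f .nil .nil) .nil) .nil)) .nil) .nil), [0, 0, 124, 0, 0, 124, 0, 0, 120, 0, 0, 120, 0, 0, 56, 0, 0, 120, 0, 0, 48, 0, 0, 32]⟩,
  ⟨⟨13, [[14, 15, 16, 17, 18, 19, 2, 1, 0], [13, 0, 12, 20, 15], [13, 14, 20, 21, 16], [13, 15, 21, 9, 22, 17], [13, 16, 22, 7, 6, 5, 18], [13, 17, 5, 4, 19], [13, 18, 4, 3, 2], [14, 12, 11, 21, 15], [15, 20, 11, 10, 9, 16], [16, 9, 8, 7, 17]], [(0, 8), (0, 7), (6, 4), (6, 3), (5, 3), (4, 5), (4, 4), (9, 3), (9, 2), (8, 4), (8, 3), (7, 2), (1, 2)], [(0, 0), (1, 2)]⟩, [(0, 1), (0, 2), (0, 3), (0, 4), (0, 5), (1, 4), (2, 3), (2, 4), (3, 5)], 0, (.cons 5 0xf (.cons 4 0xf0000f (.cons 3 0xf000f (.cons 2 0xf00f (.cons 8 0xff0f (.cons 7 0xf00000f0f (.cons 1 0xf0000f0f .nil .nil) .nil) .nil)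 (.cons 9 0xff000 .nil .nil)) .nil) (.cons 6 0xf0000f .nil .nil)) .nil), 0, (.cons 1 0xf (.cons 3 0xff (.cons 2 0xf0ff (.cons 8 0xfff0 (.cons 7 0xf00000ff0 .nil .nil) .nil) (.cons 4 0xf00f (.cons 5 0xf000f (.cons 6 0xf0000f .nil .nil) (.cons 9 0xff000 .nil .nil)) .nil)) .nil) .nil), [0, 0, 120, 0, 0, 116, 0, 0, 124, 0, 0, 112, 0, 0, 56, 0, 0, 56, 0, 0, 32, 0, 0, 48, 0, 0]⟩,
  ⟨⟨13, [[14, 15, 16, 17, 18, 19, 1, 0], [13, 0, 12, 20, 15], [13, 14, 20, 10, 9, 8, 21, 16], [13, 15, 21, 6, 17], [13, 16, 6, 5, 18], [13, 17, 5, 4, 3, 19], [13, 18, 3, 2, 1], [14, 12, 11, 10, 15], [15, 8, 7, 6, 16]], [(0, 7), (6, 4), (6, 3), (5, 4), (5, 3), (4, 3), (8, 3), (8, 2), (2, 5), (2, 4), (7, 3), (7, 2), (1, 2)], [(0, 4), (5, 2), (5, 4)]⟩, [(0, 1), (0, 2), (0, 3), (0, 4), (0, 5), (1, 4), (2, 7)], 0,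 (.cons 2 0xf (.cons 1 0xf0f (.cons 7 0xff0 .nil .nil) (.cons 3 0xf0f (.cons 4 0xf00f (.cons 5 0xf000f (.cons 6 0xf0000f .nil .nil) .nil) (.cons 8 0xff00 .nil .nil)) .nil)) .nil), 0, (.cons 5 0xf (.cons 2 0xf0000f (.cons 1 0xf0f (.cons 7 0xff0 .nil .nil) (.cons 3 0xf00f0f (.cons 4 0xf0f00f .nil (.cons 8 0xff00 .nil .nil)) .nil)) (.cons 6 0xf0000f .nil .nil)) .nil), [0, 0, 120, 0, 0, 48, 0, 0, 120, 0, 0, 56, 0, 0, 112, 0, 0, 120, 0, 0, 48, 0, 0, 16, 0, 32, 0, 0, 24, 0]⟩,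
  ⟨⟨13, [[14, 15, 16, 17, 18, 19, 2, 1, 0], [13, 0, 12, 11, 20, 21, 15], [13, 14, 21, 7, 16], [13, 15, 7, 6, 17], [13, 16, 6, 5, 18], [13, 17, 5, 4, 19], [13, 18, 4, 3, 2], [14, 11, 10, 9, 21], [14, 20, 9, 8, 7, 15]], [(0, 8), (0, 7), (6, 4), (6, 3), (5, 3), (4, 3), (3, 3), (8, 4), (8, 3), (7, 3), (7, 2), (1, 3), (1, 2)], [(1, 5), (8, 2), (8, 4)]⟩, [(0, 1), (0, 2), (0, 3), (0, 4), (0, 5), (1, 5), (1, 6)], 0, (.cons 2 0xf (.cons 1 0xf0f (.cons 8 0xff0 (.cons 7 0xf000000f0 .nil .nil) .nil) (.cons 3 0xf0f (.cons 4 0xf00f (.cons 5 0xf000f (.cons 6 0xf0000f .nil .nil) .nil) .nil) .nil)) .nil), 0, (.cons 1 0xf (.cons 8 0xff (.cons 2 0xf000000ff (.cons 3 0xf0f (.cons 4 0xf00f (.cons 5 0xf000f (.cons 6 0xf0000f .nil .nil) .nil) .nil) .nil) (.cons 7 0xf000000f0 .nil .nil)) .nil) .nil), [0,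 0, 124, 0, 0, 120, 0, 0, 120, 0, 0, 120, 0, 0, 120, 0, 0, 56, 0, 0, 88, 0]⟩,
  ⟨⟨13, [[14, 0, 18, 19, 20, 6, 15], [13, 15, 16, 17, 2, 1, 0], [13, 6, 5, 16, 14], [14, 15, 5, 4, 17], [14, 16, 4, 3, 2], [13, 0, 12, 11, 21, 22, 19], [13, 18, 22, 8, 20], [13, 19, 8, 7, 6], [18, 11, 10, 9, 22], [18, 21, 9, 8, 19]], [(1, 6), (1, 5), (4, 4), (4, 3), (3, 3), (2, 2), (7, 4), (7, 3), (9, 3), (8, 3), (8, 2), (5, 3), (5, 2)], [(1, 0)]⟩, [(0, 0), (0, 3), (0, 4), (1, 2), (1, 3), (5, 5), (5, 6)], 0, (.cons 1 0xf (.cons 2 0xff (.cons 3 0xff0 (.cons 4 0xf0f0 .nil .nil) .nil) .nil) (.cons 6 0xf (.cons 5 0xf00000f (.cons 9 0xff00000 (.cons 8 0xf000f00000 .nil .nil) .nil) (.cons 7 0xf00000f .nil .nil)) .nil)), 1, (.cons 0 0xf0 (.cons 3 0xff (.cons 2 0xf0ff .nil (.cons 4 0xf0f0 .nil .nil)) (.cons 6 0xf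 (.cons 9 0xf00000f (.cons 5 0xf00f00000f (.cons 8 0xf000f00000 .nil .nil) .nil) (.cons 7 0xf00000f .nil .nil)) .nil)) .nil), [0, 0, 120, 0, 0, 124, 0, 0, 56, 0, 0, 112, 0, 0, 120, 0, 0, 112, 0, 0, 56, 0, 0]⟩,
  ⟨⟨13, [[14, 15, 16, 17, 18, 2, 1, 0], [13, 0, 12, 11, 19, 20, 15], [13, 14, 20, 8, 7, 21, 16], [13, 15, 21, 22, 17], [13, 16, 22, 5, 4, 18], [13, 17, 4, 3, 2], [14, 11, 10, 9, 20], [14, 19, 9, 8, 15], [15, 7, 6, 22, 16], [16, 21, 6, 5, 17]], [(0, 7), (0, 6), (5, 4), (5, 3), (4, 4), (9, 3), (8, 2), (2, 4), (7, 3), (6, 3), (6, 2), (1, 3), (1, 2)], [(0, 2), (3, 2)]⟩, [(0, 1), (0, 2), (0, 3), (0, 4), (1, 5), (1, 6), (2, 6), (3, 3), (3, 4)], 0, (.cons 2 0xf (.cons 1 0xf0f (.cons 7 0xff0 (.cons 6 0xf00000f0 .nil .nil) .nil) (.cons 3 0xf0f (.cons 8 0xff0f (.cons 9 0xf0000f00f (.cons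 4 0xf00000f00f (.cons 5 0xf000f .nil .nil) .nil) .nil) .nil) .nil)) .nil), 0, (.cons 3 0xf (.cons 8 0xf00f (.cons 1 0xf0000f00f (.cons 2 0xf0000f0ff (.cons 7 0xff0 (.cons 6 0xf00000f0 .nil .nil) .nil) .nil) (.cons 4 0xf0000f00f (.cons 5 0xf000f .nil (.cons 9 0xf000ff000 .nil .nil)) .nil)) .nil) .nil), [0, 0, 112, 0, 0, 124, 0, 0, 112, 0, 0, 48, 0, 0, 112, 0, 0, 112, 0, 0, 56, 0, 0]⟩,
  ⟨⟨13, [[14, 15, 16, 17, 18, 2, 1, 0], [13, 0, 12, 11, 19, 15], [13, 14, 19, 20, 16], [13, 15, 20, 9, 8, 17], [13, 16, 8, 7, 21, 22, 18], [13, 17, 22, 3, 2], [14, 11, 10, 20, 15], [15, 19, 10, 9, 16], [17, 7, 6, 5, 22], [17, 21, 5, 4, 3, 18]], [(0, 7), (0, 6), (5, 4), (9, 4), (9, 3), (8, 3), (8, 2), (4, 3), (3, 4), (7, 3), (6, 2), (1, 3), (1, 2)], [(4, 5), (9, 2), (9, 4)]⟩, [(0, 1), (0, 2), (0, 3),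 (0, 4), (1, 5), (2, 3), (2, 4), (4, 5), (4, 6)], 0, (.cons 4 0xf (.cons 3 0xf000f (.cons 2 0xf00f (.cons 7 0xff0f (.cons 6 0xf0000f0f (.cons 1 0xf000f0f .nil .nil) .nil) .nil) .nil) (.cons 5 0xf000f (.cons 9 0xff0000 (.cons 8 0xf0000f0000 .nil .nil) .nil) .nil)) .nil), 0, (.cons 4 0xf (.cons 3 0xf000f (.cons 2 0xf00f (.cons 7 0xff0f (.cons 6 0xf0000f0f (.cons 1 0xf000f0f .nil .nil) .nil) .nil) .nil) (.cons 9 0xf000f (.cons 5 0xf0000f000f .nil (.cons 8 0xf0000f0000 .nil .nil)) .nil)) .nil), [0, 0, 120, 0, 0, 120, 0, 0, 120, 0, 0, 120, 0, 0, 48, 0, 0, 120, 0, 56, 0, 0]⟩,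
  ⟨⟨13, [[14, 15, 16, 17, 18, 19, 2, 1, 0], [13, 0, 12, 11, 20, 15], [13, 14, 20, 21, 16], [13, 15, 21, 9, 8, 17], [13, 16, 8, 7, 18], [13, 17, 7, 6, 5, 22, 19], [13, 18, 22, 3, 2], [14, 11, 10, 21, 15], [15, 20, 10, 9, 16], [18, 5, 4, 3, 19]], [(0, 8), (0, 7), (6, 4), (9, 3), (9, 2), (5, 4), (5, 3), (4, 3), (3, 4), (8, 3), (7, 2), (1, 3), (1, 2)], [(0, 0), (1, 3), (3, 2)]⟩, [(0, 1), (0, 2), (0, 3), (0, 4), (0, 5), (1, 5), (2, 3), (2, 4), (5, 6)], 0, (.cons 5 0xf (.cons 4 0xf0000f (.cons 3 0xf000f (.cons 2 0xf00f (.cons 8 0xff0f (.cons 7 0xf00000f0f (.cons 1 0xf0000f0f .nil .nil) .nil) .nil) .nil) .nil) (.cons 6 0xf0000f (.cons 9 0xff00000 .nil .nil) .nil)) .nil), 0, (.cons 1 0xf (.cons 3 0xff (.cons 8 0xf0ff (.cons 7 0xf0000f0ff (.cons 2 0xff000f0ff .nil .nil) .nil) (.cons 4 0xf00f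 (.cons 5 0xf000f (.cons 6 0xf0000f (.cons 9 0xff00000 .nil .nil) .nil) .nil) .nil)) .nil) .nil), [0, 0, 120, 0, 0, 120, 0, 0, 120, 0, 0, 60, 0, 0, 112, 0, 0, 112, 0, 56, 0, 48, 0]⟩,
  ⟨⟨13, [[14, 15, 16, 17, 18, 19, 2, 1, 0], [13, 0, 12, 20, 15], [13, 14, 20, 10, 21, 16], [13, 15, 21, 22, 17], [13, 16, 22, 23, 7, 6, 5, 18], [13, 17, 5, 4, 19], [13, 18, 4, 3, 2], [14, 12, 11, 10, 15], [15, 10, 9, 22, 16], [16, 21, 9, 23, 17], [17, 22, 9, 8, 7]], [(0, 8), (0, 7), (6, 4), (6, 3), (5, 3), (4, 6), (4, 5), (10, 4), (10, 3), (8, 2), (7, 3), (7, 2), (1, 2)], [(0, 1), (2, 3)]⟩, [(0, 1), (0, 2), (0, 3), (0, 4), (0, 5), (1, 4), (2, 5), (3, 3), (3, 4), (4, 3)], 0, (.cons 5 0xf (.cons 4 0xf0000f (.cons 3 0xf000f (.cons 9 0xff00f (.cons 8 0xf00000f00f (.cons 2 0xf0000f00f (.cons 1 0xf0f (.cons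 7 0xff0 .nil .nil) .nil) .nil) (.cons 10 0xf0000f0000 .nil .nil)) .nil) .nil) (.cons 6 0xf0000f .nil .nil)) .nil), 0, (.cons 2 0xf (.cons 1 0xf0f (.cons 7 0xff0 .nil .nil) (.cons 5 0xf0f (.cons 4 0xf00f0f (.cons 3 0xf0f0f (.cons 9 0xfff00 (.cons 8 0xf00000ff00 .nil (.cons 10 0xf0000f0000 .nil .nil)) .nil) .nil) (.cons 6 0xf0000f .nil .nil)) .nil)) .nil), [0, 0, 120, 0, 0, 124, 0, 0, 124, 0, 0, 120, 0, 0, 48, 0, 0, 88, 0, 0, 48, 0, 0]⟩,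
  ⟨⟨13, [[14, 15, 16, 17, 18, 1, 0], [13, 0, 12, 11, 19, 20, 15], [13, 14, 20, 8, 7, 16], [13, 15, 7, 21, 17], [13, 16, 21, 5, 4, 3, 18], [13, 17, 3, 2, 1], [14, 11, 10, 9, 20], [14, 19, 9, 8, 15], [16, 7, 6, 5, 17]], [(0, 6), (5, 4), (5, 3), (4, 5), (4, 4), (8, 3), (8, 2), (2, 4), (7, 3), (6, 3), (6, 2), (1, 3), (1, 2)], [(0, 1), (2, 4)]⟩, [(0, 1), (0, 2), (0, 3), (0, 4), (1, 5), (1, 6), (3, 4)], 0, (.cons 2 0xf (.cons 1 0xf0f (.cons 7 0xff0 (.cons 6 0xf00000f0 .nil .nil) .nil) (.cons 3 0xf0f (.cons 4 0xf00f (.cons 5 0xf000f .nil (.cons 8 0xff000 .nil .nil)) .nil) .nil)) .nil), 0, (.cons 2 0xf (.cons 1 0xf0f (.cons 7 0xff0 (.cons 6 0xf00000f0 .nil .nil) .nil) (.cons 4 0xf0f (.cons 3 0xf0f0f (.cons 8 0xff000 .nil .nil) (.cons 5 0xf000f .nil .nil)) .nil)) .nil), [0, 0, 120, 0, 0,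 56, 0, 0, 120, 0, 0, 120, 0, 0, 120, 0, 0, 48, 0, 0, 48, 0, 0, 48, 0, 0, 56, 0]⟩]

noncomputable def jobs23 : List Job := [⟨⟨13, [[14, 15, 16, 17, 18, 1, 0], [13, 0, 12, 11, 15], [13, 14, 11, 10, 9, 19, 16], [13, 15, 19, 7, 20, 17], [13, 16, 20, 5, 4, 3, 18], [13, 17, 3, 2, 1], [15, 9, 8, 7, 16], [16, 7, 6, 5, 17]], [(0, 6), (5, 4), (5, 3), (4, 5), (4, 4), (7, 3), (7, 2), (6, 3), (6, 2), (2, 4), (2, 3), (1, 3), (1, 2)], [(2, 6), (3, 3), (3, 5)]⟩, [(0, 1), (0, 2), (0, 3), (0, 4), (2, 6), (3, 5)], 0, (.cons 2 0xf (.cons 1 0xf0f .nil (.cons 3 0xf0f (.cons 4 0xf00f (.cons 5 0xf000f .nil (.cons 7 0xff000 .nil .nil)) (.cons 6 0xff00 .nil .nil)) .nil)) .nil), 0, (.cons 2 0xf (.cons 1 0xf0f .nil (.cons 3 0xf0f (.cons 4 0xf00f (.cons 5 0xf000f .nil (.cons 7 0xff000 .nil .nil)) (.cons 6 0xff00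 .nil .nil)) .nil)) .nil), [0, 0, 120, 0, 0, 120, 0, 0, 124, 0, 0, 120, 0, 0, 116, 0, 0, 120, 0, 0, 120, 0, 0, 60, 0, 0, 112, 0, 0, 120, 0, 0, 112, 0, 0, 60, 0, 0, 96, 0, 0, 56, 0, 0, 48, 0, 0, 24, 0, 0]⟩,
  ⟨⟨13, [[14, 15, 16, 17, 18, 7, 6, 5], [13, 5, 4, 3, 19, 15], [13, 14, 19, 20, 16], [13, 15, 20, 1, 0, 21, 17], [13, 16, 21, 11, 10, 9, 18], [13, 17, 9, 8, 7], [14, 3, 2, 20, 15], [15, 19, 2, 1, 16], [16, 0, 12, 11, 17]], [(3, 4), (7, 3), (6, 2), (1, 3), (1, 2), (0, 7), (0, 6), (5, 4), (5, 3), (4, 5), (4, 4), (8, 3), (8, 2)], [(0, 3), (0, 5), (0, 7), (4, 5)]⟩, [(0, 1), (0, 2), (0, 3), (0, 4), (1, 5), (2, 3), (2, 4), (3, 6)], 3, (.cons 4 0xf000 (.cons 0 0xff000 (.cons 2 0xf00f (.cons 1 0xff0f (.cons 6 0xfff0 (.cons 7 0xf00ff00 .nil .nil) .nil) .nil) (.cons 5 0xf000f .nil .nil))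 (.cons 8 0xff000 .nil .nil)) .nil), 3, (.cons 0 0xf000 (.cons 2 0xf00f (.cons 1 0xff0f (.cons 6 0xfff0 (.cons 7 0xf00ff00 .nil .nil) .nil) .nil) (.cons 4 0xf00f (.cons 5 0xf000f .nil (.cons 8 0xff000 .nil .nil)) .nil)) .nil), [0, 0, 120, 0, 0, 112, 0, 0, 60, 0, 0, 120, 0, 0, 120, 0, 0, 124, 0, 0, 120, 0, 0, 120, 0, 0, 120, 0, 0, 120, 0, 0, 96, 0, 0, 56, 0, 0, 120, 0, 0, 16, 0, 96]⟩,
  ⟨⟨13, [[14, 8, 7, 18, 19, 15], [13, 15, 16, 17, 10, 9, 8], [13, 19, 2, 1, 0, 16, 14], [14, 15, 0, 12, 17], [14, 16, 12, 11, 10], [13, 7, 6, 5, 20, 19], [13, 18, 20, 3, 2, 15], [18, 5, 4, 3, 19]], [(2, 4), (2, 3), (6, 4), (7, 3), (7, 2), (5, 3), (5, 2), (0, 2), (1, 6), (1, 5), (4, 4), (4, 3), (3, 3)], [(0, 1), (0, 3), (0, 5)]⟩, [(0, 0), (0, 4), (0, 5), (1, 2), (1, 3), (5, 5)], 2, (.cons 0 0xf00 (.cons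 1 0xf0f (.cons 3 0xff0 (.cons 4 0xf0f0 .nil .nil) .nil) (.cons 6 0xf0f (.cons 5 0xf00000f (.cons 7 0xff00000 .nil .nil) .nil) .nil)) .nil), 2, (.cons 0 0xf00 (.cons 1 0xf0f (.cons 3 0xff0 (.cons 4 0xf0f0 .nil .nil) .nil) (.cons 5 0xf0f (.cons 7 0xf00f0f (.cons 6 0xf0f00f0f .nil .nil) .nil) .nil)) .nil), [0, 0, 112, 0, 0, 124, 0, 0, 120, 0, 0, 120, 0, 0, 120, 0, 0, 120, 0, 0, 52, 0, 0, 120, 0, 56, 0, 0, 96, 0, 0, 48, 0, 0, 56, 0, 0, 48, 0, 0, 56, 0, 0, 48, 0, 0, 88, 0, 0, 48, 0, 56, 0, 0, 48, 0, 0]⟩,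
  ⟨⟨13, [[14, 15, 16, 17, 18, 1, 0], [13, 0, 12, 11, 19, 15], [13, 14, 19, 9, 8, 20, 16], [13, 15, 20, 6, 5, 4, 17], [13, 16, 4, 3, 18], [13, 17, 3, 2, 1], [14, 11, 10, 9, 15], [15, 8, 7, 6, 16]], [(0, 6), (5, 4), (5, 3), (4, 3), (3, 5), (3, 4), (7, 3), (7, 2), (2, 4), (6, 3), (6, 2), (1, 3), (1, 2)], [(1, 1), (1, 3), (1, 5)]⟩, [(0, 1), (0, 2), (0, 3), (0, 4), (1, 5), (2, 6)], 0, (.cons 2 0xf (.cons 1 0xf0f (.cons 6 0xff0 .nil .nil) (.cons 3 0xf0f (.cons 4 0xf00f (.cons 5 0xf000f .nil .nil) (.cons 7 0xff00 .nil .nil)) .nil)) .nil), 0, (.cons 1 0xf (.cons 2 0xff (.cons 3 0xf0f (.cons 4 0xf00f (.cons 5 0xf000f .nil .nil) (.cons 7 0xff00 .nil .nil)) (.cons 6 0xff0 .nil .nil)) .nil) .nil), [0, 0, 120, 0, 0, 124, 0, 0, 120, 0, 0, 120, 0, 0, 120, 0, 0, 124, 0, 0, 120, 0, 0, 120, 0, 0,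 56, 0, 0, 120, 0, 0, 56, 0, 0, 112, 0, 0, 60, 0, 80, 0, 0, 56, 0, 0, 56, 0, 0, 16, 0]⟩,
  ⟨⟨13, [[14, 15, 16, 17, 18, 19, 8], [13, 8, 7, 6, 15], [13, 14, 6, 5, 4, 20, 16], [13, 15, 20, 2, 1, 0, 17], [13, 16, 0, 12, 11, 18], [13, 17, 11, 10, 19], [13, 18, 10, 9, 8], [15, 4, 3, 2, 16]], [(3, 5), (3, 4), (7, 3), (7, 2), (2, 4), (2, 3), (1, 3), (1, 2), (6, 4), (6, 3), (5, 3), (4, 4), (4, 3)], [(0, 2), (0, 4), (0, 6)]⟩, [(0, 1), (0, 2), (0, 3), (0, 4), (0, 5), (2, 6)], 3, (.cons 2 0xf000 (.cons 0 0xff00 (.cons 1 0xf0f .nil (.cons 4 0xf00f (.cons 5 0xf000f (.cons 6 0xf0000f .nil .nil) .nil) .nil)) (.cons 7 0xff00 .nil .nil)) .nil), 3, (.cons 0 0xf000 (.cons 2 0xf00f (.cons 1 0xf0f .nil (.cons 7 0xff00 .nil .nil)) (.cons 5 0xf00f (.cons 4 0xf0f00f .nil (.cons 6 0xf0000f .nil .nil)) .nil))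 .nil), [0, 0, 124, 0, 0, 120, 0, 0, 120, 0, 0, 124, 0, 0, 112, 0, 0, 92, 0, 0, 112, 0, 0, 120, 0, 0, 56, 0, 0, 120, 0, 0, 120, 0, 0, 48, 0, 0, 112, 0, 0, 48, 0, 0, 112, 0, 40, 0]⟩,
  ⟨⟨13, [[14, 15, 16, 17, 18, 19, 7], [13, 7, 6, 5, 15], [13, 14, 5, 4, 3, 20, 16], [13, 15, 20, 1, 0, 17], [13, 16, 0, 12, 11, 18], [13, 17, 11, 10, 9, 19], [13, 18, 9, 8, 7], [15, 3, 2, 1, 16]], [(3, 4), (7, 3), (7, 2), (2, 4), (2, 3), (1, 3), (1, 2), (6, 4), (6, 3), (5, 4), (5, 3), (4, 4), (4, 3)], [(1, 2)]⟩, [(0, 1), (0, 2), (0, 3), (0, 4), (0, 5), (2, 6)], 3, (.cons 2 0xf000 (.cons 0 0xff00 (.cons 1 0xf0f .nil (.cons 4 0xf00f (.cons 5 0xf000f (.cons 6 0xf0000f .nil .nil) .nil) .nil)) (.cons 7 0xff00 .nil .nil)) .nil), 3, (.cons 2 0xf000 (.cons 0 0xff00 (.cons 1 0xf0f .nil (.cons 4 0xf00f (.cons 5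 0xf000f (.cons 6 0xf0000f .nil .nil) .nil) .nil)) (.cons 7 0xff00 .nil .nil)) .nil), [0, 0, 120, 0, 0, 120, 0, 0, 124, 0, 0, 120, 0, 0, 124, 0, 0, 112, 0, 0, 120, 0, 0, 56, 0, 0, 112, 0, 0, 120, 0, 0, 56, 0, 0, 60, 0, 0, 112, 0, 0, 48, 0, 0, 112, 0, 0, 56, 0]⟩,
  ⟨⟨13, [[14, 15, 16, 17, 18, 2, 1, 0], [13, 0, 12, 19, 15], [13, 14, 19, 20, 8, 7, 16], [13, 15, 7, 6, 5, 17], [13, 16, 5, 4, 18], [13, 17, 4, 3, 2], [14, 12, 11, 10, 20, 15], [15, 19, 10, 9, 8]], [(0, 7), (0, 6), (5, 4), (5, 3), (4, 3), (3, 4), (3, 3), (2, 5), (7, 4), (7, 3), (6, 3), (6, 2), (1, 2)], [(0, 2), (1, 2), (3, 2), (3, 4)]⟩, [(0, 1), (0, 2), (0, 3), (0, 4), (1, 4), (2, 3)], 0, (.cons 2 0xf (.cons 1 0xf0f (.cons 6 0xff0 (.cons 7 0xf000f00 .nil .nil) .nil) (.cons 3 0xf0f (.cons 4 0xf00f (.cons 5 0xf000f .nil .nil)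 .nil) .nil)) .nil), 0, (.cons 3 0xf (.cons 1 0xf00f (.cons 2 0xf0ff (.cons 6 0xff0 (.cons 7 0xf000f00 .nil .nil) .nil) .nil) (.cons 4 0xf00f (.cons 5 0xf000f .nil .nil) .nil)) .nil), [0, 0, 120, 0, 0, 120, 0, 0, 120, 0, 0, 124, 0, 0, 124, 0, 0, 120, 0, 0, 116, 0, 0, 124, 0, 0, 56, 0, 0, 112, 0, 0, 56, 0, 0, 48, 0, 0, 120, 0, 0, 56, 0, 0, 112, 0, 0, 96]⟩,
  ⟨⟨13, [[14, 15, 16, 17, 18, 8, 7], [13, 7, 6, 5, 19, 20, 15], [13, 14, 20, 2, 1, 0, 16], [13, 15, 0, 12, 11, 17], [13, 16, 11, 21, 18], [13, 17, 21, 9, 8], [14, 5, 4, 3, 20], [14, 19, 3, 2, 15], [17, 11, 10, 9, 18]], [(2, 5), (2, 4), (7, 3), (6, 3), (6, 2), (1, 3), (1, 2), (0, 6), (5, 4), (8, 3), (8, 2), (3, 4), (3, 3)], [(0, 1), (0, 6)]⟩, [(0, 1), (0, 2), (0, 3), (0, 4), (1, 5), (1, 6), (4, 4)], 2, (.cons 1 0xf00 (.cons 0 0xff0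 (.cons 3 0xf0f (.cons 4 0xf00f (.cons 5 0xf000f (.cons 8 0xff0000 .nil .nil) .nil) .nil) .nil) (.cons 7 0xff0 (.cons 6 0xf00000f0 .nil .nil) .nil)) .nil), 2, (.cons 0 0xf00 (.cons 1 0xf0f (.cons 7 0xff0 (.cons 6 0xf00000f0 .nil .nil) .nil) (.cons 4 0xf0f (.cons 3 0xf0f0f .nil (.cons 8 0xf000f (.cons 5 0xf000f000f .nil .nil) .nil)) .nil)) .nil), [0, 0, 120, 0, 0, 60, 0, 0, 120, 0, 0, 116, 0, 0, 120, 0, 0, 120, 0, 0, 120, 0, 0, 120, 0, 0, 52, 0, 0, 56, 0, 0, 112, 0, 0, 56, 0, 0, 112, 0, 0, 48, 0, 0, 48, 0, 0, 16, 0, 32, 0, 48, 0, 0, 16, 0, 0, 32, 0, 0]⟩,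
  ⟨⟨13, [[14, 15, 16, 17, 18, 19, 8], [13, 8, 7, 6, 15], [13, 14, 6, 5, 4, 20, 16], [13, 15, 20, 2, 1, 0, 17], [13, 16, 0, 12, 18], [13, 17, 12, 11, 10, 19], [13, 18, 10, 9, 8], [15, 4, 3, 2, 16]], [(3, 5), (3, 4), (7, 3), (7, 2), (2, 4), (2, 3), (1, 3), (1, 2), (6, 4), (6, 3), (5, 4), (5, 3), (4, 3)], [(0, 3), (4, 3)]⟩, [(0, 1), (0, 2), (0, 3), (0, 4), (0, 5), (2, 6)], 3, (.cons 2 0xf000 (.cons 0 0xff00 (.cons 1 0xf0f .nil (.cons 4 0xf00f (.cons 5 0xf000f (.cons 6 0xf0000f .nil .nil) .nil) .nil)) (.cons 7 0xff00 .nil .nil)) .nil), 3, (.cons 0 0xf000 (.cons 2 0xf00f (.cons 1 0xf0f .nil (.cons 7 0xff00 .nil .nil)) (.cons 4 0xf00f (.cons 5 0xf000f (.cons 6 0xf0000f .nil .nil) .nil) .nil)) .nil), [0, 0, 112, 0, 0, 56, 0, 0, 120, 0, 0, 124, 0, 0, 124, 0, 0, 120, 0, 0, 124, 0, 0, 120,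 0, 0, 120, 0, 0, 120, 0, 0, 56, 0, 0, 56, 0, 0, 120, 0, 0, 56, 0, 0, 112, 0, 0, 48, 0, 0, 56, 0, 0]⟩,
  ⟨⟨13, [[14, 15, 16, 17, 18, 2, 1, 0], [13, 0, 19, 20, 15], [13, 14, 20, 9, 8, 7, 16], [13, 15, 7, 6, 17], [13, 16, 6, 5, 4, 18], [13, 17, 4, 3, 2], [14, 0, 12, 11, 20], [14, 19, 11, 10, 9, 15]], [(0, 7), (0, 6), (5, 4), (5, 3), (4, 4), (4, 3), (3, 3), (2, 5), (2, 4), (7, 4), (7, 3), (6, 3), (6, 2)], [(0, 1), (2, 3), (2, 5)]⟩, [(0, 1), (0, 2), (0, 3), (0, 4), (1, 3), (1, 4)], 0, (.cons 2 0xf (.cons 1 0xf0f (.cons 7 0xff0 (.cons 6 0xf00000f0 .nil .nil) .nil) (.cons 3 0xf0f (.cons 4 0xf00f (.cons 5 0xf000f .nil .nil) .nil) .nil)) .nil), 0, (.cons 2 0xf (.cons 1 0xf0f (.cons 7 0xff0 (.cons 6 0xf00000f0 .nil .nil) .nil) (.cons 4 0xf0f (.cons 3 0xf0f0f .nil (.cons 5 0xf000f .nil .nil))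 .nil)) .nil), [0, 0, 120, 0, 0, 124, 0, 0, 120, 0, 0, 120, 0, 0, 120, 0, 0, 52, 0, 0, 120, 0, 0, 120, 0, 0, 112, 0, 0, 120, 0, 0, 116, 0, 0, 56, 0, 0, 96, 0, 0, 56, 0, 0, 112, 0, 0, 24, 0, 0, 32, 0, 0]⟩,
  ⟨⟨13, [[14, 15, 16, 17, 18, 1, 0], [13, 0, 12, 19, 20, 15], [13, 14, 20, 8, 7, 6, 16], [13, 15, 6, 5, 17], [13, 16, 5, 4, 3, 18], [13, 17, 3, 2, 1], [14, 12, 11, 10, 20], [14, 19, 10, 9, 8, 15]], [(0, 6), (5, 4), (5, 3), (4, 4), (4, 3), (3, 3), (2, 5), (2, 4), (7, 4), (7, 3), (6, 3), (6, 2), (1, 2)], [(0, 2), (1, 1), (1, 5)]⟩, [(0, 1), (0, 2), (0, 3), (0, 4), (1, 4), (1, 5)], 0, (.cons 2 0xf (.cons 1 0xf0f (.cons 7 0xff0 (.cons 6 0xf00000f0 .nil .nil) .nil) (.cons 3 0xf0f (.cons 4 0xf00f (.cons 5 0xf000f .nil .nil) .nil) .nil)) .nil), 0, (.cons 3 0xf (.cons 1 0xf00f (.cons 2 0xf0ff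 (.cons 6 0xff0 (.cons 7 0xf000ff0 .nil .nil) .nil) .nil) (.cons 4 0xf00f (.cons 5 0xf000f .nil .nil) .nil)) .nil), [0, 0, 120, 0, 0, 124, 0, 0, 124, 0, 0, 120, 0, 0, 112, 0, 0, 120, 0, 0, 116, 0, 0, 120, 0, 0, 56, 0, 0, 120, 0, 0, 116, 0, 0, 120, 0, 0, 56, 0, 0, 48, 0, 0, 48, 0, 0, 80, 0, 0, 8, 0, 32, 0]⟩,
  ⟨⟨13, [[14, 15, 16, 17, 18, 2, 1, 0], [13, 0, 12, 11, 19, 15], [13, 14, 19, 9, 16], [13, 15, 9, 8, 7, 20, 17], [13, 16, 20, 5, 4, 18], [13, 17, 4, 3, 2], [14, 11, 10, 9, 15], [16, 7, 6, 5, 17]], [(0, 7), (0, 6), (5, 4), (5, 3), (4, 4), (7, 3), (7, 2), (3, 4), (3, 3), (6, 3), (6, 2), (1, 3), (1, 2)], [(1, 1), (1, 3), (1, 5)]⟩, [(0, 1), (0, 2), (0, 3), (0, 4), (1, 5), (3, 6)], 0, (.cons 2 0xf (.cons 1 0xf0f (.cons 6 0xff0 .nil .nil) (.cons 3 0xf0f (.cons 4 0xf00f (.cons 5 0xf000f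 .nil (.cons 7 0xff000 .nil .nil)) .nil) .nil)) .nil), 0, (.cons 1 0xf (.cons 2 0xff (.cons 3 0xf0f (.cons 4 0xf00f (.cons 5 0xf000f .nil (.cons 7 0xff000 .nil .nil)) .nil) (.cons 6 0xff0 .nil .nil)) .nil) .nil), [0, 0, 120, 0, 0, 120, 0, 0, 124, 0, 0, 120, 0, 0, 120, 0, 0, 124, 0, 0, 120, 0, 0, 120, 0, 0, 124, 0, 0, 124, 0, 0, 120, 0, 0, 120, 0, 0, 48, 0, 0, 80, 0, 48, 0, 0, 56, 0, 0]⟩,
  ⟨⟨13, [[14, 15, 16, 17, 18, 1, 0], [13, 0, 12, 11, 19, 15], [13, 14, 19, 9, 8, 7, 16], [13, 15, 7, 6, 17], [13, 16, 6, 5, 4, 20, 18], [13, 17, 20, 2, 1], [14, 11, 10, 9, 15], [17, 4, 3, 2, 18]], [(0, 6), (5, 4), (7, 3), (7, 2), (4, 4), (4, 3), (3, 3), (2, 5), (2, 4), (6, 3), (6, 2), (1, 3), (1, 2)], [(0, 3), (4, 2), (4, 4)]⟩, [(0, 1), (0, 2), (0, 3), (0, 4), (1, 5), (4, 6)], 0, (.cons 2 0xf (.cons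 1 0xf0f (.cons 6 0xff0 .nil .nil) (.cons 3 0xf0f (.cons 4 0xf00f (.cons 5 0xf000f (.cons 7 0xff0000 .nil .nil) .nil) .nil) .nil)) .nil), 0, (.cons 4 0xf (.cons 2 0xf000f (.cons 1 0xf0f (.cons 6 0xff0 .nil .nil) (.cons 3 0xf0f0f .nil .nil)) (.cons 5 0xf000f (.cons 7 0xff0000 .nil .nil) .nil)) .nil), [0, 0, 120, 0, 0, 120, 0, 0, 120, 0, 0, 120, 0, 0, 124, 0, 0, 124, 0, 0, 120, 0, 0, 124, 0, 0, 120, 0, 0, 124, 0, 0, 120, 0, 0, 48, 0, 0, 112, 0, 0, 56, 0, 0, 104, 0, 0, 48, 0, 0]⟩,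
  ⟨⟨13, [[14, 15, 16, 17, 18, 19, 2, 1, 0], [13, 0, 12, 20, 15], [13, 14, 20, 10, 9, 8, 16], [13, 15, 8, 7, 17], [13, 16, 7, 6, 18], [13, 17, 6, 5, 4, 19], [13, 18, 4, 3, 2], [14, 12, 11, 10, 15]], [(0, 8), (0, 7), (6, 4), (6, 3), (5, 4), (5, 3), (4, 3), (3, 3), (2, 5), (2, 4), (7, 3), (7, 2), (1, 2)], [(0, 4), (5, 2), (5, 4)]⟩, [(0, 1), (0, 2), (0, 3), (0, 4), (0, 5), (1, 4)], 0, (.cons 2 0xf (.cons 1 0xf0f (.cons 7 0xff0 .nil .nil) (.cons 3 0xf0f (.cons 4 0xf00f (.cons 5 0xf000f (.cons 6 0xf0000f .nil .nil) .nil) .nil) .nil)) .nil), 0, (.cons 5 0xf (.cons 2 0xf0000f (.cons 1 0xf0f (.cons 7 0xff0 .nil .nil) (.cons 3 0xf00f0f (.cons 4 0xf0f00f .nil .nil) .nil)) (.cons 6 0xf0000f .nil .nil)) .nil), [0, 0, 120, 0, 0, 124, 0, 0, 124, 0, 0, 120, 0, 0, 120, 0, 0, 120, 0, 0, 60, 0, 0,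 120, 0, 0, 56, 0, 0, 120, 0, 0, 120, 0, 0, 120, 0, 0, 88, 0, 0, 48, 0, 0, 88, 0, 40, 0, 0, 48, 0, 0, 72]⟩,
  ⟨⟨13, [[14, 15, 16, 17, 18, 8, 7, 6], [13, 6, 5, 4, 19, 15], [13, 14, 19, 2, 1, 0, 16], [13, 15, 0, 20, 17], [13, 16, 20, 11, 10, 18], [13, 17, 10, 9, 8], [14, 4, 3, 2, 15], [16, 0, 12, 11, 17]], [(2, 5), (2, 4), (6, 3), (6, 2), (1, 3), (1, 2), (0, 7), (0, 6), (5, 4), (5, 3), (4, 4), (7, 3), (7, 2)], [(0, 1), (0, 5), (0, 7)]⟩, [(0, 1), (0, 2), (0, 3), (0, 4), (1, 5), (3, 4)], 3, (.cons 4 0xf000 (.cons 0 0xff000 (.cons 2 0xf00f (.cons 1 0xf0f (.cons 6 0xff0 .nil .nil) .nil) (.cons 5 0xf000f .nil .nil)) (.cons 7 0xff000 .nil .nil)) .nil), 2, (.cons 0 0xf00 (.cons 1 0xf0f (.cons 6 0xff0 .nil .nil) (.cons 4 0xf0f (.cons 3 0xf0f0f (.cons 7 0xff000 .nil .nil) (.cons 5 0xf000f .nil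 .nil)) .nil)) .nil), [0, 0, 124, 0, 0, 112, 0, 0, 124, 0, 0, 120, 0, 0, 120, 0, 0, 120, 0, 0, 120, 0, 0, 120, 0, 0, 120, 0, 0, 120, 0, 0, 124, 0, 0, 56, 0, 0, 56, 0, 0, 112, 0, 0, 56, 0, 0, 48, 0, 0, 16, 0, 0, 48, 0]⟩,
  ⟨⟨13, [[14, 15, 16, 17, 18, 2, 1, 0], [13, 0, 12, 19, 15], [13, 14, 19, 20, 9, 8, 16], [13, 15, 8, 7, 6, 17], [13, 16, 6, 5, 4, 18], [13, 17, 4, 3, 2], [14, 12, 11, 20, 15], [15, 19, 11, 10, 9]], [(0, 7), (0, 6), (5, 4), (5, 3), (4, 4), (4, 3), (3, 4), (3, 3), (2, 5), (7, 4), (7, 3), (6, 2), (1, 2)], [(0, 2), (3, 2), (3, 4)]⟩, [(0, 1), (0, 2), (0, 3), (0, 4), (1, 4), (2, 3)], 0, (.cons 2 0xf (.cons 1 0xf0f (.cons 6 0xff0 (.cons 7 0xf000f00 .nil .nil) .nil) (.cons 3 0xf0f (.cons 4 0xf00f (.cons 5 0xf000f .nil .nil) .nil) .nil)) .nil), 0, (.cons 3 0xf (.cons 1 0xf00f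 (.cons 2 0xf0ff (.cons 6 0xff0 (.cons 7 0xf000f00 .nil .nil) .nil) .nil) (.cons 4 0xf00f (.cons 5 0xf000f .nil .nil) .nil)) .nil), [0, 0, 120, 0, 0, 124, 0, 0, 112, 0, 0, 124, 0, 0, 120, 0, 0, 124, 0, 0, 124, 0, 0, 120, 0, 0, 120, 0, 0, 124, 0, 0, 120, 0, 0, 56, 0, 0, 112, 0, 0, 56, 0, 0, 112, 0, 104, 0]⟩,
  ⟨⟨13, [[14, 15, 16, 17, 18, 19, 20, 2, 1, 0], [13, 0, 12, 11, 15], [13, 14, 11, 10, 9, 16], [13, 15, 9, 8, 7, 17], [13, 16, 7, 6, 18], [13, 17, 6, 5, 19], [13, 18, 5, 4, 20], [13, 19, 4, 3, 2]], [(0, 9), (0, 8), (7, 4), (7, 3), (6, 3), (5, 3), (4, 3), (3, 4), (3, 3), (2, 4), (2, 3), (1, 3), (1, 2)], [(0, 2), (3, 2), (3, 4)]⟩, [(0, 1), (0, 2), (0, 3), (0, 4), (0, 5), (0, 6)], 0, (.cons 2 0xf (.cons 1 0xf0f .nil (.cons 3 0xf0f (.cons 4 0xf00f (.cons 5 0xf000f (.cons 6 0xf0000f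 (.cons 7 0xf00000f .nil .nil) .nil) .nil) .nil) .nil)) .nil), 0, (.cons 3 0xf (.cons 1 0xf00f (.cons 2 0xf0ff .nil .nil) (.cons 5 0xf00f (.cons 4 0xf0f00f .nil (.cons 6 0xf0000f (.cons 7 0xf00000f .nil .nil) .nil)) .nil)) .nil), [0, 0, 120, 0, 0, 124, 0, 0, 112, 0, 0, 56, 0, 0, 120, 0, 0, 56, 0, 0, 120, 0, 0, 112, 0, 0, 120, 0, 0, 120, 0, 0, 56, 0, 0, 120, 0, 0, 88, 0, 0, 52, 0, 0, 112, 0, 0, 56, 0, 0, 56, 0, 0, 112, 0, 0, 24, 0]⟩,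
  ⟨⟨13, [[14, 15, 16, 17, 18, 19, 2, 1, 0], [13, 0, 12, 11, 15], [13, 14, 11, 10, 20, 16], [13, 15, 20, 8, 7, 6, 17], [13, 16, 6, 5, 18], [13, 17, 5, 4, 19], [13, 18, 4, 3, 2], [15, 10, 9, 8, 16]], [(0, 8), (0, 7), (6, 4), (6, 3), (5, 3), (4, 3), (3, 5), (3, 4), (7, 3), (7, 2), (2, 3), (1, 3), (1, 2)], [(4, 4), (6, 2), (6, 4)]⟩, [(0, 1), (0, 2), (0, 3), (0, 4), (0, 5), (2, 5)], 0, (.cons 2 0xf (.cons 1 0xf0f .nil (.cons 3 0xf0f (.cons 4 0xf00f (.cons 5 0xf000f (.cons 6 0xf0000f .nil .nil) .nil) (.cons 7 0xff00 .nil .nil)) .nil)) .nil), 0, (.cons 2 0xf (.cons 1 0xf0f .nil (.cons 3 0xf0f (.cons 4 0xf00f (.cons 5 0xf000f (.cons 6 0xf0000f .nil .nil) .nil) (.cons 7 0xff00 .nil .nil)) .nil)) .nil), [0, 0, 120, 0, 0, 56, 0, 0, 124, 0, 0, 120, 0, 0, 120, 0, 0, 104, 0, 0, 56, 0, 0, 120,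 0, 0, 120, 0, 0, 120, 0, 0, 56, 0, 0, 112, 0, 0, 60, 0, 0, 120, 0, 0, 48, 0, 0, 112, 0, 0, 48, 0, 0, 112, 0, 0]⟩,
  ⟨⟨13, [[14, 15, 16, 17, 18, 19, 1, 0], [13, 0, 12, 11, 15], [13, 14, 11, 10, 9, 20, 16], [13, 15, 20, 7, 6, 17], [13, 16, 6, 5, 4, 18], [13, 17, 4, 3, 19], [13, 18, 3, 2, 1], [15, 9, 8, 7, 16]], [(0, 7), (6, 4), (6, 3), (5, 3), (4, 4), (4, 3), (3, 4), (7, 3), (7, 2), (2, 4), (2, 3), (1, 3), (1, 2)], [(2, 2), (2, 4), (2, 6), (3, 4)]⟩, [(0, 1), (0, 2), (0, 3), (0, 4), (0, 5), (2, 6)], 0, (.cons 2 0xf (.cons 1 0xf0f .nil (.cons 3 0xf0f (.cons 4 0xf00f (.cons 5 0xf000f (.cons 6 0xf0000f .nil .nil) .nil) (.cons 7 0xff00 .nil .nil)) .nil)) .nil), 0, (.cons 2 0xf (.cons 1 0xf0f .nil (.cons 3 0xf0f (.cons 4 0xf00f (.cons 5 0xf000f (.cons 6 0xf0000f .nil .nil) .nil) (.cons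 7 0xff00 .nil .nil)) .nil)) .nil), [0, 0, 120, 0, 0, 120, 0, 0, 124, 0, 0, 120, 0, 0, 124, 0, 0, 120, 0, 0, 48, 0, 0, 120, 0, 0, 120, 0, 0, 112, 0, 0, 56, 0, 0, 120, 0, 0, 112, 0, 0, 56, 0, 0, 96, 0, 0, 24, 0, 0, 48, 0, 0, 48, 0, 48, 0, 0, 48]⟩,
  ⟨⟨13, [[14, 15, 16, 17, 18, 1, 0], [13, 0, 12, 19, 15], [13, 14, 19, 10, 9, 8, 16], [13, 15, 8, 7, 6, 17], [13, 16, 6, 5, 4, 20, 18], [13, 17, 20, 2, 1], [14, 12, 11, 10, 15], [17, 4, 3, 2, 18]], [(0, 6), (5, 4), (7, 3), (7, 2), (4, 4), (4, 3), (3, 4), (3, 3), (2, 5), (2, 4), (6, 3), (6, 2), (1, 2)], [(0, 1), (2, 3), (4, 5)]⟩, [(0, 1), (0, 2), (0, 3), (0, 4), (1, 4), (4, 6)], 0, (.cons 2 0xf (.cons 1 0xf0f (.cons 6 0xff0 .nil .nil) (.cons 3 0xf0f (.cons 4 0xf00f (.cons 5 0xf000f (.cons 7 0xff0000 .nil .nil) .nil) .nil) .nil)) .nil), 0,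 (.cons 2 0xf (.cons 1 0xf0f (.cons 6 0xff0 .nil .nil) (.cons 4 0xf0f (.cons 3 0xf0f0f .nil (.cons 7 0xf000f (.cons 5 0xf00f000f .nil .nil) .nil)) .nil)) .nil), [0, 0, 124, 0, 0, 120, 0, 0, 120, 0, 0, 48, 0, 0, 120, 0, 0, 120, 0, 0, 120, 0, 0, 124, 0, 0, 120, 0, 0, 120, 0, 0, 112, 0, 0, 112, 0, 0, 56, 0, 0, 112, 0, 0, 48, 0, 0, 48, 0, 0, 48, 0, 0, 112, 0, 0]⟩,
  ⟨⟨13, [[14, 15, 16, 17, 2, 1, 0], [13, 0, 12, 11, 18, 19, 15], [13, 14, 19, 8, 7, 16], [13, 15, 7, 6, 5, 20, 17], [13, 16, 20, 3, 2], [14, 11, 10, 9, 19], [14, 18, 9, 8, 15], [16, 5, 4, 3, 17]], [(0, 6), (0, 5), (4, 4), (7, 3), (7, 2), (3, 4), (3, 3), (2, 4), (6, 3), (5, 3), (5, 2), (1, 3), (1, 2)], [(0, 1), (2, 2), (2, 4)]⟩, [(0, 1), (0, 2), (0, 3), (1, 5), (1, 6), (3, 6)], 0, (.cons 2 0xf (.cons 1 0xf0f (.cons 6 0xff0 (.cons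 5 0xf0000f0 .nil .nil) .nil) (.cons 3 0xf0f (.cons 4 0xf00f (.cons 7 0xff000 .nil .nil) .nil) .nil)) .nil), 0, (.cons 2 0xf (.cons 6 0xf0f (.cons 5 0xf000f0f (.cons 1 0xff00f0f .nil .nil) .nil) (.cons 3 0xf0f (.cons 4 0xf00f (.cons 7 0xff000 .nil .nil) .nil) .nil)) .nil), [0, 0, 120, 0, 0, 120, 0, 0, 124, 0, 0, 120, 0, 0, 56, 0, 0, 120, 0, 0, 60, 0, 0, 120, 0, 0, 56, 0, 0, 120, 0, 0, 120, 0, 0, 48, 0, 0, 48, 0, 0, 48, 0, 0, 112, 0, 0, 56, 0, 0, 48, 0, 0, 16, 0, 0, 48, 0, 48, 0, 0, 48, 0, 48, 0, 16, 0, 32, 0, 0]⟩,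
  ⟨⟨13, [[14, 15, 16, 17, 18, 19, 6, 5, 4], [13, 4, 3, 2, 15], [13, 14, 2, 1, 0, 20, 16], [13, 15, 20, 11, 10, 17], [13, 16, 10, 9, 18], [13, 17, 9, 8, 19], [13, 18, 8, 7, 6], [15, 0, 12, 11, 16]], [(2, 4), (2, 3), (1, 3), (1, 2), (0, 8), (0, 7), (6, 4), (6, 3), (5, 3), (4, 3), (3, 4), (7, 3), (7, 2)], [(0, 1), (0, 6), (0, 8), (2, 2)]⟩, [(0, 1), (0, 2), (0, 3), (0, 4), (0, 5), (2, 6)], 2, (.cons 0 0xf00 (.cons 1 0xf0f .nil (.cons 3 0xf0f (.cons 4 0xf00f (.cons 5 0xf000f (.cons 6 0xf0000f .nil .nil) .nil) (.cons 7 0xff00 .nil .nil)) .nil)) .nil), 2, (.cons 0 0xf00 (.cons 1 0xf0f .nil (.cons 3 0xf0f (.cons 4 0xf00f (.cons 5 0xf000f (.cons 6 0xf0000f .nil .nil) .nil) (.cons 7 0xff00 .nil .nil)) .nil)) .nil), [0, 0, 120, 0, 0, 124, 0, 0, 124, 0, 0, 124, 0, 0, 120, 0, 0, 120, 0, 0, 120,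 0, 0, 120, 0, 0, 120, 0, 0, 56, 0, 0, 120, 0, 0, 56, 0, 0, 120, 0, 0, 52, 0, 0, 112, 0, 0, 48, 0, 0, 16, 0, 0, 32, 0, 0, 24, 0, 64]⟩,
  ⟨⟨13, [[14, 15, 16, 17, 18, 19, 20, 2, 1, 0], [13, 0, 12, 11, 15], [13, 14, 11, 10, 9, 16], [13, 15, 9, 8, 17], [13, 16, 8, 7, 6, 18], [13, 17, 6, 5, 19], [13, 18, 5, 4, 20], [13, 19, 4, 3, 2]], [(0, 9), (0, 8), (7, 4), (7, 3), (6, 3), (5, 3), (4, 4), (4, 3), (3, 3), (2, 4), (2, 3), (1, 3), (1, 2)], [(0, 1), (2, 2), (2, 4)]⟩, [(0, 1), (0, 2), (0, 3), (0, 4), (0, 5), (0, 6)], 0, (.cons 2 0xf (.cons 1 0xf0f .nil (.cons 3 0xf0f (.cons 4 0xf00f (.cons 5 0xf000f (.cons 6 0xf0000f (.cons 7 0xf00000f .nil .nil) .nil) .nil) .nil) .nil)) .nil), 0, (.cons 2 0xf (.cons 1 0xf0f .nil (.cons 4 0xf0f (.cons 3 0xf0f0f .nil (.cons 5 0xf000f (.cons 6 0xf0000f (.cons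 7 0xf00000f .nil .nil) .nil) .nil)) .nil)) .nil), [0, 0, 120, 0, 0, 120, 0, 0, 120, 0, 0, 120, 0, 0, 120, 0, 0, 56, 0, 0, 112, 0, 0, 120, 0, 0, 120, 0, 0, 48, 0, 0, 120, 0, 0, 120, 0, 0, 56, 0, 0, 100, 0, 0, 56, 0, 48, 0, 0, 80, 0, 0, 40, 0, 0, 64, 0, 0, 24, 0, 0]⟩,
  ⟨⟨13, [[14, 15, 16, 17, 18, 7, 6, 5], [13, 5, 4, 3, 19, 15], [13, 14, 19, 1, 16], [13, 15, 1, 0, 20, 17], [13, 16, 20, 11, 10, 9, 18], [13, 17, 9, 8, 7], [14, 3, 2, 1, 15], [16, 0, 12, 11, 17]], [(3, 3), (6, 3), (6, 2), (1, 3), (1, 2), (0, 7), (0, 6), (5, 4), (5, 3), (4, 5), (4, 4), (7, 3), (7, 2)], [(0, 3), (0, 5), (0, 7), (4, 5)]⟩, [(0, 1), (0, 2), (0, 3), (0, 4), (1, 5), (3, 5)], 3, (.cons 4 0xf000 (.cons 0 0xff000 (.cons 2 0xf00f (.cons 1 0xf0f (.cons 6 0xff0 .nil .nil) .nil) (.cons 5 0xf000f .nil .nil)) (.cons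 7 0xff000 .nil .nil)) .nil), 3, (.cons 0 0xf000 (.cons 2 0xf00f (.cons 1 0xf0f (.cons 6 0xff0 .nil .nil) .nil) (.cons 4 0xf00f (.cons 5 0xf000f .nil (.cons 7 0xff000 .nil .nil)) .nil)) .nil), [0, 0, 120, 0, 0, 120, 0, 0, 120, 0, 0, 124, 0, 0, 124, 0, 0, 124, 0, 0, 120, 0, 0, 120, 0, 0, 120, 0, 0, 124, 0, 0, 112, 0, 0, 48, 0, 0, 56, 0, 0, 120, 0, 0, 56, 0, 0, 112, 0, 0, 16, 0, 0, 96]⟩,
  ⟨⟨13, [[14, 15, 16, 17, 18, 19, 8, 7, 6], [13, 6, 5, 4, 20, 15], [13, 14, 20, 2, 1, 0, 16], [13, 15, 0, 12, 17], [13, 16, 12, 11, 18], [13, 17, 11, 10, 19], [13, 18, 10, 9, 8], [14, 4, 3, 2, 15]], [(2, 5), (2, 4), (7, 3), (7, 2), (1, 3), (1, 2), (0, 8), (0, 7), (6, 4), (6, 3), (5, 3), (4, 3), (3, 3)], [(0, 1), (0, 6), (0, 8)]⟩, [(0, 1), (0, 2), (0, 3), (0, 4), (0, 5), (1, 5)], 2, (.cons 1 0xf00 (.cons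 0 0xff0 (.cons 3 0xf0f (.cons 4 0xf00f (.cons 5 0xf000f (.cons 6 0xf0000f .nil .nil) .nil) .nil) .nil) (.cons 7 0xff0 .nil .nil)) .nil), 2, (.cons 0 0xf00 (.cons 1 0xf0f (.cons 7 0xff0 .nil .nil) (.cons 4 0xf0f (.cons 3 0xf0f0f .nil (.cons 5 0xf000f (.cons 6 0xf0000f .nil .nil) .nil)) .nil)) .nil), [0, 0, 120, 0, 0, 60, 0, 0, 120, 0, 0, 120, 0, 0, 120, 0, 0, 120, 0, 0, 120, 0, 0, 120, 0, 0, 120, 0, 0, 60, 0, 0, 112, 0, 0, 120, 0, 0, 48, 0, 0, 56, 0, 0, 120, 0, 0, 24, 0, 0, 96, 0, 0, 48, 0, 0, 32, 0, 16, 0, 80, 0, 0]⟩]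

set_option maxHeartbeats 0 in
theorem fok0 : AllOk tab8 jobs2 ∧
    AllOk tab9 jobs3 ∧
    AllOk tab11 jobs7 ∧
    AllOk tab12 jobs9 ∧
    AllOk tab12 jobs11 ∧
    AllOk tab12 jobs14 ∧
    AllOk tab13 jobs18 ∧
    AllOk tab13 jobs23 ∧ True := by
  refine ⟨?_, ?_, ?_, ?_, ?_, ?_, ?_, ?_, True.intro⟩
  · exact AllOk.last (by decide +kernel)
  · exact AllOk.last (by decide +kernel)
  · exact AllOk.last (by decide +kernel)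
  · refine AllOk.step 8 (by decide +kernel) ?_
    refine AllOk.step 8 (by decide +kernel) ?_
    refine AllOk.step 7 (by decide +kernel) ?_
    refine AllOk.step 7 (by decide +kernel) ?_
    refine AllOk.step 7 (by decide +kernel) ?_
    exact AllOk.last (by decide +kernel)
  · refine AllOk.step 6 (by decide +kernel) ?_
    refine AllOk.step 6 (by decide +kernel) ?_
    refine AllOk.step 6 (by decide +kernel) ?_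
    refine AllOk.step 6 (by decide +kernel) ?_
    refine AllOk.step 6 (by decide +kernel) ?_
    refine AllOk.step 6 (by decide +kernel) ?_
    exact AllOk.last (by decide +kernel)
  · exact AllOk.last (by decide +kernel)
  · refine AllOk.step 3 (by decide +kernel) ?_
    refine AllOk.step 3 (by decide +kernel) ?_
    refine AllOk.step 3 (by decide +kernel) ?_
    refine AllOk.step 3 (by decide +kernel) ?_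
    refine AllOk.step 3 (by decide +kernel) ?_
    refine AllOk.step 3 (by decide +kernel) ?_
    refine AllOk.step 3 (by decide +kernel) ?_
    refine AllOk.step 3 (by decide +kernel) ?_
    refine AllOk.step 3 (by decide +kernel) ?_
    refine AllOk.step 3 (by decide +kernel) ?_
    refine AllOk.step 3 (by decide +kernel) ?_
    refine AllOk.step 3 (by decide +kernel) ?_
    refine AllOk.step 3 (by decide +kernel) ?_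
    exact AllOk.last (by decide +kernel)
  · refine AllOk.step 1 (by decide +kernel) ?_
    refine AllOk.step 1 (by decide +kernel) ?_
    refine AllOk.step 1 (by decide +kernel) ?_
    refine AllOk.step 1 (by decide +kernel) ?_
    refine AllOk.step 1 (by decide +kernel) ?_
    refine AllOk.step 1 (by decide +kernel) ?_
    refine AllOk.step 1 (by decide +kernel) ?_
    refine AllOk.step 1 (by decide +kernel) ?_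
    refine AllOk.step 1 (by decide +kernel) ?_
    refine AllOk.step 1 (by decide +kernel) ?_
    refine AllOk.step 1 (by decide +kernel) ?_
    refine AllOk.step 1 (by decide +kernel) ?_
    refine AllOk.step 1 (by decide +kernel) ?_
    refine AllOk.step 1 (by decide +kernel) ?_
    refine AllOk.step 1 (by decide +kernel) ?_
    refine AllOk.step 1 (by decide +kernel) ?_
    refine AllOk.step 1 (by decide +kernel) ?_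
    refine AllOk.step 1 (by decide +kernel) ?_
    refine AllOk.step 1 (by decide +kernel) ?_
    refine AllOk.step 1 (by decide +kernel) ?_
    refine AllOk.step 1 (by decide +kernel) ?_
    refine AllOk.step 1 (by decide +kernel) ?_
    refine AllOk.step 1 (by decide +kernel) ?_
    refine AllOk.step 1 (by decide +kernel) ?_
    exact AllOk.last (by decide +kernel)

end Pool.Agent.MP_8c1b0d_co.CT4.Chk
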