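import Pool.Agent.MP_8c1b0d_co.CT4.T14
import Pool.Agent.MP_8c1b0d_co.CT4.PB

/-! Reducible configurations. -/

namespace Pool.Agent.MP_8c1b0d_co.CT4.Chk

set_option maxRecDepth 100000
set_option exponentiation.threshold 100000

noncomputable def jobs25 : List Job := [⟨⟨14, [[15, 16, 22, 23, 24, 1, 0, 17], [14, 17, 18, 19, 20, 9, 8, 16], [14, 15, 8, 21, 22], [14, 0, 13, 18, 15], [15, 17, 13, 12, 19], [15, 18, 12, 11, 20], [15, 19, 11, 10, 9], [16, 8, 7, 25, 22], [14, 16, 21, 25, 23], [14, 22, 25, 5, 4, 26, 24], [14, 23, 26, 27, 1], [22, 21, 7, 6, 5, 23], [23, 4, 3, 27, 24], [24, 26, 3, 2, 1]], [(0, 6), (13, 4), (13, 3), (12, 2), (9, 4), (11, 4), (11, 3), (7, 2), (1, 6), (6, 4), (6, 3), (5, 3), (4, 3), (3, 2)], [(1, 0), (1, 6), (9, 2)]⟩, [(0, 0), (0, 1), (0, 2), (0, 3), (0, 4), (1, 2), (1, 3), (1, 4),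 (2, 4), (8, 3), (8, 4), (9, 6), (10, 3)], 0, (.cons 9 0xf (.cons 8 0xf00000000f (.cons 11 0xff0000000f (.cons 7 0xf00f0000000f (.cons 2 0xff000000f (.cons 1 0xf0f (.cons 3 0xff (.cons 4 0xf0f0 (.cons 5 0xf00f0 (.cons 6 0xf000f0 .nil .nil) .nil) .nil) .nil) .nil) .nil) .nil) .nil) (.cons 10 0xf00000000f (.cons 12 0xff000000000 (.cons 13 0xf0f0000000000 .nil .nil) .nil) .nil)) .nil), 0, (.cons 1 0xf (.cons 9 0xff (.cons 11 0xf0000000ff (.cons 7 0xf0f0000000ff (.cons 8 0xf0f0f00000ff (.cons 2 0xff00000ff .nil .nil) .nil) .nil) (.cons 10 0xf00000000f (.cons 12 0xff000000000 (.cons 13 0xf0f0000000000 .nil .nil) .nil) .nil)) (.cons 4 0xff (.cons 3 0xf00ff .nil (.cons 5 0xf00f0 (.cons 6 0xf000f0 .nil .nil) .nil)) .nil)) .nil), [0, 0, 120, 0, 0, 120, 0, 0, 48, 0, 0, 120, 0]⟩,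
  ⟨⟨14, [[15, 16, 17, 18, 19, 20, 1, 0], [14, 0, 13, 21, 16], [14, 15, 21, 22, 17], [14, 16, 22, 23, 9, 24, 18], [14, 17, 24, 25, 19], [14, 18, 25, 26, 5, 4, 3, 20], [14, 19, 3, 2, 1], [15, 13, 12, 22, 16], [16, 21, 12, 11, 23, 17], [17, 22, 11, 10, 9], [17, 9, 8, 25, 18], [18, 24, 8, 7, 26, 19], [19, 25, 7, 6, 5]], [(0, 7), (6, 4), (6, 3), (5, 6), (5, 5), (12, 4), (12, 3), (11, 3), (10, 2), (9, 4), (9, 3), (8, 3), (7, 2), (1, 2)], [(0, 0), (3, 2), (8, 2)]⟩, [(0, 1), (0, 2), (0, 3), (0, 4), (0, 5), (1, 4), (2, 3), (2, 4), (3, 3), (3, 6), (4, 3), (4, 4), (5, 3)], 0, (.cons 5 0xf (.cons 4 0xf0000f (.cons 11 0xff000f (.cons 10 0xf000000f000f (.cons 3 0xf00000f000f (.cons 2 0xf00f (.cons 8 0xff0f (.cons 7 0xf00000f0f (.cons 1 0xf0000f0f .nil .nil) (.cons 9 0xf0000f000 .nil .nil)) .nil) .nil) .nil) (.cons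 12 0xf00000f00000 .nil .nil)) .nil) (.cons 6 0xf0000f .nil .nil)) .nil), 0, (.cons 1 0xf (.cons 5 0xff (.cons 4 0xf000ff (.cons 11 0xff00ff (.cons 10 0xf000000f00ff (.cons 3 0xf00000f00ff (.cons 8 0xf0ff (.cons 7 0xf0000f0ff (.cons 2 0xff000f0ff .nil .nil) (.cons 9 0xf0000f000 .nil .nil)) .nil) .nil) (.cons 12 0xf00000f00000 .nil .nil)) .nil) (.cons 6 0xf0000f .nil .nil)) .nil) .nil), [0, 0, 112, 0, 0, 120, 0, 0, 56, 0, 0, 120, 0, 0]⟩,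
  ⟨⟨14, [[15, 16, 17, 18, 19, 20, 1, 0], [14, 0, 13, 12, 21, 16], [14, 15, 21, 22, 8, 23, 17], [14, 16, 23, 6, 24, 18], [14, 17, 24, 25, 19], [14, 18, 25, 4, 26, 20], [14, 19, 26, 2, 1], [15, 12, 11, 10, 22, 16], [16, 21, 10, 9, 8], [16, 8, 7, 6, 17], [17, 6, 5, 25, 18], [18, 24, 5, 4, 19], [19, 4, 3, 2, 20]], [(0, 7), (6, 4), (12, 3), (12, 2), (11, 3), (10, 2), (9, 3), (9, 2), (8, 4), (8, 3), (7, 3), (7, 2), (1, 3), (1, 2)], [(0, 2), (3, 3), (5, 2)]⟩, [(0, 1), (0, 2), (0, 3), (0, 4), (0, 5), (1, 5), (2, 3), (2, 6), (3, 5), (4, 3), (4, 4), (5, 5)], 0, (.cons 2 0xf (.cons 1 0xf0f (.cons 7 0xff0 (.cons 8 0xf0000f00 .nil .nil) .nil) (.cons 3 0xf0f (.cons 4 0xf00f (.cons 10 0xff00f (.cons 11 0xf00000f000f (.cons 5 0xf000000f000f (.cons 6 0xf0000f (.cons 12 0xff00000 .nil .nil) .nil) .nil) .nil) .nil)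 (.cons 9 0xff00 .nil .nil)) .nil)) .nil), 0, (.cons 3 0xf (.cons 2 0xf00f (.cons 1 0xf0f (.cons 7 0xff0 (.cons 8 0xf0000f00 .nil .nil) .nil) (.cons 9 0xff00 .nil .nil)) (.cons 5 0xf00f (.cons 11 0xf0f00f (.cons 10 0xf00000f0f00f (.cons 4 0xff0000f0f00f .nil .nil) .nil) (.cons 6 0xf0000f (.cons 12 0xff00000 .nil .nil) .nil)) .nil)) .nil), [0, 0, 112, 0, 0, 112, 0, 0, 112, 0, 0, 112, 0, 0]⟩,
  ⟨⟨14, [[15, 16, 17, 18, 19, 7, 6], [14, 6, 20, 21, 22, 16], [14, 15, 22, 1, 0, 23, 17], [14, 16, 23, 24, 25, 18], [14, 17, 25, 10, 9, 19], [14, 18, 9, 8, 7], [15, 6, 5, 4, 21], [15, 20, 4, 3, 22], [15, 21, 3, 2, 1, 16], [16, 0, 13, 12, 24, 17], [17, 23, 12, 11, 25], [17, 24, 11, 10, 18]], [(2, 4), (8, 4), (8, 3), (7, 3), (6, 3), (6, 2), (0, 6), (5, 4), (5, 3), (4, 4), (11, 3), (10, 3), (9, 3), (9, 2)], [(0, 1),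 (0, 3), (0, 6)]⟩, [(0, 1), (0, 2), (0, 3), (0, 4), (1, 3), (1, 4), (1, 5), (2, 6), (3, 3), (3, 4), (3, 5)], 2, (.cons 0 0xf00 (.cons 1 0xf0f (.cons 8 0xff0 (.cons 7 0xf000000f0 (.cons 6 0xf00000f0 .nil .nil) .nil) .nil) (.cons 3 0xf0f (.cons 4 0xff0f (.cons 5 0xf000f .nil (.cons 11 0xfff00 (.cons 10 0xf0000000ff00 (.cons 9 0xf000000ff00 .nil .nil) .nil) .nil)) .nil) .nil)) .nil), 2, (.cons 0 0xf00 (.cons 1 0xf0f (.cons 8 0xff0 (.cons 7 0xf000000f0 (.cons 6 0xf00000f0 .nil .nil) .nil) .nil) (.cons 4 0xf0f (.cons 11 0xf0f0f (.cons 10 0xf000000f0f0f (.cons 3 0xff00000f0f0f (.cons 9 0xf000000ff00 .nil .nil) .nil) .nil) (.cons 5 0xf000f .nil .nil)) .nil)) .nil), [0, 0, 112, 0, 0, 120, 0, 0, 120, 0, 0, 120, 0, 0]⟩,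
  ⟨⟨14, [[15, 16, 17, 18, 19, 2, 1, 0], [14, 0, 13, 12, 20, 21, 16], [14, 15, 21, 9, 22, 17], [14, 16, 22, 23, 18], [14, 17, 23, 7, 24, 19], [14, 18, 24, 25, 4, 3, 2], [15, 12, 11, 10, 21], [15, 20, 10, 9, 16], [16, 9, 8, 23, 17], [17, 22, 8, 7, 18], [18, 7, 6, 25, 19], [19, 24, 6, 5, 4]], [(0, 7), (0, 6), (5, 6), (5, 5), (11, 4), (11, 3), (10, 2), (9, 3), (8, 2), (7, 3), (6, 3), (6, 2), (1, 3), (1, 2)], [(0, 1), (2, 3)]⟩, [(0, 1), (0, 2), (0, 3), (0, 4), (1, 5), (1, 6), (2, 5), (3, 3), (3, 4), (4, 5), (5, 3)], 0, (.cons 2 0xf (.cons 1 0xf0f (.cons 7 0xff0 (.cons 6 0xf00000f0 .nil .nil) .nil) (.cons 3 0xf0f (.cons 8 0xff0f (.cons 9 0xf0000f00f (.cons 4 0xf00000f00f (.cons 5 0xf000f (.cons 10 0xff0000 (.cons 11 0xf0000f00000 .nil .nil) .nil) .nil) .nil) .nil) .nil) .nil)) .nil), 0, (.cons 2 0xf (.cons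 1 0xf0f (.cons 7 0xff0 (.cons 6 0xf00000f0 .nil .nil) .nil) (.cons 4 0xf0f (.cons 3 0xf0f0f (.cons 9 0xfff00 (.cons 8 0xf00000ff00 .nil .nil) .nil) (.cons 5 0xf000f (.cons 10 0xff0000 (.cons 11 0xf0000f00000 .nil .nil) .nil) .nil)) .nil)) .nil), [0, 0, 120, 0, 0, 112, 0, 0, 120, 0, 0, 96, 0, 0, 48, 0, 0]⟩,
  ⟨⟨14, [[15, 16, 17, 18, 19, 20, 1, 0], [14, 0, 13, 12, 21, 16], [14, 15, 21, 22, 9, 23, 17], [14, 16, 23, 7, 6, 18], [14, 17, 6, 5, 24, 19], [14, 18, 24, 25, 20], [14, 19, 25, 3, 2, 1], [15, 12, 11, 22, 16], [16, 21, 11, 10, 9], [16, 9, 8, 7, 17], [18, 5, 4, 25, 19], [19, 24, 4, 3, 20]], [(0, 7), (6, 5), (6, 4), (11, 3), (10, 2), (4, 3), (3, 4), (9, 3), (9, 2), (8, 4), (8, 3), (7, 2), (1, 3), (1, 2)], [(0, 1), (1, 3), (2, 4)]⟩, [(0, 1), (0, 2), (0, 3), (0, 4), (0, 5), (1, 5), (2, 3), (2, 6), (4,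 5), (5, 3), (5, 4)], 0, (.cons 2 0xf (.cons 1 0xf0f (.cons 7 0xff0 (.cons 8 0xf0000f00 .nil .nil) .nil) (.cons 3 0xf0f (.cons 4 0xf00f (.cons 5 0xf000f (.cons 10 0xff000f (.cons 11 0xf0000f0000f (.cons 6 0xf00000f0000f .nil .nil) .nil) .nil) .nil) (.cons 9 0xff00 .nil .nil)) .nil)) .nil), 0, (.cons 2 0xf (.cons 7 0xf0f (.cons 1 0xf0000f0f .nil (.cons 8 0xf0000f00 .nil .nil)) (.cons 4 0xf0f (.cons 3 0xf0f0f (.cons 9 0xff00 .nil .nil) (.cons 5 0xf000f (.cons 10 0xff000f (.cons 11 0xf0000f0000f (.cons 6 0xf00000f0000f .nil .nil) .nil) .nil) .nil)) .nil)) .nil), [0, 0, 120, 0, 0, 124, 0, 0, 120, 0, 0, 100, 0, 0, 120, 0]⟩,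
  ⟨⟨14, [[15, 16, 17, 18, 19, 20, 1, 0], [14, 0, 13, 12, 21, 22, 23, 16], [14, 15, 23, 8, 7, 17], [14, 16, 7, 24, 18], [14, 17, 24, 25, 19], [14, 18, 25, 4, 3, 20], [14, 19, 3, 2, 1], [15, 12, 11, 10, 22], [15, 21, 10, 9, 23], [15, 22, 9, 8, 16], [17, 7, 6, 25, 18], [18, 24, 6, 5, 4, 19]], [(0, 7), (6, 4), (6, 3), (5, 4), (11, 4), (11, 3), (10, 2), (2, 4), (9, 3), (8, 3), (7, 3), (7, 2), (1, 3), (1, 2)], [(0, 3), (11, 2), (11, 4)]⟩, [(0, 1), (0, 2), (0, 3), (0, 4), (0, 5), (1, 5), (1, 6), (1, 7), (3, 4), (4, 3), (4, 4)], 0, (.cons 5 0xf (.cons 4 0xf0000f (.cons 11 0xff000f (.cons 10 0xf000000f000f (.cons 3 0xf00000f000f (.cons 2 0xf00f (.cons 1 0xf0f (.cons 9 0xff0 (.cons 8 0xf0000000f0 (.cons 7 0xf000000f0 .nil .nil) .nil) .nil) .nil) .nil) .nil) .nil) .nil) (.cons 6 0xf0000f .nil .nil)) .nil), 0,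 (.cons 4 0xf (.cons 2 0xf000f (.cons 1 0xf0f (.cons 9 0xff0 (.cons 8 0xf0000000f0 (.cons 7 0xf000000f0 .nil .nil) .nil) .nil) (.cons 3 0xf0f0f (.cons 10 0xff00f (.cons 11 0xf00000f000f (.cons 5 0xf000000f000f (.cons 6 0xf0000f .nil .nil) .nil) .nil) .nil) .nil)) .nil) .nil), [0, 0, 120, 0, 0, 120, 0, 0, 52, 0, 0, 112, 0, 0, 120, 0, 0]⟩,
  ⟨⟨14, [[15, 16, 23, 24, 2, 1, 0, 17], [14, 17, 18, 19, 20, 9, 8, 16], [14, 15, 8, 7, 21, 22, 23], [14, 0, 25, 18, 15], [15, 17, 25, 12, 19], [15, 18, 12, 11, 20], [15, 19, 11, 10, 9], [16, 7, 6, 5, 22], [16, 21, 5, 4, 26, 23], [14, 16, 22, 26, 24], [14, 23, 26, 3, 2], [17, 0, 13, 12, 18], [23, 22, 4, 3, 24]], [(0, 6), (0, 5), (10, 4), (12, 3), (8, 3), (7, 3), (7, 2), (2, 3), (1, 6), (6, 4), (6, 3), (5, 3), (11, 3), (11, 2)], [(0, 2), (8, 5)]⟩, [(0, 0), (0, 1), (0,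 2), (0, 3), (1, 2), (1, 3), (1, 4), (2, 5), (2, 6), (3, 3), (9, 3), (9, 4)], 0, (.cons 1 0xf (.cons 2 0xff (.cons 9 0xf0f (.cons 8 0xf000000f0f (.cons 7 0xf00000f00 .nil (.cons 12 0xff0000000f (.cons 10 0xf00f00000000f .nil .nil) .nil)) .nil) .nil) (.cons 3 0xff (.cons 4 0xf0f0 (.cons 5 0xf00f0 (.cons 6 0xf000f0 .nil .nil) (.cons 11 0xff000 .nil .nil)) .nil) .nil)) .nil), 0, (.cons 9 0xf (.cons 8 0xf00000000f (.cons 7 0xff0000000f (.cons 2 0xfff000000f (.cons 1 0xf0f (.cons 3 0xff (.cons 4 0xf0f0 (.cons 5 0xf00f0 (.cons 6 0xf000f0 .nil .nil) (.cons 11 0xff000 .nil .nil)) .nil) .nil) .nil) .nil) (.cons 10 0xff0000000f (.cons 12 0xfff00000000 .nil .nil) .nil)) .nil) .nil), [0, 0, 112, 0, 0, 40, 0, 0, 112, 0, 0, 120, 0, 0, 120, 0, 0]⟩,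
  ⟨⟨14, [[15, 16, 17, 18, 19, 2, 1, 0], [14, 0, 13, 12, 20, 16], [14, 15, 20, 21, 22, 23, 17], [14, 16, 23, 7, 6, 18], [14, 17, 6, 5, 24, 19], [14, 18, 24, 3, 2], [15, 12, 11, 21, 16], [16, 20, 11, 10, 22], [16, 21, 10, 9, 23], [16, 22, 9, 8, 7, 17], [18, 5, 4, 3, 19]], [(0, 7), (0, 6), (5, 4), (10, 3), (10, 2), (4, 3), (3, 4), (9, 4), (9, 3), (8, 3), (7, 3), (6, 2), (1, 3), (1, 2)], [(0, 2), (3, 2), (3, 4)]⟩, [(0, 1), (0, 2), (0, 3), (0, 4), (1, 5), (2, 3), (2, 4), (2, 5), (2, 6), (4, 5)], 0, (.cons 3 0xf (.cons 2 0xf00f (.cons 9 0xff0f (.cons 8 0xf000000f0f (.cons 7 0xf00000f0f (.cons 6 0xf0000f0f (.cons 1 0xf000f0f .nil .nil) .nil) .nil) .nil) .nil) (.cons 4 0xf00f (.cons 5 0xf000f (.cons 10 0xff0000 .nil .nil) .nil) .nil)) .nil), 0, (.cons 3 0xf (.cons 9 0xf00f (.cons 8 0xf00000f00f (.cons 7 0xff0000f00f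 (.cons 2 0xfff000f00f (.cons 6 0xf0000f0f (.cons 1 0xf000f0f .nil .nil) .nil) .nil) .nil) .nil) (.cons 4 0xf00f (.cons 5 0xf000f (.cons 10 0xff0000 .nil .nil) .nil) .nil)) .nil), [0, 0, 120, 0, 0, 112, 0, 0, 112, 0, 0, 112, 0, 0, 120, 0, 0]⟩,
  ⟨⟨14, [[15, 16, 17, 18, 19, 20, 2, 1, 0], [14, 0, 13, 12, 21, 22, 16], [14, 15, 22, 23, 17], [14, 16, 23, 9, 8, 18], [14, 17, 8, 7, 24, 25, 19], [14, 18, 25, 26, 20], [14, 19, 26, 4, 3, 2], [15, 12, 11, 10, 22], [15, 21, 10, 23, 16], [16, 22, 10, 9, 17], [18, 7, 6, 5, 25], [18, 24, 5, 26, 19], [19, 25, 5, 4, 20]], [(0, 8), (0, 7), (6, 5), (6, 4), (12, 3), (10, 3), (10, 2), (4, 3), (3, 4), (9, 3), (7, 3), (7, 2), (1, 3), (1, 2)], [(0, 4)]⟩, [(0, 1), (0, 2), (0, 3), (0, 4), (0, 5), (1, 5), (1, 6), (2, 3), (2, 4), (4, 5), (4, 6), (5, 3), (5, 4)], 0, (.cons 3 0xf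 (.cons 2 0xf00f (.cons 9 0xff0f (.cons 8 0xf000000f0f (.cons 1 0xf00000f0f (.cons 7 0xf000000f0 .nil .nil) .nil) .nil) .nil) (.cons 4 0xf00f (.cons 5 0xf000f (.cons 11 0xff000f (.cons 12 0xf00000f0000f (.cons 6 0xf000000f0000f .nil .nil) (.cons 10 0xf000000f0000 .nil .nil)) .nil) .nil) .nil)) .nil), 0, (.cons 5 0xf (.cons 3 0xf0000f (.cons 2 0xf00f (.cons 9 0xff0f (.cons 8 0xf000000f0f (.cons 1 0xf00000f0f (.cons 7 0xf000000f0 .nil .nil) .nil) .nil) .nil) (.cons 4 0xf0f00f (.cons 11 0xff000f (.cons 12 0xf00000f0000f (.cons 6 0xf000000f0000f .nil .nil) (.cons 10 0xf000000f0000 .nil .nil)) .nil) .nil)) .nil) .nil), [0, 0, 120, 0, 0, 120, 0, 0, 112, 0, 0, 32, 0, 0, 112, 0, 0]⟩,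
  ⟨⟨14, [[15, 16, 17, 18, 19, 2, 1, 0], [14, 0, 13, 12, 20, 21, 16], [14, 15, 21, 9, 22, 17], [14, 16, 22, 23, 18], [14, 17, 23, 24, 19], [14, 18, 24, 25, 4, 3, 2], [15, 12, 11, 10, 21], [15, 20, 10, 9, 16], [16, 9, 8, 7, 23, 17], [17, 22, 7, 24, 18], [18, 23, 7, 6, 25, 19], [19, 24, 6, 5, 4]], [(0, 7), (0, 6), (5, 6), (5, 5), (11, 4), (11, 3), (10, 3), (8, 3), (8, 2), (7, 3), (6, 3), (6, 2), (1, 3), (1, 2)], [(4, 4)]⟩, [(0, 1), (0, 2), (0, 3), (0, 4), (1, 5), (1, 6), (2, 5), (3, 3), (3, 4), (4, 3), (4, 4), (5, 3)], 0, (.cons 2 0xf (.cons 1 0xf0f (.cons 7 0xff0 (.cons 6 0xf00000f0 .nil .nil) .nil) (.cons 3 0xf0f (.cons 8 0xff0f (.cons 9 0xf0000f00f (.cons 4 0xf00000f00f (.cons 10 0xf0000f000f (.cons 5 0xf00000f000f (.cons 11 0xf0000f00000 .nil .nil) .nil) .nil) .nil) .nil) .nil) .nil)) .nil), 0, (.cons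 4 0xf (.cons 5 0xf000f (.cons 3 0xff000f (.cons 9 0xfff00f (.cons 8 0xf00000f00f (.cons 2 0xf0000f00f (.cons 1 0xf0f (.cons 7 0xff0 (.cons 6 0xf00000f0 .nil .nil) .nil) .nil) .nil) (.cons 10 0xf000ff0000 (.cons 11 0xf0000f00000 .nil .nil) .nil)) .nil) .nil) .nil) .nil), [0, 0, 120, 0, 0, 112, 0, 0, 120, 0, 0, 96, 0, 0, 48, 0, 0]⟩,
  ⟨⟨14, [[15, 16, 17, 18, 19, 20, 21], [14, 21, 22, 12, 11, 23, 16], [14, 15, 23, 9, 8, 7, 17], [14, 16, 7, 6, 5, 18], [14, 17, 5, 4, 3, 24, 19], [14, 18, 24, 25, 20], [14, 19, 25, 1, 0, 26, 21], [14, 20, 26, 22, 15], [15, 21, 26, 13, 12], [15, 11, 10, 9, 16], [18, 3, 2, 25, 19], [19, 24, 2, 1, 20], [20, 0, 13, 22, 21]], [(6, 4), (11, 3), (10, 2), (4, 4), (4, 3), (3, 4), (3, 3), (2, 5), (2, 4), (9, 3), (9, 2), (1, 4), (8, 4), (12, 2)], [(0, 1)]⟩, [(0, 0), (0, 1), (0, 2),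 (0, 3), (0, 4), (0, 5), (0, 6), (1, 2), (1, 6), (4, 6), (5, 3), (5, 4), (6, 6), (7, 3)], 6, (.cons 0 0xf000000 (.cons 5 0xf00000f (.cons 4 0xff0000f (.cons 3 0xf0f000f (.cons 2 0xf00f00f (.cons 1 0xf000f0f (.cons 7 0xf0000ff (.cons 8 0xff0000f0 (.cons 12 0xfff000000 .nil .nil) .nil) (.cons 9 0xff0 .nil .nil)) .nil) .nil) (.cons 10 0xfff0000 (.cons 11 0xf000ff00000 .nil .nil) .nil)) .nil) .nil) .nil), 6, (.cons 0 0xf000000 (.cons 2 0xf00000f (.cons 7 0xf000f0f (.cons 1 0xff000f0f (.cons 8 0xff0000f0 (.cons 12 0xfff000000 .nil .nil) (.cons 9 0xff0 .nil .nil)) .nil) (.cons 5 0xf000f0f (.cons 4 0xff00f0f (.cons 3 0xf0f0f .nil (.cons 10 0xfff0000 (.cons 11 0xf000ff00000 .nil .nil) .nil)) .nil) .nil)) .nil) .nil), [0, 0, 112, 0, 0, 120, 0, 0, 112, 0, 0, 56, 0, 0, 112]⟩,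
  ⟨⟨14, [[15, 21, 22, 2, 1, 0, 16], [14, 16, 17, 18, 19, 20, 21], [14, 0, 13, 12, 17, 15], [15, 16, 12, 11, 10, 18], [15, 17, 10, 9, 19], [15, 18, 9, 8, 20], [15, 19, 8, 7, 21], [14, 15, 20, 7, 23, 22], [14, 21, 23, 24, 4, 3, 2], [21, 7, 6, 24, 22], [22, 23, 6, 5, 4]], [(0, 5), (0, 4), (8, 6), (8, 5), (10, 4), (10, 3), (9, 2), (6, 3), (5, 3), (4, 3), (3, 4), (3, 3), (2, 3), (2, 2)], [(1, 3), (8, 2), (9, 1)]⟩, [(0, 0), (0, 1), (0, 2), (1, 2), (1, 3), (1, 4), (1, 5), (1, 6), (7, 5), (8, 3)], 0, (.cons 7 0xf (.cons 1 0xf000000f (.cons 6 0xf00000ff (.cons 5 0xf0000ff (.cons 4 0xf000ff (.cons 3 0xf00ff (.cons 2 0xf0ff .nil .nil) .nil) .nil) .nil) .nil) (.cons 8 0xf000000f (.cons 9 0xff0000000 (.cons 10 0xff00000000 .nil .nil) .nil) .nil)) .nil), 0, (.cons 1 0xf (.cons 4 0xff (.cons 2 0xf00ff (.cons 3 0xf0ff0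 .nil .nil) (.cons 7 0xf00ff (.cons 6 0xf00f00f0 (.cons 5 0xf0f00f0 .nil .nil) (.cons 8 0xf000000f (.cons 9 0xff0000000 (.cons 10 0xff00000000 .nil .nil) .nil) .nil)) .nil)) .nil) .nil), [0, 0, 120, 0, 0, 120, 0, 0, 120, 0, 0, 112, 0, 0, 112, 0, 0]⟩,
  ⟨⟨14, [[15, 7, 6, 21, 22, 23, 16], [14, 16, 17, 18, 19, 20, 8, 7], [14, 23, 24, 1, 0, 17, 15], [15, 16, 0, 13, 12, 18], [15, 17, 12, 11, 19], [15, 18, 11, 10, 20], [15, 19, 10, 9, 8], [14, 6, 5, 4, 22], [14, 21, 4, 3, 25, 23], [14, 22, 25, 24, 16], [23, 25, 2, 1, 16], [22, 3, 2, 24, 23]], [(2, 4), (10, 3), (11, 2), (8, 3), (7, 3), (7, 2), (0, 2), (1, 7), (6, 4), (6, 3), (5, 3), (4, 3), (3, 4), (3, 3)], [(2, 1), (8, 5)]⟩, [(0, 0), (0, 4), (0, 5), (0, 6), (1, 2), (1, 3), (1, 4), (1, 5), (8, 5), (9, 3), (9, 4)], 2, (.cons 0 0xf00 (.cons 1 0xf0f (.cons 3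 0xff0 (.cons 4 0xf0f0 (.cons 5 0xf00f0 (.cons 6 0xf000f0 .nil .nil) .nil) .nil) .nil) (.cons 9 0xf0f (.cons 8 0xf000000f0f (.cons 7 0xf0000000f .nil (.cons 11 0xff00000f00 (.cons 10 0xf0f000000f00 .nil .nil) .nil)) .nil) .nil)) .nil), 2, (.cons 9 0xf00 (.cons 8 0xf000000f00 (.cons 7 0xff00000f00 (.cons 0 0xfff0000f00 (.cons 1 0xf0f (.cons 3 0xff0 (.cons 4 0xf0f0 (.cons 5 0xf00f0 (.cons 6 0xf000f0 .nil .nil) .nil) .nil) .nil) .nil) .nil) (.cons 10 0xff00000f00 (.cons 11 0xfff00000000 .nil .nil) .nil)) .nil) .nil), [0, 0, 120, 0, 0, 112, 0, 0, 120, 0, 0, 120, 0, 0, 104, 0, 0]⟩,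
  ⟨⟨14, [[15, 16, 22, 23, 2, 1, 0, 17], [14, 17, 18, 19, 20, 9, 8, 16], [14, 15, 8, 21, 22], [14, 0, 13, 18, 15], [15, 17, 13, 12, 19], [15, 18, 12, 11, 20], [15, 19, 11, 10, 9], [16, 8, 7, 24, 22], [14, 16, 21, 24, 23], [14, 22, 24, 25, 4, 3, 2], [22, 21, 7, 6, 25, 23], [23, 24, 6, 5, 4]], [(0, 6), (0, 5), (9, 6), (9, 5), (11, 4), (11, 3), (10, 3), (7, 2), (1, 6), (6, 4), (6, 3), (5, 3), (4, 3), (3, 2)], [(1, 0), (1, 6), (6, 3)]⟩, [(0, 0), (0, 1), (0, 2), (0, 3), (1, 2), (1, 3), (1, 4), (2, 4), (8, 3), (8, 4), (9, 3)], 0, (.cons 1 0xf (.cons 2 0xff (.cons 8 0xf0f (.cons 7 0xf00000f0f (.cons 10 0xff000000f (.cons 9 0xf0f0000000f (.cons 11 0xff000000000 .nil .nil) .nil) .nil) .nil) .nil) (.cons 3 0xff (.cons 4 0xf0f0 (.cons 5 0xf00f0 (.cons 6 0xf000f0 .nil .nil) .nil) .nil) .nil)) .nil), 0, (.cons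 1 0xf (.cons 2 0xff (.cons 8 0xf0f (.cons 7 0xf00000f0f (.cons 10 0xff000000f (.cons 9 0xf0f0000000f (.cons 11 0xff000000000 .nil .nil) .nil) .nil) .nil) .nil) (.cons 4 0xff (.cons 3 0xf00ff .nil (.cons 5 0xf00f0 (.cons 6 0xf000f0 .nil .nil) .nil)) .nil)) .nil), [0, 0, 112, 0, 0, 120, 0, 0, 112, 0, 0, 112, 0, 0, 120, 0, 0]⟩,
  ⟨⟨14, [[15, 16, 17, 18, 19, 20, 21, 2, 1, 0], [14, 0, 13, 22, 16], [14, 15, 22, 11, 17], [14, 16, 11, 10, 23, 24, 18], [14, 17, 24, 25, 19], [14, 18, 25, 7, 26, 20], [14, 19, 26, 5, 4, 21], [14, 20, 4, 3, 2], [15, 13, 12, 11, 16], [17, 10, 9, 8, 24], [17, 23, 8, 25, 18], [18, 24, 8, 7, 19], [19, 7, 6, 5, 20]], [(0, 9), (0, 8), (7, 4), (7, 3), (6, 4), (12, 3), (12, 2), (11, 3), (9, 3), (9, 2), (3, 3), (8, 3), (8, 2), (1, 2)], [(0, 0)]⟩, [(0, 1), (0, 2), (0, 3), (0, 4), (0, 5),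 (0, 6), (1, 4), (3, 5), (3, 6), (4, 3), (4, 4), (5, 5)], 0, (.cons 2 0xf (.cons 1 0xf0f (.cons 8 0xff0 .nil .nil) (.cons 3 0xf0f (.cons 4 0xf00f (.cons 10 0xff00f (.cons 11 0xf00000f000f (.cons 5 0xf000000f000f (.cons 6 0xf0000f (.cons 7 0xf00000f .nil (.cons 12 0xff00000 .nil .nil)) .nil) .nil) (.cons 9 0xf000000f000 .nil .nil)) .nil) .nil) .nil)) .nil), 0, (.cons 1 0xf (.cons 3 0xff (.cons 2 0xf0ff (.cons 8 0xff0 .nil .nil) (.cons 4 0xf00f (.cons 10 0xff00f (.cons 11 0xf00000f000f (.cons 5 0xf000000f000f (.cons 6 0xf0000f (.cons 7 0xf00000f .nil (.cons 12 0xff00000 .nil .nil)) .nil) .nil) (.cons 9 0xf000000f000 .nil .nil)) .nil) .nil)) .nil) .nil), [0, 0, 112, 0, 0, 112, 0, 0, 112, 0, 0, 96, 0, 0, 120, 0, 0]⟩,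
  ⟨⟨14, [[15, 16, 17, 18, 19, 20, 21], [14, 21, 22, 2, 1, 0, 16], [14, 15, 0, 13, 12, 17], [14, 16, 12, 11, 10, 18], [14, 17, 10, 9, 19], [14, 18, 9, 8, 20], [14, 19, 8, 23, 21], [14, 20, 23, 24, 22, 15], [15, 21, 24, 4, 3, 2], [20, 8, 7, 6, 24, 21], [21, 23, 6, 5, 4, 22]], [(1, 5), (1, 4), (8, 5), (8, 4), (10, 4), (10, 3), (9, 3), (9, 2), (5, 3), (4, 3), (3, 4), (3, 3), (2, 4), (2, 3)], [(0, 0), (3, 4)]⟩, [(0, 0), (0, 1), (0, 2), (0, 3), (0, 4), (0, 5), (0, 6), (1, 2), (6, 4), (7, 3), (7, 4)], 1, (.cons 0 0xf0 (.cons 7 0xff (.cons 6 0xf00000ff (.cons 5 0xf0000ff (.cons 4 0xf000ff (.cons 3 0xf00ff (.cons 2 0xf0ff .nil .nil) .nil) .nil) (.cons 9 0xff0000f0 (.cons 10 0xf0f00000f0 (.cons 8 0xf00f00000f0 .nil .nil) .nil) .nil)) .nil) .nil) .nil), 1, (.cons 0 0xf0 (.cons 4 0xff (.cons 3 0xf00ff (.cons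 2 0xf0ff .nil .nil) (.cons 5 0xf00ff (.cons 6 0xf000ff (.cons 9 0xf0000ff (.cons 7 0xf00f0000ff (.cons 10 0xf0f00000f0 (.cons 8 0xf00f00000f0 .nil .nil) .nil) .nil) .nil) .nil) .nil)) .nil) .nil), [0, 0, 120, 0, 0, 120, 0, 0, 120, 0, 0, 112, 0, 0, 112, 0, 0]⟩,
  ⟨⟨14, [[15, 16, 17, 7, 18, 19, 20, 0], [14, 0, 13, 12, 21, 22, 16], [14, 15, 22, 23, 17], [14, 16, 23, 8, 7], [14, 7, 6, 24, 19], [14, 18, 24, 25, 20], [14, 19, 25, 26, 2, 1, 0], [15, 12, 11, 10, 22], [15, 21, 10, 9, 23, 16], [16, 22, 9, 8, 17], [18, 6, 5, 25, 19], [19, 24, 5, 4, 26, 20], [20, 25, 4, 3, 2]], [(6, 6), (6, 5), (12, 4), (12, 3), (11, 3), (10, 2), (4, 2), (3, 4), (9, 3), (8, 3), (7, 3), (7, 2), (1, 3), (1, 2)], [(0, 1)]⟩, [(0, 1), (0, 2), (0, 5), (0, 6), (1, 5), (1, 6), (2, 3), (2, 4), (4, 4), (5, 3), (5, 4), (6, 3)], 0, (.cons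 1 0xf (.cons 2 0xff (.cons 8 0xfff (.cons 9 0xf00000f0f (.cons 3 0xf000000f0f .nil .nil) (.cons 7 0xf000000f0 .nil .nil)) .nil) .nil) (.cons 4 0xf (.cons 5 0xf000f (.cons 10 0xff000f (.cons 11 0xf0000f0000f (.cons 6 0xf00000f0000f (.cons 12 0xf0000f000000 .nil .nil) .nil) .nil) .nil) .nil) .nil)), 6, (.cons 11 0xf000000 (.cons 5 0xf0000f000000 (.cons 10 0xf0000ff00000 (.cons 4 0xf000ff00000 (.cons 0 0xfff0000 (.cons 2 0xf (.cons 8 0xf0f (.cons 1 0xf00000f0f (.cons 7 0xf000000f0 .nil .nil) (.cons 9 0xf00000f0f (.cons 3 0xf000000f0f .nil .nil) .nil)) .nil) .nil) .nil) .nil) .nil) (.cons 12 0xf0000f000000 .nil .nil)) .nil), [0, 0, 120, 0, 0, 120, 0, 0, 112, 0, 0, 112, 0, 0, 48, 0, 0]⟩,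
  ⟨⟨14, [[15, 21, 22, 23, 1, 0, 16], [14, 16, 17, 18, 19, 20, 21], [14, 0, 13, 12, 17, 15], [15, 16, 12, 11, 18], [15, 17, 11, 10, 19], [15, 18, 10, 9, 20], [15, 19, 9, 8, 7, 21], [14, 15, 20, 7, 6, 22], [14, 21, 6, 5, 4, 24, 23], [14, 22, 24, 2, 1], [22, 4, 3, 2, 23]], [(0, 5), (9, 4), (10, 3), (10, 2), (8, 4), (8, 3), (7, 4), (6, 4), (6, 3), (5, 3), (4, 3), (3, 3), (2, 3), (2, 2)], [(1, 3)]⟩, [(0, 0), (0, 1), (0, 2), (0, 3), (1, 2), (1, 3), (1, 4), (1, 5), (1, 6), (8, 6)], 0, (.cons 7 0xf (.cons 1 0xf000000f (.cons 6 0xf00000ff (.cons 5 0xf0000ff (.cons 4 0xf000ff (.cons 3 0xf00ff (.cons 2 0xf0ff .nil .nil) .nil) .nil) .nil) .nil) (.cons 8 0xf000000f (.cons 9 0xf0000000f (.cons 10 0xff00000000 .nil .nil) .nil) .nil)) .nil), 0, (.cons 1 0xf (.cons 4 0xff (.cons 2 0xf00ff (.cons 3 0xf0ff0 .nil .nil)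 (.cons 7 0xf00ff (.cons 6 0xf00f00f0 (.cons 5 0xf0f00f0 .nil .nil) (.cons 8 0xf000000f (.cons 9 0xf0000000f (.cons 10 0xff00000000 .nil .nil) .nil) .nil)) .nil)) .nil) .nil), [0, 0, 120, 0, 0, 120, 0, 0, 112, 0, 0, 48, 0, 0, 112, 0, 0, 56, 0, 0]⟩,
  ⟨⟨14, [[15, 16, 17, 18, 19, 20, 21, 12], [14, 12, 11, 10, 22, 16], [14, 15, 22, 8, 7, 6, 17], [14, 16, 6, 5, 4, 18], [14, 17, 4, 23, 19], [14, 18, 23, 24, 20], [14, 19, 24, 1, 0, 21], [14, 20, 0, 13, 12], [15, 10, 9, 8, 16], [18, 4, 3, 24, 19], [19, 23, 3, 2, 1, 20]], [(6, 4), (10, 4), (10, 3), (9, 2), (3, 4), (3, 3), (2, 5), (2, 4), (8, 3), (8, 2), (1, 3), (1, 2), (7, 4), (7, 3)], [(0, 2), (3, 2), (3, 4)]⟩, [(0, 1), (0, 2), (0, 3), (0, 4), (0, 5), (0, 6), (1, 5), (4, 4), (5, 3), (5, 4)], 6, (.cons 0 0xf000000 (.cons 5 0xf00000f (.cons 4 0xff0000f (.cons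 3 0xf000f (.cons 2 0xf00f (.cons 1 0xf0f (.cons 8 0xff0 .nil .nil) .nil) .nil) (.cons 9 0xfff0000 (.cons 10 0xf00ff00000 .nil .nil) .nil)) .nil) (.cons 7 0xf00000f .nil .nil)) .nil), 6, (.cons 0 0xf000000 (.cons 3 0xf00000f (.cons 1 0xf00f (.cons 2 0xf0ff (.cons 8 0xff0 .nil .nil) .nil) (.cons 5 0xf00f00f (.cons 4 0xff0f00f (.cons 9 0xfff0000 (.cons 10 0xf00ff00000 .nil .nil) .nil) .nil) .nil)) (.cons 7 0xf00000f .nil .nil)) .nil), [0, 0, 112, 0, 0, 112, 0, 0, 112, 0, 0, 52, 0, 0, 24, 0, 0, 96, 0, 0]⟩,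
  ⟨⟨14, [[15, 16, 17, 18, 19, 20, 21], [14, 21, 22, 11, 10, 23, 16], [14, 15, 23, 8, 7, 6, 17], [14, 16, 6, 5, 18], [14, 17, 5, 4, 24, 19], [14, 18, 24, 25, 20], [14, 19, 25, 2, 1, 0, 21], [14, 20, 0, 13, 22, 15], [15, 21, 13, 12, 11], [15, 10, 9, 8, 16], [18, 4, 3, 25, 19], [19, 24, 3, 2, 20]], [(6, 5), (6, 4), (11, 3), (10, 2), (4, 3), (3, 3), (2, 5), (2, 4), (9, 3), (9, 2), (1, 4), (8, 4), (8, 3), (7, 3)], [(0, 1)]⟩, [(0, 0), (0, 1), (0, 2), (0, 3), (0, 4), (0, 5), (0, 6), (1, 2), (1, 6), (4, 5), (5, 3), (5, 4)], 6, (.cons 0 0xf000000 (.cons 5 0xf00000f (.cons 4 0xff0000f (.cons 3 0xf0f000f (.cons 2 0xf00f00f (.cons 1 0xf000f0f (.cons 7 0xf0000ff (.cons 8 0xf00000f0 .nil .nil) (.cons 9 0xff0 .nil .nil)) .nil) .nil) (.cons 10 0xfff0000 (.cons 11 0xf000ff00000 .nil .nil) .nil)) .nil) .nil) .nil),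 6, (.cons 0 0xf000000 (.cons 2 0xf00000f (.cons 7 0xf000f0f (.cons 1 0xf0000f0f (.cons 8 0xf00000f0 .nil (.cons 9 0xff0 .nil .nil)) .nil) (.cons 5 0xf000f0f (.cons 4 0xff00f0f (.cons 3 0xf0f0f .nil (.cons 10 0xfff0000 (.cons 11 0xf000ff00000 .nil .nil) .nil)) .nil) .nil)) .nil) .nil), [0, 0, 120, 0, 0, 120, 0, 0, 112, 0, 0, 112, 0, 0, 120, 0]⟩,
  ⟨⟨14, [[15, 0, 13, 12, 20, 21, 16], [14, 16, 17, 18, 19, 1, 0], [14, 21, 22, 6, 17, 15], [15, 16, 6, 5, 4, 18], [15, 17, 4, 3, 19], [15, 18, 3, 2, 1], [14, 12, 11, 10, 23, 24, 21], [14, 20, 24, 22, 16], [21, 24, 7, 6, 16], [20, 10, 9, 8, 24], [20, 23, 8, 7, 22, 21]], [(1, 6), (5, 4), (5, 3), (4, 3), (3, 4), (3, 3), (8, 3), (10, 3), (9, 3), (9, 2), (6, 3), (6, 2), (0, 3), (0, 2)], [(1, 1), (2, 1), (2, 3)]⟩, [(0, 0), (0, 5), (0, 6), (1, 2), (1, 3), (1, 4),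 (6, 5), (6, 6), (7, 3), (7, 4)], 0, (.cons 2 0xf (.cons 1 0xf0f (.cons 3 0xff0 (.cons 4 0xf0f0 (.cons 5 0xf00f0 .nil .nil) .nil) .nil) (.cons 7 0xf0f (.cons 8 0xf0000f0f (.cons 10 0xff000000f (.cons 6 0xf00f000000f (.cons 9 0xf000f000000 .nil .nil) .nil) .nil) .nil) .nil)) .nil), 1, (.cons 2 0xf0 (.cons 7 0xff0 (.cons 6 0xf0000ff0 (.cons 0 0xff000ff0 .nil (.cons 10 0xff000f00 (.cons 8 0xf00f0000f00 .nil (.cons 9 0xf000f000000 .nil .nil)) .nil)) .nil) (.cons 4 0xff0 (.cons 3 0xf0ff0 .nil (.cons 5 0xf00f0 .nil .nil)) .nil)) .nil), [0, 0, 112, 0, 0, 120, 0, 0, 120, 0, 0, 112, 0, 0, 96, 0, 0, 56, 0, 0]⟩,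
  ⟨⟨14, [[15, 16, 17, 18, 19, 20, 21, 1, 0], [14, 0, 13, 12, 16], [14, 15, 12, 22, 17], [14, 16, 22, 23, 9, 8, 18], [14, 17, 8, 24, 19], [14, 18, 24, 6, 5, 25, 20], [14, 19, 25, 3, 21], [14, 20, 3, 2, 1], [16, 12, 11, 23, 17], [17, 22, 11, 10, 9], [18, 8, 7, 6, 19], [19, 5, 4, 3, 20]], [(0, 8), (7, 4), (7, 3), (11, 3), (11, 2), (5, 4), (10, 3), (10, 2), (3, 5), (9, 4), (9, 3), (8, 2), (1, 3), (1, 2)], [(0, 1)]⟩, [(0, 1), (0, 2), (0, 3), (0, 4), (0, 5), (0, 6), (2, 4), (3, 3), (4, 4), (5, 6)], 0, (.cons 6 0xf (.cons 5 0xf00000f (.cons 4 0xf0000f (.cons 3 0xf000f (.cons 2 0xf00f (.cons 1 0xf0f .nil (.cons 8 0xff00 (.cons 9 0xf0000f000 .nil .nil) .nil)) .nil) (.cons 10 0xff0000 .nil .nil)) (.cons 11 0xff00000 .nil .nil)) (.cons 7 0xf00000f .nil .nil)) .nil), 0, (.cons 2 0xf (.cons 1 0xf0f .nil (.cons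 6 0xf0f (.cons 5 0xf000f0f (.cons 4 0xf00f0f (.cons 3 0xf0f0f (.cons 8 0xff00 (.cons 9 0xf0000f000 .nil .nil) .nil) (.cons 10 0xff0000 .nil .nil)) (.cons 11 0xff00000 .nil .nil)) (.cons 7 0xf00000f .nil .nil)) .nil)) .nil), [0, 0, 112, 0, 0, 120, 0, 0, 112, 0, 0, 112, 0, 0, 120, 0, 0, 48, 0, 0]⟩,
  ⟨⟨14, [[15, 16, 17, 18, 19, 20, 1, 0], [14, 0, 13, 21, 16], [14, 15, 21, 22, 23, 8, 7, 17], [14, 16, 7, 6, 18], [14, 17, 6, 5, 19], [14, 18, 5, 4, 24, 20], [14, 19, 24, 2, 1], [15, 13, 12, 22, 16], [16, 21, 12, 11, 10, 23], [16, 22, 10, 9, 8], [19, 4, 3, 2, 20]], [(0, 7), (6, 4), (10, 3), (10, 2), (5, 3), (4, 3), (3, 3), (2, 6), (9, 4), (9, 3), (8, 4), (8, 3), (7, 2), (1, 2)], [(0, 2), (3, 2)]⟩, [(0, 1), (0, 2), (0, 3), (0, 4), (0, 5), (1, 4), (2, 3), (2, 4), (5, 5)], 0, (.cons 2 0xf (.cons 1 0xf0f (.cons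 7 0xff0 (.cons 8 0xf0000f00 (.cons 9 0xf00000f00 .nil .nil) .nil) .nil) (.cons 3 0xf0f (.cons 4 0xf00f (.cons 5 0xf000f (.cons 6 0xf0000f (.cons 10 0xff00000 .nil .nil) .nil) .nil) .nil) .nil)) .nil), 0, (.cons 3 0xf (.cons 1 0xf00f (.cons 2 0xf0ff (.cons 7 0xff0 (.cons 8 0xf0000f00 (.cons 9 0xf00000f00 .nil .nil) .nil) .nil) .nil) (.cons 5 0xf00f (.cons 4 0xf0f00f .nil (.cons 6 0xf0000f (.cons 10 0xff00000 .nil .nil) .nil)) .nil)) .nil), [0, 0, 112, 0, 0, 120, 0, 0, 112, 0, 0, 56, 0, 0, 112, 0, 0, 120, 0, 0]⟩,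
  ⟨⟨14, [[15, 16, 17, 18, 19, 20, 21], [14, 21, 22, 2, 1, 0, 16], [14, 15, 0, 13, 12, 17], [14, 16, 12, 11, 10, 23, 18], [14, 17, 23, 8, 24, 19], [14, 18, 24, 25, 20], [14, 19, 25, 5, 21], [14, 20, 5, 4, 22, 15], [15, 21, 4, 3, 2], [17, 10, 9, 8, 18], [18, 8, 7, 6, 25, 19], [19, 24, 6, 5, 20]], [(1, 5), (1, 4), (8, 4), (8, 3), (7, 3), (11, 3), (10, 3), (10, 2), (9, 3), (9, 2), (3, 4), (3, 3), (2, 4), (2, 3)], [(0, 0)]⟩, [(0, 0), (0, 1), (0, 2), (0, 3), (0, 4), (0, 5), (0, 6), (1, 2), (3, 6), (4, 5), (5, 3), (5, 4)], 1, (.cons 7 0xf0 (.cons 0 0xf00000f0 (.cons 6 0xf00000ff (.cons 5 0xf0000ff (.cons 11 0xff000ff (.cons 10 0xf00000f000ff (.cons 4 0xf0000f000ff (.cons 3 0xf00ff (.cons 2 0xf0ff .nil (.cons 9 0xff000 .nil .nil)) .nil) .nil) .nil) .nil) .nil) .nil) (.cons 8 0xf00000f0 .nil .nil)) .nil),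 1, (.cons 0 0xf0 (.cons 4 0xff (.cons 3 0xf00ff (.cons 2 0xf0ff .nil (.cons 9 0xff000 .nil .nil)) (.cons 5 0xf00ff (.cons 10 0xff00ff (.cons 11 0xf0000f000ff (.cons 6 0xf00000f000ff (.cons 7 0xf0000ff (.cons 8 0xf00000f0 .nil .nil) .nil) .nil) .nil) .nil) .nil)) .nil) .nil), [0, 0, 112, 0, 0, 120, 0, 0, 112, 0, 0, 48, 0, 0, 120, 0, 0]⟩,
  ⟨⟨14, [[15, 16, 17, 0, 18, 19, 8], [14, 8, 7, 6, 20, 16], [14, 15, 20, 21, 22, 17], [14, 16, 22, 2, 1, 0], [14, 0, 13, 23, 24, 19], [14, 18, 24, 10, 9, 8], [15, 6, 5, 21, 16], [16, 20, 5, 4, 22], [16, 21, 4, 3, 2, 17], [18, 13, 12, 11, 24], [18, 23, 11, 10, 19]], [(3, 5), (3, 4), (8, 4), (8, 3), (7, 3), (6, 2), (1, 3), (1, 2), (5, 5), (5, 4), (10, 3), (9, 3), (9, 2), (4, 2)], [(0, 4)]⟩, [(0, 1), (0, 2), (0, 5), (1, 5), (2, 3), (2, 4), (2, 5), (4, 4), (4, 5)], 0,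 (.cons 1 0xf (.cons 2 0xff (.cons 6 0xfff (.cons 7 0xf000f0f (.cons 8 0xf0000f0f (.cons 3 0xf00000f0f .nil .nil) .nil) .nil) .nil) .nil) (.cons 4 0xf (.cons 5 0xf000f (.cons 10 0xff0000 (.cons 9 0xf00000f0000 .nil .nil) .nil) .nil) .nil)), 3, (.cons 0 0xf000 (.cons 2 0xf00f (.cons 1 0xff0f (.cons 6 0xfff0 (.cons 7 0xf00ff00 (.cons 8 0xf000ff00 .nil .nil) .nil) .nil) .nil) (.cons 4 0xf (.cons 10 0xf000f (.cons 5 0xf00000f000f .nil (.cons 9 0xf00000f0000 .nil .nil)) .nil) .nil)) .nil), [0, 0, 112, 0, 0, 112, 0, 0, 120, 0, 0, 120, 0, 56, 0, 0, 112, 0, 0]⟩,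
  ⟨⟨14, [[15, 0, 20, 21, 9, 22, 16], [14, 16, 17, 18, 19, 1, 0], [14, 22, 23, 6, 17, 15], [15, 16, 6, 5, 18], [15, 17, 5, 4, 3, 19], [15, 18, 3, 2, 1], [14, 0, 24, 25, 21], [14, 20, 25, 11, 10, 9], [14, 9, 8, 23, 16], [22, 8, 7, 6, 16], [20, 0, 13, 12, 25], [20, 24, 12, 11, 21]], [(1, 6), (5, 4), (5, 3), (4, 4), (4, 3), (3, 3), (9, 3), (9, 2), (8, 2), (7, 5), (7, 4), (11, 3), (10, 3), (10, 2)], [(1, 1), (2, 1), (2, 3)]⟩, [(0, 0), (0, 3), (0, 6), (1, 2), (1, 3), (1, 4), (6, 3), (6, 4), (8, 4)], 0, (.cons 2 0xf (.cons 1 0xf0f (.cons 3 0xff0 (.cons 4 0xf0f0 (.cons 5 0xf00f0 .nil .nil) .nil) .nil) (.cons 8 0xf0f (.cons 9 0xf00000f00 .nil .nil) .nil)) (.cons 6 0xf (.cons 7 0xf00000f (.cons 11 0xff000000 (.cons 10 0xf0000f000000 .nil .nil) .nil) .nil) .nil)), 1, (.cons 2 0xf0 (.cons 8 0xff0 (.cons 0 0xf00000ff0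 (.cons 6 0xf (.cons 7 0xf00000f (.cons 11 0xff000000 (.cons 10 0xf0000f000000 .nil .nil) .nil) .nil) .nil) (.cons 9 0xf00000f00 .nil .nil)) (.cons 4 0xff0 (.cons 3 0xf0ff0 .nil (.cons 5 0xf00f0 .nil .nil)) .nil)) .nil), [0, 0, 120, 0, 0, 120, 0, 0, 112, 0, 0, 96, 0, 0, 56, 0, 0, 112, 0, 0]⟩,
  ⟨⟨14, [[15, 16, 17, 18, 19, 2, 1, 0], [14, 0, 13, 12, 20, 21, 16], [14, 15, 21, 22, 17], [14, 16, 22, 8, 18], [14, 17, 8, 23, 19], [14, 18, 23, 24, 4, 3, 2], [15, 12, 11, 10, 21], [15, 20, 10, 9, 22, 16], [16, 21, 9, 8, 17], [18, 8, 7, 6, 24, 19], [19, 23, 6, 5, 4]], [(0, 7), (0, 6), (5, 6), (5, 5), (10, 4), (10, 3), (9, 3), (9, 2), (8, 3), (7, 3), (6, 3), (6, 2), (1, 3), (1, 2)], [(0, 2), (3, 3)]⟩, [(0, 1), (0, 2), (0, 3), (0, 4), (1, 5), (1, 6), (2, 3), (2, 4), (4, 4), (5, 3)], 0, (.cons 3 0xf (.cons 2 0xf00f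 (.cons 8 0xff0f (.cons 7 0xf00000f0f (.cons 1 0xf0000f0f (.cons 6 0xf00000f0 .nil .nil) .nil) .nil) .nil) (.cons 4 0xf00f (.cons 5 0xf000f (.cons 9 0xff0000 (.cons 10 0xf000f00000 .nil .nil) .nil) .nil) .nil)) .nil), 0, (.cons 3 0xf (.cons 1 0xf00f (.cons 2 0xf0ff (.cons 7 0xfff0 (.cons 6 0xf00000f0 .nil (.cons 8 0xf000ff00 .nil .nil)) .nil) .nil) (.cons 4 0xf00f (.cons 5 0xf000f (.cons 9 0xff0000 (.cons 10 0xf000f00000 .nil .nil) .nil) .nil) .nil)) .nil), [0, 0, 120, 0, 0, 112, 0, 0, 112, 0, 0, 112, 0, 0, 112, 0, 0, 112, 0, 0]⟩,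
  ⟨⟨14, [[15, 16, 17, 18, 19, 20, 8, 7], [14, 7, 6, 21, 22, 23, 16], [14, 15, 23, 1, 0, 17], [14, 16, 0, 24, 18], [14, 17, 24, 12, 11, 19], [14, 18, 11, 25, 20], [14, 19, 25, 9, 8], [15, 6, 5, 4, 22], [15, 21, 4, 3, 2, 23], [15, 22, 2, 1, 16], [17, 0, 13, 12, 18], [19, 11, 10, 9, 20]], [(2, 4), (9, 3), (8, 4), (8, 3), (7, 3), (7, 2), (1, 2), (0, 7), (6, 4), (11, 3), (11, 2), (4, 4), (10, 3), (10, 2)], [(0, 3), (0, 6)]⟩, [(0, 1), (0, 2), (0, 3), (0, 4), (0, 5), (1, 4), (1, 5), (1, 6), (3, 4), (5, 4)], 2, (.cons 0 0xf00 (.cons 1 0xf0f (.cons 9 0xff0 (.cons 8 0xf0000000f0 (.cons 7 0xf000000f0 .nil .nil) .nil) .nil) (.cons 3 0xf0f (.cons 4 0xf00f (.cons 5 0xf000f (.cons 6 0xf0000f (.cons 11 0xff00000 .nil .nil) .nil) (.cons 10 0xff000 .nil .nil)) .nil) .nil)) .nil), 2, (.cons 0 0xf00 (.cons 1 0xf0f (.cons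 9 0xff0 (.cons 8 0xf0000000f0 (.cons 7 0xf000000f0 .nil .nil) .nil) .nil) (.cons 4 0xf0f (.cons 3 0xf0f0f (.cons 10 0xff000 .nil .nil) (.cons 5 0xf000f (.cons 6 0xf0000f (.cons 11 0xff00000 .nil .nil) .nil) .nil)) .nil)) .nil), [0, 0, 120, 0, 0, 120, 0, 0, 112, 0, 0, 120, 0, 0, 88, 0, 0, 104, 0, 0]⟩,
  ⟨⟨14, [[15, 16, 17, 18, 19, 20, 2, 1], [14, 1, 0, 21, 22, 23, 24, 16], [14, 15, 24, 9, 8, 7, 17], [14, 16, 7, 6, 18], [14, 17, 6, 5, 19], [14, 18, 5, 4, 20], [14, 19, 4, 3, 2], [15, 0, 13, 12, 22], [15, 21, 12, 11, 23], [15, 22, 11, 10, 24], [15, 23, 10, 9, 16]], [(1, 2), (0, 7), (6, 4), (6, 3), (5, 3), (4, 3), (3, 3), (2, 5), (2, 4), (10, 3), (9, 3), (8, 3), (7, 3), (7, 2)], [(0, 1), (0, 3), (0, 7)]⟩, [(0, 1), (0, 2), (0, 3), (0, 4), (0, 5), (1, 4), (1, 5), (1, 6), (1, 7)], 1, (.cons 2 0xf0 (.cons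 0 0xff0 (.cons 3 0xf0f (.cons 4 0xf00f (.cons 5 0xf000f (.cons 6 0xf0000f .nil .nil) .nil) .nil) .nil) (.cons 10 0xff0 (.cons 9 0xf00000000f0 (.cons 8 0xf0000000f0 (.cons 7 0xf000000f0 .nil .nil) .nil) .nil) .nil)) .nil), 1, (.cons 0 0xf0 (.cons 2 0xff (.cons 4 0xf0f (.cons 3 0xf0f0f .nil (.cons 5 0xf000f (.cons 6 0xf0000f .nil .nil) .nil)) (.cons 10 0xff0 (.cons 9 0xf00000000f0 (.cons 8 0xf0000000f0 (.cons 7 0xf000000f0 .nil .nil) .nil) .nil) .nil)) .nil) .nil), [0, 0, 120, 0, 0, 112, 0, 0, 120, 0, 0, 112, 0, 0, 48, 0, 0, 112, 0, 0, 112, 0]⟩,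
  ⟨⟨14, [[15, 16, 17, 18, 19, 20, 2, 1, 0], [14, 0, 13, 12, 21, 16], [14, 15, 21, 10, 9, 22, 17], [14, 16, 22, 23, 18], [14, 17, 23, 7, 24, 19], [14, 18, 24, 5, 4, 20], [14, 19, 4, 3, 2], [15, 12, 11, 10, 16], [16, 9, 8, 23, 17], [17, 22, 8, 7, 18], [18, 7, 6, 5, 19]], [(0, 8), (0, 7), (6, 4), (6, 3), (5, 4), (10, 3), (10, 2), (9, 3), (8, 2), (2, 4), (7, 3), (7, 2), (1, 3), (1, 2)], [(0, 1), (0, 3), (2, 4)]⟩, [(0, 1), (0, 2), (0, 3), (0, 4), (0, 5), (1, 5), (2, 6), (3, 3), (3, 4), (4, 5)], 0, (.cons 5 0xf (.cons 4 0xf0000f (.cons 3 0xf000f (.cons 9 0xff00f (.cons 8 0xf00000f00f (.cons 2 0xf0000f00f (.cons 1 0xf0f (.cons 7 0xff0 .nil .nil) .nil) .nil) .nil) .nil) (.cons 10 0xff0000 .nil .nil)) (.cons 6 0xf0000f .nil .nil)) .nil), 0, (.cons 2 0xf (.cons 1 0xf0f (.cons 7 0xff0 .nil .nil) (.cons 4 0xf0f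 (.cons 8 0xf0f0f (.cons 9 0xf000f0f0f (.cons 3 0xff000f0f0f .nil .nil) .nil) (.cons 5 0xf000f (.cons 6 0xf0000f .nil (.cons 10 0xff0000 .nil .nil)) .nil)) .nil)) .nil), [0, 0, 112, 0, 0, 120, 0, 0, 112, 0, 0, 120, 0, 0, 112, 0, 0, 112, 0, 0, 48, 0, 0]⟩,
  ⟨⟨14, [[15, 7, 19, 20, 21, 0, 16], [14, 16, 17, 18, 9, 8, 7], [14, 0, 13, 17, 15], [15, 16, 13, 12, 11, 18], [15, 17, 11, 10, 9], [14, 7, 6, 22, 23, 20], [14, 19, 23, 3, 24, 21], [14, 20, 24, 1, 0], [19, 6, 5, 4, 23], [19, 22, 4, 3, 20], [20, 3, 2, 1, 21]], [(7, 4), (10, 3), (10, 2), (9, 3), (8, 3), (8, 2), (5, 2), (1, 6), (1, 5), (4, 4), (4, 3), (3, 4), (3, 3), (2, 2)], [(1, 2), (3, 2), (3, 4)]⟩, [(0, 0), (0, 3), (0, 4), (1, 2), (1, 3), (5, 4), (5, 5), (6, 5)], 0, (.cons 1 0xf (.cons 2 0xff (.cons 3 0xff0 (.cons 4 0xf0f0 .nil .nil) .nil) .nil) (.cons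 6 0xf (.cons 5 0xf00000f (.cons 9 0xff00000 (.cons 8 0xf000f00000 .nil .nil) .nil) (.cons 7 0xf00000f (.cons 10 0xff000000 .nil .nil) .nil)) .nil)), 7, (.cons 1 0xf0000000 (.cons 3 0xf00000f0 (.cons 0 0xf000f0f0 (.cons 2 0xf0ff .nil (.cons 6 0xf000000f (.cons 5 0xf00000f (.cons 9 0xff00000 (.cons 8 0xf000f00000 .nil .nil) .nil) (.cons 10 0xff000000 .nil .nil)) .nil)) (.cons 4 0xf0f0 .nil .nil)) .nil) .nil), [0, 0, 124, 0, 0, 112, 0, 0, 48, 0, 0, 112, 0, 0, 120, 0, 0, 112, 0, 0, 60, 0, 0]⟩,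
  ⟨⟨14, [[15, 16, 17, 18, 19, 20, 21], [14, 21, 22, 2, 1, 0, 16], [14, 15, 0, 13, 12, 23, 17], [14, 16, 23, 24, 9, 18], [14, 17, 9, 8, 7, 19], [14, 18, 7, 6, 20], [14, 19, 6, 5, 21], [14, 20, 5, 4, 22, 15], [15, 21, 4, 3, 2], [16, 12, 11, 24, 17], [17, 23, 11, 10, 9]], [(1, 5), (1, 4), (8, 4), (8, 3), (7, 3), (6, 3), (5, 3), (4, 4), (4, 3), (10, 4), (10, 3), (9, 2), (2, 4), (2, 3)], [(3, 2), (9, 1)]⟩, [(0, 0), (0, 1), (0, 2), (0, 3), (0, 4), (0, 5), (0, 6), (1, 2), (2, 6), (3, 3)], 2, (.cons 3 0xf00 (.cons 0 0xff00 (.cons 4 0xff0f (.cons 5 0xf0f0f (.cons 6 0xf00f0f (.cons 7 0xf000f0f (.cons 1 0xf0000f0f (.cons 8 0xf00000f0 .nil .nil) .nil) .nil) .nil) .nil) .nil) (.cons 9 0xff00 (.cons 10 0xf00000f000 .nil .nil) .nil)) .nil), 1, (.cons 3 0xf0 (.cons 9 0xf0f0 (.cons 0 0xf00000f0f0 (.cons 2 0xf00000f0ff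 .nil (.cons 4 0xf0ff (.cons 5 0xf00ff (.cons 6 0xf000ff (.cons 7 0xf0000ff (.cons 8 0xf00000f0 .nil .nil) .nil) .nil) .nil) .nil)) (.cons 10 0xf00000f000 .nil .nil)) .nil) .nil), [0, 0, 112, 0, 0, 112, 0, 0, 120, 0, 0, 112, 0, 0, 112, 0, 0, 112, 0, 0]⟩,
  ⟨⟨14, [[15, 16, 17, 18, 19, 20, 1, 0], [14, 0, 21, 22, 23, 16], [14, 15, 23, 8, 7, 17], [14, 16, 7, 24, 18], [14, 17, 24, 5, 19], [14, 18, 5, 4, 3, 20], [14, 19, 3, 2, 1], [15, 0, 13, 12, 22], [15, 21, 12, 11, 10, 23], [15, 22, 10, 9, 8, 16], [17, 7, 6, 5, 18]], [(0, 7), (6, 4), (6, 3), (5, 4), (5, 3), (10, 3), (10, 2), (2, 4), (9, 4), (9, 3), (8, 4), (8, 3), (7, 3), (7, 2)], [(0, 0), (0, 2), (3, 2)]⟩, [(0, 1), (0, 2), (0, 3), (0, 4), (0, 5), (1, 3), (1, 4), (1, 5), (3, 4)], 0, (.cons 4 0xf (.cons 3 0xf000f (.cons 2 0xf00f (.cons 1 0xf0f (.cons 9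 0xff0 (.cons 8 0xf0000000f0 (.cons 7 0xf000000f0 .nil .nil) .nil) .nil) .nil) (.cons 10 0xff000 .nil .nil)) (.cons 5 0xf000f (.cons 6 0xf0000f .nil .nil) .nil)) .nil), 0, (.cons 3 0xf (.cons 1 0xf00f (.cons 8 0xf0ff (.cons 9 0xf0000f0ff (.cons 2 0xf00000f0ff .nil .nil) (.cons 7 0xf000000f0 .nil .nil)) .nil) (.cons 4 0xf00f (.cons 5 0xf000f (.cons 6 0xf0000f .nil .nil) (.cons 10 0xff000 .nil .nil)) .nil)) .nil), [0, 0, 112, 0, 0, 124, 0, 0, 112, 0, 0, 56, 0, 0, 120, 0, 0, 120, 0, 0, 96, 0, 0]⟩,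
  ⟨⟨14, [[15, 0, 19, 20, 21, 6, 16], [14, 16, 17, 18, 2, 1, 0], [14, 6, 5, 17, 15], [15, 16, 5, 4, 18], [15, 17, 4, 3, 2], [14, 0, 13, 12, 22, 23, 20], [14, 19, 23, 9, 24, 21], [14, 20, 24, 7, 6], [19, 12, 11, 10, 23], [19, 22, 10, 9, 20], [20, 9, 8, 7, 21]], [(1, 6), (1, 5), (4, 4), (4, 3), (3, 3), (2, 2), (7, 4), (10, 3), (10, 2), (9, 3), (8, 3), (8, 2), (5, 3), (5, 2)], [(0, 2), (5, 5), (9, 3)]⟩, [(0, 0), (0, 3), (0, 4), (1, 2), (1, 3), (5, 5), (5, 6), (6, 5)], 0, (.cons 1 0xf (.cons 2 0xff (.cons 3 0xff0 (.cons 4 0xf0f0 .nil .nil) .nil) .nil) (.cons 6 0xf (.cons 5 0xf00000f (.cons 9 0xff00000 (.cons 8 0xf000f00000 .nil .nil) .nil) (.cons 7 0xf00000f (.cons 10 0xff000000 .nil .nil) .nil)) .nil)), 1, (.cons 0 0xf0 (.cons 2 0xff (.cons 3 0xff0 (.cons 4 0xf0f0 .nil .nil) .nil) (.cons 5 0xf (.cons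 9 0xf0000f (.cons 6 0xf000f0000f (.cons 7 0xf00000f (.cons 10 0xff000000 .nil .nil) .nil) (.cons 8 0xf000f00000 .nil .nil)) .nil) .nil)) .nil), [0, 0, 112, 0, 0, 112, 0, 0, 112, 0, 0, 112, 0, 0, 120, 0, 0, 112, 0, 120, 0]⟩,
  ⟨⟨14, [[15, 7, 19, 20, 21, 0, 16], [14, 16, 17, 18, 9, 8, 7], [14, 0, 13, 17, 15], [15, 16, 13, 12, 11, 18], [15, 17, 11, 10, 9], [14, 7, 6, 5, 22, 20], [14, 19, 22, 23, 21], [14, 20, 23, 24, 2, 1, 0], [19, 5, 4, 23, 20], [20, 22, 4, 24, 21], [21, 23, 4, 3, 2]], [(7, 6), (7, 5), (10, 4), (10, 3), (8, 2), (5, 3), (5, 2), (1, 6), (1, 5), (4, 4), (4, 3), (3, 4), (3, 3), (2, 2)], [(1, 2), (3, 2), (3, 4)]⟩, [(0, 0), (0, 3), (0, 4), (1, 2), (1, 3), (5, 5), (6, 3), (6, 4), (7, 3)], 0, (.cons 1 0xf (.cons 2 0xff (.cons 3 0xff0 (.cons 4 0xf0f0 .nil .nil) .nil) .nil) (.cons 5 0xf (.cons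 6 0xf0000f (.cons 8 0xff0000f (.cons 9 0xf0f00000f (.cons 7 0xf00f00000f (.cons 10 0xf0f0000000 .nil .nil) .nil) .nil) .nil) .nil) .nil)), 7, (.cons 1 0xf0000000 (.cons 3 0xf00000f0 (.cons 0 0xf000f0f0 (.cons 2 0xf0ff .nil (.cons 6 0xf000000f (.cons 5 0xff00000f (.cons 8 0xfff00000 (.cons 9 0xfff000000 (.cons 10 0xf0f0000000 .nil .nil) .nil) .nil) .nil) .nil)) (.cons 4 0xf0f0 .nil .nil)) .nil) .nil), [0, 0, 124, 0, 0, 112, 0, 0, 120, 0, 0, 112, 0, 0, 120, 0, 0, 52, 0, 0, 120, 0]⟩,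
  ⟨⟨14, [[15, 7, 19, 20, 21, 0, 16], [14, 16, 17, 18, 9, 8, 7], [14, 0, 13, 12, 17, 15], [15, 16, 12, 11, 18], [15, 17, 11, 10, 9], [14, 7, 6, 5, 22, 20], [14, 19, 22, 23, 21], [14, 20, 23, 24, 2, 1, 0], [19, 5, 4, 23, 20], [20, 22, 4, 24, 21], [21, 23, 4, 3, 2]], [(7, 6), (7, 5), (10, 4), (10, 3), (8, 2), (5, 3), (5, 2), (1, 6), (1, 5), (4, 4), (4, 3), (3, 3), (2, 3), (2, 2)], [(1, 1), (2, 1), (2, 3)]⟩, [(0, 0), (0, 3), (0, 4), (1, 2), (1, 3), (5, 5), (6, 3), (6, 4), (7, 3)], 0, (.cons 1 0xf (.cons 2 0xff (.cons 3 0xff0 (.cons 4 0xf0f0 .nil .nil) .nil) .nil) (.cons 5 0xf (.cons 6 0xf0000f (.cons 8 0xff0000f (.cons 9 0xf0f00000f (.cons 7 0xf00f00000f (.cons 10 0xf0f0000000 .nil .nil) .nil) .nil) .nil) .nil) .nil)), 7, (.cons 1 0xf0000000 (.cons 2 0xf00000f0 (.cons 0 0xf0000ff0 (.cons 6 0xf000000f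 (.cons 5 0xff00000f (.cons 8 0xfff00000 (.cons 9 0xfff000000 (.cons 10 0xf0f0000000 .nil .nil) .nil) .nil) .nil) .nil) (.cons 3 0xff0 (.cons 4 0xf0f0 .nil .nil) .nil)) .nil) .nil), [0, 0, 120, 0, 0, 120, 0, 0, 120, 0, 0, 120, 0, 0, 40, 0, 0, 112, 0, 0, 120, 0]⟩,
  ⟨⟨14, [[15, 7, 20, 21, 0, 16], [14, 16, 17, 18, 19, 8, 7], [14, 0, 13, 12, 17, 15], [15, 16, 12, 11, 18], [15, 17, 11, 10, 19], [15, 18, 10, 9, 8], [14, 7, 6, 22, 23, 24, 21], [14, 20, 24, 2, 1, 0], [20, 6, 5, 4, 23], [20, 22, 4, 3, 24], [20, 23, 3, 2, 21]], [(7, 5), (7, 4), (10, 3), (9, 3), (8, 3), (8, 2), (6, 2), (1, 6), (5, 4), (5, 3), (4, 3), (3, 3), (2, 3), (2, 2)], [(0, 1), (0, 3), (0, 5)]⟩, [(0, 0), (0, 3), (1, 2), (1, 3), (1, 4), (6, 4), (6, 5), (6, 6)], 0, (.cons 1 0xf (.cons 2 0xff (.cons 3 0xff0 (.cons 4 0xf0f0 (.cons 5 0xf00f0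 .nil .nil) .nil) .nil) .nil) (.cons 6 0xf (.cons 7 0xf00000f (.cons 10 0xff000000 (.cons 9 0xf000f000000 (.cons 8 0xf00f000000 .nil .nil) .nil) .nil) .nil) .nil)), 7, (.cons 0 0xf0000000 (.cons 2 0xf (.cons 3 0xf0f (.cons 4 0xff0f (.cons 1 0xfff0f (.cons 5 0xf00f0 .nil .nil) .nil) .nil) .nil) (.cons 6 0xf000000f (.cons 10 0xff000000 (.cons 9 0xf000f000000 (.cons 8 0xf00f000000 .nil .nil) .nil) .nil) .nil)) .nil), [0, 0, 120, 0, 0, 112, 0, 0, 112, 0, 0, 120, 0, 0, 112, 0, 0, 96, 0, 0, 48, 0, 0]⟩,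
  ⟨⟨14, [[15, 16, 17, 18, 19, 20, 2, 1, 0], [14, 0, 13, 12, 21, 16], [14, 15, 21, 22, 17], [14, 16, 22, 23, 18], [14, 17, 23, 8, 24, 19], [14, 18, 24, 6, 5, 4, 20], [14, 19, 4, 3, 2], [15, 12, 11, 10, 22, 16], [16, 21, 10, 23, 17], [17, 22, 10, 9, 8, 18], [18, 8, 7, 6, 19]], [(0, 8), (0, 7), (6, 4), (6, 3), (5, 5), (5, 4), (10, 3), (10, 2), (9, 4), (9, 3), (7, 3), (7, 2), (1, 3), (1, 2)], [(1, 5)]⟩, [(0, 1), (0, 2), (0, 3), (0, 4), (0, 5), (1, 5), (2, 3), (2, 4), (3, 3), (3, 4), (4, 5)], 0, (.cons 5 0xf (.cons 4 0xf0000f (.cons 3 0xf000f (.cons 9 0xff00f (.cons 8 0xf00000f00f (.cons 2 0xf0000f00f (.cons 7 0xf00000f0f (.cons 1 0xf0000f0f .nil .nil) .nil) .nil) .nil) .nil) (.cons 10 0xff0000 .nil .nil)) (.cons 6 0xf0000f .nil .nil)) .nil), 0, (.cons 1 0xf (.cons 2 0xff (.cons 3 0xfff (.cons 8 0xffff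 (.cons 9 0xf0000f00f (.cons 4 0xf00000f00f (.cons 5 0xf000f (.cons 6 0xf0000f .nil (.cons 10 0xff0000 .nil .nil)) .nil) .nil) (.cons 7 0xf00000ff0 .nil .nil)) .nil) .nil) .nil) .nil), [0, 0, 120, 0, 0, 120, 0, 0, 120, 0, 0, 120, 0, 0, 112, 0, 0, 56, 0, 0, 112, 0]⟩,
  ⟨⟨14, [[15, 0, 21, 22, 16], [14, 16, 17, 18, 19, 20, 1, 0], [14, 22, 8, 7, 6, 17, 15], [15, 16, 6, 5, 18], [15, 17, 5, 4, 19], [15, 18, 4, 3, 20], [15, 19, 3, 2, 1], [14, 0, 13, 23, 22], [14, 21, 23, 24, 10, 9, 8, 16], [21, 13, 12, 24, 22], [22, 23, 12, 11, 10]], [(1, 7), (6, 4), (6, 3), (5, 3), (4, 3), (3, 3), (2, 4), (2, 3), (8, 6), (8, 5), (10, 4), (10, 3), (9, 2), (7, 2)], [(1, 0)]⟩, [(0, 0), (0, 3), (0, 4), (1, 2), (1, 3), (1, 4), (1, 5), (7, 4), (8, 3)], 1, (.cons 2 0xf0 (.cons 0 0xff0 (.cons 8 0xf0f (.cons 7 0xf0000000f (.cons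 9 0xff0000000 (.cons 10 0xff00000000 .nil .nil) .nil) .nil) .nil) (.cons 3 0xff0 (.cons 4 0xf0f0 (.cons 5 0xf00f0 (.cons 6 0xf000f0 .nil .nil) .nil) .nil) .nil)) .nil), 1, (.cons 0 0xf0 (.cons 2 0xff (.cons 3 0xff0 (.cons 4 0xf0f0 (.cons 5 0xf00f0 (.cons 6 0xf000f0 .nil .nil) .nil) .nil) (.cons 8 0xf0f (.cons 9 0xf0000000f (.cons 7 0xff0000000f .nil (.cons 10 0xff00000000 .nil .nil)) .nil) .nil)) .nil) .nil), [0, 0, 124, 0, 0, 112, 0, 0, 112, 0, 0, 112, 0, 0, 120, 0, 0, 96, 0, 0, 56, 0, 0]⟩]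

noncomputable def jobs26 : List Job := [⟨⟨14, [[15, 16, 17, 18, 19, 2, 1, 0], [14, 0, 13, 12, 16], [14, 15, 12, 11, 10, 20, 17], [14, 16, 20, 21, 22, 23, 18], [14, 17, 23, 5, 4, 19], [14, 18, 4, 3, 2], [16, 10, 9, 21, 17], [17, 20, 9, 8, 22], [17, 21, 8, 7, 23], [17, 22, 7, 6, 5, 18]], [(0, 7), (0, 6), (5, 4), (5, 3), (4, 4), (9, 4), (9, 3), (8, 3), (7, 3), (6, 2), (2, 4), (2, 3), (1, 3), (1, 2)], [(6, 3), (7, 3), (8, 4)]⟩, [(0, 1), (0, 2), (0, 3), (0, 4), (2, 6), (3, 3), (3, 4), (3, 5), (3, 6)], 0, (.cons 2 0xf (.cons 1 0xf0f .nil (.cons 3 0xf0f (.cons 6 0xff0f (.cons 7 0xf00f00f (.cons 8 0xf000f00f (.cons 9 0xf0000f00f (.cons 4 0xf00000f00f (.cons 5 0xf000f .nil .nil) .nil) .nil) .nil) .nil) .nil) .nil)) .nil), 0, (.cons 2 0xf (.cons 1 0xf0f .nil (.cons 3 0xf0f (.cons 6 0xff0f (.cons 7 0xf00f00f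 (.cons 8 0xf000f00f (.cons 9 0xf0000f00f (.cons 4 0xf00000f00f (.cons 5 0xf000f .nil .nil) .nil) .nil) .nil) .nil) .nil) .nil)) .nil), [0, 0, 112, 0, 0, 120, 0, 0, 120, 0, 0, 120, 0, 0, 112, 0, 0, 48, 0, 0, 112, 0, 0]⟩,
  ⟨⟨14, [[15, 1, 0, 20, 21, 22, 16], [14, 16, 17, 18, 19, 2, 1], [14, 22, 23, 9, 8, 17, 15], [15, 16, 8, 7, 6, 18], [15, 17, 6, 5, 4, 19], [15, 18, 4, 3, 2], [14, 0, 13, 12, 21], [14, 20, 12, 11, 24, 22], [14, 21, 24, 23, 16], [22, 24, 10, 9, 16], [21, 11, 10, 23, 22]], [(0, 2), (1, 6), (5, 4), (5, 3), (4, 4), (4, 3), (3, 4), (3, 3), (2, 4), (9, 3), (10, 2), (7, 3), (6, 3), (6, 2)], [(1, 0)]⟩, [(0, 0), (0, 4), (0, 5), (0, 6), (1, 2), (1, 3), (1, 4), (7, 5), (8, 3), (8, 4)], 0, (.cons 2 0xf (.cons 1 0xf0f (.cons 3 0xff0 (.cons 4 0xf0f0 (.cons 5 0xf00f0 .nil .nil) .nil) .nil) (.cons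 8 0xf0f (.cons 9 0xf00000f0f (.cons 10 0xff0000000f (.cons 7 0xf0f0000000f (.cons 6 0xf000000f .nil .nil) .nil) .nil) .nil) .nil)) .nil), 0, (.cons 1 0xf (.cons 2 0xff (.cons 3 0xff0 (.cons 4 0xf0f0 (.cons 5 0xf00f0 .nil .nil) .nil) (.cons 8 0xf0f (.cons 9 0xf00000f0f (.cons 10 0xff0000000f (.cons 7 0xf0f0000000f (.cons 6 0xf000000f .nil .nil) .nil) .nil) .nil) .nil)) .nil) .nil), [0, 0, 112, 0, 0, 120, 0, 0, 48, 0, 0, 112, 0, 0, 120, 0, 0, 112, 0, 0, 112, 0, 0]⟩,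
  ⟨⟨14, [[15, 16, 17, 18, 19, 20, 1, 0], [14, 0, 13, 12, 21, 22, 16], [14, 15, 22, 8, 7, 23, 17], [14, 16, 23, 24, 18], [14, 17, 24, 5, 4, 19], [14, 18, 4, 3, 20], [14, 19, 3, 2, 1], [15, 12, 11, 10, 22], [15, 21, 10, 9, 8, 16], [16, 7, 6, 24, 17], [17, 23, 6, 5, 18]], [(0, 7), (6, 4), (6, 3), (5, 3), (4, 4), (10, 3), (9, 2), (2, 4), (8, 4), (8, 3), (7, 3), (7, 2), (1, 3), (1, 2)], [(0, 5)]⟩, [(0, 1), (0, 2), (0, 3), (0, 4), (0, 5), (1, 5), (1, 6), (2, 6), (3, 3), (3, 4)], 0, (.cons 2 0xf (.cons 1 0xf0f (.cons 8 0xff0 (.cons 7 0xf000000f0 .nil .nil) .nil) (.cons 3 0xf0f (.cons 9 0xff0f (.cons 10 0xf00000f00f (.cons 4 0xf000000f00f (.cons 5 0xf000f (.cons 6 0xf0000f .nil .nil) .nil) .nil) .nil) .nil) .nil)) .nil), 0, (.cons 6 0xf (.cons 2 0xf00000f (.cons 1 0xf0f (.cons 8 0xff0 (.cons 7 0xf000000f0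 .nil .nil) .nil) (.cons 3 0xf000f0f (.cons 9 0xf00ff0f (.cons 10 0xf00f00f00f (.cons 4 0xf000f00f00f (.cons 5 0xf0f000f .nil .nil) .nil) .nil) .nil) .nil)) .nil) .nil), [0, 0, 120, 0, 0, 120, 0, 0, 120, 0, 0, 120, 0, 0, 112, 0, 0, 56, 0, 0, 112, 0, 0]⟩,
  ⟨⟨14, [[15, 16, 17, 18, 19, 2, 1, 0], [14, 0, 13, 12, 20, 21, 16], [14, 15, 21, 22, 17], [14, 16, 22, 23, 18], [14, 17, 23, 7, 6, 24, 19], [14, 18, 24, 4, 3, 2], [15, 12, 11, 10, 21], [15, 20, 10, 9, 22, 16], [16, 21, 9, 23, 17], [17, 22, 9, 8, 7, 18], [18, 6, 5, 4, 19]], [(0, 7), (0, 6), (5, 5), (5, 4), (10, 3), (10, 2), (4, 4), (9, 4), (9, 3), (7, 3), (6, 3), (6, 2), (1, 3), (1, 2)], [(0, 0), (1, 3), (1, 5)]⟩, [(0, 1), (0, 2), (0, 3), (0, 4), (1, 5), (1, 6), (2, 3), (2, 4), (3, 3), (3, 4), (4, 6)], 0, (.cons 4 0xf (.cons 3 0xf000f (.cons 9 0xff00f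 (.cons 8 0xf00000f00f (.cons 2 0xf0000f00f (.cons 7 0xf00000f0f (.cons 1 0xf0000f0f (.cons 6 0xf00000f0 .nil .nil) .nil) .nil) .nil) .nil) .nil) (.cons 5 0xf000f (.cons 10 0xff0000 .nil .nil) .nil)) .nil), 0, (.cons 1 0xf (.cons 7 0xff (.cons 4 0xf00000ff (.cons 3 0xf00f00ff (.cons 9 0xf00ff0ff (.cons 8 0xf0f000f0ff (.cons 2 0xff000f0ff .nil .nil) .nil) .nil) (.cons 5 0xf000f (.cons 10 0xff0000 .nil .nil) .nil)) (.cons 6 0xf00000f0 .nil .nil)) .nil) .nil), [0, 0, 120, 0, 0, 112, 0, 0, 120, 0, 0, 112, 0, 0, 112, 0, 0, 120, 0, 0, 112, 0]⟩,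
  ⟨⟨14, [[15, 7, 19, 20, 21, 0, 16], [14, 16, 17, 18, 9, 8, 7], [14, 0, 13, 17, 15], [15, 16, 13, 12, 11, 18], [15, 17, 11, 10, 9], [14, 7, 6, 5, 22, 23, 20], [14, 19, 23, 24, 21], [14, 20, 24, 1, 0], [19, 5, 4, 3, 23], [19, 22, 3, 2, 24, 20], [20, 23, 2, 1, 21]], [(7, 4), (10, 3), (9, 3), (8, 3), (8, 2), (5, 3), (5, 2), (1, 6), (1, 5), (4, 4), (4, 3), (3, 4), (3, 3), (2, 2)], [(1, 2), (3, 2), (3, 4)]⟩, [(0, 0), (0, 3), (0, 4), (1, 2), (1, 3), (5, 5), (5, 6), (6, 3), (6, 4)], 0, (.cons 1 0xf (.cons 2 0xff (.cons 3 0xff0 (.cons 4 0xf0f0 .nil .nil) .nil) .nil) (.cons 5 0xf (.cons 6 0xf0000f (.cons 9 0xff0000f (.cons 10 0xf00f00000f (.cons 7 0xf000f00000f .nil .nil) (.cons 8 0xf000f00000 .nil .nil)) .nil) .nil) .nil)), 7, (.cons 1 0xf0000000 (.cons 3 0xf00000f0 (.cons 0 0xf000f0f0 (.cons 2 0xf0ff .nil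 (.cons 6 0xf000000f (.cons 5 0xff00000f (.cons 9 0xfff00000 (.cons 8 0xf000f00000 .nil (.cons 10 0xf0ff000000 .nil .nil)) .nil) .nil) .nil)) (.cons 4 0xf0f0 .nil .nil)) .nil) .nil), [0, 0, 120, 0, 0, 120, 0, 0, 120, 0, 0, 112, 0, 0, 120, 0, 0, 104, 0, 0, 48, 0, 0]⟩,
  ⟨⟨14, [[15, 16, 1, 0, 20, 21, 17], [14, 17, 18, 19, 5, 4, 3, 16], [14, 15, 3, 2, 1], [14, 21, 9, 18, 15], [15, 17, 9, 8, 7, 19], [15, 18, 7, 6, 5], [14, 0, 13, 22, 21], [14, 20, 22, 23, 10, 9, 17], [20, 13, 12, 23, 21], [21, 22, 12, 11, 10]], [(0, 3), (2, 4), (2, 3), (1, 6), (1, 5), (5, 4), (5, 3), (4, 4), (4, 3), (7, 5), (9, 4), (9, 3), (8, 2), (6, 2)], [(1, 2), (4, 2), (4, 4)]⟩, [(0, 0), (0, 1), (0, 5), (0, 6), (1, 2), (1, 3), (6, 4), (7, 3)], 0, (.cons 3 0xf (.cons 1 0xf00f (.cons 2 0xff .nil (.cons 4 0xf0f0 (.cons 5 0xf00f0 .nil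 .nil) .nil)) (.cons 7 0xf00f (.cons 6 0xf000000f (.cons 8 0xff000000 (.cons 9 0xff0000000 .nil .nil) .nil) .nil) .nil)) .nil), 0, (.cons 1 0xf (.cons 2 0xff .nil (.cons 4 0xff (.cons 3 0xf00ff (.cons 7 0xf00f (.cons 6 0xf000000f (.cons 8 0xff000000 (.cons 9 0xff0000000 .nil .nil) .nil) .nil) .nil) (.cons 5 0xf00f0 .nil .nil)) .nil)) .nil), [0, 0, 112, 0, 0, 120, 0, 0, 120, 0, 0, 92, 0, 0, 120, 0, 0, 112, 0, 0, 56, 0, 0, 48, 0, 0]⟩,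
  ⟨⟨14, [[15, 16, 17, 18, 19, 20, 1, 0], [14, 0, 13, 12, 21, 22, 16], [14, 15, 22, 8, 7, 17], [14, 16, 7, 6, 18], [14, 17, 6, 5, 19], [14, 18, 5, 4, 23, 20], [14, 19, 23, 2, 1], [15, 12, 11, 10, 22], [15, 21, 10, 9, 8, 16], [19, 4, 3, 2, 20]], [(0, 7), (6, 4), (9, 3), (9, 2), (5, 3), (4, 3), (3, 3), (2, 4), (8, 4), (8, 3), (7, 3), (7, 2), (1, 3), (1, 2)], [(0, 3), (4, 3)]⟩, [(0, 1), (0, 2), (0, 3), (0, 4), (0, 5), (1, 5), (1, 6), (5, 5)], 0, (.cons 2 0xf (.cons 1 0xf0f (.cons 8 0xff0 (.cons 7 0xf000000f0 .nil .nil) .nil) (.cons 3 0xf0f (.cons 4 0xf00f (.cons 5 0xf000f (.cons 6 0xf0000f (.cons 9 0xff00000 .nil .nil) .nil) .nil) .nil) .nil)) .nil), 0, (.cons 4 0xf (.cons 2 0xf000f (.cons 1 0xf0f (.cons 8 0xff0 (.cons 7 0xf000000f0 .nil .nil) .nil) (.cons 3 0xf0f0f .nil .nil)) (.cons 5 0xf000f (.cons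 6 0xf0000f (.cons 9 0xff00000 .nil .nil) .nil) .nil)) .nil), [0, 0, 116, 0, 0, 112, 0, 0, 120, 0, 0, 120, 0, 0, 120, 0, 0, 112, 0, 0, 36, 0, 0, 56, 0, 0]⟩,
  ⟨⟨14, [[15, 8, 7, 6, 20, 16], [14, 16, 17, 18, 19, 10, 9, 8], [14, 20, 21, 1, 0, 17, 15], [15, 16, 0, 13, 18], [15, 17, 13, 12, 19], [15, 18, 12, 11, 10], [14, 6, 22, 23, 21, 16], [20, 23, 3, 2, 1, 16], [20, 6, 5, 4, 23], [20, 22, 4, 3, 21]], [(2, 4), (7, 4), (7, 3), (9, 3), (8, 3), (8, 2), (0, 3), (0, 2), (1, 7), (1, 6), (5, 4), (5, 3), (4, 3), (3, 3)], [(0, 1), (0, 3), (0, 5)]⟩, [(0, 0), (0, 5), (1, 2), (1, 3), (1, 4), (6, 3), (6, 4), (6, 5)], 2, (.cons 0 0xf00 (.cons 1 0xf0f (.cons 3 0xff0 (.cons 4 0xf0f0 (.cons 5 0xf00f0 .nil .nil) .nil) .nil) (.cons 6 0xf0f (.cons 7 0xf000f00 (.cons 9 0xff000000 (.cons 8 0xf00f000000 .nil .nil) .nil) .nil)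 .nil)) .nil), 2, (.cons 0 0xf00 (.cons 1 0xf0f (.cons 3 0xff0 (.cons 4 0xf0f0 (.cons 5 0xf00f0 .nil .nil) .nil) .nil) (.cons 6 0xf0f (.cons 7 0xf000f00 (.cons 9 0xff000000 (.cons 8 0xf00f000000 .nil .nil) .nil) .nil) .nil)) .nil), [0, 0, 120, 0, 0, 120, 0, 0, 112, 0, 0, 120, 0, 0, 120, 0, 0, 112, 0, 0, 120, 0, 56, 0]⟩,
  ⟨⟨14, [[15, 0, 19, 20, 21, 7, 16], [14, 16, 17, 18, 2, 1, 0], [14, 7, 6, 17, 15], [15, 16, 6, 5, 4, 18], [15, 17, 4, 3, 2], [14, 0, 13, 22, 20], [14, 19, 22, 23, 21], [14, 20, 23, 24, 9, 8, 7], [19, 13, 12, 23, 20], [20, 22, 12, 11, 24, 21], [21, 23, 11, 10, 9]], [(1, 6), (1, 5), (4, 4), (4, 3), (3, 4), (3, 3), (2, 2), (7, 6), (7, 5), (10, 4), (10, 3), (9, 3), (8, 2), (5, 2)], [(1, 0), (2, 1), (2, 3)]⟩, [(0, 0), (0, 3), (0, 4), (1, 2), (1, 3), (5, 4), (6, 3), (6, 4), (7, 3)], 0, (.cons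 1 0xf (.cons 2 0xff (.cons 3 0xff0 (.cons 4 0xf0f0 .nil .nil) .nil) .nil) (.cons 5 0xf (.cons 6 0xf0000f (.cons 8 0xff0000f (.cons 9 0xf0f00000f (.cons 7 0xf00f00000f (.cons 10 0xf0f0000000 .nil .nil) .nil) .nil) .nil) .nil) .nil)), 1, (.cons 0 0xf0 (.cons 2 0xff (.cons 3 0xff0 (.cons 4 0xf0f0 .nil .nil) .nil) (.cons 5 0xf (.cons 6 0xf0000f (.cons 8 0xff0000f (.cons 9 0xf0f00000f (.cons 7 0xf00f00000f (.cons 10 0xf0f0000000 .nil .nil) .nil) .nil) .nil) .nil) .nil)) .nil), [0, 0, 120, 0, 0, 112, 0, 0, 120, 0, 0, 112, 0, 0, 56, 0, 112, 0, 0, 56, 0, 0, 96, 0, 0]⟩,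
  ⟨⟨14, [[15, 16, 17, 18, 19, 20, 1, 0], [14, 0, 13, 21, 16], [14, 15, 21, 11, 10, 22, 17], [14, 16, 22, 23, 18], [14, 17, 23, 8, 7, 24, 19], [14, 18, 24, 5, 4, 3, 20], [14, 19, 3, 2, 1], [15, 13, 12, 11, 16], [16, 10, 9, 23, 17], [17, 22, 9, 8, 18], [18, 7, 6, 5, 19]], [(0, 7), (6, 4), (6, 3), (5, 5), (5, 4), (10, 3), (10, 2), (4, 4), (9, 3), (8, 2), (2, 4), (7, 3), (7, 2), (1, 2)], [(0, 2), (4, 2), (9, 2)]⟩, [(0, 1), (0, 2), (0, 3), (0, 4), (0, 5), (1, 4), (2, 6), (3, 3), (3, 4), (4, 6)], 0, (.cons 5 0xf (.cons 4 0xf0000f (.cons 3 0xf000f (.cons 9 0xff00f (.cons 8 0xf00000f00f (.cons 2 0xf0000f00f (.cons 1 0xf0f (.cons 7 0xff0 .nil .nil) .nil) .nil) .nil) .nil) (.cons 10 0xff0000 .nil .nil)) (.cons 6 0xf0000f .nil .nil)) .nil), 0, (.cons 3 0xf (.cons 2 0xf00f (.cons 1 0xf0f (.cons 7 0xff0 .nil .nil)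 (.cons 8 0xff0f (.cons 9 0xf0000f00f (.cons 4 0xf00000f00f (.cons 5 0xf000f (.cons 6 0xf0000f .nil (.cons 10 0xff0000 .nil .nil)) .nil) .nil) .nil) .nil)) .nil) .nil), [0, 0, 120, 0, 0, 120, 0, 0, 60, 0, 0, 112, 0, 0, 56, 0, 0, 112, 0, 0, 112, 0, 0, 112, 0, 0]⟩,
  ⟨⟨14, [[15, 16, 17, 18, 19, 2, 1, 0], [14, 0, 13, 12, 20, 21, 22, 16], [14, 15, 22, 23, 17], [14, 16, 23, 8, 24, 18], [14, 17, 24, 6, 5, 4, 19], [14, 18, 4, 3, 2], [15, 12, 11, 10, 21], [15, 20, 10, 9, 22], [15, 21, 9, 23, 16], [16, 22, 9, 8, 17], [17, 8, 7, 6, 18]], [(0, 7), (0, 6), (5, 4), (5, 3), (4, 5), (4, 4), (10, 3), (10, 2), (9, 3), (7, 3), (6, 3), (6, 2), (1, 3), (1, 2)], [(1, 5), (7, 3)]⟩, [(0, 1), (0, 2), (0, 3), (0, 4), (1, 5), (1, 6), (1, 7), (2, 3), (2, 4), (3, 5)], 0, (.cons 4 0xf (.cons 3 0xf000f (.cons 2 0xf00f (.cons 9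 0xff0f (.cons 8 0xf000000f0f (.cons 1 0xf00000f0f (.cons 7 0xf000000f0 (.cons 6 0xf00000f0 .nil .nil) .nil) .nil) .nil) .nil) (.cons 10 0xff000 .nil .nil)) (.cons 5 0xf000f .nil .nil)) .nil), 0, (.cons 1 0xf (.cons 7 0xff (.cons 2 0xf00000ff (.cons 8 0xf0000fff (.cons 9 0xf00000f0f (.cons 3 0xf000000f0f (.cons 4 0xf00f (.cons 5 0xf000f .nil (.cons 10 0xff000 .nil .nil)) .nil) .nil) .nil) .nil) (.cons 6 0xf00000f0 .nil .nil)) .nil) .nil), [0, 0, 120, 0, 0, 120, 0, 0, 112, 0, 0, 120, 0, 0, 120, 0, 0, 112, 0, 0, 112, 0, 0]⟩,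
  ⟨⟨14, [[15, 16, 17, 18, 19, 20, 11], [14, 11, 10, 21, 16], [14, 15, 21, 8, 7, 17], [14, 16, 7, 6, 22, 23, 18], [14, 17, 23, 2, 1, 0, 19], [14, 18, 0, 24, 20], [14, 19, 24, 12, 11], [15, 10, 9, 8, 16], [17, 6, 5, 4, 23], [17, 22, 4, 3, 2, 18], [19, 0, 13, 12, 20]], [(4, 5), (4, 4), (9, 4), (9, 3), (8, 3), (8, 2), (3, 3), (2, 4), (7, 3), (7, 2), (1, 2), (6, 4), (10, 3), (10, 2)], [(0, 1), (0, 3), (0, 6)]⟩, [(0, 1), (0, 2), (0, 3), (0, 4), (0, 5), (1, 4), (3, 5), (3, 6), (5, 4)], 4, (.cons 0 0xf0000 (.cons 3 0xf000f (.cons 2 0xf00f (.cons 1 0xf0f (.cons 7 0xff0 .nil .nil) .nil) (.cons 9 0xff000 (.cons 8 0xf00000f000 .nil .nil) .nil)) (.cons 5 0xf000f (.cons 6 0xf0000f (.cons 10 0xff00000 .nil .nil) .nil) .nil)) .nil), 4, (.cons 0 0xf0000 (.cons 2 0xf000f (.cons 7 0xf0f (.cons 1 0xf0000f0f .nil .nil)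 (.cons 3 0xf0f0f (.cons 9 0xff000 (.cons 8 0xf00000f000 .nil .nil) .nil) .nil)) (.cons 5 0xf000f (.cons 6 0xf0000f (.cons 10 0xff00000 .nil .nil) .nil) .nil)) .nil), [0, 0, 120, 0, 0, 120, 0, 0, 124, 0, 0, 120, 0, 0, 100, 0, 0, 112, 0, 0, 124, 0, 0, 64]⟩,
  ⟨⟨14, [[15, 8, 20, 21, 4, 22, 23, 16], [14, 16, 17, 18, 19, 10, 9, 8], [14, 23, 1, 0, 17, 15], [15, 16, 0, 13, 18], [15, 17, 13, 12, 19], [15, 18, 12, 11, 10], [14, 8, 7, 24, 21], [14, 20, 24, 5, 4], [14, 4, 3, 25, 23], [14, 22, 25, 1, 16], [20, 7, 6, 5, 21], [22, 3, 2, 1, 23]], [(2, 3), (11, 3), (11, 2), (8, 2), (7, 4), (10, 3), (10, 2), (6, 2), (1, 7), (1, 6), (5, 4), (5, 3), (4, 3), (3, 3)], [(0, 1), (0, 4), (0, 7)]⟩, [(0, 0), (0, 3), (0, 6), (0, 7), (1, 2), (1, 3), (1, 4), (6, 4), (8, 4)], 2, (.cons 0 0xf00 (.cons 1 0xf0f (.cons 3 0xff0 (.cons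 4 0xf0f0 (.cons 5 0xf00f0 .nil .nil) .nil) .nil) (.cons 6 0xf (.cons 7 0xf00000f (.cons 10 0xff000000 .nil .nil) .nil) (.cons 9 0xf0f (.cons 8 0xf00000000f (.cons 11 0xff00000000 .nil .nil) .nil) .nil))) .nil), 2, (.cons 0 0xf00 (.cons 1 0xf0f (.cons 3 0xff0 (.cons 4 0xf0f0 (.cons 5 0xf00f0 .nil .nil) .nil) .nil) (.cons 6 0xf (.cons 10 0xf00000f (.cons 7 0xf000f00000f .nil .nil) .nil) (.cons 8 0xf0f (.cons 9 0xf00000f0f (.cons 11 0xff00000000 .nil .nil) .nil) .nil))) .nil), [0, 0, 120, 0, 0, 112, 0, 0, 120, 0, 0, 120, 0, 0, 112, 0, 0, 112, 0, 0, 120, 0, 16, 0]⟩,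
  ⟨⟨14, [[15, 5, 19, 20, 0, 21, 16], [14, 16, 17, 18, 7, 6, 5], [14, 21, 22, 10, 17, 15], [15, 16, 10, 9, 18], [15, 17, 9, 8, 7], [14, 5, 4, 3, 23, 20], [14, 19, 23, 1, 0], [14, 0, 13, 24, 22, 16], [21, 24, 11, 10, 16], [19, 3, 2, 1, 20], [21, 13, 12, 11, 22]], [(6, 4), (9, 3), (9, 2), (5, 3), (5, 2), (1, 6), (1, 5), (4, 4), (4, 3), (3, 3), (8, 3), (10, 3), (10, 2), (7, 2)], [(0, 4), (0, 6)]⟩, [(0, 0), (0, 3), (0, 6), (1, 2), (1, 3), (5, 5), (7, 4), (7, 5)], 0, (.cons 2 0xf (.cons 1 0xf0f (.cons 3 0xff0 (.cons 4 0xf0f0 .nil .nil) .nil) (.cons 7 0xf0f (.cons 8 0xf0000f00 (.cons 10 0xff0000000 .nil .nil) .nil) .nil)) (.cons 5 0xf (.cons 6 0xf0000f (.cons 9 0xff00000 .nil .nil) .nil) .nil)), 6, (.cons 0 0xf000000 (.cons 2 0xf (.cons 3 0xf0f (.cons 1 0xff0f (.cons 4 0xf0f0 .nil .nil) .nil) (.cons 8 0xf0f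 (.cons 7 0xf00000f0f (.cons 10 0xff0000000 .nil .nil) .nil) .nil)) (.cons 5 0xf00000f (.cons 9 0xff00000 .nil .nil) .nil)) .nil), [0, 0, 112, 0, 0, 120, 0, 0, 120, 0, 0, 116, 0, 0, 120, 0, 0, 112, 0, 0, 40, 0, 0, 48, 0, 0]⟩,
  ⟨⟨14, [[15, 16, 17, 18, 19, 20, 4], [14, 4, 3, 21, 16], [14, 15, 21, 1, 0, 22, 17], [14, 16, 22, 12, 11, 10, 18], [14, 17, 10, 23, 19], [14, 18, 23, 8, 7, 6, 20], [14, 19, 6, 5, 4], [15, 3, 2, 1, 16], [16, 0, 13, 12, 17], [18, 10, 9, 8, 19]], [(2, 4), (7, 3), (7, 2), (1, 2), (6, 4), (6, 3), (5, 5), (5, 4), (9, 3), (9, 2), (3, 5), (3, 4), (8, 3), (8, 2)], [(0, 1), (0, 4), (0, 6)]⟩, [(0, 1), (0, 2), (0, 3), (0, 4), (0, 5), (1, 4), (2, 6), (4, 4)], 2, (.cons 0 0xf00 (.cons 1 0xf0f (.cons 7 0xff0 .nil .nil) (.cons 3 0xf0f (.cons 4 0xf00f (.cons 5 0xf000f (.cons 6 0xf0000f .nil (.cons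 9 0xff0000 .nil .nil)) .nil) (.cons 8 0xff00 .nil .nil)) .nil)) .nil), 2, (.cons 0 0xf00 (.cons 1 0xf0f (.cons 7 0xff0 .nil .nil) (.cons 5 0xf0f (.cons 9 0xf00f0f (.cons 4 0xf000f00f0f (.cons 3 0xf0f0f (.cons 8 0xff00 .nil .nil) .nil) .nil) (.cons 6 0xf0000f .nil .nil)) .nil)) .nil), [0, 0, 120, 0, 0, 112, 0, 0, 56, 0, 0, 112, 0, 0, 120, 0, 0, 104, 0, 0, 120, 0, 0, 48, 0, 0, 48, 0]⟩,
  ⟨⟨14, [[15, 16, 17, 18, 19, 20, 1, 0], [14, 0, 13, 12, 21, 16], [14, 15, 21, 22, 17], [14, 16, 22, 10, 23, 18], [14, 17, 23, 8, 7, 6, 19], [14, 18, 6, 5, 4, 24, 20], [14, 19, 24, 2, 1], [15, 12, 11, 22, 16], [16, 21, 11, 10, 17], [17, 10, 9, 8, 18], [19, 4, 3, 2, 20]], [(0, 7), (6, 4), (10, 3), (10, 2), (5, 4), (5, 3), (4, 5), (4, 4), (9, 3), (9, 2), (8, 3), (7, 2), (1, 3), (1, 2)], [(0, 0), (1, 3)]⟩, [(0, 1), (0, 2),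 (0, 3), (0, 4), (0, 5), (1, 5), (2, 3), (2, 4), (3, 5), (5, 6)], 0, (.cons 4 0xf (.cons 3 0xf000f (.cons 2 0xf00f (.cons 8 0xff0f (.cons 7 0xf00000f0f (.cons 1 0xf0000f0f .nil .nil) .nil) .nil) (.cons 9 0xff000 .nil .nil)) (.cons 5 0xf000f (.cons 6 0xf0000f (.cons 10 0xff00000 .nil .nil) .nil) .nil)) .nil), 0, (.cons 1 0xf (.cons 3 0xff (.cons 2 0xf0ff (.cons 8 0xfff0 (.cons 7 0xf00000ff0 .nil .nil) .nil) (.cons 4 0xf00f (.cons 5 0xf000f (.cons 6 0xf0000f (.cons 10 0xff00000 .nil .nil) .nil) (.cons 9 0xff000 .nil .nil)) .nil)) .nil) .nil), [0, 0, 120, 0, 0, 116, 0, 0, 120, 0, 0, 112, 0, 0, 120, 0, 0, 88, 0, 0, 112, 0, 0, 56, 0, 0]⟩,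
  ⟨⟨14, [[15, 8, 21, 22, 16], [14, 16, 17, 18, 19, 20, 9, 8], [14, 22, 2, 1, 0, 17, 15], [15, 16, 0, 13, 18], [15, 17, 13, 12, 19], [15, 18, 12, 11, 20], [15, 19, 11, 10, 9], [14, 8, 7, 6, 23, 22], [14, 21, 23, 4, 3, 2, 16], [21, 6, 5, 4, 22]], [(2, 4), (2, 3), (8, 5), (8, 4), (9, 3), (9, 2), (7, 3), (7, 2), (1, 7), (6, 4), (6, 3), (5, 3), (4, 3), (3, 3)], [(1, 1), (1, 7)]⟩, [(0, 0), (0, 3), (0, 4), (1, 2), (1, 3), (1, 4), (1, 5), (7, 5)], 2, (.cons 0 0xf00 (.cons 1 0xf0f (.cons 3 0xff0 (.cons 4 0xf0f0 (.cons 5 0xf00f0 (.cons 6 0xf000f0 .nil .nil) .nil) .nil) .nil) (.cons 8 0xf0f (.cons 7 0xf0000000f (.cons 9 0xff0000000 .nil .nil) .nil) .nil)) .nil), 2, (.cons 1 0xf00 (.cons 0 0xff0 (.cons 8 0xf0f (.cons 7 0xf0000000f (.cons 9 0xff0000000 .nil .nil) .nil) .nil) (.cons 4 0xff0 (.cons 3 0xf0ff0 .nil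 (.cons 5 0xf00f0 (.cons 6 0xf000f0 .nil .nil) .nil)) .nil)) .nil), [0, 0, 112, 0, 0, 120, 0, 0, 112, 0, 0, 112, 0, 0, 112, 0, 0, 56, 0, 0, 112, 0, 0, 120, 0, 0]⟩,
  ⟨⟨14, [[15, 16, 17, 18, 19, 20, 2, 1, 0], [14, 0, 13, 12, 21, 16], [14, 15, 21, 10, 17], [14, 16, 10, 9, 8, 22, 18], [14, 17, 22, 6, 23, 19], [14, 18, 23, 24, 20], [14, 19, 24, 3, 2], [15, 12, 11, 10, 16], [17, 8, 7, 6, 18], [18, 6, 5, 4, 24, 19], [19, 23, 4, 3, 20]], [(0, 8), (0, 7), (6, 4), (10, 3), (9, 3), (9, 2), (8, 3), (8, 2), (3, 4), (3, 3), (7, 3), (7, 2), (1, 3), (1, 2)], [(0, 4), (5, 3)]⟩, [(0, 1), (0, 2), (0, 3), (0, 4), (0, 5), (1, 5), (3, 6), (4, 5), (5, 3), (5, 4)], 0, (.cons 2 0xf (.cons 1 0xf0f (.cons 7 0xff0 .nil .nil) (.cons 3 0xf0f (.cons 4 0xf00f (.cons 5 0xf000f (.cons 9 0xff000f (.cons 10 0xf000f0000f (.cons 6 0xf0000f0000f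 .nil .nil) .nil) .nil) (.cons 8 0xff000 .nil .nil)) .nil) .nil)) .nil), 0, (.cons 5 0xf (.cons 10 0xf0000f (.cons 2 0xf0000f0000f (.cons 1 0xf0f (.cons 7 0xff0 .nil .nil) (.cons 3 0xf0000f00f0f (.cons 4 0xf0000f0f00f (.cons 8 0xff000 .nil (.cons 9 0xf0000ff0000 .nil .nil)) .nil) .nil)) (.cons 6 0xf0000f0000f .nil .nil)) .nil) .nil), [0, 0, 120, 0, 0, 120, 0, 0, 112, 0, 0, 112, 0, 0, 112, 0, 0, 120, 0, 0, 112, 0, 0, 48, 0, 0]⟩,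
  ⟨⟨14, [[15, 16, 17, 18, 19, 20, 21], [14, 21, 22, 23, 10, 9, 16], [14, 15, 9, 8, 7, 17], [14, 16, 7, 6, 18], [14, 17, 6, 5, 19], [14, 18, 5, 4, 20], [14, 19, 4, 3, 2, 21], [14, 20, 2, 1, 0, 22, 15], [15, 21, 0, 13, 12, 23], [15, 22, 12, 11, 10]], [(7, 4), (7, 3), (6, 4), (6, 3), (5, 3), (4, 3), (3, 3), (2, 4), (2, 3), (1, 5), (9, 4), (9, 3), (8, 4), (8, 3)], [(0, 1), (2, 2), (2, 4)]⟩, [(0, 0), (0, 1), (0, 2), (0, 3), (0, 4), (0, 5), (0, 6), (1, 2), (1, 3)], 7, (.cons 1 0xf0000000 (.cons 0 0xf00000f0 (.cons 2 0xf00000ff (.cons 3 0xf0000f0f (.cons 4 0xf000f00f (.cons 5 0xf00f000f (.cons 6 0xf0f0000f .nil .nil) .nil) .nil) .nil) .nil) (.cons 8 0xf00000f0 (.cons 9 0xf000000f0 .nil .nil) .nil)) .nil), 7, (.cons 0 0xf0000000 (.cons 2 0xf000000f (.cons 1 0xf0000f0f (.cons 8 0xf00000f0 (.cons 9 0xf000000f0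 .nil .nil) .nil) (.cons 6 0xf0000f0f (.cons 5 0xf000f0f (.cons 4 0xf00f0f (.cons 3 0xf0f0f .nil .nil) .nil) .nil) .nil)) .nil) .nil), [0, 0, 116, 0, 0, 120, 0, 0, 120, 0, 0, 120, 0, 0, 96, 0, 0, 120, 0, 0, 100, 0, 0, 24, 0, 0]⟩,
  ⟨⟨14, [[15, 0, 13, 12, 20, 21, 16], [14, 16, 17, 18, 19, 1, 0], [14, 21, 22, 7, 17, 15], [15, 16, 7, 6, 5, 18], [15, 17, 5, 4, 3, 19], [15, 18, 3, 2, 1], [14, 12, 11, 10, 21], [14, 20, 10, 23, 22, 16], [21, 23, 8, 7, 16], [21, 10, 9, 8, 22]], [(1, 6), (5, 4), (5, 3), (4, 4), (4, 3), (3, 4), (3, 3), (8, 3), (9, 3), (9, 2), (6, 3), (6, 2), (0, 3), (0, 2)], [(2, 1), (6, 4)]⟩, [(0, 0), (0, 5), (0, 6), (1, 2), (1, 3), (1, 4), (7, 4), (7, 5)], 0, (.cons 2 0xf (.cons 1 0xf0f (.cons 3 0xff0 (.cons 4 0xf0f0 (.cons 5 0xf00f0 .nil .nil) .nil) .nil) (.cons 7 0xf0f (.cons 6 0xf000000f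 .nil (.cons 8 0xf0000f00 (.cons 9 0xff0000000 .nil .nil) .nil)) .nil)) .nil), 1, (.cons 2 0xf0 (.cons 7 0xff0 (.cons 6 0xf0000ff0 (.cons 0 0xff000ff0 .nil .nil) (.cons 9 0xf0000f00 (.cons 8 0xf0f0000f00 .nil .nil) .nil)) (.cons 3 0xff0 (.cons 4 0xf0f0 (.cons 5 0xf00f0 .nil .nil) .nil) .nil)) .nil), [0, 0, 116, 0, 0, 120, 0, 0, 120, 0, 0, 120, 0, 0, 112, 0, 0, 112, 0, 0, 120, 0, 0, 48, 0, 0]⟩,
  ⟨⟨14, [[15, 16, 17, 18, 6, 19, 20, 0], [14, 0, 13, 12, 21, 16], [14, 15, 21, 10, 9, 17], [14, 16, 9, 22, 18], [14, 17, 22, 7, 6], [14, 6, 5, 23, 20], [14, 19, 23, 24, 2, 1, 0], [15, 12, 11, 10, 16], [17, 9, 8, 7, 18], [19, 5, 4, 24, 20], [20, 23, 4, 3, 2]], [(6, 6), (6, 5), (10, 4), (10, 3), (9, 2), (5, 2), (4, 4), (8, 3), (8, 2), (2, 4), (7, 3), (7, 2), (1, 3), (1, 2)], [(0, 1), (0, 4), (0, 7)]⟩, [(0, 1),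 (0, 2), (0, 3), (0, 6), (1, 5), (3, 4), (5, 4), (6, 3)], 0, (.cons 2 0xf (.cons 1 0xf0f (.cons 7 0xff0 .nil .nil) (.cons 3 0xf0f (.cons 4 0xf00f (.cons 8 0xff000 .nil .nil) .nil) .nil)) (.cons 5 0xf (.cons 6 0xf0000f (.cons 9 0xff00000 (.cons 10 0xf00f000000 .nil .nil) .nil) .nil) .nil)), 6, (.cons 0 0xf000000 (.cons 2 0xf (.cons 7 0xf0f (.cons 1 0xf0000f0f .nil .nil) (.cons 3 0xf0f (.cons 4 0xf00f (.cons 8 0xff000 .nil .nil) .nil) .nil)) (.cons 5 0xf00000f (.cons 9 0xff00000 (.cons 10 0xf00f000000 .nil .nil) .nil) .nil)) .nil), [0, 0, 112, 0, 0, 120, 0, 0, 120, 0, 0, 96, 0, 0, 112, 0, 0, 48, 0, 0, 96, 0, 0, 112, 0, 0]⟩,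
  ⟨⟨14, [[15, 7, 20, 21, 22, 0, 16], [14, 16, 17, 18, 19, 9, 8, 7], [14, 0, 13, 17, 15], [15, 16, 13, 12, 18], [15, 17, 12, 11, 19], [15, 18, 11, 10, 9], [14, 7, 6, 23, 21], [14, 20, 23, 24, 22], [14, 21, 24, 25, 2, 1, 0], [20, 6, 5, 24, 21], [21, 23, 5, 4, 25, 22], [22, 24, 4, 3, 2]], [(8, 6), (8, 5), (11, 4), (11, 3), (10, 3), (9, 2), (6, 2), (1, 7), (1, 6), (5, 4), (5, 3), (4, 3), (3, 3), (2, 2)], [(11, 2), (11, 4)]⟩, [(0, 0), (0, 3), (0, 4), (1, 2), (1, 3), (1, 4), (6, 4), (7, 3), (7, 4), (8, 3)], 0, (.cons 1 0xf (.cons 2 0xff (.cons 3 0xff0 (.cons 4 0xf0f0 (.cons 5 0xf00f0 .nil .nil) .nil) .nil) .nil) (.cons 6 0xf (.cons 7 0xf00000f (.cons 9 0xff00000f (.cons 10 0xf0f000000f (.cons 8 0xf00f000000f (.cons 11 0xf0f00000000 .nil .nil) .nil) .nil) .nil) .nil) .nil)), 8, (.cons 10 0xf00000000 (.cons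 7 0xf0f00000000 (.cons 9 0xf0ff0000000 (.cons 6 0xfff0000000 (.cons 0 0xfff000000 (.cons 1 0xf (.cons 2 0xff (.cons 3 0xff0 (.cons 4 0xf0f0 (.cons 5 0xf00f0 .nil .nil) .nil) .nil) .nil) .nil) .nil) .nil) .nil) (.cons 11 0xf0f00000000 .nil .nil)) .nil), [0, 0, 112, 0, 0, 120, 0, 0, 120, 0, 0, 112, 0, 0, 80, 0, 0, 96, 0, 0, 112, 0, 0]⟩,
  ⟨⟨14, [[15, 7, 19, 20, 21, 0, 16], [14, 16, 17, 18, 9, 8, 7], [14, 0, 13, 12, 17, 15], [15, 16, 12, 11, 18], [15, 17, 11, 10, 9], [14, 7, 6, 5, 22, 23, 20], [14, 19, 23, 24, 21], [14, 20, 24, 1, 0], [19, 5, 4, 3, 23], [19, 22, 3, 2, 24, 20], [20, 23, 2, 1, 21]], [(7, 4), (10, 3), (9, 3), (8, 3), (8, 2), (5, 3), (5, 2), (1, 6), (1, 5), (4, 4), (4, 3), (3, 3), (2, 3), (2, 2)], [(1, 1), (2, 1), (2, 3)]⟩, [(0, 0), (0, 3), (0, 4), (1, 2), (1, 3), (5, 5), (5, 6), (6, 3),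 (6, 4)], 0, (.cons 1 0xf (.cons 2 0xff (.cons 3 0xff0 (.cons 4 0xf0f0 .nil .nil) .nil) .nil) (.cons 5 0xf (.cons 6 0xf0000f (.cons 9 0xff0000f (.cons 10 0xf00f00000f (.cons 7 0xf000f00000f .nil .nil) (.cons 8 0xf000f00000 .nil .nil)) .nil) .nil) .nil)), 7, (.cons 1 0xf0000000 (.cons 2 0xf00000f0 (.cons 0 0xf0000ff0 (.cons 6 0xf000000f (.cons 5 0xff00000f (.cons 9 0xfff00000 (.cons 8 0xf000f00000 .nil (.cons 10 0xf0ff000000 .nil .nil)) .nil) .nil) .nil) (.cons 3 0xff0 (.cons 4 0xf0f0 .nil .nil) .nil)) .nil) .nil), [0, 0, 120, 0, 0, 112, 0, 0, 120, 0, 0, 96, 0, 0, 120, 0, 0, 112, 0, 0, 92, 0, 0, 80]⟩,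
  ⟨⟨14, [[15, 16, 17, 18, 19, 20, 2, 1, 0], [14, 0, 13, 21, 16], [14, 15, 21, 11, 10, 9, 17], [14, 16, 9, 8, 22, 23, 18], [14, 17, 23, 24, 19], [14, 18, 24, 4, 20], [14, 19, 4, 3, 2], [15, 13, 12, 11, 16], [17, 8, 7, 6, 23], [17, 22, 6, 5, 24, 18], [18, 23, 5, 4, 19]], [(0, 8), (0, 7), (6, 4), (6, 3), (10, 3), (9, 3), (8, 3), (8, 2), (3, 3), (2, 5), (2, 4), (7, 3), (7, 2), (1, 2)], [(3, 5), (9, 3)]⟩, [(0, 1), (0, 2), (0, 3), (0, 4), (0, 5), (1, 4), (3, 5), (3, 6), (4, 3), (4, 4)], 0, (.cons 5 0xf (.cons 4 0xf0000f (.cons 10 0xff000f (.cons 9 0xf00000f000f (.cons 3 0xf0000f000f (.cons 2 0xf00f (.cons 1 0xf0f (.cons 7 0xff0 .nil .nil) .nil) (.cons 8 0xf00000f000 .nil .nil)) .nil) .nil) .nil) (.cons 6 0xf0000f .nil .nil)) .nil), 0, (.cons 2 0xf (.cons 1 0xf0f (.cons 7 0xff0 .nil .nil) (.cons 3 0xf0f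 (.cons 9 0xf00f (.cons 10 0xf00000f00f (.cons 4 0xff00000f00f (.cons 5 0xf00000f000f (.cons 6 0xf0000f .nil .nil) .nil) .nil) (.cons 8 0xf00000f000 .nil .nil)) .nil) .nil)) .nil), [0, 0, 120, 0, 0, 120, 0, 0, 120, 0, 0, 120, 0, 0, 96, 0, 0, 56, 0, 0, 96, 0, 0, 112, 0, 0]⟩,
  ⟨⟨14, [[15, 16, 17, 18, 19, 20, 7], [14, 7, 21, 22, 23, 16], [14, 15, 23, 2, 1, 0, 17], [14, 16, 0, 13, 12, 18], [14, 17, 12, 11, 19], [14, 18, 11, 10, 9, 20], [14, 19, 9, 8, 7], [15, 7, 6, 5, 22], [15, 21, 5, 4, 23], [15, 22, 4, 3, 2, 16]], [(2, 5), (2, 4), (9, 4), (9, 3), (8, 3), (7, 3), (7, 2), (6, 4), (6, 3), (5, 4), (5, 3), (4, 3), (3, 4), (3, 3)], [(1, 1), (1, 5)]⟩, [(0, 1), (0, 2), (0, 3), (0, 4), (0, 5), (1, 3), (1, 4), (1, 5)], 2, (.cons 0 0xf00 (.cons 1 0xf0f (.cons 9 0xff0 (.cons 8 0xf0000000f0 (.cons 7 0xf000000f0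 .nil .nil) .nil) .nil) (.cons 3 0xf0f (.cons 4 0xf00f (.cons 5 0xf000f (.cons 6 0xf0000f .nil .nil) .nil) .nil) .nil)) .nil), 2, (.cons 1 0xf00 (.cons 0 0xff0 (.cons 3 0xf0f (.cons 4 0xf00f (.cons 5 0xf000f (.cons 6 0xf0000f .nil .nil) .nil) .nil) .nil) (.cons 8 0xff0 (.cons 7 0xf000000f0 .nil (.cons 9 0xf00000ff0 .nil .nil)) .nil)) .nil), [0, 0, 120, 0, 0, 120, 0, 0, 112, 0, 0, 112, 0, 0, 116, 0, 0, 112, 0, 0, 56, 0, 0, 96, 0, 0, 56]⟩,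
  ⟨⟨14, [[15, 16, 17, 18, 19, 20, 1, 0], [14, 0, 13, 21, 16], [14, 15, 21, 11, 10, 9, 17], [14, 16, 9, 8, 22, 23, 18], [14, 17, 23, 4, 19], [14, 18, 4, 3, 20], [14, 19, 3, 2, 1], [15, 13, 12, 11, 16], [17, 8, 7, 6, 23], [17, 22, 6, 5, 4, 18]], [(0, 7), (6, 4), (6, 3), (5, 3), (9, 4), (9, 3), (8, 3), (8, 2), (3, 3), (2, 5), (2, 4), (7, 3), (7, 2), (1, 2)], [(3, 5), (9, 2), (9, 4)]⟩, [(0, 1), (0, 2), (0, 3), (0, 4), (0, 5), (1, 4), (3, 5), (3, 6)], 0, (.cons 2 0xf (.cons 1 0xf0f (.cons 7 0xff0 .nil .nil) (.cons 3 0xf0f (.cons 4 0xf00f (.cons 5 0xf000f (.cons 6 0xf0000f .nil .nil) (.cons 9 0xff000 (.cons 8 0xf00000f000 .nil .nil) .nil)) .nil) .nil)) .nil), 0, (.cons 2 0xf (.cons 1 0xf0f (.cons 7 0xff0 .nil .nil) (.cons 3 0xf0f (.cons 9 0xf00f (.cons 4 0xf00000f00f (.cons 5 0xf000f (.cons 6 0xf0000f .nil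 .nil) .nil) (.cons 8 0xf00000f000 .nil .nil)) .nil) .nil)) .nil), [0, 0, 112, 0, 0, 120, 0, 0, 120, 0, 0, 112, 0, 0, 112, 0, 0, 120, 0, 0, 112, 0, 0, 48, 0, 48, 0, 0]⟩,
  ⟨⟨14, [[15, 16, 17, 18, 19, 20, 21], [14, 21, 22, 23, 1, 0, 16], [14, 15, 0, 13, 17], [14, 16, 13, 12, 18], [14, 17, 12, 11, 10, 19], [14, 18, 10, 9, 8, 20], [14, 19, 8, 7, 6, 21], [14, 20, 6, 5, 4, 22, 15], [15, 21, 4, 3, 23], [15, 22, 3, 2, 1]], [(1, 5), (9, 4), (9, 3), (8, 3), (7, 4), (7, 3), (6, 4), (6, 3), (5, 4), (5, 3), (4, 4), (4, 3), (3, 3), (2, 3)], [(1, 2), (8, 2)]⟩, [(0, 0), (0, 1), (0, 2), (0, 3), (0, 4), (0, 5), (0, 6), (1, 2), (1, 3)], 1, (.cons 7 0xf0 (.cons 0 0xf00000f0 (.cons 6 0xf00000ff (.cons 5 0xf0000ff (.cons 4 0xf000ff (.cons 3 0xf00ff (.cons 2 0xf0ff .nil .nil) .nil) .nil) .nil) .nil) (.cons 8 0xf00000f0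 (.cons 9 0xf000000f0 .nil .nil) .nil)) .nil), 1, (.cons 8 0xf0 (.cons 0 0xf000000f0 (.cons 2 0xf000000ff (.cons 3 0xf00000fff (.cons 4 0xf0000f0ff (.cons 5 0xf000f00ff (.cons 6 0xf00f000ff (.cons 7 0xf0f0000ff .nil .nil) .nil) .nil) .nil) .nil) .nil) (.cons 9 0xf000000f0 .nil .nil)) .nil), [0, 0, 120, 0, 0, 120, 0, 0, 120, 0, 0, 112, 0, 0, 116, 0, 0, 120, 0, 0, 120, 0, 0, 32, 0, 0]⟩,
  ⟨⟨14, [[15, 8, 7, 6, 21, 16], [14, 16, 17, 18, 19, 20, 8], [14, 21, 22, 1, 0, 17, 15], [15, 16, 0, 13, 12, 18], [15, 17, 12, 11, 19], [15, 18, 11, 10, 20], [15, 19, 10, 9, 8], [14, 6, 5, 23, 22, 16], [21, 23, 3, 2, 1, 16], [21, 5, 4, 3, 22]], [(2, 4), (8, 4), (8, 3), (9, 3), (9, 2), (7, 2), (0, 3), (0, 2), (6, 4), (6, 3), (5, 3), (4, 3), (3, 4), (3, 3)], [(1, 4)]⟩, [(0, 0), (0, 5), (1, 2), (1, 3), (1, 4), (1, 5), (7,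 4), (7, 5)], 2, (.cons 0 0xf00 (.cons 1 0xf0f (.cons 3 0xff0 (.cons 4 0xf0f0 (.cons 5 0xf00f0 (.cons 6 0xf000f0 .nil .nil) .nil) .nil) .nil) (.cons 7 0xf0f (.cons 8 0xf0000f00 (.cons 9 0xff0000000 .nil .nil) .nil) .nil)) .nil), 2, (.cons 0 0xf00 (.cons 1 0xf0f (.cons 5 0xff0 (.cons 3 0xf00ff0 (.cons 4 0xf0f0f0 .nil .nil) (.cons 6 0xf000f0 .nil .nil)) .nil) (.cons 7 0xf0f (.cons 8 0xf0000f00 (.cons 9 0xff0000000 .nil .nil) .nil) .nil)) .nil), [0, 0, 120, 0, 0, 112, 0, 0, 120, 0, 0, 112, 0, 0, 120, 0, 0, 112, 0, 0, 104, 0, 0, 120, 0, 0]⟩,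
  ⟨⟨14, [[15, 16, 17, 18, 19, 1, 0], [14, 0, 13, 12, 20, 16], [14, 15, 20, 21, 9, 17], [14, 16, 9, 8, 7, 18], [14, 17, 7, 6, 5, 22, 19], [14, 18, 22, 23, 1], [15, 12, 11, 21, 16], [16, 20, 11, 10, 9], [18, 5, 4, 3, 23, 19], [19, 22, 3, 2, 1]], [(0, 6), (9, 4), (9, 3), (8, 3), (8, 2), (4, 4), (4, 3), (3, 4), (3, 3), (7, 4), (7, 3), (6, 2), (1, 3), (1, 2)], [(0, 0), (0, 2), (3, 2)]⟩, [(0, 1), (0, 2), (0, 3), (0, 4), (1, 5), (2, 3), (4, 6), (5, 3)], 0, (.cons 2 0xf (.cons 1 0xf0f (.cons 6 0xff0 (.cons 7 0xf000f00 .nil .nil) .nil) (.cons 3 0xf0f (.cons 4 0xf00f (.cons 5 0xf000f (.cons 8 0xff0000 (.cons 9 0xf00f00000 .nil .nil) .nil) .nil) .nil) .nil)) .nil), 0, (.cons 3 0xf (.cons 1 0xf00f (.cons 2 0xf0ff (.cons 6 0xff0 (.cons 7 0xf000f00 .nil .nil) .nil) .nil) (.cons 4 0xf00f (.cons 5 0xf000f (.cons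 8 0xff0000 (.cons 9 0xf00f00000 .nil .nil) .nil) .nil) .nil)) .nil), [0, 0, 112, 0, 0, 120, 0, 0, 120, 0, 0, 112, 0, 0, 116, 0, 0, 112, 0, 0, 88, 0, 0, 48, 0, 0, 112]⟩,
  ⟨⟨14, [[15, 7, 21, 22, 16], [14, 16, 17, 18, 19, 20, 8, 7], [14, 22, 2, 1, 0, 17, 15], [15, 16, 0, 13, 18], [15, 17, 13, 12, 19], [15, 18, 12, 11, 10, 20], [15, 19, 10, 9, 8], [14, 7, 6, 23, 22], [14, 21, 23, 4, 3, 2, 16], [21, 6, 5, 4, 22]], [(2, 4), (2, 3), (8, 5), (8, 4), (9, 3), (9, 2), (7, 2), (1, 7), (6, 4), (6, 3), (5, 4), (5, 3), (4, 3), (3, 3)], [(1, 3), (0, 1), (0, 4)]⟩, [(0, 0), (0, 3), (0, 4), (1, 2), (1, 3), (1, 4), (1, 5), (7, 4)], 2, (.cons 0 0xf00 (.cons 1 0xf0f (.cons 3 0xff0 (.cons 4 0xf0f0 (.cons 5 0xf00f0 (.cons 6 0xf000f0 .nil .nil) .nil) .nil) .nil) (.cons 8 0xf0f (.cons 7 0xf0000000f (.cons 9 0xff0000000 .nil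 .nil) .nil) .nil)) .nil), 2, (.cons 0 0xf00 (.cons 1 0xf0f (.cons 4 0xff0 (.cons 3 0xf0ff0 .nil (.cons 5 0xf00f0 (.cons 6 0xf000f0 .nil .nil) .nil)) .nil) (.cons 7 0xf0f (.cons 8 0xf0000f0f (.cons 9 0xff0000000 .nil .nil) .nil) .nil)) .nil), [0, 0, 120, 0, 0, 112, 0, 0, 120, 0, 0, 112, 0, 0, 120, 0, 0, 112, 0, 0, 112, 0, 0, 112, 0, 0]⟩,
  ⟨⟨14, [[15, 16, 17, 18, 19, 2, 1, 0], [14, 0, 13, 20, 21, 22, 16], [14, 15, 22, 8, 7, 17], [14, 16, 7, 6, 23, 18], [14, 17, 23, 24, 19], [14, 18, 24, 4, 3, 2], [15, 13, 12, 11, 21], [15, 20, 11, 10, 9, 22], [15, 21, 9, 8, 16], [17, 6, 5, 24, 18], [18, 23, 5, 4, 19]], [(0, 7), (0, 6), (5, 5), (5, 4), (10, 3), (9, 2), (3, 3), (2, 4), (8, 3), (7, 4), (7, 3), (6, 3), (6, 2), (1, 2)], [(1, 4), (7, 4)]⟩, [(0, 1), (0, 2), (0, 3), (0, 4), (1, 4), (1, 5), (1, 6), (3, 5),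 (4, 3), (4, 4)], 0, (.cons 2 0xf (.cons 1 0xf0f (.cons 8 0xff0 (.cons 7 0xf000000f0 (.cons 6 0xf00000f0 .nil .nil) .nil) .nil) (.cons 3 0xf0f (.cons 4 0xf00f (.cons 9 0xff00f (.cons 10 0xf0000f000f (.cons 5 0xf00000f000f .nil .nil) .nil) .nil) .nil) .nil)) .nil), 0, (.cons 1 0xf (.cons 7 0xff (.cons 2 0xf00000ff (.cons 3 0xf0f (.cons 4 0xf00f (.cons 9 0xff00f (.cons 10 0xf0000f000f (.cons 5 0xf00000f000f .nil .nil) .nil) .nil) .nil) (.cons 8 0xf0000ff0 .nil .nil)) (.cons 6 0xf00000f0 .nil .nil)) .nil) .nil), [0, 0, 120, 0, 0, 120, 0, 0, 120, 0, 0, 120, 0, 0, 120, 0, 0, 112, 0, 0, 120, 0, 0, 48, 0, 0]⟩,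
  ⟨⟨14, [[15, 16, 21, 7, 6, 22, 17], [14, 17, 18, 19, 1, 0, 16], [14, 15, 0, 13, 12, 20, 21], [14, 22, 23, 18, 15], [15, 17, 23, 4, 3, 19], [15, 18, 3, 2, 1], [16, 12, 11, 24, 21], [14, 16, 20, 24, 9, 8, 7], [14, 6, 5, 23, 17], [22, 5, 4, 18, 17], [21, 20, 11, 10, 9]], [(1, 5), (5, 4), (5, 3), (4, 4), (9, 2), (8, 2), (0, 4), (7, 6), (7, 5), (10, 4), (10, 3), (6, 2), (2, 4), (2, 3)], [(1, 6)]⟩, [(0, 0), (0, 1), (0, 2), (0, 6), (1, 2), (1, 3), (2, 6), (7, 3), (8, 4), (3, 3)], 1, (.cons 0 0xf0 (.cons 2 0xff (.cons 7 0xf0f (.cons 6 0xf0000f00 (.cons 10 0xff000000 .nil .nil) .nil) .nil) (.cons 3 0xff (.cons 8 0xf0ff (.cons 9 0xf0000f0f0 (.cons 4 0xf00000f0f0 (.cons 5 0xf00f0 .nil .nil) .nil) .nil) .nil) .nil)) .nil), 1, (.cons 2 0xf0 (.cons 0 0xff0 (.cons 3 0xff (.cons 8 0xf0ff (.cons 9 0xf0000f0f0 (.cons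 4 0xf00000f0f0 (.cons 5 0xf00f0 .nil .nil) .nil) .nil) .nil) (.cons 7 0xf0f (.cons 10 0xf0000f00 (.cons 6 0xf00f0000f00 .nil .nil) .nil) .nil)) .nil) .nil), [0, 0, 120, 0, 0, 120, 0, 0, 112, 0, 0, 120, 0, 0, 112, 0, 0, 112, 0, 0, 48, 0, 0, 112, 0, 0]⟩,
  ⟨⟨14, [[15, 16, 6, 5, 21, 17], [14, 17, 18, 19, 20, 8, 16], [14, 15, 8, 7, 6], [14, 21, 22, 18, 15], [15, 17, 22, 0, 13, 12, 19], [15, 18, 12, 11, 10, 20], [15, 19, 10, 9, 8], [14, 5, 4, 23, 22, 17], [21, 23, 2, 1, 0, 18, 17], [21, 4, 3, 2, 22]], [(8, 4), (8, 3), (9, 3), (9, 2), (7, 2), (0, 3), (2, 4), (2, 3), (6, 4), (6, 3), (5, 4), (5, 3), (4, 5), (4, 4)], [(1, 2), (4, 3), (4, 5)]⟩, [(0, 0), (0, 1), (0, 5), (1, 2), (1, 3), (1, 4), (7, 4), (7, 5), (3, 3)], 4, (.cons 1 0xf0000 (.cons 3 0xf00f0 (.cons 0 0xff0f0 (.cons 2 0xff .nil (.cons 7 0xff00f (.cons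 8 0xf00ff000 (.cons 9 0xff0000000 .nil .nil) .nil) .nil)) .nil) (.cons 5 0xf00f0 (.cons 6 0xf000f0 .nil .nil) .nil)) .nil), 8, (.cons 4 0xf00000000 (.cons 1 0xf000f0000 (.cons 0 0xf000f00f0 (.cons 2 0xff .nil (.cons 3 0xf000f00ff (.cons 7 0xf0000f00f (.cons 9 0xff0000000 .nil .nil) .nil) .nil)) (.cons 6 0xf00f0 (.cons 5 0xf0f00f0 .nil .nil) .nil)) .nil) .nil), [0, 0, 120, 0, 0, 124, 0, 0, 120, 0, 0, 104, 0, 0, 124, 0, 0, 112, 0, 0, 112, 0, 0, 80, 0, 0]⟩]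

noncomputable def jobs28 : List Job := [⟨⟨14, [[15, 16, 17, 18, 19, 2, 1, 0], [14, 0, 13, 20, 16], [14, 15, 20, 21, 10, 22, 17], [14, 16, 22, 8, 7, 6, 18], [14, 17, 6, 5, 23, 19], [14, 18, 23, 3, 2], [15, 13, 12, 21, 16], [16, 20, 12, 11, 10], [16, 10, 9, 8, 17], [18, 5, 4, 3, 19]], [(0, 7), (0, 6), (5, 4), (9, 3), (9, 2), (4, 3), (3, 5), (3, 4), (8, 3), (8, 2), (7, 4), (7, 3), (6, 2), (1, 2)], [(0, 3), (4, 2), (4, 4)]⟩, [(0, 1), (0, 2), (0, 3), (0, 4), (1, 4), (2, 3), (2, 6), (4, 5)], 0, (.cons 2 0xf (.cons 1 0xf0f (.cons 6 0xff0 (.cons 7 0xf000f00 .nil .nil) .nil) (.cons 3 0xf0f (.cons 4 0xf00f (.cons 5 0xf000f (.cons 9 0xff0000 .nil .nil) .nil) (.cons 8 0xff00 .nil .nil)) .nil)) .nil), 0, (.cons 4 0xf (.cons 2 0xf000f (.cons 1 0xf0f (.cons 6 0xff0 (.cons 7 0xf000f00 .nil .nil) .nil) (.cons 3 0xf0f0f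 (.cons 8 0xff00 .nil .nil) .nil)) (.cons 9 0xf000f (.cons 5 0xf0000f000f .nil .nil) .nil)) .nil), [0, 0, 124, 0, 0, 120, 0, 0, 112, 0, 0, 120, 0, 0, 48, 0, 0, 112, 0, 0, 56, 0, 0, 104, 0, 0, 80, 0, 0, 112, 0, 0]⟩,
  ⟨⟨14, [[15, 16, 17, 18, 19, 20, 1, 0], [14, 0, 13, 21, 16], [14, 15, 21, 11, 10, 17], [14, 16, 10, 9, 22, 18], [14, 17, 22, 23, 5, 4, 19], [14, 18, 4, 3, 20], [14, 19, 3, 2, 1], [15, 13, 12, 11, 16], [17, 9, 8, 7, 23, 18], [18, 22, 7, 6, 5]], [(0, 7), (6, 4), (6, 3), (5, 3), (4, 5), (9, 4), (9, 3), (8, 3), (8, 2), (3, 3), (2, 4), (7, 3), (7, 2), (1, 2)], [(0, 1), (2, 4)]⟩, [(0, 1), (0, 2), (0, 3), (0, 4), (0, 5), (1, 4), (3, 5), (4, 3)], 0, (.cons 2 0xf (.cons 1 0xf0f (.cons 7 0xff0 .nil .nil) (.cons 3 0xf0f (.cons 4 0xf00f (.cons 5 0xf000f (.cons 6 0xf0000f .nil .nil) (.cons 8 0xff000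 (.cons 9 0xf000f0000 .nil .nil) .nil)) .nil) .nil)) .nil), 0, (.cons 2 0xf (.cons 1 0xf0f (.cons 7 0xff0 .nil .nil) (.cons 4 0xf0f (.cons 3 0xf0f0f (.cons 8 0xff000 (.cons 9 0xf000f0000 .nil .nil) .nil) (.cons 5 0xf000f (.cons 6 0xf0000f .nil .nil) .nil)) .nil)) .nil), [0, 0, 120, 0, 0, 124, 0, 0, 112, 0, 0, 120, 0, 0, 120, 0, 0, 120, 0, 0, 96, 0, 0, 120, 0, 112, 0, 0, 56, 0]⟩,
  ⟨⟨14, [[15, 16, 17, 18, 19, 20, 2, 1, 0], [14, 0, 13, 21, 16], [14, 15, 21, 11, 10, 9, 17], [14, 16, 9, 8, 22, 23, 18], [14, 17, 23, 5, 19], [14, 18, 5, 4, 20], [14, 19, 4, 3, 2], [15, 13, 12, 11, 16], [17, 8, 7, 6, 23], [17, 22, 6, 5, 18]], [(0, 8), (0, 7), (6, 4), (6, 3), (5, 3), (9, 3), (8, 3), (8, 2), (3, 3), (2, 5), (2, 4), (7, 3), (7, 2), (1, 2)], [(0, 3), (2, 6), (4, 3)]⟩, [(0, 1), (0, 2), (0, 3), (0, 4), (0, 5), (1,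 4), (3, 5), (3, 6)], 0, (.cons 2 0xf (.cons 1 0xf0f (.cons 7 0xff0 .nil .nil) (.cons 3 0xf0f (.cons 4 0xf00f (.cons 5 0xf000f (.cons 6 0xf0000f .nil .nil) (.cons 9 0xff000 (.cons 8 0xf00000f000 .nil .nil) .nil)) .nil) .nil)) .nil), 0, (.cons 4 0xf (.cons 3 0xf000f (.cons 2 0xf00f (.cons 1 0xf0f (.cons 7 0xff0 .nil .nil) .nil) (.cons 9 0xff000 (.cons 8 0xf00000f000 .nil .nil) .nil)) (.cons 5 0xf000f (.cons 6 0xf0000f .nil .nil) .nil)) .nil), [0, 0, 120, 0, 0, 124, 0, 0, 112, 0, 0, 120, 0, 0, 48, 0, 0, 112, 0, 0, 120, 0, 0, 112, 0, 0, 48, 0, 0, 96, 0, 0]⟩,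
  ⟨⟨14, [[15, 16, 17, 18, 19, 7, 6], [14, 6, 5, 4, 20, 21, 16], [14, 15, 21, 1, 0, 22, 17], [14, 16, 22, 23, 11, 18], [14, 17, 11, 10, 9, 19], [14, 18, 9, 8, 7], [15, 4, 3, 2, 21], [15, 20, 2, 1, 16], [16, 0, 13, 23, 17], [17, 22, 13, 12, 11]], [(2, 4), (7, 3), (6, 3), (6, 2), (1, 3), (1, 2), (0, 6), (5, 4), (5, 3), (4, 4), (4, 3), (9, 4), (9, 3), (8, 2)], [(0, 3), (4, 2), (4, 4)]⟩, [(0, 1), (0, 2), (0, 3), (0, 4), (1, 5), (1, 6), (2, 6), (3, 3)], 2, (.cons 1 0xf00 (.cons 0 0xff0 (.cons 3 0xf0f (.cons 4 0xf00f (.cons 5 0xf000f .nil .nil) (.cons 8 0xff00 (.cons 9 0xf0000f000 .nil .nil) .nil)) .nil) (.cons 7 0xff0 (.cons 6 0xf00000f0 .nil .nil) .nil)) .nil), 2, (.cons 0 0xf00 (.cons 1 0xf0f (.cons 7 0xff0 (.cons 6 0xf00000f0 .nil .nil) .nil) (.cons 4 0xf0f (.cons 3 0xf0f0f (.cons 8 0xff00 (.cons 9 0xf0000f000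 .nil .nil) .nil) (.cons 5 0xf000f .nil .nil)) .nil)) .nil), [0, 0, 120, 0, 0, 120, 0, 0, 120, 0, 0, 120, 0, 0, 120, 0, 0, 120, 0, 0, 112, 0, 0, 112, 0, 0, 112, 0, 0, 48]⟩,
  ⟨⟨14, [[15, 16, 17, 18, 19, 20, 1, 0], [14, 0, 13, 12, 16], [14, 15, 12, 11, 10, 17], [14, 16, 10, 9, 8, 21, 18], [14, 17, 21, 6, 22, 23, 19], [14, 18, 23, 3, 20], [14, 19, 3, 2, 1], [17, 8, 7, 6, 18], [18, 6, 5, 4, 23], [18, 22, 4, 3, 19]], [(0, 7), (6, 4), (6, 3), (9, 3), (8, 3), (8, 2), (7, 3), (7, 2), (3, 4), (3, 3), (2, 4), (2, 3), (1, 3), (1, 2)], [(0, 2), (8, 4), (9, 3)]⟩, [(0, 1), (0, 2), (0, 3), (0, 4), (0, 5), (3, 6), (4, 5), (4, 6)], 0, (.cons 3 0xf (.cons 2 0xf00f (.cons 1 0xf0f .nil .nil) (.cons 4 0xf00f (.cons 5 0xf000f (.cons 6 0xf0000f .nil (.cons 9 0xff0000 (.cons 8 0xf0000f0000 .nil .nil) .nil)) (.cons 7 0xff000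 .nil .nil)) .nil)) .nil), 0, (.cons 3 0xf (.cons 1 0xf00f (.cons 2 0xf0ff .nil .nil) (.cons 4 0xf00f (.cons 5 0xf000f (.cons 6 0xf0000f .nil (.cons 9 0xff0000 (.cons 8 0xf0000f0000 .nil .nil) .nil)) (.cons 7 0xff000 .nil .nil)) .nil)) .nil), [0, 0, 124, 0, 0, 120, 0, 0, 120, 0, 0, 120, 0, 0, 112, 0, 0, 112, 0, 0, 124, 0, 0, 112, 0, 0, 44, 0, 0, 48, 0, 0]⟩,
  ⟨⟨14, [[15, 16, 17, 18, 19, 2, 1, 0], [14, 0, 13, 12, 20, 21, 16], [14, 15, 21, 8, 7, 17], [14, 16, 7, 6, 22, 18], [14, 17, 22, 23, 19], [14, 18, 23, 3, 2], [15, 12, 11, 10, 21], [15, 20, 10, 9, 8, 16], [17, 6, 5, 4, 23, 18], [18, 22, 4, 3, 19]], [(0, 7), (0, 6), (5, 4), (9, 3), (8, 3), (8, 2), (3, 3), (2, 4), (7, 4), (7, 3), (6, 3), (6, 2), (1, 3), (1, 2)], [(1, 5), (7, 2), (7, 4)]⟩, [(0, 1), (0, 2), (0, 3), (0, 4), (1, 5), (1, 6), (3, 5), (4,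 3), (4, 4)], 0, (.cons 2 0xf (.cons 1 0xf0f (.cons 7 0xff0 (.cons 6 0xf00000f0 .nil .nil) .nil) (.cons 3 0xf0f (.cons 4 0xf00f (.cons 8 0xff00f (.cons 9 0xf000f000f (.cons 5 0xf0000f000f .nil .nil) .nil) .nil) .nil) .nil)) .nil), 0, (.cons 1 0xf (.cons 7 0xff (.cons 2 0xf00000ff (.cons 3 0xf0f (.cons 4 0xf00f (.cons 8 0xff00f (.cons 9 0xf000f000f (.cons 5 0xf0000f000f .nil .nil) .nil) .nil) .nil) .nil) (.cons 6 0xf00000f0 .nil .nil)) .nil) .nil), [0, 0, 120, 0, 0, 56, 0, 0, 112, 0, 0, 124, 0, 0, 120, 0, 0, 112, 0, 0, 120, 0, 0, 48, 0, 0, 56, 0, 0, 96, 0, 0, 24, 0]⟩,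
  ⟨⟨14, [[15, 16, 17, 18, 19, 20, 1, 0], [14, 0, 13, 21, 16], [14, 15, 21, 22, 10, 23, 17], [14, 16, 23, 8, 7, 6, 18], [14, 17, 6, 5, 19], [14, 18, 5, 4, 3, 20], [14, 19, 3, 2, 1], [15, 13, 12, 22, 16], [16, 21, 12, 11, 10], [16, 10, 9, 8, 17]], [(0, 7), (6, 4), (6, 3), (5, 4), (5, 3), (4, 3), (3, 5), (3, 4), (9, 3), (9, 2), (8, 4), (8, 3), (7, 2), (1, 2)], [(0, 3), (4, 2)]⟩, [(0, 1), (0, 2), (0, 3), (0, 4), (0, 5), (1, 4), (2, 3), (2, 6)], 0, (.cons 2 0xf (.cons 1 0xf0f (.cons 7 0xff0 (.cons 8 0xf0000f00 .nil .nil) .nil) (.cons 3 0xf0f (.cons 4 0xf00f (.cons 5 0xf000f (.cons 6 0xf0000f .nil .nil) .nil) (.cons 9 0xff00 .nil .nil)) .nil)) .nil), 0, (.cons 4 0xf (.cons 2 0xf000f (.cons 1 0xf0f (.cons 7 0xff0 (.cons 8 0xf0000f00 .nil .nil) .nil) (.cons 3 0xf0f0f (.cons 9 0xff00 .nil .nil) .nil)) (.cons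 5 0xf000f (.cons 6 0xf0000f .nil .nil) .nil)) .nil), [0, 0, 120, 0, 0, 112, 0, 0, 120, 0, 0, 120, 0, 0, 112, 0, 0, 120, 0, 0, 112, 0, 0, 112, 0, 0, 56, 0, 96, 0, 0]⟩,
  ⟨⟨14, [[15, 16, 17, 18, 5, 19, 20, 0], [14, 0, 13, 12, 21, 16], [14, 15, 21, 10, 9, 22, 17], [14, 16, 22, 23, 18], [14, 17, 23, 6, 5], [14, 5, 4, 24, 20], [14, 19, 24, 2, 1, 0], [15, 12, 11, 10, 16], [16, 9, 8, 7, 23, 17], [17, 22, 7, 6, 18], [19, 4, 3, 2, 20]], [(6, 5), (6, 4), (10, 3), (10, 2), (5, 2), (4, 4), (9, 3), (8, 3), (8, 2), (2, 4), (7, 3), (7, 2), (1, 3), (1, 2)], [(0, 2), (3, 2)]⟩, [(0, 1), (0, 2), (0, 3), (0, 6), (1, 5), (2, 6), (3, 3), (3, 4), (5, 4)], 0, (.cons 2 0xf (.cons 1 0xf0f (.cons 7 0xff0 .nil .nil) (.cons 3 0xf0f (.cons 8 0xff0f (.cons 9 0xf0000f00f (.cons 4 0xf00000f00f .nil .nil) .nil) .nil) .nil)) (.cons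 5 0xf (.cons 6 0xf0000f (.cons 10 0xff00000 .nil .nil) .nil) .nil)), 6, (.cons 0 0xf000000 (.cons 3 0xf (.cons 8 0xf00f (.cons 1 0xf0000f00f (.cons 2 0xf0000f0ff (.cons 7 0xff0 .nil .nil) .nil) (.cons 9 0xf0000f00f (.cons 4 0xf00000f00f .nil .nil) .nil)) .nil) (.cons 5 0xf00000f (.cons 10 0xff00000 .nil .nil) .nil)) .nil), [0, 0, 120, 0, 0, 120, 0, 0, 120, 0, 0, 120, 0, 0, 120, 0, 0, 112, 0, 0, 48, 0, 0, 120, 0, 0, 112, 0, 56, 0, 0]⟩,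
  ⟨⟨14, [[15, 16, 17, 18, 19, 20, 21, 8], [14, 8, 7, 6, 16], [14, 15, 6, 5, 4, 17], [14, 16, 4, 22, 18], [14, 17, 22, 2, 1, 0, 23, 19], [14, 18, 23, 12, 20], [14, 19, 12, 11, 10, 21], [14, 20, 10, 9, 8], [17, 4, 3, 2, 18], [18, 0, 13, 12, 19]], [(4, 5), (4, 4), (8, 3), (8, 2), (2, 4), (2, 3), (1, 3), (1, 2), (7, 4), (7, 3), (6, 4), (6, 3), (9, 3), (9, 2)], [(0, 1), (2, 2), (2, 4)]⟩, [(0, 1), (0, 2), (0, 3), (0, 4), (0, 5), (0, 6), (3, 4), (4, 7)], 4, (.cons 0 0xf0000 (.cons 3 0xf000f (.cons 2 0xf00f (.cons 1 0xf0f .nil .nil) (.cons 8 0xff000 .nil .nil)) (.cons 5 0xf000f (.cons 6 0xf0000f (.cons 7 0xf00000f .nil .nil) (.cons 9 0xff0000 .nil .nil)) .nil)) .nil), 4, (.cons 0 0xf0000 (.cons 2 0xf000f (.cons 1 0xf0f .nil (.cons 3 0xf0f0f (.cons 8 0xff000 .nil .nil) .nil)) (.cons 5 0xf000f (.cons 6 0xf0000f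 (.cons 7 0xf00000f .nil .nil) (.cons 9 0xff0000 .nil .nil)) .nil)) .nil), [0, 0, 120, 0, 0, 120, 0, 0, 112, 0, 0, 56, 0, 0, 120, 0, 0, 120, 0, 0, 112, 0, 0, 48, 0, 0, 56, 0, 0, 112, 0, 0, 48, 0]⟩,
  ⟨⟨14, [[15, 16, 17, 18, 19, 8, 7, 6], [14, 6, 5, 20, 16], [14, 15, 20, 21, 1, 0, 17], [14, 16, 0, 13, 22, 23, 18], [14, 17, 23, 10, 19], [14, 18, 10, 9, 8], [15, 5, 4, 3, 21, 16], [16, 20, 3, 2, 1], [17, 13, 12, 11, 23], [17, 22, 11, 10, 18]], [(2, 5), (7, 4), (7, 3), (6, 3), (6, 2), (1, 2), (0, 7), (0, 6), (5, 4), (5, 3), (9, 3), (8, 3), (8, 2), (3, 3)], [(0, 1), (0, 5), (0, 7)]⟩, [(0, 1), (0, 2), (0, 3), (0, 4), (1, 4), (2, 3), (3, 5), (3, 6)], 3, (.cons 4 0xf000 (.cons 0 0xff000 (.cons 2 0xf00f (.cons 1 0xf0f (.cons 6 0xff0 (.cons 7 0xf000f00 .nil .nil) .nil) .nil) (.cons 5 0xf000f .nil .nil)) (.cons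 9 0xff000 (.cons 8 0xf00000f000 .nil .nil) .nil)) .nil), 2, (.cons 0 0xf00 (.cons 6 0xf0f (.cons 1 0xf000f0f .nil (.cons 7 0xf000f00 .nil .nil)) (.cons 4 0xf0f (.cons 9 0xf0f0f (.cons 3 0xf0000f0f0f (.cons 8 0xf00000f000 .nil .nil) .nil) (.cons 5 0xf000f .nil .nil)) .nil)) .nil), [0, 0, 120, 0, 0, 116, 0, 0, 116, 0, 0, 112, 0, 0, 56, 0, 0, 112, 0, 0, 120, 0, 0, 120, 0, 0, 96, 0, 0, 112, 0]⟩,
  ⟨⟨14, [[15, 16, 17, 18, 19, 20, 21, 1, 0], [14, 0, 13, 22, 16], [14, 15, 22, 11, 10, 9, 17], [14, 16, 9, 23, 18], [14, 17, 23, 7, 19], [14, 18, 7, 6, 20], [14, 19, 6, 5, 4, 24, 21], [14, 20, 24, 2, 1], [15, 13, 12, 11, 16], [17, 9, 8, 7, 18], [20, 4, 3, 2, 21]], [(0, 8), (7, 4), (10, 3), (10, 2), (6, 4), (6, 3), (5, 3), (9, 3), (9, 2), (2, 5), (2, 4), (8, 3), (8, 2), (1, 2)], [(0, 0)]⟩, [(0, 1), (0, 2), (0,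 3), (0, 4), (0, 5), (0, 6), (1, 4), (3, 4), (6, 6)], 0, (.cons 2 0xf (.cons 1 0xf0f (.cons 8 0xff0 .nil .nil) (.cons 3 0xf0f (.cons 4 0xf00f (.cons 5 0xf000f (.cons 6 0xf0000f (.cons 7 0xf00000f (.cons 10 0xff000000 .nil .nil) .nil) .nil) (.cons 9 0xff000 .nil .nil)) .nil) .nil)) .nil), 0, (.cons 1 0xf (.cons 3 0xff (.cons 2 0xf0ff (.cons 8 0xff0 .nil .nil) (.cons 4 0xf00f (.cons 5 0xf000f (.cons 6 0xf0000f (.cons 7 0xf00000f (.cons 10 0xff000000 .nil .nil) .nil) .nil) (.cons 9 0xff000 .nil .nil)) .nil)) .nil) .nil), [0, 0, 120, 0, 0, 112, 0, 0, 120, 0, 0, 120, 0, 0, 112, 0, 0, 120, 0, 0, 112, 0, 0, 112, 0, 0, 24, 0, 0, 96, 0, 0]⟩,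
  ⟨⟨14, [[15, 16, 17, 18, 19, 20, 21, 1, 0], [14, 0, 13, 12, 16], [14, 15, 12, 11, 10, 22, 17], [14, 16, 22, 8, 18], [14, 17, 8, 23, 19], [14, 18, 23, 6, 5, 4, 20], [14, 19, 4, 3, 21], [14, 20, 3, 2, 1], [16, 10, 9, 8, 17], [18, 8, 7, 6, 19]], [(0, 8), (7, 4), (7, 3), (6, 3), (5, 5), (5, 4), (9, 3), (9, 2), (8, 3), (8, 2), (2, 4), (2, 3), (1, 3), (1, 2)], [(0, 2), (3, 3)]⟩, [(0, 1), (0, 2), (0, 3), (0, 4), (0, 5), (0, 6), (2, 6), (4, 4)], 0, (.cons 3 0xf (.cons 2 0xf00f (.cons 1 0xf0f .nil (.cons 8 0xff00 .nil .nil)) (.cons 4 0xf00f (.cons 5 0xf000f (.cons 6 0xf0000f (.cons 7 0xf00000f .nil .nil) (.cons 9 0xff0000 .nil .nil)) .nil) .nil)) .nil), 0, (.cons 3 0xf (.cons 2 0xf00f (.cons 1 0xf0f .nil (.cons 8 0xff00 .nil .nil)) (.cons 5 0xf00f (.cons 4 0xf0f00f (.cons 9 0xff0000 .nil .nil) (.cons 6 0xf0000f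 (.cons 7 0xf00000f .nil .nil) .nil)) .nil)) .nil), [0, 0, 120, 0, 0, 120, 0, 0, 120, 0, 0, 120, 0, 0, 120, 0, 0, 112, 0, 0, 120, 0, 0, 112, 0, 0, 56, 0, 0, 112, 0, 0]⟩,
  ⟨⟨14, [[15, 16, 17, 18, 19, 20, 21, 4], [14, 4, 3, 2, 22, 16], [14, 15, 22, 23, 17], [14, 16, 23, 0, 13, 12, 18], [14, 17, 12, 11, 10, 19], [14, 18, 10, 9, 8, 20], [14, 19, 8, 7, 6, 21], [14, 20, 6, 5, 4], [15, 2, 1, 23, 16], [16, 22, 1, 0, 17]], [(9, 3), (8, 2), (1, 3), (1, 2), (7, 4), (7, 3), (6, 4), (6, 3), (5, 4), (5, 3), (4, 4), (4, 3), (3, 5), (3, 4)], [(0, 2), (3, 3), (3, 5)]⟩, [(0, 1), (0, 2), (0, 3), (0, 4), (0, 5), (0, 6), (1, 5), (2, 3), (2, 4)], 3, (.cons 0 0xf000 (.cons 2 0xf00f (.cons 1 0xff0f (.cons 8 0xfff0 (.cons 9 0xf0000ff00 .nil .nil) .nil) .nil) (.cons 4 0xf00f (.cons 5 0xf000f (.cons 6 0xf0000f (.cons 7 0xf00000f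 .nil .nil) .nil) .nil) .nil)) .nil), 9, (.cons 3 0xf000000000 (.cons 0 0xf00000f000 (.cons 1 0xf00000f00f (.cons 2 0xf00000f0ff (.cons 8 0xf000000ff0 .nil .nil) .nil) (.cons 6 0xf00f (.cons 5 0xf00f00f (.cons 4 0xf0f00f .nil .nil) (.cons 7 0xf00000f .nil .nil)) .nil)) .nil) .nil), [0, 0, 112, 0, 0, 120, 0, 0, 120, 0, 0, 120, 0, 0, 120, 0, 0, 112, 0, 0, 52, 0, 0, 96, 0, 0, 112, 0, 0, 40, 0, 0]⟩,
  ⟨⟨14, [[15, 7, 6, 5, 21, 22, 16], [14, 16, 17, 18, 19, 20, 7], [14, 22, 2, 1, 0, 17, 15], [15, 16, 0, 13, 18], [15, 17, 13, 12, 11, 19], [15, 18, 11, 10, 9, 20], [15, 19, 9, 8, 7], [14, 5, 4, 23, 22], [14, 21, 23, 2, 16], [21, 4, 3, 2, 22]], [(2, 4), (2, 3), (9, 3), (9, 2), (7, 2), (0, 3), (0, 2), (6, 4), (6, 3), (5, 4), (5, 3), (4, 4), (4, 3), (3, 3)], [(0, 1), (0, 3), (0, 6)]⟩, [(0, 0), (0, 5), (0, 6),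 (1, 2), (1, 3), (1, 4), (1, 5), (7, 4)], 2, (.cons 0 0xf00 (.cons 1 0xf0f (.cons 3 0xff0 (.cons 4 0xf0f0 (.cons 5 0xf00f0 (.cons 6 0xf000f0 .nil .nil) .nil) .nil) .nil) (.cons 8 0xf0f (.cons 7 0xf0000000f (.cons 9 0xff0000000 .nil .nil) .nil) .nil)) .nil), 2, (.cons 0 0xf00 (.cons 1 0xf0f (.cons 3 0xff0 (.cons 4 0xf0f0 (.cons 5 0xf00f0 (.cons 6 0xf000f0 .nil .nil) .nil) .nil) .nil) (.cons 7 0xf0f (.cons 8 0xf0000f0f (.cons 9 0xff0000000 .nil .nil) .nil) .nil)) .nil), [0, 0, 120, 0, 0, 116, 0, 0, 112, 0, 0, 120, 0, 0, 124, 0, 0, 60, 0, 0, 104, 0, 0, 112, 0, 0, 100, 0, 0, 120, 0, 8]⟩,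
  ⟨⟨14, [[15, 7, 6, 5, 21, 22, 16], [14, 16, 17, 18, 19, 20, 7], [14, 22, 2, 1, 0, 17, 15], [15, 16, 0, 13, 12, 18], [15, 17, 12, 11, 19], [15, 18, 11, 10, 9, 20], [15, 19, 9, 8, 7], [14, 5, 4, 23, 22], [14, 21, 23, 2, 16], [21, 4, 3, 2, 22]], [(2, 4), (2, 3), (9, 3), (9, 2), (7, 2), (0, 3), (0, 2), (6, 4), (6, 3), (5, 4), (5, 3), (4, 3), (3, 4), (3, 3)], [(0, 1), (0, 3), (0, 6)]⟩, [(0, 0), (0, 5), (0, 6), (1, 2), (1, 3), (1, 4), (1, 5), (7, 4)], 2, (.cons 0 0xf00 (.cons 1 0xf0f (.cons 3 0xff0 (.cons 4 0xf0f0 (.cons 5 0xf00f0 (.cons 6 0xf000f0 .nil .nil) .nil) .nil) .nil) (.cons 8 0xf0f (.cons 7 0xf0000000f (.cons 9 0xff0000000 .nil .nil) .nil) .nil)) .nil), 2, (.cons 0 0xf00 (.cons 1 0xf0f (.cons 3 0xff0 (.cons 4 0xf0f0 (.cons 5 0xf00f0 (.cons 6 0xf000f0 .nil .nil) .nil) .nil) .nil) (.cons 7 0xf0f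 (.cons 8 0xf0000f0f (.cons 9 0xff0000000 .nil .nil) .nil) .nil)) .nil), [0, 0, 112, 0, 0, 124, 0, 0, 112, 0, 0, 124, 0, 0, 112, 0, 0, 120, 0, 0, 120, 0, 0, 48, 0, 0, 64, 0, 32, 0, 0, 48, 0, 0]⟩,
  ⟨⟨14, [[15, 16, 17, 18, 19, 8, 7], [14, 7, 6, 5, 20, 21, 16], [14, 15, 21, 1, 0, 22, 17], [14, 16, 22, 23, 11, 18], [14, 17, 11, 10, 19], [14, 18, 10, 9, 8], [15, 5, 4, 3, 21], [15, 20, 3, 2, 1, 16], [16, 0, 13, 23, 17], [17, 22, 13, 12, 11]], [(2, 4), (7, 4), (7, 3), (6, 3), (6, 2), (1, 3), (1, 2), (0, 6), (5, 4), (5, 3), (4, 3), (9, 4), (9, 3), (8, 2)], [(0, 1), (0, 3), (4, 2)]⟩, [(0, 1), (0, 2), (0, 3), (0, 4), (1, 5), (1, 6), (2, 6), (3, 3)], 2, (.cons 1 0xf00 (.cons 0 0xff0 (.cons 3 0xf0f (.cons 4 0xf00f (.cons 5 0xf000f .nil .nil) (.cons 8 0xff00 (.cons 9 0xf0000f000 .nil .nil) .nil)) .nil) (.cons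 7 0xff0 (.cons 6 0xf00000f0 .nil .nil) .nil)) .nil), 2, (.cons 0 0xf00 (.cons 1 0xf0f (.cons 7 0xff0 (.cons 6 0xf00000f0 .nil .nil) .nil) (.cons 4 0xf0f (.cons 3 0xf0f0f (.cons 8 0xff00 (.cons 9 0xf0000f000 .nil .nil) .nil) (.cons 5 0xf000f .nil .nil)) .nil)) .nil), [0, 0, 120, 0, 0, 112, 0, 0, 120, 0, 0, 112, 0, 0, 120, 0, 0, 112, 0, 0, 120, 0, 0, 112, 0, 0, 120, 0, 0, 48, 0, 32, 0]⟩,
  ⟨⟨14, [[15, 16, 17, 18, 19, 20, 2, 1, 0], [14, 0, 13, 12, 16], [14, 15, 12, 11, 10, 21, 17], [14, 16, 21, 8, 22, 18], [14, 17, 22, 23, 19], [14, 18, 23, 6, 5, 4, 20], [14, 19, 4, 3, 2], [16, 10, 9, 8, 17], [17, 8, 7, 23, 18], [18, 22, 7, 6, 19]], [(0, 8), (0, 7), (6, 4), (6, 3), (5, 5), (5, 4), (9, 3), (8, 2), (7, 3), (7, 2), (2, 4), (2, 3), (1, 3), (1, 2)], [(0, 2), (2, 5), (3, 3)]⟩, [(0, 1), (0, 2), (0, 3), (0,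 4), (0, 5), (2, 6), (3, 5), (4, 3), (4, 4)], 0, (.cons 2 0xf (.cons 1 0xf0f .nil (.cons 3 0xf0f (.cons 4 0xf00f (.cons 8 0xff00f (.cons 9 0xf000f000f (.cons 5 0xf0000f000f (.cons 6 0xf0000f .nil .nil) .nil) .nil) .nil) (.cons 7 0xff00 .nil .nil)) .nil)) .nil), 0, (.cons 3 0xf (.cons 2 0xf00f (.cons 1 0xf0f .nil (.cons 7 0xff00 .nil .nil)) (.cons 5 0xf00f (.cons 4 0xf0f00f (.cons 9 0xfff000 (.cons 8 0xf0000ff000 .nil .nil) .nil) (.cons 6 0xf0000f .nil .nil)) .nil)) .nil), [0, 0, 124, 0, 0, 120, 0, 0, 120, 0, 0, 112, 0, 0, 120, 0, 0, 120, 0, 0, 112, 0, 0, 120, 0, 0, 112, 0, 0, 48, 0, 0]⟩,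
  ⟨⟨14, [[15, 16, 17, 18, 5, 19, 20, 0], [14, 0, 21, 22, 16], [14, 15, 22, 11, 23, 17], [14, 16, 23, 9, 8, 7, 18], [14, 17, 7, 6, 5], [14, 5, 4, 3, 24, 20], [14, 19, 24, 1, 0], [15, 0, 13, 12, 22], [15, 21, 12, 11, 16], [16, 11, 10, 9, 17], [19, 3, 2, 1, 20]], [(6, 4), (10, 3), (10, 2), (5, 3), (5, 2), (4, 4), (4, 3), (3, 5), (3, 4), (9, 3), (9, 2), (8, 3), (7, 3), (7, 2)], [(0, 0), (8, 2)]⟩, [(0, 1), (0, 2), (0, 3), (0, 6), (1, 3), (1, 4), (2, 5), (5, 5)], 0, (.cons 2 0xf (.cons 1 0xf0f (.cons 8 0xff0 (.cons 7 0xf000000f0 .nil .nil) .nil) (.cons 3 0xf0f (.cons 4 0xf00f .nil (.cons 9 0xff00 .nil .nil)) .nil)) (.cons 5 0xf (.cons 6 0xf0000f (.cons 10 0xff00000 .nil .nil) .nil) .nil)), 6, (.cons 5 0xf000000 (.cons 0 0xff00000 (.cons 1 0xf (.cons 8 0xff (.cons 2 0xf000000ff (.cons 3 0xf0f (.cons 4 0xf00f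 .nil (.cons 9 0xff00 .nil .nil)) .nil) (.cons 7 0xf000000f0 .nil .nil)) .nil) .nil) (.cons 10 0xff00000 .nil .nil)) .nil), [0, 0, 124, 0, 0, 124, 0, 0, 56, 0, 0, 120, 0, 0, 112, 0, 0, 120, 0, 0, 112, 0, 116, 0, 0, 88, 0, 0, 112, 0, 0]⟩,
  ⟨⟨14, [[15, 0, 20, 21, 8, 16], [14, 16, 17, 18, 19, 1, 0], [14, 8, 7, 6, 17, 15], [15, 16, 6, 5, 4, 18], [15, 17, 4, 3, 19], [15, 18, 3, 2, 1], [14, 0, 13, 12, 22, 23, 21], [14, 20, 23, 9, 8], [20, 12, 11, 10, 23], [20, 22, 10, 9, 21]], [(1, 6), (5, 4), (5, 3), (4, 3), (3, 4), (3, 3), (2, 3), (2, 2), (7, 4), (9, 3), (8, 3), (8, 2), (6, 3), (6, 2)], [(0, 3), (7, 2)]⟩, [(0, 0), (0, 3), (1, 2), (1, 3), (1, 4), (6, 5), (6, 6)], 0, (.cons 1 0xf (.cons 2 0xff (.cons 3 0xff0 (.cons 4 0xf0f0 (.cons 5 0xf00f0 .nil .nil) .nil) .nil) .nil) (.cons 6 0xf (.cons 7 0xf00000f (.cons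 9 0xff000000 (.cons 8 0xf00f000000 .nil .nil) .nil) .nil) .nil)), 1, (.cons 0 0xf0 (.cons 2 0xff (.cons 3 0xff0 (.cons 4 0xf0f0 (.cons 5 0xf00f0 .nil .nil) .nil) .nil) (.cons 7 0xf (.cons 9 0xf000000f (.cons 8 0xf0f000000f (.cons 6 0xfff000000f .nil .nil) .nil) .nil) .nil)) .nil), [0, 0, 120, 0, 0, 112, 0, 0, 120, 0, 0, 120, 0, 0, 112, 0, 0, 120, 0, 0, 112, 0, 0, 112, 0, 0, 48, 0, 0, 112, 0, 0]⟩,
  ⟨⟨14, [[15, 16, 17, 18, 19, 1, 0], [14, 0, 13, 12, 20, 21, 16], [14, 15, 21, 8, 7, 17], [14, 16, 7, 6, 5, 22, 18], [14, 17, 22, 23, 19], [14, 18, 23, 3, 2, 1], [15, 12, 11, 10, 21], [15, 20, 10, 9, 8, 16], [17, 5, 4, 23, 18], [18, 22, 4, 3, 19]], [(0, 6), (5, 5), (5, 4), (9, 3), (8, 2), (3, 4), (3, 3), (2, 4), (7, 4), (7, 3), (6, 3), (6, 2), (1, 3), (1, 2)], [(0, 2), (3, 2), (3, 4)]⟩, [(0, 1), (0, 2), (0,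 3), (0, 4), (1, 5), (1, 6), (3, 6), (4, 3), (4, 4)], 0, (.cons 2 0xf (.cons 1 0xf0f (.cons 7 0xff0 (.cons 6 0xf00000f0 .nil .nil) .nil) (.cons 3 0xf0f (.cons 4 0xf00f (.cons 8 0xff00f (.cons 9 0xf000f000f (.cons 5 0xf0000f000f .nil .nil) .nil) .nil) .nil) .nil)) .nil), 0, (.cons 3 0xf (.cons 1 0xf00f (.cons 2 0xf0ff (.cons 7 0xff0 (.cons 6 0xf00000f0 .nil .nil) .nil) .nil) (.cons 4 0xf00f (.cons 5 0xff00f (.cons 9 0xfff000 (.cons 8 0xf0000ff000 .nil .nil) .nil) .nil) .nil)) .nil), [0, 0, 120, 0, 0, 112, 0, 0, 120, 0, 0, 112, 0, 0, 120, 0, 0, 120, 0, 0, 112, 0, 0, 112, 0, 0, 112, 0, 0, 32, 0, 0]⟩,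
  ⟨⟨14, [[15, 0, 19, 20, 9, 21, 16], [14, 16, 17, 18, 2, 1, 0], [14, 21, 22, 6, 17, 15], [15, 16, 6, 5, 4, 18], [15, 17, 4, 3, 2], [14, 0, 13, 12, 23, 20], [14, 19, 23, 10, 9], [14, 9, 8, 22, 16], [21, 8, 7, 6, 16], [19, 12, 11, 10, 20]], [(1, 6), (1, 5), (4, 4), (4, 3), (3, 4), (3, 3), (8, 3), (8, 2), (7, 2), (6, 4), (9, 3), (9, 2), (5, 3), (5, 2)], [(1, 1), (2, 3)]⟩, [(0, 0), (0, 3), (0, 6), (1, 2), (1, 3), (5, 5), (7, 4)], 0, (.cons 2 0xf (.cons 1 0xf0f (.cons 3 0xff0 (.cons 4 0xf0f0 .nil .nil) .nil) (.cons 7 0xf0f (.cons 8 0xf0000f00 .nil .nil) .nil)) (.cons 5 0xf (.cons 6 0xf0000f (.cons 9 0xff00000 .nil .nil) .nil) .nil)), 1, (.cons 2 0xf0 (.cons 0 0xff0 (.cons 5 0xf (.cons 6 0xf0000f (.cons 9 0xff00000 .nil .nil) .nil) (.cons 7 0xf0f (.cons 8 0xf0000f00 .nil .nil) .nil)) (.cons 3 0xff0 (.cons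 4 0xf0f0 .nil .nil) .nil)) .nil), [0, 0, 120, 0, 0, 120, 0, 0, 124, 0, 0, 124, 0, 0, 120, 0, 0, 120, 0, 0, 48, 0, 0, 112, 0, 0, 48, 0, 0, 48, 0, 0, 96, 0, 0]⟩,
  ⟨⟨14, [[15, 16, 17, 18, 19, 20, 0], [14, 0, 13, 12, 21, 22, 16], [14, 15, 22, 8, 7, 17], [14, 16, 7, 6, 5, 18], [14, 17, 5, 4, 3, 19], [14, 18, 3, 23, 20], [14, 19, 23, 1, 0], [15, 12, 11, 10, 22], [15, 21, 10, 9, 8, 16], [19, 3, 2, 1, 20]], [(6, 4), (9, 3), (9, 2), (4, 4), (4, 3), (3, 4), (3, 3), (2, 4), (8, 4), (8, 3), (7, 3), (7, 2), (1, 3), (1, 2)], [(0, 5)]⟩, [(0, 1), (0, 2), (0, 3), (0, 4), (0, 5), (1, 5), (1, 6), (5, 4)], 0, (.cons 2 0xf (.cons 1 0xf0f (.cons 8 0xff0 (.cons 7 0xf000000f0 .nil .nil) .nil) (.cons 3 0xf0f (.cons 4 0xf00f (.cons 5 0xf000f (.cons 6 0xf0000f (.cons 9 0xff00000 .nil .nil) .nil) .nil) .nil) .nil)) .nil), 6,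 (.cons 0 0xf000000 (.cons 5 0xf00000f (.cons 4 0xf0000f (.cons 3 0xf000f (.cons 2 0xf00f (.cons 8 0xf0f (.cons 1 0xf00000f0f (.cons 7 0xf000000f0 .nil .nil) .nil) .nil) .nil) .nil) (.cons 9 0xff00000 .nil .nil)) .nil) .nil), [0, 0, 112, 0, 0, 124, 0, 0, 120, 0, 0, 120, 0, 0, 112, 0, 0, 124, 0, 0, 124, 0, 0, 120, 0, 0, 88, 0, 0, 120, 0, 0]⟩,
  ⟨⟨14, [[15, 16, 17, 18, 19, 20, 21, 1, 0], [14, 0, 13, 22, 16], [14, 15, 22, 11, 23, 17], [14, 16, 23, 9, 8, 7, 18], [14, 17, 7, 6, 19], [14, 18, 6, 5, 20], [14, 19, 5, 4, 3, 21], [14, 20, 3, 2, 1], [15, 13, 12, 11, 16], [16, 11, 10, 9, 17]], [(0, 8), (7, 4), (7, 3), (6, 4), (6, 3), (5, 3), (4, 3), (3, 5), (3, 4), (9, 3), (9, 2), (8, 3), (8, 2), (1, 2)], [(5, 3), (8, 1), (8, 3)]⟩, [(0, 1), (0, 2), (0, 3), (0, 4), (0, 5), (0, 6), (1, 4), (2, 5)], 0, (.cons 2 0xf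 (.cons 1 0xf0f (.cons 8 0xff0 .nil .nil) (.cons 3 0xf0f (.cons 4 0xf00f (.cons 5 0xf000f (.cons 6 0xf0000f (.cons 7 0xf00000f .nil .nil) .nil) .nil) (.cons 9 0xff00 .nil .nil)) .nil)) .nil), 0, (.cons 2 0xf (.cons 1 0xf0f (.cons 8 0xff0 .nil .nil) (.cons 3 0xf0f (.cons 4 0xf00f (.cons 5 0xf000f (.cons 6 0xf0000f (.cons 7 0xf00000f .nil .nil) .nil) .nil) (.cons 9 0xff00 .nil .nil)) .nil)) .nil), [0, 0, 120, 0, 0, 112, 0, 0, 120, 0, 0, 120, 0, 0, 120, 0, 0, 120, 0, 0, 120, 0, 0, 112, 0, 0, 112, 0, 0, 120, 0, 0]⟩,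
  ⟨⟨14, [[15, 16, 17, 18, 19, 1, 0], [14, 0, 20, 21, 22, 16], [14, 15, 22, 8, 7, 17], [14, 16, 7, 6, 5, 18], [14, 17, 5, 4, 3, 19], [14, 18, 3, 2, 1], [15, 0, 13, 12, 21], [15, 20, 12, 11, 10, 22], [15, 21, 10, 9, 8, 16]], [(0, 6), (5, 4), (5, 3), (4, 4), (4, 3), (3, 4), (3, 3), (2, 4), (8, 4), (8, 3), (7, 4), (7, 3), (6, 3), (6, 2)], [(1, 4), (8, 2), (8, 4)]⟩, [(0, 1), (0, 2), (0, 3), (0, 4), (1, 3), (1, 4), (1, 5)], 0, (.cons 2 0xf (.cons 1 0xf0f (.cons 8 0xff0 (.cons 7 0xf000000f0 (.cons 6 0xf00000f0 .nil .nil) .nil) .nil) (.cons 3 0xf0f (.cons 4 0xf00f (.cons 5 0xf000f .nil .nil) .nil) .nil)) .nil), 0, (.cons 1 0xf (.cons 8 0xff (.cons 2 0xf000000ff (.cons 3 0xf0f (.cons 4 0xf00f (.cons 5 0xf000f .nil .nil) .nil) .nil) (.cons 6 0xf000000f0 (.cons 7 0xf0f0000f0 .nil .nil) .nil)) .nil) .nil), [0,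 0, 120, 0, 0, 120, 0, 0, 120, 0, 0, 120, 0, 0, 56, 0, 0, 112, 0, 0, 120, 0, 0, 120, 0, 0, 112, 0, 0, 112, 0, 0, 48, 0]⟩,
  ⟨⟨14, [[15, 16, 17, 18, 19, 2, 1, 0], [14, 0, 20, 21, 22, 16], [14, 15, 22, 9, 23, 17], [14, 16, 23, 7, 6, 5, 18], [14, 17, 5, 4, 19], [14, 18, 4, 3, 2], [15, 0, 13, 12, 21], [15, 20, 12, 11, 22], [15, 21, 11, 10, 9, 16], [16, 9, 8, 7, 17]], [(0, 7), (0, 6), (5, 4), (5, 3), (4, 3), (3, 5), (3, 4), (9, 3), (9, 2), (8, 4), (8, 3), (7, 3), (6, 3), (6, 2)], [(0, 0)]⟩, [(0, 1), (0, 2), (0, 3), (0, 4), (1, 3), (1, 4), (1, 5), (2, 5)], 0, (.cons 3 0xf (.cons 2 0xf00f (.cons 1 0xf0f (.cons 8 0xff0 (.cons 7 0xf000000f0 (.cons 6 0xf00000f0 .nil .nil) .nil) .nil) (.cons 9 0xff00 .nil .nil)) (.cons 4 0xf00f (.cons 5 0xf000f .nil .nil) .nil)) .nil), 0, (.cons 1 0xf (.cons 2 0xff (.cons 3 0xf0f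 (.cons 4 0xf00f (.cons 5 0xf000f .nil .nil) (.cons 9 0xff00 .nil .nil)) (.cons 8 0xff0 (.cons 7 0xf000000f0 (.cons 6 0xf00000f0 .nil .nil) .nil) .nil)) .nil) .nil), [0, 0, 112, 0, 0, 120, 0, 0, 120, 0, 0, 120, 0, 0, 120, 0, 0, 112, 0, 0, 120, 0, 0, 112, 0, 0, 120, 0, 0, 112, 0, 0]⟩,
  ⟨⟨14, [[15, 16, 17, 18, 19, 20, 2, 1, 0], [14, 0, 13, 21, 16], [14, 15, 21, 11, 22, 17], [14, 16, 22, 9, 8, 7, 18], [14, 17, 7, 23, 19], [14, 18, 23, 5, 4, 20], [14, 19, 4, 3, 2], [15, 13, 12, 11, 16], [16, 11, 10, 9, 17], [18, 7, 6, 5, 19]], [(0, 8), (0, 7), (6, 4), (6, 3), (5, 4), (9, 3), (9, 2), (3, 5), (3, 4), (8, 3), (8, 2), (7, 3), (7, 2), (1, 2)], [(0, 0), (1, 3)]⟩, [(0, 1), (0, 2), (0, 3), (0, 4), (0, 5), (1, 4), (2, 5), (4, 4)], 0, (.cons 2 0xf (.cons 1 0xf0f (.cons 7 0xff0 .nil .nil) (.cons 3 0xf0f (.cons 4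 0xf00f (.cons 5 0xf000f (.cons 6 0xf0000f .nil (.cons 9 0xff0000 .nil .nil)) .nil) (.cons 8 0xff00 .nil .nil)) .nil)) .nil), 0, (.cons 1 0xf (.cons 7 0xff (.cons 3 0xf00000ff (.cons 2 0xf000f0ff (.cons 8 0xff00 .nil .nil) (.cons 4 0xf00f (.cons 5 0xf000f (.cons 6 0xf0000f .nil (.cons 9 0xff0000 .nil .nil)) .nil) .nil)) .nil) .nil) .nil), [0, 0, 112, 0, 0, 120, 0, 0, 120, 0, 0, 120, 0, 0, 120, 0, 0, 112, 0, 0, 120, 0, 0, 112, 0, 0, 48, 0, 0, 112, 0, 0, 48, 0, 0]⟩,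
  ⟨⟨14, [[15, 16, 17, 18, 19, 20, 1, 0], [14, 0, 13, 21, 16], [14, 15, 21, 11, 10, 9, 17], [14, 16, 9, 8, 22, 23, 18], [14, 17, 23, 5, 4, 19], [14, 18, 4, 3, 20], [14, 19, 3, 2, 1], [15, 13, 12, 11, 16], [17, 8, 7, 6, 23], [17, 22, 6, 5, 18]], [(0, 7), (6, 4), (6, 3), (5, 3), (4, 4), (9, 3), (8, 3), (8, 2), (3, 3), (2, 5), (2, 4), (7, 3), (7, 2), (1, 2)], [(0, 0), (1, 3)]⟩, [(0, 1), (0, 2), (0, 3), (0, 4), (0, 5), (1, 4), (3, 5), (3, 6)], 0, (.cons 2 0xf (.cons 1 0xf0f (.cons 7 0xff0 .nil .nil) (.cons 3 0xf0f (.cons 4 0xf00f (.cons 5 0xf000f (.cons 6 0xf0000f .nil .nil) (.cons 9 0xff000 (.cons 8 0xf00000f000 .nil .nil) .nil)) .nil) .nil)) .nil), 0, (.cons 1 0xf (.cons 7 0xff (.cons 4 0xf00000ff (.cons 3 0xf00f00ff (.cons 2 0xf000f0ff .nil (.cons 9 0xff000 (.cons 8 0xf00000f000 .nil .nil) .nil)) (.cons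 5 0xf000f (.cons 6 0xf0000f .nil .nil) .nil)) .nil) .nil) .nil), [0, 0, 124, 0, 0, 120, 0, 0, 120, 0, 0, 120, 0, 0, 120, 0, 0, 112, 0, 0, 120, 0, 0, 56, 0, 0, 112, 0, 0, 108, 0, 0, 112]⟩,
  ⟨⟨14, [[15, 2, 1, 0, 20, 21, 16], [14, 16, 17, 18, 19, 4, 3, 2], [14, 21, 9, 8, 17, 15], [15, 16, 8, 7, 18], [15, 17, 7, 6, 19], [15, 18, 6, 5, 4], [14, 0, 22, 23, 21], [14, 20, 23, 11, 10, 9, 16], [20, 0, 13, 12, 23], [20, 22, 12, 11, 21]], [(0, 3), (0, 2), (1, 7), (1, 6), (5, 4), (5, 3), (4, 3), (3, 3), (2, 3), (7, 5), (7, 4), (9, 3), (8, 3), (8, 2)], [(0, 5), (7, 3), (7, 5)]⟩, [(0, 0), (0, 5), (0, 6), (1, 2), (1, 3), (1, 4), (6, 3), (6, 4)], 0, (.cons 2 0xf (.cons 1 0xf0f (.cons 3 0xff0 (.cons 4 0xf0f0 (.cons 5 0xf00f0 .nil .nil) .nil) .nil) (.cons 7 0xf0f (.cons 6 0xf000000f (.cons 9 0xff000000 (.cons 8 0xf00f000000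 .nil .nil) .nil) .nil) .nil)) .nil), 0, (.cons 7 0xf (.cons 1 0xf000000f (.cons 2 0xf00000ff (.cons 3 0xff0 (.cons 4 0xf0f0 (.cons 5 0xf00f0 .nil .nil) .nil) .nil) .nil) (.cons 6 0xf000000f (.cons 9 0xff000000 (.cons 8 0xf00f000000 .nil .nil) .nil) .nil)) .nil), [0, 0, 120, 0, 0, 120, 0, 0, 124, 0, 0, 112, 0, 0, 124, 0, 0, 112, 0, 0, 120, 0, 0, 104, 0, 40, 0, 0, 64, 0, 0, 32, 0, 16, 0, 0]⟩]

noncomputable def jobs30 : List Job := [⟨⟨14, [[15, 16, 17, 18, 11, 19, 20, 6], [14, 6, 5, 4, 21, 22, 16], [14, 15, 22, 1, 0, 17], [14, 16, 0, 13, 18], [14, 17, 13, 12, 11], [14, 11, 10, 23, 20], [14, 19, 23, 8, 7, 6], [15, 4, 3, 2, 22], [15, 21, 2, 1, 16], [19, 10, 9, 8, 20]], [(2, 4), (8, 3), (7, 3), (7, 2), (1, 3), (1, 2), (6, 5), (6, 4), (9, 3), (9, 2), (5, 2), (4, 4), (4, 3), (3, 3)], [(2, 5), (3, 3)]⟩, [(0,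 1), (0, 2), (0, 3), (0, 6), (1, 5), (1, 6), (5, 4)], 2, (.cons 0 0xf00 (.cons 1 0xf0f (.cons 8 0xff0 (.cons 7 0xf000000f0 .nil .nil) .nil) (.cons 3 0xf0f (.cons 4 0xf00f .nil .nil) (.cons 5 0xf (.cons 6 0xf0000f (.cons 9 0xff00000 .nil .nil) .nil) .nil))) .nil), 2, (.cons 3 0xf00 (.cons 0 0xff00 (.cons 1 0xf0f (.cons 8 0xff0 (.cons 7 0xf000000f0 .nil .nil) .nil) (.cons 4 0xf00f .nil (.cons 5 0xf (.cons 6 0xf0000f (.cons 9 0xff00000 .nil .nil) .nil) .nil))) .nil) .nil), [0, 0, 120, 0, 0, 120, 0, 0, 112, 0, 0, 112, 0, 0, 120, 0, 0, 112, 0, 0, 120, 0, 0, 120, 0, 0, 120, 0, 0, 112, 0, 0, 120, 0, 0, 112, 0, 0, 48, 0, 0]⟩,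
  ⟨⟨14, [[15, 16, 17, 18, 19, 1, 0], [14, 0, 13, 20, 21, 22, 16], [14, 15, 22, 8, 7, 17], [14, 16, 7, 6, 5, 18], [14, 17, 5, 4, 3, 19], [14, 18, 3, 2, 1], [15, 13, 12, 11, 21], [15, 20, 11, 10, 9, 22], [15, 21, 9, 8, 16]], [(0, 6), (5, 4), (5, 3), (4, 4), (4, 3), (3, 4), (3, 3), (2, 4), (8, 3), (7, 4), (7, 3), (6, 3), (6, 2), (1, 2)], [(1, 4), (7, 2), (7, 4)]⟩, [(0, 1), (0, 2), (0, 3), (0, 4), (1, 4), (1, 5), (1, 6)], 0, (.cons 2 0xf (.cons 1 0xf0f (.cons 8 0xff0 (.cons 7 0xf000000f0 (.cons 6 0xf00000f0 .nil .nil) .nil) .nil) (.cons 3 0xf0f (.cons 4 0xf00f (.cons 5 0xf000f .nil .nil) .nil) .nil)) .nil), 0, (.cons 1 0xf (.cons 7 0xff (.cons 2 0xf00000ff (.cons 3 0xf0f (.cons 4 0xf00f (.cons 5 0xf000f .nil .nil) .nil) (.cons 8 0xf0000ff0 .nil .nil)) (.cons 6 0xf00000f0 .nil .nil)) .nil) .nil), [0, 0,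 112, 0, 0, 120, 0, 0, 112, 0, 0, 116, 0, 0, 120, 0, 0, 112, 0, 0, 120, 0, 0, 120, 0, 0, 112, 0, 0, 120, 0, 0, 112, 0, 0, 116, 0, 0, 104, 0, 24, 0]⟩,
  ⟨⟨14, [[15, 2, 1, 0, 20, 21, 16], [14, 16, 17, 18, 19, 3, 2], [14, 21, 10, 9, 17, 15], [15, 16, 9, 8, 7, 18], [15, 17, 7, 6, 5, 19], [15, 18, 5, 4, 3], [14, 0, 13, 22, 21], [14, 20, 22, 11, 10, 16], [20, 13, 12, 11, 21]], [(0, 3), (0, 2), (1, 6), (5, 4), (5, 3), (4, 4), (4, 3), (3, 4), (3, 3), (2, 3), (7, 4), (8, 3), (8, 2), (6, 2)], [(1, 2), (0, 5), (7, 4)]⟩, [(0, 0), (0, 5), (0, 6), (1, 2), (1, 3), (1, 4), (6, 4)], 0, (.cons 2 0xf (.cons 1 0xf0f (.cons 3 0xff0 (.cons 4 0xf0f0 (.cons 5 0xf00f0 .nil .nil) .nil) .nil) (.cons 7 0xf0f (.cons 6 0xf000000f (.cons 8 0xff000000 .nil .nil) .nil) .nil)) .nil), 0, (.cons 7 0xf (.cons 1 0xf000000f (.cons 3 0xf00000ff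 (.cons 2 0xf000f0ff .nil (.cons 4 0xf0f0 (.cons 5 0xf00f0 .nil .nil) .nil)) .nil) (.cons 6 0xf000000f (.cons 8 0xff000000 .nil .nil) .nil)) .nil), [0, 0, 124, 0, 0, 120, 0, 0, 120, 0, 0, 112, 0, 0, 120, 0, 0, 120, 0, 0, 120, 0, 0, 112, 0, 0, 112, 0, 0, 120, 0, 0, 112, 0, 0, 56, 0, 0, 112, 0, 0, 48, 0]⟩,
  ⟨⟨14, [[15, 16, 17, 18, 8, 7, 6], [14, 6, 19, 20, 21, 16], [14, 15, 21, 1, 0, 17], [14, 16, 0, 13, 12, 22, 18], [14, 17, 22, 10, 9, 8], [15, 6, 5, 4, 20], [15, 19, 4, 3, 21], [15, 20, 3, 2, 1, 16], [17, 12, 11, 10, 18]], [(2, 4), (7, 4), (7, 3), (6, 3), (5, 3), (5, 2), (0, 6), (0, 5), (4, 5), (4, 4), (8, 3), (8, 2), (3, 4), (3, 3)], [(0, 2), (0, 4), (0, 6)]⟩, [(0, 1), (0, 2), (0, 3), (1, 3), (1, 4), (1, 5), (3, 6)], 2, (.cons 0 0xf00 (.cons 1 0xf0f (.cons 7 0xff0 (.cons 6 0xf00000f0 (.cons 5 0xf0000f0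 .nil .nil) .nil) .nil) (.cons 3 0xf0f (.cons 4 0xf00f (.cons 8 0xff000 .nil .nil) .nil) .nil)) .nil), 2, (.cons 0 0xf00 (.cons 1 0xf0f (.cons 7 0xff0 (.cons 6 0xf00000f0 (.cons 5 0xf0000f0 .nil .nil) .nil) .nil) (.cons 3 0xf0f (.cons 4 0xf00f (.cons 8 0xff000 .nil .nil) .nil) .nil)) .nil), [0, 0, 120, 0, 0, 124, 0, 0, 120, 0, 0, 120, 0, 0, 120, 0, 0, 112, 0, 0, 112, 0, 0, 120, 0, 0, 116, 0, 0, 120, 0, 0, 48, 0, 0, 48, 0, 0, 112, 0, 0, 32, 0, 0, 32]⟩,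
  ⟨⟨14, [[15, 16, 17, 18, 0, 19, 20, 10], [14, 10, 9, 8, 21, 22, 16], [14, 15, 22, 4, 3, 17], [14, 16, 3, 23, 18], [14, 17, 23, 1, 0], [14, 0, 13, 24, 20], [14, 19, 24, 11, 10], [15, 8, 7, 6, 22], [15, 21, 6, 5, 4, 16], [17, 3, 2, 1, 18], [19, 13, 12, 11, 20]], [(4, 4), (9, 3), (9, 2), (2, 4), (8, 4), (8, 3), (7, 3), (7, 2), (1, 3), (1, 2), (6, 4), (10, 3), (10, 2), (5, 2)], [(1, 5), (8, 2), (8, 4)]⟩, [(0, 1), (0, 2), (0, 3), (0, 6), (1, 5), (1, 6), (3, 4), (5, 4)], 0, (.cons 2 0xf (.cons 1 0xf0f (.cons 8 0xff0 (.cons 7 0xf000000f0 .nil .nil) .nil) (.cons 3 0xf0f (.cons 4 0xf00f (.cons 9 0xff000 .nil .nil) .nil) .nil)) (.cons 5 0xf (.cons 6 0xf0000f (.cons 10 0xff00000 .nil .nil) .nil) .nil)), 4, (.cons 1 0xf0000 (.cons 8 0xf00f0 (.cons 0 0xf000f00f0 (.cons 2 0xf000f00ff (.cons 3 0xf0f0f (.cons 9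 0xff000 .nil .nil) .nil) (.cons 5 0xf (.cons 6 0xf0000f (.cons 10 0xff00000 .nil .nil) .nil) .nil)) (.cons 7 0xf000000f0 .nil .nil)) .nil) .nil), [0, 0, 120, 0, 0, 112, 0, 0, 120, 0, 0, 124, 0, 0, 112, 0, 0, 120, 0, 0, 56, 0, 0, 96, 0, 0, 112, 0, 0, 96, 0, 0, 112, 0, 0, 56, 0, 0, 96, 0, 0, 56, 0, 16, 0]⟩,
  ⟨⟨14, [[15, 16, 17, 18, 19, 20, 1, 0], [14, 0, 13, 12, 16], [14, 15, 12, 11, 10, 21, 17], [14, 16, 21, 8, 7, 18], [14, 17, 7, 22, 19], [14, 18, 22, 5, 4, 3, 20], [14, 19, 3, 2, 1], [16, 10, 9, 8, 17], [18, 7, 6, 5, 19]], [(0, 7), (6, 4), (6, 3), (5, 5), (5, 4), (8, 3), (8, 2), (3, 4), (7, 3), (7, 2), (2, 4), (2, 3), (1, 3), (1, 2)], [(3, 5), (8, 1), (8, 3)]⟩, [(0, 1), (0, 2), (0, 3), (0, 4), (0, 5), (2, 6), (4, 4)], 0, (.cons 3 0xf (.cons 2 0xf00f (.cons 1 0xf0f .nil (.cons 7 0xff00 .nil .nil))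 (.cons 4 0xf00f (.cons 5 0xf000f (.cons 6 0xf0000f .nil (.cons 8 0xff0000 .nil .nil)) .nil) .nil)) .nil), 0, (.cons 3 0xf (.cons 2 0xf00f (.cons 1 0xf0f .nil (.cons 7 0xff00 .nil .nil)) (.cons 4 0xf00f (.cons 5 0xf000f (.cons 6 0xf0000f .nil (.cons 8 0xff0000 .nil .nil)) .nil) .nil)) .nil), [0, 0, 120, 0, 0, 120, 0, 0, 112, 0, 0, 120, 0, 0, 112, 0, 0, 112, 0, 0, 120, 0, 0, 120, 0, 0, 112, 0, 0, 120, 0, 0, 96, 0, 0, 56, 0, 0, 96, 0, 0, 112, 0, 0]⟩,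
  ⟨⟨14, [[15, 16, 17, 18, 19, 20, 1, 0], [14, 0, 13, 12, 21, 16], [14, 15, 21, 22, 17], [14, 16, 22, 10, 9, 18], [14, 17, 9, 8, 7, 23, 19], [14, 18, 23, 5, 4, 3, 20], [14, 19, 3, 2, 1], [15, 12, 11, 22, 16], [16, 21, 11, 10, 17], [18, 7, 6, 5, 19]], [(0, 7), (6, 4), (6, 3), (5, 5), (5, 4), (9, 3), (9, 2), (4, 4), (4, 3), (3, 4), (8, 3), (7, 2), (1, 3), (1, 2)], [(4, 2), (4, 4), (4, 6), (5, 3)]⟩, [(0, 1), (0, 2), (0, 3), (0, 4), (0, 5), (1, 5), (2, 3), (2, 4), (4, 6)], 0, (.cons 5 0xf (.cons 4 0xf0000f (.cons 3 0xf000f (.cons 2 0xf00f (.cons 8 0xff0f (.cons 7 0xf00000f0f (.cons 1 0xf0000f0f .nil .nil) .nil) .nil) .nil) (.cons 9 0xff0000 .nil .nil)) (.cons 6 0xf0000f .nil .nil)) .nil), 0, (.cons 5 0xf (.cons 4 0xf0000f (.cons 3 0xf000f (.cons 2 0xf00f (.cons 8 0xff0f (.cons 7 0xf00000f0f (.cons 1 0xf0000f0f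 .nil .nil) .nil) .nil) .nil) (.cons 9 0xff0000 .nil .nil)) (.cons 6 0xf0000f .nil .nil)) .nil), [0, 0, 120, 0, 0, 120, 0, 0, 120, 0, 0, 112, 0, 0, 120, 0, 0, 112, 0, 0, 112, 0, 0, 120, 0, 0, 120, 0, 0, 120, 0, 0, 112, 0, 0, 80, 0, 0, 48, 0, 96, 0, 0]⟩,
  ⟨⟨14, [[15, 16, 17, 18, 19, 2, 1, 0], [14, 0, 13, 12, 20, 21, 16], [14, 15, 21, 8, 7, 17], [14, 16, 7, 22, 18], [14, 17, 22, 5, 4, 19], [14, 18, 4, 3, 2], [15, 12, 11, 10, 21], [15, 20, 10, 9, 8, 16], [17, 7, 6, 5, 18]], [(0, 7), (0, 6), (5, 4), (5, 3), (4, 4), (8, 3), (8, 2), (2, 4), (7, 4), (7, 3), (6, 3), (6, 2), (1, 3), (1, 2)], [(1, 5), (7, 2), (7, 4)]⟩, [(0, 1), (0, 2), (0, 3), (0, 4), (1, 5), (1, 6), (3, 4)], 0, (.cons 2 0xf (.cons 1 0xf0f (.cons 7 0xff0 (.cons 6 0xf00000f0 .nil .nil) .nil) (.cons 3 0xf0f (.cons 4 0xf00f (.cons 5 0xf000f .nil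 (.cons 8 0xff000 .nil .nil)) .nil) .nil)) .nil), 0, (.cons 1 0xf (.cons 7 0xff (.cons 2 0xf00000ff (.cons 3 0xf0f (.cons 4 0xf00f (.cons 5 0xf000f .nil (.cons 8 0xff000 .nil .nil)) .nil) .nil) (.cons 6 0xf00000f0 .nil .nil)) .nil) .nil), [0, 0, 120, 0, 0, 120, 0, 0, 124, 0, 0, 120, 0, 0, 120, 0, 0, 120, 0, 0, 120, 0, 0, 120, 0, 0, 120, 0, 0, 120, 0, 0, 48, 0, 0, 112, 0, 0, 112, 0, 0, 48, 0, 0, 48]⟩,
  ⟨⟨14, [[15, 16, 17, 18, 19, 2, 1, 0], [14, 0, 13, 20, 21, 22, 16], [14, 15, 22, 7, 6, 17], [14, 16, 6, 5, 18], [14, 17, 5, 4, 19], [14, 18, 4, 3, 2], [15, 13, 12, 11, 21], [15, 20, 11, 10, 9, 22], [15, 21, 9, 8, 7, 16]], [(0, 7), (0, 6), (5, 4), (5, 3), (4, 3), (3, 3), (2, 4), (8, 4), (8, 3), (7, 4), (7, 3), (6, 3), (6, 2), (1, 2)], [(1, 5), (8, 2), (8, 4)]⟩, [(0, 1), (0, 2), (0, 3), (0, 4), (1, 4),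 (1, 5), (1, 6)], 0, (.cons 2 0xf (.cons 1 0xf0f (.cons 8 0xff0 (.cons 7 0xf000000f0 (.cons 6 0xf00000f0 .nil .nil) .nil) .nil) (.cons 3 0xf0f (.cons 4 0xf00f (.cons 5 0xf000f .nil .nil) .nil) .nil)) .nil), 0, (.cons 1 0xf (.cons 8 0xff (.cons 2 0xf000000ff (.cons 3 0xf0f (.cons 4 0xf00f (.cons 5 0xf000f .nil .nil) .nil) .nil) (.cons 6 0xf000000f0 (.cons 7 0xf0f0000f0 .nil .nil) .nil)) .nil) .nil), [0, 0, 120, 0, 0, 112, 0, 0, 120, 0, 0, 116, 0, 0, 120, 0, 0, 120, 0, 0, 112, 0, 0, 120, 0, 0, 112, 0, 0, 120, 0, 0, 112, 0, 0, 96, 0, 0, 48, 0, 0, 96, 0, 0]⟩,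
  ⟨⟨14, [[15, 0, 13, 12, 20, 21, 16], [14, 16, 17, 18, 19, 1, 0], [14, 21, 6, 5, 17, 15], [15, 16, 5, 4, 18], [15, 17, 4, 3, 19], [15, 18, 3, 2, 1], [14, 12, 11, 10, 22, 21], [14, 20, 22, 8, 7, 6, 16], [20, 10, 9, 8, 21]], [(1, 6), (5, 4), (5, 3), (4, 3), (3, 3), (2, 3), (7, 5), (7, 4), (8, 3), (8, 2), (6, 3), (6, 2), (0, 3), (0, 2)], [(0, 1), (0, 3), (0, 5)]⟩, [(0, 0), (0, 5), (0, 6), (1, 2), (1, 3), (1, 4), (6, 5)], 0, (.cons 2 0xf (.cons 1 0xf0f (.cons 3 0xff0 (.cons 4 0xf0f0 (.cons 5 0xf00f0 .nil .nil) .nil) .nil) (.cons 7 0xf0f (.cons 6 0xf000000f (.cons 8 0xff000000 .nil .nil) .nil) .nil)) .nil), 1, (.cons 0 0xf0 (.cons 7 0xff (.cons 2 0xf00000ff (.cons 3 0xff0 (.cons 4 0xf0f0 (.cons 5 0xf00f0 .nil .nil) .nil) .nil) (.cons 8 0xf000000f (.cons 6 0xff000000f .nil .nil) .nil)) .nil) .nil), [0,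 0, 124, 0, 0, 116, 0, 0, 120, 0, 0, 120, 0, 0, 112, 0, 0, 124, 0, 0, 120, 0, 0, 120, 0, 0, 112, 0, 0, 112, 0, 0, 112, 0, 0, 120, 0, 0, 48, 0, 0, 96, 0, 0]⟩,
  ⟨⟨14, [[15, 16, 17, 18, 19, 2, 1, 0], [14, 0, 13, 20, 16], [14, 15, 20, 21, 22, 7, 17], [14, 16, 7, 6, 18], [14, 17, 6, 5, 4, 19], [14, 18, 4, 3, 2], [15, 13, 12, 11, 21, 16], [16, 20, 11, 10, 9, 22], [16, 21, 9, 8, 7]], [(0, 7), (0, 6), (5, 4), (5, 3), (4, 4), (4, 3), (3, 3), (8, 4), (8, 3), (7, 4), (7, 3), (6, 3), (6, 2), (1, 2)], [(0, 3), (4, 2), (4, 4)]⟩, [(0, 1), (0, 2), (0, 3), (0, 4), (1, 4), (2, 3), (2, 4)], 0, (.cons 2 0xf (.cons 1 0xf0f (.cons 6 0xff0 (.cons 7 0xf000f00 (.cons 8 0xf0000f00 .nil .nil) .nil) .nil) (.cons 3 0xf0f (.cons 4 0xf00f (.cons 5 0xf000f .nil .nil) .nil) .nil)) .nil), 0, (.cons 4 0xf (.cons 2 0xf000f (.cons 1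 0xf0f (.cons 6 0xff0 (.cons 7 0xf000f00 (.cons 8 0xf0000f00 .nil .nil) .nil) .nil) (.cons 3 0xf0f0f .nil .nil)) (.cons 5 0xf000f .nil .nil)) .nil), [0, 0, 120, 0, 0, 124, 0, 0, 120, 0, 0, 124, 0, 0, 116, 0, 0, 120, 0, 0, 120, 0, 0, 120, 0, 0, 124, 0, 0, 112, 0, 0, 112, 0, 0, 112, 0, 0, 112, 0, 88, 0, 16, 0]⟩,
  ⟨⟨14, [[15, 16, 17, 18, 19, 20, 8], [14, 8, 7, 6, 16], [14, 15, 6, 5, 21, 17], [14, 16, 21, 22, 1, 0, 18], [14, 17, 0, 13, 12, 19], [14, 18, 12, 11, 10, 20], [14, 19, 10, 9, 8], [16, 5, 4, 3, 22, 17], [17, 21, 3, 2, 1]], [(3, 5), (8, 4), (8, 3), (7, 3), (7, 2), (2, 3), (1, 3), (1, 2), (6, 4), (6, 3), (5, 4), (5, 3), (4, 4), (4, 3)], [(1, 4), (2, 3), (2, 5)]⟩, [(0, 1), (0, 2), (0, 3), (0, 4), (0, 5), (2, 5), (3, 3)], 3, (.cons 0 0xf000 (.cons 2 0xf00f (.cons 1 0xf0f .nil (.cons 7 0xff00 (.cons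 8 0xf000f000 .nil .nil) .nil)) (.cons 4 0xf00f (.cons 5 0xf000f (.cons 6 0xf0000f .nil .nil) .nil) .nil)) .nil), 3, (.cons 2 0xf000 (.cons 1 0xff00 (.cons 0 0xfff0 (.cons 4 0xf00f (.cons 5 0xf000f (.cons 6 0xf0000f .nil .nil) .nil) .nil) .nil) (.cons 7 0xff00 (.cons 8 0xf000f000 .nil .nil) .nil)) .nil), [0, 0, 120, 0, 0, 124, 0, 0, 120, 0, 0, 120, 0, 0, 120, 0, 0, 112, 0, 0, 124, 0, 0, 112, 0, 0, 56, 0, 0, 112, 0, 0, 120, 0, 0, 56, 0, 0, 112, 0, 0, 96, 0, 0, 48, 0, 0]⟩,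
  ⟨⟨14, [[15, 16, 17, 18, 19, 20, 6], [14, 6, 5, 4, 16], [14, 15, 4, 3, 21, 17], [14, 16, 21, 1, 0, 22, 18], [14, 17, 22, 12, 11, 10, 19], [14, 18, 10, 9, 8, 20], [14, 19, 8, 7, 6], [16, 3, 2, 1, 17], [17, 0, 13, 12, 18]], [(3, 4), (7, 3), (7, 2), (2, 3), (1, 3), (1, 2), (6, 4), (6, 3), (5, 4), (5, 3), (4, 5), (4, 4), (8, 3), (8, 2)], [(0, 4), (5, 2), (5, 4)]⟩, [(0, 1), (0, 2), (0, 3), (0, 4), (0, 5), (2, 5), (3, 6)], 3, (.cons 2 0xf000 (.cons 0 0xff00 (.cons 1 0xf0f .nil (.cons 4 0xf00f (.cons 5 0xf000f (.cons 6 0xf0000f .nil .nil) (.cons 8 0xff000 .nil .nil)) .nil)) (.cons 7 0xff00 .nil .nil)) .nil), 3, (.cons 0 0xf000 (.cons 2 0xf00f (.cons 1 0xf0f .nil (.cons 7 0xff00 .nil .nil)) (.cons 5 0xf00f (.cons 4 0xf0f00f (.cons 8 0xff000 .nil .nil) (.cons 6 0xf0000f .nil .nil)) .nil)) .nil), [0, 0, 112,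 0, 0, 120, 0, 0, 120, 0, 0, 120, 0, 0, 124, 0, 0, 56, 0, 0, 112, 0, 0, 120, 0, 0, 120, 0, 0, 120, 0, 0, 112, 0, 0, 112, 0, 0, 56, 0, 0, 96, 0, 0, 48, 0, 0, 16]⟩,
  ⟨⟨14, [[15, 16, 17, 18, 19, 20, 1, 0], [14, 0, 21, 22, 16], [14, 15, 22, 11, 10, 17], [14, 16, 10, 9, 8, 23, 18], [14, 17, 23, 6, 5, 4, 19], [14, 18, 4, 3, 20], [14, 19, 3, 2, 1], [15, 0, 13, 12, 22], [15, 21, 12, 11, 16], [17, 8, 7, 6, 18]], [(0, 7), (6, 4), (6, 3), (5, 3), (4, 5), (4, 4), (9, 3), (9, 2), (3, 4), (3, 3), (2, 4), (8, 3), (7, 3), (7, 2)], [(0, 1), (2, 4)]⟩, [(0, 1), (0, 2), (0, 3), (0, 4), (0, 5), (1, 3), (1, 4), (3, 6)], 0, (.cons 2 0xf (.cons 1 0xf0f (.cons 8 0xff0 (.cons 7 0xf000000f0 .nil .nil) .nil) (.cons 3 0xf0f (.cons 4 0xf00f (.cons 5 0xf000f (.cons 6 0xf0000f .nil .nil) (.cons 9 0xff000 .nil .nil)) .nil) .nil))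 .nil), 0, (.cons 2 0xf (.cons 1 0xf0f (.cons 8 0xff0 (.cons 7 0xf000000f0 .nil .nil) .nil) (.cons 4 0xf0f (.cons 3 0xf0f0f (.cons 9 0xff000 .nil .nil) (.cons 5 0xf000f (.cons 6 0xf0000f .nil .nil) .nil)) .nil)) .nil), [0, 0, 124, 0, 0, 120, 0, 0, 120, 0, 0, 120, 0, 0, 120, 0, 0, 96, 0, 0, 120, 0, 0, 120, 0, 0, 120, 0, 0, 120, 0, 0, 120, 0, 0, 112, 0, 0, 112, 0, 0, 112, 0, 0]⟩,
  ⟨⟨14, [[15, 2, 1, 0, 20, 21, 16], [14, 16, 17, 18, 19, 3, 2], [14, 21, 9, 8, 17, 15], [15, 16, 8, 7, 18], [15, 17, 7, 6, 5, 19], [15, 18, 5, 4, 3], [14, 0, 13, 22, 21], [14, 20, 22, 11, 10, 9, 16], [20, 13, 12, 11, 21]], [(0, 3), (0, 2), (1, 6), (5, 4), (5, 3), (4, 4), (4, 3), (3, 3), (2, 3), (7, 5), (7, 4), (8, 3), (8, 2), (6, 2)], [(1, 3), (4, 2), (4, 4)]⟩, [(0, 0), (0, 5), (0, 6), (1, 2), (1, 3), (1, 4), (6, 4)], 0, (.cons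 2 0xf (.cons 1 0xf0f (.cons 3 0xff0 (.cons 4 0xf0f0 (.cons 5 0xf00f0 .nil .nil) .nil) .nil) (.cons 7 0xf0f (.cons 6 0xf000000f (.cons 8 0xff000000 .nil .nil) .nil) .nil)) .nil), 0, (.cons 1 0xf (.cons 4 0xff (.cons 2 0xf00ff (.cons 3 0xf0ff0 .nil (.cons 7 0xf0f (.cons 6 0xf000000f (.cons 8 0xff000000 .nil .nil) .nil) .nil)) (.cons 5 0xf00f0 .nil .nil)) .nil) .nil), [0, 0, 120, 0, 0, 120, 0, 0, 124, 0, 0, 112, 0, 0, 120, 0, 0, 120, 0, 0, 60, 0, 0, 112, 0, 0, 112, 0, 0, 112, 0, 0, 120, 0, 0, 96, 0, 0, 56, 0, 0, 96, 0, 0, 56, 0, 48, 0]⟩,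
  ⟨⟨14, [[15, 16, 17, 18, 19, 20, 9, 8, 7], [14, 7, 6, 5, 16], [14, 15, 5, 4, 3, 21, 17], [14, 16, 21, 1, 0, 22, 18], [14, 17, 22, 23, 19], [14, 18, 23, 12, 11, 20], [14, 19, 11, 10, 9], [16, 3, 2, 1, 17], [17, 0, 13, 23, 18], [18, 22, 13, 12, 19]], [(3, 4), (7, 3), (7, 2), (2, 4), (2, 3), (1, 3), (1, 2), (0, 8), (0, 7), (6, 4), (6, 3), (5, 4), (9, 3), (8, 2)], [(0, 1), (0, 6), (0, 8), (2, 2)]⟩, [(0, 1), (0, 2), (0, 3), (0, 4), (0, 5), (2, 6), (3, 6), (4, 3), (4, 4)], 3, (.cons 2 0xf000 (.cons 0 0xff00 (.cons 1 0xf0f .nil (.cons 4 0xf00f (.cons 5 0xff00f (.cons 6 0xf0000f .nil (.cons 9 0xfff000 (.cons 8 0xf0000ff000 .nil .nil) .nil)) .nil) .nil)) (.cons 7 0xff00 .nil .nil)) .nil), 3, (.cons 2 0xf000 (.cons 0 0xff00 (.cons 1 0xf0f .nil (.cons 4 0xf00f (.cons 5 0xff00f (.cons 6 0xf0000f .nil (.cons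 9 0xfff000 (.cons 8 0xf0000ff000 .nil .nil) .nil)) .nil) .nil)) (.cons 7 0xff00 .nil .nil)) .nil), [0, 0, 120, 0, 0, 120, 0, 0, 120, 0, 0, 120, 0, 0, 120, 0, 0, 112, 0, 0, 120, 0, 0, 116, 0, 0, 120, 0, 0, 120, 0, 0, 88, 0, 0, 96, 0, 0, 24, 0, 0, 112, 0, 0, 96]⟩,
  ⟨⟨14, [[15, 16, 17, 18, 19, 20, 1, 0], [14, 0, 13, 21, 16], [14, 15, 21, 22, 9, 8, 7, 17], [14, 16, 7, 6, 18], [14, 17, 6, 5, 19], [14, 18, 5, 4, 3, 20], [14, 19, 3, 2, 1], [15, 13, 12, 11, 22, 16], [16, 21, 11, 10, 9]], [(0, 7), (6, 4), (6, 3), (5, 4), (5, 3), (4, 3), (3, 3), (2, 6), (2, 5), (8, 4), (8, 3), (7, 3), (7, 2), (1, 2)], [(0, 4), (5, 2), (5, 4)]⟩, [(0, 1), (0, 2), (0, 3), (0, 4), (0, 5), (1, 4), (2, 3)], 0, (.cons 2 0xf (.cons 1 0xf0f (.cons 7 0xff0 (.cons 8 0xf0000f00 .nil .nil) .nil) (.cons 3 0xf0f (.cons 4 0xf00f (.cons 5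 0xf000f (.cons 6 0xf0000f .nil .nil) .nil) .nil) .nil)) .nil), 0, (.cons 5 0xf (.cons 2 0xf0000f (.cons 1 0xf0f (.cons 7 0xff0 (.cons 8 0xf0000f00 .nil .nil) .nil) (.cons 3 0xf00f0f (.cons 4 0xf0f00f .nil .nil) .nil)) (.cons 6 0xf0000f .nil .nil)) .nil), [0, 0, 120, 0, 0, 120, 0, 0, 120, 0, 0, 112, 0, 0, 112, 0, 0, 120, 0, 0, 120, 0, 0, 120, 0, 0, 112, 0, 0, 112, 0, 0, 120, 0, 0, 116, 0, 0, 112, 0, 0, 116, 0, 40, 0, 0]⟩,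
  ⟨⟨14, [[15, 16, 17, 18, 19, 9, 8], [14, 8, 7, 20, 21, 16], [14, 15, 21, 22, 1, 0, 17], [14, 16, 0, 13, 12, 18], [14, 17, 12, 11, 19], [14, 18, 11, 10, 9], [15, 7, 6, 5, 21], [15, 20, 5, 4, 3, 22, 16], [16, 21, 3, 2, 1]], [(2, 5), (8, 4), (8, 3), (7, 4), (7, 3), (6, 3), (6, 2), (1, 2), (0, 6), (5, 4), (5, 3), (4, 3), (3, 4), (3, 3)], [(1, 3), (1, 5), (5, 2), (5, 4)]⟩, [(0, 1), (0, 2), (0, 3), (0, 4), (1, 4), (1, 5), (2, 3)], 2, (.cons 0 0xf00 (.cons 1 0xf0f (.cons 7 0xff0 (.cons 6 0xf00000f0 .nil (.cons 8 0xf0000f00 .nil .nil)) .nil) (.cons 3 0xf0f (.cons 4 0xf00f (.cons 5 0xf000f .nil .nil) .nil) .nil)) .nil), 2, (.cons 1 0xf00 (.cons 0 0xff0 (.cons 3 0xf0f (.cons 4 0xf00f (.cons 5 0xf000f .nil .nil) .nil) .nil) (.cons 6 0xff0 (.cons 7 0xf000ff0 (.cons 8 0xf0000f00 .nil .nil) .nil) .nil)) .nil),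 [0, 0, 112, 0, 0, 120, 0, 0, 120, 0, 0, 120, 0, 0, 112, 0, 0, 120, 0, 0, 120, 0, 0, 120, 0, 0, 112, 0, 0, 56, 0, 0, 112, 0, 0, 112, 0, 0, 112, 0, 0, 104, 0, 0, 80, 0, 0]⟩,
  ⟨⟨14, [[15, 16, 17, 18, 19, 11, 10], [14, 10, 9, 8, 20, 21, 16], [14, 15, 21, 4, 22, 17], [14, 16, 22, 2, 1, 0, 18], [14, 17, 0, 13, 19], [14, 18, 13, 12, 11], [15, 8, 7, 6, 21], [15, 20, 6, 5, 4, 16], [16, 4, 3, 2, 17]], [(3, 5), (3, 4), (8, 3), (8, 2), (7, 4), (7, 3), (6, 3), (6, 2), (1, 3), (1, 2), (0, 6), (5, 4), (5, 3), (4, 3)], [(1, 6), (2, 3), (2, 5)]⟩, [(0, 1), (0, 2), (0, 3), (0, 4), (1, 5), (1, 6), (2, 5)], 3, (.cons 2 0xf000 (.cons 0 0xff00 (.cons 1 0xf0f (.cons 7 0xff0 (.cons 6 0xf00000f0 .nil .nil) .nil) (.cons 4 0xf00f (.cons 5 0xf000f .nil .nil) .nil)) (.cons 8 0xff00 .nil .nil)) .nil), 3, (.cons 2 0xf000 (.cons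 1 0xff00 (.cons 0 0xfff0 (.cons 4 0xf00f (.cons 5 0xf000f .nil .nil) .nil) (.cons 6 0xff0 (.cons 7 0xf000ff0 .nil .nil) .nil)) (.cons 8 0xff00 .nil .nil)) .nil), [0, 0, 116, 0, 0, 120, 0, 0, 112, 0, 0, 120, 0, 0, 120, 0, 0, 120, 0, 0, 120, 0, 0, 120, 0, 0, 112, 0, 0, 120, 0, 0, 112, 0, 0, 88, 0, 0, 88, 0, 112, 0, 0, 112, 0, 0, 16]⟩,
  ⟨⟨14, [[15, 16, 17, 18, 19, 1, 0], [14, 0, 13, 12, 20, 16], [14, 15, 20, 10, 9, 21, 17], [14, 16, 21, 7, 6, 22, 18], [14, 17, 22, 4, 3, 19], [14, 18, 3, 2, 1], [15, 12, 11, 10, 16], [16, 9, 8, 7, 17], [17, 6, 5, 4, 18]], [(0, 6), (5, 4), (5, 3), (4, 4), (8, 3), (8, 2), (3, 4), (7, 3), (7, 2), (2, 4), (6, 3), (6, 2), (1, 3), (1, 2)], [(1, 1), (1, 3), (1, 5)]⟩, [(0, 1), (0, 2), (0, 3), (0, 4), (1, 5), (2, 6), (3, 6)], 0, (.cons 2 0xf (.cons 1 0xf0f (.cons 6 0xff0 .nil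 .nil) (.cons 3 0xf0f (.cons 4 0xf00f (.cons 5 0xf000f .nil (.cons 8 0xff000 .nil .nil)) (.cons 7 0xff00 .nil .nil)) .nil)) .nil), 0, (.cons 4 0xf (.cons 3 0xf000f (.cons 2 0xf00f (.cons 1 0xf0f (.cons 6 0xff0 .nil .nil) (.cons 7 0xff00 .nil .nil)) (.cons 8 0xff000 .nil .nil)) (.cons 5 0xf000f .nil .nil)) .nil), [0, 0, 112, 0, 0, 120, 0, 0, 120, 0, 0, 112, 0, 0, 120, 0, 0, 120, 0, 0, 120, 0, 0, 120, 0, 0, 120, 0, 0, 112, 0, 0, 48, 0, 0, 104, 0, 0, 120, 0, 0, 104, 0, 0, 48, 0, 0, 32, 0]⟩,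
  ⟨⟨14, [[15, 16, 17, 18, 19, 20, 9], [14, 9, 8, 21, 16], [14, 15, 21, 6, 5, 4, 17], [14, 16, 4, 3, 2, 18], [14, 17, 2, 1, 0, 22, 19], [14, 18, 22, 12, 11, 20], [14, 19, 11, 10, 9], [15, 8, 7, 6, 16], [18, 0, 13, 12, 19]], [(4, 4), (4, 3), (3, 4), (3, 3), (2, 5), (2, 4), (7, 3), (7, 2), (1, 2), (6, 4), (6, 3), (5, 4), (8, 3), (8, 2)], [(0, 0)]⟩, [(0, 1), (0, 2), (0, 3), (0, 4), (0, 5), (1, 4), (4, 6)], 4, (.cons 5 0xf0000 (.cons 0 0xff0000 (.cons 3 0xf000f (.cons 2 0xf00f (.cons 1 0xf0f (.cons 7 0xff0 .nil .nil) .nil) .nil) (.cons 6 0xf0000f .nil .nil)) (.cons 8 0xff0000 .nil .nil)) .nil), 4, (.cons 0 0xf0000 (.cons 1 0xf000f (.cons 3 0xf00ff (.cons 2 0xf0ff (.cons 7 0xff0 .nil .nil) .nil) .nil) (.cons 5 0xf000f (.cons 6 0xf0000f .nil (.cons 8 0xff0000 .nil .nil)) .nil)) .nil), [0, 0, 120, 0, 0, 124,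 0, 0, 120, 0, 0, 120, 0, 0, 120, 0, 0, 120, 0, 0, 120, 0, 0, 112, 0, 0, 120, 0, 0, 120, 0, 0, 120, 0, 0, 112, 0, 0, 112, 0, 0, 112, 0, 0, 48, 0]⟩]

set_option maxHeartbeats 0 in
theorem fok5 : AllOk tab14 jobs25 ∧
    AllOk tab14 jobs26 ∧
    AllOk tab14 jobs28 ∧
    AllOk tab14 jobs30 ∧ True := by
  refine ⟨?_, ?_, ?_, ?_, True.intro⟩
  · refine AllOk.step 3 (by decide +kernel) ?_
    refine AllOk.step 2 (by decide +kernel) ?_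
    refine AllOk.step 2 (by decide +kernel) ?_
    refine AllOk.step 2 (by decide +kernel) ?_
    refine AllOk.step 2 (by decide +kernel) ?_
    refine AllOk.step 2 (by decide +kernel) ?_
    refine AllOk.step 2 (by decide +kernel) ?_
    refine AllOk.step 2 (by decide +kernel) ?_
    refine AllOk.step 2 (by decide +kernel) ?_
    refine AllOk.step 2 (by decide +kernel) ?_
    refine AllOk.step 2 (by decide +kernel) ?_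
    refine AllOk.step 2 (by decide +kernel) ?_
    refine AllOk.step 2 (by decide +kernel) ?_
    refine AllOk.step 2 (by decide +kernel) ?_
    refine AllOk.step 2 (by decide +kernel) ?_
    refine AllOk.step 2 (by decide +kernel) ?_
    refine AllOk.step 2 (by decide +kernel) ?_
    refine AllOk.step 2 (by decide +kernel) ?_
    refine AllOk.step 2 (by decide +kernel) ?_
    exact AllOk.last (by decide +kernel)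
  · refine AllOk.step 2 (by decide +kernel) ?_
    refine AllOk.step 2 (by decide +kernel) ?_
    refine AllOk.step 2 (by decide +kernel) ?_
    refine AllOk.step 1 (by decide +kernel) ?_
    refine AllOk.step 1 (by decide +kernel) ?_
    refine AllOk.step 1 (by decide +kernel) ?_
    refine AllOk.step 1 (by decide +kernel) ?_
    refine AllOk.step 1 (by decide +kernel) ?_
    refine AllOk.step 1 (by decide +kernel) ?_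
    refine AllOk.step 1 (by decide +kernel) ?_
    refine AllOk.step 1 (by decide +kernel) ?_
    refine AllOk.step 1 (by decide +kernel) ?_
    refine AllOk.step 1 (by decide +kernel) ?_
    refine AllOk.step 1 (by decide +kernel) ?_
    refine AllOk.step 1 (by decide +kernel) ?_
    refine AllOk.step 1 (by decide +kernel) ?_
    refine AllOk.step 1 (by decide +kernel) ?_
    refine AllOk.step 1 (by decide +kernel) ?_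
    refine AllOk.step 1 (by decide +kernel) ?_
    refine AllOk.step 1 (by decide +kernel) ?_
    refine AllOk.step 1 (by decide +kernel) ?_
    refine AllOk.step 1 (by decide +kernel) ?_
    refine AllOk.step 1 (by decide +kernel) ?_
    refine AllOk.step 1 (by decide +kernel) ?_
    refine AllOk.step 1 (by decide +kernel) ?_
    refine AllOk.step 1 (by decide +kernel) ?_
    refine AllOk.step 1 (by decide +kernel) ?_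
    refine AllOk.step 1 (by decide +kernel) ?_
    refine AllOk.step 1 (by decide +kernel) ?_
    exact AllOk.last (by decide +kernel)
  · refine AllOk.step 1 (by decide +kernel) ?_
    refine AllOk.step 1 (by decide +kernel) ?_
    refine AllOk.step 1 (by decide +kernel) ?_
    refine AllOk.step 1 (by decide +kernel) ?_
    refine AllOk.step 1 (by decide +kernel) ?_
    refine AllOk.step 1 (by decide +kernel) ?_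
    refine AllOk.step 1 (by decide +kernel) ?_
    refine AllOk.step 1 (by decide +kernel) ?_
    refine AllOk.step 1 (by decide +kernel) ?_
    refine AllOk.step 1 (by decide +kernel) ?_
    refine AllOk.step 1 (by decide +kernel) ?_
    refine AllOk.step 1 (by decide +kernel) ?_
    refine AllOk.step 1 (by decide +kernel) ?_
    refine AllOk.step 1 (by decide +kernel) ?_
    refine AllOk.step 1 (by decide +kernel) ?_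
    refine AllOk.step 1 (by decide +kernel) ?_
    refine AllOk.step 1 (by decide +kernel) ?_
    refine AllOk.step 1 (by decide +kernel) ?_
    refine AllOk.step 1 (by decide +kernel) ?_
    refine AllOk.step 1 (by decide +kernel) ?_
    refine AllOk.step 1 (by decide +kernel) ?_
    refine AllOk.step 1 (by decide +kernel) ?_
    refine AllOk.step 1 (by decide +kernel) ?_
    refine AllOk.step 1 (by decide +kernel) ?_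
    refine AllOk.step 1 (by decide +kernel) ?_
    refine AllOk.step 1 (by decide +kernel) ?_
    refine AllOk.step 1 (by decide +kernel) ?_
    exact AllOk.last (by decide +kernel)
  · refine AllOk.step 1 (by decide +kernel) ?_
    refine AllOk.step 1 (by decide +kernel) ?_
    refine AllOk.step 1 (by decide +kernel) ?_
    refine AllOk.step 1 (by decide +kernel) ?_
    refine AllOk.step 1 (by decide +kernel) ?_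
    refine AllOk.step 1 (by decide +kernel) ?_
    refine AllOk.step 1 (by decide +kernel) ?_
    refine AllOk.step 1 (by decide +kernel) ?_
    refine AllOk.step 1 (by decide +kernel) ?_
    refine AllOk.step 1 (by decide +kernel) ?_
    refine AllOk.step 1 (by decide +kernel) ?_
    refine AllOk.step 1 (by decide +kernel) ?_
    refine AllOk.step 1 (by decide +kernel) ?_
    refine AllOk.step 1 (by decide +kernel) ?_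
    refine AllOk.step 1 (by decide +kernel) ?_
    refine AllOk.step 1 (by decide +kernel) ?_
    refine AllOk.step 1 (by decide +kernel) ?_
    refine AllOk.step 1 (by decide +kernel) ?_
    refine AllOk.step 1 (by decide +kernel) ?_
    refine AllOk.step 1 (by decide +kernel) ?_
    exact AllOk.last (by decide +kernel)

end Pool.Agent.MP_8c1b0d_co.CT4.Chk
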