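import Pool.Agent.MP_8c1b0d_co.CT4.PG
import Pool.Agent.MP_8c1b0d_co.CT4.U7
import Pool.Agent.MP_8c1b0d_co.CT4.U8
import Pool.Agent.MP_8c1b0d_co.CT4.U9
import Pool.Agent.MP_8c1b0d_co.CT4.R0
import Pool.Agent.MP_8c1b0d_co.CT4.R1
import Pool.Agent.MP_8c1b0d_co.CT4.R2
import Pool.Agent.MP_8c1b0d_co.CT4.R3
import Pool.Agent.MP_8c1b0d_co.CT4.R4
import Pool.Agent.MP_8c1b0d_co.CT4.R5

/-! The four colour theorem. -/

namespace Pool.Agent.MP_8c1b0d_co.CT4.UChk

open Chk

set_option maxRecDepth 100000
set_option exponentiation.threshold 100000

def P : List (ℕ × ℕ) := [(1298074214633706907132624082304993, 2),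
  (1298074214633706907132624050819011, 1),
  (1298074214633706907132623074754499, 1),
  (1298074214633706907132624082274179, 1),
  (1298074214633706907132624081321859, 1),
  (1298074214598289158511101713811394, 1),
  (1298037076432528345724376168071106, 1),
  (1298074213467282385863821684083650, 1),
  (1296851129874892951421022773542850, 1),
  (1298074214598289158511101713812418, 1),
  (1298037076432528345724376168103874, 1),
  (1298074214600650341752504323114882, 1),
  (1298039552312606916483895140614018, 1),
  (1298074213541659657968986383944578, 1),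
  (1296929120097367930377310626217858, 1),
  (1298074214633706907131593289237636, 1),
  (1298074214633706907132591869038724, 1),
  (1298037076432528345723345308813444, 1),
  (1298074214598289158511069498509444, 1),
  (1298074214598254570864932714156164, 1),
  (1298037076432527264860433319885956, 1),
  (1298074214598253490001090865860740, 1),
  (1298037076432492677215297329039492, 1),
  (1298039552277189166777086107586692, 1),
  (1298037076399471779326140787855492, 1),
  (1298074178365932318692686976618628, 1),
  (1260044696626860025086728668843140, 1),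
  (1298074178365932317675570068557956, 1),
  (1260044696626860024000443394952324, 1),
  (1298074178365932318693718743945348, 1),
  (1260044696626860025086759905922180, 1),
  (1298074214633671310681137132637316, 1),
  (1298074214633673544465553728570500, 1),
  (1298074214633672319486422871542916, 1),
  (1298074214633705826267650508033156, 1),
  (1298074214633705898325244545953924, 1),
  (1298074214633674625329432086055044, 1),
  (1260044696626860025086760912580740, 1),
  (1298074178365932318693718776221828, 1),
  (1298074214633706906116675306753540, 1),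
  (1298074214633706906116674330689028, 1),
  (1298074214633706906114475343054212, 1),
  (1298074214633706906046305557056900, 1),
  (1298074178365932317637155881062788, 1),
  (1260044696626860025053743322107268, 1),
  (1298074214633706906046306561658244, 1),
  (1298074214633706906114475307404676, 1),
  (1298074214633706906077091980115844, 1),
  (1298074214633706907099638704111492, 1),
  (1298074214633706907099606490941316, 1),
  (1298074214633706906076061186954116, 1),
  (1298074214633706906114475278050180, 1),
  (1298074214633706906046305622298500, 1),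
  (1298074214633706907132624049901444, 1),
  (1298074214633706907132623074725764, 1),
  (1298074214633706907132624049840004, 1),
  (1298074214633706907132623074854788, 1),
  (1298074214633706906076129906451332, 1),
  (1298074214633706907099608639080324, 1),
  (1298074214600650341752504323245828, 1),
  (1298039552312606916483895174139652, 1),
  (1298074178365932318693718775436036, 1),
  (1260044696626860025086760912556804, 1),
  (1298074178365932318693718775403268, 1),
  (1260044696626860025086760912555780, 1),
  (1298074214633706907131631943946376, 1),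
  (1298074178365932318662931443191944, 1),
  (1260044696626859993561563489504392, 1),
  (1298074214633705826268681300122760, 1),
  (1298074214633672319486455083926664, 1),
  (1298074214633706873355625936488328, 1),
  (1298074214633706907099638703097736, 1),
  (1298074214633706906046306561591176, 1),
  (1298074214633706874551894520399752, 1),
  (1298074214633706906044107539287944, 1),
  (1298074214633706872300094706809736, 1)]

theorem P_small : Cart.smallB (rules P) = true := by decide +kernel

theorem ex0 : ∀ p ∈ pats jobs0, p.Excluded := excl tabOk6 fok2.1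

theorem ex1 : ∀ p ∈ pats jobs1, p.Excluded := excl tabOk7 fok2.2.1

theorem ex2 : ∀ p ∈ pats jobs2, p.Excluded := excl tabOk8 fok0.1

theorem ex3 : ∀ p ∈ pats jobs3, p.Excluded := excl tabOk9 fok0.2.1

theorem ex4 : ∀ p ∈ pats jobs4, p.Excluded := excl tabOk10 fok3.1

theorem ex5 : ∀ p ∈ pats jobs5, p.Excluded := excl tabOk11 fok1.1

theorem ex6 : ∀ p ∈ pats jobs6, p.Excluded := excl tabOk11 fok1.2.1

theorem ex7 : ∀ p ∈ pats jobs7, p.Excluded := excl tabOk11 fok0.2.2.1

theorem ex8 : ∀ p ∈ pats jobs8, p.Excluded := excl tabOk12 fok3.2.1

theorem ex9 : ∀ p ∈ pats jobs9, p.Excluded := excl tabOk12 fok0.2.2.2.1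

theorem ex10 : ∀ p ∈ pats jobs10, p.Excluded := excl tabOk12 fok3.2.2.1

theorem ex11 : ∀ p ∈ pats jobs11, p.Excluded := excl tabOk12 fok0.2.2.2.2.1

theorem ex12 : ∀ p ∈ pats jobs12, p.Excluded := excl tabOk12 fok1.2.2.1

theorem ex13 : ∀ p ∈ pats jobs13, p.Excluded := excl tabOk12 fok3.2.2.2.1

theorem ex14 : ∀ p ∈ pats jobs14, p.Excluded := excl tabOk12 fok0.2.2.2.2.2.1

theorem ex15 : ∀ p ∈ pats jobs15, p.Excluded := excl tabOk13 fok2.2.2.1

theorem ex16 : ∀ p ∈ pats jobs16, p.Excluded := excl tabOk13 fok2.2.2.2.1

theorem ex17 : ∀ p ∈ pats jobs17, p.Excluded := excl tabOk13 fok1.2.2.2.1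

theorem ex18 : ∀ p ∈ pats jobs18, p.Excluded := excl tabOk13 fok0.2.2.2.2.2.2.1

theorem ex19 : ∀ p ∈ pats jobs19, p.Excluded := excl tabOk13 fok2.2.2.2.2.1

theorem ex20 : ∀ p ∈ pats jobs20, p.Excluded := excl tabOk13 fok1.2.2.2.2.1

theorem ex21 : ∀ p ∈ pats jobs21, p.Excluded := excl tabOk13 fok3.2.2.2.2.1

theorem ex22 : ∀ p ∈ pats jobs22, p.Excluded := excl tabOk13 fok2.2.2.2.2.2.1

theorem ex23 : ∀ p ∈ pats jobs23, p.Excluded := excl tabOk13 fok0.2.2.2.2.2.2.2.1

theorem ex24 : ∀ p ∈ pats jobs24, p.Excluded := excl tabOk13 fok2.2.2.2.2.2.2.1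

theorem ex25 : ∀ p ∈ pats jobs25, p.Excluded := excl tabOk14 fok5.1

theorem ex26 : ∀ p ∈ pats jobs26, p.Excluded := excl tabOk14 fok5.2.1

theorem ex27 : ∀ p ∈ pats jobs27, p.Excluded := excl tabOk14 fok4.1

theorem ex28 : ∀ p ∈ pats jobs28, p.Excluded := excl tabOk14 fok5.2.2.1

theorem ex29 : ∀ p ∈ pats jobs29, p.Excluded := excl tabOk14 fok4.2.1

theorem ex30 : ∀ p ∈ pats jobs30, p.Excluded := excl tabOk14 fok5.2.2.2.1

theorem ex31 : ∀ p ∈ pats jobs31, p.Excluded := excl tabOk14 fok4.2.2.1

theorem ex32 : ∀ p ∈ pats jobs32, p.Excluded := excl tabOk14 fok4.2.2.2.1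

namespace H7

theorem up (h : Upto X l 1219) : Upto X l (18701 + 1) := by
  replace h := h.many (m := 2659) ok al.1 (by decide +kernel)
  replace h := h.many (m := 3736) ok al.2.1 (by decide +kernel)
  replace h := h.many (m := 4801) ok al.2.2.1 (by decide +kernel)
  replace h := h.many (m := 5834) ok al.2.2.2.1 (by decide +kernel)
  replace h := h.many (m := 7154) ok al.2.2.2.2.1 (by decide +kernel)
  replace h := h.many (m := 8193) ok al.2.2.2.2.2.1 (by decide +kernel)
  replace h := h.many (m := 8961) ok al.2.2.2.2.2.2.1 (by decide +kernel)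
  replace h := h.many (m := 9867) ok al.2.2.2.2.2.2.2.1 (by decide +kernel)
  replace h := h.many (m := 10854) ok al.2.2.2.2.2.2.2.2.1 (by decide +kernel)
  replace h := h.many (m := 11793) ok al.2.2.2.2.2.2.2.2.2.1 (by decide +kernel)
  replace h := h.many (m := 12668) ok al.2.2.2.2.2.2.2.2.2.2.1 (by decide +kernel)
  replace h := h.many (m := 13466) ok al.2.2.2.2.2.2.2.2.2.2.2.1 (by decide +kernel)
  replace h := h.many (m := 14244) ok al.2.2.2.2.2.2.2.2.2.2.2.2.1 (by decide +kernel)
  replace h := h.many (m := 15080) ok al.2.2.2.2.2.2.2.2.2.2.2.2.2.1 (by decide +kernel)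
  replace h := h.many (m := 15888) ok al.2.2.2.2.2.2.2.2.2.2.2.2.2.2.1 (by decide +kernel)
  replace h := h.many (m := 16952) ok al.2.2.2.2.2.2.2.2.2.2.2.2.2.2.2.1 (by decide +kernel)
  replace h := h.many (m := 17799) ok al.2.2.2.2.2.2.2.2.2.2.2.2.2.2.2.2.1 (by decide +kernel)
  replace h := h.many (m := 18592) ok al.2.2.2.2.2.2.2.2.2.2.2.2.2.2.2.2.2.1 (by decide +kernel)
  replace h := h.many (m := 18702) ok al.2.2.2.2.2.2.2.2.2.2.2.2.2.2.2.2.2.2.1 (by decide +kernel)
  exact h

theorem sm : same l (mk0 X.D P) = true := by decide +kernel

def c0 : List (List ℕ) := [[4352, 4608]]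

def c1 : List (List ℕ) := [[4352, 4608, 4864, 4098, 5378]]

def c2 : List (List ℕ) := [[4352, 4608, 4864], [4106, 4352, 4608, 4864], [4352, 5378], [], [4352]]

def c3 : List (List ℕ) := [[4106, 4352, 4608, 4864, 4107, 5121, 5377, 5633, 4611], [4352, 4608, 5378], [4106, 4352, 4107, 5633], [4352, 4608, 4864], [4608, 5376, 4353, 5121], [4106, 4352, 5120], [4106, 4107]]

def c4 : List (List ℕ) := [[4352, 5377], [4106], [4106], [4106, 4352, 4608], [4106, 4352, 5634, 4107, 5633], [], [4106, 4352, 5120], [4106, 5376, 4107, 4609], [5889], [4608, 4353], [4106, 4352, 4107, 5633], [4106, 4096, 4352], [], [4608, 5376], [4352, 4608, 5633, 5889], [4106, 4107], [4608, 5376], [], [4352, 5120], [4106, 4352, 4107, 5633], [4106], [4106, 4107], [], [4106, 4352, 4107, 5633], [5376, 4353], [4352, 4864], [4352], [4106], [5648, 4449], [4106, 5632], [4106, 4352, 5120, 4107, 4865, 5633]]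

def c5 : List (List ℕ) := [[4106, 4096], [4106, 4107], [4106, 4107], [4106, 4107], [4106, 4107, 5633], [], [], [], [4352], [4106, 4352, 4107, 5633], [4106, 4107], [4096, 4097], [4106, 5376, 4107, 4609], [4106, 4096, 4352, 4107, 4097, 5633], [4106, 4107], [4106, 5634, 4107], [], [], [4106, 4107], [], [4106, 4107], [4106], [], [4106, 4107], [4106, 4352, 4107, 5633], [4352, 5377], [], [4106, 5632, 4107, 4353], [4106, 5632, 4107, 4353], [], [5632, 4609], [], [4106, 4107], [4106, 4107], [5888, 4353], [], [4106, 4107], [4106, 4096, 4352, 4107, 4097, 5633], [4106, 5632, 4107, 4353], [4352, 5120, 5121]]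

def c6 : List (List ℕ) := [[], [], [4106, 4352, 4107, 5633], [], [], [4106, 4107, 5633], [5376, 4353], [], [4352, 5376], [], [4106, 4107], [4106, 4352, 4107, 5633], [], [4352, 5120, 5121, 5889], [4106, 4107], [4106, 4352, 4107, 5633], [], [4106, 4096, 4352], [4106, 4352, 5632, 4107, 4353, 5633], [], [4106, 4107], [], [], [4106, 5632, 4107, 4353], [4106, 4107], [4106, 4107], [5376, 4353], [], [4106, 4352, 5120, 4107, 4865, 5633], [4106, 5376, 4107, 4609], [5888, 4353], [4106, 4107], [4106, 5376, 4107, 4609], [4106, 4107], [4106, 4107], [], [5376, 4353], [4608, 5376, 4353, 5121], [5376, 4353], [5632, 4609]]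

def c7 : List (List ℕ) := [[], [4106, 5632, 4107, 4353], [5888, 4353], [4106], [5632, 4609], [4106, 5632], [4608]]

def c8 : List (List ℕ) := [[5376], [4352, 5377], [], [], [], [4106, 4107], [4106, 4107], [4106, 4107], [], [], [], [], [], [], [], [5888, 4353], [], [], [], [], [4096, 4097], [], [], [], [4106, 4107], [4106, 4107], [4106, 4107], [], [], [4106, 4107], [5888, 4353], [], [], [4106, 4107], [], [], [4106, 4107], [4106, 4107], [4106, 4107]]

def c9 : List (List ℕ) := [[], [], [], [], [4106, 4107], [4106, 4107, 4097], [], [], [], [], [4106, 4107], [4096, 4097], [], [], [], [], [], [], [4106, 4107], [], [], [5632, 4609], [], [5888, 4353], [4106, 5632, 4107], [], [], [4106, 5376, 4107], [4106, 4107], [4106], [], [4106, 4107], [4106, 4107], [4106, 4107], [4106, 4107]]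

def c10 : List (List ℕ) := [[4106, 4107], [4106, 4107], [4106, 4107], [4106, 4107], [], [], [4106, 4107], [4106, 4107], [], [], [4106, 5632, 4107, 4353], [4106, 4107], [], [], [], [4106], [], [4106, 5632, 4107, 4353], [], [4106, 4107], [], [4106, 4107], [4106, 4107], [4106, 4107], [], [], [4106, 4107], [4106, 4107], [4106, 4107], [5376], [], [4106, 4107], [4106, 4107], [], [5632, 4107, 4353], [4106, 4107], [], [4352, 5377]]

def c11 : List (List ℕ) := [[4106, 4107], [], [4106, 5632, 4107, 4353], [], [], [4106, 5376, 4107, 4609], [], [4106, 4107], [4106, 4107], [4106, 4096, 4352, 5632, 4107, 4097, 4353, 5633], [5888, 4353], [], [], [], [], [], [4106, 4107], [4106, 4107], [5376, 4353], [4352, 5889], [4096, 4097], [], [], [], [4106, 4096, 4352, 4107, 4097, 5633], [], [5888, 4353], [5632], [4106, 4107], [4106, 4107], [], [], [], [], [4106, 4107], [4106, 4107], [5376, 4353], [5632, 4107, 4353], [4106, 4096, 4107, 4097]]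

def c12 : List (List ℕ) := [[4096, 4097], [4106, 5376, 4107, 4609], [4106], [5632], [4609], [4106, 4107], [5888, 4353], [], [], [], [4106, 4107], [4106, 4107], [5376, 4353], [5376, 4353], [], [4106, 5376, 5632, 4107, 4353, 4609], [5632, 4609], [], [], [], [], [], [], [4106, 4107], [], [4106, 4096, 4352, 4107, 4097, 5633], [], [], [4106], [4106, 4107], [], [4096, 4352, 4097, 5889], [], [], [5376, 4353], [], [4106, 4096, 4352, 4107, 4097, 5633], [4106, 5632, 4107, 4353], [4352, 5377], [5632, 4609]]

def c13 : List (List ℕ) := [[], [], [], [4106, 4352, 4107, 5633], [4106, 5376, 5632], [], [4106, 4107], [5376, 4353], [4106, 5632, 4107, 4353], [4106], [], [], [], [], [], [4106, 5632, 4107, 4353], [4106, 4107], [4106, 5632, 4107, 4353], [5632, 4609], [4106, 5376, 4107, 4609], [], [4106, 5376, 4107, 4609], [5888, 4353], [], [5632, 4609], [4106, 5632, 4107, 4353], [4352, 5377], [], [], [5888, 4353], [4106, 4096, 4352, 4107, 4097, 5633], [4106, 4107]]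

def c14 : List (List ℕ) := [[5888, 4353], [4106, 5632, 4107, 4353]]

def c15 : List (List ℕ) := [[], [], [], [], [], [], [4352, 5633], [4106, 4107], [4106, 4107], [], [], [], [4106, 4107], [4106, 4107], [], [4106, 4107], [], [], [], [], [], [4106, 4107], [], [4106, 4107], [], [], [5888, 4353], [], [], [5632, 4107, 4353], [4106, 4107], [4106, 4107], [4106, 4107], [], [5888, 4353], [], [], [4106, 4107]]

def c16 : List (List ℕ) := [[], [], [], [], [4106, 4107], [5888, 4353], [4106, 4107], [4106, 4107], [], [], [], [4106, 4107], [], [], [], [], [4106, 4107], [], [], [4106, 4107], [], [], [4106, 4107], [], [], [], [], [], [], [], [], [], [], [], [], [], [5376, 4609], [4106, 4107], [4352, 5377]]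

def c17 : List (List ℕ) := [[4352, 5121], [], [], [], [], [], [], [], [], [], [4106, 4107], [], [], [], [4106, 4107], [4106, 4107], [], [4106, 4107], [4106, 4107], [], [4106, 4107], [], [4106, 4107], [4106, 4107], [], [4106, 4107], [], [], [4106, 4107], [4106, 4107], [], [5632, 4353], [4106, 4107], [], [4106, 4107], [4106, 4107], [], [], [], [5632, 4353]]

def c18 : List (List ℕ) := [[4106, 4096, 4107, 4097], [], [4106, 4107], [], [], [], [], [5376, 4353], [4106, 4107], [], [], [], [4106, 4107], [], [], [], [], [], [], [], [], [], [4106, 4107], [4106, 4107], [], [4106, 4107], [], [4106], [], [4096, 4097], [], [], [], [], [4106, 5632, 4107, 4353], [], [], [], [], [4106, 4107]]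

def c19 : List (List ℕ) := [[4352, 5121], [], [], [], [], [5888, 4353], [5376, 4353], [5632, 4353], [4106, 4107], [], [], [4106, 4107], [4106, 4107], [4106, 4096, 5632, 4107, 4097, 4353], [4106, 4352, 4107, 5633], [4106, 4107], [4106, 4107], [4106, 4107], [], [4106, 5632, 4107, 4353], [], [], [4106, 5632, 4107], [], [4352, 5121], [4352, 5889], [4106, 4107], [4106, 4107], [], [], [], [], [], [], [], [5888, 4353], [5632], [4096, 4352, 4097, 5889], [4106, 4352, 4107]]

def c20 : List (List ℕ) := [[], [], [], [], [5376, 4353], [4106, 5632, 4107, 4353], [], [4106, 4107], [], [4106, 4107], [4106, 4107], [], [5888, 4353], [], [], [], [4106, 5632, 4107], [], [5376, 4353], [], [5632, 4609], [4106, 5632, 4107], [5888, 4353], [4354, 4099], [5632, 4353], [], [4106, 4096, 4352], [], [], [4106, 4107], [4106, 4096, 5632, 4107, 4097, 4353], [], [4106, 4107], [4106, 5632, 4107, 4353], [], [], [5632], [5632, 4609], [5632]]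

def c21 : List (List ℕ) := [[], [], [], [], [], [], [4106, 4107], [5376, 4353], [4106, 4107], [], [], [], [4106, 5632, 4107, 4353], [], [5376, 4353], [], [4106, 5376, 4107, 4609], [4096, 4097], [], [4106, 4096, 4107, 4097, 5633], [], [4106, 4107], [4106, 4096, 4107, 4097], [4106], [], [4106, 4107], [], [], [4106, 4107], [4352, 5377], [4106, 4107], [4106, 4107]]

def c22 : List (List ℕ) := [[4106, 5632, 4107, 4353], [4096, 4097], [4106, 4107], [], [4106, 5632, 4107, 4353], [5888, 4353], [4106, 4096, 4352, 4107, 4097, 5633], [4106, 5376, 4107, 4609], [4106, 4107], [4106, 4096, 4352, 4107, 4097, 5633], [4106, 5632, 4107, 4353], [], [], [4106, 4107], [], [], [4106, 4107], [], [4352, 5377], [], [], [4106, 4096, 5632, 4107, 4097, 4353], [4106, 5376, 4107, 4609], [4106, 5632, 4107, 4353], [4106, 4107], [4096, 4097], [5888, 4353], [], [5632, 4609]]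

def c23 : List (List ℕ) := [[4106], [], [4352, 5377], [4106, 5376, 5632, 4107, 4353, 4609], [4106, 5376, 5632, 4107, 4353, 4609], [4106, 4107], [], [4106, 4107], [4106, 5376, 4107, 4609], [5888, 4353], [4106, 5632, 4107, 4353], [], [4106, 4107], [], [], [], [], [], [], [4106], [4106, 4107]]

def c24 : List (List ℕ) := [[4106, 5376, 5632, 4107, 4353, 4609], [], [], [5888, 4353]]

def c25 : List (List ℕ) := [[], [], [], [5632, 4353], [], [], [], [], [], [], [], [4106, 4107], [4106, 4107], [4352, 5633], [], [], [4096, 4097], [], [4106, 4107], [], [4106, 4107], [4106, 4107], [], [], [4106, 4107], [4106, 4107], [4106, 4107], [], [], [5888], [], [4106, 4107], [5632, 4353], [], [4106, 4107], [4106, 4107], [4106, 4107], [5376], [], [4352, 5121]]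

def c26 : List (List ℕ) := [[], [4352, 5633], [], [], [4106, 4107], [4106, 4107], [], [4352, 5377], [4106, 4107], [], [], [4106, 4107], [], [4106, 4107], [4106, 4107], [], [4352, 5121], [], [4106, 4096, 4352, 4107, 4097, 5633], [4106, 4107], [], [4106, 4107], [4106, 4107], [], [5632, 4353], [], [4106, 4352, 4107, 5633], [4352, 5377], [4106, 4107], [4352, 5121], [], [4106, 4107], [4354, 4099]]

def c27 : List (List ℕ) := [[], [], [4106, 5632, 4107, 4353], [], [], [4106, 4107], [], [], [], [], [5632, 4609], [4106, 4107], [4352, 5121], [5888, 4353], [], [], [], [4106, 5376, 4107, 4609], [], [4106, 4107], [], [], [], [], [5888, 4353], [], [5632, 4353], [4106, 4096, 5632, 4107, 4097, 4353], [5888, 4353], [4106, 4107]]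

def c28 : List (List ℕ) := [[], [], [], [4106, 5632, 4107, 4353], [], [], [], [], [], [], [], [], [], [4352, 5633], [4106, 4352, 4107, 5633], [5632, 4353], [], [], [5376, 4353], [4106, 4107], [4106, 4107], [4106, 4107], [], [4106, 4107], [], [], [], [4106, 4107]]

def c29 : List (List ℕ) := [[4106], [4106, 4107], [], [], [4106, 4107], [4106, 4107], [4106, 5632, 4107, 4353], [4106, 4107], [4106, 4107], [], [5632, 4609], [4106, 4107], [4106, 4107], [], [4106, 4107], [4106, 4096, 4107, 4097], [4106, 4107], [4106, 4107], [], [], [4106, 4107], [], [4106, 4107]]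

def c30 : List (List ℕ) := [[], [4106, 4096, 4107, 4097, 5633], [4106, 4107], [4106, 4107], [], [], [], [], [4096, 4097], [4106, 4107], [5888, 4353], [4106, 5376, 4107, 4609], [4106, 5120, 5376, 4107, 4609, 4865], [], [4106, 4107], [], [], [5632, 4353], [4106, 4107], [4106, 5376, 5632, 4107, 4353, 4609], [4106, 4107]]

def c31 : List (List ℕ) := [[4106, 5376, 4107, 4609], [4106, 5376, 5632, 4107, 4353, 4609], [4106], [4106, 4107], [], [5888, 4353], [], [5376, 4609], [], [4106, 4107], [4106, 5376, 4107, 4609], [4352, 5121], [4106, 5376, 4107, 4609], [4106, 5120, 5376], [4106, 4107], [4352, 5889], [4106, 4107], [5632]]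

def c32 : List (List ℕ) := [[4106, 4096, 5632, 4107, 4097, 4353], [5888, 4353], [4106, 4107], [], [], [], [4106, 4107], [], [5888, 4353], [5632, 4609], [5632, 4609], [5632, 4609], [], [4106, 4107]]

set_option maxHeartbeats 0 in
theorem res : Hub P 1 7 := by
  have h := Upto.zero X l
  replace h := h.base (m := 2) ok ex0 (cs := c0) (by decide +kernel) (by decide +kernel)
  replace h := h.base (m := 7) ok ex1 (cs := c1) (by decide +kernel) (by decide +kernel)
  replace h := h.base (m := 17) ok ex2 (cs := c2) (by decide +kernel) (by decide +kernel)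
  replace h := h.base (m := 45) ok ex3 (cs := c3) (by decide +kernel) (by decide +kernel)
  replace h := h.base (m := 113) ok ex4 (cs := c4) (by decide +kernel) (by decide +kernel)
  replace h := h.base (m := 192) ok ex5 (cs := c5) (by decide +kernel) (by decide +kernel)
  replace h := h.base (m := 272) ok ex6 (cs := c6) (by decide +kernel) (by decide +kernel)
  replace h := h.base (m := 284) ok ex7 (cs := c7) (by decide +kernel) (by decide +kernel)
  replace h := h.base (m := 315) ok ex8 (cs := c8) (by decide +kernel) (by decide +kernel)
  replace h := h.base (m := 347) ok ex9 (cs := c9) (by decide +kernel) (by decide +kernel)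
  replace h := h.base (m := 396) ok ex10 (cs := c10) (by decide +kernel) (by decide +kernel)
  replace h := h.base (m := 456) ok ex11 (cs := c11) (by decide +kernel) (by decide +kernel)
  replace h := h.base (m := 516) ok ex12 (cs := c12) (by decide +kernel) (by decide +kernel)
  replace h := h.base (m := 572) ok ex13 (cs := c13) (by decide +kernel) (by decide +kernel)
  replace h := h.base (m := 578) ok ex14 (cs := c14) (by decide +kernel) (by decide +kernel)
  replace h := h.base (m := 609) ok ex15 (cs := c15) (by decide +kernel) (by decide +kernel)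
  replace h := h.base (m := 631) ok ex16 (cs := c16) (by decide +kernel) (by decide +kernel)
  replace h := h.base (m := 665) ok ex17 (cs := c17) (by decide +kernel) (by decide +kernel)
  replace h := h.base (m := 692) ok ex18 (cs := c18) (by decide +kernel) (by decide +kernel)
  replace h := h.base (m := 747) ok ex19 (cs := c19) (by decide +kernel) (by decide +kernel)
  replace h := h.base (m := 798) ok ex20 (cs := c20) (by decide +kernel) (by decide +kernel)
  replace h := h.base (m := 838) ok ex21 (cs := c21) (by decide +kernel) (by decide +kernel)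
  replace h := h.base (m := 902) ok ex22 (cs := c22) (by decide +kernel) (by decide +kernel)
  replace h := h.base (m := 936) ok ex23 (cs := c23) (by decide +kernel) (by decide +kernel)
  replace h := h.base (m := 944) ok ex24 (cs := c24) (by decide +kernel) (by decide +kernel)
  replace h := h.base (m := 980) ok ex25 (cs := c25) (by decide +kernel) (by decide +kernel)
  replace h := h.base (m := 1026) ok ex26 (cs := c26) (by decide +kernel) (by decide +kernel)
  replace h := h.base (m := 1060) ok ex27 (cs := c27) (by decide +kernel) (by decide +kernel)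
  replace h := h.base (m := 1084) ok ex28 (cs := c28) (by decide +kernel) (by decide +kernel)
  replace h := h.base (m := 1119) ok ex29 (cs := c29) (by decide +kernel) (by decide +kernel)
  replace h := h.base (m := 1158) ok ex30 (cs := c30) (by decide +kernel) (by decide +kernel)
  replace h := h.base (m := 1197) ok ex31 (cs := c31) (by decide +kernel) (by decide +kernel)
  replace h := h.base (m := 1219) ok ex32 (cs := c32) (by decide +kernel) (by decide +kernel)
  exact hub_ok ok sm (up h) (by decide +kernel)

end H7

namespace H8

theorem up (h : Upto X l 887) : Upto X l (8461 + 1) := by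
  replace h := h.many (m := 1835) ok al.1 (by decide +kernel)
  replace h := h.many (m := 2880) ok al.2.1 (by decide +kernel)
  replace h := h.many (m := 3589) ok al.2.2.1 (by decide +kernel)
  replace h := h.many (m := 4251) ok al.2.2.2.1 (by decide +kernel)
  replace h := h.many (m := 4950) ok al.2.2.2.2.1 (by decide +kernel)
  replace h := h.many (m := 5526) ok al.2.2.2.2.2.1 (by decide +kernel)
  replace h := h.many (m := 6342) ok al.2.2.2.2.2.2.1 (by decide +kernel)
  replace h := h.many (m := 7055) ok al.2.2.2.2.2.2.2.1 (by decide +kernel)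
  replace h := h.many (m := 7514) ok al.2.2.2.2.2.2.2.2.1 (by decide +kernel)
  replace h := h.many (m := 8138) ok al.2.2.2.2.2.2.2.2.2.1 (by decide +kernel)
  replace h := h.many (m := 8462) ok al.2.2.2.2.2.2.2.2.2.2.1 (by decide +kernel)
  exact h

theorem sm : same l (mk0 X.D P) = true := by decide +kernel

def c0 : List (List ℕ) := [[4352, 4608]]

def c1 : List (List ℕ) := [[4352, 4608, 4864, 4098, 5378]]

def c2 : List (List ℕ) := [[4352, 4608, 4864], [4352, 4608, 4864], [4352, 5378], [], [4352]]

def c3 : List (List ℕ) := [[4352, 4608, 4864, 5634, 5121, 5377, 5633, 4611], [4352, 4608, 5378], [4352, 5633], [4106, 4352, 4608], [4608, 5376, 4353, 5121], [4352, 5120]]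

def c4 : List (List ℕ) := [[4352, 5377], [], [], [4352, 4608], [5634, 4611], [], [4352, 5120], [], [4106, 4107], [4608, 4353], [4352, 5633], [4352], [4106, 4107], [4608, 5376], [4106, 4352, 4107, 5633, 5889], [], [4608, 5376], [], [4106, 4352, 5120], [4352, 5633], [], [], [], [4352, 5633], [5376, 4353], [4106, 4352, 4864], [4106, 4352], [], [5633], [], [4352, 5120, 4865, 5633]]

def c5 : List (List ℕ) := [[], [], [], [], [], [4106, 4107], [4106], [4106, 4107], [4352], [4352, 5633], [], [4106, 4107], [], [], [], [4611], [4106, 4107], [4106, 4107], [], [], [], [], [], [], [4352, 5633], [4352, 5377], [4106], [5633], [], [4106, 4107], [4106, 4107], [4106, 4107], [], [], [4106, 4107], [4106, 4107], [], [4352, 5633], [], [4106, 4352, 4107, 5889]]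

def c6 : List (List ℕ) := [[], [4106, 4107], [4352], [5376, 4353], [], [4352, 5633], [5376, 4353], [], [4106, 4352, 5376], [], [], [4352, 5633], [], [4106, 4352, 5120, 4107, 5121, 5889], [], [], [4106, 4107], [4352], [], [4106, 4107], [], [], [4106, 4107], [], [], [], [5376, 4353], [], [4352, 5120, 4865, 5633], [], [4106, 4107], [], [], [], [], [4106, 4107], [5376, 4353], [4608, 5376, 4353, 5121], [5376, 4353], [4106, 4107]]

def c7 : List (List ℕ) := [[4106, 4107], [], [4106, 4107], [], [4106, 4107], [], [4106, 4608]]

def c8 : List (List ℕ) := [[5376], [4352, 5377], [4106, 4107], [4106, 4107], [4106, 4107], [5632, 4353], [], [], [], [], [4106, 4107], [4106, 4107], [4106, 4107], [4106, 4107], [4106, 4107], [4106, 4107], [], [], [4106], [], [], [4106, 4107], [4106, 4107], [4106, 4107], [], [], [], [4106], [4106], [], [4106, 4107], [], [4106, 4107]]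

def c9 : List (List ℕ) := [[4106], [4106, 5888, 4107, 4353], [4106, 4107], [4106, 4107], [], [], [4106, 4107], [4106, 4107], [4106, 4107], [], [], [], [], [4106, 4107], [], [4106, 4107], [4106, 4107], [4106, 4107], [], [4106, 4107], [4106], [4106, 4107], [], [], [5632, 4353], [4106, 4107], [], [], [], [], [], [], [], [], [], [4106, 4107], [4106, 4107], [], [], [4106, 4107]]

def c10 : List (List ℕ) := [[], [], [], [], [5376, 4353], [4106, 4107], [], [], [4106, 4107], [], [], [], [4106, 4107], [4106, 5120, 4107, 5121], [4106], [], [4106, 4107], [], [4106, 4107], [], [4106, 4107], [], [], [], [4106, 4107], [5376, 4353], [], [4352], [], [5376], [], [], [], [], [], [], [4106, 4107], [], [4106], [4106, 4107]]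

def c11 : List (List ℕ) := [[], [], [], [], [4106, 4107], [], [], [], [], [], [4106, 4107], [4106, 4107], [], [], [4106, 4107], [], [], [], [5376, 4353], [4106, 4352, 4107, 5889], [4106, 4107], [4106, 4107], [4106, 4107], [4106, 4107], [], [4106, 4107], [4106, 4107], [4106, 4107], [], [], [4106, 4107], [], [4106, 4107], [4106, 4107], [], [], [5376, 4353], [], [], [4106, 4107]]

def c12 : List (List ℕ) := [[], [], [], [4106, 4107], [4106, 4107], [], [4106, 4107], [], [4106, 5632, 4107, 4609], [], [], [], [5376, 4353], [5376, 4353], [4106, 4107], [], [4106, 4107], [4106, 4107], [], [4106, 4107], [], [4106, 5888, 4107, 4353], [4106, 4107], [4352, 5633], [4106, 4107], [4352, 5633], [4106, 4107], [4106, 4107], [], [], [4106, 5888, 4107, 4353], [4106, 4107], [4106, 5888, 4107, 4353], [4106, 4107], [5376, 4353], [], [5633], [5632, 4353], [], [4106, 4107]]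

def c13 : List (List ℕ) := [[], [4106, 4107], [4106, 4107], [4352], [], [], [4611], [5376, 4353], [], [], [4106, 4107], [4106, 4107], [4106, 4107], [4106, 4107], [4106, 4107], [], [], [], [4106, 4107], [], [], [], [4106, 4107], [4106, 4107], [4106, 4107], [], [], [], [4106, 4107], [4106, 4107]]

def c14 : List (List ℕ) := [[4106, 4107]]

def c15 : List (List ℕ) := [[4106, 4107], [4106, 4107], [], [4106, 4107], [], [], [], [], [], [4352, 5377], [], [], [], [], [4106, 4107], [], [4106, 4107], [], [4106, 4107], [], [4106, 4107], [], [4106, 4107], [], [4106, 4107], [], [], [], [4106, 4107], [], [], [], [], [4106, 4107], [], [4106, 4107], [], [], [], [4106, 4107]]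

def c16 : List (List ℕ) := [[4106, 4107], [], [], [4106, 4107], [], [4106, 4107], [], [], [4106, 4107], [], [], [], [], [], [4106, 4107], [4106, 4107], [], [], [5888, 4353], [], [], [4106, 4107], [], [], [], [4106, 4107], [], [4106, 4107], [4106, 4107], [], [4106, 4107], [4106, 4107], [4106, 5888, 4107, 4353], [], [5888, 4107, 4353], [], [], [], [], [4106, 4107]]

def c17 : List (List ℕ) := [[], [4096, 4097], [4106, 4107], [], [4106, 4107], [4106, 4107], [4106, 4107], [4106, 5632, 4107, 4609], [], [4106, 4107], [], [4106, 4107], [5888, 4353], [], [], [], [], [], [], [4106, 4107], [], [], [], [], [], [], [4106, 4107], [5888, 4353], [], [], [], [], [], [4106, 4107], [], [], [4106, 5888, 4107, 4353], [4106, 4107]]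

def c18 : List (List ℕ) := [[], [4106, 4107], [], [4106, 4107], [4106, 4107], [4106, 4107], [4106, 4107], [5376, 4353], [], [], [], [4106, 4107], [], [], [4106, 4107], [4106, 4107], [4106, 4107], [4106, 4107], [4106, 4107], [4106], [4106, 4107], [4106, 4107], [], [], [4106, 5632, 4107, 4609], [], [4106, 4107], [], [], [], [4106, 4107], [], [4106, 5888, 4107, 4353], [], [], [4106, 4107], [4106, 4107]]

def c19 : List (List ℕ) := [[], [4106, 4107], [4106, 4107], [], [], [4106, 4107], [5376, 4353], [], [], [4106, 4107], [4106, 5888, 4107, 4353], [], [], [], [], [], [], [], [5888, 4353], [], [4106, 4107], [4106, 5632, 4107, 4609], [], [], [], [4106, 4107], [], [], [], [4106, 4107], [4106, 4107], [], [], [4106, 4107], [4106, 4107], [4106, 4107], [4106, 4107], [4106, 4107], [], [4106, 4107]]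

def c20 : List (List ℕ) := [[], [4106, 4107], [4106, 4107], [4106, 4107], [5376, 4353], [], [4106, 4107], [], [4106, 4107], [], [], [4106, 4107], [], [4106, 4107], [], [], [], [4106, 5888, 4107, 4353], [5376, 4353], [], [4106, 4107], [], [], [], [], [4106, 4107], [], [], [], [], [], [], [], [], [4106, 4107], [4106, 4107], [4106, 4107], [4106, 4107], [4106, 4107]]

def c21 : List (List ℕ) := [[4106, 4107], [4106, 4107], [4106, 4107], [], [4106, 4107], [4106, 4107], [], [], [], [4106, 4107], [4106, 5632, 4107, 4609], [4106, 4107], [], [4106, 4107], [5376, 4353], [4106, 4107], [], [4106, 4107], [4106, 4107], [], [4106, 4107], [], [], [], [4106, 4107], [], [4106, 4107], [4106, 4107], [], [], [], [], [4106, 4107]]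

def c22 : List (List ℕ) := [[], [4106, 4107], [], [4106, 4107], [], [4106, 4107], [], [], [], [], [], [], [4106, 4107], [], [], [4106, 5888, 4107, 4353], [], [], [], [4106, 4107], [4106, 5888, 4107, 4353], [], [], [], [], [], [4106, 4107], [], [4106, 4107]]

def c23 : List (List ℕ) := [[], [4106, 4107], [], [], [], [], [4106, 4107], [], [], [4106, 4107], [], [4106, 4107], [], [], [4106, 4107], [4106, 4107], [], [], [4106, 4107], [], [], [], [], [4106, 4107]]

def c24 : List (List ℕ) := [[], [4106, 4107], [4106, 4107], [4106, 4107], [4106, 4107], [4106, 4107]]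

def c25 : List (List ℕ) := [[4106, 4107], [4106, 4107], [4106, 4107], [], [4106], [4106, 4107], [4106, 4107], [4106, 4107], [4106, 4107], [], [4106, 4107], [], [], [], [4106, 4107], [], [], [4106], [], [4106, 4107], [], [], [], [4106, 4107], [], [], [], [4106, 4107], [4106, 4107], [], [], [], [], [4106, 4107]]

def c26 : List (List ℕ) := [[4106, 4107], [], [4106, 4107], [4106, 4107], [], [], [4106, 4107], [], [], [4106, 4107], [4106, 4107], [], [4106, 4107], [], [], [4106, 4107], [], [], [], [], [4106, 4107], [], [], [], [], [4106, 4107], [], [], [], [], [4106, 4107]]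

def c27 : List (List ℕ) := [[4106, 4107], [4106, 4107], [], [4106, 4107], [4352, 5633], [], [], [4106, 4107], [4106, 4107], [4106, 4107], [4106, 4107], [], [], [], [], [4106, 4107], [4106, 4107], [], [4106, 4107], [], [4106, 4107], [4106, 4107], [4106, 4107], [], [], [4106, 4107]]

def c28 : List (List ℕ) := [[4106, 4107], [4106, 4107], [], [], [4106, 4107], [4106, 4107], [4106, 4107], [4106, 4107], [5376], [4106, 4107], [], [], [4106, 4107], [], [], [], [], [4106, 4107], [5376, 4353], [], [], [], [], [], [4106, 4107], [], [4106, 4107]]

def c29 : List (List ℕ) := [[], [], [], [4106, 4107], [], [], [], [], [], [4106, 4107], [4106, 4107], [], [], [4106, 4107], [], [], [], [], [4106, 4107], [4106, 4107], [], [4106, 4107], [], [4106, 4107]]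

def c30 : List (List ℕ) := [[4106, 4107], [], [], [], [4106, 4107], [4106, 4107], [4106, 4107], [4106, 4107], [4106, 4107], [], [], [], [], [4106, 4107], [], [], [4106, 5888, 4107, 4353]]

def c31 : List (List ℕ) := [[], [], [], [], [4106, 4107], [], [4106, 4107], [], [5888, 4353], [], [], [], [], [], [], [4106, 4107], [], [4106, 4107]]

def c32 : List (List ℕ) := [[], [4106, 4107], [], [4106, 4107], [], [4106, 4107], [], [4106, 5632, 4107, 4609], [4106, 4107], [4106, 4107], [4106, 4107], [4106, 4107], [4106, 4107], [], [4106, 4107], [4106, 4107], [4106, 4107]]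

set_option maxHeartbeats 0 in
theorem res : Hub P 1 8 := by
  have h := Upto.zero X l
  replace h := h.base (m := 2) ok ex0 (cs := c0) (by decide +kernel) (by decide +kernel)
  replace h := h.base (m := 7) ok ex1 (cs := c1) (by decide +kernel) (by decide +kernel)
  replace h := h.base (m := 16) ok ex2 (cs := c2) (by decide +kernel) (by decide +kernel)
  replace h := h.base (m := 38) ok ex3 (cs := c3) (by decide +kernel) (by decide +kernel)
  replace h := h.base (m := 83) ok ex4 (cs := c4) (by decide +kernel) (by decide +kernel)
  replace h := h.base (m := 120) ok ex5 (cs := c5) (by decide +kernel) (by decide +kernel)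
  replace h := h.base (m := 167) ok ex6 (cs := c6) (by decide +kernel) (by decide +kernel)
  replace h := h.base (m := 175) ok ex7 (cs := c7) (by decide +kernel) (by decide +kernel)
  replace h := h.base (m := 211) ok ex8 (cs := c8) (by decide +kernel) (by decide +kernel)
  replace h := h.base (m := 249) ok ex9 (cs := c9) (by decide +kernel) (by decide +kernel)
  replace h := h.base (m := 279) ok ex10 (cs := c10) (by decide +kernel) (by decide +kernel)
  replace h := h.base (m := 317) ok ex11 (cs := c11) (by decide +kernel) (by decide +kernel)
  replace h := h.base (m := 374) ok ex12 (cs := c12) (by decide +kernel) (by decide +kernel)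
  replace h := h.base (m := 404) ok ex13 (cs := c13) (by decide +kernel) (by decide +kernel)
  replace h := h.base (m := 406) ok ex14 (cs := c14) (by decide +kernel) (by decide +kernel)
  replace h := h.base (m := 434) ok ex15 (cs := c15) (by decide +kernel) (by decide +kernel)
  replace h := h.base (m := 469) ok ex16 (cs := c16) (by decide +kernel) (by decide +kernel)
  replace h := h.base (m := 503) ok ex17 (cs := c17) (by decide +kernel) (by decide +kernel)
  replace h := h.base (m := 548) ok ex18 (cs := c18) (by decide +kernel) (by decide +kernel)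
  replace h := h.base (m := 588) ok ex19 (cs := c19) (by decide +kernel) (by decide +kernel)
  replace h := h.base (m := 624) ok ex20 (cs := c20) (by decide +kernel) (by decide +kernel)
  replace h := h.base (m := 662) ok ex21 (cs := c21) (by decide +kernel) (by decide +kernel)
  replace h := h.base (m := 684) ok ex22 (cs := c22) (by decide +kernel) (by decide +kernel)
  replace h := h.base (m := 700) ok ex23 (cs := c23) (by decide +kernel) (by decide +kernel)
  replace h := h.base (m := 710) ok ex24 (cs := c24) (by decide +kernel) (by decide +kernel)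
  replace h := h.base (m := 740) ok ex25 (cs := c25) (by decide +kernel) (by decide +kernel)
  replace h := h.base (m := 762) ok ex26 (cs := c26) (by decide +kernel) (by decide +kernel)
  replace h := h.base (m := 792) ok ex27 (cs := c27) (by decide +kernel) (by decide +kernel)
  replace h := h.base (m := 817) ok ex28 (cs := c28) (by decide +kernel) (by decide +kernel)
  replace h := h.base (m := 833) ok ex29 (cs := c29) (by decide +kernel) (by decide +kernel)
  replace h := h.base (m := 851) ok ex30 (cs := c30) (by decide +kernel) (by decide +kernel)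
  replace h := h.base (m := 861) ok ex31 (cs := c31) (by decide +kernel) (by decide +kernel)
  replace h := h.base (m := 887) ok ex32 (cs := c32) (by decide +kernel) (by decide +kernel)
  exact hub_ok ok sm (up h) (by decide +kernel)

end H8

namespace H9

theorem up (h : Upto X l 362) : Upto X l (3662 + 1) := by
  replace h := h.many (m := 1342) ok al.1 (by decide +kernel)
  replace h := h.many (m := 1886) ok al.2.1 (by decide +kernel)
  replace h := h.many (m := 2407) ok al.2.2.1 (by decide +kernel)
  replace h := h.many (m := 2854) ok al.2.2.2.1 (by decide +kernel)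
  replace h := h.many (m := 3348) ok al.2.2.2.2.1 (by decide +kernel)
  replace h := h.many (m := 3663) ok al.2.2.2.2.2.1 (by decide +kernel)
  exact h

theorem sm : same l (mk0 X.D P) = true := by decide +kernel

def c0 : List (List ℕ) := [[4352, 4608]]

def c1 : List (List ℕ) := [[4352, 4608, 4864, 4098, 5378]]

def c2 : List (List ℕ) := [[4352, 4608, 4864], [4352, 4608, 4864], [4352, 5378], [], [4352]]

def c3 : List (List ℕ) := [[4352, 4608, 4864, 5634, 5121, 5377, 5633], [4352, 4608, 5378], [4352, 5633], [4352, 4608], [4608, 5376, 4353, 5121], [4352, 5120]]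

def c4 : List (List ℕ) := [[4352, 5377], [], [], [4352, 4608], [4352, 5633], [], [4352, 5120], [], [], [4608, 4353], [4352], [], [], [4608, 5376], [4352, 5633], [], [4608, 5376], [4106], [4352, 5120], [4352, 5633], [], [], [], [4352, 4608, 5377, 5633], [5376, 4353], [4352, 4864], [4352], [], [], [], [5633]]

def c5 : List (List ℕ) := [[], [], [], [], [], [], [], [], [4352], [4352], [], [], [], [], [], [], [], [], [], [4106, 4107], [], [], [4106, 4107], [], [5633], [4352, 5377], [], [], [], [], [], [], [], [], [], [], [], [4352, 5633], [], [4352, 5889]]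

def c6 : List (List ℕ) := [[], [], [4352], [5376, 4353], [4106, 4107], [], [5376], [4106, 4107], [4352, 5376], [4106, 4107], [], [], [], [4352, 5121], [], [], [], [4352], [], [], [], [4106], [], [], [], [], [5376, 4353], [4106, 4107], [4352, 5633], [], [], [], [], [], [4352, 5633], [], [5376, 4353], [4608, 5376, 4353, 5121], [5376, 4353]]

def c7 : List (List ℕ) := [[], [], [], [4352, 4608], [], [], [4608]]

def c8 : List (List ℕ) := [[5376], [4352, 5377], [], [], [], [5632, 4353], [], [], [4106, 4107], [4106, 4107], [], [], [], [], [], [], [4106], [4106, 4107], [], [4106, 4107], [], [], [], [], [], [], [], [], [], [], [], [4106, 4107], [], [], [], [4106, 4107]]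

def c9 : List (List ℕ) := [[], [], [], [], [], [], [], [], [], [4106], [], [], [4106], [], [4106, 4107], [], [], [], [], [], [], [], [4106, 4107], [], [5632, 4353], [], [], [], [], [], [4106, 4107], [], [], [], [], [], [], [4106, 4107]]

def c10 : List (List ℕ) := [[], [], [], [], [5376, 4353], [], [], [], [], [4106, 4107], [], [], [], [], [], [], [], [], [], [], [], [], [], [], [], [4353], [], [], [], [], [4106, 4107], [], [], [4106, 4107]]

def c11 : List (List ℕ) := [[], [], [], [4106, 4107], [], [], [4106, 4107], [], [], [], [], [], [5376, 4353], [4106, 4107], [], [4106, 4107], [], [], [5376, 4353], [4352, 5889], [], [], [], [], [4352, 5633], [], [], [], [], [], [], [4106, 4107], [], [], [], [], [5376]]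

def c12 : List (List ℕ) := [[], [], [], [], [], [], [], [4106, 4107], [], [4106, 4107], [], [], [5376, 4353], [], [], [], [], [], [4106, 4107], [], [4106, 4107], [], [], [4352, 5633], [], [4352, 5633], [], [], [], [], [], [], [], [], [5376, 4353], [4106, 4107], [], [5632, 4353]]

def c13 : List (List ℕ) := [[4106, 4107], [], [], [], [], [4106, 4107], [4611], [5376, 4353], [], [], [], [], [], [], [], [], [], [], [], [], [4106], [], [], [], [], [], [], [4106, 4107], [], [], [4352, 5633]]

def c15 : List (List ℕ) := [[], [], [4106, 4107], [], [4106, 4107], [4106, 4107], [], [], [], [], [4106, 4107], [4106, 4107], [], [], [], [], [], [4106, 4107], [], [4106, 4107], [], [], [], [], [], [4106, 4107], [], [], [], [], [], [], [], [], [], [], [4106, 4107]]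

def c16 : List (List ℕ) := [[], [4106, 4107], [4106, 4107], [], [], [], [], [], [], [4106, 4107], [], [], [4106, 4107], [], [], [], [], [4106, 4107], [], [], [4106, 4107], [], [], [4106, 4107], [4106, 4107], [], [4106, 4107], [], [], [4106, 4107], [], [], [], [4106, 4107], [], [4106, 4107]]

def c17 : List (List ℕ) := [[], [], [], [4106, 4107], [], [], [], [], [4106, 4107], [], [], [], [], [4106, 4107], [], [], [4106, 4107], [], [], [], [], [4106, 4107], [], [], [4106, 4107], [], [], [], [], [], [4106, 4107], [], [], [], [], [], [], [], [4106, 4107]]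

def c18 : List (List ℕ) := [[], [], [], [], [], [], [], [5376, 4353], [], [4106, 4107], [4106, 4107], [], [], [4106, 4107], [], [], [], [], [], [], [], [], [], [], [], [], [], [], [], [], [], [4106, 4107], [], [4106, 4107], [], [], [], [4106, 4107], [4106, 4107]]

def c19 : List (List ℕ) := [[], [], [], [4106, 4107], [4106, 4107], [], [], [], [], [], [], [], [], [], [], [], [], [], [], [], [], [], [], [], [], [], [], [], [4106, 4107], [], [], [4106, 4107], [4106, 4107]]

def c20 : List (List ℕ) := [[4106, 4107], [], [], [], [], [], [], [], [], [], [], [], [], [], [4106, 4107], [5376, 4353], [], [], [5376, 4353], [4106, 4107], [], [], [], [], [], [], [], [4106, 4107], [4106, 4107], [], [], [], [], [], [], [], [], [], [], [4106, 4107]]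

def c21 : List (List ℕ) := [[], [], [], [4106, 4107], [], [], [], [], [], [], [], [], [], [], [], [], [], [], [], [4352, 5633]]

def c22 : List (List ℕ) := [[], [], [], [], [], [], [], [], [], [], [], [4106, 4107], [], [], [4106, 4107], [], [], [], [], [], [], [], [], [], [], [], [], [4106, 4107]]

def c23 : List (List ℕ) := [[], [], [], [], [], [], [], [], [], [], [], [], [], [4106, 4107], [], [], [], [4106, 4107], [], [], [], [4106, 4107], [], [], [4106, 4107]]

def c25 : List (List ℕ) := [[], [], [], [], [], [], [], [], [], [4106, 4107], [], [], [], [], [], [], [], [], [], [], [], [], [4106, 4107], [], [], [], [], [], [], [], [4106, 4107], [], [], [], [], [], [], [], [4106, 4107]]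

def c26 : List (List ℕ) := [[], [], [], [], [], [], [], [], [], [], [], [], [], [], [], [], [], [4106, 4107], [], [], [], [], [], [4106, 4107]]

def c27 : List (List ℕ) := [[], [], [], [], [], [], [4106, 4107], [], [], [], [], [], [], [], [4106, 4107], [], [], [], [], [], [], [], [], [4106, 4107]]

def c28 : List (List ℕ) := [[], [], [4106, 4107], [], [], [], [], [], [], [], [4106, 4107], [4106, 4107], [], [], [], [], [4106, 4107], [], [], [], [], [], [4106, 4107], [], [], [4106, 4107]]

def c29 : List (List ℕ) := [[], [], [4106, 4107]]

def c30 : List (List ℕ) := [[], [], [], [], [], [], [], [], [], [], [], [], [], [], [], [4106, 4107]]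

def c31 : List (List ℕ) := [[], [], [], [], [], [], [], [], [], [], [], [], [], [], [], [], [], [], [4106, 4107]]

def c32 : List (List ℕ) := [[], [], [], [], [4106, 4107]]

set_option maxHeartbeats 0 in
theorem res : Hub P 1 9 := by
  have h := Upto.zero X l
  replace h := h.base (m := 2) ok ex0 (cs := c0) (by decide +kernel) (by decide +kernel)
  replace h := h.base (m := 7) ok ex1 (cs := c1) (by decide +kernel) (by decide +kernel)
  replace h := h.base (m := 16) ok ex2 (cs := c2) (by decide +kernel) (by decide +kernel)
  replace h := h.base (m := 36) ok ex3 (cs := c3) (by decide +kernel) (by decide +kernel)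
  replace h := h.base (m := 68) ok ex4 (cs := c4) (by decide +kernel) (by decide +kernel)
  replace h := h.base (m := 81) ok ex5 (cs := c5) (by decide +kernel) (by decide +kernel)
  replace h := h.base (m := 113) ok ex6 (cs := c6) (by decide +kernel) (by decide +kernel)
  replace h := h.base (m := 116) ok ex7 (cs := c7) (by decide +kernel) (by decide +kernel)
  replace h := h.base (m := 134) ok ex8 (cs := c8) (by decide +kernel) (by decide +kernel)
  replace h := h.base (m := 146) ok ex9 (cs := c9) (by decide +kernel) (by decide +kernel)
  replace h := h.base (m := 155) ok ex10 (cs := c10) (by decide +kernel) (by decide +kernel)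
  replace h := h.base (m := 174) ok ex11 (cs := c11) (by decide +kernel) (by decide +kernel)
  replace h := h.base (m := 194) ok ex12 (cs := c12) (by decide +kernel) (by decide +kernel)
  replace h := h.base (m := 206) ok ex13 (cs := c13) (by decide +kernel) (by decide +kernel)
  replace h := h.base (m := 224) ok ex15 (cs := c15) (by decide +kernel) (by decide +kernel)
  replace h := h.base (m := 248) ok ex16 (cs := c16) (by decide +kernel) (by decide +kernel)
  replace h := h.base (m := 264) ok ex17 (cs := c17) (by decide +kernel) (by decide +kernel)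
  replace h := h.base (m := 280) ok ex18 (cs := c18) (by decide +kernel) (by decide +kernel)
  replace h := h.base (m := 290) ok ex19 (cs := c19) (by decide +kernel) (by decide +kernel)
  replace h := h.base (m := 306) ok ex20 (cs := c20) (by decide +kernel) (by decide +kernel)
  replace h := h.base (m := 310) ok ex21 (cs := c21) (by decide +kernel) (by decide +kernel)
  replace h := h.base (m := 316) ok ex22 (cs := c22) (by decide +kernel) (by decide +kernel)
  replace h := h.base (m := 324) ok ex23 (cs := c23) (by decide +kernel) (by decide +kernel)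
  replace h := h.base (m := 332) ok ex25 (cs := c25) (by decide +kernel) (by decide +kernel)
  replace h := h.base (m := 336) ok ex26 (cs := c26) (by decide +kernel) (by decide +kernel)
  replace h := h.base (m := 342) ok ex27 (cs := c27) (by decide +kernel) (by decide +kernel)
  replace h := h.base (m := 354) ok ex28 (cs := c28) (by decide +kernel) (by decide +kernel)
  replace h := h.base (m := 356) ok ex29 (cs := c29) (by decide +kernel) (by decide +kernel)
  replace h := h.base (m := 358) ok ex30 (cs := c30) (by decide +kernel) (by decide +kernel)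
  replace h := h.base (m := 360) ok ex31 (cs := c31) (by decide +kernel) (by decide +kernel)
  replace h := h.base (m := 362) ok ex32 (cs := c32) (by decide +kernel) (by decide +kernel)
  exact hub_ok ok sm (up h) (by decide +kernel)

end H9

namespace H5

theorem up (h : Upto X l 3) : Upto X l (10 + 1) := by
  replace h := h.many (m := 11) ok al.1 (by decide +kernel)
  exact h

theorem sm : same l (mk0 X.D P) = true := by decide +kernel

def c0 : List (List ℕ) := [[5136]]

def c1 : List (List ℕ) := [[5376]]

def c2 : List (List ℕ) := [[], [], [5376]]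

set_option maxHeartbeats 0 in
theorem res : Hub P 1 5 := by
  have h := Upto.zero X l
  replace h := h.base (m := 1) ok ex0 (cs := c0) (by decide +kernel) (by decide +kernel)
  replace h := h.base (m := 2) ok ex1 (cs := c1) (by decide +kernel) (by decide +kernel)
  replace h := h.base (m := 3) ok ex2 (cs := c2) (by decide +kernel) (by decide +kernel)
  exact hub_ok ok sm (up h) (by decide +kernel)

end H5

namespace H6

theorem up (h : Upto X l 79) : Upto X l (339 + 1) := by
  replace h := h.many (m := 340) ok al.1 (by decide +kernel)
  exact h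

theorem sm : same l (mk0 X.D P) = true := by decide +kernel

def c0 : List (List ℕ) := [[4608]]

def c1 : List (List ℕ) := [[4106, 4352, 4608, 4864]]

def c2 : List (List ℕ) := [[5392, 4864], [], [4106, 4096, 4352], [4106, 4096, 5120], [4106]]

def c3 : List (List ℕ) := [[], [4106, 5120, 5376, 5378], [], [], [4106, 4107], [], [], [4106, 4096]]

def c4 : List (List ℕ) := [[5392, 4096, 4352, 4433, 4097, 5377], [], [], [], [], [4106, 4864, 5120, 5376], [], [], [], [4106, 4107], [], [], [], [4106], [], [], [4106], [], [], [], [], [], [4106, 4096, 4864, 5120, 5376]]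

def c5 : List (List ℕ) := [[], [], [], [], [], [], [], [], [4106, 4096, 4352, 5376], [], [], [], [], [], [], [], [], [], [], [], [], [], [], [], [], [4106, 4096, 5120, 5376, 4107, 4097, 4353, 4609]]

def c6 : List (List ℕ) := [[], [], [], [4106, 4107], [], [], [], [], [], [], [], [], [4106, 4864, 5120, 5376], [], [], [], [], [], [], [], [], [], [], [], [], [], [], [], [], [], [], [], [], [], [], [], [], [4106, 4107]]

def c8 : List (List ℕ) := [[4106, 5376], [4106, 4096, 5376, 4107, 4097, 4353]]

def c10 : List (List ℕ) := [[], [], [], [], [4106, 4107]]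

def c12 : List (List ℕ) := [[], [], [], [], [], [], [], [], [], [], [], [], [4106, 5376, 4107, 4353]]

def c18 : List (List ℕ) := [[], [], [], [], [], [], [], [4106, 5376, 4107, 4353]]

set_option maxHeartbeats 0 in
theorem res : Hub P 1 6 := by
  have h := Upto.zero X l
  replace h := h.base (m := 1) ok ex0 (cs := c0) (by decide +kernel) (by decide +kernel)
  replace h := h.base (m := 5) ok ex1 (cs := c1) (by decide +kernel) (by decide +kernel)
  replace h := h.base (m := 14) ok ex2 (cs := c2) (by decide +kernel) (by decide +kernel)
  replace h := h.base (m := 22) ok ex3 (cs := c3) (by decide +kernel) (by decide +kernel)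
  replace h := h.base (m := 41) ok ex4 (cs := c4) (by decide +kernel) (by decide +kernel)
  replace h := h.base (m := 53) ok ex5 (cs := c5) (by decide +kernel) (by decide +kernel)
  replace h := h.base (m := 61) ok ex6 (cs := c6) (by decide +kernel) (by decide +kernel)
  replace h := h.base (m := 69) ok ex8 (cs := c8) (by decide +kernel) (by decide +kernel)
  replace h := h.base (m := 71) ok ex10 (cs := c10) (by decide +kernel) (by decide +kernel)
  replace h := h.base (m := 75) ok ex12 (cs := c12) (by decide +kernel) (by decide +kernel)
  replace h := h.base (m := 79) ok ex18 (cs := c18) (by decide +kernel) (by decide +kernel)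
  exact hub_ok ok sm (up h) (by decide +kernel)

end H6

namespace H10

theorem up (h : Upto X l 113) : Upto X l (848 + 1) := by
  replace h := h.many (m := 836) ok al.1 (by decide +kernel)
  replace h := h.many (m := 849) ok al.2.1 (by decide +kernel)
  exact h

theorem sm : same l (mk0 X.D P) = true := by decide +kernel

def c0 : List (List ℕ) := [[4352, 4608]]

def c1 : List (List ℕ) := [[4352, 4608, 4864, 4098, 5378]]

def c2 : List (List ℕ) := [[4352, 4608, 4864], [4352, 4608, 4864], [4352, 5378], [], [4352]]

def c3 : List (List ℕ) := [[4352, 4608, 4864, 5634, 5121, 5377, 5633], [4608, 5378], [], [4352, 4608], [4608, 5376, 4353, 5121], [4352, 5120]]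

def c4 : List (List ℕ) := [[4352, 5377], [], [], [4352, 4608], [], [], [4352, 5120], [], [], [4608, 4353], [], [], [], [4608, 5376], [4352, 5633], [], [4608, 5376], [], [], [], [], [], [], [4352, 4608, 5377, 5633], [], [4352], [], [], [], [], [4352]]

def c5 : List (List ℕ) := [[], [], [], [], [], [], [], [], [4352], [], [], [], [], [], [], [], [], [], [], [], [], [], [], [], [], [5377]]

def c6 : List (List ℕ) := [[4106], [], [], [5376, 4353], [], [], [], [], [], [], [], [], [], [], [], [], [], [], [], [], [], [], [], [], [], [], [], [], [4352, 5633], [], [], [], [], [], [], [], [], [4608, 5376, 4353, 5121], [5376, 4353]]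

def c7 : List (List ℕ) := [[], [], [], [4352, 4608]]

def c8 : List (List ℕ) := [[5376], [4352, 5377], [], [], [], [], [], [], [], [], [], [], [], [], [], [], [], [], [], [], [], [], [], [], [], [], [], [], [], [], [], [], [], [], [4106, 4107], [], [], [], [], [4106, 4107]]

def c9 : List (List ℕ) := [[], [], [], [], [], [], [], [], [], [], [], [], [], [], [], [], [], [], [], [], [], [], [], [], [], [], [], [], [], [], [], [], [], [], [], [], [], [], [4106, 4107]]

def c10 : List (List ℕ) := [[], [], [], [], [5376, 4353]]

def c11 : List (List ℕ) := [[], [4106, 4107], [], [], [], [], [], [], [], [], [], [], [], [], [], [], [], [], [], [4352]]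

def c12 : List (List ℕ) := [[], [], [], [], [], [], [], [], [], [], [], [], [5376, 4353], [], [], [], [], [], [], [], [], [], [], [4352, 5633], [], [4352], [], [], [], [], [], [], [], [], [4353]]

def c13 : List (List ℕ) := [[], [], [], [], [], [], [4611]]

def c15 : List (List ℕ) := [[], [], [], [], [], [], [], [], [], [], [], [], [], [], [], [], [], [], [], [], [], [], [], [], [], [], [], [4106, 4107], [], [], [], [], [], [], [], [], [], [], [4106, 4107]]

def c16 : List (List ℕ) := [[], [], [], [], [], [], [], [], [], [], [4106, 4107], [], [], [4106, 4107]]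

def c18 : List (List ℕ) := [[], [], [], [], [], [], [], [5376, 4353], [], [], [], [], [], [], [], [], [], [], [], [], [], [], [], [], [], [], [], [], [4106, 4107]]

def c19 : List (List ℕ) := [[], [], [], [], [], [], [], [], [], [], [], [], [], [], [], [], [], [], [], [], [], [], [], [4106, 4107]]

def c20 : List (List ℕ) := [[], [], [], [], [], [], [], [], [], [], [], [], [], [], [], [], [], [], [], [], [], [], [], [], [], [], [], [], [], [], [], [4106, 4107]]

def c22 : List (List ℕ) := [[], [], [], [], [], [], [], [], [], [], [], [], [], [], [], [], [], [4106, 4107]]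

def c23 : List (List ℕ) := [[], [], [], [], [], [], [], [], [], [], [], [], [], [], [], [], [4106, 4107], [], [], [], [], [], [4106, 4107]]

def c25 : List (List ℕ) := [[], [], [], [], [], [], [], [], [], [], [], [], [], [], [], [4106, 4107]]

set_option maxHeartbeats 0 in
theorem res : Hub P 1 10 := by
  have h := Upto.zero X l
  replace h := h.base (m := 2) ok ex0 (cs := c0) (by decide +kernel) (by decide +kernel)
  replace h := h.base (m := 7) ok ex1 (cs := c1) (by decide +kernel) (by decide +kernel)
  replace h := h.base (m := 16) ok ex2 (cs := c2) (by decide +kernel) (by decide +kernel)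
  replace h := h.base (m := 33) ok ex3 (cs := c3) (by decide +kernel) (by decide +kernel)
  replace h := h.base (m := 53) ok ex4 (cs := c4) (by decide +kernel) (by decide +kernel)
  replace h := h.base (m := 55) ok ex5 (cs := c5) (by decide +kernel) (by decide +kernel)
  replace h := h.base (m := 66) ok ex6 (cs := c6) (by decide +kernel) (by decide +kernel)
  replace h := h.base (m := 68) ok ex7 (cs := c7) (by decide +kernel) (by decide +kernel)
  replace h := h.base (m := 75) ok ex8 (cs := c8) (by decide +kernel) (by decide +kernel)
  replace h := h.base (m := 77) ok ex9 (cs := c9) (by decide +kernel) (by decide +kernel)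
  replace h := h.base (m := 79) ok ex10 (cs := c10) (by decide +kernel) (by decide +kernel)
  replace h := h.base (m := 82) ok ex11 (cs := c11) (by decide +kernel) (by decide +kernel)
  replace h := h.base (m := 88) ok ex12 (cs := c12) (by decide +kernel) (by decide +kernel)
  replace h := h.base (m := 89) ok ex13 (cs := c13) (by decide +kernel) (by decide +kernel)
  replace h := h.base (m := 93) ok ex15 (cs := c15) (by decide +kernel) (by decide +kernel)
  replace h := h.base (m := 97) ok ex16 (cs := c16) (by decide +kernel) (by decide +kernel)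
  replace h := h.base (m := 101) ok ex18 (cs := c18) (by decide +kernel) (by decide +kernel)
  replace h := h.base (m := 103) ok ex19 (cs := c19) (by decide +kernel) (by decide +kernel)
  replace h := h.base (m := 105) ok ex20 (cs := c20) (by decide +kernel) (by decide +kernel)
  replace h := h.base (m := 107) ok ex22 (cs := c22) (by decide +kernel) (by decide +kernel)
  replace h := h.base (m := 111) ok ex23 (cs := c23) (by decide +kernel) (by decide +kernel)
  replace h := h.base (m := 113) ok ex25 (cs := c25) (by decide +kernel) (by decide +kernel)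
  exact hub_ok ok sm (up h) (by decide +kernel)

end H10

namespace H11

theorem up (h : Upto X l 53) : Upto X l (207 + 1) := by
  replace h := h.many (m := 208) ok al.1 (by decide +kernel)
  exact h

theorem sm : same l (mk0 X.D P) = true := by decide +kernel

def c0 : List (List ℕ) := [[4352, 4608]]

def c1 : List (List ℕ) := [[4352, 4864, 4098, 5378]]

def c2 : List (List ℕ) := [[], [4352, 4608, 4864], [], [], [4352]]

def c3 : List (List ℕ) := [[4352, 4608, 4864, 5121, 5377, 5633], [], [], [4352], [4608, 5376, 4353, 5121], [4352, 5120]]

def c4 : List (List ℕ) := [[], [], [], [4352, 4608], [], [], [], [], [], [4608, 4353], [], [], [], [4608], [4352, 5633], [], [4608, 5376], [], [], [], [], [], [], [4352, 4608, 5377, 5633], [], [4352], [], [], [], [], [4352]]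

def c6 : List (List ℕ) := [[], [], [], [5376, 4353], [], [], [], [], [], [], [], [], [], [], [], [], [], [], [], [], [], [], [], [], [], [], [], [], [], [], [], [], [], [], [], [], [], [4608, 5376, 5121]]

def c7 : List (List ℕ) := [[], [], [], [4352, 4608]]

def c8 : List (List ℕ) := [[5376]]

def c9 : List (List ℕ) := [[], [], [], [], [], [], [], [], [], [], [], [], [], [], [], [], [], [], [], [], [], [], [], [], [], [], [4106, 4107]]

def c10 : List (List ℕ) := [[], [], [], [], [5376, 4353]]

def c12 : List (List ℕ) := [[], [], [], [], [], [], [], [], [], [], [], [], [5376]]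

def c18 : List (List ℕ) := [[], [], [], [], [], [], [], [5376, 4353]]

set_option maxHeartbeats 0 in
theorem res : Hub P 1 11 := by
  have h := Upto.zero X l
  replace h := h.base (m := 2) ok ex0 (cs := c0) (by decide +kernel) (by decide +kernel)
  replace h := h.base (m := 6) ok ex1 (cs := c1) (by decide +kernel) (by decide +kernel)
  replace h := h.base (m := 10) ok ex2 (cs := c2) (by decide +kernel) (by decide +kernel)
  replace h := h.base (m := 23) ok ex3 (cs := c3) (by decide +kernel) (by decide +kernel)
  replace h := h.base (m := 38) ok ex4 (cs := c4) (by decide +kernel) (by decide +kernel)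
  replace h := h.base (m := 43) ok ex6 (cs := c6) (by decide +kernel) (by decide +kernel)
  replace h := h.base (m := 45) ok ex7 (cs := c7) (by decide +kernel) (by decide +kernel)
  replace h := h.base (m := 46) ok ex8 (cs := c8) (by decide +kernel) (by decide +kernel)
  replace h := h.base (m := 48) ok ex9 (cs := c9) (by decide +kernel) (by decide +kernel)
  replace h := h.base (m := 50) ok ex10 (cs := c10) (by decide +kernel) (by decide +kernel)
  replace h := h.base (m := 51) ok ex12 (cs := c12) (by decide +kernel) (by decide +kernel)
  replace h := h.base (m := 53) ok ex18 (cs := c18) (by decide +kernel) (by decide +kernel)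
  exact hub_ok ok sm (up h) (by decide +kernel)

end H11

namespace E5

theorem up (h : Upto X l 1) : Upto X l (1 + 1) := by
  replace h := h.many (m := 2) ok al.1 (by decide +kernel)
  exact h

theorem sm : same l (mk1 X.D P) = true := by decide +kernel

def c0 : List (List ℕ) := [[5136]]

set_option maxHeartbeats 0 in
theorem res : Edge P 1 5 := by
  have h := Upto.zero X l
  replace h := h.base (m := 1) ok ex0 (cs := c0) (by decide +kernel) (by decide +kernel)
  exact edge_ok ok sm (up h) (by decide +kernel)

end E5

namespace E6

theorem up (h : Upto X l 7) : Upto X l (7 + 1) := by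
  replace h := h.many (m := 8) ok al.1 (by decide +kernel)
  exact h

theorem sm : same l (mk1 X.D P) = true := by decide +kernel

def c2 : List (List ℕ) := [[], [], [], [], [4106]]

def c3 : List (List ℕ) := [[], [], [], [], [4106, 4107]]

def c4 : List (List ℕ) := [[], [], [], [], [], [], [], [], [], [], [], [], [], [4106], [], [], [4106]]

def c6 : List (List ℕ) := [[], [], [], [], [], [], [], [], [], [], [], [], [], [], [], [], [], [], [], [], [], [], [], [], [], [], [], [], [], [], [], [], [], [], [], [], [], [4106, 4107]]

set_option maxHeartbeats 0 in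
theorem res : Edge P 1 6 := by
  have h := Upto.zero X l
  replace h := h.base (m := 1) ok ex2 (cs := c2) (by decide +kernel) (by decide +kernel)
  replace h := h.base (m := 3) ok ex3 (cs := c3) (by decide +kernel) (by decide +kernel)
  replace h := h.base (m := 5) ok ex4 (cs := c4) (by decide +kernel) (by decide +kernel)
  replace h := h.base (m := 7) ok ex6 (cs := c6) (by decide +kernel) (by decide +kernel)
  exact edge_ok ok sm (up h) (by decide +kernel)

end E6

namespace E7

theorem up (h : Upto X l 11) : Upto X l (11 + 1) := by
  replace h := h.many (m := 12) ok al.1 (by decide +kernel)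
  exact h

theorem sm : same l (mk1 X.D P) = true := by decide +kernel

def c0 : List (List ℕ) := [[4352, 4608]]

def c1 : List (List ℕ) := [[4098, 5378]]

def c2 : List (List ℕ) := [[], [4106]]

def c3 : List (List ℕ) := [[4106, 4107], [], [], [], [], [4106]]

def c4 : List (List ℕ) := [[], [], [], [4106], [], [], [], [], [], [], [], [], [], [], [], [], [], [], [], [], [], [], [], [4106, 4107]]

set_option maxHeartbeats 0 in
theorem res : Edge P 1 7 := by
  have h := Upto.zero X l
  replace h := h.base (m := 2) ok ex0 (cs := c0) (by decide +kernel) (by decide +kernel)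
  replace h := h.base (m := 4) ok ex1 (cs := c1) (by decide +kernel) (by decide +kernel)
  replace h := h.base (m := 5) ok ex2 (cs := c2) (by decide +kernel) (by decide +kernel)
  replace h := h.base (m := 8) ok ex3 (cs := c3) (by decide +kernel) (by decide +kernel)
  replace h := h.base (m := 11) ok ex4 (cs := c4) (by decide +kernel) (by decide +kernel)
  exact edge_ok ok sm (up h) (by decide +kernel)

end E7

namespace E8

theorem up (h : Upto X l 0) : Upto X l (0 + 1) := by
  replace h := h.many (m := 1) ok al.1 (by decide +kernel)
  exact h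

theorem sm : same l (mk1 X.D P) = true := by decide +kernel

set_option maxHeartbeats 0 in
theorem res : Edge P 1 8 := by
  have h := Upto.zero X l
  exact edge_ok ok sm (up h) (by decide +kernel)

end E8

end Pool.Agent.MP_8c1b0d_co.CT4.UChk

namespace Pool.Agent.MP_8c1b0d_co.CT4

open UChk

theorem four_colour (D : Type) [Fintype D] (G : Map D) :
    G.Planar → G.Bridgeless → G.Colourable :=
  four_colour_of P (by decide) P_small H5.res H6.res H7.res H8.res H9.res H10.res H11.res
    E5.res E6.res E7.res E8.res D G

end Pool.Agent.MP_8c1b0d_co.CT4
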