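import Pool.Agent.MP_8c1b0d_co.CT4.Base

set_option linter.unusedSectionVars false
set_option linter.unusedVariables false
set_option linter.unusedSimpArgs false

/-! Four colour theorem: configurations. Definitions only. -/

namespace Pool.Agent.MP_8c1b0d_co.CT4

open Equiv Finset Function

namespace Map

variable {D : Type} (G : Map D)

/-- same face -/
abbrev sf (x y : D) : Prop := G.f.SameCycle x y

/-- adjacent faces -/
def Adj (x y : D) : Prop := ∃ z, G.sf x z ∧ G.sf (G.e z) y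

/-- all edges of `Z` are legs of one pentagon, and of two consecutive legs one is in `Z` -/
def Wheel (Z : Set D) : Prop := ∃ x, G.deg x = 5 ∧
  (∀ z ∈ Z, ∃ i : ℕ, z = G.n ((G.f ^ i) x) ∨ G.e z = G.n ((G.f ^ i) x)) ∧
  ∀ i : ℕ, G.n ((G.f ^ i) x) ∈ Z ∨ G.n ((G.f ^ (i + 1)) x) ∈ Z

end Map

/-- the largest number of darts on the small side of a cut -/
def small : ℕ → ℕ
  | 3 => 3
  | 4 => 6
  | 5 => 15
  | _ => 0

/-- A configuration. Labels `j < r` are ring faces, the label `r + w` is the kernel face `w`.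
`nb` lists the cyclic neighbour lists of the kernel faces (entry `0` of `w > 0` is its parent),
`legs` gives for each `j < r` the position with label `j` whose predecessor has label `j + 1`,
`X` lists the contract edges as positions. -/
structure Conf where
  r : ℕ
  nb : List (List ℕ)
  legs : List (ℕ × ℕ)
  X : List (ℕ × ℕ)

namespace Conf

variable (C : Conf)

/-- number of kernel faces -/
def k : ℕ := C.nb.length

/-- size of the kernel face `w` -/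
def γ (w : ℕ) : ℕ := (C.nb.getD w []).length

/-- the label across position `i` of `w` -/
def N (w i : ℕ) : ℕ := (C.nb.getD w []).getD (i % C.γ w) 0

/-- the position before `i` -/
def pre (w i : ℕ) : ℕ := i + C.γ w - 1

/-- the kernel face across position `i` of `w` -/
def far (w i : ℕ) : ℕ := C.N w i - C.r

/-- the position of `w` in the list of `far w i` -/
def rev (w i : ℕ) : ℕ := (C.nb.getD (C.far w i) []).idxOf (C.r + w)

/-- the word leading from the root to `w` -/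
def path (w : ℕ) : List ℤ :=
  if w = 0 then [] else if C.far w 0 = 0 then [(C.rev w 0 : ℤ)]
  else [(C.rev (C.far w 0) 0 : ℤ), (C.rev w 0 : ℤ)]

/-- the face sizes along the parent tree -/
def pattern : Pattern := (List.range C.k).map fun w => (C.path w, 2 ^ C.γ w)

/-- the position of leg `j` -/
def L (j : ℕ) : ℕ × ℕ := C.legs.getD j (0, 0)

/-- positions whose reverse is forced by the parent tree and the triangles -/
inductive Cen : ℕ → ℕ → Prop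
  | tree (w : ℕ) : 0 < w → w < C.k → Cen w 0
  | rev (w i : ℕ) : Cen w i → Cen (C.far w i) (C.rev w i)
  | tri (w i : ℕ) : Cen w i → Cen w (C.pre w i) → Cen (C.far w i) (C.rev w i + 1)
  | mod (w i j : ℕ) : Cen w i → i % C.γ w = j % C.γ w → Cen w j

/-- the walk along a ring face reaches a leg position within the given number of steps -/
def Walk : ℕ → ℕ → ℕ → Prop
  | 0, w, i => C.N w (C.pre w i) < C.r
  | m + 1, w, i => C.N w (C.pre w i) < C.r ∨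
      Walk m (C.far w (C.pre w i)) (C.pre (C.far w (C.pre w i)) (C.rev w (C.pre w i)))

/-- the labels `a`, `b` are joined by a contract edge -/
def InX (a b : ℕ) : Prop :=
  ∃ p ∈ C.X, (a = C.r + p.1 ∧ b = C.N p.1 p.2) ∨ (b = C.r + p.1 ∧ a = C.N p.1 p.2)

/-- well formed configurations -/
structure WF : Prop where
  kpos : 0 < C.k
  gam : ∀ w < C.k, 0 < C.γ w ∧ C.γ w < 12
  lab : ∀ w < C.k, ∀ i, C.N w i < C.r + C.k
  nodup : ∀ w < C.k, ∀ i j, C.N w i = C.N w j → i % C.γ w = j % C.γ w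
  sym : ∀ w < C.k, ∀ i, C.r ≤ C.N w i → C.N (C.far w i) (C.rev w i) = C.r + w
  tc : ∀ w < C.k, ∀ i, C.r ≤ C.N w i → C.N (C.far w i) (C.rev w i + 1) = C.N w (C.pre w i)
  par : ∀ w < C.k, 0 < w → C.r ≤ C.N w 0 ∧ (C.far w 0 = 0 ∨ C.far (C.far w 0) 0 = 0)
  shell : ∀ w < C.k, ∀ i, C.r ≤ C.N w i → C.Cen w i
  leg : ∀ j < C.r, (C.L j).1 < C.k ∧ (C.L j).2 < C.γ (C.L j).1 ∧ C.N (C.L j).1 (C.L j).2 = j ∧
    C.N (C.L j).1 (C.pre (C.L j).1 (C.L j).2) = (j + 1) % C.r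
  isleg : ∀ w < C.k, ∀ i, C.N w i < C.r → C.N w (C.pre w i) < C.r →
    C.L (C.N w i) = (w, i % C.γ w)
  walk : ∀ w < C.k, ∀ i, C.N w i < C.r → C.Walk 3 w i
  xne : C.X ≠ []
  xlen : C.X.length ≤ 4
  triad : C.X.length ≤ 3 ∨ ∃ v < C.k, (∀ i, ¬ C.InX (C.r + v) (C.N v i)) ∧
    (∃ i₁ i₂ i₃, i₁ < i₂ ∧ i₂ < i₃ ∧ i₃ < C.γ v ∧ (∃ a, C.InX (C.N v i₁) a) ∧
      (∃ a, C.InX (C.N v i₂) a) ∧ ∃ a, C.InX (C.N v i₃) a) ∧
    (C.γ v = 5 → ∃ i, ¬ C.InX (C.N v i) (C.N v (C.pre v i)) ∧ ¬ C.InX (C.N v (i + 1)) (C.N v i))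
  xmem : ∀ p ∈ C.X, p.1 < C.k
  sparse : ∀ w < C.k, ∀ i, C.InX (C.r + w) (C.N w i) →
    ¬ C.InX (C.N w i) (C.N w (C.pre w i)) ∧ ¬ C.InX (C.r + w) (C.N w (C.pre w i))

/-- the ring colouring `κ` extends to a colouring of the configuration -/
def Ext (κ : ℕ → K) : Prop := ∃ φ : ℕ → K, (∀ j < C.r, κ j = φ j + φ ((j + 1) % C.r)) ∧
  ∀ w < C.k, ∀ i, φ (C.r + w) ≠ φ (C.N w i)

/-- the ring colouring `κ` extends modulo the contract -/
def ExtX (κ : ℕ → K) : Prop := ∃ φ : ℕ → K, (∀ j < C.r, κ j = φ j + φ ((j + 1) % C.r)) ∧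
  ∀ w < C.k, ∀ i, φ (C.r + w) = φ (C.N w i) ↔ C.InX (C.r + w) (C.N w i)

/-- reducibility -/
def Reducible : Prop := ∀ S : (ℕ → K) → Prop, KempeClosed C.r S → (∀ κ, S κ → ¬ C.Ext κ) →
  ∀ κ, S κ → ¬ C.ExtX κ

variable {D : Type} (G : Map D) (b : ℕ → D)

/-- the dart at position `i` of the face `w` -/
def psi (w i : ℕ) : D := (G.f ^ i) (b w)

/-- sizes agree and reverse positions are reverse darts -/
structure Pre : Prop where
  deg : ∀ w < C.k, G.deg (b w) = C.γ w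
  central : ∀ w < C.k, ∀ i, C.r ≤ C.N w i →
    G.e (psi G b w i) = psi G b (C.far w i) (C.rev w i)

/-- an induced embedding of the configuration -/
structure Emb : Prop extends C.Pre G b where
  inj : ∀ u < C.k, ∀ v < C.k, G.sf (b u) (b v) → u = v
  induced : ∀ w < C.k, ∀ i, C.N w i < C.r → ∀ u < C.k, ¬ G.sf (G.e (psi G b w i)) (b u)

/-- the darts at the vertices of the kernel faces -/
def region : Set D :=
  {d | ∃ w < C.k, ∃ i, d = psi G b w i ∨ d = G.n (psi G b w i) ∨ d = G.n (G.n (psi G b w i))}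

/-- the legs -/
def leg (j : ℕ) : D := G.n (psi G b (C.L j).1 (C.L j).2)

end Conf

end Pool.Agent.MP_8c1b0d_co.CT4

/-! The reducibility checker: definitions only. Sets of ring colourings are big numbers. -/

namespace Pool.Agent.MP_8c1b0d_co.CT4.Chk

/-- `n` ones -/
def ones (n : ℕ) : ℕ := Nat.sub (Nat.shiftLeft 1 n) 1

/-- `2 ^ m` copies of `x` at distance `s` -/
noncomputable def dbl (x s m : ℕ) : ℕ :=
  Nat.rec x (fun i y => Nat.lor y (Nat.shiftLeft y (Nat.shiftLeft s i))) m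

/-- evaluate a small number before going on: `frc x k = k x` -/
noncomputable def frc (x : ℕ) (k : ℕ → ℕ) : ℕ := Nat.rec (k 0) (fun n _ => k (Nat.succ n)) x

/-- evaluate a big number before going on: `seq x y = y` -/
def seq (x y : ℕ) : ℕ := cond (Nat.ble 0 x) y 0

/-- union -/
def orZ (x y : ℕ) : ℕ := cond (Nat.beq x 0) y (Nat.lor x y)

/-- fold over `i < n` -/
noncomputable def fold (f : ℕ → ℕ → ℕ) (x n : ℕ) : ℕ := Nat.rec x f n

/-- entry `n` of a list -/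
noncomputable def nth {α : Type} (d : α) (l : List α) : ℕ → α :=
  List.rec (fun _ => d) (fun x _ ih n => Nat.rec x (fun m _ => ih m) n) l

/-- a number from chunks of `s` bits -/
noncomputable def comb (s : ℕ) (l : List ℕ) : ℕ :=
  List.rec 0 (fun c _ acc => Nat.lor c (Nat.shiftLeft acc s)) l

/-! ### The layout of the ring colourings -/

/-- binomial coefficient -/
def ch (n m : ℕ) : ℕ := Nat.div (Nat.descFactorial n m) (Nat.factorial m)

/-- bit `τ` is set iff `a` has rank `ρ` in the `τ`-th subset of size `m` of `range n` -/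
noncomputable def rkm (a ρ n : ℕ) : ℕ → ℕ :=
  Nat.rec (fun _ => 0) (fun n ih m => Nat.rec 0 (fun m' _ =>
    cond (Nat.ble m ρ || Nat.blt n a) 0 (Nat.lor (ih m) (Nat.shiftLeft
      (cond (Nat.beq a n) (cond (Nat.beq ρ m') (ones (ch n m')) 0) (ih m')) (ch n m)))) m) n

/-- number of subsets in group `k` -/
def wd (r k : ℕ) : ℕ := ch r (Nat.mul 2 k)

/-- number of sign bits in group `k` -/
def sb (k : ℕ) : ℕ := Nat.sub (Nat.mul 2 k) 2

/-- size of group `k` -/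
def sz (r k : ℕ) : ℕ := Nat.shiftLeft (wd r k) (sb k)

/-- offset of group `k + 1` -/
noncomputable def off (r k : ℕ) : ℕ := fold (fun i s => Nat.add s (sz r (Nat.succ i))) 0 k

/-- number of indices -/
noncomputable def tot (r : ℕ) : ℕ := off r (Nat.div r 2)

/-- the sign bit that belongs to the rank `ρ ≥ 1` -/
def ex (k ρ : ℕ) : ℕ :=
  cond (Nat.beq (Nat.mod ρ 2) 1) (Nat.add (Nat.sub k 1) (Nat.div ρ 2)) (Nat.sub (Nat.div ρ 2) 1)

/-- the block `u` at all sign vectors whose bit `e` is set -/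
noncomputable def pat (W d u e : ℕ) : ℕ :=
  dbl (Nat.shiftLeft (dbl u W e) (Nat.shiftLeft W e)) (Nat.shiftLeft W (Nat.succ e))
    (Nat.sub d (Nat.succ e))

/-- first coordinate of the colour of leg `a` in group `k` -/
noncomputable def g1 (r k a : ℕ) : ℕ :=
  dbl (fold (fun ρ s => Nat.lor s (rkm a ρ r (Nat.mul 2 k))) 0 (Nat.mul 2 k)) (wd r k) (sb k)

/-- second coordinate, except at rank zero -/
noncomputable def g2r (r k a : ℕ) : ℕ :=
  fold (fun ρ s => Nat.lor s (pat (wd r k) (sb k) (rkm a (Nat.succ ρ) r (Nat.mul 2 k))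
    (ex k (Nat.succ ρ)))) (Nat.xor (ones (sz r k)) (g1 r k a)) (sb k)

/-- second coordinate -/
noncomputable def g2 (r k a : ℕ) : ℕ :=
  Nat.xor (g2r r k a) (Nat.land (fold (fun i s => Nat.xor s (g2r r k i)) 0 r)
    (dbl (rkm a 0 r (Nat.mul 2 k)) (wd r k) (sb k)))

/-- concatenation of the groups -/
noncomputable def cat (r : ℕ) (f : ℕ → ℕ) : ℕ :=
  fold (fun i s => Nat.lor s (Nat.shiftLeft (f (Nat.succ i)) (off r i))) 0 (Nat.div r 2)

noncomputable def e1 (r a : ℕ) : ℕ := cat r fun k => g1 r k a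

noncomputable def e2 (r a : ℕ) : ℕ := cat r fun k => g2 r k a

/-- partial sums of the planes of a list -/
noncomputable def fc (E : List ℕ) (i : ℕ) : ℕ := fold (fun a s => Nat.xor s (E.getD a 0)) 0 i

/-- the indices at which ring face `i` has the colour with code `c` -/
noncomputable def hp (one : ℕ) (E₁ E₂ : List ℕ) (i c : ℕ) : ℕ :=
  Nat.land (cond (Nat.ble 2 c) (fc E₁ i) (Nat.xor one (fc E₁ i)))
    (cond (Nat.beq (Nat.mod c 2) 1) (fc E₂ i) (Nat.xor one (fc E₂ i)))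

/-- the table of all planes -/
noncomputable def hps (r : ℕ) (E₁ E₂ : List ℕ) : List (List ℕ) :=
  (List.range 4).map fun c => (List.range r).map fun i => hp (ones (tot r)) E₁ E₂ i c

/-! ### Colour symmetry -/

/-- exchange the bits `j` and `j + s` for `j` in `m` -/
def dsw (s m x : ℕ) : ℕ :=
  Nat.xor (Nat.xor x (Nat.land (Nat.xor (Nat.shiftRight x s) x) m))
    (Nat.shiftLeft (Nat.land (Nat.xor (Nat.shiftRight x s) x) m) s)

noncomputable def net (l : List (ℕ × ℕ)) : ℕ → ℕ :=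
  List.rec (fun x => x) (fun p _ ih x => seq x (ih (dsw p.1 p.2 x))) l

/-- `p X + q Y` -/
def lin (p q : Bool) (X Y : ℕ) : ℕ := Nat.xor (cond p X 0) (cond q Y 0)

/-- the indices where the permuted planes are not the image under the matrix `p q u v` -/
noncomputable def dis (r : ℕ) (l : List (ℕ × ℕ)) (E₁ E₂ : List ℕ) (p q u v : Bool) : ℕ :=
  fold (fun a s => Nat.lor s (Nat.lor
    (Nat.xor (net l (E₁.getD a 0)) (lin p q (E₁.getD a 0) (E₂.getD a 0)))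
    (Nat.xor (net l (E₂.getD a 0)) (lin u v (E₁.getD a 0) (E₂.getD a 0))))) 0 r

/-- the test of the network -/
noncomputable def netOk (r : ℕ) (l : List (ℕ × ℕ)) (E₁ E₂ : List ℕ) : Bool :=
  l.all (fun p => Nat.beq (Nat.land p.2 (Nat.shiftLeft p.2 p.1)) 0) &&
  Nat.beq (net l (ones (tot r))) (ones (tot r)) &&
  Nat.beq (Nat.land (Nat.land (Nat.land (dis r l E₁ E₂ true true true false)
    (dis r l E₁ E₂ true true false true)) (Nat.land (dis r l E₁ E₂ false true true false)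
    (dis r l E₁ E₂ false true true true))) (Nat.land (dis r l E₁ E₂ true false false true)
    (ones (tot r)))) 0

/-! ### Kempe step -/

/-- trees of matchings -/
inductive MT where
  | nil : MT
  | cons (b : ℕ) (child rest : MT) : MT

/-- the indices of half a group whose sign bit `b` is zero -/
noncomputable def fm (W d b : ℕ) : ℕ :=
  dbl (ones (Nat.shiftLeft W b)) (Nat.shiftLeft W (Nat.succ b)) (Nat.sub d (Nat.succ (Nat.succ b)))

/-- exchange the blocks of length `s` marked by `m` with their right neighbours -/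
def flq (m s x : ℕ) : ℕ :=
  Nat.lor (Nat.shiftLeft (Nat.land x m) s) (Nat.land (Nat.shiftRight x s) m)

/-- change sign bit `b - 1`; nothing for `b = 0` -/
noncomputable def flp (W d b : ℕ) : ℕ → ℕ :=
  Nat.rec (fun x => x) (fun b _ => flq (fm W d b) (Nat.shiftLeft W b)) b

/-- half size at level `i` -/
def hs (W k i : ℕ) : ℕ := Nat.shiftLeft W (Nat.add (Nat.sub k 1) i)

/-- one level: `f i lo hi a₁ a₂` -/
def enter (W k : ℕ) (f : ℕ → ℕ → ℕ → ℕ → ℕ → ℕ) (i x : ℕ) : ℕ :=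
  f i (Nat.land x (ones (hs W k i))) (Nat.shiftRight x (hs W k i)) (ones (hs W k i))
    (ones (hs W k i))

/-- intersect with the result `z` of a child -/
def join (g : ℕ → ℕ → ℕ) (p : ℕ → ℕ) (a₁ a₂ z : ℕ) : ℕ := g (Nat.land a₁ z) (Nat.land a₂ (p z))

/-- go down one level -/
noncomputable def down (W k : ℕ) (f : ℕ → ℕ → ℕ → ℕ → ℕ → ℕ) (i y : ℕ) : ℕ :=
  Nat.rec y (fun i' _ => enter W k f i' y) i

noncomputable def kgo (W d k : ℕ) (t : MT) : ℕ → ℕ → ℕ → ℕ → ℕ → ℕ :=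
  MT.rec (fun i _ _ a₁ a₂ => Nat.lor a₁ (Nat.shiftLeft a₂ (hs W k i)))
    (fun b _ _ ihc ihr i lo hi a₁ a₂ => join (ihr i lo hi) (flp W d b) a₁ a₂
      (down W k ihc i (Nat.lor lo (flp W d b hi)))) t

/-- the Kempe step on group `k` -/
noncomputable def kstep (r k : ℕ) (t : MT) (x : ℕ) : ℕ :=
  Nat.rec x (fun i _ => Nat.lor x (Nat.shiftLeft
    (enter (wd r k) k (kgo (wd r k) (sb k) k t) i
      (Nat.land (Nat.shiftRight x (off r (Nat.sub k 1))) (ones (sz r k))))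
    (off r (Nat.sub k 1)))) (Nat.sub k 1)

/-- the pairs `a e` and `a' e'` are disjoint and do not cross -/
def compat (a e a' e' : ℕ) : Bool :=
  !Nat.beq e e' && (((Nat.blt a a' == Nat.blt a e') == (Nat.blt e a' == Nat.blt e e')))

/-- the child with label `b` -/
noncomputable def find (b : ℕ) (t : MT) : Option MT :=
  MT.rec none (fun b' c _ _ ihr => cond (Nat.beq b b') (some c) ihr) t

/-- every noncrossing matching of `range (2 k)` that contains `ps` is a path of the tree -/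
noncomputable def cov (k i : ℕ) : List (ℕ × ℕ) → Option MT → Bool :=
  Nat.rec (fun ps t => t.isSome || (List.range k).all fun b =>
      !(ps.all fun p => compat (2 * k - 1) (2 * b) p.1 p.2))
    (fun i ih ps t => (List.range k).all fun b =>
      !(ps.all fun p => compat (2 * i + 1) (2 * b) p.1 p.2) ||
        ih ((2 * i + 1, 2 * b) :: ps) (t.bind (find b))) i

/-! ### Extension of ring colourings -/

/-- elimination forests -/
inductive ET where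
  | nil : ET
  | cons (w m : ℕ) (sub rest : ET) : ET

/-- colour `a` of `w` agrees with the remembered colours -/
def okc (cm : ℕ → ℕ → ℕ) (w φ a : ℕ) : Bool := Nat.beq (Nat.land φ (cm w a)) 0

/-- give `w` the colour `a` and go down -/
def sub (cf : ℕ → ℕ → ℕ) (w : ℕ) (f : ℕ → ℕ → ℕ) (φ a : ℕ) : ℕ :=
  f (Nat.lor φ (Nat.shiftLeft 1 (Nat.add (Nat.mul 4 w) a))) (cf w a)

def and1 (ok : ℕ → Bool) (g : ℕ → ℕ) (s : ℕ) : ℕ := cond (ok 3) (Nat.land s (g 3)) s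

def and2 (ok : ℕ → Bool) (g : ℕ → ℕ) (s : ℕ) : ℕ :=
  cond (ok 2) (and1 ok g (Nat.land s (g 2))) (and1 ok g s)

def and3 (ok : ℕ → Bool) (g : ℕ → ℕ) (s : ℕ) : ℕ :=
  cond (ok 1) (and2 ok g (Nat.land s (g 1))) (and2 ok g s)

/-- intersection of `g a` over the colours `a < 4` with `ok a` -/
def and4 (one : ℕ) (ok : ℕ → Bool) (g : ℕ → ℕ) : ℕ :=
  cond (ok 0) (and3 ok g (g 0)) (cond (ok 1) (and2 ok g (g 1))
    (cond (ok 2) (and1 ok g (g 2)) (cond (ok 3) (g 3) one)))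

def node (one : ℕ) (cm cf : ℕ → ℕ → ℕ) (w : ℕ) (f : ℕ → ℕ → ℕ) (φ : ℕ) : ℕ :=
  and4 one (okc cm w φ) (sub cf w f φ)

def nxt (one : ℕ) (cm cf : ℕ → ℕ → ℕ) (w : ℕ) (f : ℕ → ℕ → ℕ) (g : ℕ → ℕ) (acc φ : ℕ) : ℕ :=
  g (orZ acc (node one cm cf w f φ))

/-- `acc` together with the indices that do not extend over the forest; bit `4 v + a` of `φ` says
that `v` has the colour with code `a` -/
noncomputable def ne (one : ℕ) (cm cf : ℕ → ℕ → ℕ) (t : ET) : ℕ → ℕ → ℕ :=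
  ET.rec (fun _ acc => acc) (fun w m _ _ ihs ihr φ acc =>
    frc (Nat.land φ m) (nxt one cm cf w ihs (ihr φ) acc)) t

/-- Boolean form of `InX` -/
def inX (C : Conf) (X : List (ℕ × ℕ)) (a b : ℕ) : Bool :=
  X.any fun p => (Nat.beq a (Nat.add C.r p.1) && Nat.beq b (C.N p.1 p.2)) ||
    (Nat.beq b (Nat.add C.r p.1) && Nat.beq a (C.N p.1 p.2))

/-- forbidden colours of the kernel neighbours when `w` has colour `a` -/
noncomputable def cmk (C : Conf) (X : List (ℕ × ℕ)) (w a : ℕ) : ℕ :=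
  List.rec 0 (fun y _ s => cond (Nat.blt y C.r) s (Nat.lor s (Nat.shiftLeft
    (cond (inX C X (Nat.add C.r w) y) (Nat.xor 15 (Nat.shiftLeft 1 a)) (Nat.shiftLeft 1 a))
    (Nat.mul 4 (Nat.sub y C.r))))) (nth [] C.nb w)

noncomputable def hget (H : List (List ℕ)) (a i : ℕ) : ℕ := nth 0 (nth [] H a) i

/-- the indices at which colour `a` of `w` conflicts with the ring -/
noncomputable def cfk (one : ℕ) (H : List (List ℕ)) (C : Conf) (X : List (ℕ × ℕ)) (w a : ℕ) : ℕ :=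
  List.rec 0 (fun y _ s => cond (Nat.blt y C.r) (orZ s
    (cond (inX C X (Nat.add C.r w) y) (Nat.xor one (hget H a y)) (hget H a y))) s) (nth [] C.nb w)

/-- all four bits of `v` are set -/
def has (A v : ℕ) : Bool := Nat.beq (Nat.land (Nat.shiftRight A (Nat.mul 4 v)) 15) 15

/-- the vertices of the forest with the masks of the remembered ancestors -/
noncomputable def trav (t : ET) : ℕ → List (ℕ × ℕ) → List (ℕ × ℕ) :=
  ET.rec (fun _ l => l) (fun w m _ _ ihs ihr A l =>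
    (w, Nat.land A m) :: ihs (Nat.lor (Nat.land A m) (Nat.shiftLeft 15 (Nat.mul 4 w))) (ihr A l)) t

/-- no vertex twice -/
noncomputable def nd (l : List (ℕ × ℕ)) : Bool :=
  List.rec true (fun p l ih => ih && l.all fun q => !Nat.beq p.1 q.1) l

/-- the root `w` and the forest see every vertex once and every kernel edge -/
noncomputable def okT (C : Conf) (w : ℕ) (t : ET) : Bool :=
  (fun L : List (ℕ × ℕ) => nd L && (List.range C.k).all (fun w => L.any fun p => Nat.beq p.1 w) &&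
    L.all fun p => (nth [] C.nb p.1).all fun y => Nat.blt y C.r || has p.2 (Nat.sub y C.r) ||
      L.any fun q => Nat.beq (Nat.add C.r q.1) y && has q.2 p.1) (trav (ET.cons w 0 t ET.nil) 0 [])

/-! ### The test -/

/-- tables for one ring size -/
structure Tab where
  r : ℕ
  net : List (ℕ × ℕ)
  H : List (List ℕ)
  mt : List MT

/-- operation `0` adds the permuted set, operation `n > 0` makes the Kempe steps on the groups
`k` with bit `k` of `n` set -/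
noncomputable def op (T : Tab) (n x : ℕ) : ℕ :=
  cond (Nat.beq n 0) (Nat.lor x (net T.net x))
    (fold (fun i s => cond (Nat.beq (Nat.land (Nat.shiftRight n (Nat.succ i)) 1) 1)
      (kstep T.r (Nat.succ i) (nth MT.nil T.mt i) s) s) x (Nat.div T.r 2))

noncomputable def run (T : Tab) (l : List ℕ) : ℕ → ℕ :=
  List.rec (fun x => x) (fun n _ ih x => seq x (ih (op T n x))) l

/-- the indices that do not extend when the root `w` has the colour with code `1` -/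
noncomputable def neR (one : ℕ) (H : List (List ℕ)) (C : Conf) (X : List (ℕ × ℕ)) (w : ℕ)
    (t : ET) : ℕ :=
  sub (cfk one H C X) w (ne one (cmk C X) (cfk one H C X) t) 0 1

/-- the root `w` sees the ring faces `0` and `1` through edges outside the contract -/
def okR (C : Conf) (w : ℕ) : Bool :=
  Nat.blt w C.k && Nat.blt 1 C.r && (C.nb.getD w []).any (Nat.beq 0) &&
    (C.nb.getD w []).any (Nat.beq 1) && !inX C C.X (Nat.add C.r w) 0 && !inX C C.X (Nat.add C.r w) 1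

noncomputable def check (T : Tab) (C : Conf) (w₁ : ℕ) (t₁ : ET) (w₂ : ℕ) (t₂ : ET)
    (prog : List ℕ) : Bool :=
  Nat.beq T.r C.r && okT C w₁ t₁ && okR C w₂ && Nat.beq (Nat.lor
    (run T prog (Nat.xor (ones (tot T.r)) (neR (ones (tot T.r)) T.H C [] w₁ t₁)))
    (neR (ones (tot T.r)) T.H C C.X w₂ t₂)) (ones (tot T.r))

end Pool.Agent.MP_8c1b0d_co.CT4.Chk

/-! Trees of noncrossing matchings. -/

namespace Pool.Agent.MP_8c1b0d_co.CT4.Chk

set_option maxRecDepth 100000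
set_option exponentiation.threshold 100000

def mt1 : MT := .nil

def mt2 : MT := (.cons 0 .nil (.cons 1 .nil .nil))

def mt3 : MT := (.cons 1 (.cons 0 .nil (.cons 2 .nil .nil)) (.cons 2 (.cons 0 .nil (.cons 1 .nil .nil)) (.cons 0 (.cons 1 .nil .nil) .nil)))

def mt4 : MT := (.cons 2 (.cons 1 (.cons 0 .nil (.cons 3 .nil .nil)) (.cons 3 (.cons 0 .nil (.cons 1 .nil .nil)) (.cons 0 (.cons 1 .nil .nil) .nil))) (.cons 3 (.cons 1 (.cons 0 .nil (.cons 2 .nil .nil)) (.cons 2 (.cons 0 .nil (.cons 1 .nil .nil)) (.cons 0 (.cons 1 .nil .nil) .nil))) (.cons 1 (.cons 2 (.cons 0 .nil (.cons 3 .nil .nil)) .nil) (.cons 0 (.cons 2 (.cons 1 .nil .nil) (.cons 1 (.cons 2 .nil .nil) .nil)) .nil))))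

def mt5 : MT := (.cons 3 (.cons 2 (.cons 1 (.cons 0 .nil (.cons 4 .nil .nil)) (.cons 4 (.cons 0 .nil (.cons 1 .nil .nil)) (.cons 0 (.cons 1 .nil .nil) .nil))) (.cons 4 (.cons 1 (.cons 0 .nil (.cons 2 .nil .nil)) (.cons 2 (.cons 0 .nil (.cons 1 .nil .nil)) (.cons 0 (.cons 1 .nil .nil) .nil))) (.cons 1 (.cons 2 (.cons 0 .nil (.cons 4 .nil .nil)) .nil) (.cons 0 (.cons 2 (.cons 1 .nil .nil) (.cons 1 (.cons 2 .nil .nil) .nil)) .nil)))) (.cons 4 (.cons 2 (.cons 1 (.cons 0 .nil (.cons 3 .nil .nil)) (.cons 3 (.cons 0 .nil (.cons 1 .nil .nil)) (.cons 0 (.cons 1 .nil .nil) .nil))) (.cons 3 (.cons 1 (.cons 0 .nil (.cons 2 .nil .nil)) (.cons 2 (.cons 0 .nil (.cons 1 .nil .nil)) (.cons 0 (.cons 1 .nil .nil) .nil))) (.cons 1 (.cons 2 (.cons 0 .nil (.cons 3 .nil .nil)) .nil) (.cons 0 (.cons 2 (.cons 1 .nil .nil) (.cons 1 (.cons 2 .nil .nil) .nil)) .nil)))) (.cons 2 (.cons 3 (.cons 1 (.cons 0 .nil (.cons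 4 .nil .nil)) (.cons 4 (.cons 0 .nil (.cons 1 .nil .nil)) (.cons 0 (.cons 1 .nil .nil) .nil))) .nil) (.cons 1 (.cons 3 (.cons 2 (.cons 0 .nil (.cons 4 .nil .nil)) .nil) (.cons 2 (.cons 3 (.cons 0 .nil (.cons 4 .nil .nil)) .nil) .nil)) (.cons 0 (.cons 3 (.cons 2 (.cons 1 .nil .nil) (.cons 1 (.cons 2 .nil .nil) .nil)) (.cons 2 (.cons 3 (.cons 1 .nil .nil) (.cons 1 (.cons 3 .nil .nil) .nil)) (.cons 1 (.cons 2 (.cons 3 .nil .nil) .nil) .nil))) .nil)))))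

def mt6 : MT := (.cons 4 (.cons 3 (.cons 2 (.cons 1 (.cons 0 .nil (.cons 5 .nil .nil)) (.cons 5 (.cons 0 .nil (.cons 1 .nil .nil)) (.cons 0 (.cons 1 .nil .nil) .nil))) (.cons 5 (.cons 1 (.cons 0 .nil (.cons 2 .nil .nil)) (.cons 2 (.cons 0 .nil (.cons 1 .nil .nil)) (.cons 0 (.cons 1 .nil .nil) .nil))) (.cons 1 (.cons 2 (.cons 0 .nil (.cons 5 .nil .nil)) .nil) (.cons 0 (.cons 2 (.cons 1 .nil .nil) (.cons 1 (.cons 2 .nil .nil) .nil)) .nil)))) (.cons 5 (.cons 2 (.cons 1 (.cons 0 .nil (.cons 3 .nil .nil)) (.cons 3 (.cons 0 .nil (.cons 1 .nil .nil)) (.cons 0 (.cons 1 .nil .nil) .nil))) (.cons 3 (.cons 1 (.cons 0 .nil (.cons 2 .nil .nil)) (.cons 2 (.cons 0 .nil (.cons 1 .nil .nil)) (.cons 0 (.cons 1 .nil .nil) .nil))) (.cons 1 (.cons 2 (.cons 0 .nil (.cons 3 .nil .nil)) .nil) (.cons 0 (.cons 2 (.cons 1 .nil .nil) (.cons 1 (.cons 2 .nil .nil) .nil)) .nil)))) (.cons 2 (.cons 3 (.cons 1 (.cons 0 .nil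 (.cons 5 .nil .nil)) (.cons 5 (.cons 0 .nil (.cons 1 .nil .nil)) (.cons 0 (.cons 1 .nil .nil) .nil))) .nil) (.cons 1 (.cons 3 (.cons 2 (.cons 0 .nil (.cons 5 .nil .nil)) .nil) (.cons 2 (.cons 3 (.cons 0 .nil (.cons 5 .nil .nil)) .nil) .nil)) (.cons 0 (.cons 3 (.cons 2 (.cons 1 .nil .nil) (.cons 1 (.cons 2 .nil .nil) .nil)) (.cons 2 (.cons 3 (.cons 1 .nil .nil) (.cons 1 (.cons 3 .nil .nil) .nil)) (.cons 1 (.cons 2 (.cons 3 .nil .nil) .nil) .nil))) .nil))))) (.cons 5 (.cons 3 (.cons 2 (.cons 1 (.cons 0 .nil (.cons 4 .nil .nil)) (.cons 4 (.cons 0 .nil (.cons 1 .nil .nil)) (.cons 0 (.cons 1 .nil .nil) .nil))) (.cons 4 (.cons 1 (.cons 0 .nil (.cons 2 .nil .nil)) (.cons 2 (.cons 0 .nil (.cons 1 .nil .nil)) (.cons 0 (.cons 1 .nil .nil) .nil))) (.cons 1 (.cons 2 (.cons 0 .nil (.cons 4 .nil .nil)) .nil) (.cons 0 (.cons 2 (.cons 1 .nil .nil) (.cons 1 (.cons 2 .nil .nil) .nil)) .nil)))) (.cons 4 (.cons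 2 (.cons 1 (.cons 0 .nil (.cons 3 .nil .nil)) (.cons 3 (.cons 0 .nil (.cons 1 .nil .nil)) (.cons 0 (.cons 1 .nil .nil) .nil))) (.cons 3 (.cons 1 (.cons 0 .nil (.cons 2 .nil .nil)) (.cons 2 (.cons 0 .nil (.cons 1 .nil .nil)) (.cons 0 (.cons 1 .nil .nil) .nil))) (.cons 1 (.cons 2 (.cons 0 .nil (.cons 3 .nil .nil)) .nil) (.cons 0 (.cons 2 (.cons 1 .nil .nil) (.cons 1 (.cons 2 .nil .nil) .nil)) .nil)))) (.cons 2 (.cons 3 (.cons 1 (.cons 0 .nil (.cons 4 .nil .nil)) (.cons 4 (.cons 0 .nil (.cons 1 .nil .nil)) (.cons 0 (.cons 1 .nil .nil) .nil))) .nil) (.cons 1 (.cons 3 (.cons 2 (.cons 0 .nil (.cons 4 .nil .nil)) .nil) (.cons 2 (.cons 3 (.cons 0 .nil (.cons 4 .nil .nil)) .nil) .nil)) (.cons 0 (.cons 3 (.cons 2 (.cons 1 .nil .nil) (.cons 1 (.cons 2 .nil .nil) .nil)) (.cons 2 (.cons 3 (.cons 1 .nil .nil) (.cons 1 (.cons 3 .nil .nil) .nil)) (.cons 1 (.cons 2 (.cons 3 .nil .nil) .nil) .nil))) .nil)))))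 (.cons 3 (.cons 4 (.cons 2 (.cons 1 (.cons 0 .nil (.cons 5 .nil .nil)) (.cons 5 (.cons 0 .nil (.cons 1 .nil .nil)) (.cons 0 (.cons 1 .nil .nil) .nil))) (.cons 5 (.cons 1 (.cons 0 .nil (.cons 2 .nil .nil)) (.cons 2 (.cons 0 .nil (.cons 1 .nil .nil)) (.cons 0 (.cons 1 .nil .nil) .nil))) (.cons 1 (.cons 2 (.cons 0 .nil (.cons 5 .nil .nil)) .nil) (.cons 0 (.cons 2 (.cons 1 .nil .nil) (.cons 1 (.cons 2 .nil .nil) .nil)) .nil)))) .nil) (.cons 2 (.cons 4 (.cons 3 (.cons 1 (.cons 0 .nil (.cons 5 .nil .nil)) (.cons 5 (.cons 0 .nil (.cons 1 .nil .nil)) (.cons 0 (.cons 1 .nil .nil) .nil))) .nil) (.cons 3 (.cons 4 (.cons 1 (.cons 0 .nil (.cons 5 .nil .nil)) (.cons 5 (.cons 0 .nil (.cons 1 .nil .nil)) (.cons 0 (.cons 1 .nil .nil) .nil))) .nil) .nil)) (.cons 1 (.cons 4 (.cons 3 (.cons 2 (.cons 0 .nil (.cons 5 .nil .nil)) .nil) (.cons 2 (.cons 3 (.cons 0 .nil (.cons 5 .nil .nil)) .nil) .nil)) (.cons 3 (.cons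 4 (.cons 2 (.cons 0 .nil (.cons 5 .nil .nil)) .nil) (.cons 2 (.cons 4 (.cons 0 .nil (.cons 5 .nil .nil)) .nil) .nil)) (.cons 2 (.cons 3 (.cons 4 (.cons 0 .nil (.cons 5 .nil .nil)) .nil) .nil) .nil))) (.cons 0 (.cons 4 (.cons 3 (.cons 2 (.cons 1 .nil .nil) (.cons 1 (.cons 2 .nil .nil) .nil)) (.cons 2 (.cons 3 (.cons 1 .nil .nil) (.cons 1 (.cons 3 .nil .nil) .nil)) (.cons 1 (.cons 2 (.cons 3 .nil .nil) .nil) .nil))) (.cons 3 (.cons 4 (.cons 2 (.cons 1 .nil .nil) (.cons 1 (.cons 2 .nil .nil) .nil)) (.cons 2 (.cons 4 (.cons 1 .nil .nil) (.cons 1 (.cons 4 .nil .nil) .nil)) (.cons 1 (.cons 2 (.cons 4 .nil .nil) .nil) .nil))) (.cons 2 (.cons 3 (.cons 4 (.cons 1 .nil .nil) (.cons 1 (.cons 4 .nil .nil) .nil)) .nil) (.cons 1 (.cons 3 (.cons 2 (.cons 4 .nil .nil) .nil) (.cons 2 (.cons 3 (.cons 4 .nil .nil) .nil) .nil)) .nil)))) .nil))))))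

def mt7 : MT := (.cons 5 (.cons 4 (.cons 3 (.cons 2 (.cons 1 (.cons 0 .nil (.cons 6 .nil .nil)) (.cons 6 (.cons 0 .nil (.cons 1 .nil .nil)) (.cons 0 (.cons 1 .nil .nil) .nil))) (.cons 6 (.cons 1 (.cons 0 .nil (.cons 2 .nil .nil)) (.cons 2 (.cons 0 .nil (.cons 1 .nil .nil)) (.cons 0 (.cons 1 .nil .nil) .nil))) (.cons 1 (.cons 2 (.cons 0 .nil (.cons 6 .nil .nil)) .nil) (.cons 0 (.cons 2 (.cons 1 .nil .nil) (.cons 1 (.cons 2 .nil .nil) .nil)) .nil)))) (.cons 6 (.cons 2 (.cons 1 (.cons 0 .nil (.cons 3 .nil .nil)) (.cons 3 (.cons 0 .nil (.cons 1 .nil .nil)) (.cons 0 (.cons 1 .nil .nil) .nil))) (.cons 3 (.cons 1 (.cons 0 .nil (.cons 2 .nil .nil)) (.cons 2 (.cons 0 .nil (.cons 1 .nil .nil)) (.cons 0 (.cons 1 .nil .nil) .nil))) (.cons 1 (.cons 2 (.cons 0 .nil (.cons 3 .nil .nil)) .nil) (.cons 0 (.cons 2 (.cons 1 .nil .nil) (.cons 1 (.cons 2 .nil .nil) .nil)) .nil)))) (.cons 2 (.cons 3 (.cons 1 (.cons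 0 .nil (.cons 6 .nil .nil)) (.cons 6 (.cons 0 .nil (.cons 1 .nil .nil)) (.cons 0 (.cons 1 .nil .nil) .nil))) .nil) (.cons 1 (.cons 3 (.cons 2 (.cons 0 .nil (.cons 6 .nil .nil)) .nil) (.cons 2 (.cons 3 (.cons 0 .nil (.cons 6 .nil .nil)) .nil) .nil)) (.cons 0 (.cons 3 (.cons 2 (.cons 1 .nil .nil) (.cons 1 (.cons 2 .nil .nil) .nil)) (.cons 2 (.cons 3 (.cons 1 .nil .nil) (.cons 1 (.cons 3 .nil .nil) .nil)) (.cons 1 (.cons 2 (.cons 3 .nil .nil) .nil) .nil))) .nil))))) (.cons 6 (.cons 3 (.cons 2 (.cons 1 (.cons 0 .nil (.cons 4 .nil .nil)) (.cons 4 (.cons 0 .nil (.cons 1 .nil .nil)) (.cons 0 (.cons 1 .nil .nil) .nil))) (.cons 4 (.cons 1 (.cons 0 .nil (.cons 2 .nil .nil)) (.cons 2 (.cons 0 .nil (.cons 1 .nil .nil)) (.cons 0 (.cons 1 .nil .nil) .nil))) (.cons 1 (.cons 2 (.cons 0 .nil (.cons 4 .nil .nil)) .nil) (.cons 0 (.cons 2 (.cons 1 .nil .nil) (.cons 1 (.cons 2 .nil .nil) .nil)) .nil)))) (.cons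 4 (.cons 2 (.cons 1 (.cons 0 .nil (.cons 3 .nil .nil)) (.cons 3 (.cons 0 .nil (.cons 1 .nil .nil)) (.cons 0 (.cons 1 .nil .nil) .nil))) (.cons 3 (.cons 1 (.cons 0 .nil (.cons 2 .nil .nil)) (.cons 2 (.cons 0 .nil (.cons 1 .nil .nil)) (.cons 0 (.cons 1 .nil .nil) .nil))) (.cons 1 (.cons 2 (.cons 0 .nil (.cons 3 .nil .nil)) .nil) (.cons 0 (.cons 2 (.cons 1 .nil .nil) (.cons 1 (.cons 2 .nil .nil) .nil)) .nil)))) (.cons 2 (.cons 3 (.cons 1 (.cons 0 .nil (.cons 4 .nil .nil)) (.cons 4 (.cons 0 .nil (.cons 1 .nil .nil)) (.cons 0 (.cons 1 .nil .nil) .nil))) .nil) (.cons 1 (.cons 3 (.cons 2 (.cons 0 .nil (.cons 4 .nil .nil)) .nil) (.cons 2 (.cons 3 (.cons 0 .nil (.cons 4 .nil .nil)) .nil) .nil)) (.cons 0 (.cons 3 (.cons 2 (.cons 1 .nil .nil) (.cons 1 (.cons 2 .nil .nil) .nil)) (.cons 2 (.cons 3 (.cons 1 .nil .nil) (.cons 1 (.cons 3 .nil .nil) .nil)) (.cons 1 (.cons 2 (.cons 3 .nil .nil) .nil) .nil)))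 .nil))))) (.cons 3 (.cons 4 (.cons 2 (.cons 1 (.cons 0 .nil (.cons 6 .nil .nil)) (.cons 6 (.cons 0 .nil (.cons 1 .nil .nil)) (.cons 0 (.cons 1 .nil .nil) .nil))) (.cons 6 (.cons 1 (.cons 0 .nil (.cons 2 .nil .nil)) (.cons 2 (.cons 0 .nil (.cons 1 .nil .nil)) (.cons 0 (.cons 1 .nil .nil) .nil))) (.cons 1 (.cons 2 (.cons 0 .nil (.cons 6 .nil .nil)) .nil) (.cons 0 (.cons 2 (.cons 1 .nil .nil) (.cons 1 (.cons 2 .nil .nil) .nil)) .nil)))) .nil) (.cons 2 (.cons 4 (.cons 3 (.cons 1 (.cons 0 .nil (.cons 6 .nil .nil)) (.cons 6 (.cons 0 .nil (.cons 1 .nil .nil)) (.cons 0 (.cons 1 .nil .nil) .nil))) .nil) (.cons 3 (.cons 4 (.cons 1 (.cons 0 .nil (.cons 6 .nil .nil)) (.cons 6 (.cons 0 .nil (.cons 1 .nil .nil)) (.cons 0 (.cons 1 .nil .nil) .nil))) .nil) .nil)) (.cons 1 (.cons 4 (.cons 3 (.cons 2 (.cons 0 .nil (.cons 6 .nil .nil)) .nil) (.cons 2 (.cons 3 (.cons 0 .nil (.cons 6 .nil .nil)) .nil) .nil))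 (.cons 3 (.cons 4 (.cons 2 (.cons 0 .nil (.cons 6 .nil .nil)) .nil) (.cons 2 (.cons 4 (.cons 0 .nil (.cons 6 .nil .nil)) .nil) .nil)) (.cons 2 (.cons 3 (.cons 4 (.cons 0 .nil (.cons 6 .nil .nil)) .nil) .nil) .nil))) (.cons 0 (.cons 4 (.cons 3 (.cons 2 (.cons 1 .nil .nil) (.cons 1 (.cons 2 .nil .nil) .nil)) (.cons 2 (.cons 3 (.cons 1 .nil .nil) (.cons 1 (.cons 3 .nil .nil) .nil)) (.cons 1 (.cons 2 (.cons 3 .nil .nil) .nil) .nil))) (.cons 3 (.cons 4 (.cons 2 (.cons 1 .nil .nil) (.cons 1 (.cons 2 .nil .nil) .nil)) (.cons 2 (.cons 4 (.cons 1 .nil .nil) (.cons 1 (.cons 4 .nil .nil) .nil)) (.cons 1 (.cons 2 (.cons 4 .nil .nil) .nil) .nil))) (.cons 2 (.cons 3 (.cons 4 (.cons 1 .nil .nil) (.cons 1 (.cons 4 .nil .nil) .nil)) .nil) (.cons 1 (.cons 3 (.cons 2 (.cons 4 .nil .nil) .nil) (.cons 2 (.cons 3 (.cons 4 .nil .nil) .nil) .nil)) .nil)))) .nil)))))) (.cons 6 (.cons 4 (.cons 3 (.cons 2 (.cons 1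 (.cons 0 .nil (.cons 5 .nil .nil)) (.cons 5 (.cons 0 .nil (.cons 1 .nil .nil)) (.cons 0 (.cons 1 .nil .nil) .nil))) (.cons 5 (.cons 1 (.cons 0 .nil (.cons 2 .nil .nil)) (.cons 2 (.cons 0 .nil (.cons 1 .nil .nil)) (.cons 0 (.cons 1 .nil .nil) .nil))) (.cons 1 (.cons 2 (.cons 0 .nil (.cons 5 .nil .nil)) .nil) (.cons 0 (.cons 2 (.cons 1 .nil .nil) (.cons 1 (.cons 2 .nil .nil) .nil)) .nil)))) (.cons 5 (.cons 2 (.cons 1 (.cons 0 .nil (.cons 3 .nil .nil)) (.cons 3 (.cons 0 .nil (.cons 1 .nil .nil)) (.cons 0 (.cons 1 .nil .nil) .nil))) (.cons 3 (.cons 1 (.cons 0 .nil (.cons 2 .nil .nil)) (.cons 2 (.cons 0 .nil (.cons 1 .nil .nil)) (.cons 0 (.cons 1 .nil .nil) .nil))) (.cons 1 (.cons 2 (.cons 0 .nil (.cons 3 .nil .nil)) .nil) (.cons 0 (.cons 2 (.cons 1 .nil .nil) (.cons 1 (.cons 2 .nil .nil) .nil)) .nil)))) (.cons 2 (.cons 3 (.cons 1 (.cons 0 .nil (.cons 5 .nil .nil)) (.cons 5 (.cons 0 .nil (.cons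 1 .nil .nil)) (.cons 0 (.cons 1 .nil .nil) .nil))) .nil) (.cons 1 (.cons 3 (.cons 2 (.cons 0 .nil (.cons 5 .nil .nil)) .nil) (.cons 2 (.cons 3 (.cons 0 .nil (.cons 5 .nil .nil)) .nil) .nil)) (.cons 0 (.cons 3 (.cons 2 (.cons 1 .nil .nil) (.cons 1 (.cons 2 .nil .nil) .nil)) (.cons 2 (.cons 3 (.cons 1 .nil .nil) (.cons 1 (.cons 3 .nil .nil) .nil)) (.cons 1 (.cons 2 (.cons 3 .nil .nil) .nil) .nil))) .nil))))) (.cons 5 (.cons 3 (.cons 2 (.cons 1 (.cons 0 .nil (.cons 4 .nil .nil)) (.cons 4 (.cons 0 .nil (.cons 1 .nil .nil)) (.cons 0 (.cons 1 .nil .nil) .nil))) (.cons 4 (.cons 1 (.cons 0 .nil (.cons 2 .nil .nil)) (.cons 2 (.cons 0 .nil (.cons 1 .nil .nil)) (.cons 0 (.cons 1 .nil .nil) .nil))) (.cons 1 (.cons 2 (.cons 0 .nil (.cons 4 .nil .nil)) .nil) (.cons 0 (.cons 2 (.cons 1 .nil .nil) (.cons 1 (.cons 2 .nil .nil) .nil)) .nil)))) (.cons 4 (.cons 2 (.cons 1 (.cons 0 .nil (.cons 3 .nil .nil)) (.cons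 3 (.cons 0 .nil (.cons 1 .nil .nil)) (.cons 0 (.cons 1 .nil .nil) .nil))) (.cons 3 (.cons 1 (.cons 0 .nil (.cons 2 .nil .nil)) (.cons 2 (.cons 0 .nil (.cons 1 .nil .nil)) (.cons 0 (.cons 1 .nil .nil) .nil))) (.cons 1 (.cons 2 (.cons 0 .nil (.cons 3 .nil .nil)) .nil) (.cons 0 (.cons 2 (.cons 1 .nil .nil) (.cons 1 (.cons 2 .nil .nil) .nil)) .nil)))) (.cons 2 (.cons 3 (.cons 1 (.cons 0 .nil (.cons 4 .nil .nil)) (.cons 4 (.cons 0 .nil (.cons 1 .nil .nil)) (.cons 0 (.cons 1 .nil .nil) .nil))) .nil) (.cons 1 (.cons 3 (.cons 2 (.cons 0 .nil (.cons 4 .nil .nil)) .nil) (.cons 2 (.cons 3 (.cons 0 .nil (.cons 4 .nil .nil)) .nil) .nil)) (.cons 0 (.cons 3 (.cons 2 (.cons 1 .nil .nil) (.cons 1 (.cons 2 .nil .nil) .nil)) (.cons 2 (.cons 3 (.cons 1 .nil .nil) (.cons 1 (.cons 3 .nil .nil) .nil)) (.cons 1 (.cons 2 (.cons 3 .nil .nil) .nil) .nil))) .nil))))) (.cons 3 (.cons 4 (.cons 2 (.cons 1 (.cons 0 .nil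 (.cons 5 .nil .nil)) (.cons 5 (.cons 0 .nil (.cons 1 .nil .nil)) (.cons 0 (.cons 1 .nil .nil) .nil))) (.cons 5 (.cons 1 (.cons 0 .nil (.cons 2 .nil .nil)) (.cons 2 (.cons 0 .nil (.cons 1 .nil .nil)) (.cons 0 (.cons 1 .nil .nil) .nil))) (.cons 1 (.cons 2 (.cons 0 .nil (.cons 5 .nil .nil)) .nil) (.cons 0 (.cons 2 (.cons 1 .nil .nil) (.cons 1 (.cons 2 .nil .nil) .nil)) .nil)))) .nil) (.cons 2 (.cons 4 (.cons 3 (.cons 1 (.cons 0 .nil (.cons 5 .nil .nil)) (.cons 5 (.cons 0 .nil (.cons 1 .nil .nil)) (.cons 0 (.cons 1 .nil .nil) .nil))) .nil) (.cons 3 (.cons 4 (.cons 1 (.cons 0 .nil (.cons 5 .nil .nil)) (.cons 5 (.cons 0 .nil (.cons 1 .nil .nil)) (.cons 0 (.cons 1 .nil .nil) .nil))) .nil) .nil)) (.cons 1 (.cons 4 (.cons 3 (.cons 2 (.cons 0 .nil (.cons 5 .nil .nil)) .nil) (.cons 2 (.cons 3 (.cons 0 .nil (.cons 5 .nil .nil)) .nil) .nil)) (.cons 3 (.cons 4 (.cons 2 (.cons 0 .nil (.cons 5 .nil .nil))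 .nil) (.cons 2 (.cons 4 (.cons 0 .nil (.cons 5 .nil .nil)) .nil) .nil)) (.cons 2 (.cons 3 (.cons 4 (.cons 0 .nil (.cons 5 .nil .nil)) .nil) .nil) .nil))) (.cons 0 (.cons 4 (.cons 3 (.cons 2 (.cons 1 .nil .nil) (.cons 1 (.cons 2 .nil .nil) .nil)) (.cons 2 (.cons 3 (.cons 1 .nil .nil) (.cons 1 (.cons 3 .nil .nil) .nil)) (.cons 1 (.cons 2 (.cons 3 .nil .nil) .nil) .nil))) (.cons 3 (.cons 4 (.cons 2 (.cons 1 .nil .nil) (.cons 1 (.cons 2 .nil .nil) .nil)) (.cons 2 (.cons 4 (.cons 1 .nil .nil) (.cons 1 (.cons 4 .nil .nil) .nil)) (.cons 1 (.cons 2 (.cons 4 .nil .nil) .nil) .nil))) (.cons 2 (.cons 3 (.cons 4 (.cons 1 .nil .nil) (.cons 1 (.cons 4 .nil .nil) .nil)) .nil) (.cons 1 (.cons 3 (.cons 2 (.cons 4 .nil .nil) .nil) (.cons 2 (.cons 3 (.cons 4 .nil .nil) .nil) .nil)) .nil)))) .nil)))))) (.cons 4 (.cons 5 (.cons 3 (.cons 2 (.cons 1 (.cons 0 .nil (.cons 6 .nil .nil)) (.cons 6 (.cons 0 .nil (.cons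 1 .nil .nil)) (.cons 0 (.cons 1 .nil .nil) .nil))) (.cons 6 (.cons 1 (.cons 0 .nil (.cons 2 .nil .nil)) (.cons 2 (.cons 0 .nil (.cons 1 .nil .nil)) (.cons 0 (.cons 1 .nil .nil) .nil))) (.cons 1 (.cons 2 (.cons 0 .nil (.cons 6 .nil .nil)) .nil) (.cons 0 (.cons 2 (.cons 1 .nil .nil) (.cons 1 (.cons 2 .nil .nil) .nil)) .nil)))) (.cons 6 (.cons 2 (.cons 1 (.cons 0 .nil (.cons 3 .nil .nil)) (.cons 3 (.cons 0 .nil (.cons 1 .nil .nil)) (.cons 0 (.cons 1 .nil .nil) .nil))) (.cons 3 (.cons 1 (.cons 0 .nil (.cons 2 .nil .nil)) (.cons 2 (.cons 0 .nil (.cons 1 .nil .nil)) (.cons 0 (.cons 1 .nil .nil) .nil))) (.cons 1 (.cons 2 (.cons 0 .nil (.cons 3 .nil .nil)) .nil) (.cons 0 (.cons 2 (.cons 1 .nil .nil) (.cons 1 (.cons 2 .nil .nil) .nil)) .nil)))) (.cons 2 (.cons 3 (.cons 1 (.cons 0 .nil (.cons 6 .nil .nil)) (.cons 6 (.cons 0 .nil (.cons 1 .nil .nil)) (.cons 0 (.cons 1 .nil .nil) .nil))) .nil) (.cons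 1 (.cons 3 (.cons 2 (.cons 0 .nil (.cons 6 .nil .nil)) .nil) (.cons 2 (.cons 3 (.cons 0 .nil (.cons 6 .nil .nil)) .nil) .nil)) (.cons 0 (.cons 3 (.cons 2 (.cons 1 .nil .nil) (.cons 1 (.cons 2 .nil .nil) .nil)) (.cons 2 (.cons 3 (.cons 1 .nil .nil) (.cons 1 (.cons 3 .nil .nil) .nil)) (.cons 1 (.cons 2 (.cons 3 .nil .nil) .nil) .nil))) .nil))))) .nil) (.cons 3 (.cons 5 (.cons 4 (.cons 2 (.cons 1 (.cons 0 .nil (.cons 6 .nil .nil)) (.cons 6 (.cons 0 .nil (.cons 1 .nil .nil)) (.cons 0 (.cons 1 .nil .nil) .nil))) (.cons 6 (.cons 1 (.cons 0 .nil (.cons 2 .nil .nil)) (.cons 2 (.cons 0 .nil (.cons 1 .nil .nil)) (.cons 0 (.cons 1 .nil .nil) .nil))) (.cons 1 (.cons 2 (.cons 0 .nil (.cons 6 .nil .nil)) .nil) (.cons 0 (.cons 2 (.cons 1 .nil .nil) (.cons 1 (.cons 2 .nil .nil) .nil)) .nil)))) .nil) (.cons 4 (.cons 5 (.cons 2 (.cons 1 (.cons 0 .nil (.cons 6 .nil .nil)) (.cons 6 (.cons 0 .nil (.cons 1 .nil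 .nil)) (.cons 0 (.cons 1 .nil .nil) .nil))) (.cons 6 (.cons 1 (.cons 0 .nil (.cons 2 .nil .nil)) (.cons 2 (.cons 0 .nil (.cons 1 .nil .nil)) (.cons 0 (.cons 1 .nil .nil) .nil))) (.cons 1 (.cons 2 (.cons 0 .nil (.cons 6 .nil .nil)) .nil) (.cons 0 (.cons 2 (.cons 1 .nil .nil) (.cons 1 (.cons 2 .nil .nil) .nil)) .nil)))) .nil) .nil)) (.cons 2 (.cons 5 (.cons 4 (.cons 3 (.cons 1 (.cons 0 .nil (.cons 6 .nil .nil)) (.cons 6 (.cons 0 .nil (.cons 1 .nil .nil)) (.cons 0 (.cons 1 .nil .nil) .nil))) .nil) (.cons 3 (.cons 4 (.cons 1 (.cons 0 .nil (.cons 6 .nil .nil)) (.cons 6 (.cons 0 .nil (.cons 1 .nil .nil)) (.cons 0 (.cons 1 .nil .nil) .nil))) .nil) .nil)) (.cons 4 (.cons 5 (.cons 3 (.cons 1 (.cons 0 .nil (.cons 6 .nil .nil)) (.cons 6 (.cons 0 .nil (.cons 1 .nil .nil)) (.cons 0 (.cons 1 .nil .nil) .nil))) .nil) (.cons 3 (.cons 5 (.cons 1 (.cons 0 .nil (.cons 6 .nil .nil)) (.cons 6 (.cons 0 .nil (.cons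 1 .nil .nil)) (.cons 0 (.cons 1 .nil .nil) .nil))) .nil) .nil)) (.cons 3 (.cons 4 (.cons 5 (.cons 1 (.cons 0 .nil (.cons 6 .nil .nil)) (.cons 6 (.cons 0 .nil (.cons 1 .nil .nil)) (.cons 0 (.cons 1 .nil .nil) .nil))) .nil) .nil) .nil))) (.cons 1 (.cons 5 (.cons 4 (.cons 3 (.cons 2 (.cons 0 .nil (.cons 6 .nil .nil)) .nil) (.cons 2 (.cons 3 (.cons 0 .nil (.cons 6 .nil .nil)) .nil) .nil)) (.cons 3 (.cons 4 (.cons 2 (.cons 0 .nil (.cons 6 .nil .nil)) .nil) (.cons 2 (.cons 4 (.cons 0 .nil (.cons 6 .nil .nil)) .nil) .nil)) (.cons 2 (.cons 3 (.cons 4 (.cons 0 .nil (.cons 6 .nil .nil)) .nil) .nil) .nil))) (.cons 4 (.cons 5 (.cons 3 (.cons 2 (.cons 0 .nil (.cons 6 .nil .nil)) .nil) (.cons 2 (.cons 3 (.cons 0 .nil (.cons 6 .nil .nil)) .nil) .nil)) (.cons 3 (.cons 5 (.cons 2 (.cons 0 .nil (.cons 6 .nil .nil)) .nil) (.cons 2 (.cons 5 (.cons 0 .nil (.cons 6 .nil .nil)) .nil) .nil)) (.cons 2 (.cons 3 (.cons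 5 (.cons 0 .nil (.cons 6 .nil .nil)) .nil) .nil) .nil))) (.cons 3 (.cons 4 (.cons 5 (.cons 2 (.cons 0 .nil (.cons 6 .nil .nil)) .nil) (.cons 2 (.cons 5 (.cons 0 .nil (.cons 6 .nil .nil)) .nil) .nil)) .nil) (.cons 2 (.cons 4 (.cons 3 (.cons 5 (.cons 0 .nil (.cons 6 .nil .nil)) .nil) .nil) (.cons 3 (.cons 4 (.cons 5 (.cons 0 .nil (.cons 6 .nil .nil)) .nil) .nil) .nil)) .nil)))) (.cons 0 (.cons 5 (.cons 4 (.cons 3 (.cons 2 (.cons 1 .nil .nil) (.cons 1 (.cons 2 .nil .nil) .nil)) (.cons 2 (.cons 3 (.cons 1 .nil .nil) (.cons 1 (.cons 3 .nil .nil) .nil)) (.cons 1 (.cons 2 (.cons 3 .nil .nil) .nil) .nil))) (.cons 3 (.cons 4 (.cons 2 (.cons 1 .nil .nil) (.cons 1 (.cons 2 .nil .nil) .nil)) (.cons 2 (.cons 4 (.cons 1 .nil .nil) (.cons 1 (.cons 4 .nil .nil) .nil)) (.cons 1 (.cons 2 (.cons 4 .nil .nil) .nil) .nil))) (.cons 2 (.cons 3 (.cons 4 (.cons 1 .nil .nil) (.cons 1 (.cons 4 .nil .nil) .nil)) .nil)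 (.cons 1 (.cons 3 (.cons 2 (.cons 4 .nil .nil) .nil) (.cons 2 (.cons 3 (.cons 4 .nil .nil) .nil) .nil)) .nil)))) (.cons 4 (.cons 5 (.cons 3 (.cons 2 (.cons 1 .nil .nil) (.cons 1 (.cons 2 .nil .nil) .nil)) (.cons 2 (.cons 3 (.cons 1 .nil .nil) (.cons 1 (.cons 3 .nil .nil) .nil)) (.cons 1 (.cons 2 (.cons 3 .nil .nil) .nil) .nil))) (.cons 3 (.cons 5 (.cons 2 (.cons 1 .nil .nil) (.cons 1 (.cons 2 .nil .nil) .nil)) (.cons 2 (.cons 5 (.cons 1 .nil .nil) (.cons 1 (.cons 5 .nil .nil) .nil)) (.cons 1 (.cons 2 (.cons 5 .nil .nil) .nil) .nil))) (.cons 2 (.cons 3 (.cons 5 (.cons 1 .nil .nil) (.cons 1 (.cons 5 .nil .nil) .nil)) .nil) (.cons 1 (.cons 3 (.cons 2 (.cons 5 .nil .nil) .nil) (.cons 2 (.cons 3 (.cons 5 .nil .nil) .nil) .nil)) .nil)))) (.cons 3 (.cons 4 (.cons 5 (.cons 2 (.cons 1 .nil .nil) (.cons 1 (.cons 2 .nil .nil) .nil)) (.cons 2 (.cons 5 (.cons 1 .nil .nil) (.cons 1 (.cons 5 .nil .nil)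 .nil)) (.cons 1 (.cons 2 (.cons 5 .nil .nil) .nil) .nil))) .nil) (.cons 2 (.cons 4 (.cons 3 (.cons 5 (.cons 1 .nil .nil) (.cons 1 (.cons 5 .nil .nil) .nil)) .nil) (.cons 3 (.cons 4 (.cons 5 (.cons 1 .nil .nil) (.cons 1 (.cons 5 .nil .nil) .nil)) .nil) .nil)) (.cons 1 (.cons 4 (.cons 3 (.cons 2 (.cons 5 .nil .nil) .nil) (.cons 2 (.cons 3 (.cons 5 .nil .nil) .nil) .nil)) (.cons 3 (.cons 4 (.cons 2 (.cons 5 .nil .nil) .nil) (.cons 2 (.cons 4 (.cons 5 .nil .nil) .nil) .nil)) (.cons 2 (.cons 3 (.cons 4 (.cons 5 .nil .nil) .nil) .nil) .nil))) .nil))))) .nil)))))))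


noncomputable def mts : {l : List MT // [mt1, mt2, mt3, mt4, mt5, mt6, mt7] = l} :=
  ⟨_, by conv => lhs; reduce⟩

theorem mts_cov : ((List.range 7).all fun i => cov (i + 1) i [] (some (nth MT.nil mts.1 i))) = true := by
  decide +kernel

end Pool.Agent.MP_8c1b0d_co.CT4.Chk

/-! The unavoidability checker: definitions only. A part is a mask with five bits for each of the
`5 D` positions; every rule at every spoke owns a field of 64 bits. -/

namespace Pool.Agent.MP_8c1b0d_co.CT4.UChk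

open Chk

/-- a rule at spoke zero: mask, weight, and whether it counts when it fails -/
structure Rl where
  M : ℕ
  w : ℕ
  neg : Bool

/-- bit `n` of `x` -/
def bit (x n : ℕ) : ℕ := Nat.land (Nat.shiftRight x n) 1

/-- pack one field of 64 bits for each rule -/
noncomputable def pack (f : Rl → ℕ) (l : List Rl) : ℕ :=
  List.rec 0 (fun a _ s => Nat.lor (f a) (Nat.shiftLeft s 64)) l

/-- the field of a rule when position `p` has the value `v` -/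
def fld (p v : ℕ) (a : Rl) : ℕ :=
  cond a.neg (Nat.xor (ones 63) (Nat.shiftLeft (bit a.M (Nat.add (Nat.mul 5 p) v)) p))
    (bit a.M (Nat.add (Nat.mul 5 p) v))

/-- the start value of the field of a rule -/
noncomputable def ini (D : ℕ) (a : Rl) : ℕ :=
  cond a.neg (fold (fun p s => cond (Nat.beq (Nat.land (Nat.shiftRight a.M (Nat.mul 5 p)) 31) 31) s
    (Nat.lor s (Nat.shiftLeft 1 p))) 0 (Nat.mul 5 D)) 1

/-- the blocks `g b`, `b < n`, at distance `s` -/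
noncomputable def blocks (s n : ℕ) (g : ℕ → ℕ) : ℕ :=
  fold (fun b x => Nat.lor x (Nat.shiftLeft (g b) (Nat.mul b s))) 0 n

/-- the fields of all rules for each position `5 * ((D - b) % D) + j` and each value `v` -/
noncomputable def rows (D : ℕ) (l : List Rl) : List (List (List ℕ)) :=
  (List.range 5).map fun j => (List.range 5).map fun v => (List.range D).map fun b =>
    frc (Nat.add (Nat.mul 5 (Nat.mod (Nat.sub D b) D)) j) fun p => Nat.lor 0 (pack (fld p v) l)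

/-- binary trees of chunks -/
inductive BT where
  | leaf (x : ℕ) : BT
  | node (l r : BT) : BT

noncomputable def BT.get (t : BT) : ℕ → ℕ :=
  BT.rec (fun x _ => x) (fun _ _ ihl ihr n =>
    cond (Nat.beq (Nat.land n 1) 0) (ihl (Nat.shiftRight n 1)) (ihr (Nat.shiftRight n 1))) t

/-- the data for one hub size -/
structure Ctx where
  D : ℕ
  cap : ℕ
  sz : ℕ
  R : List (List (List ℕ))
  y0 : ℕ
  w0 : ℕ
  tb : BT

variable (X : Ctx)

/-- entry `n` of the table of lemmas -/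
noncomputable def ent (n : ℕ) : ℕ :=
  Nat.land (Nat.shiftRight (X.tb.get (Nat.shiftRight n 4))
    (Nat.mul (Nat.land n 15) (Nat.add (Nat.mul 25 X.D) 64))) (ones (Nat.add (Nat.mul 25 X.D) 64))

/-- the bound of entry `n` -/
noncomputable def bd (n : ℕ) : ℕ := Nat.land (ent X n) (ones 48)

/-- the spokes that entry `n` does not speak about -/
noncomputable def co (n : ℕ) : ℕ := Nat.land (Nat.shiftRight (ent X n) 48) (ones X.D)

/-- the forbidden bits of entry `n` -/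
noncomputable def fb (n : ℕ) : ℕ := Nat.shiftRight (ent X n) 64

/-- cyclic shift of a number with `w` bits, with some further bits above -/
def turn (x w t : ℕ) : ℕ := Nat.shiftRight (Nat.lor x (Nat.shiftLeft x w)) t

/-- the code `n` names the entry `n / 16` turned by `n % 16 % D` -/
def tn (n : ℕ) : ℕ := Nat.mod (Nat.land n 15) X.D

noncomputable def fbT (n : ℕ) : ℕ :=
  frc (Nat.shiftRight n 4) fun e => turn (fb X e) (Nat.mul 25 X.D) (Nat.mul 25 (tn X n))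

noncomputable def coT (n : ℕ) : ℕ := frc (Nat.shiftRight n 4) fun e => turn (co X e) X.D (tn X n)

noncomputable def bdT (n : ℕ) : ℕ := frc (Nat.shiftRight n 4) fun e => Nat.lor 0 (bd X e)

/-- as `fbT` if the entry bounds the whole charge, everything otherwise -/
noncomputable def fbR (n : ℕ) : ℕ :=
  cond (Nat.beq (coT X n) 0 && Nat.ble (bdT X n) X.cap) (fbT X n) (ones (Nat.mul 25 X.D))

/-- two turns of fields for the position `j < 5` at spoke zero with value `v` -/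
noncomputable def uu (j v : ℕ) : ℕ :=
  dbl (comb X.sz (nth [] (nth [] X.R j) v)) (Nat.mul X.sz X.D) 1

/-- union of the rows for the values in `m` -/
noncomputable def um (j m : ℕ) : ℕ :=
  fold (fun v s => cond (Nat.beq (bit m v) 1) (orZ s (uu X j v)) s) 0 5

/-- the fields allowed when position `n / 32` has the domain `n % 32` -/
noncomputable def tt (n : ℕ) : ℕ :=
  frc (Nat.mod (Nat.shiftRight n 5) 5) fun j => frc (Nat.land n 31) fun m =>
    Nat.shiftRight (um X j m) (Nat.mul (Nat.sub X.D (Nat.div (Nat.shiftRight n 5) 5)) X.sz)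

/-- the code `n` holds a position `n / 1024` and the domains `n / 32 % 32`, `n % 32` -/
noncomputable def ty₁ (n : ℕ) : ℕ := frc (Nat.shiftRight n 5) fun m => Nat.lor 0 (tt X m)

noncomputable def ty₂ (n : ℕ) : ℕ :=
  frc (Nat.lor (Nat.shiftLeft (Nat.shiftRight n 10) 5) (Nat.land n 31)) fun m => Nat.lor 0 (tt X m)

/-- the values outside `m` at the position of the code -/
def out (n m : ℕ) : ℕ := Nat.shiftLeft (Nat.xor 31 (Nat.land m 31)) (Nat.mul 5 (Nat.shiftRight n 10))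

def ta₁ (n : ℕ) : ℕ := Nat.xor (ones (Nat.mul 25 X.D)) (out n (Nat.shiftRight n 5))

def ta₂ (n : ℕ) : ℕ := Nat.xor (ones (Nat.mul 25 X.D)) (out n n)

/-- the values that a split does not cover; everything if there is no such position -/
def cv (n : ℕ) : ℕ := cond (Nat.ble (Nat.mul 5 X.D) (Nat.shiftRight n 10)) (ones (Nat.mul 25 X.D))
  (out n (Nat.lor n (Nat.shiftRight n 5)))

/-- the block `x` at the spokes in `S` -/
noncomputable def atS (x S : ℕ) : ℕ := blocks X.sz X.D fun b => Nat.mul x (bit S b)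

/-- the number one in each field -/
noncomputable def unit : ℕ := Nat.div (ones (Nat.mul X.sz X.D)) (ones 64)

noncomputable def hi : ℕ := Nat.shiftLeft (unit X) 63

noncomputable def m1 (S : ℕ) : ℕ :=
  Nat.land (Nat.sub (hi X) (unit X)) (ones (Nat.mul X.sz (Nat.succ (Nat.log2 S))))

noncomputable def ev₃ (S Z : ℕ) : ℕ :=
  Nat.mod (Nat.land (Nat.sub Z (Nat.shiftRight Z 63)) (atS X X.w0 S)) 18446744073709551615

/-- the total weight of the nonzero fields at the spokes in `S` -/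
noncomputable def ev (Y S : ℕ) : ℕ := ev₃ X S (Nat.land (Nat.add Y (m1 X S)) (hi X))

/-- the type of the recursive call: part, fields, spokes, used bound, stream -/
abbrev Fn : Type := ℕ → ℕ → ℕ → ℕ → ℕ → ℕ

noncomputable def nxt (g : ℕ → ℕ) (c : ℕ) : ℕ := Bool.rec (g c) 0 (Nat.beq c 0)

noncomputable def spl (f : Fn) (A Y S U c n : ℕ) : ℕ :=
  Bool.rec 0 (nxt (f (Nat.land A (ta₂ X n)) (Nat.land Y (ty₂ X n)) S U)
    (f (Nat.land A (ta₁ X n)) (Nat.land Y (ty₁ X n)) S U (Nat.shiftRight c 18)))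
    (Nat.beq (Nat.land A (cv X n)) 0)

noncomputable def red (lim A c n : ℕ) : ℕ :=
  Bool.rec (Bool.rec 0 (Nat.shiftRight c 24) (Nat.beq (Nat.land A (fbR X n)) 0)) 0 (Nat.ble lim n)

noncomputable def cit (lim : ℕ) (f : Fn) (A Y S U c n : ℕ) : ℕ :=
  Bool.rec (Bool.rec 0
    (f A Y (Nat.land S (coT X n)) (Nat.add U (bdT X n)) (Nat.shiftRight c 24))
    (Nat.beq (Nat.land A (fbT X n)) 0)) 0 (Nat.ble lim n)

noncomputable def evl (B Y U c S : ℕ) : ℕ :=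
  Bool.rec 0 (Nat.shiftRight c 2) (Nat.ble (Nat.add U (ev X Y S)) B)

noncomputable def s₀ (_lim _B : ℕ) (f : Fn) (A Y S U c : ℕ) : ℕ :=
  frc (Nat.land (Nat.shiftRight c 2) 65535) (spl X f A Y S U c)

noncomputable def s₁ (lim _B : ℕ) (_f : Fn) (A _Y _S _U c : ℕ) : ℕ :=
  frc (Nat.land (Nat.shiftRight c 2) 4194303) (red X lim A c)

noncomputable def s₂ (lim _B : ℕ) (f : Fn) (A Y S U c : ℕ) : ℕ :=
  frc (Nat.land (Nat.shiftRight c 2) 4194303) (cit X lim f A Y S U c)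

noncomputable def s₃ (_lim B : ℕ) (_f : Fn) (_A Y S U c : ℕ) : ℕ :=
  Nat.rec (Bool.rec 0 (Nat.shiftRight c 2) (Nat.ble U B)) (fun n _ => evl X B Y U c (Nat.succ n)) S

noncomputable def step (X : Ctx) (lim B : ℕ) (f : Fn) (A Y S U c : ℕ) : ℕ :=
  (Nat.rec s₀ (fun t _ => Nat.rec s₁ (fun t _ => Nat.rec s₂ (fun _ _ => s₃) t) t) (Nat.land c 3) :
    Ctx → ℕ → ℕ → Fn → Fn) X lim B f A Y S U c

/-- reads a proof from the stream `c` and returns the rest of the stream, or zero -/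
noncomputable def chk (lim B fuel : ℕ) : Fn :=
  Nat.rec (fun _ _ _ _ _ => 0) (fun _ f => step X lim B f) fuel

noncomputable def yand (Y n : ℕ) : ℕ := Nat.land Y (tt X n)

/-- the fields at the start -/
noncomputable def yini (A S : ℕ) : ℕ :=
  fold (fun p Y => cond (Nat.beq (Nat.land (Nat.shiftRight A (Nat.mul 5 p)) 31) 31) Y
    (frc (Nat.add (Nat.shiftLeft p 5) (Nat.land (Nat.shiftRight A (Nat.mul 5 p)) 31)) (yand X Y)))
    (atS X X.y0 S) (Nat.mul 5 X.D)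

noncomputable def one₂ (n c A S : ℕ) : ℕ :=
  chk X (Nat.mul 16 n) (bd X n) 200 A (yini X A S) S 0 c

/-- the stream `c` proves entry `n` -/
noncomputable def one (c n : ℕ) : ℕ :=
  frc (Nat.xor (ones X.D) (co X n)) (one₂ X n c (Nat.xor (ones (Nat.mul 25 X.D)) (fb X n)))

/-- the streams of `l` prove the entries `n`, `n + 1`, … -/
noncomputable def many (l : List ℕ) : ℕ → Bool :=
  List.rec (fun _ => true)
    (fun c _ ih n => Bool.rec (ih (Nat.succ n)) false (Nat.beq (frc n (one X c)) 0)) l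

end Pool.Agent.MP_8c1b0d_co.CT4.UChk
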