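import Pool.Agent.MP_8c1b0d_co.CT4.Base

attribute [-instance] RKHS.instFunLike DistribMulActionSemiHomClass.toAddMonoidHomClass
  SemilinearMapClass.toAddHomClass TestFunctionClass.toDFunLike IdemSemiring.toSemiring
  LinearOrder.toDecidableEq Finset.decidableDforallFinset ContDiffMapSupportedInClass.toDFunLike
  MonoidWithZeroHomClass.toZeroHomClass MonTypeEquivalenceMon.monMonoid
  NonUnitalNonAssocSemiring.toDistrib decidableEq_of_subsingleton Multiset.decidableDforallMultiset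
  CommSemiring.toSemiring Option.decidableForallMem littleWedderburn
  Vector.instDecidableForallForallMemOfDecidablePred RCLike.charZero_rclike
  NonUnitalNonAssocSemiring.toMulZeroClass Array.instDecidableForallForallMemOfDecidablePred
  Ring.toSemiring Int.instLawfulBEq NonUnitalRingHomClass.toAddMonoidHomClass

set_option linter.unusedSectionVars false
set_option linter.unusedVariables false
set_option linter.unusedSimpArgs false

/-! Two involutions; chains inside a ring. -/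

namespace Pool.Agent.MP_8c1b0d_co.CT4

open Equiv Finset Function

/-- TASK Kempe1. With `p = s * e`, `x k = p ^ k x` and `m` the period: `s (x k) = x (-k)` and
`e (x k) = x (-k-1)`, so `m` is even, the orbit of `x` under `p` is closed under `e` and `s`, and
its fixed points of `s` are `x 0` and `x (m / 2)`. -/
theorem dihedral {X : Type} [Finite X] (e s : Perm X) (ee : ∀ x, e (e x) = x)
    (ss : ∀ x, s (s x) = x) (x : X) (hx : s x = x)
    (e_ne : ∀ y, (s * e).SameCycle x y → e y ≠ y) :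
    (∀ y, (s * e).SameCycle x y → (s * e).SameCycle x (e y) ∧ (s * e).SameCycle x (s y)) ∧
    ∃ y, y ≠ x ∧ s y = y ∧ (s * e).SameCycle x y ∧
      ∀ z, s z = z → (s * e).SameCycle x z → z = x ∨ z = y := by
  set p := s * e with hp
  have hs : ∀ (k : ℤ) (y : X), s ((p ^ k) y) = (p ^ (-k)) (s y) := by
    have h1 : s * s = 1 := Equiv.ext ss
    have h2 : e * e = 1 := Equiv.ext ee
    have h3 : SemiconjBy s p p⁻¹ := by
      rw [SemiconjBy, eq_inv_mul_iff_mul_eq, hp, ← mul_assoc s s e, h1, one_mul, mul_assoc, h2, mul_one]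
    intro k y
    have h4 := (h3.zpow_right k).eq
    rw [inv_zpow', Equiv.ext_iff] at h4
    exact h4 y
  have hsx : ∀ k : ℤ, s ((p ^ k) x) = (p ^ (-k)) x := fun k => by rw [hs, hx]
  have hex : ∀ k : ℤ, e ((p ^ k) x) = (p ^ (-(1 + k))) x := fun k => by
    rw [← hsx, zpow_one_add, Perm.mul_apply, hp, Perm.mul_apply, ss]
  obtain ⟨m, hm0, hm⟩ : ∃ m : ℤ, 0 < m ∧ ∀ i j : ℤ, (p ^ i) x = (p ^ j) x ↔ m ∣ i - j := by
    refine ⟨MulAction.period p x, ?_, fun i j => ?_⟩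
    · exact_mod_cast MulAction.period_pos_of_orderOf_pos (orderOf_pos p) x
    · rw [← MulAction.zpow_smul_eq_iff_period_dvd, Perm.smul_def, ← (p ^ j).injective.eq_iff (b := x),
        ← Perm.mul_apply, ← zpow_add, add_sub_cancel]
  refine ⟨?_, ?_⟩
  · rintro y ⟨k, rfl⟩
    exact ⟨⟨_, (hex k).symm⟩, ⟨_, (hsx k).symm⟩⟩
  obtain ⟨t, rfl | rfl⟩ := Int.even_or_odd' m
  · refine ⟨(p ^ t) x, fun h => ?_, ?_, ⟨t, rfl⟩, ?_⟩
    · have h1 := (hm t 0).1 (by simpa using h)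
      have h2 := Int.le_of_dvd (by omega) h1
      omega
    · rw [hsx, hm]
      exact ⟨-1, by ring⟩
    · rintro z hz ⟨k, rfl⟩
      rw [hsx, hm] at hz
      obtain ⟨q, hq⟩ := hz
      obtain ⟨u, rfl | rfl⟩ := Int.even_or_odd' q
      · refine Or.inl (((hm k 0).2 ⟨-u, ?_⟩).trans (by simp))
        linarith only [hq]
      · refine Or.inr ((hm k t).2 ⟨-u - 1, ?_⟩)
        linarith only [hq]
  · refine absurd ?_ (e_ne _ ⟨t, rfl⟩)
    rw [hex, hm]
    exact ⟨-1, by ring⟩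

theorem Kempe1_vsum {M : Type} [Add M] {D : Type} {G : Map D} (hc : G.Cubic) (c : D → M) (d : D) :
    G.vsum c d = c d + c (G.n d) + c (G.n (G.n d)) := by
  have h : G.n (G.n d) ≠ d := fun h => G.n_ne d (by
    have h1 := hc d
    rwa [h] at h1)
  rw [Map.vsum, if_neg h]

open scoped Classical in
theorem Kempe1_chain {D : Type} {G : Map D} {A : Set D} {r : ℕ} {l : ℕ → D} (hc : G.Cubic)
    (hR : G.Ring A r l) {x y : D} (hx : x ∈ A)
    (h : Relation.ReflTransGen (fun x y => y = G.n x ∨ (y = G.e x ∧ ∀ j < r, l j ≠ x)) x y) :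
    y ∈ A ∧ ∃ c : D → ZMod 2, (∀ j < r, c (l j) = 0) ∧ (∀ d, c (G.e d) = c d) ∧
      ∀ d, G.vsum c d = G.vsum (fun z => if z = x then 1 else 0) d +
        G.vsum (fun z => if z = y then 1 else 0) d := by
  have h2 : ∀ u : ZMod 2, u + u = 0 := by decide
  induction h with
  | refl => exact ⟨hx, 0, fun _ _ => rfl, fun _ => rfl, fun d => by rw [h2, Kempe1_vsum hc]; simp⟩
  | @tail y z _ hz ih =>
    obtain ⟨hy, c, h0, he, hv⟩ := ih
    rcases hz with rfl | ⟨rfl, hl⟩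
    · refine ⟨(hR.closed y).2 hy, c, h0, he, fun d => ?_⟩
      have e1 : d = G.n y ↔ G.n (G.n d) = y :=
        ⟨fun h => by rw [h, hc], fun h => by rw [← h, hc]⟩
      rw [hv, add_right_inj, Kempe1_vsum hc, Kempe1_vsum hc]
      simp only [G.n.injective.eq_iff, e1]
      ring
    · obtain ⟨h1, h3⟩ := hR.inner y hy hl
      refine ⟨h1, fun z => c z + ((if z = y then 1 else 0) + if z = G.e y then 1 else 0),
        fun j hj => ?_, fun d => ?_, fun d => ?_⟩
      · simp only [h0 j hj, if_neg (hl j hj), if_neg (h3 j hj), add_zero]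
      · have e1 : G.e d = y ↔ d = G.e y :=
          ⟨fun h => by rw [← h, G.ee], fun h => by rw [h, G.ee]⟩
        simp only [he, G.e.injective.eq_iff, e1]
        ring
      · have h4 := hv d
        have h5 := h2 (G.vsum (fun z => if z = y then 1 else 0) d)
        simp only [Kempe1_vsum hc] at h4 h5 ⊢
        linear_combination h4 + h5

theorem Kempe1_out {D : Type} {G : Map D} {A : Set D} {r : ℕ} {l : ℕ → D} (hR : G.Ring A r l) {d : D}
    (h : d ∉ A ∨ ∃ j < r, l j = d) : G.e d ∉ A ∨ ∃ j < r, l j = G.e d := by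
  by_contra h1
  push Not at h1
  obtain ⟨h2, h3⟩ := hR.inner _ h1.1 h1.2
  rw [G.ee] at h2 h3
  rcases h with h | ⟨j, hj, h⟩
  · exact h h2
  · exact h3 j hj h

namespace Map

variable {D : Type} [Fintype D] {G : Map D} {A : Set D} {r : ℕ} {l : ℕ → D}

omit [Fintype D] in
/-- leg values of even sum extend to a flow inside `A`. For two legs use induction on `conn`: a
function vanishing on the legs, `e`-invariant on inner darts, whose `vsum` is the indicator of the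
vertex of the start plus the indicator of the vertex of the end; then add up
`∑ j, a j • (chain from l 0 to l j)`. -/
theorem inner_flow (hc : G.Cubic) (hR : G.Ring A r l) (a : ℕ → ZMod 2)
    (ha : ∑ j ∈ range r, a j = 0) :
    ∃ c : D → ZMod 2, (∀ d ∈ A, (∀ j < r, l j ≠ d) → c (G.e d) = c d) ∧
      (∀ d ∈ A, G.vsum c d = 0) ∧ ∀ j < r, c (l j) = a j := by
  classical
  have h2 : ∀ u : ZMod 2, u + u = 0 := by decide
  have h1 : ∀ j, ∃ c : D → ZMod 2, j < r → (∀ j < r, c (l j) = 0) ∧ (∀ d, c (G.e d) = c d) ∧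
      ∀ d, G.vsum c d = G.vsum (fun z => if z = l 0 then 1 else 0) d +
        G.vsum (fun z => if z = l j then 1 else 0) d := fun j => by
    by_cases hj : j < r
    · have h0 : 0 < r := by omega
      obtain ⟨-, c, h⟩ := Kempe1_chain hc hR (hR.mem 0 h0) (hR.conn 0 h0 j hj)
      exact ⟨c, fun _ => h⟩
    · exact ⟨0, fun h => absurd h hj⟩
  choose c h using h1
  refine ⟨fun d => ∑ j ∈ range r, a j * (c j d + if d = l j then 1 else 0), fun d hd hl => ?_,
    fun d _ => ?_, fun i hi => ?_⟩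
  · refine sum_congr rfl fun j hj => ?_
    rw [mem_range] at hj
    rw [(h j hj).2.1, if_neg (hl j hj).symm, if_neg ((hR.inner d hd hl).2 j hj).symm]
  · have h6 : ∑ j ∈ range r, a j * G.vsum (fun z => if z = l 0 then (1 : ZMod 2) else 0) d = 0 := by
      rw [← sum_mul, ha, zero_mul]
    rw [Kempe1_vsum hc, ← sum_add_distrib, ← sum_add_distrib]
    refine Eq.trans (sum_congr rfl fun j hj => ?_) h6
    have h4 := (h j (mem_range.1 hj)).2.2 d
    have h5 := h2 (G.vsum (fun z => if z = l j then 1 else 0) d)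
    simp only [Kempe1_vsum hc] at h4 h5 ⊢
    linear_combination a j * h4 + a j * h5
  · simp only
    rw [sum_eq_single i]
    · rw [(h i hi).1 i hi, if_pos rfl, zero_add, mul_one]
    · intro j hj hji
      rw [mem_range] at hj
      rw [(h j hj).1 i hi, if_neg fun h => hji (hR.inj i hi j hj h).symm, zero_add, mul_zero]
    · exact fun h => absurd (mem_range.2 hi) h

/-- the leg values of a flow outside `A` add up to zero (sum `c` over the darts outside `A`) -/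
theorem sum_legs {M : Type} [AddCommGroup M] (h2 : ∀ x : M, x + x = 0) (hc : G.Cubic)
    (hR : G.Ring A r l) (c : D → M)
    (he : ∀ d, (d ∉ A ∨ ∃ j < r, l j = d) → c (G.e d) = c d)
    (hv : ∀ d ∉ A, G.vsum c d = 0) : ∑ j ∈ range r, c (l j) = 0 := by
  classical
  have s1 : ∑ d ∈ univ.filter (fun d => d ∉ A ∨ ∃ j < r, l j = d), c d = 0 := by
    refine sum_involution (fun d _ => G.e d) (fun d hd => ?_) (fun d _ _ => G.e_ne d)
      (fun d hd => ?_) (fun d _ => G.ee d)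
    · rw [he d (mem_filter.1 hd).2, h2]
    · exact mem_filter.2 ⟨mem_univ _, Kempe1_out hR (mem_filter.1 hd).2⟩
  have s2 : ∀ g : D → M, ∑ d ∈ univ.filter (fun d => d ∉ A), g (G.n d) =
      ∑ d ∈ univ.filter (fun d => d ∉ A), g d := fun g =>
    sum_equiv G.n (fun d => by simp only [mem_filter, mem_univ, true_and, hR.closed d]) fun _ _ => rfl
  have s3 : ∑ d ∈ univ.filter (fun d => d ∉ A), c d = 0 := by
    have h3 : ∑ d ∈ univ.filter (fun d => d ∉ A), G.vsum c d = 0 :=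
      sum_eq_zero fun d hd => hv d (mem_filter.1 hd).2
    simp only [Kempe1_vsum hc, sum_add_distrib] at h3
    rwa [s2 fun d => c (G.n d), s2 c, h2, zero_add] at h3
  have s4 : univ.filter (fun d => d ∉ A ∨ ∃ j < r, l j = d) =
      univ.filter (fun d => d ∉ A) ∪ (range r).image l := by
    ext d
    simp only [mem_filter, mem_univ, true_and, mem_union, mem_image, mem_range]
  rw [s4, sum_union, s3, zero_add, sum_image] at s1
  · exact s1
  · exact fun i hi j hj h => hR.inj i (mem_range.1 hi) j (mem_range.1 hj) h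
  · rw [disjoint_left]
    intro d hd hd'
    obtain ⟨j, hj, rfl⟩ := mem_image.1 hd'
    exact (mem_filter.1 hd).2 (hR.mem j (mem_range.1 hj))

/-- a flow outside `A` is the coboundary of a face function, which jumps by `c (l j)` at leg `j` -/
theorem outer_planar (hc : G.Cubic) (hp : G.Planar) (hR : G.Ring A r l) (c : D → ZMod 2)
    (he : ∀ d, (d ∉ A ∨ ∃ j < r, l j = d) → c (G.e d) = c d)
    (hv : ∀ d ∉ A, G.vsum c d = 0) :
    ∃ h : D → ZMod 2, (∀ d, h (G.f d) = h d) ∧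
      (∀ d, (d ∉ A ∨ ∃ j < r, l j = d) → c d = h d + h (G.e d)) ∧
      ∀ j < r, h (l ((j + 1) % r)) = h (l j) + c (l j) := by
  classical
  have h2 : ∀ u : ZMod 2, u + u = 0 := by decide
  obtain ⟨c', h1, h3, h4⟩ := inner_flow hc hR (fun j => c (l j)) (sum_legs h2 hc hR c he hv)
  have h5 : ∀ d, (d ∉ A ∨ ∃ j < r, l j = d) → (if d ∈ A then c' d else c d) = c d := by
    rintro d (hd | ⟨j, hj, rfl⟩)
    · exact if_neg hd
    · rw [if_pos (hR.mem j hj), h4 j hj]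
  have hcyc : G.Cyc (fun d => if d ∈ A then c' d else c d) := by
    refine ⟨fun d => ?_, fun d => ?_⟩
    · by_cases hd : d ∉ A ∨ ∃ j < r, l j = d
      · simp only
        rw [h5 _ hd, h5 _ (Kempe1_out hR hd), he d hd]
      · push Not at hd
        simp only
        rw [if_pos hd.1, if_pos (hR.inner d hd.1 hd.2).1, h1 d hd.1 hd.2]
    · by_cases hd : d ∈ A
      · rw [← h3 d hd]
        simp only [Kempe1_vsum hc, hR.closed _, hd, if_true]
      · rw [← hv d hd]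
        simp only [Kempe1_vsum hc, hR.closed _, hd, if_false]
  obtain ⟨h, hf, hh⟩ := hp _ hcyc
  refine ⟨h, hf, fun d hd => by rw [← hh, h5 d hd], fun j hj => ?_⟩
  have h6 : ∀ (k : ℕ) (d : D), h ((G.f ^ k) d) = h d := fun k d => by
    induction k with
    | zero => rfl
    | succ k ih => rw [pow_succ', Perm.mul_apply, hf, ih]
  obtain ⟨k, -, hk⟩ := (hR.ring j hj).exists_pow_eq'
  have h7 := hh (l j)
  rw [h5 _ (Or.inr ⟨j, hj, rfl⟩)] at h7
  rw [← hk, h6, h7, ← add_assoc, h2, zero_add]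

end Map

end Pool.Agent.MP_8c1b0d_co.CT4

/-! The traces of the colourings outside a ring are Kempe closed. -/

namespace Pool.Agent.MP_8c1b0d_co.CT4.Map

open Equiv Finset Function

variable {D : Type} [Fintype D] {G : Map D} {A : Set D} {r : ℕ} {l : ℕ → D}

omit [Fintype D] in
theorem Kempe2_vsum {M : Type} [Add M] (hc : G.Cubic) (c : D → M) (d : D) :
    G.vsum c d = c d + c (G.n d) + c (G.n (G.n d)) := by
  unfold vsum
  rw [if_neg]
  intro h
  have := hc d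
  rw [h] at this
  exact G.n_ne d this

omit [Fintype D] in
theorem Kempe2_e (hR : G.Ring A r l) {d : D} (h : d ∉ A ∨ ∃ j < r, l j = d) :
    G.e d ∉ A ∨ ∃ j < r, l j = G.e d := by
  by_contra hn
  rw [not_or, not_not] at hn
  have := hR.inner _ hn.1 fun j hj he => hn.2 ⟨j, hj, he⟩
  rw [G.ee] at this
  rcases h with h | ⟨j, hj, he⟩
  · exact h this.1
  · exact this.2 j hj he

theorem Kempe2_K (x y z θ : K) (hx : x ≠ 0) (hy : y ≠ 0) (hz : z ≠ 0) (hθ : θ ≠ 0)
    (h : x + y + z = 0) :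
    (x = θ ∧ y ≠ θ ∧ z ≠ θ) ∨ (x ≠ θ ∧ y = θ ∧ z ≠ θ) ∨ (x ≠ θ ∧ y ≠ θ ∧ z = θ) := by
  have h1 : ∀ x y z : K, x + y + z = 0 → z = x + y := by decide
  have h2 : ∀ x y : K, x + y ≠ 0 → x ≠ y := by decide
  have h3 : ∀ x y : K, x ≠ 0 → x + y ≠ y ∧ y + x ≠ y := by decide
  have h4 : ∀ x y θ : K, x = 0 ∨ y = 0 ∨ θ = 0 ∨ x = y ∨ x = θ ∨ y = θ ∨ x + y = θ := by decide
  obtain rfl := h1 x y z h
  have e1 := h2 x y hz
  have e2 := (h3 x y hx).1
  have e3 := (h3 y x hy).2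
  rcases h4 x y θ with h | h | h | h | h | h | h
  · exact absurd h hx
  · exact absurd h hy
  · exact absurd h hθ
  · exact absurd h e1
  · exact Or.inl ⟨h, h ▸ e1.symm, h ▸ e3⟩
  · exact Or.inr (Or.inl ⟨h ▸ e1, h, h ▸ e2⟩)
  · exact Or.inr (Or.inr ⟨h ▸ e3.symm, h ▸ e2.symm, h⟩)

omit [Fintype D] in
/-- the switch at the vertices outside `A` -/
theorem Kempe2_s (hc : G.Cubic) (hA : G.Closed A) {c : D → K} {θ : K} (hθ : θ ≠ 0)
    (h0 : ∀ d ∉ A, c d ≠ 0) (hv : ∀ d ∉ A, G.vsum c d = 0) :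
    ∃ s : Perm D, (∀ d, s (s d) = d) ∧ (∀ d, s d = d ↔ d ∈ A ∨ c d = θ) ∧
      (∀ d, s d = d ∨ s d = G.n d ∨ G.n (s d) = d) ∧
      (∀ d ∉ A, c d ≠ θ → s d ∉ A ∧ c (s d) ≠ θ) ∧
      ∀ d ∉ A, (c d = θ ∧ s (G.n d) = G.n (G.n d)) ∨ (c (G.n d) = θ ∧ s d = G.n (G.n d)) ∨
        (c (G.n (G.n d)) = θ ∧ s d = G.n d) := by
  classical
  have hn : ∀ d ∉ A, G.n d ∉ A := fun d hd h => hd ((hA d).1 h)
  have hK : ∀ d ∉ A, _ := fun d hd => Kempe2_K (c d) (c (G.n d)) (c (G.n (G.n d))) θ (h0 d hd)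
    (h0 _ (hn d hd)) (h0 _ (hn _ (hn d hd))) hθ (by rw [← Kempe2_vsum hc]; exact hv d hd)
  obtain ⟨s, hs⟩ : ∃ s : D → D, ∀ d, s d =
      if d ∉ A ∧ c d ≠ θ then (if c (G.n d) ≠ θ then G.n d else G.n (G.n d)) else d :=
    ⟨_, fun _ => rfl⟩
  have s0 : ∀ d, d ∈ A ∨ c d = θ → s d = d := fun d h => by
    rw [hs, if_neg]; tauto
  have s1 : ∀ d ∉ A, c d ≠ θ → c (G.n d) ≠ θ → s d = G.n d := fun d h1 h2 h3 => by
    rw [hs, if_pos ⟨h1, h2⟩, if_pos h3]
  have s2 : ∀ d ∉ A, c d ≠ θ → c (G.n d) = θ → s d = G.n (G.n d) := fun d h1 h2 h3 => by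
    rw [hs, if_pos ⟨h1, h2⟩, if_neg (not_not.2 h3)]
  have hnn : ∀ d, G.n (G.n d) ≠ d := fun d h => by
    have := hc d
    rw [h] at this
    exact G.n_ne d this
  have ss : Involutive s := by
    intro d
    by_cases hd : d ∈ A
    · rw [s0 d (Or.inl hd), s0 d (Or.inl hd)]
    rcases hK d hd with ⟨h1, h2, h3⟩ | ⟨h1, h2, h3⟩ | ⟨h1, h2, h3⟩
    · rw [s0 d (Or.inr h1), s0 d (Or.inr h1)]
    · rw [s2 d hd h1 h2, s1 _ (hn _ (hn d hd)) h3 (by rw [hc]; exact h1), hc]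
    · rw [s1 d hd h1 h2, s2 _ (hn d hd) h2 h3, hc]
  refine ⟨ss.toPerm, ss, fun d => ⟨fun h => ?_, s0 d⟩, fun d => ?_, fun d hd h => ?_, fun d hd => ?_⟩
  · change s d = d at h
    by_contra hn'
    rw [not_or] at hn'
    by_cases h2 : c (G.n d) = θ
    · exact hnn d ((s2 d hn'.1 hn'.2 h2).symm.trans h)
    · exact G.n_ne d ((s1 d hn'.1 hn'.2 h2).symm.trans h)
  · change s d = d ∨ s d = G.n d ∨ G.n (s d) = d
    by_cases h : d ∈ A ∨ c d = θ
    · exact Or.inl (s0 d h)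
    rw [not_or] at h
    by_cases h2 : c (G.n d) = θ
    · rw [s2 d h.1 h.2 h2, hc]; exact Or.inr (Or.inr rfl)
    · exact Or.inr (Or.inl (s1 d h.1 h.2 h2))
  · change s d ∉ A ∧ c (s d) ≠ θ
    rcases hK d hd with ⟨h1, h2, h3⟩ | ⟨h1, h2, h3⟩ | ⟨h1, h2, h3⟩
    · exact absurd h1 h
    · rw [s2 d hd h1 h2]; exact ⟨hn _ (hn d hd), h3⟩
    · rw [s1 d hd h1 h2]; exact ⟨hn d hd, h2⟩
  · change (c d = θ ∧ s (G.n d) = _) ∨ (c (G.n d) = θ ∧ s d = _) ∨ (c (G.n (G.n d)) = θ ∧ s d = _)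
    rcases hK d hd with ⟨h1, h2, h3⟩ | ⟨h1, h2, h3⟩ | ⟨h1, h2, h3⟩
    · exact Or.inl ⟨h1, s1 _ (hn d hd) h2 h3⟩
    · exact Or.inr (Or.inl ⟨h2, s2 d hd h1 h2⟩)
    · exact Or.inr (Or.inr ⟨h3, s1 d hd h1 h2⟩)

theorem Kempe2_orb (p : Perm D) (x : D) (Q : D → Prop) (h0 : Q x)
    (h1 : ∀ y, p.SameCycle x y → Q y → Q (p y)) : ∀ y, p.SameCycle x y → Q y := by
  intro y hy
  obtain ⟨k, -, rfl⟩ := hy.exists_pow_eq'
  clear hy
  induction k with
  | zero => exact h0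
  | succ k ih =>
    rw [pow_succ', Perm.mul_apply]
    exact h1 _ ⟨(k : ℤ), by rw [zpow_natCast]⟩ ih

theorem Kempe2_Z : ∀ x y : ZMod 2, 0 = x + y → y = x := by decide

theorem Kempe2_kempe (hc : G.Cubic) (hp : G.Planar) (hR : G.Ring A r l) (κ : ℕ → K)
    (hκ : G.Trace A r l κ) (θ : K) (hθ : θ ≠ 0) : ∃ M : ℕ → ℕ,
    (∀ a < r, κ a ≠ θ → M a < r ∧ κ (M a) ≠ θ ∧ M a ≠ a ∧ M (M a) = a) ∧
    (∀ a < r, ∀ b < r, κ a ≠ θ → κ b ≠ θ → a < b → b < M a → a < M b ∧ M b < M a) ∧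
    ∀ T : ℕ → Bool, (∀ a < r, κ a ≠ θ → T (M a) = T a) →
      G.Trace A r l fun a => if κ a ≠ θ ∧ T a = true then κ a + θ else κ a := by
  classical
  obtain ⟨c, hc1, hc2, hc3⟩ := hκ
  obtain ⟨s, ss, sfix, snb, slive, svert⟩ :=
    Kempe2_s hc hR.closed hθ (fun d hd => (hc1 d (Or.inl hd)).2) hc2
  -- orbits of live legs are live
  have live : ∀ a < r, κ a ≠ θ → ∀ y, (s * G.e).SameCycle (l a) y →
      (y ∉ A ∨ ∃ j < r, l j = y) ∧ c y ≠ θ := by
    intro a ha hk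
    refine Kempe2_orb _ _ _ ⟨Or.inr ⟨a, ha, rfl⟩, hc3 a ha ▸ hk⟩ fun y _ hy => ?_
    have h1 := Kempe2_e hR hy.1
    have h2 : c (G.e y) ≠ θ := by rw [(hc1 y hy.1).1]; exact hy.2
    rw [Perm.mul_apply]
    by_cases hA : G.e y ∈ A
    · rw [(sfix _).2 (Or.inl hA)]; exact ⟨h1, h2⟩
    · exact ⟨Or.inl (slive _ hA h2).1, (slive _ hA h2).2⟩
  have dih := fun a (ha : a < r) => dihedral G.e s G.ee ss (l a)
    ((sfix _).2 (Or.inl (hR.mem a ha))) fun y _ => G.e_ne y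
  have hM : ∀ a < r, κ a ≠ θ → ∃ b, b < r ∧ κ b ≠ θ ∧ b ≠ a ∧ (s * G.e).SameCycle (l a) (l b) ∧
      ∀ j < r, (s * G.e).SameCycle (l a) (l j) → j = a ∨ j = b := by
    intro a ha hk
    obtain ⟨y, hy1, hy2, hy3, hy4⟩ := (dih a ha).2
    obtain ⟨h1, h2⟩ := live a ha hk y hy3
    have hA : y ∈ A := ((sfix y).1 hy2).resolve_right h2
    obtain ⟨b, hb, rfl⟩ := h1.resolve_left (not_not.2 hA)
    refine ⟨b, hb, hc3 b hb ▸ h2, fun h => hy1 (by rw [h]), hy3, fun j hj h => ?_⟩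
    exact (hy4 _ ((sfix _).2 (Or.inl (hR.mem j hj))) h).imp (hR.inj j hj a ha) (hR.inj j hj b hb)
  choose! M M1 M2 M3 M4 M5 using hM
  have MM : ∀ a < r, κ a ≠ θ → M (M a) = a := fun a ha hk =>
    ((M5 _ (M1 a ha hk) (M2 a ha hk) a ha (M4 a ha hk).symm).resolve_left (M3 a ha hk).symm).symm
  -- sets of darts that are unions of orbits of live legs
  have hflow : ∀ {B : Type} [AddCommGroup B] (t : B), t + t = 0 → ∀ (U : ℕ → Prop) [DecidablePred U]
      (g : D → B),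
      (∀ d, g d = if ∃ a < r, κ a ≠ θ ∧ U a ∧ (s * G.e).SameCycle (l a) d then t else 0) →
      (∀ d, g (G.e d) = g d) ∧ ∀ d ∉ A, G.vsum g d = 0 := by
    intro B _ t ht U _ g hg
    have inv : ∀ q : D → D, (∀ d, q (q d) = d) →
        (∀ a < r, ∀ y, (s * G.e).SameCycle (l a) y → (s * G.e).SameCycle (l a) (q y)) →
        ∀ d, g (q d) = g d := by
      intro q qq hq d
      rw [hg, hg]
      refine if_congr ⟨?_, ?_⟩ rfl rfl
      · rintro ⟨a, ha, h1, h2, h3⟩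
        exact ⟨a, ha, h1, h2, qq d ▸ hq a ha _ h3⟩
      · rintro ⟨a, ha, h1, h2, h3⟩
        exact ⟨a, ha, h1, h2, hq a ha _ h3⟩
    have gs := inv s ss fun a ha y hy => ((dih a ha).1 y hy).2
    have g0 : ∀ d, c d = θ → g d = 0 := fun d hd => by
      rw [hg, if_neg]
      rintro ⟨a, ha, h1, -, h3⟩
      exact (live a ha h1 d h3).2 hd
    have g2 : ∀ d, g d + g d = 0 := fun d => by
      rw [hg]; split_ifs
      · exact ht
      · exact add_zero 0
    refine ⟨inv G.e G.ee fun a ha y hy => ((dih a ha).1 y hy).1, fun d hd => ?_⟩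
    rw [Kempe2_vsum hc]
    rcases svert d hd with ⟨h1, h2⟩ | ⟨h1, h2⟩ | ⟨h1, h2⟩
    · rw [g0 _ h1, ← h2, gs, zero_add, g2]
    · rw [g0 _ h1, ← h2, gs, add_zero, g2]
    · rw [g0 _ h1, ← h2, gs, add_zero, g2]
  refine ⟨M, fun a ha hk => ⟨M1 a ha hk, M2 a ha hk, M3 a ha hk, MM a ha hk⟩, ?_, ?_⟩
  · intro a ha b hb hka hkb hab hbM
    obtain ⟨g, hg⟩ : ∃ g : D → ZMod 2, ∀ d, g d =
        if ∃ i < r, κ i ≠ θ ∧ i = a ∧ (s * G.e).SameCycle (l i) d then 1 else 0 := ⟨_, fun _ => rfl⟩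
    obtain ⟨ge, gv⟩ := hflow (1 : ZMod 2) (by decide) (fun i => i = a) g hg
    have g1 : ∀ d, (s * G.e).SameCycle (l a) d → g d = 1 := fun d h => by
      rw [hg, if_pos ⟨a, ha, hka, rfl, h⟩]
    have g0 : ∀ d, ¬ (s * G.e).SameCycle (l a) d → g d = 0 := fun d h => by
      rw [hg, if_neg]
      rintro ⟨i, -, -, rfl, h'⟩
      exact h h'
    obtain ⟨h, hf, hb', hj⟩ := outer_planar hc hp hR g (fun d _ => ge d) gv
    have hval : ∀ j < r, h (l j) =
        h (l 0) + ((if a < j then 1 else 0) + if M a < j then 1 else 0) := by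
      intro j
      induction j with
      | zero => simp
      | succ j ih =>
        intro hj'
        have h1 := hj j (by omega)
        rw [Nat.mod_eq_of_lt hj', ih (by omega)] at h1
        rw [h1, add_assoc]
        congr 1
        by_cases e1 : j = a
        · rw [e1, g1 _ (Perm.SameCycle.refl _ _), if_neg (lt_irrefl a), if_pos (Nat.lt_succ_self a),
            if_neg (by omega), if_neg (by omega)]
          simp
        by_cases e2 : j = M a
        · rw [e2, g1 _ (M4 a ha hka), if_neg (lt_irrefl (M a)), if_pos (Nat.lt_succ_self (M a)),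
            if_pos (by omega), if_pos (by omega)]
          simp
        · rw [g0 _ fun h' => (M5 a ha hka j (by omega) h').elim e1 e2, add_zero]
          congr 1
          · exact if_congr (by omega) rfl rfl
          · exact if_congr (by omega) rfl rfl
    have he : ∀ u, (s * G.e).SameCycle (l b) u → h (G.e u) = h u := by
      intro u hu
      have h1 := hb' u (live b hb hkb u hu).1
      rw [g0 u fun h' => by
        rcases M5 a ha hka b hb (h'.trans hu.symm) with h2 | h2 <;> omega] at h1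
      exact Kempe2_Z _ _ h1
    have hn : ∀ u, (s * G.e).SameCycle (l b) u → h (G.n u) = h u := by
      intro u hu
      rw [← he u hu, ← hf (G.e u), f_apply, G.ee]
    have hconst := Kempe2_orb (s * G.e) (l b) (fun y => h y = h (l b)) rfl (fun y hy hy' => by
      have h1 := ((dih b hb).1 y hy).1
      have h2 := ((dih b hb).1 _ h1).2
      rw [Perm.mul_apply, ← hy', ← he y hy]
      rcases snb (G.e y) with h3 | h3 | h3
      · rw [h3]
      · rw [h3, hn _ h1]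
      · rw [← hn _ h2, h3]) _ (M4 b hb hkb)
    rw [hval _ (M1 b hb hkb), hval b hb, if_pos hab, if_neg (show ¬ M a < b by omega),
      add_right_inj] at hconst
    have hne : M b ≠ M a := fun h' => by
      have := MM b hb hkb
      rw [h', MM a ha hka] at this
      omega
    split_ifs at hconst with h1 h2 h2
    · exact absurd hconst (by decide)
    · omega
    · omega
    · exact absurd hconst (by decide)
  · intro T hT
    obtain ⟨g, hg⟩ : ∃ g : D → K, ∀ d, g d =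
        if ∃ i < r, κ i ≠ θ ∧ T i = true ∧ (s * G.e).SameCycle (l i) d then θ else 0 :=
      ⟨_, fun _ => rfl⟩
    have K2 : ∀ x : K, x + x = 0 := by decide
    have K3 : ∀ x y : K, x ≠ y → x + y ≠ 0 := by decide
    obtain ⟨ge, gv⟩ := hflow θ (K2 θ) (fun i => T i = true) g hg
    refine ⟨fun d => c d + g d, fun d hd => ⟨congrArg₂ (· + ·) (hc1 d hd).1 (ge d), ?_⟩,
      fun d hd => ?_, fun j hj => ?_⟩
    · change c d + g d ≠ 0
      rw [hg]
      split_ifs with h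
      · obtain ⟨i, hi, h1, -, h3⟩ := h
        exact K3 _ _ (live i hi h1 d h3).2
      · rw [add_zero]; exact (hc1 d hd).2
    · have h1 := hc2 d hd
      have h2 := gv d hd
      rw [Kempe2_vsum hc] at h1 h2 ⊢
      rw [← add_zero (0 : K), ← congrArg₂ (· + ·) h1 h2]
      abel
    · change (if κ j ≠ θ ∧ T j = true then κ j + θ else κ j) = c (l j) + g (l j)
      rw [hg, ← hc3 j hj]
      have : (∃ i < r, κ i ≠ θ ∧ T i = true ∧ (s * G.e).SameCycle (l i) (l j)) ↔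
          κ j ≠ θ ∧ T j = true := by
        constructor
        · rintro ⟨i, hi, h1, h2, h3⟩
          rcases M5 i hi h1 j hj h3 with rfl | rfl
          · exact ⟨h1, h2⟩
          · exact ⟨M2 i hi h1, (hT i hi h1).trans h2⟩
        · exact fun h => ⟨j, hj, h.1, h.2, Perm.SameCycle.refl _ _⟩
      by_cases h : κ j ≠ θ ∧ T j = true
      · rw [if_pos h, if_pos (this.2 h)]
      · rw [if_neg h, if_neg (fun h' => h (this.1 h')), add_zero]

/-- TASK Kempe2. Fix `c` and `θ`. Call `d` live if (`d ∉ A` or `d` is a leg) and `c d ≠ θ`; `e`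
preserves `d ∉ A ∨ leg` (by `inner`). Let `s d` be the other dart at the vertex of `d` with colour
`≠ θ` when `d ∉ A` and `c d ≠ θ`, and `s d = d` otherwise (an involution of `D`). For a live leg
`l a`, the orbit under `s * e` consists of live darts; `dihedral` gives the second fixed point, a
leg `l (M a)`. Flipping: add `θ` on the orbits of the live legs with `T = true`. Noncrossing: apply
`outer_planar` to the indicator `c₀` of the orbit of `l a`; it is `1` on the legs `a`, `M a` only,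
so `h (l j) = h (l a) + 1` exactly for `a < j ≤ M a`; on the orbit of `l b` (a different orbit)
`c₀` vanishes at all darts of the visited vertices, so `h` is constant along it
(`h (n d) = h (e d)`). -/
theorem kempeClosed (hc : G.Cubic) (hp : G.Planar) (hR : G.Ring A r l) :
    KempeClosed r (G.Trace A r l) := by
  refine ⟨?_, ?_, ?_, ?_, Kempe2_kempe hc hp hR⟩
  · rintro κ κ' h ⟨c, h1, h2, h3⟩
    exact ⟨c, h1, h2, fun j hj => (h j hj).symm.trans (h3 j hj)⟩
  · rintro κ ⟨c, h1, -, h3⟩ j hj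
    rw [h3 j hj]
    exact (h1 _ (Or.inr ⟨j, hj, rfl⟩)).2
  · rintro κ ⟨c, h1, h2, h3⟩
    rw [← sum_legs (by decide) hc hR c (fun d hd => (h1 d hd).1) h2]
    exact sum_congr rfl fun j hj => h3 j (mem_range.1 hj)
  · rintro σ κ ⟨c, h1, h2, h3⟩
    refine ⟨fun d => σ (c d), fun d hd => ⟨congrArg σ (h1 d hd).1, ?_⟩, fun d hd => ?_,
      fun j hj => congrArg σ (h3 j hj)⟩
    · exact (map_ne_zero_iff σ σ.injective).2 (h1 d hd).2
    · have := h2 d hd
      rw [Kempe2_vsum hc] at this ⊢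
      rw [← map_add, ← map_add, this, map_zero]

end Pool.Agent.MP_8c1b0d_co.CT4.Map

/-! Kempe closed sets on rings of size at most five meet. -/

namespace Pool.Agent.MP_8c1b0d_co.CT4

open Equiv Finset Function

variable {S T : (ℕ → K) → Prop}

theorem meet_rho {r j : ℕ} (hj : j < r) :
    (j = 0 ∧ (r - j) % r = 0) ∨ (0 < j ∧ (r - j) % r + j = r) := by
  rcases Nat.eq_zero_or_pos j with h | h
  · left
    simp [h]
  · right
    rw [Nat.mod_eq_of_lt (by omega)]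
    omega

theorem meet_rho_lt {r j : ℕ} (hj : j < r) : (r - j) % r < r := Nat.mod_lt _ (by omega)

theorem meet_rho_rho {r j : ℕ} (hj : j < r) : (r - (r - j) % r) % r = j := by
  have h1 := meet_rho hj
  have h2 := meet_rho (meet_rho_lt hj)
  omega

/-- TASK Meet. Reversal of the ring preserves Kempe closedness (conjugate the matching by
`j ↦ (r - j) % r`; for the noncrossing condition treat the index `0` separately: noncrossing of an
involution means that no `a < b < M a < M b` occurs). -/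
theorem KempeClosed.reverse {r : ℕ} (h : KempeClosed r S) :
    KempeClosed r fun κ => S fun j => κ ((r - j) % r) := by
  refine ⟨fun κ κ' he hκ => h.ext _ _ (fun j hj => he _ (meet_rho_lt hj)) hκ, fun κ hκ j hj => ?_,
    fun κ hκ => ?_, fun σ κ hκ => h.perm σ _ hκ, fun κ hκ θ hθ => ?_⟩
  · have := h.ne _ hκ _ (meet_rho_lt hj)
    rwa [meet_rho_rho hj] at this
  · rw [← h.sum _ hκ]
    refine sum_nbij' (fun j => (r - j) % r) (fun j => (r - j) % r) ?_ ?_ ?_ ?_ ?_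
    · exact fun j hj => mem_range.2 (meet_rho_lt (mem_range.1 hj))
    · exact fun j hj => mem_range.2 (meet_rho_lt (mem_range.1 hj))
    · exact fun j hj => meet_rho_rho (mem_range.1 hj)
    · exact fun j hj => meet_rho_rho (mem_range.1 hj)
    · exact fun j hj => by rw [meet_rho_rho (mem_range.1 hj)]
  · obtain ⟨M, h1, h2, h3⟩ := h.kempe _ hκ θ hθ
    have hl : ∀ a < r, κ a ≠ θ → κ ((r - (r - a) % r) % r) ≠ θ := fun a ha hk => by
      rwa [meet_rho_rho ha]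
    refine ⟨fun a => (r - M ((r - a) % r)) % r, fun a ha hk => ?_, fun a ha b hb hka hkb hab hbM => ?_,
      fun T hT => h3 (fun a => T ((r - a) % r)) fun a ha hk => ?_⟩
    · obtain ⟨g1, g2, g3, g4⟩ := h1 _ (meet_rho_lt ha) (hl a ha hk)
      refine ⟨meet_rho_lt g1, g2, fun g5 => g3 ?_, ?_⟩
      · simp only at g5
        rw [← meet_rho_rho g1, g5]
      · simp only
        rw [meet_rho_rho g1, g4, meet_rho_rho ha]
    · have hx := meet_rho_lt ha
      have hy := meet_rho_lt hb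
      have lx := hl a ha hka
      have ly := hl b hb hkb
      have ea := meet_rho ha
      have eb := meet_rho hb
      simp only at hbM ⊢
      generalize (r - a) % r = x at *
      generalize (r - b) % r = y at *
      obtain ⟨g1, g2, g3, g4⟩ := h1 x hx lx
      obtain ⟨k1, k2, k3, k4⟩ := h1 y hy ly
      have eX := meet_rho g1
      have eY := meet_rho k1
      have n1 : M y ≠ x := fun e => by
        have : y = M x := by rw [← k4, e]
        omega
      have n2 : M y ≠ M x := fun e => by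
        have : y = x := by rw [← k4, e, g4]
        omega
      have p1 := h2 x hx y hy lx ly
      have p2 := h2 y hy x hx ly lx
      have p3 := h2 _ g1 y hy g2 ly
      have p4 := h2 y hy _ g1 ly g2
      have p5 := h2 x hx _ k1 lx k2
      have p6 := h2 _ k1 x hx k2 lx
      have p7 := h2 _ g1 _ k1 g2 k2
      have p8 := h2 _ k1 _ g1 k2 g2
      rw [g4] at p3 p4 p7 p8
      rw [k4] at p5 p6 p7 p8
      omega
    · have := hT _ (meet_rho_lt ha) hk
      simp only [meet_rho_rho ha] at this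
      exact this

/-- the linear map with columns `p`, `q` -/
def meet_lin (p q z : K) : K := (z.1 * p.1 + z.2 * q.1, z.1 * p.2 + z.2 * q.2)

theorem meet_lin_add : ∀ p q z w : K, meet_lin p q (z + w) = meet_lin p q z + meet_lin p q w := by
  decide +kernel

theorem meet_lin_inj : ∀ p q : K, p ≠ 0 ∧ q ≠ 0 ∧ p ≠ q →
    ∀ z w : K, meet_lin p q z = meet_lin p q w → z = w := by
  decide +kernel

/-- `κ` and `κ'` differ by a permutation of the colours -/
def meet_Eq (r : ℕ) (κ κ' : ℕ → K) : Prop :=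
  ∃ p q : K, (p ≠ 0 ∧ q ≠ 0 ∧ p ≠ q) ∧ ∀ t < r, meet_lin p q (κ t) = κ' t

instance meet_decEq (r : ℕ) (κ κ' : ℕ → K) : Decidable (meet_Eq r κ κ') := by
  unfold meet_Eq
  infer_instance

theorem meet_norm {r : ℕ} (h : KempeClosed r S) {κ κ' : ℕ → K} (hκ : S κ) (he : meet_Eq r κ κ') :
    S κ' := by
  obtain ⟨p, q, hpq, he⟩ := he
  have hb : Bijective (AddMonoidHom.mk' (meet_lin p q) (meet_lin_add p q)) :=
    Finite.injective_iff_bijective.1 fun z w e => meet_lin_inj p q hpq z w e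
  exact h.ext _ _ he (h.perm (AddEquiv.ofBijective _ hb) κ hκ)

theorem meet_iff {r : ℕ} {κ κ' : ℕ → K} (he : meet_Eq r κ κ') {s t : ℕ} (hs : s < r) (ht : t < r) :
    κ s = κ t ↔ κ' s = κ' t := by
  obtain ⟨p, q, hpq, he⟩ := he
  rw [← he s hs, ← he t ht]
  exact ⟨fun e => by rw [e], meet_lin_inj p q hpq _ _⟩

/-- the Kempe clause for four live legs -/
theorem meet_four {r : ℕ} (h : KempeClosed r S) {κ : ℕ → K} (hκ : S κ) {θ : K} (hθ : θ ≠ 0)
    {p q s t : ℕ} (o : p < q ∧ q < s ∧ s < t ∧ t < r)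
    (hl : ∀ a < r, κ a ≠ θ ↔ a = p ∨ a = q ∨ a = s ∨ a = t) :
    (S fun a => if a = p ∨ a = q then κ a + θ else κ a) ∨
      S fun a => if a = p ∨ a = t then κ a + θ else κ a := by
  obtain ⟨M, h1, h2, h3⟩ := h.kempe κ hκ θ hθ
  have lp : κ p ≠ θ := (hl p (by omega)).2 (by simp)
  have lq : κ q ≠ θ := (hl q (by omega)).2 (by simp)
  obtain ⟨g1, g2, g3, g4⟩ := h1 p (by omega) lp
  have key : S fun a => if a = p ∨ a = M p then κ a + θ else κ a := by
    refine h.ext _ _ (fun a ha => ?_) (h3 (fun a => decide (a = p ∨ a = M p)) fun a ha hk => ?_)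
    · by_cases e : a = p ∨ a = M p
      · have : κ a ≠ θ := by
          rcases e with e | e <;> rw [e]
          exacts [lp, g2]
        simp only [e, this, ne_eq, not_false_eq_true, decide_true, and_self]
      · simp only [e, decide_false, Bool.false_eq_true, and_false]
    · obtain ⟨-, -, -, k4⟩ := h1 a ha hk
      refine decide_eq_decide.2 ⟨?_, ?_⟩
      · rintro (e | e)
        · right
          rw [← e, k4]
        · left
          rw [← k4, e, g4]
      · rintro (e | e)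
        · right
          rw [e]
        · left
          rw [e, g4]
  rcases (hl _ g1).1 g2 with e | e | e | e
  · exact absurd e g3
  · rw [e] at key
    exact Or.inl key
  · obtain ⟨k1, k2, k3, -⟩ := h1 q (by omega) lq
    have := h2 p (by omega) q (by omega) lp lq o.1 (by omega)
    have := (hl _ k1).1 k2
    omega
  · rw [e] at key
    exact Or.inr key

set_option synthInstance.maxSize 2048 in
theorem meet_fin2 : ∀ u v : K, u ≠ 0 → u + v = 0 →
    meet_Eq 2 (fun t => [u, v].getD t 0) fun _ => (1, 0) := by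
  decide +kernel

theorem meet_cls2 (hS : KempeClosed 2 S) (h1 : ∃ κ, S κ) : S fun _ => (1, 0) := by
  obtain ⟨κ, hκ⟩ := h1
  have hs := hS.sum κ hκ
  simp only [sum_range_succ, range_zero, sum_empty, zero_add] at hs
  refine meet_norm hS (hS.ext _ _ (fun j hj => ?_) hκ) (meet_fin2 _ _ (hS.ne κ hκ 0 (by omega)) hs)
  interval_cases j <;> rfl

set_option synthInstance.maxSize 2048 in
theorem meet_fin3 : ∀ u v w : K, u ≠ 0 → v ≠ 0 → w ≠ 0 → u + v + w = 0 →
    meet_Eq 3 (fun t => [u, v, w].getD t 0) fun t => [(1, 0), (0, 1), (1, 1)].getD t 0 := by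
  decide +kernel

theorem meet_cls3 (hS : KempeClosed 3 S) (h1 : ∃ κ, S κ) :
    S fun t => [(1, 0), (0, 1), (1, 1)].getD t 0 := by
  obtain ⟨κ, hκ⟩ := h1
  have hs := hS.sum κ hκ
  simp only [sum_range_succ, range_zero, sum_empty, zero_add] at hs
  refine meet_norm hS (hS.ext _ _ (fun j hj => ?_) hκ) (meet_fin3 _ _ _ (hS.ne κ hκ 0 (by omega))
    (hS.ne κ hκ 1 (by omega)) (hS.ne κ hκ 2 (by omega)) hs)
  interval_cases j <;> rfl

theorem meet2 (hS : KempeClosed 2 S) (hT : KempeClosed 2 T) (h1 : ∃ κ, S κ) (h2 : ∃ κ, T κ) :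
    ∃ κ, S κ ∧ T κ := by
  exact ⟨_, meet_cls2 hS h1, meet_cls2 hT h2⟩

theorem meet3 (hS : KempeClosed 3 S) (hT : KempeClosed 3 T) (h1 : ∃ κ, S κ) (h2 : ∃ κ, T κ) :
    ∃ κ, S κ ∧ T κ := by
  exact ⟨_, meet_cls3 hS h1, meet_cls3 hT h2⟩

/-- `aaaa`, `aabb`, `abba`, `abab` -/
def meet_rep4 (k t : ℕ) : K :=
  if (k = 1 ∧ 2 ≤ t) ∨ (k = 2 ∧ (t = 1 ∨ t = 2)) ∨ (k = 3 ∧ (t = 1 ∨ t = 3)) then (0, 1) else (1, 0)

set_option synthInstance.maxSize 2048 in
theorem meet_fin4 : ∀ u v w x : K, u ≠ 0 → v ≠ 0 → w ≠ 0 → x ≠ 0 → u + v + w + x = 0 →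
    ∃ k < 4, meet_Eq 4 (fun t => [u, v, w, x].getD t 0) (meet_rep4 k) := by
  decide +kernel

theorem meet_cls4 (hS : KempeClosed 4 S) {κ : ℕ → K} (hκ : S κ) :
    ∃ k < 4, meet_Eq 4 κ (meet_rep4 k) := by
  have hs := hS.sum κ hκ
  simp only [sum_range_succ, range_zero, sum_empty, zero_add] at hs
  obtain ⟨k, hk, p, q, hpq, he⟩ := meet_fin4 _ _ _ _ (hS.ne κ hκ 0 (by omega))
    (hS.ne κ hκ 1 (by omega)) (hS.ne κ hκ 2 (by omega)) (hS.ne κ hκ 3 (by omega)) hs
  refine ⟨k, hk, p, q, hpq, fun t ht => ?_⟩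
  rw [← he t ht]
  interval_cases t <;> rfl

theorem meet_val4 (hS : KempeClosed 4 S) (h1 : ∀ s < 4, ∃ κ, S κ ∧ κ s ≠ κ ((s + 1) % 4)) :
    (S (meet_rep4 2) ∨ S (meet_rep4 3)) ∧ (S (meet_rep4 1) ∨ S (meet_rep4 3)) ∧
      (S (meet_rep4 3) → S (meet_rep4 2) ∨ S (meet_rep4 1)) := by
  refine ⟨?_, ?_, fun h3 => ?_⟩
  · obtain ⟨κ, hκ, hn⟩ := h1 0 (by omega)
    obtain ⟨k, hk, he⟩ := meet_cls4 hS hκ
    have h2 := meet_norm hS hκ he
    rw [Ne, meet_iff he (by omega) (by omega)] at hn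
    interval_cases k
    exacts [absurd rfl hn, absurd rfl hn, Or.inl h2, Or.inr h2]
  · obtain ⟨κ, hκ, hn⟩ := h1 1 (by omega)
    obtain ⟨k, hk, he⟩ := meet_cls4 hS hκ
    have h2 := meet_norm hS hκ he
    rw [Ne, meet_iff he (by omega) (by omega)] at hn
    interval_cases k
    exacts [absurd rfl hn, Or.inl h2, absurd rfl hn, Or.inr h2]
  · exact (meet_four hS h3 (θ := (1, 1)) (by decide) (p := 0) (q := 1) (s := 2) (t := 3) (by omega)
      (by decide +kernel)).imp (fun h => meet_norm hS h (by decide +kernel))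
      fun h => meet_norm hS h (by decide +kernel)

/-- Classes `aaaa`, `aabb`, `abba`, `abab`. Both sets contain `abab` or `abba`, and `abab` or
`aabb`; `abab ∈ S` forces `aabb` or `abba` into `S` (third colour as `θ`). -/
theorem meet4 (hS : KempeClosed 4 S) (hT : KempeClosed 4 T)
    (h1 : ∀ s < 4, ∃ κ, S κ ∧ κ s ≠ κ ((s + 1) % 4))
    (h2 : ∀ s < 4, ∃ κ, T κ ∧ κ s ≠ κ ((s + 1) % 4)) : ∃ κ, S κ ∧ T κ := by
  obtain ⟨a1, a2, a3⟩ := meet_val4 hS h1
  obtain ⟨b1, b2, b3⟩ := meet_val4 hT h2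
  by_contra hn
  have c1 : ¬ (S (meet_rep4 1) ∧ T (meet_rep4 1)) := fun h => hn ⟨_, h⟩
  have c2 : ¬ (S (meet_rep4 2) ∧ T (meet_rep4 2)) := fun h => hn ⟨_, h⟩
  have c3 : ¬ (S (meet_rep4 3) ∧ T (meet_rep4 3)) := fun h => hn ⟨_, h⟩
  tauto

/-- table look-up -/
def meet_tb (l : List ℕ) (k : ℕ) : ℕ := l.getD k 0

def meet_I : List ℕ := [0, 0, 0, 0, 1, 1, 1, 2, 2, 3]
def meet_J : List ℕ := [1, 2, 3, 4, 2, 3, 4, 3, 4, 4]
def meet_A : List ℕ := [1, 0, 3, 2, 0, 6, 5, 8, 7, 7]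
def meet_B : List ℕ := [3, 2, 1, 0, 5, 4, 0, 4, 1, 2]
def meet_C : List ℕ := [4, 4, 5, 6, 1, 2, 3, 9, 9, 8]
def meet_D : List ℕ := [6, 8, 9, 9, 7, 7, 8, 5, 6, 3]

/-- the representative of class `k` -/
def meet_rep5 (k t : ℕ) : K :=
  if t = meet_tb meet_I k then (0, 1) else if t = meet_tb meet_J k then (1, 1) else (1, 0)

/-- the `n`-th index different from `i` -/
def meet_sk (i n : ℕ) : ℕ := if n < i then n else n + 1

set_option synthInstance.maxSize 2048 in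
theorem meet_fin5 : ∀ u v w x y : K, u ≠ 0 → v ≠ 0 → w ≠ 0 → x ≠ 0 → y ≠ 0 → u + v + w + x + y = 0 →
    ∃ k < 10, meet_Eq 5 (fun t => [u, v, w, x, y].getD t 0) (meet_rep5 k) := by
  decide +kernel

theorem meet_cls5 (hS : KempeClosed 5 S) {κ : ℕ → K} (hκ : S κ) :
    ∃ k < 10, meet_Eq 5 κ (meet_rep5 k) := by
  have hs := hS.sum κ hκ
  simp only [sum_range_succ, range_zero, sum_empty, zero_add] at hs
  obtain ⟨k, hk, p, q, hpq, he⟩ := meet_fin5 _ _ _ _ _ (hS.ne κ hκ 0 (by omega))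
    (hS.ne κ hκ 1 (by omega)) (hS.ne κ hκ 2 (by omega)) (hS.ne κ hκ 3 (by omega))
    (hS.ne κ hκ 4 (by omega)) hs
  refine ⟨k, hk, p, q, hpq, fun t ht => ?_⟩
  rw [← he t ht]
  interval_cases t <;> rfl

/-- side conditions of a Kempe clause -/
def meet_Sd (k k1 k2 i : ℕ) (θ : K) : Prop :=
  (meet_sk i 0 < meet_sk i 1 ∧ meet_sk i 1 < meet_sk i 2 ∧ meet_sk i 2 < meet_sk i 3 ∧ meet_sk i 3 < 5) ∧
  (∀ a < 5, meet_rep5 k a ≠ θ ↔
    a = meet_sk i 0 ∨ a = meet_sk i 1 ∨ a = meet_sk i 2 ∨ a = meet_sk i 3) ∧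
  meet_Eq 5 (fun a => if a = meet_sk i 0 ∨ a = meet_sk i 1 then meet_rep5 k a + θ else meet_rep5 k a)
    (meet_rep5 k1) ∧
  meet_Eq 5 (fun a => if a = meet_sk i 0 ∨ a = meet_sk i 3 then meet_rep5 k a + θ else meet_rep5 k a)
    (meet_rep5 k2) ∧ k1 < 10 ∧ k2 < 10

set_option synthInstance.maxSize 2048 in
instance meet_decSd (k k1 k2 i : ℕ) (θ : K) : Decidable (meet_Sd k k1 k2 i θ) := by
  unfold meet_Sd
  infer_instance

theorem meet_sd : ∀ k < 10,
    meet_Sd k (meet_tb meet_A k) (meet_tb meet_B k) (meet_tb meet_I k) (0, 1) ∧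
    meet_Sd k (meet_tb meet_C k) (meet_tb meet_D k) (meet_tb meet_J k) (1, 1) := by
  decide +kernel

theorem meet_clause (hS : KempeClosed 5 S) {k k1 k2 i : ℕ} {θ : K} (hθ : θ ≠ 0)
    (hd : meet_Sd k k1 k2 i θ) (h : S (meet_rep5 k)) : S (meet_rep5 k1) ∨ S (meet_rep5 k2) :=
  (meet_four hS h hθ hd.1 hd.2.1).imp (fun h => meet_norm hS h hd.2.2.1)
    fun h => meet_norm hS h hd.2.2.2.1

/-- the clauses satisfied by the code of a Kempe closed set -/
def meet_V (n : ℕ) : Prop :=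
  (∀ k < 10, n.testBit k = true →
    (n.testBit (meet_tb meet_A k) = true ∨ n.testBit (meet_tb meet_B k) = true) ∧
    (n.testBit (meet_tb meet_C k) = true ∨ n.testBit (meet_tb meet_D k) = true)) ∧
  (∀ s < 5, ∃ k < 10, n.testBit k = true ∧ meet_rep5 k s ≠ meet_rep5 k ((s + 1) % 5) ∧
    meet_rep5 k ((s + 3) % 5) ≠ meet_rep5 k ((s + 4) % 5)) ∧
  ∃ k < 10, n.testBit k = true ∧ ∃ j < 5, meet_rep5 k j = meet_rep5 k ((j + 1) % 5) ∧
    meet_rep5 k j = meet_rep5 k ((j + 2) % 5)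

set_option synthInstance.maxSize 2048 in
instance meet_decV (n : ℕ) : Decidable (meet_V n) := by
  unfold meet_V
  infer_instance

def meet_L : List ℕ :=
  [54, 55, 91, 108, 109, 126, 127, 179, 182, 183, 251, 252, 253, 254, 255, 323, 331, 339, 347,
   359, 366, 367, 374, 375, 382, 383, 480, 483, 486, 487, 489, 491, 492, 493, 494, 495, 496,
   499, 502, 503, 505, 507, 508, 509, 510, 511, 574, 575, 589, 607, 620, 621, 638, 639, 665,
   667, 669, 671, 697, 699, 701, 702, 703, 729, 731, 733, 735, 761, 763, 764, 765, 766, 767,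
   774, 782, 791, 799, 822, 823, 830, 831, 839, 847, 855, 863, 870, 871, 878, 879, 886, 887,
   894, 895, 902, 908, 910, 919, 921, 923, 925, 927, 944, 947, 950, 951, 953, 955, 956, 957,
   958, 959, 963, 967, 971, 973, 975, 979, 983, 985, 987, 989, 991, 992, 995, 998, 999, 1001,
   1003, 1004, 1005, 1006, 1007, 1008, 1011, 1014, 1015, 1017, 1019, 1020, 1021, 1022, 1023]

theorem meet_L1 : ∀ n < 1024, meet_V n → n ∈ meet_L := by
  decide +kernel

theorem meet_L2 : ∀ n ∈ meet_L, ∀ m ∈ meet_L, n &&& m ≠ 0 := by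
  decide +kernel

theorem meet_val5 (hS : KempeClosed 5 S)
    (h1 : ∀ s < 5, ∃ κ, S κ ∧ κ s ≠ κ ((s + 1) % 5) ∧ κ ((s + 3) % 5) ≠ κ ((s + 4) % 5))
    (w1 : ∃ κ, S κ ∧ ∃ j < 5, κ j = κ ((j + 1) % 5) ∧ κ j = κ ((j + 2) % 5)) :
    ∃ n ∈ meet_L, ∀ k, n.testBit k = true → S (meet_rep5 k) := by
  classical
  obtain ⟨n, hn, hb, hb'⟩ : ∃ n < 1024, (∀ k < 10, n.testBit k = true ↔ S (meet_rep5 k)) ∧
      ∀ k, n.testBit k = true → k < 10 := by
    refine ⟨Nat.ofBits fun k : Fin 10 => decide (S (meet_rep5 k)), Nat.ofBits_lt_two_pow _,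
      fun k hk => ?_, fun k hk => ?_⟩
    · rw [Nat.testBit_ofBits_lt _ _ hk, decide_eq_true_iff]
    · by_contra h
      rw [Nat.testBit_ofBits_ge _ _ (by omega)] at hk
      exact Bool.false_ne_true hk
  refine ⟨n, meet_L1 n hn ⟨fun k hk h => ?_, fun s hs => ?_, ?_⟩, fun k hk => (hb k (hb' k hk)).1 hk⟩
  · obtain ⟨d1, d2⟩ := meet_sd k hk
    rw [hb k hk] at h
    rw [hb _ d1.2.2.2.2.1, hb _ d1.2.2.2.2.2, hb _ d2.2.2.2.2.1, hb _ d2.2.2.2.2.2]
    exact ⟨meet_clause hS (by decide) d1 h, meet_clause hS (by decide) d2 h⟩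
  · obtain ⟨κ, hκ, e1, e2⟩ := h1 s hs
    obtain ⟨k, hk, he⟩ := meet_cls5 hS hκ
    rw [Ne, meet_iff he hs (by omega)] at e1
    rw [Ne, meet_iff he (by omega) (by omega)] at e2
    exact ⟨k, hk, (hb k hk).2 (meet_norm hS hκ he), e1, e2⟩
  · obtain ⟨κ, hκ, j, hj, e1, e2⟩ := w1
    obtain ⟨k, hk, he⟩ := meet_cls5 hS hκ
    rw [meet_iff he hj (by omega)] at e1 e2
    exact ⟨k, hk, (hb k hk).2 (meet_norm hS hκ he), j, hj, e1, e2⟩

/-- Ten classes (the positions of the two colours that occur once). Derive the Kempe clauses for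
the ten representatives (`θ` one of the two single colours: four live legs, two noncrossing
matchings), encode a set of classes as a number below 1024 and finish by `decide +kernel`
(142 sets satisfy all clauses and any two of them meet; checked by computer). -/
theorem meet5 (hS : KempeClosed 5 S) (hT : KempeClosed 5 T)
    (h1 : ∀ s < 5, ∃ κ, S κ ∧ κ s ≠ κ ((s + 1) % 5) ∧ κ ((s + 3) % 5) ≠ κ ((s + 4) % 5))
    (h2 : ∀ s < 5, ∃ κ, T κ ∧ κ s ≠ κ ((s + 1) % 5) ∧ κ ((s + 3) % 5) ≠ κ ((s + 4) % 5))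
    (w1 : ∃ κ, S κ ∧ ∃ j < 5, κ j = κ ((j + 1) % 5) ∧ κ j = κ ((j + 2) % 5))
    (w2 : ∃ κ, T κ ∧ ∃ j < 5, κ j = κ ((j + 1) % 5) ∧ κ j = κ ((j + 2) % 5)) :
    ∃ κ, S κ ∧ T κ := by
  obtain ⟨n, hn, hb⟩ := meet_val5 hS h1 w1
  obtain ⟨m, hm, hc⟩ := meet_val5 hT h2 w2
  obtain ⟨k, hk⟩ := Nat.exists_testBit_of_ne_zero (meet_L2 n hn m hm)
  rw [Nat.testBit_and, Bool.and_eq_true] at hk
  exact ⟨_, hb k hk.1, hc k hk.2⟩

end Pool.Agent.MP_8c1b0d_co.CT4

/-! Gadgets: small plane pieces with legs. -/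

namespace Pool.Agent.MP_8c1b0d_co.CT4

open Equiv Finset Function

/-- a connected plane piece on `q` darts whose legs `g 0 … g (r-1)` are the fixed points of `e` -/
structure Gadget (q r : ℕ) where
  e : Perm (Fin q)
  n : Perm (Fin q)
  g : ℕ → Fin q
  ee : ∀ x, e (e x) = x
  n_ne : ∀ x, n x ≠ x
  n23 : ∀ x, n (n x) = x ∨ n (n (n x)) = x
  ginj : ∀ i < r, ∀ j < r, g i = g j → i = j
  fix : ∀ x, e x = x ↔ ∃ j < r, g j = x
  planar : ∀ c : Fin q → ZMod 2, (∀ x, c (e x) = c x) →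
    (∀ x, (if n (n x) = x then c x + c (n x) else c x + c (n x) + c (n (n x))) = 0) →
    ∀ η : ℕ → ZMod 2, (∀ j < r, η ((j + 1) % r) = η j + c (g j)) →
    ∃ h : Fin q → ZMod 2, (∀ j < r, h (g j) = η j ∧ h (n (g j)) = η ((j + 1) % r)) ∧
      ∀ x, e x ≠ x → h (n (e x)) = h x ∧ c x = h x + h (e x)
  conn : ∀ B : Set (Fin q), (∀ x, n x ∈ B ↔ x ∈ B) → (∀ x ∈ B, e x ∈ B) → ∀ x ∈ B, ∀ y, y ∈ B
  two : ∀ B : Set (Fin q), (∀ x, n x ∈ B ↔ x ∈ B) → ∀ x ∈ B,
    ∃ y ∈ B, ∃ z ∈ B, y ≠ z ∧ (e y = y ∨ e y ∉ B) ∧ (e z = z ∨ e z ∉ B)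

/-- `κ` is the trace of a colouring of the gadget -/
def Gadget.Col {q r : ℕ} (Γ : Gadget q r) (κ : ℕ → K) : Prop :=
  ∃ c : Fin q → K, (∀ x, c (Γ.e x) = c x ∧ c x ≠ 0) ∧
    (∀ x, (if Γ.n (Γ.n x) = x then c x + c (Γ.n x)
      else c x + c (Γ.n x) + c (Γ.n (Γ.n x))) = 0) ∧ ∀ j < r, κ j = c (Γ.g j)

theorem gadget_conn {q : ℕ} [NeZero q] {e n : Perm (Fin q)} (ee : ∀ x, e (e x) = x)
    (p : Fin q → Fin q) (δ : Fin q → ℕ)
    (h : ∀ x, x = 0 ∨ (δ (p x) < δ x ∧ (x = n (p x) ∨ x = e (p x))))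
    (B : Set (Fin q)) (h1 : ∀ x, n x ∈ B ↔ x ∈ B) (h2 : ∀ x ∈ B, e x ∈ B) :
    ∀ x ∈ B, ∀ y, y ∈ B := by
  have key : ∀ x, x ∈ B ↔ 0 ∈ B := by
    intro x
    induction x using (measure δ).wf.induction with
    | h x ih =>
      rcases h x with rfl | ⟨hlt, hx | hx⟩
      · rfl
      · rw [← ih _ hlt, ← h1 (p x), ← hx]
      · rw [← ih _ hlt]
        refine ⟨fun hh => ?_, fun hh => hx ▸ h2 _ hh⟩
        have := h2 _ hh
        rwa [hx, ee] at this
  exact fun x hx y => (key y).2 ((key x).1 hx)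

theorem gadget_two {q : ℕ} {e n : Perm (Fin q)}
    (h : ∀ x, ∃ y, (y = x ∨ y = n x ∨ y = n (n x)) ∧ e y = y ∧
      ∃ w, (w = x ∨ w = n x ∨ w = n (n x)) ∧ y ≠ w ∧ (e w = w ∨
        ∃ z, (z = e w ∨ z = n (e w) ∨ z = n (n (e w))) ∧ e z = z ∧ y ≠ z))
    (B : Set (Fin q)) (h1 : ∀ x, n x ∈ B ↔ x ∈ B) : ∀ x ∈ B,
    ∃ y ∈ B, ∃ z ∈ B, y ≠ z ∧ (e y = y ∨ e y ∉ B) ∧ (e z = z ∨ e z ∉ B) := by
  have key : ∀ x ∈ B, ∀ y, (y = x ∨ y = n x ∨ y = n (n x)) → y ∈ B := by
    rintro x hx y (rfl | rfl | rfl)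
    · exact hx
    · exact (h1 _).2 hx
    · exact (h1 _).2 ((h1 _).2 hx)
  intro x hx
  obtain ⟨y, hy, hey, w, hw, hyw, hew⟩ := h x
  by_cases hB : e w ∈ B
  · rcases hew with hew | ⟨z, hz, hez, hyz⟩
    · exact ⟨y, key x hx y hy, w, key x hx w hw, hyw, Or.inl hey, Or.inl hew⟩
    · exact ⟨y, key x hx y hy, z, key _ hB z hz, hyz, Or.inl hey, Or.inl hez⟩
  · exact ⟨y, key x hx y hy, w, key x hx w hw, hyw, Or.inl hey, Or.inr hB⟩

theorem gadget_tri : ∀ a b s t u : ZMod 2, ∀ c : ZMod 2, a + b + c = 0 → t = s + a → u = t + b →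
    c = u + s ∧ c = s + u := by decide

theorem gadget_ne : ∀ a b c : K, c ≠ 0 →
    (a + b + c = 0 → a ≠ b) ∧ (c + a + b = 0 → a ≠ b) := by decide

/-- rotation of `k` vertices of degree three -/
def gadgetN (k : ℕ) [NeZero k] (h : ∀ x : Fin k, x.1 / 3 * 3 + 2 < k) : Perm (Fin k) where
  toFun x := ⟨x.1 / 3 * 3 + (x.1 + 1) % 3, by have := h x; omega⟩
  invFun x := ⟨x.1 / 3 * 3 + (x.1 + 2) % 3, by have := h x; omega⟩
  left_inv x := Fin.ext (by simp only; omega)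
  right_inv x := Fin.ext (by simp only; omega)

/-- an involution given by a table -/
def gadgetE {k : ℕ} (t : Fin k → Fin k) (h : ∀ x, t (t x) = x) : Perm (Fin k) := ⟨t, t, h, h⟩

/-- two vertices -/
def gadH : Gadget 6 4 where
  e := gadgetE ![0, 1, 5, 3, 4, 2] (by decide)
  n := gadgetN 6 (by decide)
  g j := [0, 1, 3, 4].getD j 0
  ee := by decide
  n_ne := by decide
  n23 := by decide
  ginj := by decide
  fix := by decide
  planar c h1 h2 η h3 := by
    refine ⟨![η 0, η 1, η 2, η 2, η 3, η 0], ?_, ?_⟩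
    · intro j hj
      interval_cases j <;> exact ⟨rfl, rfl⟩
    · have a := gadget_tri (c 0) (c 1) (η 0) (η 1) (η 2) (c 2) (h2 0) (h3 0 (by decide))
        (h3 1 (by decide))
      intro x hx
      fin_cases x <;> first | exact absurd rfl hx | skip
      · exact ⟨rfl, a.1⟩
      · exact ⟨rfl, (h1 2).trans a.2⟩
  conn := gadget_conn (by decide) ![0, 0, 1, 5, 3, 2] ![0, 1, 2, 4, 5, 3] (by decide)
  two := gadget_two (by decide)

/-- three vertices -/
def gadF : Gadget 9 5 where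
  e := gadgetE ![0, 1, 3, 2, 4, 6, 5, 7, 8] (by decide)
  n := gadgetN 9 (by decide)
  g j := [0, 1, 4, 7, 8].getD j 0
  ee := by decide
  n_ne := by decide
  n23 := by decide
  ginj := by decide
  fix := by decide
  planar c h1 h2 η h3 := by
    refine ⟨![η 0, η 1, η 2, η 0, η 2, η 3, η 0, η 3, η 4], ?_, ?_⟩
    · intro j hj
      interval_cases j <;> exact ⟨rfl, rfl⟩
    · have a := gadget_tri (c 0) (c 1) (η 0) (η 1) (η 2) (c 2) (h2 0) (h3 0 (by decide))
        (h3 1 (by decide))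
      have h4 : η 4 = η 3 + c 7 := h3 3 (by decide)
      have b := gadget_tri (c 7) (c 8) (η 3) (η 4) (η 0) (c 6) (h2 7) h4 (h3 4 (by decide))
      intro x hx
      fin_cases x <;> first | exact absurd rfl hx | skip
      · exact ⟨rfl, a.1⟩
      · exact ⟨rfl, (h1 2).trans a.2⟩
      · exact ⟨rfl, (h1 6).trans b.2⟩
      · exact ⟨rfl, b.1⟩
  conn := gadget_conn (by decide) ![0, 0, 1, 2, 3, 4, 5, 6, 7] Fin.val (by decide)
  two := gadget_two (by decide)

theorem gadget_step : ∀ g a b s t k : ZMod 2, g + a + b = 0 → t = s + g → b = k + s →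
    a = t + k ∧ a = k + t := by decide

theorem gadget_base : ∀ a t : ZMod 2, a = t + (t + a) ∧ a = t + a + t := by decide

/-- the pentagon -/
def gadW : Gadget 15 5 where
  e := gadgetE ![0, 5, 13, 3, 8, 1, 6, 11, 4, 9, 14, 7, 12, 2, 10] (by decide)
  n := gadgetN 15 (by decide)
  g j := [0, 3, 6, 9, 12].getD j 0
  ee := by decide
  n_ne := by decide
  n23 := by decide
  ginj := by decide
  fix := by decide
  planar c h1 h2 η h3 := by
    refine ⟨![η 0, η 1, η 1 + c 1, η 1, η 2, η 1 + c 1, η 2, η 3, η 1 + c 1, η 3, η 4, η 1 + c 1,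
      η 4, η 0, η 1 + c 1], ?_, ?_⟩
    · intro j hj
      interval_cases j <;> exact ⟨rfl, rfl⟩
    · have a0 := gadget_base (c 1) (η 1)
      have b0 : c 5 = η 1 + c 1 + η 1 := (h1 1).trans a0.2
      have a1 := gadget_step (c 3) (c 4) (c 5) _ (η 2) _ (h2 3) (h3 1 (by decide)) b0
      have b1 : c 8 = η 1 + c 1 + η 2 := (h1 4).trans a1.2
      have a2 := gadget_step (c 6) (c 7) (c 8) _ (η 3) _ (h2 6) (h3 2 (by decide)) b1
      have b2 : c 11 = η 1 + c 1 + η 3 := (h1 7).trans a2.2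
      have a3 := gadget_step (c 9) (c 10) (c 11) _ (η 4) _ (h2 9) (h3 3 (by decide)) b2
      have b3 : c 14 = η 1 + c 1 + η 4 := (h1 10).trans a3.2
      have a4 := gadget_step (c 12) (c 13) (c 14) _ (η 0) _ (h2 12) (h3 4 (by decide)) b3
      have b4 : c 2 = η 1 + c 1 + η 0 := (h1 13).trans a4.2
      intro x hx
      fin_cases x <;> first | exact absurd rfl hx | skip
      · exact ⟨rfl, a0.1⟩
      · exact ⟨rfl, b4⟩
      · exact ⟨rfl, a1.1⟩
      · exact ⟨rfl, b0⟩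
      · exact ⟨rfl, a2.1⟩
      · exact ⟨rfl, b1⟩
      · exact ⟨rfl, a3.1⟩
      · exact ⟨rfl, b2⟩
      · exact ⟨rfl, a4.1⟩
      · exact ⟨rfl, b3⟩
  conn := gadget_conn (by decide) ![0, 0, 1, 5, 3, 1, 8, 6, 4, 11, 9, 7, 14, 12, 10]
    ![0, 1, 2, 3, 4, 2, 6, 7, 5, 9, 10, 8, 12, 13, 11] (by decide)
  two := gadget_two (by decide)

theorem gadget_third : ∀ a b c : K, a + b + c = 0 → a = b + c := by decide

set_option synthInstance.maxSize 1000 in
theorem gadget_pent : ∀ a b c d e : K, a ≠ 0 → b ≠ 0 → c ≠ 0 → d ≠ 0 → e ≠ 0 →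
    a + e ≠ 0 → b + a ≠ 0 → c + b ≠ 0 → d + c ≠ 0 → e + d ≠ 0 →
    (a + e = b + a ∧ a + e = c + b) ∨ (b + a = c + b ∧ b + a = d + c) ∨
    (c + b = d + c ∧ c + b = e + d) ∨ (d + c = e + d ∧ d + c = a + e) ∨
    (e + d = a + e ∧ e + d = b + a) := by decide +kernel

/-- TASK Gadget. One vertex of degree two: `e = 1`, `n = swap 0 1`, `g j = j`. -/
theorem gadgetU : Nonempty (Gadget 2 2) := by
  refine ⟨⟨1, swap 0 1, fun j => [0, 1].getD j 0, by decide, by decide, by decide, by decide,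
    by decide, fun c _ _ η _ => ⟨![η 0, η 1], ?_, fun x hx => absurd rfl hx⟩,
    gadget_conn (by decide) ![0, 0] Fin.val (by decide), gadget_two (by decide)⟩⟩
  intro j hj
  interval_cases j <;> exact ⟨rfl, rfl⟩

/-- one vertex of degree three: `e = 1`, `n (g j) = g (j + 1)` -/
theorem gadgetY : Nonempty (Gadget 3 3) := by
  refine ⟨⟨1, gadgetN 3 (by decide), fun j => [0, 1, 2].getD j 0, by decide, by decide, by decide,
    by decide, by decide, fun c _ _ η _ => ⟨![η 0, η 1, η 2], ?_, fun x hx => absurd rfl hx⟩,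
    gadget_conn (by decide) ![0, 0, 1] Fin.val (by decide), gadget_two (by decide)⟩⟩
  intro j hj
  interval_cases j <;> exact ⟨rfl, rfl⟩

/-- vertices `(g 0, g 1, x)` and `(g 2, g 3, e x)`, in the order of `n` -/
theorem gadgetH : ∃ Γ : Gadget 6 4, ∀ κ, Γ.Col κ → κ 0 ≠ κ 1 := by
  refine ⟨gadH, ?_⟩
  rintro κ ⟨c, h1, h2, h3⟩
  rw [h3 0 (by decide), h3 1 (by decide)]
  exact (gadget_ne (c 0) (c 1) (c 2) (h1 2).2).1 (h2 0)

/-- vertices `(g 0, g 1, x)`, `(e x, g 2, y)`, `(e y, g 3, g 4)`, in the order of `n` -/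
theorem gadgetF : ∃ Γ : Gadget 9 5, ∀ κ, Γ.Col κ → κ 0 ≠ κ 1 ∧ κ 3 ≠ κ 4 := by
  refine ⟨gadF, ?_⟩
  rintro κ ⟨c, h1, h2, h3⟩
  rw [h3 0 (by decide), h3 1 (by decide), h3 3 (by decide), h3 4 (by decide)]
  exact ⟨(gadget_ne (c 0) (c 1) (c 2) (h1 2).2).1 (h2 0),
    (gadget_ne (c 7) (c 8) (c 6) (h1 6).2).1 (h2 7)⟩

/-- the pentagon: vertices `(g j, u j, v j)` in the order of `n`, with `e (u j) = v (j + 1)`;
`h (u j) = η (j + 1)`, and `h (v j)` is the constant `η 1 + c (u 0)` -/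
theorem gadgetW : ∃ Γ : Gadget 15 5, ∀ κ, Γ.Col κ →
    ∃ j < 5, κ j = κ ((j + 1) % 5) ∧ κ j = κ ((j + 2) % 5) := by
  refine ⟨gadW, ?_⟩
  rintro κ ⟨c, h1, h2, h3⟩
  have e0 : c 5 = c 1 := (h1 1).1
  have e1 : c 8 = c 4 := (h1 4).1
  have e2 : c 11 = c 7 := (h1 7).1
  have e3 : c 14 = c 10 := (h1 10).1
  have e4 : c 2 = c 13 := (h1 13).1
  have k0 : κ 0 = c 1 + c 13 := e4 ▸ (h3 0 (by decide)).trans (gadget_third (c 0) (c 1) (c 2) (h2 0))
  have k1 : κ 1 = c 4 + c 1 := e0 ▸ (h3 1 (by decide)).trans (gadget_third (c 3) (c 4) (c 5) (h2 3))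
  have k2 : κ 2 = c 7 + c 4 := e1 ▸ (h3 2 (by decide)).trans (gadget_third (c 6) (c 7) (c 8) (h2 6))
  have k3 : κ 3 = c 10 + c 7 :=
    e2 ▸ (h3 3 (by decide)).trans (gadget_third (c 9) (c 10) (c 11) (h2 9))
  have k4 : κ 4 = c 13 + c 10 :=
    e3 ▸ (h3 4 (by decide)).trans (gadget_third (c 12) (c 13) (c 14) (h2 12))
  have hne : ∀ j < 5, κ j ≠ 0 := fun j hj => h3 j hj ▸ (h1 _).2
  have := gadget_pent (c 1) (c 4) (c 7) (c 10) (c 13) (h1 _).2 (h1 _).2 (h1 _).2 (h1 _).2 (h1 _).2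
    (k0 ▸ hne 0 (by decide)) (k1 ▸ hne 1 (by decide)) (k2 ▸ hne 2 (by decide))
    (k3 ▸ hne 3 (by decide)) (k4 ▸ hne 4 (by decide))
  rw [← k0, ← k1, ← k2, ← k3, ← k4] at this
  rcases this with h | h | h | h | h
  exacts [⟨0, by decide, h⟩, ⟨1, by decide, h⟩, ⟨2, by decide, h⟩, ⟨3, by decide, h⟩,
    ⟨4, by decide, h⟩]

end Pool.Agent.MP_8c1b0d_co.CT4

/-! Suppression of vertices of degree two; mirror images. -/

namespace Pool.Agent.MP_8c1b0d_co.CT4

open Equiv Finset Function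

open scoped Classical in
/-- the edge reversal after the vertex `a`, `n a` is suppressed -/
noncomputable def Map.suppE {D : Type} (G : Map D) (a d : D) : D :=
  if G.e d = a then G.e (G.n a) else if G.e d = G.n a then G.e a else G.e d

theorem Map.supp_cases {D : Type} (G : Map D) (a d : D) :
    (G.e d = a ∧ d = G.e a ∧ G.suppE a d = G.e (G.n a)) ∨
      (G.e d = G.n a ∧ d = G.e (G.n a) ∧ G.suppE a d = G.e a) ∨
        (G.e d ≠ a ∧ G.e d ≠ G.n a ∧ G.suppE a d = G.e d) := by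
  unfold Map.suppE
  by_cases h1 : G.e d = a
  · exact Or.inl ⟨h1, by rw [← h1, G.ee], if_pos h1⟩
  · by_cases h2 : G.e d = G.n a
    · exact Or.inr (Or.inl ⟨h2, by rw [← h2, G.ee], by rw [if_neg h1, if_pos h2]⟩)
    · exact Or.inr (Or.inr ⟨h1, h2, by rw [if_neg h1, if_neg h2]⟩)

theorem Map.supp_mem {D : Type} (G : Map D) {a d : D} (h : d ≠ a ∧ d ≠ G.n a) :
    G.suppE a d ≠ a ∧ G.suppE a d ≠ G.n a := by
  rcases G.supp_cases a d with ⟨h1, -, h3⟩ | ⟨h1, -, h3⟩ | ⟨h1, h2, h3⟩ <;> rw [h3]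
  · exact ⟨fun k => h.2 (G.e.injective (h1.trans k.symm)), G.e_ne _⟩
  · exact ⟨G.e_ne _, fun k => h.1 (G.e.injective (h1.trans k.symm))⟩
  · exact ⟨h1, h2⟩

theorem Map.supp_supp {D : Type} (G : Map D) {a d : D} (h : d ≠ a ∧ d ≠ G.n a) :
    G.suppE a (G.suppE a d) = d := by
  rcases G.supp_cases a d with ⟨-, h2, h3⟩ | ⟨-, h2, h3⟩ | ⟨-, -, h3⟩ <;> rw [h3] <;>
    unfold Map.suppE <;> rw [G.ee]
  · rw [if_neg (G.n_ne a), if_pos rfl, h2]
  · rw [if_pos rfl, h2]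
  · rw [if_neg h.1, if_neg h.2]

theorem Map.supp_ne {D : Type} (G : Map D) (a d : D) : G.suppE a d ≠ d := by
  rcases G.supp_cases a d with ⟨-, h2, h3⟩ | ⟨-, h2, h3⟩ | ⟨-, -, h3⟩ <;> rw [h3]
  · exact fun k => G.n_ne a (G.e.injective (k.trans h2))
  · exact fun k => G.n_ne a (G.e.injective (k.trans h2)).symm
  · exact G.e_ne d

theorem Map.supp_n {D : Type} (G : Map D) {a : D} (ha : G.n (G.n a) = a) (d : D) :
    (G.n d ≠ a ∧ G.n d ≠ G.n a) ↔ (d ≠ a ∧ d ≠ G.n a) := by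
  constructor
  · exact fun h => ⟨fun k => h.2 (by rw [k]), fun k => h.1 (by rw [k, ha])⟩
  · exact fun h => ⟨fun k => h.2 (G.n.injective (k.trans ha.symm)), fun k => h.1 (G.n.injective k)⟩

/-- the map with the vertex `a`, `n a` suppressed -/
noncomputable def Map.supp {D : Type} (G : Map D) {a : D} (ha : G.n (G.n a) = a) :
    Map {d // d ≠ a ∧ d ≠ G.n a} where
  e := Function.Involutive.toPerm (fun d => ⟨G.suppE a d.1, G.supp_mem d.2⟩)
    fun d => Subtype.ext (G.supp_supp d.2)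
  n := G.n.subtypePerm (G.supp_n ha)
  ee d := Subtype.ext (G.supp_supp d.2)
  e_ne d h := G.supp_ne a d.1 (congrArg Subtype.val h)
  n_ne d h := G.n_ne d.1 (congrArg Subtype.val h)
  n23 d := (G.n23 d.1).imp (fun h => Subtype.ext h) fun h => Subtype.ext h

theorem Map.supp_vsum {D A : Type} [Add A] (G : Map D) {a : D} (ha : G.n (G.n a) = a) (c : D → A)
    (d : {d // d ≠ a ∧ d ≠ G.n a}) : (G.supp ha).vsum (fun x => c x.1) d = G.vsum c d.1 := by
  unfold Map.vsum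
  by_cases h : G.n (G.n d.1) = d.1
  · rw [if_pos h, if_pos (Subtype.ext h)]; rfl
  · rw [if_neg h, if_neg fun k => h (congrArg Subtype.val k)]; rfl

/-- flows of the suppressed map extend -/
theorem Map.supp_ext {D A : Type} [Add A] [Zero A] (h2 : ∀ x : A, x + x = 0) (G : Map D) {a : D}
    (ha : G.n (G.n a) = a) {c' : {d // d ≠ a ∧ d ≠ G.n a} → A} (hc : (G.supp ha).Cyc c') (z : A) :
    ∃ c : D → A, G.Cyc c ∧ (∀ d, c d.1 = c' d) ∧ ∀ d, c d = z ∨ ∃ d', c d = c' d' := by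
  classical
  obtain ⟨v, hv1, hv2⟩ : ∃ v : A, (∀ h : G.e a ≠ a ∧ G.e a ≠ G.n a, v = c' ⟨_, h⟩) ∧
      (v = z ∨ ∃ d', v = c' d') := by
    by_cases h : G.e a ≠ a ∧ G.e a ≠ G.n a
    · exact ⟨c' ⟨_, h⟩, fun _ => rfl, Or.inr ⟨_, rfl⟩⟩
    · exact ⟨z, fun k => absurd k h, Or.inl rfl⟩
  obtain ⟨c, k1, k2⟩ : ∃ c : D → A, (∀ d, c d.1 = c' d) ∧ ∀ d, ¬ (d ≠ a ∧ d ≠ G.n a) → c d = v :=
    ⟨fun d => if h : d ≠ a ∧ d ≠ G.n a then c' ⟨d, h⟩ else v, fun d => dif_pos d.2,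
      fun d h => dif_neg h⟩
  have he : ∀ d, d ≠ a ∧ d ≠ G.n a → c (G.e d) = c d := fun d h => by
    have t := hc.1 ⟨d, h⟩
    rw [← k1, ← k1] at t
    change c (G.suppE a d) = c d at t
    rcases G.supp_cases a d with ⟨h1, h2, -⟩ | ⟨h1, -, h3⟩ | ⟨-, -, h3⟩
    · rw [k2 _ fun k => k.1 h1, hv1 (h2 ▸ h), ← k1]
      exact congrArg c h2.symm
    · rw [k2 _ fun k => k.2 h1, hv1 (h3 ▸ G.supp_mem h), ← k1, ← t]
      exact congrArg c h3.symm
    · rw [← t, h3]
  refine ⟨c, ⟨fun d => ?_, fun d => ?_⟩, k1, fun d => ?_⟩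
  · by_cases h : d ≠ a ∧ d ≠ G.n a
    · exact he d h
    · by_cases h' : G.e d ≠ a ∧ G.e d ≠ G.n a
      · rw [← he _ h', G.ee]
      · rw [k2 _ h, k2 _ h']
  · by_cases h : d ≠ a ∧ d ≠ G.n a
    · rw [← G.supp_vsum ha c ⟨d, h⟩, funext k1]
      exact hc.2 _
    · have hn : G.n (G.n d) = d := by
        by_cases h1 : d = a
        · rw [h1, ha]
        · rw [not_not.1 fun k => h ⟨h1, k⟩, ha]
      unfold Map.vsum
      rw [if_pos hn, k2 _ h, k2 _ fun k => h ((G.supp_n ha d).1 k), h2]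
  · by_cases h : d ≠ a ∧ d ≠ G.n a
    · exact Or.inr ⟨⟨d, h⟩, k1 ⟨d, h⟩⟩
    · rw [k2 _ h]; exact hv2

theorem Map.supp_planar {D : Type} (G : Map D) {a : D} (ha : G.n (G.n a) = a) (hp : G.Planar) :
    (G.supp ha).Planar := by
  intro c' hc
  obtain ⟨c, h1, h2, -⟩ := G.supp_ext (by decide) ha hc 0
  obtain ⟨h, hf, hh⟩ := hp c h1
  have hn : ∀ d, h (G.n (G.e d)) = h d := hf
  have hn' : ∀ d, h (G.n d) = h (G.e d) := fun d => by rw [← hn (G.e d), G.ee]
  refine ⟨fun d => h d.1, fun d => ?_, fun d => ?_⟩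
  · change h (G.n (G.suppE a d.1)) = h d.1
    rcases G.supp_cases a d.1 with ⟨-, k, k'⟩ | ⟨-, k, k'⟩ | ⟨-, -, k'⟩ <;> rw [k', hn]
    · rw [k, hn']
    · rw [k, ← hn', ha]
  · change c' d = h d.1 + h (G.suppE a d.1)
    rw [← h2, hh]
    rcases G.supp_cases a d.1 with ⟨k, -, k'⟩ | ⟨k, -, k'⟩ | ⟨-, -, k'⟩ <;> rw [k']
    · rw [k, ← hn', ha]
    · rw [k, hn']

theorem Map.supp_bridge {D : Type} (G : Map D) {a : D} (ha : G.n (G.n a) = a) (hb : G.Bridgeless)
    (M : D → Prop) (hM : ∀ d, M d → d ≠ a ∧ d ≠ G.n a) (hc : ∀ d, M (G.n d) ↔ M d) {x : D}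
    (hx : M x) (hx' : ¬ M (G.suppE a x)) : ∃ d, M d ∧ ¬ M (G.suppE a d) ∧ d ≠ x := by
  have hA : G.Closed {d | M d ∨ (¬ (d ≠ a ∧ d ≠ G.n a) ∧ M (G.e a))} := fun d => by
    simp only [Set.mem_ofPred_eq, hc, G.supp_n ha]
  have key : ∀ d ∈ G.out {d | M d ∨ (¬ (d ≠ a ∧ d ≠ G.n a) ∧ M (G.e a))},
      (M d ∧ ¬ M (G.suppE a d) ∧ G.e d ≠ a) ∨
        (d = G.n a ∧ M (G.e a) ∧ ¬ M (G.suppE a (G.e a))) := by
    rintro d ⟨h1 | ⟨h1, h1'⟩, h2⟩
    · left
      have h3 : G.e d ≠ a := fun k => h2 (Or.inr ⟨fun t => t.1 k, by rw [← k, G.ee]; exact h1⟩)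
      refine ⟨h1, fun k => ?_, h3⟩
      rcases G.supp_cases a d with ⟨t, -, -⟩ | ⟨t, -, t'⟩ | ⟨-, -, t'⟩
      · exact h3 t
      · exact h2 (Or.inr ⟨fun s => s.2 t, t' ▸ k⟩)
      · exact h2 (Or.inl (t' ▸ k))
    · right
      have h3 : d ≠ a := fun k => h2 (Or.inl (k ▸ h1'))
      have h4 : d = G.n a := not_not.1 fun k => h1 ⟨h3, k⟩
      refine ⟨h4, h1', fun k => h2 (Or.inl ?_)⟩
      unfold Map.suppE at k
      rwa [if_pos (G.ee a), ← h4] at k
  by_cases h1 : G.e x = a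
  · have hxa : x = G.e a := by rw [← h1, G.ee]
    have hs : G.suppE a x = G.e (G.n a) := if_pos h1
    obtain ⟨d, hd, hne⟩ := hb _ hA (G.n a) ⟨Or.inr ⟨fun t => t.2 rfl, hxa ▸ hx⟩, by
      rintro (k | ⟨k, -⟩)
      · exact hx' (hs ▸ k)
      · exact k (hs ▸ G.supp_mem (hM x hx))⟩
    rcases key d hd with ⟨k1, k2, k3⟩ | ⟨k1, -⟩
    · exact ⟨d, k1, k2, fun k => k3 (k ▸ h1)⟩
    · exact absurd k1 hne
  · obtain ⟨d, hd, hne⟩ := hb _ hA x ⟨Or.inl hx, by
      rcases G.supp_cases a x with ⟨t, -, -⟩ | ⟨t, -, t'⟩ | ⟨t, s, t'⟩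
      · exact absurd t h1
      · rintro (k | ⟨-, k⟩)
        · exact (hM _ k).2 t
        · exact hx' (t' ▸ k)
      · rintro (k | ⟨k, -⟩)
        · exact hx' (t' ▸ k)
        · exact k ⟨t, s⟩⟩
    rcases key d hd with ⟨k1, k2, -⟩ | ⟨-, k1, k2⟩
    · exact ⟨d, k1, k2, hne⟩
    · exact ⟨_, k1, k2, fun k => h1 (by rw [← k, G.ee])⟩

theorem Map.supp_bridgeless {D : Type} (G : Map D) {a : D} (ha : G.n (G.n a) = a)
    (hb : G.Bridgeless) : (G.supp ha).Bridgeless := by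
  intro A hA x hx
  obtain ⟨d, ⟨h, hd⟩, k2, k3⟩ := G.supp_bridge ha hb 
    (fun d => ∃ h : d ≠ a ∧ d ≠ G.n a, ⟨d, h⟩ ∈ A) (fun d ⟨h, _⟩ => h)
    (fun d => ⟨fun ⟨h, k⟩ => ⟨(G.supp_n ha d).1 h, (hA ⟨d, _⟩).1 k⟩,
      fun ⟨h, k⟩ => ⟨(G.supp_n ha d).2 h, (hA ⟨d, h⟩).2 k⟩⟩) (x := x.1) ⟨x.2, hx.1⟩
    fun ⟨_, k⟩ => hx.2 k
  exact ⟨⟨d, h⟩, ⟨hd, fun k => k2 ⟨_, k⟩⟩, fun k => k3 (congrArg Subtype.val k)⟩

/-- TASK Supp. Strong induction on `card D`. A planar bridgeless map that is not colourable and has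
the least number of darts is cubic: if `n (n a) = a`, remove the darts `a`, `n a` (subtype
`{d // d ≠ a ∧ d ≠ n a}`, same `n`); if `e a = n a` keep `e`, otherwise let the new `e` exchange
`e a` and `e (n a)`. The new map is planar (extend a cycle by `c a = c (n a) = c (e a)`, restrict
`h`; note `f (e a) = n a`, `f (e (n a)) = a`), bridgeless (add `a`, `n a` to a closed set exactly
when it contains `e a`... treat the cases) and its colourings extend. -/
theorem colourable_of_no_minCex (h : ∀ (D : Type) [Fintype D] (G : Map D), ¬ G.MinCex)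
    (D : Type) [Fintype D] (G : Map D) (hp : G.Planar) (hb : G.Bridgeless) : G.Colourable := by
  classical
  induction hN : Fintype.card D using Nat.strong_induction_on generalizing D with
  | _ N ih =>
  by_contra hc
  by_cases h3 : G.Cubic
  · exact h D G ⟨h3, hp, hb, hc, fun D' _ G' hlt k1 k2 => ih _ (hN ▸ hlt) D' G' k1 k2 rfl⟩
  · obtain ⟨a, ha⟩ := not_forall.1 h3
    have ha2 := (G.n23 a).resolve_right ha
    have hlt : Fintype.card {d // d ≠ a ∧ d ≠ G.n a} < N :=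
      hN ▸ Fintype.card_subtype_lt (x := a) fun k => k.1 rfl
    obtain ⟨c', h1, h2⟩ := ih _ hlt _ (G.supp ha2) (G.supp_planar ha2 hp)
      (G.supp_bridgeless ha2 hb) rfl
    obtain ⟨c, k1, -, k2⟩ := G.supp_ext (by decide) ha2 h1 (1, 0)
    refine hc ⟨c, k1, fun d => ?_⟩
    rcases k2 d with k | ⟨d', k⟩ <;> rw [k]
    · decide
    · exact h2 d'

/-- a minimal counterexample has a dart -/
theorem Map.MinCex.nonempty {D : Type} [Fintype D] {G : Map D} (hG : G.MinCex) : Nonempty D := by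
  by_contra h
  exact hG.not_col ⟨fun _ => 0, ⟨fun d => absurd ⟨d⟩ h, fun d => absurd ⟨d⟩ h⟩, fun d => absurd ⟨d⟩ h⟩

theorem Map.mirror_f {D : Type} (G : Map D) : G.mirror.f = G.f⁻¹ := by
  ext d
  rw [Perm.eq_inv_iff_eq]
  change G.n (G.e (G.e (G.n⁻¹ (G.e (G.e d))))) = d
  simp [G.ee]

/-- `vsum` of the mirror at `d` is `vsum` at `e d` for `e`-invariant functions; a set is closed for
the mirror iff its image under `e` is closed -/
theorem Map.MinCex.mirror {D : Type} [Fintype D] {G : Map D} (hG : G.MinCex) :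
    G.mirror.MinCex := by
  have h3 : ∀ d, G.n (G.n (G.n d)) = d := hG.cubic
  have i1 : ∀ d, G.n⁻¹ d = G.n (G.n d) := fun d => Perm.inv_eq_iff_eq.2 (h3 d).symm
  have mn : ∀ d, G.mirror.n d = G.e (G.n (G.n (G.e d))) := fun d => congrArg G.e (i1 _)
  have n2 : ∀ d, G.n (G.n d) ≠ d := fun d k => G.n_ne d (by have := h3 d; rwa [k] at this)
  have cyc : ∀ {A : Type} [AddCommMonoid A] (c : D → A), G.mirror.Cyc c → G.Cyc c := by
    intro A _ c hc
    have he : ∀ d, c (G.e d) = c d := hc.1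
    refine ⟨he, fun d => ?_⟩
    have := hc.2 (G.e d)
    unfold Map.vsum at this ⊢
    rw [if_neg fun k => G.n_ne d (G.e.injective (by simpa only [mn, G.ee, h3] using k))] at this
    simp only [mn, G.ee, h3, he] at this
    rw [add_right_comm] at this
    rw [if_neg (n2 d), this]
  refine ⟨fun d => by simp only [mn, G.ee, h3], fun c hc => ?_, fun A hA b hb => ?_,
    fun ⟨c, hc, h0⟩ => hG.not_col ⟨c, cyc c hc, h0⟩, hG.min⟩
  · obtain ⟨h, hf, hh⟩ := hG.planar c (cyc c hc)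
    refine ⟨h, fun d => ?_, hh⟩
    rw [G.mirror_f, ← hf]
    simp
  · obtain ⟨d, hd, hne⟩ := hG.bridgeless {d | G.e d ∈ A} (fun d => by
      have := hA (G.e (G.n d))
      rw [mn, G.ee, h3] at this
      exact this.symm) (G.e b) ⟨by simpa [G.ee] using hb.1, fun k =>
        hb.2 (by rw [Set.mem_ofPred_eq, G.ee] at k; exact k)⟩
    exact ⟨G.e d, ⟨hd.1, hd.2⟩, fun k => hne (by rw [← k, G.ee])⟩

/-- `go` in the mirror is `go` along the negated word, and face sizes agree -/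
theorem Pattern.Excluded.neg {p : Pattern} (h : p.Excluded) : p.neg.Excluded := by
  intro D _ G hG d hd
  refine h D G.mirror hG.mirror d fun c hc => ?_
  have h1 : G.mirror.go d c.1 = G.go d (c.1.map Neg.neg) := by
    unfold Map.go
    rw [List.foldl_map, G.mirror_f]
    simp only [inv_zpow, zpow_neg]
    rfl
  have h2 : ∀ x, G.mirror.deg x = G.deg x := fun x => by
    unfold Map.deg
    rw [G.mirror_f]
    exact MulAction.period_inv G.f x
  rw [h1, h2]
  exact hd (c.1.map Neg.neg, c.2) (List.mem_map.2 ⟨c, hc, rfl⟩)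

end Pool.Agent.MP_8c1b0d_co.CT4
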