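import Pool.Agent.MP_8c1b0d_co.CT4.PB
import Pool.Agent.MP_8c1b0d_co.CT4.PC

attribute [-instance] RKHS.instFunLike instIsRightCancelAddOfAddRightReflectLE
  ContDiffMapSupportedInClass.toDFunLike TestFunctionClass.toDFunLike
  instIsLeftCancelAddOfAddLeftReflectLE decidableEq_of_subsingleton LinearOrder.toDecidableEq
  NPow.toPow IdemSemiring.toSemiring MonTypeEquivalenceMon.monMonoid
  AddCommMonoidWithOne.toAddMonoidWithOne littleWedderburn List.instDecidableMemOfLawfulBEq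
  Nat.decidableExistsLE NonUnitalNonAssocSemiring.toDistrib Semiring.toMonoid
  NonUnitalNonAssocSemiring.toMulZeroClass NonUnitalNonAssocRing.toAddCommGroup

set_option linter.unusedSectionVars false
set_option linter.unusedVariables false
set_option linter.unusedSimpArgs false

/-! Closed walks of faces are cuts; face colourings. -/

namespace Pool.Agent.MP_8c1b0d_co.CT4.Map

open Equiv Finset Function

variable {D : Type} [Fintype D] {G : Map D}

omit [Fintype D] in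
theorem dual_vsum {A : Type} [Add A] (hc : G.Cubic) (c : D → A) (d : D) :
    G.vsum c d = c d + c (G.n d) + c (G.n (G.n d)) := by
  unfold vsum
  rw [if_neg]
  intro h
  have h1 := hc d
  rw [h] at h1
  exact G.n_ne d h1

omit [Fintype D] in
theorem dual_sf {A : Type} {h : D → A} (hf : ∀ d, h (G.f d) = h d) {x y : D} (hxy : G.sf x y) :
    h x = h y := by
  obtain ⟨i, rfl⟩ := hxy
  induction i using Int.induction_on with
  | zero => rfl
  | succ i ih => rw [add_comm, zpow_add, zpow_one, Perm.mul_apply, hf, ih]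
  | pred i ih =>
    rw [ih, ← hf ((G.f ^ (-(i : ℤ) - 1)) x), ← Perm.mul_apply, ← zpow_one_add]
    congr 3
    ring

theorem dual_test [DecidableEq D] (w : D → ZMod 2) (d : D) :
    ∑ x, w x * ((Pi.single d 1 : D → ZMod 2) x + (Pi.single d 1 : D → ZMod 2) (G.e x)) =
      w d + w (G.e d) := by
  have h1 : ∀ x, (G.e x = d) = (x = G.e d) := fun x =>
    propext ⟨fun h => by rw [← h, G.ee], fun h => by rw [h, G.ee]⟩
  simp only [Pi.single_apply, h1, mul_add, mul_ite, mul_one, mul_zero, sum_add_distrib, sum_ite_eq', mem_univ, ↓ reduceIte]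

/-- TASK Dual. Linear duality over `ZMod 2`: on the space of `e`-invariant functions `c` the
functional `c ↦ ∑ d, z d * c d` vanishes on the common kernel of the functionals `c ↦ vsum c d`
(planarity), so it is a combination `∑ d, a d * vsum c d` (`mem_span_of_iInf_ker_le_ker`); put
`A = {d | a d + a (n d) + a (n (n d)) = 1}` and test on `c = indicator of {d, e d}`. -/
theorem cut_of_dual (hc : G.Cubic) (hp : G.Planar) (z : D → ZMod 2)
    (hz : ∀ h : D → ZMod 2, (∀ d, h (G.f d) = h d) → ∑ d, z d * (h d + h (G.e d)) = 0) :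
    ∃ A : Set D, G.Closed A ∧ ∀ d, (d ∈ A ↔ G.e d ∈ A) ↔ z d + z (G.e d) = 0 := by
  classical
  let P : (D → ZMod 2) →ₗ[ZMod 2] (D → ZMod 2) :=
    LinearMap.id + LinearMap.funLeft (ZMod 2) (ZMod 2) G.e
  have hP : ∀ g d, P g d = g d + g (G.e d) := fun _ _ => rfl
  let E : D → (D → ZMod 2) →ₗ[ZMod 2] ZMod 2 := fun d => LinearMap.proj d
  let L : D → (D → ZMod 2) →ₗ[ZMod 2] ZMod 2 := fun d =>
    (E d + E (G.n d) + E (G.n (G.n d))) ∘ₗ P
  have hL : ∀ d g, L d g = P g d + P g (G.n d) + P g (G.n (G.n d)) := fun _ _ => rfl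
  let φ : (D → ZMod 2) →ₗ[ZMod 2] ZMod 2 := (∑ d, z d • E d) ∘ₗ P
  have hφ : ∀ g, φ g = ∑ d, z d * P g d := fun g => by simp only [φ, E, LinearMap.coe_comp, LinearMap.coe_sum, LinearMap.coe_smul, LinearMap.coe_proj, comp_apply, Finset.sum_apply, Pi.smul_apply, eval, smul_eq_mul]
  have hker : ⨅ d, LinearMap.ker (L d) ≤ LinearMap.ker φ := by
    intro g hg
    rw [Submodule.mem_iInf] at hg
    obtain ⟨h, h1, h2⟩ := hp (P g) ⟨fun d => by rw [hP, hP, G.ee, add_comm], fun d => by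
      rw [dual_vsum hc, ← hL]
      exact hg d⟩
    rw [LinearMap.mem_ker, hφ]
    simp only [h2]
    exact hz h h1
  obtain ⟨a, ha⟩ := (Submodule.mem_span_range_iff_exists_fun _).1
    (mem_span_of_iInf_ker_le_ker hker)
  let b : D → ZMod 2 := fun d => a d + a (G.n d) + a (G.n (G.n d))
  have hb : ∀ d, b (G.n d) = b d := fun d => by
    simp only [b, hc d]
    ring
  have hsum : ∀ c : D → ZMod 2, ∑ d, a d * (c d + c (G.n d) + c (G.n (G.n d))) =
      ∑ d, b d * c d := fun c => by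
    have h1 : ∑ d, a (G.n d) * c d = ∑ d, a d * c (G.n (G.n d)) := by
      rw [← Equiv.sum_comp G.n fun d => a d * c (G.n (G.n d))]
      simp only [hc _]
    have h2 : ∑ d, a (G.n (G.n d)) * c d = ∑ d, a d * c (G.n d) := by
      rw [← Equiv.sum_comp G.n fun d => a (G.n (G.n d)) * c d]
      simp only [hc _]
    simp only [b, mul_add, add_mul, sum_add_distrib, h1, h2]
    ring
  have key : ∀ d, z d + z (G.e d) = b d + b (G.e d) := fun d => by
    have h1 := congrArg (fun ψ : (D → ZMod 2) →ₗ[ZMod 2] ZMod 2 => ψ (Pi.single d 1)) ha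
    simp only [LinearMap.sum_apply, LinearMap.smul_apply, smul_eq_mul, hL, hφ] at h1
    rw [hsum] at h1
    simp only [hP] at h1
    rw [dual_test, dual_test] at h1
    exact h1.symm
  refine ⟨{d | b d = 1}, fun d => by simp only [Set.mem_ofPred_eq, hb], fun d => ?_⟩
  rw [key]
  simp only [Set.mem_ofPred_eq]
  generalize b d = u
  generalize b (G.e d) = v
  revert u v
  decide

theorem dual_rot {A : Type} [AddCommMonoid A] (g : ℕ → A) (m : ℕ) :
    ∑ j ∈ range m, g ((j + 1) % m) = ∑ j ∈ range m, g j := by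
  cases m with
  | zero => rfl
  | succ k =>
    rw [sum_range_succ, sum_range_succ' g, Nat.mod_self]
    congr 1
    refine sum_congr rfl fun j hj => ?_
    rw [Nat.mod_eq_of_lt (by simpa using hj)]

/-- a closed walk of faces through `m` distinct edges is a cut with `m` edges
(`z` is the indicator of the `x j`, the sum telescopes) -/
theorem cut_of_walk (hc : G.Cubic) (hp : G.Planar) (m : ℕ) (x : ℕ → D)
    (hx : ∀ j < m, G.sf (G.e (x j)) (x ((j + 1) % m)))
    (hi : ∀ i < m, ∀ j < m, (x i = x j → i = j) ∧ x i ≠ G.e (x j)) :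
    ∃ A : Set D, G.Closed A ∧ (G.out A).ncard = m ∧
      ∀ d, (d ∈ G.out A ∨ G.e d ∈ G.out A) ↔ ∃ j < m, x j = d ∨ x j = G.e d := by
  classical
  let z : D → ZMod 2 := fun d => if ∃ j < m, x j = d then 1 else 0
  have hz : ∀ w : D → ZMod 2, ∑ d, z d * w d = ∑ j ∈ range m, w (x j) := fun w => by
    rw [← sum_image (s := range m) (g := x) (f := w) fun i h1 j h2 h =>
      (hi i (by simpa using h1) j (by simpa using h2)).1 h]
    simp only [z, ite_mul, one_mul, zero_mul]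
    rw [← sum_filter]
    refine sum_congr ?_ fun _ _ => rfl
    ext d
    simp only [mem_filter, mem_univ, true_and, mem_image, mem_range]
  obtain ⟨A, hA, h1⟩ := cut_of_dual hc hp z fun h hf => by
    rw [hz fun d => h d + h (G.e d), sum_add_distrib,
      sum_congr rfl fun j hj => dual_sf hf (hx j (mem_range.1 hj)), dual_rot fun j => h (x j)]
    exact CharTwo.add_self_eq_zero _
  have h2 : ∀ d, ¬ (d ∈ A ↔ G.e d ∈ A) ↔ ∃ j < m, x j = d ∨ x j = G.e d := fun d => by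
    rw [h1]
    by_cases ha : ∃ j < m, x j = d <;> by_cases hb : ∃ j < m, x j = G.e d
    · obtain ⟨i, h3, rfl⟩ := ha
      obtain ⟨j, h4, h5⟩ := hb
      exact absurd h5 (hi j h4 i h3).2
    · simp only [z, if_pos ha, if_neg hb]
      obtain ⟨i, h3, h4⟩ := ha
      exact iff_of_true (by decide) ⟨i, h3, Or.inl h4⟩
    · simp only [z, if_neg ha, if_pos hb]
      obtain ⟨i, h3, h4⟩ := hb
      exact iff_of_true (by decide) ⟨i, h3, Or.inr h4⟩
    · simp only [z, if_neg ha, if_neg hb]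
      refine iff_of_false (by decide) ?_
      rintro ⟨i, h3, h4 | h4⟩
      exacts [ha ⟨i, h3, h4⟩, hb ⟨i, h3, h4⟩]
  have h3 : ∀ d, (d ∈ G.out A ∨ G.e d ∈ G.out A) ↔ ¬ (d ∈ A ↔ G.e d ∈ A) := fun d => by
    simp only [out, Set.mem_ofPred_eq, G.ee]
    tauto
  refine ⟨A, hA, ?_, fun d => (h3 d).trans (h2 d)⟩
  let y : ℕ → D := fun j => if x j ∈ A then x j else G.e (x j)
  have hy : ∀ j, y j = x j ∨ y j = G.e (x j) := fun j => by
    simp only [y]
    split_ifs <;> simp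
  have h4 : G.out A = y '' (range m : Finset ℕ) := by
    ext d
    constructor
    · intro hd
      obtain ⟨j, hj, h5 | h5⟩ := (h2 d).1 ((h3 d).1 (Or.inl hd))
      · exact ⟨j, by simpa using hj, by simp only [y, h5, if_pos hd.1]⟩
      · exact ⟨j, by simpa using hj, by simp only [y, h5, if_neg hd.2, G.ee]⟩
    · rintro ⟨j, hj, rfl⟩
      have h5 := (h2 (x j)).2 ⟨j, by simpa using hj, Or.inl rfl⟩
      simp only [y, out, Set.mem_ofPred_eq]
      split_ifs with h6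
      · exact ⟨h6, fun h7 => h5 (iff_of_true h6 h7)⟩
      · rw [G.ee]
        exact ⟨by_contra fun h7 => h5 (iff_of_false h6 h7), h6⟩
  rw [h4, Set.InjOn.ncard_image, Set.ncard_coe_finset, card_range]
  intro i h5 j h6 h
  have h7 : i < m := by simpa using h5
  have h8 : j < m := by simpa using h6
  rcases hy i with h9 | h9 <;> rcases hy j with h10 | h10 <;> rw [h9, h10] at h
  · exact (hi i h7 j h8).1 h
  · exact absurd h (hi i h7 j h8).2
  · exact absurd h.symm (hi j h8 i h7).2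
  · exact (hi i h7 j h8).1 (G.e.injective h)

omit [Fintype D] in
theorem closed_compl {A : Set D} (hA : G.Closed A) : G.Closed Aᶜ := by
  exact fun d => not_congr (hA d)

omit [Fintype D] in
theorem mem_out_compl (A : Set D) (d : D) : d ∈ G.out Aᶜ ↔ G.e d ∈ G.out A := by
  simp [out, G.ee, and_comm]

theorem ncard_out_compl (A : Set D) : (G.out Aᶜ).ncard = (G.out A).ncard := by
  have h : G.out Aᶜ = G.e '' G.out A := by
    ext d
    rw [mem_out_compl]
    exact ⟨fun h => ⟨_, h, G.ee d⟩, fun ⟨y, h1, h2⟩ => by rwa [← h2, G.ee]⟩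
  rw [h, Set.ncard_image_of_injective _ G.e.injective]

omit [Fintype D] in
/-- flows come from face colourings (planarity on both coordinates) -/
theorem exists_face_col (hp : G.Planar) (c : D → K) (hc : G.Cyc c) :
    ∃ h : D → K, (∀ x y, G.sf x y → h x = h y) ∧ ∀ d, c d = h d + h (G.e d) := by
  obtain ⟨h1, h2, h3⟩ := hp (fun d => (c d).1) ⟨fun d => congrArg Prod.fst (hc.1 d), fun d => by
    have h := congrArg Prod.fst (hc.2 d)
    unfold vsum at h ⊢
    split_ifs at h ⊢ <;> exact h⟩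
  obtain ⟨h4, h5, h6⟩ := hp (fun d => (c d).2) ⟨fun d => congrArg Prod.snd (hc.1 d), fun d => by
    have h := congrArg Prod.snd (hc.2 d)
    unfold vsum at h ⊢
    split_ifs at h ⊢ <;> exact h⟩
  exact ⟨fun d => (h1 d, h4 d), fun x y h => Prod.ext (dual_sf h2 h) (dual_sf h5 h),
    fun d => Prod.ext (h3 d) (h6 d)⟩

omit [Fintype D] in
/-- a proper face colouring gives an edge colouring (`h (n d) = h (e d)`) -/
theorem colourable_of_face (hc : G.Cubic) (h : D → K) (hf : ∀ d, h (G.f d) = h d)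
    (hne : ∀ d, h d ≠ h (G.e d)) : G.Colourable := by
  have h1 : ∀ d, h (G.e d) = h (G.n d) := fun d => by rw [← hf (G.e d), f_apply, G.ee]
  have h2 : ∀ a b c : K, a + b + (b + c) + (c + a) = 0 := by decide
  have h3 : ∀ a b : K, a + b = 0 → a = b := by decide
  refine ⟨fun d => h d + h (G.e d), ⟨fun d => by simp only [G.ee, add_comm], fun d => ?_⟩,
    fun d hd => hne d (h3 _ _ hd)⟩
  rw [dual_vsum hc]
  simp only [h1, hc d]
  exact h2 _ _ _

omit [Fintype D] in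
theorem Adj.symm {x y : D} (h : G.Adj x y) : G.Adj y x := by
  obtain ⟨z, h1, h2⟩ := h
  exact ⟨G.e z, h2.symm, by rw [G.ee]; exact h1.symm⟩

end Pool.Agent.MP_8c1b0d_co.CT4.Map

/-! A cut with connected sides is a ring. -/

namespace Pool.Agent.MP_8c1b0d_co.CT4.Map

open Equiv Finset Function

variable {D : Type} [Fintype D] {G : Map D}

/-- `A` is connected through its inner edges -/
def Conn (G : Map D) (A : Set D) : Prop := ∀ B : Set D, G.Closed B → B ⊆ A →
  (∀ d ∈ B, G.e d ∈ A → G.e d ∈ B) → B = ∅ ∨ B = A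

theorem RingCut_neg {r k : ℕ} (hk : k < r) : (r - (r - k) % r) % r = k := by
  rcases Nat.eq_zero_or_pos k with rfl | h
  · simp
  · rw [Nat.mod_eq_of_lt (by omega : r - k < r), Nat.mod_eq_of_lt (by omega)]
    omega

theorem RingCut_succ {r j : ℕ} (hj : j < r) : ((r - (j + 1) % r) % r + 1) % r = (r - j) % r := by
  rcases Nat.lt_or_ge (j + 1) r with h | h
  · rw [Nat.mod_eq_of_lt h, Nat.mod_eq_of_lt (by omega : r - (j + 1) < r),
      (by omega : r - (j + 1) + 1 = r - j)]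
  · obtain rfl : r = j + 1 := by omega
    simp only [Nat.mod_self, tsub_zero, zero_add, add_tsub_cancel_left]

theorem RingCut_surj {r k : ℕ} (s : ℕ) (hk : k < r) : ∃ j < r, (j + s) % r = k := by
  have hr : 0 < r := by omega
  refine ⟨(k + (r - s % r)) % r, Nat.mod_lt _ hr, ?_⟩
  have h := Nat.mod_lt s hr
  rw [Nat.mod_add_mod, ← Nat.add_mod_mod, (by omega : k + (r - s % r) + s % r = k + r),
    Nat.add_mod_right, Nat.mod_eq_of_lt hk]

omit [Fintype D] in
theorem RingCut_mk (hc : G.Cubic) {A : Set D} (hA : G.Closed A) (h1 : G.Conn A) {r : ℕ} {l : ℕ → D}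
    (ho : ∀ j < r, l j ∈ G.out A) (hall : ∀ d ∈ G.out A, ∃ j < r, l j = d)
    (hi : ∀ i < r, ∀ j < r, l i = l j → i = j)
    (hr : ∀ j < r, G.f.SameCycle (G.e (l j)) (l ((j + 1) % r))) : G.Ring A r l := by
  have hin : ∀ d ∈ A, (∀ j < r, l j ≠ d) → G.e d ∈ A := fun d hd h => by
    by_contra he
    obtain ⟨j, hj, e⟩ := hall d ⟨hd, he⟩
    exact h j hj e
  refine ⟨hA, fun j hj => (ho j hj).1, hi, fun d hd h => ⟨hin d hd h, fun j hj e => ?_⟩, hr,
    fun i hi' j hj => ?_⟩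
  · exact (ho j hj).2 (by rw [e, G.ee]; exact hd)
  · rcases h1 {y | Relation.ReflTransGen
      (fun x y => y = G.n x ∨ (y = G.e x ∧ ∀ j < r, l j ≠ x)) (l i) y}
      (fun d => ⟨fun h => (h.tail (Or.inl rfl)).tail (Or.inl (hc d).symm),
        fun h => Relation.ReflTransGen.tail h (Or.inl rfl)⟩)
      (fun d hd => by
        induction hd with
        | refl => exact (ho i hi').1
        | tail _ h ih =>
          rcases h with rfl | ⟨rfl, h⟩
          · exact (hA _).2 ih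
          · exact hin _ ih h)
      (fun d hd he => Relation.ReflTransGen.tail hd
        (Or.inr ⟨rfl, fun k hk e => (ho k hk).2 (by rw [e]; exact he)⟩)) with h | h
    · exact (Set.eq_empty_iff_forall_notMem.1 h (l i) Relation.ReflTransGen.refl).elim
    · exact (Set.ext_iff.1 h (l j)).2 (ho j hj).1

theorem RingCut_walk {A : Set D} (hA : G.Closed A) {a : D} (ha : a ∈ G.out A) :
    ∃ m : ℕ, ∃ l : ℕ → D, 0 < m ∧ (∀ j < m, l j ∈ G.out A) ∧
      (∀ i < m, ∀ j < m, l i = l j → i = j) ∧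
      ∀ j < m, G.sf (G.e (l j)) (l ((j + 1) % m)) := by
  classical
  obtain ⟨u, hu⟩ : ∃ u : D → D, ∀ x, u x = if x ∈ A ∧ G.e x ∈ A then G.e x else x := ⟨_, fun _ => rfl⟩
  have huu : Involutive u := fun x => by
    by_cases h : x ∈ A ∧ G.e x ∈ A
    · rw [hu x, if_pos h, hu, if_pos ⟨h.2, by rw [G.ee]; exact h.1⟩, G.ee]
    · rw [hu x, if_neg h, hu, if_neg h]
  obtain ⟨g, hg⟩ : ∃ g : D → D, g = G.n ∘ u := ⟨_, rfl⟩
  have hgi : Injective g := hg ▸ G.n.injective.comp huu.injective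
  have hg1 : ∀ x ∈ G.out A, g x = G.f (G.e x) := fun x hx => by
    rw [hg, f_apply, G.ee, comp_apply, hu, if_neg fun h => hx.2 h.2]
  have hg2 : ∀ x ∈ A, x ∉ G.out A → g x = G.f x := fun x hx h => by
    rw [hg, f_apply, comp_apply, hu, if_pos ⟨hx, by by_contra he; exact h ⟨hx, he⟩⟩]
  have hgA : ∀ k, g^[k] a ∈ A := fun k => by
    induction k with
    | zero => exact ha.1
    | succ k ih =>
      rw [iterate_succ_apply', hg, comp_apply, hA, hu]
      split_ifs with h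
      exacts [h.2, hg ▸ ih]
  have hper := hgi.mem_periodicPts a
  have hp0 := minimalPeriod_pos_of_mem_periodicPts hper
  obtain ⟨P, hP⟩ : ∃ P : ℕ → Prop, ∀ k, P k ↔ g^[k] a ∈ G.out A := ⟨_, fun _ => Iff.rfl⟩
  have hmul : ∀ k, P (minimalPeriod g a * k) := fun k => by
    rw [hP, ((isPeriodicPt_minimalPeriod g a).mul_const k).eq]
    exact ha
  have hinf : {k | P k}.Infinite :=
    Set.infinite_of_injective_forall_mem (f := fun k => minimalPeriod g a * k)
      (fun i j h => Nat.eq_of_mul_eq_mul_left hp0 h) hmul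
  have hstep : ∀ s t, s < t → P s → (∀ k, s < k → k < t → ¬ P k) →
      G.sf (G.e (g^[s] a)) (g^[t] a) := fun s t hst hs h => by
    induction t, hst using Nat.le_induction with
    | base =>
      rw [iterate_succ_apply', hg1 _ ((hP s).1 hs)]
      exact Perm.sameCycle_apply_right.2 Perm.SameCycle.rfl
    | succ t ht ih =>
      rw [iterate_succ_apply', hg2 _ (hgA t) fun h' => h t ht (by omega) ((hP t).2 h')]
      exact Perm.sameCycle_apply_right.2 (ih fun k h1 h2 => h k h1 (by omega))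
  have h0 : P 0 := by simpa using hmul 0
  have hp : P (minimalPeriod g a) := by simpa using hmul 1
  refine ⟨Nat.count P (minimalPeriod g a), fun j => g^[Nat.nth P j] a,
    Nat.count_strict_mono h0 hp0, fun j _ => (hP _).1 (Nat.nth_mem_of_infinite hinf j),
    fun i hi j hj e => Nat.nth_injective hinf
      (iterate_injOn_Iio_minimalPeriod (Nat.nth_lt_of_lt_count hi) (Nat.nth_lt_of_lt_count hj) e),
    fun j hj => ?_⟩
  have e : g^[Nat.nth P ((j + 1) % Nat.count P (minimalPeriod g a))] a = g^[Nat.nth P (j + 1)] a := by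
    rcases Nat.lt_or_ge (j + 1) (Nat.count P (minimalPeriod g a)) with h | h
    · rw [Nat.mod_eq_of_lt h]
    · rw [(by omega : j + 1 = Nat.count P (minimalPeriod g a)), Nat.mod_self, Nat.nth_count hp,
        Nat.nth_zero_of_zero h0, (isPeriodicPt_minimalPeriod g a).eq]
      rfl
  simp only [e]
  refine hstep _ _ (Nat.nth_strictMono hinf (Nat.lt_succ_self j)) (Nat.nth_mem_of_infinite hinf j)
    fun k h1 h2 hk => ?_
  rw [← Nat.nth_count hk] at h1 h2
  have := (Nat.nth_strictMono hinf).lt_iff_lt.1 h1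
  have := (Nat.nth_strictMono hinf).lt_iff_lt.1 h2
  omega

/-- TASK RingCut. For `a ∈ out A` let `ρ a` be the first dart of `out A` among `f ^ k (e a)`,
`k ≥ 1` (they stay in `A` until then, and the orbit returns to `e a ∉ A`). `ρ` is injective on
`out A` (walk backwards), so `l j = ρ ^ j a₀` is periodic with a least period `m`; `cut_of_walk`
gives a closed `B` whose boundary edges are those of `l 0 … l (m-1)`. By `Conn`, `B ∩ A` is `∅` or
`A` and `B ∩ Aᶜ` is `∅` or `Aᶜ`, so `B = A` or `B = Aᶜ` and `m = ncard (out A)`. For `conn` apply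
`Conn` to the set of darts reachable from `l i` (closed since `n ^ 3 = 1`; an out dart `d` has
`e d ∉ A`). -/
theorem ring_of_cut (hc : G.Cubic) (hp : G.Planar) {A : Set D} (hA : G.Closed A)
    (h1 : G.Conn A) (h2 : G.Conn Aᶜ) (hne : (G.out A).Nonempty) :
    ∃ l : ℕ → D, G.Ring A (G.out A).ncard l ∧ ∀ j < (G.out A).ncard, l j ∈ G.out A := by
  obtain ⟨a, ha⟩ := hne
  obtain ⟨m, l, hm, ho, hi, hr⟩ := RingCut_walk hA ha
  obtain ⟨B, hB, hcard, hb⟩ := cut_of_walk hc hp m l hr fun i hi' j hj =>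
    ⟨hi i hi' j hj, fun e => (ho j hj).2 (e ▸ (ho i hi').1)⟩
  have hAB : B = A ∨ B = Aᶜ := by
    have k1 := h1 (B ∩ A) (fun d => and_congr (hB d) (hA d)) Set.inter_subset_right
      fun d hd he => ⟨by
        by_contra hn
        obtain ⟨j, hj, e | e⟩ := (hb d).1 (Or.inl ⟨hd.1, hn⟩)
        · exact (ho j hj).2 (e ▸ he)
        · exact (ho j hj).2 (by rw [e, G.ee]; exact hd.2), he⟩
    have k2 := h2 (B ∩ Aᶜ) (fun d => and_congr (hB d) (closed_compl hA d)) Set.inter_subset_right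
      fun d hd he => ⟨by
        by_contra hn
        obtain ⟨j, hj, e | e⟩ := (hb d).1 (Or.inl ⟨hd.1, hn⟩)
        · exact hd.2 (e ▸ (ho j hj).1)
        · exact he (e ▸ (ho j hj).1), he⟩
    have k3 := (hb (l 0)).2 ⟨0, hm, Or.inl rfl⟩
    have k4 := Set.inter_union_compl B A
    rcases k1 with k1 | k1 <;> rcases k2 with k2 | k2 <;> rw [k1, k2] at k4
    · subst k4; simp [out] at k3
    · right; rw [← k4, Set.empty_union]
    · left; rw [← k4, Set.union_empty]
    · subst k4; simp [out] at k3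
  have hall : ∀ d ∈ G.out A, ∃ j < m, l j = d := fun d hd => by
    have : d ∈ G.out B ∨ G.e d ∈ G.out B := by
      rcases hAB with rfl | rfl
      · exact Or.inl hd
      · exact Or.inr ((mem_out_compl A _).2 (by rw [G.ee]; exact hd))
    obtain ⟨j, hj, e | e⟩ := (hb d).1 this
    · exact ⟨j, hj, e⟩
    · exact (hd.2 (e ▸ (ho j hj).1)).elim
  have hmA : (G.out A).ncard = m := by
    rcases hAB with rfl | rfl
    · exact hcard
    · rw [← hcard, ncard_out_compl]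
  rw [hmA]
  exact ⟨l, RingCut_mk hc hA h1 ho hall hi hr, ho⟩

/-- the other side, read backwards; the legs exhaust `out A` by `inner` -/
theorem Ring.compl (hc : G.Cubic) {A : Set D} {r : ℕ} {l : ℕ → D} (hR : G.Ring A r l)
    (ho : ∀ j < r, l j ∈ G.out A) (h2 : G.Conn Aᶜ) :
    G.Ring Aᶜ r fun j => G.e (l ((r - j) % r)) := by
  have hm : ∀ j < r, ∀ k, k % r < r := fun j hj k => Nat.mod_lt _ (by omega)
  refine RingCut_mk hc (closed_compl hR.closed) h2 (fun j hj => (mem_out_compl A _).2 ?_)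
    (fun d hd => ?_) (fun i hi j hj e => ?_) fun j hj => ?_
  · rw [G.ee]; exact ho _ (hm j hj _)
  · by_contra hn
    refine hd.1 ?_
    have := (hR.inner (G.e d) (not_not.1 hd.2) fun k hk e => hn
      ⟨(r - k) % r, hm k hk _, by simp only [RingCut_neg hk, e, G.ee]⟩).1
    rwa [G.ee] at this
  · have := hR.inj _ (hm i hi _) _ (hm i hi _) (G.e.injective e)
    rw [← RingCut_neg hi, this, RingCut_neg hj]
  · have := (hR.ring _ (hm j hj (r - (j + 1) % r))).symm
    rw [RingCut_succ hj] at this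
    simpa only [G.ee] using this

omit [Fintype D] in
theorem Ring.rotate {A : Set D} {r : ℕ} {l : ℕ → D} (hR : G.Ring A r l) (s : ℕ) :
    G.Ring A r fun j => l ((j + s) % r) := by
  have hm : ∀ j < r, ∀ k, k % r < r := fun j hj k => Nat.mod_lt _ (by omega)
  have hq : ∀ x, (∀ j < r, l ((j + s) % r) ≠ x) ↔ ∀ j < r, l j ≠ x := fun x =>
    ⟨fun h k hk => by
      obtain ⟨j, hj, rfl⟩ := RingCut_surj s hk
      exact h j hj, fun h j hj => h _ (hm j hj _)⟩
  refine ⟨hR.closed, fun j hj => hR.mem _ (hm j hj _), fun i hi j hj e => ?_, fun d hd h => ?_,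
    fun j hj => ?_, fun i hi j hj => ?_⟩
  · have := hR.inj _ (hm i hi _) _ (hm i hi _) e
    exact Nat.ModEq.eq_of_lt_of_lt (Nat.ModEq.add_right_cancel' s this) hi hj
  · rw [hq] at h ⊢
    exact hR.inner d hd h
  · have := hR.ring _ (hm j hj (j + s))
    rw [Nat.mod_add_mod, Nat.add_right_comm] at this
    simpa only [Nat.mod_add_mod] using this
  · simp only [hq]
    exact hR.conn _ (hm i hi _) _ (hm i hi _)

omit [Fintype D] in
theorem Trace.of_rotate {A : Set D} {r : ℕ} {l : ℕ → D} {s : ℕ} (hs : s < r) {κ : ℕ → K}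
    (h : G.Trace A r (fun j => l ((j + s) % r)) κ) :
    ∃ κ', G.Trace A r l κ' ∧ ∀ j < r, κ' ((j + s) % r) = κ j := by
  obtain ⟨c, h1, h2, h3⟩ := h
  refine ⟨fun j => c (l j), ⟨c, fun d hd => h1 d (hd.imp id ?_), h2, fun _ _ => rfl⟩,
    fun j hj => (h3 j hj).symm⟩
  rintro ⟨k, hk, rfl⟩
  obtain ⟨j, hj, rfl⟩ := RingCut_surj s hk
  exact ⟨j, hj, rfl⟩

omit [Fintype D] in
/-- colourings of the two sides with the same trace glue -/
theorem colourable_of_traces {A : Set D} {r : ℕ} {l : ℕ → D} (hR : G.Ring A r l)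
    (ho : ∀ j < r, l j ∈ G.out A) {κ : ℕ → K} (h1 : G.Trace A r l κ)
    (h2 : G.Trace Aᶜ r (fun j => G.e (l ((r - j) % r))) fun j => κ ((r - j) % r)) :
    G.Colourable := by
  classical
  obtain ⟨c1, a1, b1, t1⟩ := h1
  obtain ⟨c2, a2, b2, t2⟩ := h2
  have hl : ∀ d ∈ A, G.e d ∉ A → c1 d = c2 d := fun d hd he => by
    by_contra hn
    refine he (hR.inner d hd fun k hk e => hn ?_).1
    have := t2 ((r - k) % r) (Nat.mod_lt _ (by omega))
    simp only [RingCut_neg hk] at this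
    rw [← e, ← t1 k hk, this, e, (a2 d (Or.inl (not_not.2 hd))).1]
  refine ⟨fun d => if d ∈ A then c2 d else c1 d, ⟨fun d => ?_, fun d => ?_⟩, fun d => ?_⟩
  · have k1 := fun h => (a1 d (Or.inl h)).1
    have k2 := fun h => (a2 d (Or.inl (not_not.2 h))).1
    by_cases h : d ∈ A <;> by_cases he : G.e d ∈ A <;> simp only [h, he, if_true, if_false]
    · exact k2 h
    · rw [← hl d h he, ← (a1 (G.e d) (Or.inl he)).1, G.ee]
    · rw [← hl _ he (by rw [G.ee]; exact h), k1 h]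
    · exact k1 h
  · have hn := hR.closed d
    have hnn := (hR.closed (G.n d)).trans hn
    by_cases h : d ∈ A
    · simpa only [vsum, hn, hnn, h, if_true] using b2 d (not_not.2 h)
    · simpa only [vsum, hn, hnn, h, if_false] using b1 d h
  · by_cases h : d ∈ A
    · simpa only [h, if_true] using (a2 d (Or.inl (not_not.2 h))).2
    · simpa only [h, if_false] using (a1 d (Or.inl h)).2

end Pool.Agent.MP_8c1b0d_co.CT4.Map

/-! Replacing one side of a cut by a smaller gadget. -/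

namespace Pool.Agent.MP_8c1b0d_co.CT4.Map

open Equiv Finset Function

variable {D : Type} [Fintype D] {G : Map D}

omit [Fintype D] in
theorem glue_vsum {D' M : Type} [Add M] {G' : Map D'} {c : D → M} {c' : D' → M} {d : D} {d' : D'}
    (h0 : c d = c' d') (h1 : c (G.n d) = c' (G'.n d'))
    (h2 : c (G.n (G.n d)) = c' (G'.n (G'.n d'))) (h : G.n (G.n d) = d ↔ G'.n (G'.n d') = d') :
    G.vsum c d = G'.vsum c' d' := by
  unfold vsum
  by_cases h3 : G.n (G.n d) = d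
  · rw [if_pos h3, if_pos (h.1 h3), h0, h1]
  · rw [if_neg h3, if_neg (mt h.2 h3), h0, h1, h2]

omit [Fintype D] in
theorem glue_single {A : Set D} {b : D} (hb : b ∈ G.out A) (h : ∀ d ∈ G.out A, d = b) :
    G.e b ∈ G.out Aᶜ ∧ ∀ d ∈ G.out Aᶜ, d = G.e b :=
  ⟨(mem_out_compl A _).2 (by rwa [G.ee]), fun d hd => by
    rw [← h _ ((mem_out_compl A d).1 hd), G.ee]⟩

/-- the glued map -/
structure GlueSpec (G : Map D) (A : Set D) {q r : ℕ} (l : ℕ → D) (Γ : Gadget q r)
    (G' : Map ({d // d ∉ A} ⊕ Fin q)) : Prop where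
  n1 : ∀ d d' : {d // d ∉ A}, d'.1 = G.n d.1 → G'.n (.inl d) = .inl d'
  n2 : ∀ x, G'.n (.inr x) = .inr (Γ.n x)
  e1 : ∀ d d' : {d // d ∉ A}, d'.1 = G.e d.1 → G'.e (.inl d) = .inl d'
  e2 : ∀ j < r, ∀ d : {d // d ∉ A}, d.1 = G.e (l j) → G'.e (.inl d) = .inr (Γ.g j)
  e3 : ∀ j < r, ∀ d : {d // d ∉ A}, d.1 = G.e (l j) → G'.e (.inr (Γ.g j)) = .inl d
  e4 : ∀ x, Γ.e x ≠ x → G'.e (.inr x) = .inr (Γ.e x)

section
variable {A : Set D} {r q : ℕ} {l : ℕ → D} {Γ : Gadget q r} {G' : Map ({d // d ∉ A} ⊕ Fin q)}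

omit [Fintype D] in
theorem glue_leg (hR : G.Ring A r l) {d : D} (hd : d ∉ A) (he : G.e d ∈ A) :
    ∃ j < r, d = G.e (l j) := by
  by_contra hn
  refine hd ?_
  have := (hR.inner _ he fun j hj h => hn ⟨j, hj, by rw [h, G.ee]⟩).1
  rwa [G.ee] at this

omit [Fintype D] in
theorem glue_cases (hR : G.Ring A r l) (Γ : Gadget q r) (y : {d // d ∉ A} ⊕ Fin q) :
    (∃ d d' : {d // d ∉ A}, d'.1 = G.e d.1 ∧ y = .inl d) ∨
    (∃ j < r, ∃ d : {d // d ∉ A}, d.1 = G.e (l j) ∧ y = .inl d) ∨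
    (∃ j < r, y = .inr (Γ.g j)) ∨ ∃ x, Γ.e x ≠ x ∧ y = .inr x := by
  rcases y with d | x
  · by_cases h : G.e d.1 ∈ A
    · obtain ⟨j, hj, hd⟩ := glue_leg hR d.2 h
      exact .inr (.inl ⟨j, hj, d, hd, rfl⟩)
    · exact .inl ⟨d, ⟨_, h⟩, rfl, rfl⟩
  · by_cases h : Γ.e x = x
    · obtain ⟨j, hj, rfl⟩ := (Γ.fix x).1 h
      exact .inr (.inr (.inl ⟨j, hj, rfl⟩))
    · exact .inr (.inr (.inr ⟨x, h, rfl⟩))

omit [Fintype D] in
theorem glue_exists (hR : G.Ring A r l) (ho : ∀ j < r, l j ∈ G.out A) (Γ : Gadget q r) :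
    ∃ G', GlueSpec G A l Γ G' := by
  classical
  let e' : {d // d ∉ A} ⊕ Fin q → {d // d ∉ A} ⊕ Fin q := Sum.elim
    (fun d => if h : G.e d.1 ∈ A then .inr (Γ.g (glue_leg hR d.2 h).choose) else .inl ⟨_, h⟩)
    fun x => if h : Γ.e x = x then
      .inl ⟨G.e (l ((Γ.fix x).1 h).choose), (ho _ ((Γ.fix x).1 h).choose_spec.1).2⟩
      else .inr (Γ.e x)
  have e1 : ∀ d d' : {d // d ∉ A}, d'.1 = G.e d.1 → e' (.inl d) = .inl d' := by
    rintro d ⟨_, h⟩ rfl
    exact dif_neg h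
  have e2 : ∀ j < r, ∀ d : {d // d ∉ A}, d.1 = G.e (l j) → e' (.inl d) = .inr (Γ.g j) := by
    intro j hj d hd
    have h : G.e d.1 ∈ A := by rw [hd, G.ee]; exact hR.mem j hj
    have h1 := (glue_leg hR d.2 h).choose_spec
    rw [hR.inj j hj _ h1.1 (G.e.injective (hd.symm.trans h1.2))]
    exact dif_pos h
  have e3 : ∀ j < r, ∀ d : {d // d ∉ A}, d.1 = G.e (l j) → e' (.inr (Γ.g j)) = .inl d := by
    rintro j hj ⟨_, hd⟩ rfl
    have h : Γ.e (Γ.g j) = Γ.g j := (Γ.fix _).2 ⟨j, hj, rfl⟩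
    have h1 := ((Γ.fix _).1 h).choose_spec
    refine (dif_pos h).trans (congrArg Sum.inl (Subtype.ext ?_))
    exact congrArg (fun i => G.e (l i)) (Γ.ginj _ h1.1 j hj h1.2)
  have e4 : ∀ x, Γ.e x ≠ x → e' (.inr x) = .inr (Γ.e x) := fun x h => dif_neg h
  have ee : ∀ y, e' (e' y) = y ∧ e' y ≠ y := by
    intro y
    rcases glue_cases hR Γ y with ⟨d, d', h, rfl⟩ | ⟨j, hj, d, h, rfl⟩ | ⟨j, hj, rfl⟩ | ⟨x, h, rfl⟩
    · rw [e1 d d' h, e1 d' d (by rw [h, G.ee])]
      exact ⟨rfl, fun h1 => G.e_ne d.1 (h.symm.trans (congrArg Subtype.val (Sum.inl.inj h1)))⟩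
    · rw [e2 j hj d h, e3 j hj d h]
      exact ⟨rfl, Sum.inr_ne_inl⟩
    · rw [e3 j hj ⟨_, (ho j hj).2⟩ rfl, e2 j hj _ rfl]
      exact ⟨rfl, Sum.inl_ne_inr⟩
    · rw [e4 x h, e4 _ (by rw [Γ.ee]; exact h.symm), Γ.ee]
      exact ⟨rfl, fun h1 => h (Sum.inr.inj h1)⟩
  let n1 : Perm {d // d ∉ A} := G.n.subtypePerm fun d => not_congr (hR.closed d)
  refine ⟨⟨Involutive.toPerm e' fun y => (ee y).1, Equiv.sumCongr n1 Γ.n, fun y => (ee y).1,
    fun y => (ee y).2, ?_, ?_⟩, ?_, fun _ => rfl, e1, e2, e3, e4⟩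
  · rintro (d | x) h
    · exact G.n_ne d.1 (congrArg Subtype.val (Sum.inl.inj h))
    · exact Γ.n_ne x (Sum.inr.inj h)
  · rintro (d | x)
    · exact (G.n23 d.1).imp (fun h => congrArg Sum.inl (Subtype.ext h))
        fun h => congrArg Sum.inl (Subtype.ext h)
    · exact (Γ.n23 x).imp (congrArg Sum.inr) (congrArg Sum.inr)
  · rintro d ⟨_, h⟩ rfl
    rfl

omit [Fintype D] in
/-- a flow of the glued map gives a flow outside `A` and a flow of the gadget -/
theorem GlueSpec.pull {M : Type} [Add M] [Zero M] (hS : GlueSpec G A l Γ G') (hR : G.Ring A r l)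
    (ho : ∀ j < r, l j ∈ G.out A) {c' : {d // d ∉ A} ⊕ Fin q → M} (hc : G'.Cyc c') :
    (∃ c : D → M, (∀ d : {d // d ∉ A}, c d.1 = c' (.inl d)) ∧
      (∀ j < r, c (l j) = c' (.inr (Γ.g j))) ∧
      (∀ d, (d ∉ A ∨ ∃ j < r, l j = d) → c (G.e d) = c d) ∧ ∀ d ∉ A, G.vsum c d = 0) ∧
    (∀ x, c' (.inr (Γ.e x)) = c' (.inr x)) ∧
    ∀ x, (if Γ.n (Γ.n x) = x then c' (.inr x) + c' (.inr (Γ.n x))
      else c' (.inr x) + c' (.inr (Γ.n x)) + c' (.inr (Γ.n (Γ.n x)))) = 0 := by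
  classical
  refine ⟨?_, fun x => ?_, fun x => ?_⟩
  · let c : D → M := fun d =>
      if h : d ∈ A then (if h' : G.e d ∈ A then 0 else c' (.inl ⟨_, h'⟩)) else c' (.inl ⟨d, h⟩)
    have h1 : ∀ d : {d // d ∉ A}, c d.1 = c' (.inl d) := fun d => dif_neg d.2
    have h2 : ∀ j (hj : j < r), c (l j) = c' (.inl ⟨_, (ho j hj).2⟩) := fun j hj =>
      (dif_pos (ho j hj).1).trans (dif_neg (ho j hj).2)
    have h3 : ∀ j < r, c (G.e (l j)) = c (l j) := fun j hj =>
      (h1 ⟨_, (ho j hj).2⟩).trans (h2 j hj).symm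
    refine ⟨c, h1, fun j hj => ?_, ?_, fun d hd => ?_⟩
    · rw [h2 j hj, ← hS.e2 j hj ⟨_, (ho j hj).2⟩ rfl, hc.1]
    · rintro d (hd | ⟨j, hj, rfl⟩)
      · by_cases he : G.e d ∈ A
        · obtain ⟨j, hj, rfl⟩ := glue_leg hR hd he
          rw [G.ee, h3 j hj]
        · rw [h1 ⟨_, he⟩, h1 ⟨_, hd⟩, ← hS.e1 ⟨_, hd⟩ ⟨_, he⟩ rfl, hc.1]
      · exact h3 j hj
    · have hd1 : G.n d ∉ A := mt (hR.closed _).1 hd
      have hd2 : G.n (G.n d) ∉ A := mt (hR.closed _).1 hd1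
      have a1 := hS.n1 ⟨_, hd⟩ ⟨_, hd1⟩ rfl
      have a2 := hS.n1 ⟨_, hd1⟩ ⟨_, hd2⟩ rfl
      rw [← hc.2 (.inl ⟨d, hd⟩)]
      refine glue_vsum (h1 ⟨_, hd⟩) ?_ ?_ ?_
      · rw [a1, h1 ⟨_, hd1⟩]
      · rw [a1, a2, h1 ⟨_, hd2⟩]
      · rw [a1, a2, Sum.inl.injEq, Subtype.mk.injEq]
  · by_cases h : Γ.e x = x
    · rw [h]
    · rw [← hS.e4 x h, hc.1]
  · have h := hc.2 (.inr x)
    unfold vsum at h
    simp only [hS.n2, Sum.inr.injEq] at h
    by_cases h3 : Γ.n (Γ.n x) = x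
    · rwa [if_pos h3] at h ⊢
    · rwa [if_neg h3] at h ⊢

theorem GlueSpec.planar (hS : GlueSpec G A l Γ G') (hc : G.Cubic) (hp : G.Planar)
    (hR : G.Ring A r l) (ho : ∀ j < r, l j ∈ G.out A) : G'.Planar := by
  intro c' hc'
  obtain ⟨⟨c, h1, h2, h3, h4⟩, h5, h6⟩ := hS.pull hR ho hc'
  obtain ⟨h, hf, he, hl⟩ := outer_planar hc hp hR c h3 h4
  obtain ⟨k, k1, k2⟩ := Γ.planar (fun x => c' (.inr x)) h5 h6 (fun j => h (l j))
    fun j hj => by rw [hl j hj, h2 j hj]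
  have hn : ∀ d : {d // d ∉ A}, G'.n (.inl d) = .inl ⟨G.n d.1, mt (hR.closed _).1 d.2⟩ :=
    fun d => hS.n1 _ _ rfl
  refine ⟨Sum.elim (fun d => h d.1) k, fun y => ?_, fun y => ?_⟩
  · rw [f_apply]
    rcases glue_cases hR Γ y with ⟨d, d', a, rfl⟩ | ⟨j, hj, d, a, rfl⟩ | ⟨j, hj, rfl⟩ | ⟨x, a, rfl⟩
    · rw [hS.e1 d d' a, hn]
      simp only [Sum.elim_inl, a]
      exact hf _
    · rw [hS.e2 j hj d a, hS.n2]
      simp only [Sum.elim_inl, Sum.elim_inr, a]
      rw [(k1 j hj).2, hl j hj, he _ (.inr ⟨j, hj, rfl⟩), ← add_assoc, CharTwo.add_self_eq_zero,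
        zero_add]
    · rw [hS.e3 j hj ⟨_, (ho j hj).2⟩ rfl, hn]
      simp only [Sum.elim_inl, Sum.elim_inr]
      rw [(k1 j hj).1]
      exact hf _
    · rw [hS.e4 x a, hS.n2]
      exact (k2 x a).1
  · rcases glue_cases hR Γ y with ⟨d, d', a, rfl⟩ | ⟨j, hj, d, a, rfl⟩ | ⟨j, hj, rfl⟩ | ⟨x, a, rfl⟩
    · rw [hS.e1 d d' a, ← h1, he _ (.inl d.2)]
      simp only [Sum.elim_inl, a]
    · rw [hS.e2 j hj d a, ← h1, he _ (.inl d.2)]
      simp only [Sum.elim_inl, Sum.elim_inr, a, G.ee, (k1 j hj).1]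
    · rw [hS.e3 j hj ⟨_, (ho j hj).2⟩ rfl, ← h2 j hj, he _ (.inr ⟨j, hj, rfl⟩)]
      simp only [Sum.elim_inl, Sum.elim_inr, (k1 j hj).1]
    · rw [hS.e4 x a]
      exact (k2 x a).2

omit [Fintype D] in
theorem GlueSpec.closed (hS : GlueSpec G A l Γ G') (hR : G.Ring A r l)
    {A' : Set ({d // d ∉ A} ⊕ Fin q)} (hA : G'.Closed A') :
    G.Closed {d | ∃ h : d ∉ A, Sum.inl ⟨d, h⟩ ∈ A'} := by
  intro d
  constructor
  · rintro ⟨h, h1⟩
    have h0 : d ∉ A := mt (hR.closed d).2 h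
    exact ⟨h0, (hA _).1 (by rwa [hS.n1 ⟨d, h0⟩ ⟨_, h⟩ rfl])⟩
  · rintro ⟨h, h1⟩
    have h0 : G.n d ∉ A := mt (hR.closed d).1 h
    exact ⟨h0, by rw [← hS.n1 ⟨d, h⟩ ⟨_, h0⟩ rfl]; exact (hA _).2 h1⟩

omit [Fintype D] in
theorem GlueSpec.left (hS : GlueSpec G A l Γ G') (hb : G.Bridgeless) (hR : G.Ring A r l)
    {A' : Set ({d // d ∉ A} ⊕ Fin q)} (hA : G'.Closed A') {b : {d // d ∉ A} ⊕ Fin q}
    (h1 : b ∈ G'.out A' ∧ ∀ y ∈ G'.out A', y = b) (hC : ∀ x, Sum.inr x ∉ A') : False := by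
  rcases b with d | x
  · obtain ⟨d2, ⟨⟨hd, h2⟩, h3⟩, h4⟩ := hb _ (hS.closed hR hA) d.1 ⟨⟨d.2, h1.1.1⟩,
      fun ⟨h, h'⟩ => h1.1.2 (by rwa [hS.e1 d ⟨_, h⟩ rfl])⟩
    refine h4 (congrArg Subtype.val (Sum.inl.inj (h1.2 (.inl ⟨d2, hd⟩) ⟨h2, fun h5 => ?_⟩)))
    by_cases he : G.e d2 ∈ A
    · obtain ⟨j, hj, a⟩ := glue_leg hR hd he
      rw [hS.e2 j hj ⟨d2, hd⟩ a] at h5
      exact hC _ h5
    · rw [hS.e1 ⟨d2, hd⟩ ⟨_, he⟩ rfl] at h5
      exact h3 ⟨he, h5⟩
  · exact hC x h1.1.1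

omit [Fintype D] in
theorem GlueSpec.right (hS : GlueSpec G A l Γ G') (ho : ∀ j < r, l j ∈ G.out A)
    {A' : Set ({d // d ∉ A} ⊕ Fin q)} (hA : G'.Closed A') {b : {d // d ∉ A} ⊕ Fin q}
    (h1 : b ∈ G'.out A' ∧ ∀ y ∈ G'.out A', y = b) (hB : ∀ d, Sum.inl d ∉ A') : False := by
  have key : ∀ y, Sum.inr y ∈ A' → (Γ.e y = y ∨ Sum.inr (Γ.e y) ∉ A') → Sum.inr y = b := by
    intro y hy h
    refine h1.2 _ ⟨hy, fun h5 => ?_⟩
    by_cases he : Γ.e y = y
    · obtain ⟨j, hj, rfl⟩ := (Γ.fix y).1 he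
      rw [hS.e3 j hj ⟨_, (ho j hj).2⟩ rfl] at h5
      exact hB _ h5
    · rw [hS.e4 y he] at h5
      exact h.resolve_left he h5
  rcases b with d | x
  · exact hB d h1.1.1
  · obtain ⟨y, hy, z, hz, hne, a1, a2⟩ := Γ.two {x | Sum.inr x ∈ A'}
      (fun x => by have := hA (.inr x); rwa [hS.n2] at this) x h1.1.1
    exact hne (Sum.inr.inj ((key y hy a1).trans (key z hz a2).symm))

omit [Fintype D] in
theorem GlueSpec.bridgeless (hS : GlueSpec G A l Γ G') (hb : G.Bridgeless) (hR : G.Ring A r l)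
    (ho : ∀ j < r, l j ∈ G.out A) (h2 : G.Conn Aᶜ) : G'.Bridgeless := by
  intro A' hA b hb1
  by_contra hn
  have hb2 : ∀ y ∈ G'.out A', y = b := fun y hy => by
    by_contra h
    exact hn ⟨y, hy, h⟩
  have hs := glue_single hb1 hb2
  have step : ∀ y ∈ A', y ≠ b → G'.e y ∈ A' := fun y hy h => by
    by_contra h'
    exact h (hb2 y ⟨hy, h'⟩)
  by_cases hcase : ∃ d : {d // d ∉ A}, G.e d.1 ∉ A ∧ b = .inl d
  · obtain ⟨d, -, rfl⟩ := hcase
    by_cases hC : ∃ x, Sum.inr x ∈ A'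
    · obtain ⟨x, hx⟩ := hC
      refine hS.left hb hR (closed_compl hA) hs fun y hy => hy ?_
      refine Γ.conn {x | Sum.inr x ∈ A'} (fun x => by have := hA (.inr x); rwa [hS.n2] at this)
        (fun z hz => ?_) x hx y
      by_cases he : Γ.e z = z
      · rwa [he]
      · have := step _ hz Sum.inr_ne_inl
        rwa [hS.e4 z he] at this
    · exact hS.left hb hR hA ⟨hb1, hb2⟩ fun x hx => hC ⟨x, hx⟩
  · rcases h2 _ (hS.closed hR hA) (fun d hd => hd.1) (fun d ⟨hd, h3⟩ he => ⟨he, by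
      have := step _ h3 fun h => hcase ⟨⟨d, hd⟩, he, h.symm⟩
      rwa [hS.e1 ⟨d, hd⟩ ⟨_, he⟩ rfl] at this⟩) with h | h
    · exact hS.right ho hA ⟨hb1, hb2⟩ fun d hd =>
        Set.eq_empty_iff_forall_notMem.1 h d.1 ⟨d.2, hd⟩
    · exact hS.right ho (closed_compl hA) hs fun d hd => hd ((Set.ext_iff.1 h d.1).2 d.2).2

end

/-- a proper union of components is colourable -/
theorem glue_sub (hG : G.MinCex) {S : Set D} (hS : G.Closed S) (he : ∀ d, G.e d ∈ S ↔ d ∈ S)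
    (hne : Sᶜ ≠ ∅) : ∃ c : D → K, ∀ d ∈ S, c (G.e d) = c d ∧ c d ≠ 0 ∧ G.vsum c d = 0 := by
  classical
  let G' : Map {d // d ∈ S} := ⟨G.e.subtypePerm he, G.n.subtypePerm hS,
    fun d => Subtype.ext (G.ee d.1), fun d h => G.e_ne d.1 (congrArg Subtype.val h),
    fun d h => G.n_ne d.1 (congrArg Subtype.val h),
    fun d => (G.n23 d.1).imp Subtype.ext Subtype.ext⟩
  have ext : ∀ {M : Type} [AddZeroClass M] (c' : {d // d ∈ S} → M), G'.Cyc c' →
      ∃ c : D → M, G.Cyc c ∧ ∀ d : {d // d ∈ S}, c d.1 = c' d := by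
    intro M _ c' hc
    let c : D → M := fun d => if h : d ∈ S then c' ⟨d, h⟩ else 0
    have h1 : ∀ d : {d // d ∈ S}, c d.1 = c' d := fun d => dif_pos d.2
    have h0 : ∀ d ∉ S, c d = 0 := fun d h => dif_neg h
    refine ⟨c, ⟨fun d => ?_, fun d => ?_⟩, h1⟩
    · by_cases h : d ∈ S
      · exact (h1 (G'.e ⟨d, h⟩)).trans ((hc.1 _).trans (h1 ⟨d, h⟩).symm)
      · rw [h0 d h, h0 _ (mt (he d).1 h)]
    · by_cases h : d ∈ S
      · rw [← hc.2 ⟨d, h⟩]
        exact glue_vsum (h1 ⟨d, h⟩) (h1 (G'.n ⟨d, h⟩)) (h1 (G'.n (G'.n ⟨d, h⟩)))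
          ⟨fun a => Subtype.ext a, fun a => congrArg Subtype.val a⟩
      · have a1 : G.n d ∉ S := mt (hS d).1 h
        unfold vsum
        rw [h0 d h, h0 _ a1, h0 _ (mt (hS _).1 a1)]
        simp
  obtain ⟨d0, hd0⟩ := Set.nonempty_iff_ne_empty.2 hne
  obtain ⟨c', hc, hc0⟩ := hG.min _ G' (Fintype.card_subtype_lt (x := d0) hd0)
    (fun c' hc => by
      obtain ⟨c, h1, h2⟩ := ext c' hc
      obtain ⟨h, h3, h4⟩ := hG.planar c h1
      exact ⟨fun d => h d.1, fun d => h3 d.1, fun d => (h2 d).symm.trans (h4 d.1)⟩)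
    (fun A' hA b hb => by
      obtain ⟨d, ⟨⟨hd, h1⟩, h2⟩, h3⟩ := hG.bridgeless {d | ∃ h : d ∈ S, ⟨d, h⟩ ∈ A'}
        (fun d => ⟨fun ⟨h, a⟩ => ⟨(hS d).1 h, (hA ⟨d, (hS d).1 h⟩).1 a⟩,
          fun ⟨h, a⟩ => ⟨(hS d).2 h, (hA ⟨d, h⟩).2 a⟩⟩) b.1 ⟨⟨b.2, hb.1⟩, fun ⟨_, a⟩ => hb.2 a⟩
      exact ⟨⟨d, hd⟩, ⟨h1, fun a => h2 ⟨(he d).2 hd, a⟩⟩, fun a => h3 (congrArg Subtype.val a)⟩)
  obtain ⟨c, h1, h2⟩ := ext c' hc
  exact ⟨c, fun d hd => ⟨h1.1 d, by rw [h2 ⟨d, hd⟩]; exact hc0 _, h1.2 d⟩⟩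

/-- TASK Glue. The map on `{d // d ∉ A} ⊕ Fin q`: `n` acts on each part; `e` exchanges `e (l j)`
with `g j` and is the old `e` elsewhere (a dart `d ∉ A` with `e d ∈ A` has `e d = l j` by `inner`).
Planar: a cycle `c'` gives a flow outside `A` (value `c' (g j)` on `l j`), `outer_planar` gives `h`,
put `η j = h (l j)` and use `Γ.planar`; note `h (e (l j)) = η ((j+1) % r)` and
`h (n (e (l j))) = h (f (l j))`. Bridgeless: let `A'` be closed with the single out dart `β`, and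
`B` its part outside `A`. If the edge of `β` joins two darts outside `A`, the gadget part of `A'` is
empty or everything (`Γ.conn`), and `B` or `B ∪ A` is a closed set of `G` with a single out dart.
Otherwise `Conn Aᶜ` makes `B` empty or everything; apply `Γ.two` to the gadget part of `A'` or to
its complement. -/
theorem glue (hG : G.MinCex) {A : Set D} {r q : ℕ} {l : ℕ → D} (hR : G.Ring A r l)
    (ho : ∀ j < r, l j ∈ G.out A) (h2 : G.Conn Aᶜ) (Γ : Gadget q r) (hq : q < A.ncard) :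
    ∃ κ, G.Trace A r l κ ∧ Γ.Col κ := by
  classical
  obtain ⟨G', hS⟩ := glue_exists hR ho Γ
  have hcard : Fintype.card ({d // d ∉ A} ⊕ Fin q) < Fintype.card D := by
    have h1 : Fintype.card {d // d ∉ A} = Aᶜ.ncard := by
      rw [← Nat.card_eq_fintype_card]
      exact Nat.card_coe_set_eq Aᶜ
    have h3 := Set.ncard_add_ncard_compl A
    rw [Nat.card_eq_fintype_card] at h3
    rw [Fintype.card_sum, Fintype.card_fin, h1]
    omega
  obtain ⟨c', hc, h0⟩ := hG.min _ G' hcard (hS.planar hG.cubic hG.planar hR ho)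
    (hS.bridgeless hG.bridgeless hR ho h2)
  obtain ⟨⟨c, a1, a2, a3, a4⟩, a5, a6⟩ := hS.pull hR ho hc
  refine ⟨fun j => c' (.inr (Γ.g j)), ⟨c, fun d hd => ⟨a3 d hd, ?_⟩, a4,
    fun j hj => (a2 j hj).symm⟩, fun x => c' (.inr x), fun x => ⟨a5 x, h0 _⟩, a6, fun _ _ => rfl⟩
  rcases hd with hd | ⟨j, hj, rfl⟩
  · rw [a1 ⟨d, hd⟩]
    exact h0 _
  · rw [a2 j hj]
    exact h0 _

/-- a minimal counterexample is connected: both parts (subtypes) would be smaller planar bridgeless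
maps -/
theorem cut_zero (hG : G.MinCex) {A : Set D} (hA : G.Closed A) (h : G.out A = ∅) :
    A = ∅ ∨ Aᶜ = ∅ := by
  classical
  by_contra hn
  rw [not_or] at hn
  have h1 : ∀ d ∈ A, G.e d ∈ A := fun d hd => by
    by_contra h'
    exact Set.eq_empty_iff_forall_notMem.1 h d ⟨hd, h'⟩
  have he : ∀ d, G.e d ∈ A ↔ d ∈ A := fun d => ⟨fun a => G.ee d ▸ h1 _ a, h1 d⟩
  obtain ⟨c1, hc1⟩ := glue_sub hG hA he hn.2
  obtain ⟨c2, hc2⟩ := glue_sub hG (closed_compl hA) (fun d => not_congr (he d))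
    (by rw [compl_compl]; exact hn.1)
  refine hG.not_col ⟨fun d => if d ∈ A then c1 d else c2 d, ⟨fun d => ?_, fun d => ?_⟩,
    fun d => ?_⟩
  · by_cases hd : d ∈ A
    · simp only [he, hd, if_true, (hc1 d hd).1]
    · simp only [he, hd, if_false, (hc2 d hd).1]
  · by_cases hd : d ∈ A
    · rw [← (hc1 d hd).2.2]
      exact glue_vsum (if_pos hd) (if_pos ((hA d).2 hd)) (if_pos ((hA _).2 ((hA d).2 hd))) Iff.rfl
    · rw [← (hc2 d hd).2.2]
      exact glue_vsum (if_neg hd) (if_neg (mt (hA d).1 hd))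
        (if_neg (mt (hA _).1 (mt (hA d).1 hd))) Iff.rfl
  · by_cases hd : d ∈ A
    · simp only [hd, if_true]
      exact (hc1 d hd).2.1
    · simp only [hd, if_false]
      exact (hc2 d hd).2.1

end Pool.Agent.MP_8c1b0d_co.CT4.Map

/-! Birkhoff: cuts with at most five edges have a small side. -/

namespace Pool.Agent.MP_8c1b0d_co.CT4.Map

open Equiv Finset Function

variable {D : Type} [Fintype D] {G : Map D}

/-- the hypotheses of the lemmas on meeting Kempe closed sets -/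
def CutHyp (r : ℕ) (S : (ℕ → K) → Prop) : Prop :=
  (r = 2 ∨ r = 3 → ∃ κ, S κ) ∧
  (r = 4 → ∀ s < 4, ∃ κ, S κ ∧ κ s ≠ κ ((s + 1) % 4)) ∧
  (r = 5 → (∀ s < 5, ∃ κ, S κ ∧ κ s ≠ κ ((s + 1) % 5) ∧ κ ((s + 3) % 5) ≠ κ ((s + 4) % 5)) ∧
    ∃ κ, S κ ∧ ∃ j < 5, κ j = κ ((j + 1) % 5) ∧ κ j = κ ((j + 2) % 5))

theorem cut_rev {r : ℕ} {S : (ℕ → K) → Prop} (hS : KempeClosed r S) (h : CutHyp r S) :
    CutHyp r fun κ => S fun j => κ ((r - j) % r) := by
  have key : ∀ κ, S κ → S fun j => κ ((r - (r - j) % r) % r) := fun κ hκ =>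
    hS.ext _ _ (fun j hj => by
      rcases Nat.eq_zero_or_pos j with rfl | h0
      · simp
      · rw [Nat.mod_eq_of_lt (show r - j < r by omega), Nat.sub_sub_self hj.le,
          Nat.mod_eq_of_lt hj]) hκ
  refine ⟨fun hr => ?_, fun hr s hs => ?_, fun hr => ⟨fun s hs => ?_, ?_⟩⟩
  · obtain ⟨κ, hκ⟩ := h.1 hr
    exact ⟨fun j => κ ((r - j) % r), key κ hκ⟩
  · obtain ⟨κ, hκ, h1⟩ := h.2.1 hr ((7 - s) % 4) (Nat.mod_lt _ (by norm_num))
    refine ⟨fun j => κ ((r - j) % r), key κ hκ, ?_⟩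
    subst hr
    interval_cases s <;> exact h1.symm
  · obtain ⟨κ, hκ, h1, h2⟩ := (h.2.2 hr).1 ((6 - s) % 5) (Nat.mod_lt _ (by norm_num))
    refine ⟨fun j => κ ((r - j) % r), key κ hκ, ?_⟩
    subst hr
    interval_cases s <;> exact ⟨h2.symm, h1.symm⟩
  · obtain ⟨κ, hκ, j, hj, h1, h2⟩ := (h.2.2 hr).2
    refine ⟨fun j => κ ((r - j) % r), key κ hκ, (8 - j) % 5, Nat.mod_lt _ (by norm_num), ?_⟩
    subst hr
    interval_cases j <;> exact ⟨h2.symm.trans h1, h2.symm⟩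

theorem cut_meet {r : ℕ} {S T : (ℕ → K) → Prop} (h2 : 2 ≤ r) (h5 : r ≤ 5) (hS : KempeClosed r S)
    (hT : KempeClosed r T) (a : CutHyp r S) (b : CutHyp r T) : ∃ κ, S κ ∧ T κ := by
  interval_cases r
  · exact meet2 hS hT (a.1 (Or.inl rfl)) (b.1 (Or.inl rfl))
  · exact meet3 hS hT (a.1 (Or.inr rfl)) (b.1 (Or.inr rfl))
  · exact meet4 hS hT (a.2.1 rfl) (b.2.1 rfl)
  · exact meet5 hS hT (a.2.2 rfl).1 (b.2.2 rfl).1 (a.2.2 rfl).2 (b.2.2 rfl).2

theorem cut_three (hc : G.Cubic) {A : Set D} (hA : G.Closed A) (h : 0 < A.ncard) : 2 < A.ncard := by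
  obtain ⟨d, hd⟩ := (Set.ncard_pos (Set.toFinite A)).1 h
  refine (Set.two_lt_ncard (Set.toFinite A)).2 ⟨d, hd, G.n d, (hA d).2 hd, G.n (G.n d),
    (hA _).2 ((hA d).2 hd), (G.n_ne d).symm, fun h => ?_, (G.n_ne _).symm⟩
  have := hc d
  rw [← h] at this
  exact G.n_ne d this

theorem cut_side (hG : G.MinCex) {A : Set D} {r : ℕ} {l : ℕ → D} (hR : G.Ring A r l)
    (ho : ∀ j < r, l j ∈ G.out A) (h2 : G.Conn Aᶜ) (hb : small r < A.ncard) :
    CutHyp r (G.Trace A r l) := by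
  have rot : ∀ {q : ℕ} (Γ : Gadget q r), q < A.ncard → ∀ s < r, ∃ κ κ', G.Trace A r l κ' ∧ Γ.Col κ ∧
      ∀ j < r, κ' ((j + s) % r) = κ j := fun Γ hq s hs => by
    obtain ⟨κ, h1, h3⟩ := glue hG (hR.rotate s) (fun j _ => ho _ (Nat.mod_lt _ (by omega))) h2 Γ hq
    obtain ⟨κ', h4, h5⟩ := h1.of_rotate hs
    exact ⟨κ, κ', h4, h3, h5⟩
  refine ⟨?_, ?_, ?_⟩
  · rintro (rfl | rfl)
    · obtain ⟨Γ⟩ := gadgetU
      obtain ⟨κ, h, -⟩ := glue hG hR ho h2 Γ (cut_three hG.cubic hR.closed hb)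
      exact ⟨κ, h⟩
    · obtain ⟨Γ⟩ := gadgetY
      obtain ⟨κ, h, -⟩ := glue hG hR ho h2 Γ hb
      exact ⟨κ, h⟩
  · rintro rfl s hs
    obtain ⟨Γ, hΓ⟩ := gadgetH
    obtain ⟨κ, κ', h1, h3, h4⟩ := rot Γ hb s hs
    refine ⟨κ', h1, ?_⟩
    have a0 := h4 0 (by norm_num)
    have a1 := h4 1 (by norm_num)
    rw [zero_add, Nat.mod_eq_of_lt hs] at a0
    rw [a0, add_comm, a1]
    exact hΓ κ h3
  · rintro rfl
    have hb' : 15 < A.ncard := hb
    refine ⟨fun s hs => ?_, ?_⟩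
    · obtain ⟨Γ, hΓ⟩ := gadgetF
      obtain ⟨κ, κ', h1, h3, h4⟩ := rot Γ (by omega) s hs
      refine ⟨κ', h1, ?_⟩
      have a0 := h4 0 (by norm_num)
      rw [zero_add, Nat.mod_eq_of_lt hs] at a0
      rw [a0, add_comm s, add_comm s, add_comm s, h4 1 (by norm_num), h4 3 (by norm_num),
        h4 4 (by norm_num)]
      exact hΓ κ h3
    · obtain ⟨Γ, hΓ⟩ := gadgetW
      obtain ⟨κ, h, h'⟩ := glue hG hR ho h2 Γ hb'
      exact ⟨κ, h, hΓ κ h'⟩

theorem cut_main (hG : G.MinCex) {A : Set D} (hA : G.Closed A) (h1 : G.Conn A) (h2 : G.Conn Aᶜ)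
    (m2 : 2 ≤ (G.out A).ncard) (m5 : (G.out A).ncard ≤ 5) (b1 : small (G.out A).ncard < A.ncard)
    (b2 : small (G.out A).ncard < Aᶜ.ncard) : False := by
  obtain ⟨l, hR, ho⟩ := ring_of_cut hG.cubic hG.planar hA h1 h2
    ((Set.ncard_pos (Set.toFinite _)).1 (by omega))
  have hR' := hR.compl hG.cubic ho h2
  have k2 := kempeClosed hG.cubic hG.planar hR'
  have s2 := cut_side hG hR' (fun j _ => by
    rw [mem_out_compl, G.ee]; exact ho _ (Nat.mod_lt _ (by omega))) (by rwa [compl_compl]) b2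
  obtain ⟨κ, t1, t2⟩ := cut_meet m2 m5 (kempeClosed hG.cubic hG.planar hR) k2.reverse
    (cut_side hG hR ho h2 b1) (cut_rev k2 s2)
  exact hG.not_col (colourable_of_traces hR ho t1 t2)

theorem cut_ge_two (hG : G.MinCex) {A : Set D} (hA : G.Closed A) (h1 : A.Nonempty)
    (h2 : Aᶜ.Nonempty) : 2 ≤ (G.out A).ncard := by
  rcases (G.out A).eq_empty_or_nonempty with h | ⟨b, hb⟩
  · exact (cut_zero hG hA h).elim (absurd · h1.ne_empty) (absurd · h2.ne_empty)
  · obtain ⟨d, hd, hne⟩ := hG.bridgeless A hA b hb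
    exact (Set.one_lt_ncard (Set.toFinite _)).2 ⟨d, hd, b, hb, hne⟩

theorem cut_conn {k : ℕ} (hk : ∀ A : Set D, G.Closed A → A.Nonempty → Aᶜ.Nonempty → k ≤ (G.out A).ncard)
    {A : Set D} (hA : G.Closed A) (h2 : Aᶜ.Nonempty) (hm : (G.out A).ncard < 2 * k) : G.Conn A := by
  intro B hB hBA he
  by_contra hcon
  push Not at hcon
  obtain ⟨x, hx⟩ := h2
  have c1 := hk B hB hcon.1 ⟨x, fun h => hx (hBA h)⟩
  have c2 := hk (A \ B) (fun d => by simp only [Set.mem_sdiff, hA d, hB d])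
    (Set.sdiff_nonempty.2 fun h => hcon.2 (hBA.antisymm h)) ⟨x, fun h => hx h.1⟩
  have hu : G.out B ∪ G.out (A \ B) ⊆ G.out A := by
    rintro d (⟨a, b⟩ | ⟨a, b⟩)
    · exact ⟨hBA a, fun h => b (he d a h)⟩
    · refine ⟨a.1, fun h => b ⟨h, fun h' => a.2 ?_⟩⟩
      have := he _ h' (by rw [G.ee]; exact a.1)
      rwa [G.ee] at this
  have hd : Disjoint (G.out B) (G.out (A \ B)) := Set.disjoint_left.2 fun d a b => b.1.2 a.1
  have := Set.ncard_le_ncard hu (Set.toFinite _)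
  rw [Set.ncard_union_eq hd (Set.toFinite _) (Set.toFinite _)] at this
  omega

theorem cut_step (hG : G.MinCex) {k : ℕ}
    (hk : ∀ A : Set D, G.Closed A → A.Nonempty → Aᶜ.Nonempty → k ≤ (G.out A).ncard)
    {A : Set D} (hA : G.Closed A) (hm : (G.out A).ncard < 2 * k) (m5 : (G.out A).ncard ≤ 5)
    (b1 : small (G.out A).ncard < A.ncard) (b2 : small (G.out A).ncard < Aᶜ.ncard) : False := by
  have n1 : A.Nonempty := (Set.ncard_pos (Set.toFinite _)).1 (by omega)
  have n2 : Aᶜ.Nonempty := (Set.ncard_pos (Set.toFinite _)).1 (by omega)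
  exact cut_main hG hA (cut_conn hk hA n2 hm)
    (cut_conn hk (closed_compl hA) (by rwa [compl_compl]) (by rwa [ncard_out_compl]))
    (cut_ge_two hG hA n1 n2) m5 b1 b2

/-- TASK Cut. Strong induction on `m = ncard (out A)` for all `A`. `m = 0`: `cut_zero`; `m = 1`: a
bridge. Let `m ≥ 2` and both sides be large. `Conn A`: if `B ⊆ A` splits `A` properly, then
`out A` is the disjoint union of `out B` and `out (A \ B)`; both have at least one dart
(`cut_zero`), so fewer than `m`; not one (bridge), not two (induction, `small 2 = 0`), so `m ≥ 6`.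
Same for `Aᶜ` (`ncard_out_compl`). Take the rings of `ring_of_cut` and `Ring.compl`, let `S` be the
trace set of `A` and `T` the reversed trace set of `Aᶜ` (`kempeClosed`, `KempeClosed.reverse`).
`glue` with the gadgets on rotated rings (`Ring.rotate`, `Trace.of_rotate`) gives the hypotheses of
`meet2 … meet5` (for `m = 2` the side has at least three darts `d`, `n d`, `n (n d)`; prove one
lemma for an arbitrary ring and apply it to both sides; the hypotheses are invariant under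
reversal), and `colourable_of_traces` contradicts `not_col`. -/
theorem cut (hG : G.MinCex) (A : Set D) (hA : G.Closed A) (h5 : (G.out A).ncard ≤ 5) :
    A.ncard ≤ small (G.out A).ncard ∨ Aᶜ.ncard ≤ small (G.out A).ncard := by
  by_contra hcon
  push Not at hcon
  refine cut_step hG (k := 3) (fun B hB n1 n2 => ?_) hA (by omega) h5 hcon.1 hcon.2
  by_contra h3
  have h2 : (G.out B).ncard = 2 := by have := cut_ge_two hG hB n1 n2; omega
  exact cut_step hG (k := 2) (fun _ => cut_ge_two hG) hB (by omega) (by omega)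
    (by rw [h2]; exact (Set.ncard_pos (Set.toFinite _)).2 n1)
    (by rw [h2]; exact (Set.ncard_pos (Set.toFinite _)).2 n2)

end Pool.Agent.MP_8c1b0d_co.CT4.Map

/-! Deleting a sparse set of edges. -/

namespace Pool.Agent.MP_8c1b0d_co.CT4.Map

open Equiv Finset Function

variable {D : Type} [Fintype D] {G : Map D}

omit [Fintype D] in
theorem Del_nn_ne (hc : G.Cubic) (d : D) : G.n (G.n d) ≠ d := fun h =>
  G.n_ne d (by have := hc d; rwa [h] at this)

omit [Fintype D] in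
theorem Del_vsum (hc : G.Cubic) {A : Type} [Add A] (c : D → A) (d : D) :
    G.vsum c d = c d + c (G.n d) + c (G.n (G.n d)) := if_neg (Del_nn_ne hc d)

open scoped Classical in
/-- the rotation that skips the darts of `Z` -/
noncomputable def Del_n (hc : G.Cubic) (Z : Set D) (hs : ∀ d ∈ Z, G.n d ∉ Z) :
    Perm {d // d ∉ Z} where
  toFun d := if h : G.n d.1 ∈ Z then ⟨G.n (G.n d.1), hs _ h⟩ else ⟨G.n d.1, h⟩
  invFun d := if h : G.n (G.n d.1) ∈ Z then ⟨G.n d.1, fun h' => hs _ h' h⟩ else ⟨G.n (G.n d.1), h⟩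
  left_inv d := by
    by_cases h : G.n d.1 ∈ Z
    · simp [h, hc d.1]
    · simp [h, hc d.1, d.2]
  right_inv d := by
    by_cases h : G.n (G.n d.1) ∈ Z
    · simp [h, hc d.1]
    · simp [h, hc d.1, d.2]

omit [Fintype D] in
theorem Del_n_pos (hc : G.Cubic) (Z : Set D) (hs : ∀ d ∈ Z, G.n d ∉ Z) (d : {d // d ∉ Z})
    (h : G.n d.1 ∈ Z) : Del_n hc Z hs d = ⟨G.n (G.n d.1), hs _ h⟩ := dif_pos h

omit [Fintype D] in
theorem Del_n_neg (hc : G.Cubic) (Z : Set D) (hs : ∀ d ∈ Z, G.n d ∉ Z) (d : {d // d ∉ Z})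
    (h : G.n d.1 ∉ Z) : Del_n hc Z hs d = ⟨G.n d.1, h⟩ := dif_neg h

omit [Fintype D] in
/-- the three shapes of a vertex -/
theorem Del_cases (hc : G.Cubic) (Z : Set D) (hs : ∀ d ∈ Z, G.n d ∉ Z) (d : {d // d ∉ Z}) :
    (G.n d.1 ∈ Z ∧ (Del_n hc Z hs d).1 = G.n (G.n d.1) ∧ Del_n hc Z hs (Del_n hc Z hs d) = d) ∨
    (G.n (G.n d.1) ∈ Z ∧ (Del_n hc Z hs d).1 = G.n d.1 ∧ Del_n hc Z hs (Del_n hc Z hs d) = d) ∨
    ((Del_n hc Z hs d).1 = G.n d.1 ∧ (Del_n hc Z hs (Del_n hc Z hs d)).1 = G.n (G.n d.1) ∧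
      Del_n hc Z hs (Del_n hc Z hs (Del_n hc Z hs d)) = d) := by
  have h3 : G.n (G.n (G.n d.1)) ∉ Z := by rw [hc]; exact d.2
  by_cases h : G.n d.1 ∈ Z
  · refine Or.inl ⟨h, by rw [Del_n_pos hc Z hs d h], ?_⟩
    rw [Del_n_pos hc Z hs d h, Del_n_neg hc Z hs _ h3]
    exact Subtype.ext (hc _)
  · by_cases h' : G.n (G.n d.1) ∈ Z
    · refine Or.inr (Or.inl ⟨h', by rw [Del_n_neg hc Z hs d h], ?_⟩)
      rw [Del_n_neg hc Z hs d h, Del_n_pos hc Z hs _ h']
      exact Subtype.ext (hc _)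
    · refine Or.inr (Or.inr ⟨by rw [Del_n_neg hc Z hs d h],
        by rw [Del_n_neg hc Z hs d h, Del_n_neg hc Z hs _ h'], ?_⟩)
      rw [Del_n_neg hc Z hs d h, Del_n_neg hc Z hs ⟨G.n d.1, h⟩ h',
        Del_n_neg hc Z hs ⟨G.n (G.n d.1), h'⟩ h3]
      exact Subtype.ext (hc _)

/-- the map without the edges of `Z` -/
noncomputable def Del_map (hc : G.Cubic) (Z : Set D) (he : ∀ d ∈ Z, G.e d ∈ Z)
    (hs : ∀ d ∈ Z, G.n d ∉ Z) : Map {d // d ∉ Z} where
  e := Function.Involutive.toPerm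
    (fun d => ⟨G.e d.1, fun h => d.2 (by have := he _ h; rwa [G.ee] at this)⟩)
    fun d => Subtype.ext (G.ee d.1)
  n := Del_n hc Z hs
  ee d := Subtype.ext (G.ee d.1)
  e_ne d h := G.e_ne d.1 (congrArg Subtype.val h)
  n_ne d h := by
    have h1 := congrArg Subtype.val h
    rcases Del_cases hc Z hs d with h2 | h2 | h2
    · exact Del_nn_ne hc _ (h2.2.1.symm.trans h1)
    · exact G.n_ne _ (h2.2.1.symm.trans h1)
    · exact G.n_ne _ (h2.1.symm.trans h1)
  n23 d := by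
    rcases Del_cases hc Z hs d with h2 | h2 | h2
    · exact Or.inl h2.2.2
    · exact Or.inl h2.2.2
    · exact Or.inr h2.2.2

omit [Fintype D] in
/-- extension of a flow by zero -/
theorem Del_ext (hc : G.Cubic) (Z : Set D) (he : ∀ d ∈ Z, G.e d ∈ Z) (hs : ∀ d ∈ Z, G.n d ∉ Z)
    {A : Type} [AddCommMonoid A] (c' : {d // d ∉ Z} → A) (h : (Del_map hc Z he hs).Cyc c') :
    ∃ c : D → A, G.Cyc c ∧ (∀ d ∈ Z, c d = 0) ∧ ∀ d : {d // d ∉ Z}, c d.1 = c' d := by
  classical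
  obtain ⟨c, h0, h1⟩ : ∃ c : D → A, (∀ d ∈ Z, c d = 0) ∧ ∀ d : {d // d ∉ Z}, c d.1 = c' d :=
    ⟨fun d => if h : d ∈ Z then 0 else c' ⟨d, h⟩, fun d hd => dif_pos hd, fun d => dif_neg d.2⟩
  have key : ∀ d : {d // d ∉ Z}, c d.1 + c (G.n d.1) + c (G.n (G.n d.1)) = 0 := by
    intro d
    have h2 := h.2 d
    unfold vsum at h2
    have hn : (Del_map hc Z he hs).n = Del_n hc Z hs := rfl
    rw [hn] at h2
    rcases Del_cases hc Z hs d with h3 | h3 | h3
    · rw [if_pos h3.2.2, ← h1, ← h1, h3.2.1] at h2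
      rw [h0 _ h3.1, add_zero, h2]
    · rw [if_pos h3.2.2, ← h1, ← h1, h3.2.1] at h2
      rw [h0 _ h3.1, add_zero, h2]
    · rw [if_neg fun h4 => Del_nn_ne hc _ (h3.2.1.symm.trans (congrArg Subtype.val h4)),
        ← h1, ← h1, ← h1, h3.1, h3.2.1] at h2
      exact h2
  refine ⟨c, ⟨fun d => ?_, fun d => ?_⟩, h0, h1⟩
  · by_cases hd : d ∈ Z
    · rw [h0 d hd, h0 _ (he d hd)]
    · exact (h1 ((Del_map hc Z he hs).e ⟨d, hd⟩)).trans ((h.1 _).trans (h1 ⟨d, hd⟩).symm)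
  · rw [Del_vsum hc]
    by_cases hd : d ∈ Z
    · have h2 := key ⟨G.n d, hs d hd⟩
      simp only [hc d] at h2
      rw [add_assoc, add_comm, h2]
    · exact key ⟨d, hd⟩

/-- TASK Del. The map on `{d // d ∉ Z}` with the same `e` and `n' d = if n d ∈ Z then n (n d) else
n d` is smaller, planar (extend a cycle by zero; `h (n z) = h (e z) = h z` for `z ∈ Z`, so
`h (f' d) = h d`) and bridgeless (add to a closed set the darts `z ∈ Z` with `n z` in it). -/
theorem del_flow (hG : G.MinCex) (Z : Set D) (he : ∀ d ∈ Z, G.e d ∈ Z) (hne : Z.Nonempty)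
    (hs : ∀ d ∈ Z, G.n d ∉ Z)
    (hb : ∀ A : Set D, G.Closed A → ∀ b ∈ G.out A, b ∉ Z → ∃ d ∈ G.out A, d ∉ Z ∧ d ≠ b) :
    ∃ c : D → K, G.Cyc c ∧ ∀ d, c d = 0 ↔ d ∈ Z := by
  classical
  have hc := hG.cubic
  obtain ⟨z₀, hz₀⟩ := hne
  have hcard : Fintype.card {d // d ∉ Z} < Fintype.card D :=
    Fintype.card_subtype_lt (x := z₀) (not_not.2 hz₀)
  have hpl : (Del_map hc Z he hs).Planar := by
    intro c' hc'
    obtain ⟨c, h1, h0, h2⟩ := Del_ext hc Z he hs c' hc'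
    obtain ⟨h, hf, hh⟩ := hG.planar c h1
    refine ⟨fun d => h d.1, fun d => ?_, fun d => (h2 d).symm.trans (hh d.1)⟩
    show h (Del_n hc Z hs ((Del_map hc Z he hs).e d)).1 = h d.1
    by_cases hz : G.n (G.e d.1) ∈ Z
    · rw [Del_n_pos hc Z hs _ hz]
      show h (G.n (G.n (G.e d.1))) = h d.1
      have a1 := hf (G.e (G.n (G.e d.1)))
      have a2 := hh (G.n (G.e d.1))
      have a3 := hf d.1
      rw [f_apply, G.ee] at a1
      rw [f_apply] at a3
      rw [h0 _ hz, a3, ← a1] at a2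
      have a4 : ∀ x y : ZMod 2, 0 = x + y → y = x := by decide
      exact a4 _ _ a2
    · rw [Del_n_neg hc Z hs _ hz]
      exact hf d.1
  have hbr : (Del_map hc Z he hs).Bridgeless := by
    intro A' hA' b hb'
    let A : Set D := {d | d ∈ Subtype.val '' A' ∨ (d ∈ Z ∧ G.n d ∈ Subtype.val '' A')}
    have hP : ∀ d : {d // d ∉ Z}, d.1 ∈ Subtype.val '' A' ↔ d ∈ A' := fun d =>
      Subtype.val_injective.mem_set_image
    have hin : ∀ d : {d // d ∉ Z}, d.1 ∈ A ↔ d ∈ A' := fun d =>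
      ⟨fun h => h.elim (hP d).1 fun h => absurd h.1 d.2, fun h => Or.inl ((hP d).2 h)⟩
    have hZ : ∀ d (h : d ∈ Z), d ∈ A ↔ (⟨G.n d, hs d h⟩ : {d // d ∉ Z}) ∈ A' := fun d h =>
      ⟨fun h1 => h1.elim (fun ⟨x, _, hx⟩ => absurd (hx ▸ h) x.2)
        fun h1 => (hP ⟨G.n d, hs d h⟩).1 h1.2, fun h1 => Or.inr ⟨h, (hP ⟨G.n d, hs d h⟩).2 h1⟩⟩
    have hA : G.Closed A := by
      intro d
      by_cases hd : d ∈ Z
      · exact (hin ⟨G.n d, hs d hd⟩).trans (hZ d hd).symm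
      · have h1 : Del_n hc Z hs ⟨d, hd⟩ ∈ A' ↔ (⟨d, hd⟩ : {d // d ∉ Z}) ∈ A' := hA' ⟨d, hd⟩
        by_cases hn : G.n d ∈ Z
        · rw [Del_n_pos hc Z hs ⟨d, hd⟩ hn] at h1
          exact (hZ _ hn).trans (h1.trans (hin ⟨d, hd⟩).symm)
        · rw [Del_n_neg hc Z hs ⟨d, hd⟩ hn] at h1
          exact (hin ⟨_, hn⟩).trans (h1.trans (hin ⟨d, hd⟩).symm)
    have hout : ∀ d : {d // d ∉ Z}, d.1 ∈ G.out A ↔ d ∈ (Del_map hc Z he hs).out A' := fun d =>
      and_congr (hin d) (not_congr (hin ((Del_map hc Z he hs).e d)))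
    obtain ⟨d, hd, hdZ, hdb⟩ := hb A hA b.1 ((hout b).2 hb') b.2
    exact ⟨⟨d, hdZ⟩, (hout ⟨d, hdZ⟩).1 hd, fun h => hdb (congrArg Subtype.val h)⟩
  obtain ⟨c', hc', hne'⟩ := hG.min _ (Del_map hc Z he hs) hcard hpl hbr
  obtain ⟨c, h1, h0, h2⟩ := Del_ext hc Z he hs c' hc'
  refine ⟨c, h1, fun d => ⟨fun h => ?_, h0 d⟩⟩
  by_contra hd
  exact hne' ⟨d, hd⟩ ((h2 ⟨d, hd⟩).symm.trans h)

/-- a closed set with more than `ncard / 3` chosen darts has two of them at one vertex: otherwise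
`O`, `n '' O`, `n '' (n '' O)` are disjoint subsets of `A` -/
theorem ear (hc : G.Cubic) {A O : Set D} (hA : G.Closed A) (hO : O ⊆ A)
    (h : A.ncard < 3 * O.ncard) : ∃ a ∈ O, G.n a ∈ O := by
  by_contra hn
  have hn' : ∀ a ∈ O, G.n a ∉ O := fun a ha h => hn ⟨a, ha, h⟩
  have d1 : Disjoint O (G.n '' O) := by
    rw [Set.disjoint_left]
    rintro _ ha ⟨b, hb, rfl⟩
    exact hn' b hb ha
  have d2 : Disjoint (O ∪ G.n '' O) (G.n '' (G.n '' O)) := by
    rw [Set.disjoint_left]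
    rintro _ ha ⟨_, ⟨b, hb, rfl⟩, rfl⟩
    rcases ha with ha | ⟨a, ha, h1⟩
    · exact hn' _ ha (by rw [hc]; exact hb)
    · exact hn' b hb (G.n.injective h1 ▸ ha)
  have hsub : O ∪ G.n '' O ∪ G.n '' (G.n '' O) ⊆ A := by
    rintro x ((ha | ⟨b, hb, rfl⟩) | ⟨_, ⟨b, hb, rfl⟩, rfl⟩)
    · exact hO ha
    · exact (hA b).2 (hO hb)
    · exact (hA _).2 ((hA b).2 (hO hb))
  have h1 := Set.ncard_le_ncard hsub
  rw [Set.ncard_union_eq d2, Set.ncard_union_eq d1,
    Set.ncard_image_of_injective (G.n '' O) G.n.injective,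
    Set.ncard_image_of_injective O G.n.injective] at h1
  omega

/-- If `out A ⊆ Z ∪ {b}` with `b ∉ Z`, then `out A` has `m ≤ 4` darts (one per edge), `m ≥ 2` since
there is no bridge; on the small side given by `cut` there are `m - 1` darts of `Z` and at most
`small m < 3 * (m - 1)` darts, so `ear` contradicts `hs`. -/
theorem contract_flow (hG : G.MinCex) (Z : Set D) (he : ∀ d ∈ Z, G.e d ∈ Z) (hne : Z.Nonempty)
    (hs : ∀ d ∈ Z, G.n d ∉ Z) (h6 : Z.ncard ≤ 6) :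
    ∃ c : D → K, G.Cyc c ∧ ∀ d, c d = 0 ↔ d ∈ Z := by
  refine del_flow hG Z he hne hs fun A hA b hb hbZ => ?_
  by_contra hn
  have hOZ : G.out A \ {b} ⊆ Z := fun d hd => by
    by_contra h
    exact hn ⟨d, hd.1, h, hd.2⟩
  have hEZ : G.e '' (G.out A \ {b}) ⊆ Z := by
    rintro _ ⟨d, hd, rfl⟩
    exact he d (hOZ hd)
  have hOA : G.out A \ {b} ⊆ A := fun d hd => hd.1.1
  have hEA : G.e '' (G.out A \ {b}) ⊆ Aᶜ := by
    rintro _ ⟨d, hd, rfl⟩
    exact hd.1.2
  have hE : (G.e '' (G.out A \ {b})).ncard = (G.out A \ {b}).ncard :=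
    Set.ncard_image_of_injective _ G.e.injective
  have h1 := Set.ncard_le_ncard (Set.union_subset hOZ hEZ)
  rw [Set.ncard_union_eq (disjoint_compl_right.mono hOA hEA), hE] at h1
  have h2 : (G.out A \ {b}).ncard + 1 = (G.out A).ncard := Set.ncard_sdiff_singleton_add_one hb
  have h3 : 0 < (G.out A \ {b}).ncard := by
    obtain ⟨d, hd, hdb⟩ := hG.bridgeless A hA b hb
    exact (Set.ncard_pos).2 ⟨d, hd, hdb⟩
  have h4 : small (G.out A).ncard < 3 * (G.out A \ {b}).ncard := by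
    rw [← h2]
    have h5 : (G.out A \ {b}).ncard ≤ 3 := by omega
    generalize (G.out A \ {b}).ncard = m at h3 h5
    interval_cases m <;> decide
  rcases cut hG A hA (by omega) with h | h
  · obtain ⟨a, ha, ha'⟩ := ear hG.cubic hA hOA (h.trans_lt h4)
    exact hs a (hOZ ha) (hOZ ha')
  · obtain ⟨a, ha, ha'⟩ := ear hG.cubic (closed_compl hA) hEA (by rw [hE]; exact h.trans_lt h4)
    exact hs a (hEZ ha) (hEZ ha')

end Pool.Agent.MP_8c1b0d_co.CT4.Map

/-! Closed walks of at most three faces; faces have at least five sides. -/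

namespace Pool.Agent.MP_8c1b0d_co.CT4.Map

open Equiv Finset Function

variable {D : Type} [Fintype D] {G : Map D}

omit [Fintype D] in
theorem short1_fe (x : D) : G.f (G.e x) = G.n x := by rw [f_apply, G.ee]

omit [Fintype D] in
theorem short1_sf (x : D) : G.sf x (G.f x) := ⟨1, by simp⟩

omit [Fintype D] in
theorem short1_sn (x : D) : G.sf (G.e x) (G.n x) := short1_fe x ▸ short1_sf (G.e x)

/-- TASK Short1. `cut_of_walk` with `m = 1` gives a bridge. -/
theorem no_loop (hG : G.MinCex) (x : D) : ¬ G.sf (G.e x) x := by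
  intro h
  obtain ⟨A, hA, h1, -⟩ := cut_of_walk hG.cubic hG.planar 1 (fun _ => x) (fun _ _ => h)
    fun i _ j _ => ⟨fun _ => by omega, (G.e_ne x).symm⟩
  obtain ⟨b, hb⟩ := Set.ncard_eq_one.1 h1
  obtain ⟨d, hd, hne⟩ := hG.bridgeless A hA b (hb ▸ rfl)
  exact hne (by rwa [hb] at hd)

/-- the walk `x`, `e y` gives a cut with two edges and two nonempty sides -/
theorem no_double (hG : G.MinCex) {x y : D} (h : G.sf x y) (h' : G.sf (G.e x) (G.e y)) :
    x = y := by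
  by_contra hne
  have h1 : x ≠ G.e y := fun e => no_loop hG y (e ▸ h)
  have h2 : G.e y ≠ G.e x := fun e => hne (G.e.injective e).symm
  obtain ⟨A, hA, h3, -⟩ := cut_of_walk hG.cubic hG.planar 2 (fun j => if j = 0 then x else G.e y)
    (fun j hj => by
      interval_cases j
      · simpa using h'
      · simpa [G.ee] using h.symm)
    fun i hi j hj => by
      interval_cases i <;> interval_cases j <;>
        simp [G.ee, hne, h1, h1.symm, h2, (G.e_ne x).symm, G.e_ne y]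
  obtain ⟨b, hb⟩ := Set.nonempty_of_ncard_ne_zero (s := G.out A) (by omega)
  have h4 := cut hG A hA (by omega)
  rw [h3] at h4
  rcases h4 with h4 | h4
  · exact Set.ncard_ne_zero_of_mem hb.1 (Set.toFinite _) (Nat.le_zero.1 h4)
  · exact Set.ncard_ne_zero_of_mem (s := Aᶜ) hb.2 (Set.toFinite _) (Nat.le_zero.1 h4)

theorem short1_tri (hG : G.MinCex) {x y z : D} (h1 : G.sf (G.e x) y) (h2 : G.sf (G.e y) z)
    (h3 : G.sf (G.e z) x) {B : Set D} (hB : G.Closed B) (hc : (G.out B).ncard = 3)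
    (hs : B.ncard ≤ 3) (hd : ∀ d, (d ∈ G.out B ∨ G.e d ∈ G.out B) ↔
      (x = d ∨ x = G.e d) ∨ (y = d ∨ y = G.e d) ∨ (z = d ∨ z = G.e d)) :
    y = G.f (G.e x) ∨ G.e x = G.f y := by
  have hxy : ¬ G.sf x y := fun h => no_loop hG x (h1.trans h.symm)
  have hyz : ¬ G.sf y z := fun h => no_loop hG y (h2.trans h.symm)
  have e : G.out B = B := Set.eq_of_subset_of_ncard_le (fun _ h => h.1) (by omega)
  have hn : ∀ d ∈ G.out B, G.n d ∈ G.out B := fun d h => e.symm ▸ (hB d).2 h.1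
  rcases (hd x).2 (.inl (.inl rfl)) with h | h
  · have hf : G.sf y (G.n x) := h1.symm.trans (short1_sn x)
    rcases (hd _).1 (.inl (hn x h)) with (k | k) | (k | k) | (k | k)
    · exact absurd (by rwa [← k] at hf : G.sf y x).symm hxy
    · have k' : G.e x = G.n x := (congrArg G.e k).trans (G.ee _)
      exact absurd (k' ▸ (hn x h).1) h.2
    · exact .inl (k.trans (short1_fe x).symm)
    · have k' : G.e y = G.n x := (congrArg G.e k).trans (G.ee _)
      exact absurd (k' ▸ hf).symm (no_loop hG y)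
    · exact absurd (k ▸ hf) hyz
    · have k' : G.e z = G.n x := (congrArg G.e k).trans (G.ee _)
      exact absurd ((k' ▸ hf).trans h3).symm hxy
  · have h4 := hn _ (hn _ h)
    have h5 : G.f (G.e (G.n (G.n (G.e x)))) = G.e x := by rw [short1_fe, hG.cubic]
    generalize G.n (G.n (G.e x)) = w at h4 h5
    have hf : G.sf (G.e w) y := (h5 ▸ short1_sf (G.e w)).trans h1
    rcases (hd _).1 (.inl h4) with (k | k) | (k | k) | (k | k)
    · exact absurd (by rw [G.ee, k]; exact h4.1) h.2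
    · exact absurd (k ▸ hf) hxy
    · exact absurd (k ▸ hf) (no_loop hG w)
    · exact .inr (k ▸ h5.symm)
    · exact absurd (h3.symm.trans (k ▸ hf)) hxy
    · exact absurd (k ▸ hf).symm hyz

/-- the small side of the cut is one vertex `a`, `n a`, `n (n a)` made of three out darts; `a` leads
from its face to the face of `n a = f (e a)` -/
theorem tri (hG : G.MinCex) {x y z : D} (h1 : G.sf (G.e x) y) (h2 : G.sf (G.e y) z)
    (h3 : G.sf (G.e z) x) : y = G.f (G.e x) ∨ G.e x = G.f y := by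
  have key : ∀ {x y z : D}, G.sf (G.e x) y → G.sf (G.e y) z → G.sf (G.e z) x →
      x ≠ y ∧ y ≠ x ∧ x ≠ G.e y ∧ y ≠ G.e x ∧ x ≠ G.e x := fun {x y z} h1 h2 h3 => by
    have a : x ≠ y := fun e => no_loop hG x (e ▸ h1)
    have b : x ≠ G.e y := fun e => no_loop hG z (h3.trans (e ▸ h2))
    exact ⟨a, a.symm, b, fun e => b (by rw [e, G.ee]), (G.e_ne x).symm⟩
  have k1 := key h1 h2 h3
  have k2 := key h2 h3 h1
  have k3 := key h3 h1 h2
  obtain ⟨A, hA, h4, h5⟩ := cut_of_walk hG.cubic hG.planar 3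
    (fun j => if j = 0 then x else if j = 1 then y else z)
    (fun j hj => by interval_cases j <;> simpa)
    fun i hi j hj => by interval_cases i <;> interval_cases j <;> simp [k1, k2, k3]
  have h6 : ∀ d, (d ∈ G.out A ∨ G.e d ∈ G.out A) ↔
      (x = d ∨ x = G.e d) ∨ (y = d ∨ y = G.e d) ∨ (z = d ∨ z = G.e d) := fun d => by
    rw [h5]
    constructor
    · rintro ⟨j, hj, h⟩
      interval_cases j
      · exact .inl h
      · exact .inr (.inl h)
      · exact .inr (.inr h)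
    · rintro (h | h | h)
      · exact ⟨0, by omega, h⟩
      · exact ⟨1, by omega, h⟩
      · exact ⟨2, by omega, h⟩
  have h7 := cut hG A hA (by omega)
  rw [h4] at h7
  rcases h7 with h7 | h7
  · exact short1_tri hG h1 h2 h3 hA h4 h7 h6
  · refine short1_tri hG h1 h2 h3 (closed_compl hA) ((ncard_out_compl A).trans h4) h7 fun d => ?_
    rw [← h6, mem_out_compl, mem_out_compl, G.ee, or_comm]

theorem short1_ne (hG : G.MinCex) (x : D) : G.n x ≠ G.e x := by
  intro h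
  have h1 : G.f (G.e (G.n (G.n x))) = x := by rw [short1_fe, hG.cubic]
  have h2 : G.n (G.n x) = G.f x := by rw [h, f_apply]
  refine no_loop hG (G.n (G.n x)) ((short1_sf _).trans ?_)
  rw [h1, h2]
  exact short1_sf x

theorem short1_fne (hG : G.MinCex) (x : D) : x ≠ G.f x := fun h =>
  short1_ne hG (G.e x) (by rw [G.ee]; exact h.symm)

theorem short1_sp (hG : G.MinCex) {x y : D} (h : G.sf x y) (hf : y ≠ G.f x) :
    G.n x ≠ y ∧ G.n x ≠ G.e y ∧ G.n (G.e x) ≠ y ∧ G.n (G.e x) ≠ G.e y := by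
  refine ⟨fun k => no_loop hG x ((k ▸ short1_sn x).trans h.symm), fun k => ?_, hf.symm, fun k => ?_⟩
  · exact short1_ne hG x (by rw [k, no_double hG h (k ▸ short1_sn x)])
  · have : G.sf x (G.e y) := k ▸ short1_sf x
    exact no_loop hG y (this.symm.trans h)

theorem short1_recol (hG : G.MinCex) {x y a b : D} (h : G.sf x y) (h1 : y ≠ G.f x)
    (h2 : x ≠ G.f y) (hall : ∀ w, G.sf x w → w = x ∨ w = y ∨ w = a ∨ w = b) : False := by
  classical
  have s1 := short1_sp hG (.refl _ x) (short1_fne hG x)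
  have s2 := short1_sp hG h h1
  have s3 := short1_sp hG h.symm h2
  have s4 := short1_sp hG (.refl _ y) (short1_fne hG y)
  obtain ⟨c, hc, hz⟩ := contract_flow hG {x, G.e x, y, G.e y}
    (by rintro d (rfl | rfl | rfl | rfl) <;> simp [G.ee]) ⟨x, .inl rfl⟩
    (by rintro d (rfl | rfl | rfl | rfl) <;> simp [s1, s2, s3, s4]) (by
      have a1 := Set.ncard_insert_le x {G.e x, y, G.e y}
      have a2 := Set.ncard_insert_le (G.e x) {y, G.e y}
      have a3 := Set.ncard_insert_le y {G.e y}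
      have a4 := Set.ncard_singleton (G.e y)
      omega)
  obtain ⟨g, hg, hcg⟩ := exists_face_col hG.planar c hc
  have hK : ∀ u v : K, u + v = 0 ↔ u = v := by decide
  have hx : g (G.e x) = g x := ((hK _ _).1 ((hcg x).symm.trans ((hz x).2 (by simp)))).symm
  have hy : g (G.e y) = g x :=
    ((hK _ _).1 ((hcg y).symm.trans ((hz y).2 (by simp)))).symm.trans (hg _ _ h.symm)
  obtain ⟨k, k1, k2, k3⟩ := (by decide : ∀ u v w : K, ∃ k, k ≠ u ∧ k ≠ v ∧ k ≠ w)
    (g x) (g (G.e a)) (g (G.e b))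
  have hk : ∀ w, G.sf x w → k ≠ g (G.e w) ∧ ¬ G.sf x (G.e w) := fun w hw => by
    refine ⟨?_, fun h' => no_loop hG w (h'.symm.trans hw)⟩
    rcases hall w hw with rfl | rfl | rfl | rfl
    · rwa [hx]
    · rwa [hy]
    · exact k2
    · exact k3
  refine hG.not_col (colourable_of_face hG.cubic (fun w => if G.sf x w then k else g w)
    (fun d => ?_) fun d => ?_)
  · simp only [Perm.sameCycle_apply_right, hg _ _ (short1_sf d).symm]
  · by_cases h3 : G.sf x d
    · rw [if_pos h3, if_neg (hk d h3).2]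
      exact (hk d h3).1
    by_cases h4 : G.sf x (G.e d)
    · rw [if_neg h3, if_pos h4]
      have := (hk _ h4).1
      rw [G.ee] at this
      exact this.symm
    rw [if_neg h3, if_neg h4]
    intro h5
    rcases (hz d).1 ((hcg d).trans ((hK _ _).2 h5)) with rfl | rfl | rfl | rfl
    · exact h3 (.refl _ _)
    · exact h4 (by rw [G.ee])
    · exact h3 h
    · exact h4 (by rwa [G.ee])

theorem short1_orb {x : D} {P : D → Prop} (h0 : P x) (h1 : ∀ w, P w → P (G.f w)) (w : D)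
    (h : G.sf x w) : P w := by
  obtain ⟨i, -, rfl⟩ := h.exists_pow_eq'
  induction i with
  | zero => exact h0
  | succ i ih =>
    rw [pow_succ', Perm.mul_apply]
    exact h1 _ (ih ⟨i, by simp⟩)

/-- Sizes up to three: `contract_flow` for `Z = {d, e d}`; size four: `Z` the edges of `d` and
`f (f d)`. Sparseness comes from `no_loop`, `no_double` (`n x = f (e x)`,
`n (n x) = e (f⁻¹ x)`). Take the face colouring of the flow (`exists_face_col`); the neighbours of
the face of `d` show at most three colours; recolour this face by a fourth one and use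
`colourable_of_face`. -/
theorem deg_ge_five (hG : G.MinCex) (d : D) : 5 ≤ G.deg d := by
  by_contra hn
  have h0 : 0 < G.deg d := minimalPeriod_pos_of_mem_periodicPts (G.f.injective.mem_periodicPts d)
  have h1 : (G.f)^[G.deg d] d = d := isPeriodicPt_minimalPeriod G.f d
  have h2 : G.f (G.f (G.f d)) = d ∨ G.f (G.f (G.f (G.f d))) = d := by
    generalize G.deg d = m at hn h0 h1
    have hm : m < 5 := by omega
    interval_cases m
    · exact absurd h1.symm (short1_fne hG d)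
    · have h1' : G.f (G.f d) = d := h1
      exact .inr (by rw [h1', h1'])
    · exact .inl h1
    · exact .inr h1
  have h3 := short1_fne hG d
  rcases h2 with h2 | h2
  · refine short1_recol hG (.refl _ d) h3 h3 (a := G.f d) (b := G.f (G.f d))
      (short1_orb (.inl rfl) ?_)
    rintro w (rfl | rfl | rfl | rfl) <;> simp [h2]
  · refine short1_recol hG ((short1_sf d).trans (short1_sf _)) (fun k => h3 (G.f.injective k).symm)
      (fun k => h3 ?_) (a := G.f d) (b := G.f (G.f (G.f d))) (short1_orb (.inl rfl) ?_)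
    · rw [← k] at h2
      exact h2.symm
    · rintro w (rfl | rfl | rfl | rfl) <;> simp [h2]

end Pool.Agent.MP_8c1b0d_co.CT4.Map

/-! Closed walks of four and five faces. -/

namespace Pool.Agent.MP_8c1b0d_co.CT4.Map

open Equiv Finset Function

variable {D : Type} [Fintype D] {G : Map D}

omit [Fintype D] in
theorem Short2_n (x : D) : G.sf (G.e x) (G.n x) :=
  ⟨1, by simp [f_apply, G.ee]⟩

omit [Fintype D] in
theorem Short2_nn (hc : G.Cubic) (x : D) : G.sf (G.e (G.n (G.n x))) x := by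
  have h := Short2_n (G := G) (G.n (G.n x))
  rwa [hc x] at h

omit [Fintype D] in
theorem Short2_e {a b : D} (h : a = G.e b) : G.e a = b := by rw [h, G.ee]

/-- the small side of the cut given by a closed walk through distinct faces -/
theorem Short2_side (hG : G.MinCex) {k : ℕ} (hk : k + 1 ≤ 5) (x : Fin (k + 1) → D)
    (hx : ∀ t, G.sf (G.e (x t)) (x (t + 1))) (hi : ∀ s t, G.sf (x s) (x t) → s = t)
    (h2 : ∀ t : Fin (k + 1), t + 1 + 1 ≠ t) :
    ∃ A : Set D, G.Closed A ∧ (G.out A).ncard = k + 1 ∧ A.ncard ≤ small (k + 1) ∧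
      ∀ d, (d ∈ G.out A ∨ G.e d ∈ G.out A) ↔ ∃ t, x t = d ∨ x t = G.e d := by
  obtain ⟨A, hA, hn, hd⟩ := cut_of_walk hG.cubic hG.planar (k + 1)
    (fun j => x (Fin.ofNat (k + 1) j)) (fun j _ => by
      have e : Fin.ofNat (k + 1) ((j + 1) % (k + 1)) = Fin.ofNat (k + 1) j + 1 :=
        Fin.ext (by simp [Fin.val_add])
      rw [e]
      exact hx _) (fun i hi' j hj => ⟨fun h => by
      have e := congrArg Fin.val (hi _ _ (Eq.sameCycle h G.f))
      simpa [Nat.mod_eq_of_lt hi', Nat.mod_eq_of_lt hj] using e, fun h => by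
      have e1 := hi _ _ (h ▸ hx (Fin.ofNat (k + 1) j))
      have e2 := hi _ _ (Short2_e h ▸ hx (Fin.ofNat (k + 1) i))
      exact h2 (Fin.ofNat (k + 1) j) (by rw [← e1, ← e2])⟩)
  have hd' : ∀ d, (d ∈ G.out A ∨ G.e d ∈ G.out A) ↔ ∃ t, x t = d ∨ x t = G.e d := fun d =>
    (hd d).trans ⟨fun ⟨j, _, h⟩ => ⟨_, h⟩, fun ⟨t, h⟩ => ⟨t, t.2, by simpa using h⟩⟩
  rcases cut hG A hA (hn.trans_le hk) with h | h
  · exact ⟨A, hA, hn, hn ▸ h, hd'⟩
  · refine ⟨Aᶜ, closed_compl hA, (ncard_out_compl A).trans hn, hn ▸ h, fun d => ?_⟩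
    rw [mem_out_compl, mem_out_compl, G.ee, or_comm]
    exact hd' d

/-- two darts of walk edges at one vertex give a chord -/
theorem Short2_ear (hG : G.MinCex) {k : ℕ} {x : Fin (k + 1) → D}
    (hx : ∀ t, G.sf (G.e (x t)) (x (t + 1))) (hi : ∀ s t, G.sf (x s) (x t) → s = t) {a : D}
    (h1 : ∃ t, x t = a ∨ x t = G.e a) (h2 : ∃ t, x t = G.n a ∨ x t = G.e (G.n a)) :
    ∃ t, G.Adj (x t) (x (t + 1 + 1)) := by
  have a1 := Short2_n (G := G) a
  have a2 := Short2_n (G := G) (G.n a)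
  have a3 := Short2_nn hG.cubic a
  have l : G.e (G.n a) ≠ a := fun h => no_loop hG (G.n (G.n a))
    (a3.trans ((Eq.sameCycle h G.f).symm.trans a2))
  obtain ⟨t, ht | ht⟩ := h1 <;> obtain ⟨s, hs | hs⟩ := h2
  · have e : s = t + 1 := hi _ _ (hs ▸ a1.symm.trans (ht ▸ hx t))
    subst e ht
    exact ⟨t, Adj.symm ⟨_, (hx _).symm.trans (hs.symm ▸ a2), a3⟩⟩
  · have e : s + 1 = t + 1 :=
      hi _ _ ((hx s).symm.trans (Short2_e hs ▸ a1.symm.trans (ht ▸ hx t)))
    rw [add_left_inj] at e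
    exact absurd (hs.symm.trans (e ▸ ht)) l
  · have e : t = s := hi _ _ (ht ▸ hs ▸ a1)
    exact absurd (Short2_e (hs.symm.trans (e ▸ ht))) l
  · have e : t = s + 1 := hi _ _ ((ht ▸ a1).trans (Short2_e hs ▸ hx s))
    exact ⟨s, _, hs ▸ a2, a3.trans (e ▸ Short2_e ht ▸ hx t)⟩

/-- TASK Short2. If the faces are distinct the edges are distinct; `cut_of_walk`, `cut` (replace
`A` by its complement), `ear`: out darts `a`, `n a` lie on consecutive edges of the walk and
`n (n a)` joins the face of `e (n a)` to the face of `a`, a chord. -/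
theorem quad (hG : G.MinCex) {x₀ x₁ x₂ x₃ : D} (h0 : G.sf (G.e x₀) x₁) (h1 : G.sf (G.e x₁) x₂)
    (h2 : G.sf (G.e x₂) x₃) (h3 : G.sf (G.e x₃) x₀) :
    G.sf x₀ x₂ ∨ G.sf x₁ x₃ ∨ G.Adj x₀ x₂ ∨ G.Adj x₁ x₃ := by
  by_contra hn
  push Not at hn
  obtain ⟨n0, n1, n2, n3⟩ := hn
  have hx : ∀ t : Fin 4, G.sf (G.e (![x₀, x₁, x₂, x₃] t)) (![x₀, x₁, x₂, x₃] (t + 1)) := by
    intro t
    fin_cases t
    exacts [h0, h1, h2, h3]
  have hs : ∀ t : Fin 4, ¬ G.sf (![x₀, x₁, x₂, x₃] t) (![x₀, x₁, x₂, x₃] (t + 1 + 1)) ∧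
      ¬ G.Adj (![x₀, x₁, x₂, x₃] t) (![x₀, x₁, x₂, x₃] (t + 1 + 1)) := by
    intro t
    fin_cases t
    exacts [⟨n0, n2⟩, ⟨n1, n3⟩, ⟨fun h => n0 h.symm, fun h => n2 h.symm⟩,
      ⟨fun h => n1 h.symm, fun h => n3 h.symm⟩]
  generalize ![x₀, x₁, x₂, x₃] = x at hx hs
  have hi : ∀ s t, G.sf (x s) (x t) → s = t := by
    intro s t h
    have key : ∀ s t : Fin 4, s = t ∨ t = s + 1 ∨ s = t + 1 ∨ t = s + 1 + 1 := by decide
    rcases key s t with e | rfl | rfl | rfl
    · exact e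
    · exact absurd ((hx s).trans h.symm) (no_loop hG _)
    · exact absurd ((hx t).trans h) (no_loop hG _)
    · exact absurd h (hs s).1
  obtain ⟨A, hA, hc, hA', hd⟩ := Short2_side hG (k := 3) (by norm_num) x hx hi (by decide)
  obtain ⟨a, ha, ha'⟩ := ear hG.cubic hA (O := G.out A) (fun _ h => h.1)
    (by rw [hc]; exact hA'.trans_lt (by decide))
  obtain ⟨t, ht⟩ := Short2_ear hG hx hi ((hd _).1 (Or.inl ha)) ((hd _).1 (Or.inl ha'))
  exact (hs t).2 ht

/-- Without coincidence and chord there is no ear, so on the small side `A` (at most 15 darts, five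
out darts) the sets `O`, `n '' O`, `n '' (n '' O)` cover `A`: every vertex has exactly one out
dart. For `a ∈ O` put `y = e (n a) ∈ A`, an inner dart in the face `H` of `n (n a)`, which is
adjacent to the two faces of `a`. If `n (n y) ∈ O` then `H` (the face of `e (n (n y))`) is on the
walk, a chord. So `n y = f (f (e a)) ∈ O`. The only darts of the walk edges in the face of
`x (t+1)` are `x (t+1)` and `e (x t)`; go round the walk, starting from `x 0 ∈ O` or
`e (x 0) ∈ O`. -/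
theorem pent (hG : G.MinCex) (x : Fin 5 → D) (hx : ∀ t, G.sf (G.e (x t)) (x (t + 1))) :
    (∃ t, G.sf (x t) (x (t + 2)) ∨ G.Adj (x t) (x (t + 2))) ∨
    (∀ t, x (t + 1) = G.f (G.f (G.e (x t)))) ∨ ∀ t, G.e (x t) = G.f (G.f (x (t + 1))) := by
  refine or_iff_not_imp_left.2 fun hs => ?_
  push Not at hs
  have key : ∀ s t : Fin 5, s = t ∨ t = s + 1 ∨ s = t + 1 ∨ t = s + 2 ∨ s = t + 2 := by decide
  have hi : ∀ s t, G.sf (x s) (x t) → s = t := by
    intro s t h
    rcases key s t with e | rfl | rfl | rfl | rfl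
    · exact e
    · exact absurd ((hx s).trans h.symm) (no_loop hG _)
    · exact absurd ((hx t).trans h) (no_loop hG _)
    · exact absurd h (hs s).1
    · exact absurd h.symm (hs t).1
  have hadj : ∀ s t, G.Adj (x s) (x t) → t = s + 1 ∨ s = t + 1 := by
    intro s t h
    rcases key s t with rfl | e | e | rfl | rfl
    · obtain ⟨z, z1, z2⟩ := h
      exact absurd (z2.trans z1) (no_loop hG _)
    · exact Or.inl e
    · exact Or.inr e
    · exact absurd h (hs s).2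
    · exact absurd h.symm (hs t).2
  obtain ⟨A, hA, hc, hA', hd⟩ := Short2_side hG (k := 4) le_rfl x hx hi (by decide)
  have noear : ∀ a ∈ G.out A, G.n a ∉ G.out A := fun a ha ha' => by
    obtain ⟨t, ht⟩ := Short2_ear hG hx hi ((hd _).1 (Or.inl ha)) ((hd _).1 (Or.inl ha'))
    exact (hs t).2 (by rwa [add_assoc] at ht)
  have cover : ∀ y ∈ A, y ∉ G.out A → G.n y ∈ G.out A ∨ G.n (G.n y) ∈ G.out A := by
    intro y hy hy'
    obtain ⟨a, ha | ha, ha' | ha'⟩ := ear hG.cubic hA (O := insert y (G.out A))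
      (Set.insert_subset hy fun _ h => h.1)
      (by rw [Set.ncard_insert_of_notMem hy', hc]; exact hA'.trans_lt (by decide))
    · exact absurd (ha'.trans ha.symm) (G.n_ne a)
    · exact Or.inl (ha ▸ ha')
    · exact Or.inr (by rwa [← ha', hG.cubic a])
    · exact absurd ha' (noear a ha)
  have face : ∀ a ∈ G.out A, ∃ s t, (t = s + 1 ∨ s = t + 1) ∧ G.sf (x s) a ∧ G.sf (x t) (G.e a) := by
    intro a ha
    obtain ⟨t, ht | ht⟩ := (hd a).1 (Or.inl ha)
    · exact ⟨t, t + 1, Or.inl rfl, ht ▸ Perm.SameCycle.refl _ _, ht ▸ (hx t).symm⟩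
    · exact ⟨t + 1, t, Or.inr rfl, Short2_e ht ▸ (hx t).symm, ht ▸ Perm.SameCycle.refl _ _⟩
  have step : ∀ a ∈ G.out A, G.f (G.f (G.e a)) ∈ G.out A := by
    intro a ha
    have h1 : G.n a ∈ A := (hA a).2 ha.1
    have h2 : G.e (G.n a) ∈ A := by_contra fun h => noear a ha ⟨h1, h⟩
    rcases cover _ h2 (fun h => h.2 (by rwa [G.ee])) with h | h
    · rwa [f_apply, f_apply, G.ee]
    · obtain ⟨s, t, hst, s1, t1⟩ := face a ha
      obtain ⟨-, u, -, -, u1⟩ := face _ h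
      have u2 := u1.trans (Short2_nn hG.cubic _)
      have c1 := hadj u s ⟨_, u2.trans (Short2_n _), (Short2_nn hG.cubic a).trans s1.symm⟩
      have c2 := hadj t u ⟨_, t1.trans (Short2_n a), u2.symm⟩
      have k3 : ∀ s t u : Fin 5, (t = s + 1 ∨ s = t + 1) → (s = u + 1 ∨ u = s + 1) →
        ¬ (u = t + 1 ∨ t = u + 1) := by decide
      exact absurd c2 (k3 s t u hst c1)
  have ff : ∀ a, G.sf a (G.f (G.f a)) := fun a => ⟨2, rfl⟩
  by_cases h0 : ∃ t, x t ∈ G.out A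
  · have st : ∀ t, x t ∈ G.out A → x (t + 1) = G.f (G.f (G.e (x t))) := by
      intro t ht
      obtain ⟨s, h | h⟩ := (hd _).1 (Or.inl (step _ ht))
      · rw [← h, hi (t + 1) s ((hx t).symm.trans (h ▸ ff _))]
      · have e := hi (t + 1) (s + 1) ((hx t).symm.trans ((ff _).trans (Short2_e h ▸ hx s)))
        rw [add_left_inj] at e
        exact absurd (h ▸ e ▸ ht.1) (step _ ht).2
    have st' : ∀ t, x t ∈ G.out A → x (t + 1) ∈ G.out A := fun t ht => st t ht ▸ step _ ht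
    obtain ⟨t, ht⟩ := h0
    refine Or.inl fun s => st s ?_
    have k2 : ∀ s t : Fin 5, s = t ∨ s = t + 1 ∨ s = t + 1 + 1 ∨ s = t + 1 + 1 + 1 ∨
      s = t + 1 + 1 + 1 + 1 := by decide
    rcases k2 s t with rfl | rfl | rfl | rfl | rfl
    exacts [ht, st' _ ht, st' _ (st' _ ht), st' _ (st' _ (st' _ ht)),
      st' _ (st' _ (st' _ (st' _ ht)))]
  · push Not at h0
    refine Or.inr fun t => ?_
    have h1 := step _ (((hd (x (t + 1))).2 ⟨_, Or.inl rfl⟩).resolve_left (h0 _))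
    rw [G.ee] at h1
    obtain ⟨s, h | h⟩ := (hd _).1 (Or.inl h1)
    · exact absurd (h ▸ h1) (h0 s)
    · have e := hi (t + 1) (s + 1) ((ff _).trans (Short2_e h ▸ hx s))
      rw [add_left_inj] at e
      rw [e, h, G.ee, ← e]

end Pool.Agent.MP_8c1b0d_co.CT4.Map

/-! Contracts with four edges. -/

namespace Pool.Agent.MP_8c1b0d_co.CT4.Map

open Equiv Finset Function

variable {D : Type} [Fintype D] {G : Map D}

theorem del4_ear (hG : G.MinCex) {A : Set D} (hA : G.Closed A) (h5 : (G.out A).ncard = 5)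
    (b1 : 12 ≤ A.ncard) (b2 : 12 ≤ Aᶜ.ncard) {a : D} (ha : a ∈ G.out A)
    (ha' : G.n a ∈ G.out A) : False := by
  set V : Set D := {a, G.n a, G.n (G.n a)} with hV
  have hVc : ∀ d, G.n d ∈ V ↔ d ∈ V := fun d => by
    simp only [hV, Set.mem_insert_iff, Set.mem_singleton_iff]
    constructor
    · rintro (h | h | h)
      · exact .inr (.inr (by rw [← h, hG.cubic]))
      · exact .inl (G.n.injective h)
      · exact .inr (.inl (G.n.injective h))
    · rintro (h | h | h)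
      · exact .inr (.inl (by rw [h]))
      · exact .inr (.inr (by rw [h]))
      · exact .inl (by rw [h, hG.cubic])
  have hB : G.Closed (A \ V) := fun d => and_congr (hA d) (not_congr (hVc d))
  have hsub : G.out (A \ V) ⊆ insert (G.e (G.n (G.n a))) ((G.out A \ {a}) \ {G.n a}) := by
    rintro d ⟨⟨h1, h2⟩, h3⟩
    by_cases h4 : G.e d ∈ A
    · have h6 : G.e d ∈ V := by
        by_contra h7
        exact h3 ⟨h4, h7⟩
      rcases h6 with h | h | h
      · exact absurd (by rw [← h, G.ee]; exact h1) ha.2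
      · exact absurd (by rw [← h, G.ee]; exact h1) ha'.2
      · exact .inl (by rw [← Set.mem_singleton_iff.1 h, G.ee])
    · exact .inr ⟨⟨⟨h1, h4⟩, fun h => h2 (.inl h)⟩, fun h => h2 (.inr (.inl h))⟩
  have c1 := Set.ncard_sdiff_singleton_add_one ha
  have c2 := Set.ncard_sdiff_singleton_add_one
    (show G.n a ∈ G.out A \ {a} from ⟨ha', G.n_ne a⟩)
  have c3 := (Set.ncard_le_ncard hsub).trans (Set.ncard_insert_le _ _)
  have c4 : V.ncard ≤ 3 := by
    refine (Set.ncard_insert_le _ _).trans (Nat.succ_le_succ ?_)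
    exact (Set.ncard_insert_le _ _).trans (by rw [Set.ncard_singleton])
  have c5 : A.ncard ≤ (A \ V).ncard + V.ncard := Set.ncard_le_ncard_sdiff_add_ncard A V
  have c6 : Aᶜ.ncard ≤ (A \ V)ᶜ.ncard :=
    Set.ncard_le_ncard (Set.compl_subset_compl.2 Set.sdiff_subset)
  have c7 : small (G.out (A \ V)).ncard ≤ 6 := by
    have h : (G.out (A \ V)).ncard ≤ 4 := by omega
    generalize (G.out (A \ V)).ncard = m at h
    interval_cases m <;> decide
  rcases cut hG _ hB (by omega) with h | h <;> omega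

theorem del4_three (hG : G.MinCex) (B : Set D) (hB : G.Closed B) (n1 : B.Nonempty)
    (n2 : Bᶜ.Nonempty) : 3 ≤ (G.out B).ncard := by
  by_contra h3
  have h2 : (G.out B).ncard = 2 := by have := cut_ge_two hG hB n1 n2; omega
  have p1 := (Set.ncard_pos (Set.toFinite _)).2 n1
  have p2 := (Set.ncard_pos (Set.toFinite _)).2 n2
  have h0 : small 2 = 0 := rfl
  rcases cut hG B hB (by omega) with h | h <;> rw [h2] at h <;> omega

theorem del4_wheel (hG : G.MinCex) {Z : Set D} (y : Fin 5 → D)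
    (hy : ∀ t, y (t + 1) = G.f (G.f (G.e (y t)))) (h1 : ∀ z ∈ Z, ∃ t, z = y t ∨ G.e z = y t)
    (h2 : ∀ t, y t ∈ Z ∨ y (t + 1) ∈ Z) : G.Wheel Z := by
  have hf : ∀ t, G.f (G.n (G.n (y (t + 1)))) = G.n (G.n (y t)) := fun t => by
    rw [hy t, short1_fe, G.f_apply (G.n (y t)), hG.cubic, short1_fe]
  have hp : ∀ i : ℕ, (G.f ^ i) (G.n (G.n (y 0))) = G.n (G.n (y (-Fin.ofNat 5 i))) := by
    intro i
    induction i with
    | zero => rfl
    | succ i ih =>
      rw [pow_succ', Perm.mul_apply, ih, ← hf (-Fin.ofNat 5 (i + 1))]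
      have e : -Fin.ofNat 5 (i + 1) + 1 = -Fin.ofNat 5 i := by
        have : Fin.ofNat 5 (i + 1) = Fin.ofNat 5 i + 1 := by
          ext; simp [Fin.val_add]
        rw [this]; abel
      rw [e]
  have hn : ∀ i : ℕ, G.n ((G.f ^ i) (G.n (G.n (y 0)))) = y (-Fin.ofNat 5 i) := fun i => by
    rw [hp, hG.cubic]
  refine ⟨G.n (G.n (y 0)), le_antisymm ?_ (deg_ge_five hG _), fun z hz => ?_, fun i => ?_⟩
  · refine IsPeriodicPt.minimalPeriod_le (by norm_num) ?_
    have := hp 5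
    rwa [← Perm.iterate_eq_pow] at this
  · obtain ⟨t, ht⟩ := h1 z hz
    refine ⟨(-t).1, ?_⟩
    rw [hn]
    have e : -Fin.ofNat 5 (-t).1 = t := by
      rw [Fin.ofNat_val_eq_self, neg_neg]
    rwa [e]
  · rw [hn, hn]
    have e : -Fin.ofNat 5 (i + 1) + 1 = -Fin.ofNat 5 i := by
      have : Fin.ofNat 5 (i + 1) = Fin.ofNat 5 i + 1 := by
        ext; simp [Fin.val_add]
      rw [this]; abel
    exact (e ▸ h2 (-Fin.ofNat 5 (i + 1))).symm

/-- TASK Del4. Use `del_flow`. Let `A` be closed with `out A ⊆ Z ∪ {b}`, `b ∈ out A \ Z`, and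
`m = ncard (out A) ≤ 5`. For `m ≤ 4` argue as in `contract_flow`. Let `m = 5`: `out A ∩ Z` has four
darts and `Z` consists of these and their reverses. By `ear` and `hs` both `A` and `Aᶜ` have at
least twelve darts. No side has an ear: if `a`, `n a` are out darts of `A`, remove their vertex;
the rest has at most four out darts, at least nine darts and its complement at least twelve,
against `cut`. Both sides are connected (`cut_conn` and the argument of `cut_step`; or directly: a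
splitting has parts with at least three out darts each). `ring_of_cut` gives the closed walk
`l 0 … l 4` of out darts; apply `pent`. A coincidence contradicts `no_double` (`l t ∈ A`,
`e (l (t+1)) ∉ A`), a chord gives an ear by `tri`. In the first wheel case take `x = n (n (l 0))`:
with `x t = n (n (l t))` one has `f (x (t+1)) = x t` and `n (x t) = l t`; `f ^ 5` fixes `x` and
`deg_ge_five` gives `deg x = 5`. The second wheel case is the first one for `Aᶜ` and the darts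
`e (l t)` read backwards. -/
theorem contract_flow4 (hG : G.MinCex) (Z : Set D) (he : ∀ d ∈ Z, G.e d ∈ Z) (hne : Z.Nonempty)
    (hs : ∀ d ∈ Z, G.n d ∉ Z) (h8 : Z.ncard ≤ 8) (hw : ¬ G.Wheel Z) :
    ∃ c : D → K, G.Cyc c ∧ ∀ d, c d = 0 ↔ d ∈ Z := by
  refine del_flow hG Z he hne hs fun A hA b hb hbZ => ?_
  by_contra hn
  have hOZ : G.out A \ {b} ⊆ Z := fun d hd => by
    by_contra h
    exact hn ⟨d, hd.1, h, hd.2⟩
  have hEZ : G.e '' (G.out A \ {b}) ⊆ Z := by
    rintro _ ⟨d, hd, rfl⟩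
    exact he d (hOZ hd)
  have hOA : G.out A \ {b} ⊆ A := fun d hd => hd.1.1
  have hEA : G.e '' (G.out A \ {b}) ⊆ Aᶜ := by
    rintro _ ⟨d, hd, rfl⟩
    exact hd.1.2
  have hE : (G.e '' (G.out A \ {b})).ncard = (G.out A \ {b}).ncard :=
    Set.ncard_image_of_injective _ G.e.injective
  have hU := Set.ncard_union_eq (disjoint_compl_right.mono hOA hEA)
  have h1 := Set.ncard_le_ncard (Set.union_subset hOZ hEZ)
  rw [hE] at hU
  have h2 : (G.out A \ {b}).ncard + 1 = (G.out A).ncard := Set.ncard_sdiff_singleton_add_one hb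
  have h3 : 0 < (G.out A \ {b}).ncard := by
    obtain ⟨d, hd, hdb⟩ := hG.bridgeless A hA b hb
    exact (Set.ncard_pos).2 ⟨d, hd, hdb⟩
  have b1 : 3 * (G.out A \ {b}).ncard ≤ A.ncard := by
    by_contra h
    obtain ⟨a, ha, ha'⟩ := ear hG.cubic hA hOA (not_le.1 h)
    exact hs a (hOZ ha) (hOZ ha')
  have b2 : 3 * (G.out A \ {b}).ncard ≤ Aᶜ.ncard := by
    by_contra h
    obtain ⟨a, ha, ha'⟩ := ear hG.cubic (closed_compl hA) hEA (by rw [hE]; exact not_le.1 h)
    exact hs a (hEZ ha) (hEZ ha')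
  by_cases h5 : (G.out A \ {b}).ncard ≤ 3
  · have h4 : small (G.out A).ncard < 3 * (G.out A \ {b}).ncard := by
      rw [← h2]
      generalize (G.out A \ {b}).ncard = m at h3 h5
      interval_cases m <;> decide
    rcases cut hG A hA (by omega) with h | h <;> omega
  have m5 : (G.out A).ncard = 5 := by omega
  have hZ : G.out A \ {b} ∪ G.e '' (G.out A \ {b}) = Z :=
    Set.eq_of_subset_of_ncard_le (Set.union_subset hOZ hEZ) (by omega)
  have n1 : A.Nonempty := ⟨b, hb.1⟩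
  have n2 : Aᶜ.Nonempty := ⟨_, hb.2⟩
  obtain ⟨l, hR, hl⟩ := ring_of_cut hG.cubic hG.planar hA
    (cut_conn (del4_three hG) hA n2 (by omega))
    (cut_conn (del4_three hG) (closed_compl hA) (by rwa [compl_compl])
      (by rw [ncard_out_compl]; omega)) ⟨b, hb⟩
  rw [m5] at hR hl
  set x : Fin 5 → D := fun t => l t.1 with hxd
  have hx : ∀ t, G.sf (G.e (x t)) (x (t + 1)) := fun t => hR.ring t.1 t.2
  have ho : ∀ t, x t ∈ G.out A := fun t => hl t.1 t.2
  have hall : ∀ d ∈ G.out A, ∃ t, d = x t := fun d hd => by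
    by_contra h
    exact hd.2 (hR.inner d hd.1 fun j hj e => h ⟨⟨j, hj⟩, e.symm⟩).1
  have z1 : ∀ z ∈ Z, ∃ t, z = x t ∨ G.e z = x t := fun z hz => by
    rw [← hZ] at hz
    rcases hz with hz | ⟨d, hd, rfl⟩
    · exact (hall z hz.1).imp fun _ => .inl
    · exact (hall d hd.1).imp fun _ h => .inr (by rw [G.ee, h])
  have z2 : ∀ t, x t ∈ Z ∨ x (t + 1) ∈ Z := fun t => by
    by_cases h : x t = b
    · refine .inr (hOZ ⟨ho _, fun h' => ?_⟩)
      have e : t + 1 = t := Fin.ext (hR.inj _ (t + 1).2 _ t.2 (h'.trans h.symm))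
      exact absurd (add_eq_left.1 e) (by decide)
    · exact .inl (hOZ ⟨ho t, h⟩)
  rcases pent hG x hx with ⟨t, h | ⟨z, hz1, hz2⟩⟩ | h | h
  · have e2 : t + 2 = t + 1 + 1 := by rw [add_assoc]; rfl
    have := no_double hG (x := x t) (y := G.e (x (t + 1))) (h.trans (e2 ▸ (hx (t + 1)).symm))
      (by rw [G.ee]; exact hx t)
    exact (ho (t + 1)).2 (this ▸ (ho t).1)
  · have e2 : t + 2 = t + 1 + 1 := by rw [add_assoc]; rfl
    rcases tri hG (z := G.e z) (hx t) ((hx (t + 1)).trans (e2 ▸ hz2.symm))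
      (by rw [G.ee]; exact hz1.symm) with h | h
    · exact del4_ear hG hA m5 (by omega) (by omega) (ho t) (by rw [← short1_fe, ← h]; exact ho _)
    · refine del4_ear hG (closed_compl hA) (by rwa [ncard_out_compl]) (by omega)
        (by rw [compl_compl]; omega) (a := G.e (x (t + 1))) ?_ ?_
      · rw [mem_out_compl, G.ee]; exact ho _
      · rw [mem_out_compl, ← G.f_apply, ← h, G.ee]; exact ho _
  · exact hw (del4_wheel hG x h z1 z2)
  · refine hw (del4_wheel hG (fun t => G.e (x (-t))) (fun t => ?_) (fun z hz => ?_) fun t => ?_)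
    · have := h (-(t + 1))
      rw [show -(t + 1) + 1 = -t by abel] at this
      simpa only [G.ee] using this
    · obtain ⟨t, ht⟩ := z1 z hz
      refine ⟨-t, ?_⟩
      simp only [neg_neg]
      exact ht.symm.imp (fun e => by rw [← e, G.ee]) fun e => by rw [e]
    · have := z2 (-(t + 1))
      rw [show -(t + 1) + 1 = -t by abel] at this
      exact this.symm.imp (he _) (he _)

end Pool.Agent.MP_8c1b0d_co.CT4.Map

/-! A triad excludes the wheel. -/

namespace Pool.Agent.MP_8c1b0d_co.CT4.Map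

open Equiv Finset Function

variable {D : Type} [Fintype D] {G : Map D}

omit [Fintype D] in
/-- the reverse of the dart `n (f a)` lies in the face of `e a` -/
theorem Triad_back (hc : G.Cubic) (a : D) : G.sf (G.e (G.n (G.f a))) (G.e a) := by
  have h := Short2_nn hc (G.e a)
  rwa [← f_apply] at h

/-- two faces next to both the face of `x` and the face of `v` are consecutive around `x` -/
theorem Triad_pair (hG : G.MinCex) {x v a b y y' : D} (hv : ¬ G.sf v x)
    (hF : ∀ c, G.sf x c → ¬ G.sf v (G.e c)) (ha : G.sf x a) (hb : G.sf x b) (hy : G.sf v y)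
    (hy' : G.sf v y') (hne : y ≠ y') (h1 : G.sf (G.e a) (G.e y)) (h2 : G.sf (G.e b) (G.e y')) :
    a ≠ b ∧ (a = G.f b ∨ b = G.f a) := by
  have hd : ¬ G.sf (G.e y) (G.e y') := fun h => hne (no_double hG (hy.symm.trans hy') h)
  refine ⟨fun h => hd (h1.symm.trans (h ▸ h2)), ?_⟩
  have k1 : G.sf (G.e (G.e y)) y' := by rw [G.ee]; exact hy.symm.trans hy'
  have k3 : G.sf (G.e (G.e b)) a := by rw [G.ee]; exact hb.symm.trans ha
  rcases quad hG h1 k1 h2.symm k3 with h | h | ⟨z, z1, z2⟩ | ⟨z, z1, z2⟩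
  · exact absurd (hy'.trans (h.symm.trans ha.symm)) hv
  · exact absurd (h.trans h2) hd
  · exact absurd (hy'.trans z2.symm) (hF z (ha.trans z1))
  · have h := tri hG k3 (h1.trans z1) z2
    rwa [G.ee] at h

/-- TASK Triad. Let `x` be the pentagon, `F i` the face of `e (f ^ i x)`; the leg `n (f ^ i x)` lies
in `F i`, and the reverse of the leg `n (f ^ (i+1) x)` lies in `F i` too (its successor is
`n (n (f ^ (i+1) x)) = e (f ^ i x)`). So every dart of `Z` lies in some `F i` and every `F i`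
contains a dart of `Z`; by `h1` the face of `v` is no `F i`. If `v` lies in the face of `x`, then
`y = f ^ i x` contradicts `h3`. Otherwise the faces across `y₁ y₂ y₃` are three different `F i`
(`no_double`), two of which, `F s` and `F t`, are not consecutive modulo five. Apply `quad` to the
walk pentagon, `F s`, face of `v`, `F t`: `F s = F t` contradicts `no_double`, a dart from the
pentagon to the face of `v` makes it an `F i`, and a dart from `F s` to `F t` closes a triangle,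
where `tri` makes `s`, `t` consecutive. -/
theorem no_wheel (hG : G.MinCex) (Z : Set D) (he : ∀ d ∈ Z, G.e d ∈ Z) (v : D)
    (h1 : ∀ z ∈ Z, ¬ G.sf v z)
    (h2 : ∃ y₁ y₂ y₃, y₁ ≠ y₂ ∧ y₁ ≠ y₃ ∧ y₂ ≠ y₃ ∧ G.sf v y₁ ∧ G.sf v y₂ ∧ G.sf v y₃ ∧
      (∃ z ∈ Z, G.sf (G.e y₁) z) ∧ (∃ z ∈ Z, G.sf (G.e y₂) z) ∧ ∃ z ∈ Z, G.sf (G.e y₃) z)
    (h3 : G.deg v = 5 → ∃ y, G.sf v y ∧ G.n y ∉ Z ∧ G.n (G.f y) ∉ Z) : ¬ G.Wheel Z := by
  rintro ⟨x, hx, hz, hw⟩
  have hp : ∀ i : ℕ, G.sf x ((G.f ^ i) x) := fun i => ⟨i, by simp⟩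
  have hs : ∀ i : ℕ, (G.f ^ (i + 1)) x = G.f ((G.f ^ i) x) := fun i => by
    rw [pow_succ', Perm.mul_apply]
  have hin : ∀ z ∈ Z, ∃ a, G.sf x a ∧ G.sf (G.e a) z := by
    intro z h
    obtain ⟨i, h | h⟩ := hz z h
    · exact ⟨_, hp i, h ▸ Short2_n _⟩
    · refine ⟨G.f⁻¹ ((G.f ^ i) x), (hp i).trans ⟨-1, by simp⟩, ?_⟩
      have k := Triad_back hG.cubic (G.f⁻¹ ((G.f ^ i) x))
      have e : G.f (G.f⁻¹ ((G.f ^ i) x)) = (G.f ^ i) x := by simp
      rw [e, ← h, G.ee] at k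
      exact k.symm
  have hF : ∀ c, G.sf x c → ¬ G.sf v (G.e c) := by
    intro c hc h
    obtain ⟨i, -, rfl⟩ := hc.exists_pow_eq'
    rcases hw i with k | k
    · exact h1 _ k (h.trans (Short2_n _))
    · rw [hs] at k
      exact h1 _ (he _ k) (h.trans (Triad_back hG.cubic _).symm)
  by_cases hv : G.sf v x
  · have hd : G.deg v = 5 := by
      obtain ⟨i, -, rfl⟩ := hv.exists_pow_eq'
      rw [← hx]
      exact (minimalPeriod_apply_iterate (G.f.injective.mem_periodicPts v) i).symm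
    obtain ⟨y, hy, k1, k2⟩ := h3 hd
    obtain ⟨i, -, rfl⟩ := (hv.symm.trans hy).exists_pow_eq'
    rcases hw i with k | k
    · exact k1 k
    · exact k2 (hs i ▸ k)
  · obtain ⟨y₁, y₂, y₃, n12, n13, n23, s1, s2, s3, ⟨z₁, m1, t1⟩, ⟨z₂, m2, t2⟩, z₃, m3, t3⟩ := h2
    obtain ⟨a₁, p1, q1⟩ := hin _ m1
    obtain ⟨a₂, p2, q2⟩ := hin _ m2
    obtain ⟨a₃, p3, q3⟩ := hin _ m3
    obtain ⟨d12, c12⟩ := Triad_pair hG hv hF p1 p2 s1 s2 n12 (q1.trans t1.symm) (q2.trans t2.symm)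
    obtain ⟨d13, c13⟩ := Triad_pair hG hv hF p1 p3 s1 s3 n13 (q1.trans t1.symm) (q3.trans t3.symm)
    obtain ⟨d23, c23⟩ := Triad_pair hG hv hF p2 p3 s2 s3 n23 (q2.trans t2.symm) (q3.trans t3.symm)
    have cyc : ∀ a, G.f (G.f (G.f a)) ≠ a := fun a h => by
      have k : G.deg a ≤ 3 := IsPeriodicPt.minimalPeriod_le (by norm_num) h
      have := deg_ge_five hG a
      omega
    rcases c12 with c12 | c12 <;> rcases c13 with c13 | c13 <;> rcases c23 with c23 | c23
    · exact d23 (G.f.injective (c12.symm.trans c13))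
    · exact d23 (G.f.injective (c12.symm.trans c13))
    · exact cyc a₁ (by rw [← c13, ← c23, ← c12])
    · exact d12 (G.f.injective (c13.symm.trans c23))
    · exact d12 (c13.trans c23.symm)
    · exact cyc a₁ (by rw [← c12, ← c23, ← c13])
    · exact d23 (c12.trans c13.symm)
    · exact d23 (c12.trans c13.symm)

end Pool.Agent.MP_8c1b0d_co.CT4.Map

/-! The region of an embedded configuration is a ring; colourings extend. -/

namespace Pool.Agent.MP_8c1b0d_co.CT4.Conf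

open Equiv Finset Function

variable {C : Conf} {D : Type} [Fintype D] {G : Map D} {b : ℕ → D}

omit [Fintype D] in
theorem region_sf_f (x : D) : G.sf x (G.f x) := ⟨1, by simp⟩

omit [Fintype D] in
theorem region_f_e (x : D) : G.f (G.e x) = G.n x := by
  rw [Map.f_apply, G.ee]

theorem region_mod_pos (hw : C.WF) {j : ℕ} (hj : j < C.r) : (j + 1) % C.r < C.r :=
  Nat.mod_lt _ (by omega)

/-- TASK Region (all lemmas of this file). -/
theorem Emb.psi_inj (hE : C.Emb G b) {u v i j : ℕ} (hu : u < C.k) (hv : v < C.k)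
    (h : psi G b u i = psi G b v j) : u = v ∧ i % C.γ u = j % C.γ u := by
  have h1 : G.sf (b u) (b v) := by
    have h2 : G.sf (b u) (psi G b u i) := psi_sf u i
    have h3 : G.sf (b v) (psi G b v j) := psi_sf v j
    rw [h] at h2
    exact h2.trans h3.symm
  have huv := hE.inj u hu v hv h1
  subst huv
  exact ⟨rfl, (psi_eq_iff (hE.deg u hu) i j).1 h⟩

/-- legs are not kernel darts (`leg j = f (e (psi …))` lies across a ring position) -/
theorem Emb.leg_ne_psi (hw : C.WF) (hE : C.Emb G b) {j w : ℕ} (hj : j < C.r) (h : w < C.k)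
    (i : ℕ) : C.leg G b j ≠ psi G b w i := by
  intro hl
  obtain ⟨h1, -, h3, -⟩ := hw.leg j hj
  refine hE.induced _ h1 (C.L j).2 (by omega) w h ?_
  have h4 := region_sf_f (G := G) (G.e (psi G b (C.L j).1 (C.L j).2))
  rw [region_f_e] at h4
  have h5 : G.n (psi G b (C.L j).1 (C.L j).2) = psi G b w i := hl
  rw [h5] at h4
  exact h4.trans (psi_sf w i).symm

theorem region_n_leg (hc : G.Cubic) (hw : C.WF) (hP : C.Pre G b) {j : ℕ} (hj : j < C.r) :
    G.n (C.leg G b j) = G.e (psi G b (C.L j).1 (C.pre (C.L j).1 (C.L j).2)) := by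
  obtain ⟨h1, -, -, -⟩ := hw.leg j hj
  exact nn_psi hc hw h1 (hP.deg _ h1) _

/-- reversed legs are not kernel darts (`f (e (leg j)) = n (leg j)`, `nn_psi`) -/
theorem Emb.leg_ne_e_psi (hc : G.Cubic) (hw : C.WF) (hE : C.Emb G b) {j w : ℕ} (hj : j < C.r)
    (h : w < C.k) (i : ℕ) : C.leg G b j ≠ G.e (psi G b w i) := by
  intro hl
  obtain ⟨h1, -, -, h4⟩ := hw.leg j hj
  refine hE.induced _ h1 (C.pre (C.L j).1 (C.L j).2)
    (by rw [h4]; exact region_mod_pos hw hj) w h ?_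
  rw [← region_n_leg hc hw hE.toPre hj, hl, ← Map.f_apply, psi_succ]
  exact (psi_sf w (i + 1)).symm

theorem region_leg_eq (hw : C.WF) (hP : C.Pre G b) {w i : ℕ} (h : w < C.k)
    (h1 : C.N w i < C.r) (h2 : C.N w (C.pre w i) < C.r) :
    C.leg G b (C.N w i) = G.n (psi G b w i) := by
  have h3 := hw.isleg w h i h1 h2
  unfold leg
  rw [h3]
  exact congrArg G.n ((psi_eq_iff (hP.deg w h) _ _).2 (Nat.mod_mod _ _))

theorem region_e_psi (hc : G.Cubic) (hw : C.WF) (hP : C.Pre G b) {w : ℕ} (h : w < C.k) (i : ℕ) :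
    G.e (psi G b w i) = G.n (G.n (psi G b w (i + 1))) := by
  rw [nn_psi hc hw h (hP.deg w h)]
  exact congrArg G.e ((psi_eq_iff (hP.deg w h) _ _).2 (pre_succ_mod' hw h i).symm)

/-- the region consists of the kernel darts, their reverses and the legs -/
theorem Pre.mem_region (hc : G.Cubic) (hw : C.WF) (hP : C.Pre G b) (d : D) :
    d ∈ C.region G b ↔ (∃ w < C.k, ∃ i, d = psi G b w i ∨ d = G.e (psi G b w i)) ∨
      ∃ j < C.r, C.leg G b j = d := by
  constructor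
  · rintro ⟨w, h, i, hd | hd | hd⟩
    · exact Or.inl ⟨w, h, i, Or.inl hd⟩
    · by_cases h1 : C.r ≤ C.N w i
      · exact Or.inl ⟨_, far_lt hw h i, _, Or.inl (hd.trans (hP.n_psi h h1))⟩
      · by_cases h2 : C.r ≤ C.N w (C.pre w i)
        · exact Or.inl ⟨_, far_lt hw h _, _, Or.inr (hd.trans (hP.n_psi' hc hw h h2))⟩
        · exact Or.inr ⟨C.N w i, by omega,
            (region_leg_eq hw hP h (by omega) (by omega)).trans hd.symm⟩
    · exact Or.inl ⟨w, h, _, Or.inr (hd.trans (nn_psi hc hw h (hP.deg w h) i))⟩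
  · rintro (⟨w, h, i, hd | hd⟩ | ⟨j, hj, hd⟩)
    · exact ⟨w, h, i, Or.inl hd⟩
    · exact ⟨w, h, i + 1, Or.inr (Or.inr (hd.trans (region_e_psi hc hw hP h i)))⟩
    · exact ⟨_, (hw.leg j hj).1, (C.L j).2, Or.inr (Or.inl hd.symm)⟩

omit [Fintype D] in
theorem region_n_mem (hc : G.Cubic) {d : D} (h : d ∈ C.region G b) : G.n d ∈ C.region G b := by
  obtain ⟨w, hk, i, hd | hd | hd⟩ := h
  · exact ⟨w, hk, i, Or.inr (Or.inl (by rw [hd]))⟩
  · exact ⟨w, hk, i, Or.inr (Or.inr (by rw [hd]))⟩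
  · exact ⟨w, hk, i, Or.inl (by rw [hd, hc])⟩

omit [Fintype D] in
theorem region_closed (hc : G.Cubic) : G.Closed (C.region G b) := fun d =>
  ⟨fun h => by
    have := region_n_mem hc (region_n_mem hc h)
    rwa [hc] at this, region_n_mem hc⟩

/-- the walk relation of a ring -/
def regionRel (C : Conf) (G : Map D) (b : ℕ → D) (x y : D) : Prop :=
  y = G.n x ∨ (y = G.e x ∧ ∀ j < C.r, C.leg G b j ≠ x)

theorem region_walk_add (hw : C.WF) (hE : C.Emb G b) {w : ℕ} (h : w < C.k) (i m : ℕ) :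
    Relation.ReflTransGen (regionRel C G b) (psi G b w i) (psi G b w (i + m)) := by
  induction m with
  | zero => exact Relation.ReflTransGen.refl
  | succ m ih =>
    refine (ih.tail (c := G.e (psi G b w (i + m)))
      (Or.inr ⟨rfl, fun j hj => hE.leg_ne_psi hw hj h _⟩)).tail (Or.inl ?_)
    rw [← Map.f_apply, psi_succ, add_assoc]

theorem region_walk_face (hw : C.WF) (hE : C.Emb G b) {w : ℕ} (h : w < C.k) (i j : ℕ) :
    Relation.ReflTransGen (regionRel C G b) (psi G b w i) (psi G b w j) := by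
  have hg := (hw.gam w h).1
  have h1 : i ≤ C.γ w * i := Nat.le_mul_of_pos_left i hg
  have h2 := region_walk_add hw hE h i (C.γ w * i - i + j)
  have h3 : i + (C.γ w * i - i + j) = C.γ w * i + j := by omega
  have h4 : psi G b w (C.γ w * i + j) = psi G b w j :=
    (psi_eq_iff (hE.deg w h) _ _).2 (Nat.mul_add_mod _ _ _)
  rwa [h3, h4] at h2

theorem region_walk_par (hw : C.WF) (hE : C.Emb G b) {w : ℕ} (h : w < C.k) (h0 : 0 < w) :
    Relation.ReflTransGen (regionRel C G b) (psi G b w 0) (psi G b (C.far w 0) 0) ∧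
    Relation.ReflTransGen (regionRel C G b) (psi G b (C.far w 0) 0) (psi G b w 0) := by
  have h1 := hE.central w h 0 (hw.par w h h0).1
  have h2 := far_lt hw h 0
  constructor
  · refine Relation.ReflTransGen.head (b := psi G b (C.far w 0) (C.rev w 0))
      (Or.inr ⟨h1.symm, fun j hj => hE.leg_ne_psi hw hj h _⟩) (region_walk_face hw hE h2 _ _)
  · refine (region_walk_face hw hE h2 0 (C.rev w 0)).tail
      (Or.inr ⟨?_, fun j hj => hE.leg_ne_psi hw hj h2 _⟩)
    rw [← h1, G.ee]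

theorem region_walk_root (hw : C.WF) (hE : C.Emb G b) {w : ℕ} (h : w < C.k) :
    Relation.ReflTransGen (regionRel C G b) (psi G b w 0) (psi G b 0 0) ∧
    Relation.ReflTransGen (regionRel C G b) (psi G b 0 0) (psi G b w 0) := by
  rcases Nat.eq_zero_or_pos w with h0 | h0
  · subst h0
    exact ⟨Relation.ReflTransGen.refl, Relation.ReflTransGen.refl⟩
  have h1 := region_walk_par hw hE h h0
  rcases Nat.eq_zero_or_pos (C.far w 0) with h2 | h2
  · rwa [h2] at h1
  have h3 := region_walk_par hw hE (far_lt hw h 0) h2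
  have h4 : C.far (C.far w 0) 0 = 0 := by
    rcases (hw.par w h h0).2 with h5 | h5
    · omega
    · exact h5
  rw [h4] at h3
  exact ⟨h1.1.trans h3.1, h3.2.trans h1.2⟩

/-- `ring`: `e (leg j)` is in the face of `n (leg j) = e (psi w (pre w i))`, then `ring_face`.
`conn`: the relation is symmetric on the region up to closure (`n ^ 3 = 1`); every kernel dart is
joined to `b 0` through `f = n e` and the parent edges. -/
theorem Emb.ring (hc : G.Cubic) (hw : C.WF) (hE : C.Emb G b) :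
    G.Ring (C.region G b) C.r (C.leg G b) := by
  refine ⟨region_closed hc, fun j hj => ?_, fun i hi j hj hij => ?_, fun d hd hl => ?_,
    fun j hj => ?_, fun i hi j hj => ?_⟩
  · exact (hE.toPre.mem_region hc hw _).2 (Or.inr ⟨j, hj, rfl⟩)
  · obtain ⟨h1, -, h3, -⟩ := hw.leg i hi
    obtain ⟨g1, -, g3, -⟩ := hw.leg j hj
    have h5 := hE.psi_inj h1 g1 (G.n.injective hij)
    rw [← h3, ← g3, ← h5.1]
    exact N_congr h5.2
  · rcases (hE.toPre.mem_region hc hw d).1 hd with ⟨w, h, i, hd | hd⟩ | ⟨j, hj, hd⟩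
    · subst hd
      exact ⟨(hE.toPre.mem_region hc hw _).2 (Or.inl ⟨w, h, i, Or.inr rfl⟩),
        fun j hj => hE.leg_ne_e_psi hc hw hj h i⟩
    · subst hd
      rw [G.ee]
      exact ⟨(hE.toPre.mem_region hc hw _).2 (Or.inl ⟨w, h, i, Or.inl rfl⟩),
        fun j hj => hE.leg_ne_psi hw hj h i⟩
    · exact absurd hd (hl j hj)
  · obtain ⟨h1, -, -, h4⟩ := hw.leg j hj
    have h5 := region_sf_f (G := G) (G.e (C.leg G b j))
    rw [region_f_e, region_n_leg hc hw hE.toPre hj] at h5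
    have h6 := hE.toPre.ring_face hc hw h1 (i := C.pre (C.L j).1 (C.L j).2)
      (by rw [h4]; exact region_mod_pos hw hj)
    rw [h4] at h6
    exact h5.trans h6
  · have h1 := (hw.leg i hi).1
    have g1 := (hw.leg j hj).1
    have s1 : Relation.ReflTransGen (regionRel C G b) (C.leg G b i)
        (psi G b (C.L i).1 (C.L i).2) :=
      (Relation.ReflTransGen.single (b := G.n (C.leg G b i)) (Or.inl rfl)).tail
        (Or.inl (hc _).symm)
    have s2 : Relation.ReflTransGen (regionRel C G b) (psi G b (C.L j).1 (C.L j).2)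
        (C.leg G b j) := Relation.ReflTransGen.single (Or.inl rfl)
    exact ((((s1.trans (region_walk_face hw hE h1 _ 0)).trans (region_walk_root hw hE h1).1).trans
      (region_walk_root hw hE g1).2).trans (region_walk_face hw hE g1 0 _)).trans s2

theorem region_K_ne : ∀ x y : K, x ≠ y → x + y ≠ 0 := by decide

theorem region_K_sum : ∀ x y z : K, (x + y) + (y + z) + (x + z) = 0 := by decide

omit [Fintype D] in
theorem region_vsum (hc : G.Cubic) (c : D → K) (d : D) :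
    G.vsum c d = c d + c (G.n d) + c (G.n (G.n d)) := by
  unfold Map.vsum
  rw [if_neg]
  intro h
  have h1 := hc d
  rw [h] at h1
  exact G.n_ne d h1

/-- the colours of the kernel darts -/
theorem region_col (hE : C.Emb G b) (φ : ℕ → K) : ∃ col : D → K, ∀ w < C.k, ∀ i,
    col (psi G b w i) = φ (C.r + w) + φ (C.N w i) := by
  classical
  refine ⟨fun d => if h : ∃ p : ℕ × ℕ, p.1 < C.k ∧ d = psi G b p.1 p.2 then
    φ (C.r + h.choose.1) + φ (C.N h.choose.1 h.choose.2) else 0, fun w hk i => ?_⟩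
  have h : ∃ p : ℕ × ℕ, p.1 < C.k ∧ psi G b w i = psi G b p.1 p.2 := ⟨(w, i), hk, rfl⟩
  have h1 := hE.psi_inj hk h.choose_spec.1 h.choose_spec.2
  simp only [dif_pos h]
  rw [← h1.1, ← N_congr h1.2]

/-- the glued colouring -/
theorem region_glue (hw : C.WF) (hE : C.Emb G b) (φ : ℕ → K) (c : D → K) : ∃ c' : D → K,
    (∀ w < C.k, ∀ i, c' (psi G b w i) = φ (C.r + w) + φ (C.N w i)) ∧
    (∀ w < C.k, ∀ i, c' (G.e (psi G b w i)) = φ (C.r + w) + φ (C.N w i)) ∧
    ∀ d, (∀ w < C.k, ∀ i, d ≠ psi G b w i ∧ d ≠ G.e (psi G b w i)) → c' d = c d := by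
  classical
  obtain ⟨col, hcol⟩ := region_col hE φ
  refine ⟨fun d => if ∃ w < C.k, ∃ i, d = psi G b w i then col d
    else if ∃ w < C.k, ∃ i, d = G.e (psi G b w i) then col (G.e d) else c d,
    fun w h i => ?_, fun w h i => ?_, fun d hd => ?_⟩
  · simp only []
    rw [if_pos ⟨w, h, i, rfl⟩, hcol w h]
  · simp only []
    by_cases h1 : ∃ u < C.k, ∃ j, G.e (psi G b w i) = psi G b u j
    · rw [if_pos h1]
      obtain ⟨u, hu, j, h2⟩ := h1
      have h3 : C.r ≤ C.N w i := by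
        by_contra h4
        refine hE.induced w h i (by omega) u hu ?_
        rw [h2]
        exact (psi_sf u j).symm
      have h5 : C.r + C.far w i = C.N w i := by
        unfold far
        omega
      rw [hE.central w h i h3, hcol _ (far_lt hw h i), hw.sym w h i h3, h5, add_comm]
    · rw [if_neg h1, if_pos ⟨w, h, i, rfl⟩, G.ee, hcol w h]
  · simp only []
    rw [if_neg, if_neg]
    · rintro ⟨w, h, i, h1⟩
      exact (hd w h i).2 h1
    · rintro ⟨w, h, i, h1⟩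
      exact (hd w h i).1 h1

/-- Colour the edge of `psi w i` by `φ (r + w) + φ (N w i)` (well defined by `psi_inj`, `central`,
`induced`, `sym`), keep the outer colouring elsewhere. At the vertex of `x = psi w i` the dart
`n x` has colour `φ (N w i) + φ (N w (pre w i))`: it is a leg (`isleg`, `leg`), or use `n_psi` and
`tc`, or `n_psi'` and `tc'`. -/
theorem Emb.colourable (hc : G.Cubic) (hw : C.WF) (hE : C.Emb G b) {κ : ℕ → K}
    (ht : G.Trace (C.region G b) C.r (C.leg G b) κ) (hx : C.Ext κ) : G.Colourable := by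
  obtain ⟨c, c1, c2, c3⟩ := ht
  obtain ⟨φ, p1, p2⟩ := hx
  obtain ⟨c', g1, g2, g3⟩ := region_glue hw hE φ c
  have hP := hE.toPre
  have key : ∀ d, c' (G.e d) = c' d ∧ c' d ≠ 0 := by
    intro d
    by_cases h : ∃ w < C.k, ∃ i, d = psi G b w i ∨ d = G.e (psi G b w i)
    · obtain ⟨w, hk, i, hd | hd⟩ := h
      · rw [hd, g1 w hk, g2 w hk]
        exact ⟨rfl, region_K_ne _ _ (p2 w hk i)⟩
      · rw [hd, G.ee, g1 w hk, g2 w hk]
        exact ⟨rfl, region_K_ne _ _ (p2 w hk i)⟩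
    · have h1 : ∀ w < C.k, ∀ i, d ≠ psi G b w i ∧ d ≠ G.e (psi G b w i) := fun w hk i =>
        ⟨fun h2 => h ⟨w, hk, i, Or.inl h2⟩, fun h2 => h ⟨w, hk, i, Or.inr h2⟩⟩
      have h2 : ∀ w < C.k, ∀ i, G.e d ≠ psi G b w i ∧ G.e d ≠ G.e (psi G b w i) := fun w hk i =>
        ⟨fun h3 => (h1 w hk i).2 (by rw [← h3, G.ee]), fun h3 => (h1 w hk i).1 (G.e.injective h3)⟩
      rw [g3 d h1, g3 _ h2]
      refine c1 d ?_
      by_cases h3 : d ∈ C.region G b
      · exact Or.inr (((hP.mem_region hc hw d).1 h3).resolve_left h)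
      · exact Or.inl h3
  have out : ∀ d ∉ C.region G b, c' d = c d := fun d hd => g3 d fun w hk i =>
    ⟨fun h => hd ((hP.mem_region hc hw d).2 (Or.inl ⟨w, hk, i, Or.inl h⟩)),
      fun h => hd ((hP.mem_region hc hw d).2 (Or.inl ⟨w, hk, i, Or.inr h⟩))⟩
  have mid : ∀ w < C.k, ∀ i,
      c' (G.n (psi G b w i)) = φ (C.N w i) + φ (C.N w (C.pre w i)) := by
    intro w h i
    by_cases h1 : C.r ≤ C.N w i
    · have h5 : C.r + C.far w i = C.N w i := by
        unfold far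
        omega
      rw [hP.n_psi h h1, g1 _ (far_lt hw h i), hw.tc w h i h1, h5]
    · by_cases h2 : C.r ≤ C.N w (C.pre w i)
      · have h5 : C.r + C.far w (C.pre w i) = C.N w (C.pre w i) := by
          unfold far
          omega
        rw [hP.n_psi' hc hw h h2, g2 _ (far_lt hw h _), tc' hw h h2, h5,
          N_congr (pre_succ_mod hw h i), add_comm]
      · have h3 : C.N w i < C.r := by omega
        have h4 := (hw.leg _ h3).2.2.2
        rw [hw.isleg w h i h3 (by omega)] at h4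
        rw [← region_leg_eq hw hP h h3 (by omega), g3 _ fun u hu j =>
          ⟨hE.leg_ne_psi hw h3 hu j, hE.leg_ne_e_psi hc hw h3 hu j⟩, ← c3 _ h3, p1 _ h3, ← h4]
        rw [N_congr (pre_congr hw h (Nat.mod_mod i (C.γ w)))]
  have ver : ∀ w < C.k, ∀ i, c' (psi G b w i) + c' (G.n (psi G b w i)) +
      c' (G.n (G.n (psi G b w i))) = 0 := by
    intro w h i
    rw [mid w h, nn_psi hc hw h (hP.deg w h), g1 w h, g2 w h]
    exact region_K_sum _ _ _
  refine ⟨c', ⟨fun d => (key d).1, fun d => ?_⟩, fun d => (key d).2⟩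
  rw [region_vsum hc]
  by_cases hd : d ∈ C.region G b
  · obtain ⟨w, h, i, hd | hd | hd⟩ := hd
    · rw [hd]
      exact ver w h i
    · rw [hd, hc, ← ver w h i]
      abel
    · rw [hd, hc, ← ver w h i]
      abel
  · have h1 : G.n d ∉ C.region G b := fun h => hd ((region_closed hc d).1 h)
    have h2 : G.n (G.n d) ∉ C.region G b := fun h => h1 ((region_closed hc _).1 h)
    rw [out _ hd, out _ h1, out _ h2, ← region_vsum hc]
    exact c2 d hd

end Pool.Agent.MP_8c1b0d_co.CT4.Conf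

/-! A configuration of radius two appears as an induced configuration. -/

namespace Pool.Agent.MP_8c1b0d_co.CT4.Conf

open Equiv Finset Function

variable {C : Conf} {D : Type} [Fintype D] {G : Map D} {b : ℕ → D}

/-- adjacency of kernel faces in the configuration -/
def KAdj (C : Conf) (u v : ℕ) : Prop := u < C.k ∧ v < C.k ∧ ∃ i, C.N u i = C.r + v

theorem embed_far {u v i : ℕ} (h : C.N u i = C.r + v) : C.far u i = v := by
  unfold far
  omega

omit [Fintype D] in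
theorem embed_central (hP : C.Pre G b) {u v i : ℕ} (hu : u < C.k) (h : C.N u i = C.r + v) :
    G.e (psi G b u i) = psi G b v (C.rev u i) := by
  rw [hP.central u hu i (by omega), embed_far h]

omit [Fintype D] in
theorem embed_sf (hP : C.Pre G b) {u v i : ℕ} (hu : u < C.k) (h : C.N u i = C.r + v) :
    G.sf (G.e (psi G b u i)) (b v) := by
  rw [embed_central hP hu h]
  exact (psi_sf v _).symm

omit [Fintype D] in
theorem embed_sf' (hP : C.Pre G b) {u v i : ℕ} (hu : u < C.k) (h : C.N u i = C.r + v) (j : ℕ) :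
    G.sf (G.e (psi G b u i)) (psi G b v j) :=
  (embed_sf hP hu h).trans (psi_sf v j)

theorem embed_symm (hw : C.WF) {u v : ℕ} (h : C.KAdj u v) : C.KAdj v u := by
  obtain ⟨hu, hv, i, hi⟩ := h
  have := hw.sym u hu i (by omega)
  rw [embed_far hi] at this
  exact ⟨hv, hu, _, this⟩

omit [Fintype D] in
theorem embed_adj_symm {x y : D} (h : G.Adj x y) : G.Adj y x := by
  obtain ⟨z, h1, h2⟩ := h
  exact ⟨G.e z, h2.symm, by rw [G.ee]; exact h1.symm⟩

omit [Fintype D] in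
theorem embed_adj_congr {x y x' y' : D} (h : G.Adj x y) (hx : G.sf x' x) (hy : G.sf y' y) :
    G.Adj x' y' := by
  obtain ⟨z, h1, h2⟩ := h
  exact ⟨z, hx.trans h1, h2.trans hy.symm⟩

omit [Fintype D] in
theorem embed_adj (hP : C.Pre G b) {u v : ℕ} (h : C.KAdj u v) : G.Adj (b u) (b v) := by
  obtain ⟨hu, -, i, hi⟩ := h
  exact ⟨_, psi_sf u i, embed_sf hP hu hi⟩

theorem embed_loop (hG : G.MinCex) {x y : D} (h : G.Adj x y) : ¬ G.sf x y := fun h' => by
  obtain ⟨z, h1, h2⟩ := h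
  exact Map.no_loop hG z (h2.trans (h'.symm.trans h1))

theorem embed_A2 (hG : G.MinCex) (hw : C.WF) (hP : C.Pre G b) {u v w : ℕ} (h1 : C.KAdj u v)
    (h2 : C.KAdj v w) (h : G.sf (b u) (b w)) : u = w := by
  obtain ⟨hv, -, i, hi⟩ := embed_symm hw h1
  obtain ⟨-, -, j, hj⟩ := h2
  have := Map.no_double hG ((psi_sf v i).symm.trans (psi_sf v j))
    ((embed_sf hP hv hi).trans (h.trans (embed_sf hP hv hj).symm))
  have := N_congr ((psi_eq_iff (hP.deg v hv) i j).1 this)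
  omega

theorem embed_B2 (hG : G.MinCex) (hw : C.WF) (hP : C.Pre G b) {u v w : ℕ} (h1 : C.KAdj u v)
    (h2 : C.KAdj v w) (h : G.Adj (b u) (b w)) : C.KAdj u w := by
  obtain ⟨hu, hv, i, hi⟩ := h1
  obtain ⟨-, hw', j, hj⟩ := h2
  obtain ⟨z, hz, hz'⟩ := embed_adj_symm h
  have hr : C.r ≤ C.N u i := by omega
  rcases Map.tri hG (embed_sf' hP hu hi j) ((embed_sf hP hv hj).trans hz)
    (hz'.trans (psi_sf u i)) with h3 | h3
  · rw [embed_central hP hu hi, psi_succ, psi_eq_iff (hP.deg v hv)] at h3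
    have h4 := hw.tc u hu i hr
    rw [embed_far hi, ← N_congr h3, hj] at h4
    exact ⟨hu, hw', _, h4.symm⟩
  · rw [embed_central hP hu hi, psi_succ, psi_eq_iff (hP.deg v hv)] at h3
    have h4 := tc' hw hu hr
    rw [embed_far hi, N_congr ((pre_congr hw hv h3).trans (pre_succ_mod' hw hv j)), hj] at h4
    exact ⟨hu, hw', _, h4.symm⟩

theorem embed_A3 (hG : G.MinCex) (hw : C.WF) (hP : C.Pre G b) {u₀ u₁ u₂ u₃ : ℕ}
    (h1 : C.KAdj u₀ u₁) (h2 : C.KAdj u₁ u₂) (h3 : C.KAdj u₂ u₃) (h : G.sf (b u₀) (b u₃)) :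
    u₀ = u₃ :=
  embed_A2 hG hw hP h1 (embed_B2 hG hw hP h2 h3
    (embed_adj_congr (embed_adj hP (embed_symm hw h1)) (.refl _ _) h.symm)) h

theorem embed_B3 (hG : G.MinCex) (hw : C.WF) (hP : C.Pre G b) {u₀ u₁ u₂ u₃ : ℕ}
    (h1 : C.KAdj u₀ u₁) (h2 : C.KAdj u₁ u₂) (h3 : C.KAdj u₂ u₃) (h : G.Adj (b u₀) (b u₃)) :
    C.KAdj u₀ u₃ := by
  obtain ⟨i₀, e₀⟩ := h1.2.2
  obtain ⟨i₁, e₁⟩ := h2.2.2
  obtain ⟨i₂, e₂⟩ := h3.2.2
  obtain ⟨z, hz, hz'⟩ := embed_adj_symm h
  rcases Map.quad hG (embed_sf' hP h1.1 e₀ i₁) (embed_sf' hP h2.1 e₁ i₂)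
    ((embed_sf hP h3.1 e₂).trans hz) (hz'.trans (psi_sf u₀ i₀)) with h4 | h4 | h4 | h4
  · rw [embed_A2 hG hw hP h1 h2 ((psi_sf _ _).trans (h4.trans (psi_sf _ _).symm))]
    exact h3
  · rw [← embed_A2 hG hw hP h2 h3 ((psi_sf _ _).trans (h4.trans hz.symm))]
    exact h1
  · exact embed_B2 hG hw hP
      (embed_B2 hG hw hP h1 h2 (embed_adj_congr h4 (psi_sf _ _) (psi_sf _ _))) h3 h
  · exact embed_B2 hG hw hP h1 (embed_B2 hG hw hP h2 h3 (embed_adj_congr h4 (psi_sf _ _) hz)) h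

theorem embed_A4 (hG : G.MinCex) (hw : C.WF) (hP : C.Pre G b) {u₀ u₁ u₂ u₃ u₄ : ℕ}
    (h1 : C.KAdj u₀ u₁) (h2 : C.KAdj u₁ u₂) (h3 : C.KAdj u₂ u₃) (h4 : C.KAdj u₃ u₄)
    (h : G.sf (b u₀) (b u₄)) : u₀ = u₄ :=
  embed_A2 hG hw hP h1 (embed_B3 hG hw hP h2 h3 h4
    (embed_adj_congr (embed_adj hP (embed_symm hw h1)) (.refl _ _) h.symm)) h

theorem embed_walk_congr (hw : C.WF) {m w i j : ℕ} (h : w < C.k)
    (hij : i % C.γ w = j % C.γ w) (hm : C.Walk m w i) : C.Walk m w j := by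
  have hp := pre_congr hw h hij
  cases m with
  | zero =>
    unfold Walk at hm ⊢
    rwa [N_congr hp] at hm
  | succ m =>
    unfold Walk at hm ⊢
    rwa [N_congr hp, far_congr hp, rev_congr hp] at hm

theorem embed_walk_zero (hw : C.WF) {u v i : ℕ} (hu : u < C.k) (h : C.N u i = C.r + v) :
    ¬ C.Walk 0 u (i + 1) := by
  unfold Walk
  rw [N_congr (pre_succ_mod' hw hu i)]
  omega

theorem embed_walk_succ (hw : C.WF) {m u v i : ℕ} (hu : u < C.k) (h : C.N u i = C.r + v)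
    (hm : C.Walk (m + 1) u (i + 1)) : C.Walk m v (C.pre v (C.rev u i)) := by
  have hp := pre_succ_mod' hw hu i
  unfold Walk at hm
  rw [N_congr hp, far_congr hp, rev_congr hp, embed_far h] at hm
  exact hm.resolve_left (by omega)

theorem embed_two (hw : C.WF) {v i j : ℕ} (hv : v < C.k) (h : i % C.γ v = (j + 1 + 1) % C.γ v) :
    C.pre v i % C.γ v = (j + 1) % C.γ v :=
  (pre_congr hw hv h).trans (pre_succ_mod' hw hv _)

/-- the wheel, read forwards -/
theorem embed_wheel (hw : C.WF) {u₀ u₁ u₂ u₃ u₄ i₀ i₁ i₂ i₃ : ℕ} (k₀ : u₀ < C.k) (k₁ : u₁ < C.k)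
    (k₂ : u₂ < C.k) (k₃ : u₃ < C.k) (k₄ : u₄ < C.k) (e₀ : C.N u₀ i₀ = C.r + u₁)
    (e₁ : C.N u₁ i₁ = C.r + u₂) (e₂ : C.N u₂ i₂ = C.r + u₃) (e₃ : C.N u₃ i₃ = C.r + u₄)
    (p₁ : C.rev u₀ i₀ % C.γ u₁ = (i₁ + 1 + 1) % C.γ u₁)
    (p₂ : C.rev u₁ i₁ % C.γ u₂ = (i₂ + 1 + 1) % C.γ u₂)
    (p₃ : C.rev u₂ i₂ % C.γ u₃ = (i₃ + 1 + 1) % C.γ u₃) :
    ∃ v, C.KAdj u₀ v ∧ C.KAdj v u₄ := by
  have q₁ := embed_two hw k₁ p₁
  have q₂ := embed_two hw k₂ p₂
  have q₃ := embed_two hw k₃ p₃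
  by_cases hy : C.N u₀ (i₀ + 1) < C.r
  · have w₀ := hw.walk u₀ k₀ _ hy
    have w₁ := embed_walk_congr hw k₁ q₁ (embed_walk_succ hw k₀ e₀ w₀)
    have w₂ := embed_walk_congr hw k₂ q₂ (embed_walk_succ hw k₁ e₁ w₁)
    have w₃ := embed_walk_congr hw k₃ q₃ (embed_walk_succ hw k₂ e₂ w₂)
    exact absurd w₃ (embed_walk_zero hw k₃ e₃)
  · have t₀ := tc' hw k₀ (i := i₀) (by omega)
    have t₁ := tc' hw k₁ (i := i₁) (by omega)
    have t₂ := tc' hw k₂ (i := i₂) (by omega)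
    have t₃ := tc' hw k₃ (i := i₃) (by omega)
    rw [embed_far e₀, N_congr q₁] at t₀
    rw [embed_far e₁, N_congr q₂] at t₁
    rw [embed_far e₂, N_congr q₃] at t₂
    rw [embed_far e₃] at t₃
    have hl := hw.lab u₀ k₀ (i₀ + 1)
    refine ⟨C.N u₀ (i₀ + 1) - C.r, ⟨k₀, by omega, i₀ + 1, by omega⟩,
      embed_symm hw ⟨k₄, by omega, C.pre u₄ (C.rev u₃ i₃), by omega⟩⟩

theorem embed_rev (hw : C.WF) {u v i : ℕ} (hu : u < C.k) (h : C.N u i = C.r + v) :
    C.N v (C.rev u i) = C.r + u ∧ C.rev v (C.rev u i) % C.γ u = i % C.γ u := by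
  have h1 := hw.sym u hu i (by omega)
  have h2 := rev_rev hw hu (i := i) (by omega)
  rw [embed_far h] at h1 h2
  exact ⟨h1, h2⟩

theorem embed_B4 (hG : G.MinCex) (hw : C.WF) (hP : C.Pre G b) {u₀ u₁ u₂ u₃ u₄ : ℕ}
    (h1 : C.KAdj u₀ u₁) (h2 : C.KAdj u₁ u₂) (h3 : C.KAdj u₂ u₃) (h4 : C.KAdj u₃ u₄)
    (h : G.Adj (b u₀) (b u₄)) : C.KAdj u₀ u₄ := by
  obtain ⟨i₀, e₀⟩ := h1.2.2
  obtain ⟨i₁, e₁⟩ := h2.2.2
  obtain ⟨i₂, e₂⟩ := h3.2.2
  obtain ⟨i₃, e₃⟩ := h4.2.2
  obtain ⟨z, hz, hz'⟩ := embed_adj_symm h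
  have s₀ := psi_sf (G := G) (b := b) u₀ i₀
  have s₁ := psi_sf (G := G) (b := b) u₁ i₁
  have s₂ := psi_sf (G := G) (b := b) u₂ i₂
  have s₃ := psi_sf (G := G) (b := b) u₃ i₃
  rcases Map.pent hG ![psi G b u₀ i₀, psi G b u₁ i₁, psi G b u₂ i₂, psi G b u₃ i₃, z] (fun t => by
    fin_cases t
    exacts [embed_sf' hP h1.1 e₀ i₁, embed_sf' hP h2.1 e₁ i₂, embed_sf' hP h3.1 e₂ i₃,
      (embed_sf hP h4.1 e₃).trans hz, hz'.trans s₀]) with ⟨t, ht⟩ | ht | ht
  · fin_cases t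
    · rcases ht with ht | ht
      · obtain rfl := embed_A2 hG hw hP h1 h2 (s₀.trans (ht.trans s₂.symm))
        exact embed_B2 hG hw hP h3 h4 h
      · exact embed_B3 hG hw hP (embed_B2 hG hw hP h1 h2 (embed_adj_congr ht s₀ s₂)) h3 h4 h
    · rcases ht with ht | ht
      · obtain rfl := embed_A2 hG hw hP h2 h3 (s₁.trans (ht.trans s₃.symm))
        exact embed_B2 hG hw hP h1 h4 h
      · exact embed_B3 hG hw hP h1 (embed_B2 hG hw hP h2 h3 (embed_adj_congr ht s₁ s₃)) h4 h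
    · rcases ht with ht | ht
      · obtain rfl := embed_A2 hG hw hP h3 h4 (s₂.trans (ht.trans hz.symm))
        exact embed_B2 hG hw hP h1 h2 h
      · exact embed_B3 hG hw hP h1 h2 (embed_B2 hG hw hP h3 h4 (embed_adj_congr ht s₂ hz)) h
    · rcases ht with ht | ht
      · obtain rfl := embed_A3 hG hw hP h1 h2 h3 (s₀.trans (ht.symm.trans s₃.symm))
        exact h4
      · exact embed_B2 hG hw hP
          (embed_B3 hG hw hP h1 h2 h3 (embed_adj_congr (embed_adj_symm ht) s₀ s₃)) h4 h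
    · rcases ht with ht | ht
      · obtain rfl := embed_A3 hG hw hP h2 h3 h4 (s₁.trans (ht.symm.trans hz.symm))
        exact h1
      · exact embed_B2 hG hw hP h1
          (embed_B3 hG hw hP h2 h3 h4 (embed_adj_congr (embed_adj_symm ht) s₁ hz)) h
  · have p₁ : psi G b u₁ i₁ = G.f (G.f (G.e (psi G b u₀ i₀))) := ht 0
    have p₂ : psi G b u₂ i₂ = G.f (G.f (G.e (psi G b u₁ i₁))) := ht 1
    have p₃ : psi G b u₃ i₃ = G.f (G.f (G.e (psi G b u₂ i₂))) := ht 2
    rw [embed_central hP h1.1 e₀, psi_succ, psi_succ, psi_eq_iff (hP.deg _ h2.1)] at p₁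
    rw [embed_central hP h2.1 e₁, psi_succ, psi_succ, psi_eq_iff (hP.deg _ h3.1)] at p₂
    rw [embed_central hP h3.1 e₂, psi_succ, psi_succ, psi_eq_iff (hP.deg _ h4.1)] at p₃
    obtain ⟨r₀, -⟩ := embed_rev hw h1.1 e₀
    obtain ⟨r₁, r₁'⟩ := embed_rev hw h2.1 e₁
    obtain ⟨r₂, r₂'⟩ := embed_rev hw h3.1 e₂
    obtain ⟨r₃, r₃'⟩ := embed_rev hw h4.1 e₃
    obtain ⟨v, a, a'⟩ := embed_wheel hw h4.2.1 h4.1 h3.1 h2.1 h1.1 r₃ r₂ r₁ r₀ (r₃'.trans p₃)
      (r₂'.trans p₂) (r₁'.trans p₁)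
    exact embed_B2 hG hw hP (embed_symm hw a') (embed_symm hw a) h
  · have p₁ : G.e (psi G b u₀ i₀) = G.f (G.f (psi G b u₁ i₁)) := ht 0
    have p₂ : G.e (psi G b u₁ i₁) = G.f (G.f (psi G b u₂ i₂)) := ht 1
    have p₃ : G.e (psi G b u₂ i₂) = G.f (G.f (psi G b u₃ i₃)) := ht 2
    rw [embed_central hP h1.1 e₀, psi_succ, psi_succ, psi_eq_iff (hP.deg _ h2.1)] at p₁
    rw [embed_central hP h2.1 e₁, psi_succ, psi_succ, psi_eq_iff (hP.deg _ h3.1)] at p₂
    rw [embed_central hP h3.1 e₂, psi_succ, psi_succ, psi_eq_iff (hP.deg _ h4.1)] at p₃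
    obtain ⟨v, a, a'⟩ := embed_wheel hw h1.1 h2.1 h3.1 h4.1 h4.2.1 e₀ e₁ e₂ e₃ p₁ p₂ p₃
    exact embed_B2 hG hw hP a a' h

theorem embed_par (hw : C.WF) {w : ℕ} (h : w < C.k) (h0 : w ≠ 0) : C.KAdj w (C.far w 0) := by
  have := (hw.par w h (by omega)).1
  exact ⟨h, far_lt hw h 0, 0, by unfold far; omega⟩

theorem embed_root (hw : C.WF) {w : ℕ} (h : w < C.k) :
    w = 0 ∨ C.KAdj w 0 ∨ ∃ p, C.KAdj w p ∧ C.KAdj p 0 := by
  by_cases h0 : w = 0
  · exact Or.inl h0
  have h1 := embed_par hw h h0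
  by_cases h2 : C.far w 0 = 0
  · exact Or.inr (Or.inl (h2 ▸ h1))
  · have h3 := ((hw.par w h (by omega)).2).resolve_left h2
    have h4 := embed_par hw h1.2.1 h2
    rw [h3] at h4
    exact Or.inr (Or.inr ⟨_, h1, h4⟩)

theorem embed_conn (hw : C.WF) {u v : ℕ} (hu : u < C.k) (hv : v < C.k) : u = v ∨
    (∃ p q, C.KAdj u p ∧ C.KAdj p q ∧ C.KAdj q v) ∨
    ∃ p q s, C.KAdj u p ∧ C.KAdj p q ∧ C.KAdj q s ∧ C.KAdj s v := by
  have S : ∀ {x y : ℕ}, C.KAdj x y → C.KAdj y x := embed_symm hw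
  rcases embed_root hw hu with rfl | a | ⟨p, a, a'⟩ <;>
    rcases embed_root hw hv with rfl | c | ⟨q, c, c'⟩
  · exact Or.inl rfl
  · exact Or.inr (Or.inl ⟨_, _, S c, c, S c⟩)
  · exact Or.inr (Or.inr ⟨_, _, _, S c', c', S c', S c⟩)
  · exact Or.inr (Or.inl ⟨_, _, a, S a, a⟩)
  · exact Or.inr (Or.inr ⟨_, _, _, a, S a, a, S c⟩)
  · exact Or.inr (Or.inl ⟨_, _, a, S c', S c⟩)
  · exact Or.inr (Or.inr ⟨_, _, _, a, S a, a, a'⟩)
  · exact Or.inr (Or.inl ⟨_, _, a, a', S c⟩)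
  · exact Or.inr (Or.inr ⟨_, _, _, a, a', S c', S c⟩)

/-- TASK Embed. Paths `v₀ … vₘ` for `KAdj` (symmetric by `sym`), darts `x t = psi (v t) (i t)` with
`e (x t) = psi (v (t+1)) (rev …)`. Prove in this order
A1 `KAdj u v → ¬ sf (b u) (b v)` (`no_loop`);
A2 path of length 2 with `sf` ends has equal ends (`no_double`, `psi_eq_iff`);
B2 path of length 2 with `Adj` ends has `KAdj` ends (`tri`, then `tc` or `tc'`);
A3 (B2, A2); B3 (`quad`, A2, B2); A4 (B3, A2);
B4 (`pent`: coincidences and chords reduce to A2, A3, B2, B3; in the wheel case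
`i (t+1) = rev + 2` or `rev = i (t+1) + 2` modulo `γ`, so by `tc`, `tc'` one label `y` is seen from
all five faces at consecutive steps of `Walk`; a kernel label gives a path of length 2 (B2), a
ring label contradicts `walk`: in the first case start at position `rev (v 3) (i 3) + 1` of `v 4`,
in the second at position `i 0 + 1` of `v 0`).
Any two kernel faces are joined by at most four steps (`par`). `induced`: if `e (psi w i)` lies in
the face of `b u` then `w ≠ u`, `KAdj w u` through some `i'`, and `no_double` gives `i = i'`. -/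
theorem Pre.emb (hG : G.MinCex) (hw : C.WF) (hP : C.Pre G b) : C.Emb G b := by
  refine ⟨hP, fun u hu v hv h => ?_, fun w hw' i hi u hu h => ?_⟩
  · rcases embed_conn hw hu hv with h0 | ⟨p, q, a₁, a₂, a₃⟩ | ⟨p, q, s, a₁, a₂, a₃, a₄⟩
    exacts [h0, embed_A3 hG hw hP a₁ a₂ a₃ h, embed_A4 hG hw hP a₁ a₂ a₃ a₄ h]
  · have ha : G.Adj (b w) (b u) := ⟨_, psi_sf w i, h⟩
    have hk : C.KAdj w u := by
      rcases embed_conn hw hw' hu with rfl | ⟨p, q, a₁, a₂, a₃⟩ | ⟨p, q, s, a₁, a₂, a₃, a₄⟩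
      exacts [absurd (.refl _ _) (embed_loop hG ha), embed_B3 hG hw hP a₁ a₂ a₃ ha,
        embed_B4 hG hw hP a₁ a₂ a₃ a₄ ha]
    obtain ⟨-, -, j, hj⟩ := hk
    have := Map.no_double hG ((psi_sf w i).symm.trans (psi_sf w j))
      (h.trans (embed_sf hP hw' hj).symm)
    have := N_congr ((psi_eq_iff (hP.deg w hw') i j).1 this)
    omega

end Pool.Agent.MP_8c1b0d_co.CT4.Conf

/-! Reducible configurations do not occur. -/

namespace Pool.Agent.MP_8c1b0d_co.CT4

open Equiv Finset Function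

namespace Conf

variable {C : Conf} {D : Type} [Fintype D] {G : Map D} {b : ℕ → D}

/-- the darts of the contract edges -/
def Reduce_Z (C : Conf) (G : Map D) (b : ℕ → D) : Set D :=
  {d | ∃ p ∈ C.X, d = psi G b p.1 p.2 ∨ d = G.e (psi G b p.1 p.2)}

omit [Fintype D] in
theorem Reduce_e_mem {d : D} (h : d ∈ Reduce_Z C G b) : G.e d ∈ Reduce_Z C G b := by
  obtain ⟨p, hp, h | h⟩ := h
  · exact ⟨p, hp, Or.inr (by rw [h])⟩
  · exact ⟨p, hp, Or.inl (by rw [h, G.ee])⟩

theorem Reduce_psi_mem (hw : C.WF) (hE : C.Emb G b) {w : ℕ} (h : w < C.k) (i : ℕ) :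
    psi G b w i ∈ Reduce_Z C G b ↔ C.InX (C.r + w) (C.N w i) := by
  constructor
  · rintro ⟨p, hp, h1 | h1⟩
    · obtain ⟨h2, h3⟩ := hE.psi_inj h (hw.xmem p hp) h1
      refine ⟨p, hp, Or.inl ⟨by rw [h2], ?_⟩⟩
      rw [← h2]
      exact N_congr h3
    · have hpk := hw.xmem p hp
      rcases lt_or_ge (C.N p.1 p.2) C.r with hr | hr
      · refine absurd ?_ (hE.induced p.1 hpk p.2 hr w h)
        rw [← h1]
        exact (psi_sf w i).symm
      · rw [hE.central p.1 hpk p.2 hr] at h1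
        obtain ⟨h2, h3⟩ := hE.psi_inj h (far_lt hw hpk p.2) h1
        refine ⟨p, hp, Or.inr ⟨?_, ?_⟩⟩
        · rw [N_congr h3, h2]
          exact hw.sym p.1 hpk p.2 hr
        · rw [h2]
          unfold far
          omega
  · rintro ⟨p, hp, ⟨h1, h2⟩ | ⟨h1, h2⟩⟩
    · have h3 : w = p.1 := by omega
      refine ⟨p, hp, Or.inl ?_⟩
      rw [← h3] at h2 ⊢
      exact (psi_eq_iff (hE.deg w h) _ _).2 (hw.nodup w h _ _ h2)
    · have hpk := hw.xmem p hp
      have hr : C.r ≤ C.N p.1 p.2 := by omega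
      have h3 : C.far p.1 p.2 = w := by
        unfold far
        omega
      have h4 := hw.sym p.1 hpk p.2 hr
      refine ⟨p, hp, Or.inr ?_⟩
      rw [hE.central p.1 hpk p.2 hr]
      rw [h3] at h4 ⊢
      exact (psi_eq_iff (hE.deg w h) _ _).2 (hw.nodup w h _ _ (h1.trans h4.symm))

theorem Reduce_leg_not_mem (hc : G.Cubic) (hw : C.WF) (hE : C.Emb G b) {j : ℕ} (hj : j < C.r) :
    C.leg G b j ∉ Reduce_Z C G b := by
  rintro ⟨p, hp, h | h⟩
  · exact hE.leg_ne_psi hw hj (hw.xmem p hp) _ h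
  · exact hE.leg_ne_e_psi hc hw hj (hw.xmem p hp) _ h

theorem Reduce_n_mem (hc : G.Cubic) (hw : C.WF) (hE : C.Emb G b) {w : ℕ} (h : w < C.k) (i : ℕ)
    (hn : G.n (psi G b w i) ∈ Reduce_Z C G b) : C.InX (C.N w i) (C.N w (C.pre w i)) := by
  rcases lt_or_ge (C.N w i) C.r with hr | hr
  · rcases lt_or_ge (C.N w (C.pre w i)) C.r with hr' | hr'
    · refine absurd hn ?_
      have h1 : C.leg G b (C.N w i) = G.n (psi G b w i) := by
        unfold leg
        rw [hw.isleg w h i hr hr']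
        exact congrArg _ ((psi_eq_iff (hE.deg w h) _ _).2 (Nat.mod_mod _ _))
      rw [← h1]
      exact Reduce_leg_not_mem hc hw hE hr
    · rw [hE.toPre.n_psi' hc hw h hr'] at hn
      have h1 := Reduce_e_mem hn
      rw [G.ee, Reduce_psi_mem hw hE (far_lt hw h _), tc' hw h hr',
        N_congr (pre_succ_mod hw h i)] at h1
      have h2 : C.r + C.far w (C.pre w i) = C.N w (C.pre w i) := by
        unfold far
        omega
      rw [h2] at h1
      exact h1.symm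
  · rw [hE.toPre.n_psi h hr, Reduce_psi_mem hw hE (far_lt hw h _), hw.tc w h i hr] at hn
    have h2 : C.r + C.far w i = C.N w i := by
      unfold far
      omega
    rwa [h2] at hn

theorem Reduce_sparse (hc : G.Cubic) (hw : C.WF) (hE : C.Emb G b) :
    ∀ d ∈ Reduce_Z C G b, G.n d ∉ Reduce_Z C G b := by
  rintro d ⟨p, hp, h⟩ hn
  have hpk := hw.xmem p hp
  have h0 : C.InX (C.r + p.1) (C.N p.1 p.2) := ⟨p, hp, Or.inl ⟨rfl, rfl⟩⟩
  rcases h with h | h
  · rw [h] at hn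
    exact (hw.sparse p.1 hpk p.2 h0).1 (Reduce_n_mem hc hw hE hpk _ hn)
  · rw [h, ← G.f_apply, psi_succ, Reduce_psi_mem hw hE hpk] at hn
    refine (hw.sparse p.1 hpk _ hn).2 ?_
    rwa [N_congr (pre_succ_mod' hw hpk p.2)]

omit [Fintype D] in
theorem Reduce_ncard : (Reduce_Z C G b).ncard ≤ 2 * C.X.length := by
  classical
  have h1 : Reduce_Z C G b = ↑((C.X.map (fun p => psi G b p.1 p.2) ++
      C.X.map (fun p => G.e (psi G b p.1 p.2))).toFinset) := by
    ext d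
    simp only [Reduce_Z, Set.mem_ofPred_eq, Finset.mem_coe, List.mem_toFinset, List.mem_append,
      List.mem_map]
    constructor
    · rintro ⟨p, hp, h | h⟩
      · exact Or.inl ⟨p, hp, h.symm⟩
      · exact Or.inr ⟨p, hp, h.symm⟩
    · rintro (⟨p, hp, h⟩ | ⟨p, hp, h⟩)
      · exact ⟨p, hp, Or.inl h.symm⟩
      · exact ⟨p, hp, Or.inr h.symm⟩
  rw [h1, Set.ncard_coe_finset]
  refine (List.toFinset_card_le _).trans ?_
  simp only [List.length_append, List.length_map]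
  omega

theorem Reduce_face (hc : G.Cubic) (hw : C.WF) (hE : C.Emb G b) {u w i j : ℕ} (hu : u < C.k)
    (h : w < C.k) (he : C.N u i = C.N w j) :
    G.sf (G.e (psi G b u i)) (G.e (psi G b w j)) := by
  rcases lt_or_ge (C.N u i) C.r with hr | hr
  · have h1 := hE.toPre.ring_face hc hw hu hr
    have h2 := hE.toPre.ring_face hc hw h (he ▸ hr)
    rw [← he] at h2
    exact h1.trans h2.symm
  · have h1 : C.far u i = C.far w j := by
      unfold far
      rw [he]
    rw [hE.central u hu i hr, hE.central w h j (he ▸ hr), h1]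
    exact (psi_sf _ _).symm.trans (psi_sf _ _)

theorem Reduce_touch (hc : G.Cubic) (hw : C.WF) (hE : C.Emb G b) {v i a : ℕ} (hv : v < C.k)
    (h : C.InX (C.N v i) a) : ∃ z ∈ Reduce_Z C G b, G.sf (G.e (psi G b v i)) z := by
  obtain ⟨p, hp, ⟨h1, -⟩ | ⟨-, h1⟩⟩ := h
  · refine ⟨psi G b p.1 p.2, ⟨p, hp, Or.inl rfl⟩, ?_⟩
    have h2 : C.far v i = p.1 := by
      unfold far
      omega
    rw [hE.central v hv i (by omega), h2]
    exact (psi_sf _ _).symm.trans (psi_sf _ _)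
  · exact ⟨_, ⟨p, hp, Or.inr rfl⟩, Reduce_face hc hw hE hv (hw.xmem p hp) h1⟩

/-- TASK Reduce4. Apply `no_wheel` with `v = b v`. A dart of `Z` in the face of `b v` is some
`psi v i` (`exists_psi`, `Reduce_psi_mem`). If `InX (N v i) a` through `p ∈ X`, then `psi p` (when
`N v i = r + p.1`, use `central`) or `e (psi p)` (when `N v i = N p.1 p.2`, use `central` twice or
`ring_face` twice) lies in the face of `e (psi v i)`. The last hypothesis is `Reduce_n_mem`. -/
theorem Reduce_flow (hG : G.MinCex) (hw : C.WF) (hE : C.Emb G b) :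
    ∃ c : D → K, G.Cyc c ∧ ∀ d, c d = 0 ↔ d ∈ Reduce_Z C G b := by
  have hne : (Reduce_Z C G b).Nonempty := by
    obtain ⟨p, hp⟩ := List.exists_mem_of_ne_nil _ hw.xne
    exact ⟨_, p, hp, Or.inl rfl⟩
  have h1 := Reduce_ncard (C := C) (G := G) (b := b)
  have h2 := hw.xlen
  rcases hw.triad with h | ⟨v, hv, ha, ⟨i₁, i₂, i₃, h12, h23, h3, hi₁, hi₂, hi₃⟩, h5⟩
  · exact Map.contract_flow hG _ (fun _ => Reduce_e_mem) hne (Reduce_sparse hG.cubic hw hE)
      (by omega)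
  · refine Map.contract_flow4 hG _ (fun _ => Reduce_e_mem) hne (Reduce_sparse hG.cubic hw hE)
      (by omega) ?_
    have hd := hE.deg v hv
    have hn : ∀ i j, i < j → j < C.γ v → psi G b v i ≠ psi G b v j := by
      intro i j hij hj he
      rw [psi_eq_iff hd, Nat.mod_eq_of_lt (hij.trans hj), Nat.mod_eq_of_lt hj] at he
      omega
    obtain ⟨a₁, hi₁⟩ := hi₁
    obtain ⟨a₂, hi₂⟩ := hi₂
    obtain ⟨a₃, hi₃⟩ := hi₃
    refine Map.no_wheel hG _ (fun _ => Reduce_e_mem) (b v) (fun z hz hs => ?_)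
      ⟨psi G b v i₁, psi G b v i₂, psi G b v i₃, hn _ _ h12 (h23.trans h3),
        hn _ _ (h12.trans h23) h3, hn _ _ h23 h3, psi_sf _ _, psi_sf _ _, psi_sf _ _,
        Reduce_touch hG.cubic hw hE hv hi₁, Reduce_touch hG.cubic hw hE hv hi₂,
        Reduce_touch hG.cubic hw hE hv hi₃⟩ fun h => ?_
    · obtain ⟨i, rfl⟩ := exists_psi hs
      exact ha i ((Reduce_psi_mem hw hE hv i).1 hz)
    · obtain ⟨i, h6, h7⟩ := h5 (hd.symm.trans h)
      refine ⟨psi G b v i, psi_sf _ _, fun h8 => h6 (Reduce_n_mem hG.cubic hw hE hv i h8),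
        fun h8 => h7 ?_⟩
      rw [psi_succ] at h8
      have h9 := Reduce_n_mem hG.cubic hw hE hv _ h8
      rwa [N_congr (pre_succ_mod' hw hv i)] at h9

theorem Reduce_add_eq_zero : ∀ x y : K, x + y = 0 ↔ x = y := by
  decide

/-- TASK Reduce. `Z = {psi p, e (psi p) | p ∈ X}` has at most six darts. Show
`psi w i ∈ Z ↔ InX (r + w) (N w i)` (`nodup`, `central`, `induced`, `sym`), legs are not in `Z`,
and `n (psi w i) ∈ Z → InX (N w i) (N w (pre w i))` (`n_psi`, `n_psi'`, `isleg`). Every dart of `Z`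
is `psi w i` or `e (psi w i) = n (n (psi w (i+1)))`, so `sparse` gives sparseness. Take the flow of
`contract_flow`, its face colouring `h`, `φ j = h (leg j)` for `j < r`, `φ (r + w) = h (b w)`; then
`φ (N w i) = h (e (psi w i))` by `central` and `ring_face`. -/
theorem Emb.contract (hG : G.MinCex) (hw : C.WF) (hE : C.Emb G b) :
    ∃ κ, G.Trace (C.region G b) C.r (C.leg G b) κ ∧ C.ExtX κ := by
  obtain ⟨c, hc, hz⟩ := Reduce_flow hG hw hE
  obtain ⟨h, hf, hh⟩ := Map.exists_face_col hG.planar c hc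
  refine ⟨fun j => c (C.leg G b j), ⟨c, ?_, fun d _ => hc.2 d, fun _ _ => rfl⟩,
    fun a => if a < C.r then h (C.leg G b a) else h (b (a - C.r)), ?_, ?_⟩
  · intro d hd
    refine ⟨hc.1 d, fun h0 => ?_⟩
    have hd' := (hz d).1 h0
    rcases hd with hd | ⟨j, hj, hd⟩
    · obtain ⟨p, hp, hp'⟩ := hd'
      exact hd ((hE.toPre.mem_region hG.cubic hw d).2 (Or.inl ⟨p.1, hw.xmem p hp, p.2, hp'⟩))
    · rw [← hd] at hd'
      exact Reduce_leg_not_mem hG.cubic hw hE hj hd'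
  · intro j hj
    have hj' : (j + 1) % C.r < C.r := Nat.mod_lt _ (by omega)
    simp only [if_pos hj, if_pos hj']
    rw [hh, hf _ _ ((hE.ring hG.cubic hw).ring j hj)]
  · intro w hk i
    have h1 : ¬ C.r + w < C.r := by omega
    have h2 : (if C.N w i < C.r then h (C.leg G b (C.N w i)) else h (b (C.N w i - C.r))) =
        h (G.e (psi G b w i)) := by
      split_ifs with hr
      · exact (hf _ _ (hE.toPre.ring_face hG.cubic hw hk hr)).symm
      · rw [hE.central w hk i (not_lt.1 hr)]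
        exact hf _ _ (psi_sf _ _)
    simp only [if_neg h1, h2, Nat.add_sub_cancel_left]
    rw [hf _ _ (psi_sf w i), ← Reduce_add_eq_zero, ← hh, hz, Reduce_psi_mem hw hE hk]

theorem excluded (hw : C.WF) (hr : C.Reducible) : C.pattern.Excluded := by
  intro D _ G hG d hd
  have hE := (pre_of_holds hG.cubic hw hd).emb hG hw
  obtain ⟨κ, h1, h2⟩ := hE.contract hG hw
  exact hr _ (Map.kempeClosed hG.cubic hG.planar (hE.ring hG.cubic hw))
    (fun κ' ht hx => hG.not_col (hE.colourable hG.cubic hw ht hx)) κ h1 h2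

end Conf

end Pool.Agent.MP_8c1b0d_co.CT4
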