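import Pool.Agent.MP_8c1b0d_co.CT4.PB

attribute [-instance] DistribMulActionSemiHomClass.toAddMonoidHomClass
  List.instDecidableMemOfLawfulBEq Finset.decidableDforallFinset Multiset.decidableDforallMultiset
  Vector.instDecidableForallForallMemOfDecidablePred
  Array.instDecidableForallForallMemOfDecidablePred Option.decidableForallMem
  AddGroup.addLeftReflectLE_of_addLeftMono AddQuantale.instAddLeftMono NeZero.charZero_one
  SemilinearMapClass.toAddHomClass Int.decidableLTLE MonoidWithZeroHomClass.toZeroHomClass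
  Int.decidableLTLT Int.decidableLELE NonUnitalRingHomClass.toAddMonoidHomClass
  RingHomClass.toAddMonoidHomClass Int.decidableLELT Group.IsPerfect.subsingleton_of_isMulCommutative
  CompletePartialOrder.toPartialOrder AddQuantale.instAddRightMono IdemSemiring.toSemiring
  RKHS.instFunLike instIsRightCancelAddOfAddRightReflectLE littleWedderburn

set_option linter.unusedSectionVars false
set_option linter.unusedVariables false
set_option linter.unusedSimpArgs false

/-! Numbered subsets; every admissible colouring has an index. -/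

namespace Pool.Agent.MP_8c1b0d_co.CT4.Chk

open Finset

theorem sbs_succ (n m τ : ℕ) : sbs (n + 1) m τ =
    if τ < n.choose m then sbs n m τ else insert n (sbs n (m - 1) (τ - n.choose m)) := rfl

theorem sbs_subset (n m τ : ℕ) : sbs n m τ ⊆ range n := by
  induction n generalizing m τ with
  | zero => exact empty_subset _
  | succ n ih =>
    rw [sbs_succ, range_add_one]
    split_ifs
    · exact (ih _ _).trans (subset_insert _ _)
    · exact insert_subset_insert _ (ih _ _)

theorem notMem_sbs (n m τ : ℕ) : n ∉ sbs n m τ := fun h => by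
  simpa using sbs_subset n m τ h

theorem sbs_card {n m τ : ℕ} (h : τ < n.choose m) : (sbs n m τ).card = m := by
  induction n generalizing m τ with
  | zero =>
    cases m with
    | zero => rfl
    | succ m => simp at h
  | succ n ih =>
    rw [sbs_succ]
    split_ifs with h1
    · exact ih h1
    · cases m with
      | zero => simp at h h1; omega
      | succ m =>
        rw [Nat.choose_succ_succ'] at h
        rw [card_insert_of_notMem (notMem_sbs _ _ _), Nat.add_sub_cancel, ih (by omega)]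

theorem sbs_surj {n : ℕ} {U : Finset ℕ} (h : U ⊆ range n) :
    ∃ τ < n.choose U.card, sbs n U.card τ = U := by
  induction n generalizing U with
  | zero =>
    have : U = ∅ := by simpa using h
    subst this
    exact ⟨0, by simp, rfl⟩
  | succ n ih =>
    by_cases hn : n ∈ U
    · have h1 : U.erase n ⊆ range n := by
        intro x hx
        have := mem_range.1 (h (mem_of_mem_erase hx))
        have := ne_of_mem_erase hx
        exact mem_range.2 (by omega)
      obtain ⟨τ, hτ, e⟩ := ih h1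
      have hc : U.card = (U.erase n).card + 1 := (card_erase_add_one hn).symm
      refine ⟨n.choose U.card + τ, ?_, ?_⟩
      · rw [hc, Nat.choose_succ_succ']; omega
      · rw [sbs_succ, if_neg (by omega), Nat.add_sub_cancel_left]
        conv_lhs => rw [hc, Nat.add_sub_cancel, e]
        exact insert_erase hn
    · have h1 : U ⊆ range n := by
        intro x hx
        have := mem_range.1 (h hx)
        have : x ≠ n := fun e => hn (e ▸ hx)
        exact mem_range.2 (by omega)
      obtain ⟨τ, hτ, e⟩ := ih h1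
      exact ⟨τ, hτ.trans_le (Nat.choose_le_succ _ _), by rw [sbs_succ, if_pos hτ, e]⟩

theorem rk_lt {U : Finset ℕ} {a : ℕ} (h : a ∈ U) : rk U a < U.card := by
  refine card_lt_card ⟨filter_subset _ _, fun h' => ?_⟩
  simpa using h' h

theorem rk_lt_of_lt {U : Finset ℕ} {a b : ℕ} (ha : a ∈ U) (h : a < b) : rk U a < rk U b := by
  refine card_lt_card ⟨fun x hx => ?_, fun h' => ?_⟩
  · simp only [mem_filter] at hx ⊢
    exact ⟨hx.1, hx.2.trans h⟩
  · have : a ∈ U.filter (· < b) := mem_filter.2 ⟨ha, h⟩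
    simpa using h' this

theorem rk_lt_rk {U : Finset ℕ} {a b : ℕ} (ha : a ∈ U) (hb : b ∈ U) :
    rk U a < rk U b ↔ a < b := by
  refine ⟨fun h => ?_, rk_lt_of_lt ha⟩
  rcases lt_trichotomy a b with h1 | h1 | h1
  · exact h1
  · subst h1; omega
  · have := rk_lt_of_lt hb h1; omega

theorem rk_inj {U : Finset ℕ} {a b : ℕ} (ha : a ∈ U) (hb : b ∈ U) (h : rk U a = rk U b) :
    a = b := by
  have h1 := rk_lt_rk ha hb
  have h2 := rk_lt_rk hb ha
  omega

theorem rk_surj {U : Finset ℕ} {ρ : ℕ} (h : ρ < U.card) : ∃ a ∈ U, rk U a = ρ := by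
  have h1 : U.image (rk U) = range U.card := by
    refine eq_of_subset_of_card_le (fun x hx => ?_) ?_
    · obtain ⟨a, ha, rfl⟩ := mem_image.1 hx
      exact mem_range.2 (rk_lt ha)
    · rw [card_range, card_image_of_injOn fun a ha b hb e => rk_inj ha hb e]
  exact mem_image.1 (h1 ▸ mem_range.2 h)

theorem beq_false {a b : ℕ} (h : a ≠ b) : Nat.beq a b = false := by
  rw [← Bool.not_eq_true, Nat.beq_eq]
  exact h

theorem rkm_succ (a ρ n m : ℕ) : rkm a ρ (n + 1) (m + 1) =
    cond (Nat.ble (m + 1) ρ || Nat.blt n a) 0 (Nat.lor (rkm a ρ n (m + 1)) (Nat.shiftLeft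
      (cond (Nat.beq a n) (cond (Nat.beq ρ m) (ones (ch n m)) 0) (rkm a ρ n m))
      (ch n (m + 1)))) := rfl

theorem rk_insert_self (n m τ : ℕ) : rk (insert n (sbs n m τ)) n = (sbs n m τ).card := by
  unfold rk
  rw [filter_insert, if_neg (lt_irrefl n), filter_true_of_mem]
  intro x hx
  exact mem_range.1 (sbs_subset n m τ hx)

theorem rk_insert_of_le {S : Finset ℕ} {a n : ℕ} (h : a ≤ n) : rk (insert n S) a = rk S a := by
  unfold rk
  rw [filter_insert, if_neg (by omega)]

theorem testBit_rkm (a ρ n m τ : ℕ) : (rkm a ρ n m).testBit τ = true ↔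
    τ < n.choose m ∧ a ∈ sbs n m τ ∧ rk (sbs n m τ) a = ρ := by
  induction n generalizing m τ with
  | zero =>
    have e : rkm a ρ 0 m = 0 := rfl
    have e' : sbs 0 m τ = ∅ := rfl
    simp [e, e']
  | succ n ih =>
    cases m with
    | zero =>
      have e : rkm a ρ (n + 1) 0 = 0 := rfl
      rw [e]
      refine ⟨fun h => by simp at h, fun ⟨h1, h2, _⟩ => ?_⟩
      have := card_eq_zero.1 (sbs_card h1)
      rw [this] at h2
      simp at h2
    | succ m =>
      rw [rkm_succ]
      by_cases hc : m + 1 ≤ ρ ∨ n < a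
      · have e : (Nat.ble (m + 1) ρ || Nat.blt n a) = true := by
          simpa [Nat.ble_eq, Nat.blt_eq] using hc
        rw [e, cond_true]
        refine ⟨fun h => by simp at h, fun ⟨h1, h2, h3⟩ => ?_⟩
        have h4 := rk_lt h2
        have h5 := mem_range.1 (sbs_subset _ _ _ h2)
        rw [sbs_card h1] at h4
        omega
      · have e : (Nat.ble (m + 1) ρ || Nat.blt n a) = false := by
          rw [← Bool.not_eq_true]
          simpa only [Bool.or_eq_true, Nat.ble_eq, Order.add_one_le_iff, Nat.blt_eq, not_or, not_lt] using hc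
        rw [e, cond_false, Nat.lor_eq, Nat.shiftLeft_eq', Nat.testBit_or, Nat.testBit_shiftLeft,
          Bool.or_eq_true, ih, ch_eq, ch_eq, sbs_succ, Nat.choose_succ_succ', Nat.add_sub_cancel]
        by_cases hτ : τ < n.choose (m + 1)
        · rw [if_pos hτ]
          have : ¬ τ ≥ n.choose (m + 1) := by omega
          simp only [this, decide_false, Bool.false_and, Bool.false_eq_true, or_false, hτ,
            true_and]
          exact ⟨fun h => ⟨by omega, h⟩, fun h => h.2⟩
        · rw [if_neg hτ]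
          have h0 : τ ≥ n.choose (m + 1) := by omega
          simp only [h0, decide_true, Bool.true_and, hτ, false_and, false_or]
          by_cases han : a = n
          · subst han
            rw [Nat.beq_refl, cond_true, rk_insert_self]
            by_cases hρ : ρ = m
            · subst hρ
              rw [Nat.beq_refl, cond_true, testBit_ones, decide_eq_true_iff]
              exact ⟨fun h => ⟨by omega, mem_insert_self _ _, sbs_card h⟩, fun h => by omega⟩
            · rw [beq_false hρ, cond_false]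
              refine ⟨fun h => by simp at h, fun ⟨h1, _, h3⟩ => ?_⟩
              rw [sbs_card (by omega)] at h3
              exact absurd h3.symm hρ
          · rw [beq_false han, cond_false, ih, rk_insert_of_le (by omega), mem_insert]
            exact ⟨fun ⟨h1, h2, h3⟩ => ⟨by omega, Or.inr h2, h3⟩,
              fun ⟨h1, h2, h3⟩ => ⟨by omega, h2.resolve_left han, h3⟩⟩

/-- two colourings with the same sum that agree off one place agree -/
theorem eq_of_sum {r a₀ : ℕ} {κ κ' : ℕ → K} (h : ∑ a ∈ range r, κ a = ∑ a ∈ range r, κ' a)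
    (h' : ∀ a < r, a ≠ a₀ → κ a = κ' a) : ∀ a < r, κ a = κ' a := by
  intro a ha
  by_cases e : a = a₀
  · subst e
    have hm : a ∈ range r := mem_range.2 ha
    rw [← add_sum_erase _ _ hm, ← add_sum_erase _ _ hm,
      sum_congr rfl fun x hx => h' x (mem_range.1 (mem_of_mem_erase hx)) (ne_of_mem_erase hx)] at h
    exact add_right_cancel h
  · exact h' a ha e

theorem ex_eq (i ρ : ℕ) : ex (i + 1) ρ = if ρ % 2 = 1 then i + ρ / 2 else ρ / 2 - 1 := by
  have e : ex (i + 1) ρ = cond (Nat.beq (ρ % 2) 1) (i + ρ / 2) (ρ / 2 - 1) := rfl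
  rw [e]
  split_ifs with h
  · rw [h]; rfl
  · rw [beq_false h]; rfl

/-- the shear of the colour group -/
def shear : K ≃+ K where
  toFun x := (x.1, x.1 + x.2)
  invFun x := (x.1, x.1 + x.2)
  left_inv := by decide
  right_inv := by decide
  map_add' := by decide

theorem exists_sigma (y : K) (hy : y.1 = 1) :
    ∃ σ : K ≃+ K, σ (0, 1) = (0, 1) ∧ (∀ x, (σ x).1 = x.1) ∧ (σ y).2 = 0 := by
  by_cases h : y.2 = 0
  · exact ⟨AddEquiv.refl K, rfl, fun _ => rfl, h⟩
  · refine ⟨shear, by decide, fun _ => rfl, ?_⟩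
    change y.1 + y.2 = 0
    revert y
    decide

theorem bz_decide (x : ZMod 2) : bz (decide (x = 1)) = x := by
  revert x
  decide

/-- Every admissible colouring has an index, up to a colour symmetry that fixes `(0, 1)`. -/
theorem cover {r : ℕ} {d : ℕ → ℕ → K} (hL : Layout r d) (κ : ℕ → K) (hne : ∀ a < r, κ a ≠ 0)
    (hs : ∑ a ∈ range r, κ a = 0) (h0 : ∃ a < r, κ a ≠ (0, 1)) :
    ∃ j < tot r, ∃ σ : K ≃+ K, σ (0, 1) = (0, 1) ∧ ∀ a < r, d j a = σ (κ a) := by
  classical
  obtain ⟨U, hU⟩ : ∃ U : Finset ℕ, U = (range r).filter fun a => κ a ≠ (0, 1) := ⟨_, rfl⟩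
  have hmem : ∀ a, a ∈ U ↔ a < r ∧ κ a ≠ (0, 1) := fun a => by simp [hU]
  have hsub : U ⊆ range r := hU ▸ filter_subset _ _
  have hK : ∀ x : K, x ≠ 0 → x ≠ (0, 1) → x.1 = 1 := by decide
  have hfst : ∀ a < r, (κ a).1 = if a ∈ U then 1 else 0 := by
    intro a ha
    split_ifs with h
    · exact hK _ (hne a ha) ((hmem a).1 h).2
    · have : κ a = (0, 1) := by
        by_contra h1
        exact h ((hmem a).2 ⟨ha, h1⟩)
      rw [this]
  have heven : (U.card : ZMod 2) = 0 := by
    have h1 := congrArg Prod.fst hs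
    rw [Prod.fst_sum, sum_congr rfl fun a ha => hfst a (mem_range.1 ha), sum_ite_mem,
      inter_eq_right.2 hsub] at h1
    simpa only [sum_const, nsmul_eq_mul, mul_one, Prod.fst_zero] using h1
  have hpos : 0 < U.card := by
    obtain ⟨a, ha, h⟩ := h0
    exact card_pos.2 ⟨a, (hmem a).2 ⟨ha, h⟩⟩
  obtain ⟨i, hi⟩ : ∃ i, U.card = 2 * (i + 1) := by
    obtain ⟨c, hc⟩ := (ZMod.natCast_eq_zero_iff _ _).1 heven
    exact ⟨c - 1, by omega⟩
  have hir : i < r / 2 := by
    have := card_le_card hsub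
    rw [card_range] at this
    omega
  obtain ⟨τ, hτ, hsb⟩ := sbs_surj hsub
  rw [hi] at hτ hsb
  rw [← wd_eq] at hτ
  obtain ⟨t, ht, hrt⟩ := rk_surj (U := U) (ρ := 2 * i + 1) (by omega)
  obtain ⟨a₀, ha₀, hr₀⟩ := rk_surj (U := U) (ρ := 0) hpos
  obtain ⟨σ, hσ0, hσ1, hσt⟩ := exists_sigma (κ t) (by
    rw [hfst t (mem_range.1 (hsub ht)), if_pos ht])
  obtain ⟨m, hm⟩ : ∃ m, m = Nat.ofBits fun e : Fin (2 * i) =>
      decide (∃ a ∈ U, rk U a ≠ 0 ∧ ex (i + 1) (rk U a) = e ∧ (σ (κ a)).2 = 1) := ⟨_, rfl⟩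
  have hlt : m < 2 ^ (2 * i) := hm ▸ Nat.ofBits_lt_two_pow _
  refine ⟨ix r i m τ, ix_lt hir hlt hτ, σ, hσ0, eq_of_sum (a₀ := a₀) ?_ ?_⟩
  · rw [hL.sum i hir m hlt τ hτ, ← map_sum, hs, map_zero]
  · intro a ha hne₀
    refine Prod.ext ?_ ?_
    · rw [hL.fst i hir m hlt τ hτ a ha, hsb, hσ1, hfst a ha]
    · by_cases haU : a ∈ U
      · have hr : rk U a ≠ 0 := fun e => hne₀ (rk_inj haU ha₀ (e.trans hr₀.symm))
        rw [hL.snd i hir m hlt τ hτ a (hsb ▸ haU) (hsb ▸ hr), hsb]
        by_cases hat : a = t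
        · subst hat
          have e : ex (i + 1) (rk U a) = 2 * i := by
            rw [hrt, ex_eq, if_pos (by omega)]; omega
          rw [e, Nat.testBit_lt_two_pow hlt, hσt]
          rfl
        · have h1 : rk U a ≠ 2 * i + 1 := fun e => hat (rk_inj haU ht (e.trans hrt.symm))
          have h2 := rk_lt haU
          have h3 : ex (i + 1) (rk U a) < 2 * i := by
            rw [ex_eq]; split_ifs <;> omega
          rw [hm, Nat.testBit_ofBits_lt _ _ h3, ← bz_decide (σ (κ a)).2]
          congr 1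
          refine decide_eq_decide.2 ⟨fun ⟨b, hb, hb0, hbe, hb1⟩ => ?_, fun h => ⟨a, haU, hr, rfl, h⟩⟩
          have h4 := rk_lt hb
          have h5 : rk U b = rk U a := by
            simp only [ex_eq] at hbe
            split_ifs at hbe <;> omega
          rwa [← rk_inj hb haU h5]
      · rw [hL.out i hir m hlt τ hτ a ha (hsb ▸ haU)]
        have : κ a = (0, 1) := by
          by_contra h1
          exact haU ((hmem a).2 ⟨ha, h1⟩)
        rw [this, hσ0]

end Pool.Agent.MP_8c1b0d_co.CT4.Chk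

/-! The planes describe the layout. -/

namespace Pool.Agent.MP_8c1b0d_co.CT4.Chk

open Finset

theorem pl_bz_xor (a b : Bool) : bz (a ^^ b) = bz a + bz b := by
  cases a <;> cases b <;> decide

theorem pl_rkm_lt (a ρ n m : ℕ) : rkm a ρ n m < 2 ^ n.choose m := by
  apply Nat.lt_pow_two_of_testBit
  intro j hj
  by_contra h
  have := ((testBit_rkm a ρ n m j).1 (by simpa using h)).1
  omega

theorem pl_rkm_lt' (a ρ r k : ℕ) : rkm a ρ r (Nat.mul 2 k) < 2 ^ wd r k := by
  rw [wd_eq]
  exact pl_rkm_lt a ρ r (2 * k)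

theorem pl_rkm {a ρ r k τ : ℕ} (hτ : τ < wd r k) : (rkm a ρ r (Nat.mul 2 k)).testBit τ = true ↔
    a ∈ sbs r (2 * k) τ ∧ rk (sbs r (2 * k) τ) a = ρ := by
  rw [wd_eq] at hτ
  have := testBit_rkm a ρ r (2 * k) τ
  simp only [hτ, true_and] at this
  exact this

theorem pl_lor_lt (f : ℕ → ℕ) {x s : ℕ} (hx : x < 2 ^ s) (n : ℕ) (hf : ∀ i < n, f i < 2 ^ s) :
    fold (fun i y => Nat.lor y (f i)) x n < 2 ^ s := by
  induction n with
  | zero => exact hx
  | succ n ih =>
    rw [fold_succ]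
    exact Nat.or_lt_two_pow (ih fun i hi => hf i (by omega)) (hf n (by omega))

theorem pl_sz (r i : ℕ) : wd r (i + 1) * 2 ^ sb (i + 1) = sz r (i + 1) := by
  rw [sz_succ, sb_succ, mul_comm]

theorem pl_in_lt (r k a : ℕ) :
    fold (fun ρ s => Nat.lor s (rkm a ρ r (Nat.mul 2 k))) 0 (Nat.mul 2 k) < 2 ^ wd r k :=
  pl_lor_lt (fun ρ => rkm a ρ r (Nat.mul 2 k)) (Nat.two_pow_pos _) _
    fun ρ _ => pl_rkm_lt' a ρ r k

theorem pl_g1_lt (r i a : ℕ) : g1 r (i + 1) a < 2 ^ sz r (i + 1) := by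
  rw [← pl_sz]
  exact dbl_lt (pl_in_lt r (i + 1) a) _

theorem pl_g1 {r i m τ : ℕ} (hm : m < 2 ^ (2 * i)) (hτ : τ < wd r (i + 1)) (a : ℕ) :
    (g1 r (i + 1) a).testBit (m * wd r (i + 1) + τ) = true ↔ a ∈ sbs r (2 * (i + 1)) τ := by
  unfold g1
  rw [testBit_dbl (pl_in_lt r (i + 1) a) _ _ hτ, sb_succ, decide_eq_true hm, Bool.true_and,
    testBit_fold_lor (fun ρ => rkm a ρ r (Nat.mul 2 (i + 1)))]
  constructor
  · rintro (h | ⟨ρ, -, h⟩)
    · simp at h
    · exact ((pl_rkm hτ).1 h).1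
  · intro h
    refine Or.inr ⟨_, ?_, (pl_rkm hτ).2 ⟨h, rfl⟩⟩
    have := rk_lt h
    rw [sbs_card (by rw [← wd_eq]; exact hτ)] at this
    exact this

theorem pl_ex (k ρ : ℕ) : ex k ρ = if ρ % 2 = 1 then k - 1 + ρ / 2 else ρ / 2 - 1 := by
  unfold ex
  by_cases h : ρ % 2 = 1
  · rw [if_pos h]
    have : Nat.beq (Nat.mod ρ 2) 1 = true := by
      have h' : Nat.mod ρ 2 = 1 := h
      rw [h']
      rfl
    rw [this]
    rfl
  · rw [if_neg h]
    have : Nat.beq (Nat.mod ρ 2) 1 = false := by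
      cases e : Nat.beq (Nat.mod ρ 2) 1
      · rfl
      · exact (h (Nat.eq_of_beq_eq_true e)).elim
    rw [this]
    rfl

theorem pl_ex_lt {i ρ : ℕ} (h : ρ < 2 * i) : ex (i + 1) (ρ + 1) < 2 * i := by
  rw [pl_ex]
  split_ifs <;> omega

theorem pl_ex_top (i : ℕ) : ex (i + 1) (2 * i + 1) = 2 * i := by
  rw [pl_ex]
  split_ifs <;> omega

theorem pl_idx_lt {r i m τ : ℕ} (hm : m < 2 ^ (2 * i)) (hτ : τ < wd r (i + 1)) :
    m * wd r (i + 1) + τ < sz r (i + 1) := by
  rw [sz_succ]
  calc m * wd r (i + 1) + τ < m * wd r (i + 1) + wd r (i + 1) := by omega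
    _ = (m + 1) * wd r (i + 1) := by ring
    _ ≤ _ := Nat.mul_le_mul_right _ hm

theorem pl_g2r_lt (r i a : ℕ) : g2r r (i + 1) a < 2 ^ sz r (i + 1) := by
  unfold g2r
  refine pl_lor_lt (fun ρ => pat (wd r (i + 1)) (sb (i + 1))
    (rkm a (Nat.succ ρ) r (Nat.mul 2 (i + 1))) (ex (i + 1) (Nat.succ ρ))) ?_ _ ?_
  · refine Nat.xor_lt_two_pow ?_ (pl_g1_lt r i a)
    rw [ones_eq]
    exact Nat.sub_lt (Nat.two_pow_pos _) one_pos
  · intro ρ hρ
    rw [sb_succ] at hρ
    rw [sz_succ, sb_succ]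
    exact pat_lt (pl_rkm_lt' _ _ _ _) (pl_ex_lt hρ)

theorem pl_g2r {r i m τ : ℕ} (hm : m < 2 ^ (2 * i)) (hτ : τ < wd r (i + 1)) (a : ℕ) :
    (g2r r (i + 1) a).testBit (m * wd r (i + 1) + τ) = true ↔ a ∉ sbs r (2 * (i + 1)) τ ∨
      (rk (sbs r (2 * (i + 1)) τ) a ≠ 0 ∧
        m.testBit (ex (i + 1) (rk (sbs r (2 * (i + 1)) τ) a)) = true) := by
  unfold g2r
  rw [testBit_fold_lor (fun ρ => pat (wd r (i + 1)) (sb (i + 1))
    (rkm a (Nat.succ ρ) r (Nat.mul 2 (i + 1))) (ex (i + 1) (Nat.succ ρ))), Nat.xor_eq,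
    Nat.testBit_xor, testBit_ones, decide_eq_true (pl_idx_lt hm hτ), sb_succ]
  have e1 := pl_g1 hm hτ a
  have e2 : ∀ ρ < 2 * i, ((pat (wd r (i + 1)) (2 * i) (rkm a (Nat.succ ρ) r (Nat.mul 2 (i + 1)))
      (ex (i + 1) (Nat.succ ρ))).testBit (m * wd r (i + 1) + τ) = true ↔
      m.testBit (ex (i + 1) (ρ + 1)) = true ∧ a ∈ sbs r (2 * (i + 1)) τ ∧
        rk (sbs r (2 * (i + 1)) τ) a = ρ + 1) := by
    intro ρ hρ
    rw [testBit_pat (pl_rkm_lt' _ _ _ _) (pl_ex_lt hρ) _ hτ, decide_eq_true hm, Bool.true_and,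
      Bool.and_eq_true, pl_rkm hτ]
  by_cases h : a ∈ sbs r (2 * (i + 1)) τ
  · rw [e1.2 h]
    constructor
    · rintro (k | ⟨ρ, hρ, k⟩)
      · simp at k
      · obtain ⟨k1, -, k2⟩ := (e2 ρ hρ).1 k
        right
        rw [k2]
        exact ⟨by omega, k1⟩
    · rintro (k | ⟨k1, k2⟩)
      · exact (k h).elim
      · obtain ⟨ρ, hρ⟩ := Nat.exists_eq_succ_of_ne_zero k1
        have hl := rk_lt h
        rw [sbs_card (by rw [← wd_eq]; exact hτ)] at hl
        rw [hρ] at k2 hl
        have h2 : ρ < 2 * i := by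
          by_contra n
          have : ρ = 2 * i := by omega
          rw [this, Nat.succ_eq_add_one, pl_ex_top, Nat.testBit_lt_two_pow hm] at k2
          exact Bool.noConfusion k2
        exact Or.inr ⟨ρ, h2, (e2 ρ h2).2 ⟨k2, h, hρ⟩⟩
  · have : (g1 r (i + 1) a).testBit (m * wd r (i + 1) + τ) = false := by
      cases e : (g1 r (i + 1) a).testBit (m * wd r (i + 1) + τ)
      · rfl
      · exact (h (e1.1 e)).elim
    rw [this]
    exact ⟨fun _ => Or.inl h, fun _ => Or.inl rfl⟩

theorem pl_g2_lt (r i a : ℕ) : g2 r (i + 1) a < 2 ^ sz r (i + 1) := by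
  unfold g2
  refine Nat.xor_lt_two_pow (pl_g2r_lt r i a) (Nat.and_lt_two_pow _ ?_)
  rw [← pl_sz]
  exact dbl_lt (pl_rkm_lt' _ _ _ _) _

theorem pl_g2 {r i m τ : ℕ} (hm : m < 2 ^ (2 * i)) (hτ : τ < wd r (i + 1)) (a : ℕ) :
    bz ((g2 r (i + 1) a).testBit (m * wd r (i + 1) + τ)) =
      bz ((g2r r (i + 1) a).testBit (m * wd r (i + 1) + τ)) +
        if a ∈ sbs r (2 * (i + 1)) τ ∧ rk (sbs r (2 * (i + 1)) τ) a = 0 then
          ∑ b ∈ range r, bz ((g2r r (i + 1) b).testBit (m * wd r (i + 1) + τ)) else 0 := by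
  unfold g2
  rw [Nat.xor_eq, Nat.testBit_xor, pl_bz_xor, Nat.land_eq, Nat.testBit_and,
    testBit_dbl (pl_rkm_lt' _ _ _ _) _ _ hτ, sb_succ, decide_eq_true hm, Bool.true_and,
    ← bz_fold_xor (fun b => g2r r (i + 1) b)]
  have e := pl_rkm (a := a) (ρ := 0) hτ
  split_ifs with h
  · rw [e.2 h, Bool.and_true]
  · have : (rkm a 0 r (Nat.mul 2 (i + 1))).testBit τ = false := by
      cases e' : (rkm a 0 r (Nat.mul 2 (i + 1))).testBit τ
      · rfl
      · exact (h (e.1 e')).elim
    rw [this, Bool.and_false]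
    rfl

theorem pl_getD {α : Type} (f : ℕ → α) (d : α) {r a : ℕ} (h : a < r) :
    ((List.range r).map f).getD a d = f a := by
  simp [List.getD_eq_getElem?_getD, h]

theorem pl_dec {r i m τ a : ℕ} (hi : i < r / 2) (hm : m < 2 ^ (2 * i)) (hτ : τ < wd r (i + 1))
    (ha : a < r) : dec ((List.range r).map (e1 r)) ((List.range r).map (e2 r)) (ix r i m τ) a =
      (bz ((g1 r (i + 1) a).testBit (m * wd r (i + 1) + τ)),
        bz ((g2 r (i + 1) a).testBit (m * wd r (i + 1) + τ))) := by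
  unfold dec ix
  rw [pl_getD _ _ ha, pl_getD _ _ ha]
  unfold e1 e2
  rw [testBit_cat (f := fun k => g1 r k a) (fun i _ => pl_g1_lt r i a) hi (pl_idx_lt hm hτ),
    testBit_cat (f := fun k => g2 r k a) (fun i _ => pl_g2_lt r i a) hi (pl_idx_lt hm hτ)]

theorem pl_bz_g1 {r i m τ : ℕ} (hm : m < 2 ^ (2 * i)) (hτ : τ < wd r (i + 1)) (a : ℕ) :
    bz ((g1 r (i + 1) a).testBit (m * wd r (i + 1) + τ)) =
      if a ∈ sbs r (2 * (i + 1)) τ then 1 else 0 := by
  unfold bz
  simp only [pl_g1 hm hτ a]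

/-- TASK Planes. Bounds `g1, g2r, g2 < 2 ^ sz` and `testBit_cat` reduce to one group. There bit
`m W + τ` of `g1 r k a` says `a ∈ U`; of `g2r r k a` it says `a ∉ U` or the rank `ρ` of `a` lies in
`1 … 2 i` and `m` has bit `ex k ρ` (`ex k ρ < 2 i` for these `ρ`; for the top rank `2 i + 1` the bit
`2 i` of `m` is zero); `g2` corrects the element of rank zero so that the sum vanishes
(`bz_fold_xor`, `rk_surj`); the first coordinates add up to `card U = 2 (i + 1) = 0`. -/
theorem layout (r : ℕ) :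
    Layout r (dec ((List.range r).map (e1 r)) ((List.range r).map (e2 r))) := by
  refine ⟨fun i hi m hm τ hτ a ha => ?_, fun i hi m hm τ hτ a ha h => ?_,
    fun i hi m hm τ hτ a ha h => ?_, fun i hi m hm τ hτ => ?_⟩
  · rw [pl_dec hi hm hτ ha]
    exact pl_bz_g1 hm hτ a
  · rw [pl_dec hi hm hτ ha]
    show bz _ = 1
    rw [pl_g2 hm hτ, if_neg (fun k => h k.1), add_zero, (pl_g2r hm hτ a).2 (Or.inl h)]
    rfl
  · rw [pl_dec hi hm hτ (mem_range.1 (sbs_subset _ _ _ ha))]
    show bz _ = _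
    rw [pl_g2 hm hτ, if_neg (fun k => h k.2), add_zero]
    refine congrArg bz (Bool.eq_iff_iff.2 ?_)
    rw [pl_g2r hm hτ a]
    exact ⟨fun k => (k.resolve_left fun n => n ha).2, fun k => Or.inr ⟨h, k⟩⟩
  · have hc := sbs_card (n := r) (m := 2 * (i + 1)) (τ := τ) (by rw [← wd_eq]; exact hτ)
    have hs := sbs_subset r (2 * (i + 1)) τ
    rw [sum_congr rfl fun a ha => pl_dec hi hm hτ (mem_range.1 ha)]
    refine Prod.ext ?_ ?_
    · rw [Prod.fst_sum]
      show ∑ a ∈ range r, bz _ = 0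
      rw [sum_congr rfl fun a _ => pl_bz_g1 hm hτ a, sum_ite_mem, inter_eq_right.2 hs, sum_const,
        hc, nsmul_eq_mul, mul_one, Nat.cast_mul]
      exact mul_eq_zero_of_left rfl _
    · rw [Prod.snd_sum]
      show ∑ a ∈ range r, bz _ = 0
      obtain ⟨a₀, h1, h2⟩ := rk_surj (U := sbs r (2 * (i + 1)) τ) (ρ := 0) (by omega)
      rw [sum_congr rfl fun a _ => pl_g2 hm hτ a, sum_add_distrib]
      generalize ∑ b ∈ range r, bz ((g2r r (i + 1) b).testBit (m * wd r (i + 1) + τ)) = z
      rw [sum_eq_single a₀, if_pos ⟨h1, h2⟩]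
      · exact CharTwo.add_self_eq_zero _
      · intro b _ hb
        refine if_neg fun k => hb ?_
        have u := rk_lt_rk k.1 h1
        have v := rk_lt_rk h1 k.1
        have w := k.2
        omega
      · exact fun n => (n (hs h1)).elim

/-- `bz_fold_xor` for both coordinates -/
theorem testBit_hps (r : ℕ) (E₁ E₂ : List ℕ) {j c i : ℕ} (hj : j < tot r) (hc : c < 4)
    (hi : i < r) : (hget (hps r E₁ E₂) c i).testBit j =
      decide (∑ a ∈ range i, dec E₁ E₂ j a = code c) := by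
  have e : ∑ a ∈ range i, dec E₁ E₂ j a =
      (bz ((fc E₁ i).testBit j), bz ((fc E₂ i).testBit j)) := by
    refine Prod.ext ?_ ?_
    · rw [Prod.fst_sum]
      exact (bz_fold_xor (fun a => E₁.getD a 0) i j).symm
    · rw [Prod.snd_sum]
      exact (bz_fold_xor (fun a => E₂.getD a 0) i j).symm
  have o : ∀ x, (Nat.xor (ones (tot r)) x).testBit j = !x.testBit j := fun x => by
    rw [Nat.xor_eq, Nat.testBit_xor, testBit_ones, decide_eq_true hj, Bool.true_xor]
  unfold hget hps
  rw [nth_eq, nth_eq, pl_getD _ _ hc, pl_getD _ _ hi, e]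
  unfold hp
  rw [Nat.land_eq, Nat.testBit_and]
  have c4 : c = 0 ∨ c = 1 ∨ c = 2 ∨ c = 3 := by omega
  rcases c4 with rfl | rfl | rfl | rfl
  · show ((Nat.xor (ones (tot r)) (fc E₁ i)).testBit j &&
      (Nat.xor (ones (tot r)) (fc E₂ i)).testBit j) = _
    rw [o, o]
    cases (fc E₁ i).testBit j <;> cases (fc E₂ i).testBit j <;> decide
  · show ((Nat.xor (ones (tot r)) (fc E₁ i)).testBit j && (fc E₂ i).testBit j) = _
    rw [o]
    cases (fc E₁ i).testBit j <;> cases (fc E₂ i).testBit j <;> decide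
  · show ((fc E₁ i).testBit j && (Nat.xor (ones (tot r)) (fc E₂ i)).testBit j) = _
    rw [o]
    cases (fc E₁ i).testBit j <;> cases (fc E₂ i).testBit j <;> decide
  · show ((fc E₁ i).testBit j && (fc E₂ i).testBit j) = _
    cases (fc E₁ i).testBit j <;> cases (fc E₂ i).testBit j <;> decide

end Pool.Agent.MP_8c1b0d_co.CT4.Chk

/-! The permutation network; the trees contain all noncrossing matchings. -/

namespace Pool.Agent.MP_8c1b0d_co.CT4.Chk

open Finset

theorem net_dsw {s m : ℕ} (h : Nat.land m (Nat.shiftLeft m s) = 0) :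
    ∃ π : ℕ → ℕ, ∀ x j, (dsw s m x).testBit j = x.testBit (π j) := by
  refine ⟨fun j => if m.testBit j = true then s + j
    else if s ≤ j ∧ m.testBit (j - s) = true then j - s else j, fun x j => ?_⟩
  have h1 : (m &&& (m <<< s)).testBit j = false := by
    have : m &&& (m <<< s) = 0 := h
    rw [this, Nat.zero_testBit]
  have e : dsw s m x = (x ^^^ (((x >>> s) ^^^ x) &&& m)) ^^^ ((((x >>> s) ^^^ x) &&& m) <<< s) := rfl
  rw [e]
  simp only [Nat.testBit_xor, Nat.testBit_and, Nat.testBit_shiftLeft, Nat.testBit_shiftRight,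
    ge_iff_le] at h1 ⊢
  have z : ∀ u v : Bool, (u ^^ (v ^^ u)) = v := by decide
  by_cases a : s ≤ j
  · have b : s + (j - s) = j := by omega
    rw [b]
    cases c : m.testBit j <;> cases d : m.testBit (j - s)
    · simp [a]
    · simp [a]
    · simp [a, z]
    · simp [a, c, d] at h1
  · cases c : m.testBit j
    · simp only [Bool.and_false, Bool.bne_false, a, decide_false, Bool.false_and, Bool.false_eq_true, ↓ reduceIte, false_and]
    · simp [a, z]

theorem net_cons (p : ℕ × ℕ) (l : List (ℕ × ℕ)) (x : ℕ) :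
    net (p :: l) x = net l (dsw p.1 p.2 x) := seq_eq _ _

theorem net_perm {l : List (ℕ × ℕ)}
    (h : l.all (fun p => Nat.beq (Nat.land p.2 (Nat.shiftLeft p.2 p.1)) 0) = true) :
    ∃ π : ℕ → ℕ, ∀ x j, (net l x).testBit j = x.testBit (π j) := by
  induction l with
  | nil => exact ⟨fun j => j, fun _ _ => rfl⟩
  | cons p l ih =>
    rw [List.all_cons, Bool.and_eq_true] at h
    obtain ⟨π, hπ⟩ := ih h.2
    obtain ⟨ρ, hρ⟩ := net_dsw (Nat.eq_of_beq_eq_true h.1)
    exact ⟨fun j => ρ (π j), fun x j => by rw [net_cons, hπ, hρ]⟩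

theorem net_lin (p q : Bool) (X Y j : ℕ) :
    (lin p q X Y).testBit j = ((p && X.testBit j) ^^ (q && Y.testBit j)) := by
  have e : lin p q X Y = (cond p X 0) ^^^ (cond q Y 0) := rfl
  rw [e, Nat.testBit_xor]
  cases p <;> cases q <;> simp

theorem net_sigma (p q u v : Bool) (h : ((p && v) ^^ (q && u)) = true) :
    ∃ σ : K ≃+ K, ∀ b c : Bool,
      σ (bz b, bz c) = (bz ((p && b) ^^ (q && c)), bz ((u && b) ^^ (v && c))) := by
  let f : K →+ K := AddMonoidHom.mk'
    (fun z => (bz p * z.1 + bz q * z.2, bz u * z.1 + bz v * z.2)) fun a b => by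
      ext
      · simp only [Prod.fst_add, Prod.snd_add]
        ring
      · simp only [Prod.fst_add, Prod.snd_add]
        ring
  have hf : Function.Bijective
      fun z : ZMod 2 × ZMod 2 => (bz p * z.1 + bz q * z.2, bz u * z.1 + bz v * z.2) := by
    revert h
    cases p <;> cases q <;> cases u <;> cases v <;> decide
  refine ⟨AddEquiv.ofBijective f hf, fun b c => ?_⟩
  change (bz p * bz b + bz q * bz c, bz u * bz b + bz v * bz c) = _
  cases p <;> cases q <;> cases u <;> cases v <;> cases b <;> cases c <;> decide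

theorem net_dis {r : ℕ} {l : List (ℕ × ℕ)} {E₁ E₂ : List ℕ} {π : ℕ → ℕ}
    (hπ : ∀ x j, (net l x).testBit j = x.testBit (π j)) {p q u v : Bool}
    (h : ((p && v) ^^ (q && u)) = true) {j : ℕ} (hj : (dis r l E₁ E₂ p q u v).testBit j = false) :
    ∃ σ : K ≃+ K, ∀ a < r, dec E₁ E₂ (π j) a = σ (dec E₁ E₂ j a) := by
  obtain ⟨σ, hσ⟩ := net_sigma p q u v h
  refine ⟨σ, fun a ha => ?_⟩
  have h1 : (Nat.lor
      (Nat.xor (net l (E₁.getD a 0)) (lin p q (E₁.getD a 0) (E₂.getD a 0)))
      (Nat.xor (net l (E₂.getD a 0)) (lin u v (E₁.getD a 0) (E₂.getD a 0)))).testBit j = false := by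
    by_contra c
    rw [Bool.not_eq_false] at c
    have := (testBit_fold_lor (fun a => Nat.lor
      (Nat.xor (net l (E₁.getD a 0)) (lin p q (E₁.getD a 0) (E₂.getD a 0)))
      (Nat.xor (net l (E₂.getD a 0)) (lin u v (E₁.getD a 0) (E₂.getD a 0)))) 0 r j).2
      (Or.inr ⟨a, ha, c⟩)
    exact Bool.false_ne_true (hj.symm.trans this)
  change ((net l (E₁.getD a 0) ^^^ lin p q (E₁.getD a 0) (E₂.getD a 0)) |||
    (net l (E₂.getD a 0) ^^^ lin u v (E₁.getD a 0) (E₂.getD a 0))).testBit j = false at h1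
  rw [Nat.testBit_or, Nat.testBit_xor, Nat.testBit_xor, hπ, hπ, net_lin, net_lin,
    Bool.or_eq_false_iff] at h1
  have z : ∀ u v : Bool, (u ^^ v) = false → u = v := by decide
  unfold dec
  rw [hσ, z _ _ h1.1, z _ _ h1.2]

/-- TASK Net. If `m &&& (m <<< s) = 0` then bit `j` of `dsw s m x` is bit `π j` of `x`, with
`π j = j + s` for `j ∈ m`, `j - s` for `s ≤ j`, `j - s ∈ m`, and `j` otherwise. So there is a map `π`
with `(net l x).testBit j = x.testBit (π j)` for all `x`. The second test gives `π j < tot r`, the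
third one a matrix among five with `dec (π j) a = σ (dec j a)` for all `a < r`; each of the five is
an additive equivalence of `K`. -/
theorem netSpec {r : ℕ} {l : List (ℕ × ℕ)} {E₁ E₂ : List ℕ} (h : netOk r l E₁ E₂ = true) :
    NetSpec r (dec E₁ E₂) l := by
  unfold netOk at h
  rw [Bool.and_eq_true, Bool.and_eq_true] at h
  obtain ⟨⟨h1, h2⟩, h3⟩ := h
  obtain ⟨π, hπ⟩ := net_perm h1
  have h2' := Nat.eq_of_beq_eq_true h2
  have h3' : (((dis r l E₁ E₂ true true true false &&& dis r l E₁ E₂ true true false true) &&&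
      (dis r l E₁ E₂ false true true false &&& dis r l E₁ E₂ false true true true)) &&&
      (dis r l E₁ E₂ true false false true &&& ones (tot r))) = 0 := Nat.eq_of_beq_eq_true h3
  intro x j hj hx
  have a1 : π j < tot r := by
    have := hπ (ones (tot r)) j
    rw [h2', testBit_ones, testBit_ones] at this
    simpa [hj] using this
  refine ⟨π j, a1, by rw [← hπ]; exact hx, ?_⟩
  have a2 := congrArg (fun y => Nat.testBit y j) h3'
  simp only [Nat.testBit_and, Nat.zero_testBit, testBit_ones, hj, decide_true, Bool.and_true,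
    Bool.and_eq_false_iff] at a2
  rcases a2 with ((a | a) | (a | a)) | a
  all_goals exact net_dis hπ rfl a

theorem net_par {n : ℕ} {M : ℕ → ℕ} (h : NC n M) {a : ℕ} (ha : a < n) (hl : a < M a) :
    (M a + a) % 2 = 1 := by
  have b := (h.1 a ha).1
  have s : ∑ _x ∈ Ioo a (M a), (1 : ZMod 2) = 0 := by
    refine sum_involution (fun x _ => M x) (fun _ _ => by decide) (fun x hx _ => ?_)
      (fun x hx => ?_) fun x hx => ?_
    · exact (h.1 x (by have := (mem_Ioo.1 hx).2; omega)).2.1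
    · obtain ⟨h1, h2⟩ := mem_Ioo.1 hx
      exact mem_Ioo.2 (h.2 a ha x (by omega) h1 h2)
    · exact (h.1 x (by have := (mem_Ioo.1 hx).2; omega)).2.2
  rw [sum_const, Nat.card_Ioo, nsmul_eq_mul, mul_one, ZMod.natCast_eq_zero_iff] at s
  omega

/-- `M` maps the open interval between `a` and `M a` to itself without fixed point, so its length
is even -/
theorem NC.parity {n : ℕ} {M : ℕ → ℕ} (h : NC n M) {a : ℕ} (ha : a < n) :
    (M a + a) % 2 = 1 := by
  obtain ⟨h1, h2, h3⟩ := h.1 a ha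
  rcases lt_or_gt_of_ne h2 with c | c
  · have := net_par h h1 (by rw [h3]; exact c)
    rw [h3] at this
    omega
  · exact net_par h ha c

theorem net_ar {a e b f : ℕ} (c : b < f) (n1 : a ≠ b) (n2 : a ≠ f) (n3 : e ≠ b) (n4 : e ≠ f)
    (c1 : b < a → a < f → b < e ∧ e < f) (c2 : b < e → e < f → b < a ∧ a < f) :
    ((a < f ↔ a < b) ↔ (e < f ↔ e < b)) ∧ ((a < b ↔ a < f) ↔ (e < b ↔ e < f)) := by
  have k1 : (a < b ↔ a < f) ↔ ¬ (b < a ∧ a < f) := by omega
  have k2 : (e < b ↔ e < f) ↔ ¬ (b < e ∧ e < f) := by omega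
  have k3 : (b < a ∧ a < f) ↔ (b < e ∧ e < f) :=
    ⟨fun x => c1 x.1 x.2, fun x => c2 x.1 x.2⟩
  have k4 : (a < b ↔ a < f) ↔ (e < b ↔ e < f) := by rw [k1, k2, k3]
  exact ⟨by rw [@Iff.comm (a < f), @Iff.comm (e < f)]; exact k4, k4⟩

theorem net_compat {n : ℕ} {M : ℕ → ℕ} (h : NC n M) {a b : ℕ} (ha : a < n) (hb : b < n)
    (h1 : a ≠ b) (h2 : a % 2 = b % 2) : compat a (M a) b (M b) = true := by
  obtain ⟨a1, a2, a3⟩ := h.1 a ha
  obtain ⟨b1, b2, b3⟩ := h.1 b hb
  have p1 := h.parity ha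
  have p2 := h.parity hb
  have n1 : M a ≠ M b := fun e => h1 (by rw [← a3, e, b3])
  have c5 := h.2 b hb a ha
  have c6 := h.2 (M b) b1 a ha
  have c7 := h.2 b hb (M a) a1
  have c8 := h.2 (M b) b1 (M a) a1
  rw [a3] at c7 c8
  rw [b3] at c6 c8
  have n2 : a ≠ M b := by omega
  have n3 : M a ≠ b := by omega
  have key : (a < b ↔ a < M b) ↔ (M a < b ↔ M a < M b) := by
    rcases lt_or_gt_of_ne b2 with c | c
    · exact (net_ar c n2 h1 n1 n3 c6 c8).1
    · exact (net_ar c h1 n2 n3 n1 c5 c7).2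
  have e : ∀ x y, Nat.blt x y = decide (x < y) := fun x y => by
    rw [Bool.eq_iff_iff, Nat.blt_eq, decide_eq_true_iff]
  have e' : Nat.beq (M a) (M b) = false := by
    rw [Bool.eq_false_iff]
    exact fun c => n1 (Nat.eq_of_beq_eq_true c)
  unfold compat
  rw [e, e, e, e, e']
  by_cases q1 : a < b <;> by_cases q2 : a < M b <;> by_cases q3 : M a < b <;>
    by_cases q4 : M a < M b <;> simp [q1, q2, q3, q4] at key ⊢

theorem net_cov_zero (k : ℕ) (ps : List (ℕ × ℕ)) (t : Option MT) :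
    cov k 0 ps t = (t.isSome || (List.range k).all fun b =>
      !(ps.all fun p => compat (2 * k - 1) (2 * b) p.1 p.2)) := rfl

theorem net_cov_succ (k i : ℕ) (ps : List (ℕ × ℕ)) (t : Option MT) :
    cov k (i + 1) ps t = (List.range k).all fun b =>
      !(ps.all fun p => compat (2 * i + 1) (2 * b) p.1 p.2) ||
        cov k i ((2 * i + 1, 2 * b) :: ps) (t.bind (find b)) := rfl

theorem net_path {k : ℕ} {M : ℕ → ℕ} (h : NC (2 * (k + 1)) M) (i : ℕ) (hi : i ≤ k) :
    ∀ ps : List (ℕ × ℕ), (∀ p ∈ ps, ∃ j, i ≤ j ∧ j < k ∧ p = (2 * j + 1, M (2 * j + 1))) →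
      ∀ t : Option MT, cov (k + 1) i ps t = true →
        ∃ t', t = some t' ∧ Path (fun j => M (2 * j + 1) / 2) i t' := by
  have key : ∀ c ≤ k, M (2 * c + 1) / 2 < k + 1 ∧ 2 * (M (2 * c + 1) / 2) = M (2 * c + 1) := by
    intro c hc
    have p1 := h.parity (a := 2 * c + 1) (by omega)
    have p2 := (h.1 (2 * c + 1) (by omega)).1
    omega
  induction i with
  | zero =>
    intro ps hps t hc
    rw [net_cov_zero, Bool.or_eq_true] at hc
    rcases hc with hc | hc
    · obtain ⟨t', rfl⟩ := Option.isSome_iff_exists.1 hc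
      exact ⟨t', rfl, trivial⟩
    · exfalso
      obtain ⟨k1, k2⟩ := key k le_rfl
      have c := List.all_eq_true.1 hc _ (List.mem_range.2 k1)
      have e : 2 * (k + 1) - 1 = 2 * k + 1 := by omega
      rw [k2, e, Bool.not_eq_true', ← Bool.not_eq_true] at c
      refine c (List.all_eq_true.2 fun p hp => ?_)
      obtain ⟨j, _, j2, rfl⟩ := hps p hp
      exact net_compat h (by omega) (by omega) (by omega) (by omega)
  | succ i ih =>
    intro ps hps t hc
    rw [net_cov_succ] at hc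
    obtain ⟨k1, k2⟩ := key i (by omega)
    have c := List.all_eq_true.1 hc _ (List.mem_range.2 k1)
    have d : (ps.all fun p => compat (2 * i + 1) (M (2 * i + 1)) p.1 p.2) = true := by
      refine List.all_eq_true.2 fun p hp => ?_
      obtain ⟨j, j1, j2, rfl⟩ := hps p hp
      exact net_compat h (by omega) (by omega) (by omega) (by omega)
    rw [k2, d, Bool.not_true, Bool.false_or] at c
    obtain ⟨t', h1, h2⟩ := ih (by omega) _ (fun p hp => by
      rcases List.mem_cons.1 hp with rfl | hp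
      · exact ⟨i, le_rfl, by omega, rfl⟩
      · obtain ⟨j, j1, j2, e⟩ := hps p hp
        exact ⟨j, by omega, j2, e⟩) _ c
    obtain ⟨t0, rfl, h3⟩ := Option.bind_eq_some_iff.1 h1
    exact ⟨t0, rfl, t', h3, h2⟩

/-- induction on the level with `ps` a list of pairs `(2 j + 1, M (2 j + 1))`, `i ≤ j < k - 1`;
generalise to `t : Option MT` with the conclusion `∃ t', t = some t' ∧ Path …` -/
theorem path_of_cov {i : ℕ} {M : ℕ → ℕ} (h : NC (2 * (i + 1)) M) {t : MT}
    (hc : cov (i + 1) i [] (some t) = true) : Path (fun j => M (2 * j + 1) / 2) i t := by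
  obtain ⟨t', h1, h2⟩ := net_path h i le_rfl [] (fun _ hp => absurd hp List.not_mem_nil) _ hc
  obtain rfl : t = t' := Option.some.inj h1
  exact h2

end Pool.Agent.MP_8c1b0d_co.CT4.Chk

/-! The Kempe step on the level of bits. -/

namespace Pool.Agent.MP_8c1b0d_co.CT4.Chk

open Finset

lemma kbits_xor {n a c e : ℕ} (hc : c < 2 ^ n) (he : e < 2 ^ n) :
    (a * 2 ^ n + c) ^^^ e = a * 2 ^ n + (c ^^^ e) := by
  refine Nat.eq_of_testBit_eq fun j => ?_
  rw [Nat.testBit_xor, mul_comm a, Nat.testBit_two_pow_mul_add a hc,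
    Nat.testBit_two_pow_mul_add a (Nat.xor_lt_two_pow hc he)]
  split_ifs with h
  · rw [Nat.testBit_xor]
  · rw [Nat.testBit_lt_two_pow (he.trans_le (Nat.pow_le_pow_right (by norm_num) (not_lt.1 h))),
      Bool.xor_false]

lemma kbits_top {p b : ℕ} (hp : p < 2 ^ (b + 1)) : p.testBit b = decide (2 ^ b ≤ p) := by
  by_cases h : 2 ^ b ≤ p
  · obtain ⟨q, rfl⟩ := Nat.exists_eq_add_of_le h
    rw [Nat.testBit_two_pow_add_eq, Nat.testBit_lt_two_pow (by rw [pow_succ] at hp; omega)]
    simp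
  · rw [Nat.testBit_lt_two_pow (not_le.1 h)]
    simp [h]

lemma kbits_add {m b : ℕ} (h : m.testBit b = false) : m ^^^ 2 ^ b = m + 2 ^ b := by
  have h1 : m % 2 ^ (b + 1) < 2 ^ (b + 1) := Nat.mod_lt _ (by positivity)
  have h2 : m % 2 ^ (b + 1) < 2 ^ b := by
    have := kbits_top h1
    rw [Nat.testBit_mod_two_pow, h] at this
    simpa using this
  have h3 : m % 2 ^ (b + 1) ^^^ 2 ^ b = m % 2 ^ (b + 1) + 2 ^ b := by
    have := kbits_xor (a := 1) (c := 0) (by positivity) h2
    rw [one_mul, add_zero, Nat.zero_xor] at this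
    rw [Nat.xor_comm, this, add_comm]
  have h4 := kbits_xor (a := m / 2 ^ (b + 1)) h1 (Nat.pow_lt_pow_right (by norm_num) (lt_add_one b))
  rw [h3, ← add_assoc, Nat.div_add_mod'] at h4
  exact h4

lemma kbits_fm {W d b : ℕ} (hb : b + 2 ≤ d) (m : ℕ) {τ : ℕ} (hτ : τ < W) :
    (fm W d b).testBit (m * W + τ) = (decide (m < 2 ^ (d - 1)) && !m.testBit b) := by
  have e : fm W d b = dbl (ones (W * 2 ^ b)) (W * 2 ^ (b + 1)) (d - (b + 2)) := by
    show dbl (ones (W <<< b)) (W <<< (b + 1)) (d - (b + 2)) = _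
    rw [Nat.shiftLeft_eq, Nat.shiftLeft_eq]
  have h1 : m % 2 ^ (b + 1) < 2 ^ (b + 1) := Nat.mod_lt _ (by positivity)
  have h2 : ones (W * 2 ^ b) < 2 ^ (W * 2 ^ (b + 1)) := by
    rw [ones_eq]
    have : 2 ^ (W * 2 ^ b) ≤ 2 ^ (W * 2 ^ (b + 1)) :=
      Nat.pow_le_pow_right (by norm_num) (Nat.mul_le_mul_left _ (by rw [pow_succ]; omega))
    have : 0 < 2 ^ (W * 2 ^ b) := by positivity
    omega
  have h3 : m % 2 ^ (b + 1) * W + τ < W * 2 ^ (b + 1) := by nlinarith only [hτ, h1]
  have h4 : m * W + τ = m / 2 ^ (b + 1) * (W * 2 ^ (b + 1)) + (m % 2 ^ (b + 1) * W + τ) := by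
    conv_lhs => rw [← Nat.div_add_mod' m (2 ^ (b + 1))]
    ring
  have h5 : m.testBit b = decide (2 ^ b ≤ m % 2 ^ (b + 1)) := by
    rw [← kbits_top h1, Nat.testBit_mod_two_pow]; simp
  rw [e, h4, testBit_dbl h2 _ _ h3, testBit_ones, h5]
  have h6 : m / 2 ^ (b + 1) < 2 ^ (d - (b + 2)) ↔ m < 2 ^ (d - 1) := by
    rw [Nat.div_lt_iff_lt_mul (by positivity), ← pow_add,
      show d - (b + 2) + (b + 1) = d - 1 by omega]
  have h7 : m % 2 ^ (b + 1) * W + τ < W * 2 ^ b ↔ ¬ 2 ^ b ≤ m % 2 ^ (b + 1) := by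
    constructor
    · intro h h'; nlinarith only [h, h']
    · intro h; have := not_le.1 h; nlinarith only [hτ, h]
  simp only [h6, h7, decide_not]

/-- TASK KBits. `fm W d b` marks the blocks `m < 2 ^ (d - 1)` whose bit `b` is zero. -/
theorem testBit_flp {W d b : ℕ} (hb : b + 1 ≤ d) (x : ℕ) {m τ : ℕ} (hm : m < 2 ^ (d - 1))
    (hτ : τ < W) : (flp W d b x).testBit (m * W + τ) =
      x.testBit ((m ^^^ (if b = 0 then 0 else 2 ^ (b - 1))) * W + τ) := by
  cases b with
  | zero => simp [flp]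
  | succ b =>
    have e : flp W d (b + 1) x =
        (x &&& fm W d b) <<< (W <<< b) ||| (x >>> (W <<< b) &&& fm W d b) := rfl
    rw [e, Nat.shiftLeft_eq W, if_neg (Nat.succ_ne_zero b), Nat.add_sub_cancel, Nat.testBit_or,
      Nat.testBit_shiftLeft, Nat.testBit_and, Nat.testBit_and, Nat.testBit_shiftRight,
      kbits_fm hb m hτ]
    by_cases h : 2 ^ b ≤ m
    · obtain ⟨q, rfl⟩ := Nat.exists_eq_add_of_le h
      have e1 : (2 ^ b + q) * W + τ - W * 2 ^ b = q * W + τ := by
        rw [add_mul, mul_comm W]; omega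
      have e2 : (2 ^ b + q) * W + τ ≥ W * 2 ^ b := by rw [add_mul, mul_comm W]; omega
      rw [e1, kbits_fm hb q hτ, Nat.testBit_two_pow_add_eq]
      cases hq : q.testBit b
      · have e3 : (2 ^ b + q) ^^^ 2 ^ b = q := by
          rw [add_comm, ← kbits_add hq, Nat.xor_assoc, Nat.xor_self, Nat.xor_zero]
        have e4 : q < 2 ^ (d - 1) := (Nat.le_add_left q _).trans_lt hm
        simp [e2, e3, e4]
      · have e3 : (2 ^ b + q) ^^^ 2 ^ b = 2 ^ b + q + 2 ^ b :=
          kbits_add (by rw [Nat.testBit_two_pow_add_eq, hq]; rfl)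
        rw [e3, show W * 2 ^ b + ((2 ^ b + q) * W + τ) = (2 ^ b + q + 2 ^ b) * W + τ by ring]
        simp [hm]
    · have hq := Nat.testBit_lt_two_pow (not_le.1 h)
      have e2 : ¬ m * W + τ ≥ W * 2 ^ b := by
        have := not_le.1 h
        intro h'; nlinarith only [hτ, h, h']
      rw [kbits_add hq, show W * 2 ^ b + (m * W + τ) = (m + 2 ^ b) * W + τ by ring]
      simp only [ge_iff_le, e2, decide_false, Bool.false_and, hm, decide_true, hq, Bool.not_false, Bool.and_self, Bool.and_true, Bool.false_or]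

lemma kbits_e {b n : ℕ} (hb : b ≤ n) : (if b = 0 then 0 else 2 ^ (b - 1)) < 2 ^ n := by
  split_ifs with h
  · positivity
  · exact Nat.pow_lt_pow_right (by norm_num) (by omega)

theorem mu_lt {b : ℕ → ℕ} {n i : ℕ} (hb : ∀ j < i, b j ≤ n) (α : ℕ) : mu b α i < 2 ^ n := by
  induction i with
  | zero => simp [mu]
  | succ i ih =>
    rw [mu]
    refine Nat.xor_lt_two_pow (ih fun j hj => hb j (by omega)) ?_
    split_ifs with h
    · have := hb i (lt_add_one i)
      exact Nat.pow_lt_pow_right (by norm_num) (by omega)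
    · positivity

lemma kbits_mu {b : ℕ → ℕ} {α β i : ℕ} (h : ∀ j < i, α.testBit j = β.testBit j) :
    mu b α i = mu b β i := by
  induction i with
  | zero => rfl
  | succ i ih => rw [mu, mu, ih fun j hj => h j (by omega), h i (lt_add_one i)]

lemma kbits_mu0 {b : ℕ → ℕ} {α i : ℕ} (h : α < 2 ^ i) : mu b α (i + 1) = mu b α i := by
  rw [mu, Nat.testBit_lt_two_pow h]; simp

lemma kbits_mu1 {b : ℕ → ℕ} {α i : ℕ} (h : α < 2 ^ i) :
    mu b (2 ^ i + α) (i + 1) = mu b α i ^^^ (if b i = 0 then 0 else 2 ^ (b i - 1)) := by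
  rw [mu, Nat.testBit_two_pow_add_eq, Nat.testBit_lt_two_pow h,
    kbits_mu (β := α) fun j hj => Nat.testBit_two_pow_add_gt hj α]
  by_cases h0 : b i = 0 <;> simp [h0]

lemma kbits_kgo (W d k i lo hi β : ℕ) (t : MT) : ∀ a₁ a₂, ∃ u v,
    kgo W d k t i lo hi a₁ a₂ = u ||| v <<< hs W k i ∧
    (∀ j, u.testBit j = true → a₁.testBit j = true) ∧
    (∀ j, v.testBit j = true → a₂.testBit j = true) ∧
    ∀ c, find β t = some c →
      (∀ j, u.testBit j = true →
        (down W k (kgo W d k c) i (lo ||| flp W d β hi)).testBit j = true) ∧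
      ∀ j, v.testBit j = true →
        (flp W d β (down W k (kgo W d k c) i (lo ||| flp W d β hi))).testBit j = true := by
  induction t with
  | nil => exact fun a₁ a₂ => ⟨a₁, a₂, rfl, fun _ h => h, fun _ h => h, fun c h => by cases h⟩
  | cons b c r _ ih =>
    intro a₁ a₂
    obtain ⟨u, v, h1, h2, h3, h4⟩ := ih
      (a₁ &&& down W k (kgo W d k c) i (lo ||| flp W d b hi))
      (a₂ &&& flp W d b (down W k (kgo W d k c) i (lo ||| flp W d b hi)))
    simp only [Nat.testBit_and, Bool.and_eq_true] at h2 h3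
    refine ⟨u, v, h1, fun j h => (h2 j h).1, fun j h => (h3 j h).1, fun c' hc => ?_⟩
    have hc' : cond (Nat.beq β b) (some c) (find β r) = some c' := hc
    cases hβ : Nat.beq β b
    · rw [hβ] at hc'
      exact h4 c' hc'
    · rw [hβ] at hc'
      obtain rfl := Nat.eq_of_beq_eq_true hβ
      obtain rfl : c = c' := Option.some.inj hc'
      exact ⟨fun j h => (h2 j h).2, fun j h => (h3 j h).2⟩

/-- `kgo … t i lo hi a₁ a₂` is `a₁' ||| a₂' <<< hs` with `a₁' ⊆ a₁`, `a₂' ⊆ a₂` -/
theorem enter_lt (W d k : ℕ) (t : MT) (i x : ℕ) :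
    enter W k (kgo W d k t) i x < 2 ^ (2 * hs W k i) := by
  obtain ⟨u, v, h1, h2, h3, -⟩ := kbits_kgo W d k i (x &&& ones (hs W k i)) (x >>> hs W k i) 0 t
    (ones (hs W k i)) (ones (hs W k i))
  have e : enter W k (kgo W d k t) i x = u ||| v <<< hs W k i := h1
  rw [e]
  simp only [testBit_ones, decide_eq_true_eq] at h2 h3
  refine Nat.lt_pow_two_of_testBit _ fun j hj => ?_
  rw [Nat.testBit_or, Nat.testBit_shiftLeft]
  have a1 : u.testBit j = false := Bool.eq_false_iff.2 fun h => by have := h2 j h; omega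
  have a2 : v.testBit (j - hs W k i) = false :=
    Bool.eq_false_iff.2 fun h => by have := h3 _ h; omega
  simp [a1, a2]

lemma kbits_down {W n : ℕ} {b : ℕ → ℕ} (hb : ∀ j < n, b j ≤ n) {c τ : ℕ} (hc : c < 2 ^ n)
    (hτ : τ < W) (i : ℕ) : i ≤ n → ∀ t : MT, Path b i t → ∀ x : ℕ,
    (∀ α < 2 ^ i, x.testBit ((α * 2 ^ n + (c ^^^ mu b α i)) * W + τ) = false) →
    ∀ α < 2 ^ i, (down W (n + 1) (kgo W (sb (n + 1)) (n + 1) t) i x).testBit
      ((α * 2 ^ n + (c ^^^ mu b α i)) * W + τ) = false := by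
  induction i with
  | zero => exact fun _ t _ x hx => hx
  | succ i ih =>
    rintro hi t ⟨t', ht, hp⟩ x hx
    have hh : hs W (n + 1) i = 2 ^ i * 2 ^ n * W := by
      show W <<< (n + i) = _
      rw [Nat.shiftLeft_eq]; ring
    have he := kbits_e (hb i hi)
    have hmu : ∀ α, c ^^^ mu b α i < 2 ^ n := fun α =>
      Nat.xor_lt_two_pow hc (mu_lt (fun j hj => hb j (by omega)) α)
    have blk : ∀ α < 2 ^ i, ∀ p < 2 ^ n, α * 2 ^ n + p < 2 ^ i * 2 ^ n := fun α h p hp => by
      nlinarith only [h, hp]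
    have low : ∀ α < 2 ^ i, ∀ p < 2 ^ n, (α * 2 ^ n + p) * W + τ < hs W (n + 1) i :=
      fun α h p hp => by have := blk α h p hp; rw [hh]; nlinarith only [hτ, this]
    have up : ∀ α p, ((2 ^ i + α) * 2 ^ n + p) * W + τ =
        hs W (n + 1) i + ((α * 2 ^ n + p) * W + τ) := fun α p => by rw [hh]; ring
    have fl : ∀ y, ∀ α < 2 ^ i, ∀ p < 2 ^ n,
        (flp W (sb (n + 1)) (b i) y).testBit ((α * 2 ^ n + p) * W + τ) =
        y.testBit ((α * 2 ^ n + (p ^^^ (if b i = 0 then 0 else 2 ^ (b i - 1)))) * W + τ) := by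
      intro y α h p hp
      have h1 := hb i hi
      have h2 : 2 ^ i * 2 ^ n ≤ 2 ^ (sb (n + 1) - 1) := by
        rw [← pow_add, sb_succ]
        exact Nat.pow_le_pow_right (by norm_num) (by omega)
      rw [testBit_flp (by rw [sb_succ]; omega) y ((blk α h p hp).trans_le h2) hτ, kbits_xor hp he]
    obtain ⟨u, v, h1, h2, -, h4⟩ := kbits_kgo W (sb (n + 1)) (n + 1) i
      (x &&& ones (hs W (n + 1) i)) (x >>> hs W (n + 1) i) (b i) t
      (ones (hs W (n + 1) i)) (ones (hs W (n + 1) i))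
    obtain ⟨h5, h6⟩ := h4 t' ht
    have hz := ih (by omega) t' hp
      (x &&& ones (hs W (n + 1) i) ||| flp W (sb (n + 1)) (b i) (x >>> hs W (n + 1) i))
      fun α h => by
        have a1 := hx α (by rw [pow_succ]; omega)
        have a2 := hx (2 ^ i + α) (by rw [pow_succ]; omega)
        rw [kbits_mu0 h] at a1
        rw [kbits_mu1 h, up, ← Nat.xor_assoc] at a2
        rw [Nat.testBit_or, Nat.testBit_and, a1, fl _ α h _ (hmu α), Nat.testBit_shiftRight, a2]
        rfl
    have e : down W (n + 1) (kgo W (sb (n + 1)) (n + 1) t) (i + 1) x =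
        u ||| v <<< hs W (n + 1) i := h1
    intro α hα
    rw [e, Nat.testBit_or, Nat.testBit_shiftLeft]
    rcases lt_or_ge α (2 ^ i) with h | h
    · rw [kbits_mu0 h]
      have a1 : u.testBit ((α * 2 ^ n + (c ^^^ mu b α i)) * W + τ) = false :=
        Bool.eq_false_iff.2 fun h' => by
          have := h5 _ h'
          rw [hz α h] at this
          cases this
      rw [a1, decide_eq_false (not_le.2 (low α h _ (hmu α)))]
      rfl
    · obtain ⟨α, rfl⟩ := Nat.exists_eq_add_of_le h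
      have h' : α < 2 ^ i := by rw [pow_succ] at hα; omega
      rw [kbits_mu1 h', up, Nat.add_sub_cancel_left, ← Nat.xor_assoc]
      have a1 : u.testBit (hs W (n + 1) i + ((α * 2 ^ n + (c ^^^ mu b α i ^^^
          (if b i = 0 then 0 else 2 ^ (b i - 1)))) * W + τ)) = false :=
        Bool.eq_false_iff.2 fun h'' => by
          have := h2 _ h''
          rw [testBit_ones, decide_eq_true_eq] at this
          omega
      have a2 : v.testBit ((α * 2 ^ n + (c ^^^ mu b α i ^^^
          (if b i = 0 then 0 else 2 ^ (b i - 1)))) * W + τ) = false :=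
        Bool.eq_false_iff.2 fun h'' => by
          have := h6 _ h''
          rw [fl _ α h' _ (Nat.xor_lt_two_pow (hmu α) he), Nat.xor_assoc, Nat.xor_self,
            Nat.xor_zero, hz α h'] at this
          cases this
      rw [a1, a2]
      simp only [ge_iff_le, le_add_iff_nonneg_right, zero_le, decide_true, Bool.and_false, Bool.or_self]

/-- Induction on `i`. Along the list `t` the accumulators only shrink, and the child `c` found by
`find (b i)` contributes `z = down … (lo ||| flp hi)` to `a₁` and `flp z` to `a₂`. The bits of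
`y = lo ||| flp hi` at the places `(α' 2 ^ n + (c ^^^ mu b α' i)) W + τ`, `α' < 2 ^ i`, are zero
(take `α = α'` and `α = α' + 2 ^ i`), hence those of `z` (induction, or `z = y` for `i = 0`). -/
theorem enter_spec {W n : ℕ} {b : ℕ → ℕ} (hb : ∀ j < n, b j ≤ n) {c τ : ℕ} (hc : c < 2 ^ n)
    (hτ : τ < W) (i : ℕ) (hi : i < n) (t : MT) (hp : Path b (i + 1) t) (x : ℕ)
    (hx : ∀ α < 2 ^ (i + 1), x.testBit ((α * 2 ^ n + (c ^^^ mu b α (i + 1))) * W + τ) = false) :
    ∀ α < 2 ^ (i + 1), (enter W (n + 1) (kgo W (sb (n + 1)) (n + 1) t) i x).testBit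
      ((α * 2 ^ n + (c ^^^ mu b α (i + 1))) * W + τ) = false :=
  kbits_down hb hc hτ (i + 1) hi t hp x hx

end Pool.Agent.MP_8c1b0d_co.CT4.Chk

/-! Kempe changes in the layout. -/

namespace Pool.Agent.MP_8c1b0d_co.CT4.Chk

open Finset

theorem korb_ex (k ρ : ℕ) : ex k ρ = if ρ % 2 = 1 then k - 1 + ρ / 2 else ρ / 2 - 1 := by
  show cond (Nat.beq (ρ % 2) 1) (k - 1 + ρ / 2) (ρ / 2 - 1) = _
  split_ifs with h
  · rw [h]; rfl
  · rw [show ρ % 2 = 0 by omega]; rfl

theorem korb_mu {b : ℕ → ℕ} {e j : ℕ} (hj : b j = e + 1) (γ k : ℕ)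
    (hb : ∀ j' < k, b j' = e + 1 → j' = j) :
    (mu b γ k).testBit e = (decide (j < k) && γ.testBit j) := by
  induction k with
  | zero => simp [mu]
  | succ k ih =>
    rw [mu, Nat.testBit_xor, ih fun j' h => hb j' (by omega)]
    by_cases h : j = k
    · subst h
      rw [hj]
      cases hγ : γ.testBit j <;> simp only [lt_self_iff_false, decide_false, Bool.and_self, Bool.false_eq_true, ne_eq, Nat.add_eq_zero_iff, one_ne_zero, and_false, not_false_eq_true, and_true, ↓ reduceIte, Nat.zero_testBit, bne_self_eq_false, lt_add_iff_pos_right, Order.lt_one_iff, decide_true, Bool.and_false, Bool.and_true, and_self, add_tsub_cancel_right, Nat.testBit_two_pow_self, Bool.bne_true, Bool.not_false]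
    · have h2 : (if γ.testBit k = true ∧ b k ≠ 0 then 2 ^ (b k - 1) else 0).testBit e = false := by
        split_ifs with h3
        · exact Nat.testBit_two_pow_of_ne fun h4 => h (hb k (by omega) (by omega)).symm
        · simp
      rw [h2, Bool.xor_false]
      congr 1
      simp only [decide_eq_decide]
      omega

theorem korb_bit {i m α ρ : ℕ} {M : ℕ → ℕ} (hM : NC (2 * (i + 1)) M) (hm : m < 2 ^ (2 * i))
    (hα : α < 2 ^ i) (h0 : ρ ≠ 0) (hρ : ρ < 2 * (i + 1)) {L : ℕ} (hL : L < 2 ^ i)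
    (eL : L = (m % 2 ^ i ^^^ mu (fun j => M (2 * j + 1) / 2) (m / 2 ^ i) i) ^^^
      mu (fun j => M (2 * j + 1) / 2) α i) :
    (α * 2 ^ i + L).testBit (ex (i + 1) ρ) = xor (m.testBit (ex (i + 1) ρ))
      ((α ^^^ m / 2 ^ i).testBit ((if ρ % 2 = 1 then ρ else M ρ) / 2)) := by
  rw [mul_comm α, Nat.testBit_two_pow_mul_add _ hL, korb_ex, Nat.testBit_xor]
  by_cases h : ρ % 2 = 1
  · rw [if_pos h, if_pos h, if_neg (by omega), Nat.testBit_div_two_pow, Nat.add_sub_cancel,
      Nat.add_sub_cancel_left, add_comm (ρ / 2) i]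
    cases α.testBit (ρ / 2) <;> cases m.testBit (i + ρ / 2) <;> rfl
  · obtain ⟨h1, -, h2⟩ := hM.1 ρ hρ
    have h3 := hM.parity hρ
    have h4 : 2 * (M ρ / 2) + 1 = M ρ := by omega
    have key : ∀ γ < 2 ^ i, (mu (fun j => M (2 * j + 1) / 2) γ i).testBit (ρ / 2 - 1) =
        γ.testBit (M ρ / 2) := by
      intro γ hγ
      rw [korb_mu (j := M ρ / 2) (by simp only [h4, h2]; omega) γ i (fun j' h5 h6 => by
        have h7 := hM.parity (a := 2 * j' + 1) (by omega)
        have h8 := (hM.1 (2 * j' + 1) (by omega)).2.2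
        have h9 : M (2 * j' + 1) = ρ := by omega
        rw [h9] at h8
        omega)]
      by_cases h5 : M ρ / 2 < i
      · simp [h5]
      · rw [Nat.testBit_lt_two_pow (hγ.trans_le (Nat.pow_le_pow_right two_pos (by omega)))]
        simp
    have h5 : m / 2 ^ i < 2 ^ i := by
      rw [Nat.div_lt_iff_lt_mul (by positivity), ← pow_add, ← two_mul]; exact hm
    have h6 : ρ / 2 - 1 < i := by omega
    rw [if_neg h, if_neg h, if_pos h6, eL, Nat.testBit_xor, Nat.testBit_xor, key _ hα, key _ h5,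
      Nat.testBit_mod_two_pow, decide_eq_true h6]
    cases α.testBit (M ρ / 2) <;> cases m.testBit (ρ / 2 - 1) <;>
      cases (m / 2 ^ i).testBit (M ρ / 2) <;> rfl

/-- the orbit of a colouring under the Kempe changes of one matching -/
theorem kempe_orbit {r : ℕ} {d : ℕ → ℕ → K} {S : (ℕ → K) → Prop} (hL : Layout r d)
    (hS : KempeClosed r S) {i m τ : ℕ} (hi : i < r / 2) (hm : m < 2 ^ (2 * i))
    (hτ : τ < wd r (i + 1)) (h : S (d (ix r i m τ))) :
    ∃ M : ℕ → ℕ, NC (2 * (i + 1)) M ∧ ∀ α < 2 ^ i, S (d (ix r i (α * 2 ^ i +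
      ((m % 2 ^ i ^^^ mu (fun j => M (2 * j + 1) / 2) (m / 2 ^ i) i) ^^^
        mu (fun j => M (2 * j + 1) / 2) α i)) τ)) := by
  have f1 := fun m hm => hL.fst i hi m hm τ hτ
  have f2 := fun m hm => hL.out i hi m hm τ hτ
  have f3 := fun m hm => hL.snd i hi m hm τ hτ
  have f4 := fun m hm => hL.sum i hi m hm τ hτ
  have hc : (sbs r (2 * (i + 1)) τ).card = 2 * (i + 1) := sbs_card (by rwa [← wd_eq])
  have hs : ∀ a ∈ sbs r (2 * (i + 1)) τ, a < r := fun a ha => mem_range.1 (sbs_subset _ _ _ ha)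
  generalize sbs r (2 * (i + 1)) τ = U at f1 f2 f3 hc hs
  have hout : ∀ m < 2 ^ (2 * i), ∀ a < r, a ∉ U → d (ix r i m τ) a = (0, 1) :=
    fun m hm a ha hn => Prod.ext (by rw [f1 m hm a ha, if_neg hn]) (f2 m hm a ha hn)
  have hin : ∀ a ∈ U, d (ix r i m τ) a ≠ (0, 1) := fun a ha e => by
    have := f1 m hm a (hs a ha)
    rw [e, if_pos ha] at this
    exact zero_ne_one this
  have hU : ∀ a < r, d (ix r i m τ) a ≠ (0, 1) → a ∈ U := fun a ha e => by
    by_contra hn
    exact e (hout m hm a ha hn)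
  have inj : ∀ a ∈ U, ∀ b ∈ U, rk U a = rk U b → a = b := fun a ha b hb e => by
    have h1 := rk_lt_rk ha hb
    have h2 := rk_lt_rk hb ha
    omega
  have hex : ∀ ρ, ∃ a, ρ < 2 * (i + 1) → a ∈ U ∧ rk U a = ρ := fun ρ => by
    by_cases h1 : ρ < 2 * (i + 1)
    · obtain ⟨a, h2⟩ := rk_surj (U := U) (hc ▸ h1)
      exact ⟨a, fun _ => h2⟩
    · exact ⟨0, fun h2 => absurd h2 h1⟩
  choose el hel using hex
  have hrk : ∀ a ∈ U, rk U a < 2 * (i + 1) := fun a ha => hc ▸ rk_lt ha
  have elrk : ∀ a ∈ U, el (rk U a) = a := fun a ha =>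
    inj _ (hel _ (hrk a ha)).1 _ ha (hel _ (hrk a ha)).2
  obtain ⟨M₀, m1, m2, m3⟩ := hS.kempe _ h (0, 1) (by decide)
  have mU : ∀ a ∈ U, M₀ a ∈ U := fun a ha =>
    hU _ (m1 a (hs a ha) (hin a ha)).1 (m1 a (hs a ha) (hin a ha)).2.1
  obtain ⟨M, hM⟩ : ∃ M : ℕ → ℕ, ∀ a ∈ U, M (rk U a) = rk U (M₀ a) :=
    ⟨fun ρ => rk U (M₀ (el ρ)), fun a ha => by simp only [elrk a ha]⟩
  have nc : NC (2 * (i + 1)) M := by
    refine ⟨fun ρ h1 => ?_, fun ρ h1 σ h2 h3 h4 => ?_⟩
    · obtain ⟨ha, e⟩ := hel ρ h1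
      obtain ⟨-, -, h5, h6⟩ := m1 _ (hs _ ha) (hin _ ha)
      rw [← e, hM _ ha, hM _ (mU _ ha), h6]
      exact ⟨hrk _ (mU _ ha), fun h7 => h5 (inj _ (mU _ ha) _ ha h7), rfl⟩
    · obtain ⟨ha, e⟩ := hel ρ h1
      obtain ⟨hb, e'⟩ := hel σ h2
      generalize el ρ = a at ha e
      generalize el σ = b at hb e'
      subst e e'
      rw [hM _ ha] at h4
      rw [hM _ ha, hM _ hb, rk_lt_rk ha (mU _ hb), rk_lt_rk (mU _ hb) (mU _ ha)]
      exact m2 a (hs a ha) b (hs b hb) (hin a ha) (hin b hb) ((rk_lt_rk ha hb).1 h3)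
        ((rk_lt_rk hb (mU _ ha)).1 h4)
  refine ⟨M, nc, fun α hα => ?_⟩
  have hb : ∀ j < i, M (2 * j + 1) / 2 ≤ i := fun j hj => by
    have := (nc.1 (2 * j + 1) (by omega)).1
    omega
  obtain ⟨L, eL⟩ : ∃ L, L = (m % 2 ^ i ^^^ mu (fun j => M (2 * j + 1) / 2) (m / 2 ^ i) i) ^^^
    mu (fun j => M (2 * j + 1) / 2) α i := ⟨_, rfl⟩
  have hL' : L < 2 ^ i := eL ▸ Nat.xor_lt_two_pow (Nat.xor_lt_two_pow
    (Nat.mod_lt _ (by positivity)) (mu_lt hb _)) (mu_lt hb _)
  rw [← eL]
  have hm' : α * 2 ^ i + L < 2 ^ (2 * i) := by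
    have := Nat.mul_le_mul_right (2 ^ i) (Nat.succ_le_of_lt hα)
    rw [two_mul, pow_add]
    rw [Nat.succ_mul] at this
    omega
  have s1 := m3 (fun a => (α ^^^ m / 2 ^ i).testBit
    ((if rk U a % 2 = 1 then rk U a else M (rk U a)) / 2)) (fun a ha hn => by
      have h1 := hU a ha hn
      have h2 := nc.parity (hrk a h1)
      have h3 := (nc.1 _ (hrk a h1)).2.2
      simp only [← hM a h1, h3]
      congr 2
      split_ifs <;> first | rfl | omega)
  refine hS.ext _ _ (eq_of_sum (a₀ := el 0) ((hS.sum _ s1).trans (f4 _ hm').symm)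
    fun a ha hn => ?_) s1
  by_cases h1 : a ∈ U
  · have h2 : rk U a ≠ 0 := fun e => hn (by rw [← e, elrk a h1])
    have g1 := f1 m hm a ha
    have g2 := f1 _ hm' a ha
    have g3 := f3 m hm a h1 h2
    have g4 := f3 _ hm' a h1 h2
    rw [if_pos h1] at g1 g2
    rw [korb_bit nc hm hα h2 (hrk a h1) hL' eL] at g4
    simp only [hin a h1, ne_eq, not_false_eq_true, true_and]
    generalize (α ^^^ m / 2 ^ i).testBit
      ((if rk U a % 2 = 1 then rk U a else M (rk U a)) / 2) = t at g4 ⊢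
    generalize m.testBit (ex (i + 1) (rk U a)) = u at g3 g4
    rw [show d (ix r i m τ) a = (1, bz u) from Prod.ext g1 g3,
      show d (ix r i (α * 2 ^ i + L) τ) a = (1, bz (xor u t)) from Prod.ext g2 g4]
    cases t <;> cases u <;> decide
  · rw [hout m hm a ha h1, hout _ hm' a ha h1]
    simp

end Pool.Agent.MP_8c1b0d_co.CT4.Chk

/-! An index outside the computed set extends. -/

namespace Pool.Agent.MP_8c1b0d_co.CT4.Chk

open Finset

theorem dp1_has_iff (A v : ℕ) : has A v = true ↔ ∀ a < 4, A.testBit (4 * v + a) = true := by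
  unfold has
  rw [Nat.beq_eq, Nat.land_eq, Nat.shiftRight_eq, Nat.mul_eq]
  constructor
  · intro h a ha
    have h2 := congrArg (fun x => Nat.testBit x a) h
    simp only [Nat.testBit_and, Nat.testBit_shiftRight] at h2
    have h15 : Nat.testBit 15 a = true := by
      interval_cases a <;> rfl
    rw [h15] at h2
    simpa using h2
  · intro h
    apply Nat.eq_of_testBit_eq
    intro a
    simp only [Nat.testBit_and, Nat.testBit_shiftRight]
    by_cases ha : a < 4
    · rw [h a ha]; simp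
    · have h15 : Nat.testBit 15 a = false := by
        apply Nat.testBit_lt_two_pow
        calc 15 < 2 ^ 4 := by norm_num
          _ ≤ 2 ^ a := Nat.pow_le_pow_right (by norm_num) (by omega)
      rw [h15]; simp

theorem dp1_bit15 {w v a : ℕ} (ha : a < 4)
    (h : (Nat.shiftLeft 15 (Nat.mul 4 w)).testBit (4 * v + a) = true) : v = w := by
  rw [Nat.shiftLeft_eq', Nat.mul_eq, Nat.testBit_shiftLeft] at h
  simp only [Bool.and_eq_true, decide_eq_true_eq] at h
  obtain ⟨h1, h2⟩ := h
  by_contra hne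
  have h15 : Nat.testBit 15 (4 * v + a - 4 * w) = false := by
    apply Nat.testBit_lt_two_pow
    calc 15 < 2 ^ 4 := by norm_num
      _ ≤ 2 ^ (4 * v + a - 4 * w) := Nat.pow_le_pow_right (by norm_num) (by omega)
  rw [h15] at h2
  exact absurd h2 (by simp)

theorem dp1_has_land {A m v : ℕ} (h : has (Nat.land A m) v = true) :
    has A v = true ∧ has m v = true := by
  rw [dp1_has_iff] at h
  rw [dp1_has_iff, dp1_has_iff]
  constructor
  · intro a ha
    have := h a ha
    rw [Nat.land_eq, Nat.testBit_and] at this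
    simp only [Bool.and_eq_true] at this
    exact this.1
  · intro a ha
    have := h a ha
    rw [Nat.land_eq, Nat.testBit_and] at this
    simp only [Bool.and_eq_true] at this
    exact this.2

theorem dp1_has_lor {B w v : ℕ}
    (h : has (Nat.lor B (Nat.shiftLeft 15 (Nat.mul 4 w))) v = true) :
    v = w ∨ has B v = true := by
  by_cases hv : v = w
  · exact Or.inl hv
  · right
    rw [dp1_has_iff] at h ⊢
    intro a ha
    have := h a ha
    rw [Nat.lor_eq, Nat.testBit_or] at this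
    simp only [Bool.or_eq_true] at this
    rcases this with h1 | h1
    · exact h1
    · exact absurd (dp1_bit15 ha h1) hv

theorem dp1_has_zero (v : ℕ) : has 0 v = false := by
  cases h : has 0 v
  · rfl
  · rw [dp1_has_iff] at h
    have := h 0 (by norm_num)
    simp at this

theorem dp1_bit_one (n : ℕ) : (Nat.shiftLeft 1 n).testBit n = true := by
  rw [Nat.shiftLeft_eq', Nat.testBit_shiftLeft]
  simp

theorem dp1_ne_nil (one : ℕ) (cm cf : ℕ → ℕ → ℕ) (ψ acc : ℕ) :
    ne one cm cf ET.nil ψ acc = acc := rfl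

theorem dp1_ne_cons (one : ℕ) (cm cf : ℕ → ℕ → ℕ) (w m : ℕ) (s r : ET) (ψ acc : ℕ) :
    ne one cm cf (ET.cons w m s r) ψ acc =
      ne one cm cf r ψ (acc ||| node one cm cf w (ne one cm cf s) (Nat.land ψ m)) := by
  have : ne one cm cf (ET.cons w m s r) ψ acc =
      frc (Nat.land ψ m) (nxt one cm cf w (ne one cm cf s) (ne one cm cf r ψ) acc) := rfl
  rw [this, frc_eq, nxt, orZ_eq]

theorem dp1_acc {one j : ℕ} {cm cf : ℕ → ℕ → ℕ} (t : ET) :
    ∀ ψ acc : ℕ, (ne one cm cf t ψ acc).testBit j = false → acc.testBit j = false := by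
  induction t with
  | nil => intro ψ acc h; exact h
  | cons w m s r _ ihr =>
    intro ψ acc h
    rw [dp1_ne_cons] at h
    have := ihr _ _ h
    rw [Nat.testBit_or] at this
    simp only [Bool.or_eq_false_iff] at this
    exact this.1

theorem dp1_and1 {j s : ℕ} {ok : ℕ → Bool} {g : ℕ → ℕ} (h : (and1 ok g s).testBit j = false) :
    s.testBit j = false ∨ ∃ a < 4, ok a = true ∧ (g a).testBit j = false := by
  unfold and1 at h
  cases h3 : ok 3
  · rw [h3] at h; exact Or.inl h
  · rw [h3] at h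
    simp only [cond_true, Nat.land_eq, Nat.testBit_and, Bool.and_eq_false_iff] at h
    rcases h with h | h
    · exact Or.inl h
    · exact Or.inr ⟨3, by norm_num, h3, h⟩

theorem dp1_and2 {j s : ℕ} {ok : ℕ → Bool} {g : ℕ → ℕ} (h : (and2 ok g s).testBit j = false) :
    s.testBit j = false ∨ ∃ a < 4, ok a = true ∧ (g a).testBit j = false := by
  unfold and2 at h
  cases h3 : ok 2
  · rw [h3] at h; exact dp1_and1 h
  · rw [h3] at h
    rcases dp1_and1 h with h | h
    · simp only [Nat.land_eq, Nat.testBit_and, Bool.and_eq_false_iff] at h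
      rcases h with h | h
      · exact Or.inl h
      · exact Or.inr ⟨2, by norm_num, h3, h⟩
    · exact Or.inr h

theorem dp1_and3 {j s : ℕ} {ok : ℕ → Bool} {g : ℕ → ℕ} (h : (and3 ok g s).testBit j = false) :
    s.testBit j = false ∨ ∃ a < 4, ok a = true ∧ (g a).testBit j = false := by
  unfold and3 at h
  cases h3 : ok 1
  · rw [h3] at h; exact dp1_and2 h
  · rw [h3] at h
    rcases dp1_and2 h with h | h
    · simp only [Nat.land_eq, Nat.testBit_and, Bool.and_eq_false_iff] at h
      rcases h with h | h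
      · exact Or.inl h
      · exact Or.inr ⟨1, by norm_num, h3, h⟩
    · exact Or.inr h

theorem dp1_and4 {one j : ℕ} {ok : ℕ → Bool} {g : ℕ → ℕ} (hone : one.testBit j = true)
    (h : (and4 one ok g).testBit j = false) :
    ∃ a < 4, ok a = true ∧ (g a).testBit j = false := by
  unfold and4 at h
  cases h0 : ok 0
  · rw [h0] at h
    cases h1 : ok 1
    · rw [h1] at h
      cases h2 : ok 2
      · rw [h2] at h
        cases h3 : ok 3
        · rw [h3] at h
          simp only [cond_false] at h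
          rw [hone] at h
          exact absurd h (by simp)
        · rw [h3] at h
          exact ⟨3, by norm_num, h3, h⟩
      · rw [h2] at h
        rcases dp1_and1 h with h | h
        · exact ⟨2, by norm_num, h2, h⟩
        · exact h
    · rw [h1] at h
      rcases dp1_and2 h with h | h
      · exact ⟨1, by norm_num, h1, h⟩
      · exact h
  · rw [h0] at h
    rcases dp1_and3 h with h | h
    · exact ⟨0, by norm_num, h0, h⟩
    · exact h

/-- the vertices of a forest -/
def dp1V : ET → List ℕ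
  | ET.nil => []
  | ET.cons w _ s r => w :: (dp1V s ++ dp1V r)

theorem dp1_trav_nil (A : ℕ) (l : List (ℕ × ℕ)) : trav ET.nil A l = l := rfl

theorem dp1_trav_cons (w m : ℕ) (s r : ET) (A : ℕ) (l : List (ℕ × ℕ)) :
    trav (ET.cons w m s r) A l = (w, Nat.land A m) ::
      trav s (Nat.lor (Nat.land A m) (Nat.shiftLeft 15 (Nat.mul 4 w))) (trav r A l) := rfl

theorem dp1_trav_app (t : ET) : ∀ (A : ℕ) (l : List (ℕ × ℕ)), trav t A l = trav t A [] ++ l := by
  induction t with
  | nil => intro A l; rfl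
  | cons w m s r ihs ihr =>
    intro A l
    rw [dp1_trav_cons, dp1_trav_cons, ihs _ (trav r A l), ihs _ (trav r A []), ihr A l]
    simp

theorem dp1_trav_cons' (w m : ℕ) (s r : ET) (A : ℕ) :
    trav (ET.cons w m s r) A [] = (w, Nat.land A m) ::
      (trav s (Nat.lor (Nat.land A m) (Nat.shiftLeft 15 (Nat.mul 4 w))) [] ++ trav r A []) := by
  rw [dp1_trav_cons, dp1_trav_app s]

theorem dp1_trav_fst (t : ET) : ∀ A : ℕ, (trav t A []).map Prod.fst = dp1V t := by
  induction t with
  | nil => intro A; rfl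
  | cons w m s r ihs ihr =>
    intro A
    rw [dp1_trav_cons', List.map_cons, List.map_append, ihs, ihr]
    rfl

theorem dp1_mem_V {t : ET} {A : ℕ} {p : ℕ × ℕ} (h : p ∈ trav t A []) : p.1 ∈ dp1V t := by
  rw [← dp1_trav_fst t A]
  exact List.mem_map_of_mem h

theorem dp1_anc (t : ET) : ∀ (A : ℕ) (p : ℕ × ℕ), p ∈ trav t A [] → ∀ v, has p.2 v = true →
    has A v = true ∨ v ∈ dp1V t := by
  induction t with
  | nil => intro A p hp; exact absurd hp (by simp [dp1_trav_nil])
  | cons w m s r ihs ihr =>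
    intro A p hp v hv
    rw [dp1_trav_cons'] at hp
    simp only [List.mem_cons, List.mem_append] at hp
    simp only [dp1V, List.mem_cons, List.mem_append]
    rcases hp with hp | hp | hp
    · subst hp
      exact Or.inl (dp1_has_land hv).1
    · rcases ihs _ p hp v hv with h | h
      · rcases dp1_has_lor h with h | h
        · exact Or.inr (Or.inl h)
        · exact Or.inl (dp1_has_land h).1
      · exact Or.inr (Or.inr (Or.inl h))
    · rcases ihr _ p hp v hv with h | h
      · exact Or.inl h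
      · exact Or.inr (Or.inr (Or.inr h))

theorem dp1_main {one j : ℕ} {cm cf : ℕ → ℕ → ℕ} (hone : one.testBit j = true) (t : ET) :
    ∀ (A ψ acc : ℕ) (Φ₀ : ℕ → ℕ), (∀ v, Φ₀ v < 4) →
      (∀ v, has A v = true → ψ.testBit (4 * v + Φ₀ v) = true) →
      (∀ v ∈ dp1V t, ¬ has A v = true) → (dp1V t).Nodup →
      (ne one cm cf t ψ acc).testBit j = false →
      ∃ Φ : ℕ → ℕ, (∀ v, Φ v < 4) ∧ (∀ v, v ∉ dp1V t → Φ v = Φ₀ v) ∧
        ∀ p ∈ trav t A [], (cf p.1 (Φ p.1)).testBit j = false ∧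
          ∀ v, has p.2 v = true → (cm p.1 (Φ p.1)).testBit (4 * v + Φ v) = false := by
  induction t with
  | nil =>
    intro A ψ acc Φ₀ h4 _ _ _ _
    exact ⟨Φ₀, h4, fun _ _ => rfl, fun p hp => absurd hp (by simp [dp1_trav_nil])⟩
  | cons w m s r ihs ihr =>
    intro A ψ acc Φ₀ h4 hA hV hnd h
    rw [dp1_ne_cons] at h
    have hacc := dp1_acc r _ _ h
    rw [Nat.testBit_or] at hacc
    simp only [Bool.or_eq_false_iff] at hacc
    obtain ⟨a, ha, hok, hs⟩ := dp1_and4 hone hacc.2
    have hs' : (ne one cm cf s (Nat.lor (Nat.land ψ m)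
        (Nat.shiftLeft 1 (Nat.add (Nat.mul 4 w) a))) (cf w a)).testBit j = false := hs
    have hcf := dp1_acc s _ _ hs'
    simp only [dp1V, List.nodup_cons, List.mem_append, not_or, List.nodup_append] at hnd
    obtain ⟨⟨hws, hwr⟩, hns, hnr, hsr⟩ := hnd
    have hVw : ¬ has A w = true := hV w (by simp [dp1V])
    have hVs : ∀ v ∈ dp1V s, ¬ has A v = true := fun v hv => hV v (by simp [dp1V, hv])
    have hVr : ∀ v ∈ dp1V r, ¬ has A v = true := fun v hv => hV v (by simp [dp1V, hv])
    have hψm : ∀ v, has (Nat.land A m) v = true → (Nat.land ψ m).testBit (4 * v + Φ₀ v) = true := by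
      intro v hv
      obtain ⟨h1, h2⟩ := dp1_has_land hv
      rw [Nat.land_eq, Nat.testBit_and, hA v h1, (dp1_has_iff m v).1 h2 _ (h4 v)]
      rfl
    obtain ⟨Φ₁, h41, hag1, hc1⟩ := ihs (Nat.lor (Nat.land A m) (Nat.shiftLeft 15 (Nat.mul 4 w)))
      _ _ (Function.update Φ₀ w a)
      (by
        intro v
        by_cases hv : v = w
        · subst hv; simpa using ha
        · rw [Function.update_of_ne hv]; exact h4 v)
      (by
        intro v hv
        rw [Nat.lor_eq, Nat.testBit_or]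
        by_cases hvw : v = w
        · subst hvw
          rw [Function.update_self]
          have := dp1_bit_one (4 * v + a)
          have e : Nat.add (Nat.mul 4 v) a = 4 * v + a := rfl
          rw [e, this]; simp
        · rw [Function.update_of_ne hvw]
          rcases dp1_has_lor hv with h1 | h1
          · exact absurd h1 hvw
          · rw [hψm v h1]; simp only [Nat.mul_eq, Nat.add_eq, Nat.shiftLeft_eq', Nat.testBit_shiftLeft, ge_iff_le, Bool.true_or])
      (by
        intro v hv hh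
        rcases dp1_has_lor hh with h1 | h1
        · subst h1; exact hws hv
        · exact hVs v hv (dp1_has_land h1).1)
      hns hs'
    have hold : ∀ v, has A v = true → Φ₁ v = Φ₀ v := by
      intro v hv
      have h1 : v ≠ w := fun e => hVw (e ▸ hv)
      rw [hag1 v (fun hh => hVs v hh hv), Function.update_of_ne h1]
    obtain ⟨Φ₂, h42, hag2, hc2⟩ := ihr A ψ _ Φ₁ h41
      (by intro v hv; rw [hold v hv]; exact hA v hv) hVr hnr h
    have hw2 : Φ₂ w = a := by
      rw [hag2 w hwr, hag1 w hws, Function.update_self]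
    refine ⟨Φ₂, h42, ?_, ?_⟩
    · intro v hv
      simp only [dp1V, List.mem_cons, List.mem_append, not_or] at hv
      rw [hag2 v hv.2.2, hag1 v hv.2.1, Function.update_of_ne hv.1]
    · intro p hp
      rw [dp1_trav_cons'] at hp
      simp only [List.mem_cons, List.mem_append] at hp
      rcases hp with hp | hp | hp
      · subst hp
        simp only
        rw [hw2]
        refine ⟨hcf, fun v hv => ?_⟩
        have hAv := (dp1_has_land hv).1
        rw [hag2 v (fun hh => hVr v hh hAv), hold v hAv]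
        have h0 : Nat.land (Nat.land ψ m) (cm w a) = 0 := by
          unfold okc at hok
          exact Nat.eq_of_beq_eq_true hok
        have h1 := congrArg (fun x => Nat.testBit x (4 * v + Φ₀ v)) h0
        simp only [Nat.zero_testBit] at h1
        rw [Nat.land_eq, Nat.testBit_and, hψm v hv] at h1
        simpa using h1
      · have hp1 : Φ₂ p.1 = Φ₁ p.1 := hag2 _ (fun hh => hsr _ (dp1_mem_V hp) _ hh rfl)
        rw [hp1]
        refine ⟨(hc1 p hp).1, fun v hv => ?_⟩
        have hv2 : Φ₂ v = Φ₁ v := by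
          apply hag2
          intro hh
          rcases dp1_anc s _ p hp v hv with h1 | h1
          · rcases dp1_has_lor h1 with h1 | h1
            · subst h1; exact hwr hh
            · exact hVr v hh (dp1_has_land h1).1
          · exact hsr _ h1 _ hh rfl
        rw [hv2]
        exact (hc1 p hp).2 v hv
      · exact hc2 p hp

theorem dp1_nd (l : List (ℕ × ℕ)) (h : nd l = true) : (l.map Prod.fst).Nodup := by
  induction l with
  | nil => simp
  | cons p l ih =>
    have e : nd (p :: l) = (nd l && l.all fun q => !Nat.beq p.1 q.1) := rfl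
    rw [e] at h
    simp only [Bool.and_eq_true, List.all_eq_true, Bool.not_eq_true'] at h
    rw [List.map_cons, List.nodup_cons]
    refine ⟨?_, ih h.1⟩
    intro hm
    obtain ⟨q, hq, e2⟩ := List.mem_map.1 hm
    have := h.2 q hq
    rw [e2] at this
    simp at this

theorem dp1_cmk (C : Conf) (w a : ℕ) {y : ℕ} (hy : y ∈ nth [] C.nb w) (hr : C.r ≤ y) :
    (cmk C [] w a).testBit (4 * (y - C.r) + a) = true := by
  unfold cmk
  generalize nth [] C.nb w = l at hy
  induction l with
  | nil => simp at hy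
  | cons z l ih =>
    rcases List.mem_cons.1 hy with e | hy'
    · subst e
      have hb : Nat.blt y C.r = false := by
        cases hb : Nat.blt y C.r
        · rfl
        · rw [Nat.blt_eq] at hb; omega
      simp only [hb, cond_false, inX_nil]
      have hb1 : (Nat.shiftLeft (Nat.shiftLeft 1 a) (Nat.mul 4 (Nat.sub y C.r))).testBit
          (4 * (y - C.r) + a) = true := by
        have h1 := dp1_bit_one a
        generalize Nat.shiftLeft 1 a = u at h1
        rw [Nat.shiftLeft_eq', Nat.mul_eq, Nat.sub_eq, Nat.testBit_shiftLeft]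
        have e : 4 * (y - C.r) + a - 4 * (y - C.r) = a := by omega
        rw [e, h1]
        simp only [ge_iff_le, le_add_iff_nonneg_right, zero_le, decide_true, Bool.and_self]
      rw [Nat.lor_eq, Nat.testBit_or, hb1]
      simp only [Nat.shiftLeft_eq', Nat.sub_eq, Nat.mul_eq, Nat.lor_eq, Bool.or_true]
    · have := ih hy'
      cases hb : Nat.blt z C.r
      · simp only [hb, cond_false]
        rw [Nat.lor_eq, Nat.testBit_or, this]
        simp only [Nat.add_eq, Nat.shiftLeft_eq', Nat.xor_eq, Nat.sub_eq, Nat.mul_eq, Nat.testBit_shiftLeft, ge_iff_le, Bool.true_or]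
      · simp only [hb, cond_true]
        exact this

theorem dp1_cfk (one : ℕ) (H : List (List ℕ)) (C : Conf) (w a j : ℕ) {y : ℕ}
    (hy : y ∈ nth [] C.nb w) (hr : y < C.r) (h : (cfk one H C [] w a).testBit j = false) :
    (hget H a y).testBit j = false := by
  unfold cfk at h
  generalize nth [] C.nb w = l at hy h
  induction l with
  | nil => simp at hy
  | cons z l ih =>
    cases hb : Nat.blt z C.r
    · simp only [hb, cond_false] at h
      rcases List.mem_cons.1 hy with e | hy'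
      · subst e
        have : Nat.blt y C.r = true := by rw [Nat.blt_eq]; exact hr
        rw [this] at hb
        exact absurd hb (by simp)
      · exact ih hy' h
    · simp only [hb, cond_true, inX_nil, cond_false] at h
      rw [orZ_eq, Nat.testBit_or] at h
      simp only [Bool.or_eq_false_iff] at h
      rcases List.mem_cons.1 hy with e | hy'
      · subst e; exact h.2
      · exact ih hy' (by simpa only [inX_nil, cond_false] using h.1)

theorem dp1_N_mem {C : Conf} (hw : C.WF) {v : ℕ} (hv : v < C.k) (i : ℕ) :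
    C.N v i ∈ nth [] C.nb v := by
  rw [nth_eq]
  have hγ := (hw.gam v hv).1
  have hl : i % C.γ v < (C.nb.getD v []).length := Nat.mod_lt _ hγ
  unfold Conf.N
  rw [List.getD_eq_getElem _ _ hl]
  exact List.getElem_mem hl

/-- TASK DP1. First `(ne … t φ acc).testBit j = false → acc.testBit j = false`, and if bit `j` of
`and4 one ok g` is zero then `ok a` and bit `j` of `g a` is zero for some `a < 4`. Main induction on
`t`, for all `A`, `ψ`, `acc`, `l` and all `Φ₀ : ℕ → ℕ` with values `< 4` such that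
`has A v → ψ.testBit (4 v + Φ₀ v)` and no vertex of `t` satisfies `has A`, the vertices of `t` being
distinct: if bit `j` of `ne … t ψ acc` is zero there is `Φ` (values `< 4`) that agrees with `Φ₀` off
the vertices of `t` and satisfies, for every `(w, B)` of `trav t A []`: bit `j` of `cfk … w (Φ w)` is
zero and `Φ w ≠ Φ v` for each kernel neighbour `v` of `w` with `has B v`. (Prove
`trav t A l = trav t A [] ++ l`; `has B v` holds only for ancestors.) The root step is the same as
the step at a node, with the colour `1`. Finally every kernel edge is seen from one end (`okT`). -/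
theorem ext_of_ne {C : Conf} (hw : C.WF) {one j w : ℕ} {H : List (List ℕ)} {φ : ℕ → K} {t : ET}
    (hH : ∀ c < 4, ∀ i < C.r, (hget H c i).testBit j = decide (φ i = code c))
    (hone : one.testBit j = true) (hT : okT C w t = true)
    (h : (neR one H C [] w t).testBit j = false) :
    ∃ Φ : ℕ → K, (∀ i < C.r, Φ i = φ i) ∧ ∀ v < C.k, ∀ i, Φ (C.r + v) ≠ Φ (C.N v i) := by
  classical
  have e0 : trav (ET.cons w 0 t ET.nil) 0 [] = (w, Nat.land 0 0) ::
      trav t (Nat.lor (Nat.land 0 0) (Nat.shiftLeft 15 (Nat.mul 4 w))) [] := rfl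
  have e00 : Nat.land 0 0 = 0 := rfl
  unfold okT at hT
  rw [e0, e00] at hT
  simp only [Bool.and_eq_true] at hT
  obtain ⟨⟨hnd, hall⟩, hedge⟩ := hT
  have hnd' := dp1_nd _ hnd
  rw [List.map_cons, dp1_trav_fst, List.nodup_cons] at hnd'
  have h' : (ne one (cmk C []) (cfk one H C []) t
      (Nat.lor 0 (Nat.shiftLeft 1 (Nat.add (Nat.mul 4 w) 1))) (cfk one H C [] w 1)).testBit j
      = false := h
  have hA : ∀ v, has (Nat.lor 0 (Nat.shiftLeft 15 (Nat.mul 4 w))) v = true → v = w := by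
    intro v hv
    rcases dp1_has_lor hv with h1 | h1
    · exact h1
    · rw [dp1_has_zero] at h1; exact absurd h1 (by simp)
  obtain ⟨Φ, h4, hag, hc⟩ := dp1_main hone t (Nat.lor 0 (Nat.shiftLeft 15 (Nat.mul 4 w))) _ _
    (fun _ => 1) (fun _ => by norm_num)
    (by
      intro v hv
      have := hA v hv
      subst this
      have e : Nat.add (Nat.mul 4 v) 1 = 4 * v + 1 := rfl
      rw [Nat.lor_eq, Nat.testBit_or, e, dp1_bit_one]
      simp)
    (by
      intro v hv hh
      have := hA v hh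
      subst this
      exact hnd'.1 hv)
    hnd'.2 h'
  have hc' : ∀ p ∈ (w, 0) :: trav t (Nat.lor 0 (Nat.shiftLeft 15 (Nat.mul 4 w))) [],
      (cfk one H C [] p.1 (Φ p.1)).testBit j = false ∧
        ∀ v, has p.2 v = true → (cmk C [] p.1 (Φ p.1)).testBit (4 * v + Φ v) = false := by
    intro p hp
    rcases List.mem_cons.1 hp with e | hp
    · subst e
      simp only
      rw [hag w hnd'.1]
      refine ⟨dp1_acc t _ _ h', fun v hv => ?_⟩
      rw [dp1_has_zero] at hv; exact absurd hv (by simp)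
    · exact hc p hp
  generalize (w, 0) :: trav t (Nat.lor 0 (Nat.shiftLeft 15 (Nat.mul 4 w))) [] = L at hall hedge hc'
  refine ⟨fun x => if x < C.r then φ x else code (Φ (x - C.r)), fun i hi => by simp [hi], ?_⟩
  intro v hv i
  simp only [List.all_eq_true, List.any_eq_true, List.mem_range, Nat.beq_eq] at hall
  obtain ⟨p, hp, hpv⟩ := hall v hv
  have hy := dp1_N_mem hw hv i
  have e1 : C.r + v - C.r = v := by omega
  have e2 : ¬ C.r + v < C.r := by omega
  simp only [e1, e2, if_false]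
  by_cases hr : C.N v i < C.r
  · simp only [hr, if_true]
    have h1 := (hc' p hp).1
    rw [hpv] at h1
    have h2 := dp1_cfk one H C v (Φ v) j hy hr h1
    rw [hH _ (h4 v) _ hr] at h2
    simp only [decide_eq_false_iff_not] at h2
    exact fun e => h2 e.symm
  · simp only [hr, if_false]
    intro e
    have e3 := code_inj (h4 _) (h4 _) e
    simp only [List.all_eq_true, List.any_eq_true, Bool.or_eq_true, Bool.and_eq_true, Nat.beq_eq,
      Nat.blt_eq] at hedge
    have h1 := hedge p hp (C.N v i) (by rw [hpv]; exact hy)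
    rcases h1 with (h1 | h1) | ⟨q, hq, h1, h2⟩
    · exact hr h1
    · have h2 := (hc' p hp).2 _ h1
      have h3 := dp1_cmk C v (Φ v) hy (by omega)
      rw [hpv] at h2
      have e4 : Nat.sub (C.N v i) C.r = C.N v i - C.r := rfl
      rw [e4, ← e3, h3] at h2
      exact absurd h2 (by simp)
    · have h3 := (hc' q hq).2 _ h2
      have e4 : q.1 = C.far v i := by
        unfold Conf.far
        have : Nat.add C.r q.1 = C.r + q.1 := rfl
        omega
      have hs := hw.sym v hv i (by omega)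
      have hm := dp1_N_mem hw (Conf.far_lt hw hv i) (C.rev v i)
      rw [hs] at hm
      have h5 := dp1_cmk C (C.far v i) (Φ (C.far v i)) hm (by omega)
      have e5 : Φ v = Φ (C.far v i) := e3
      rw [hpv, e4, e5] at h3
      rw [e1, h3] at h5
      exact absurd h5 (by simp)

end Pool.Agent.MP_8c1b0d_co.CT4.Chk

/-! An index that extends modulo the contract is outside the computed set. -/

namespace Pool.Agent.MP_8c1b0d_co.CT4.Chk

open Finset

lemma dp2_and4 {one j a : ℕ} {ok : ℕ → Bool} {g : ℕ → ℕ} (ha : a < 4) (h1 : ok a = true)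
    (h2 : (g a).testBit j = false) : (and4 one ok g).testBit j = false := by
  unfold and4 and3 and2 and1
  interval_cases a <;> cases h0 : ok 0 <;> cases h1 : ok 1 <;> cases h2 : ok 2 <;>
    cases h3 : ok 3 <;> simp_all [Nat.testBit_land]

lemma dp2_nb {C : Conf} {Φ : ℕ → K}
    (hX : ∀ v < C.k, ∀ i, Φ (C.r + v) = Φ (C.N v i) ↔ C.InX (C.r + v) (C.N v i)) {w y : ℕ}
    (hy : y ∈ nth [] C.nb w) : Φ (C.r + w) = Φ y ↔ inX C C.X (Nat.add C.r w) y = true := by
  rw [nth_eq] at hy
  have hw : w < C.k := by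
    by_contra c
    rw [List.getD_eq_default _ _ (not_lt.1 c)] at hy
    exact List.not_mem_nil hy
  obtain ⟨i, hi, e⟩ := List.getElem_of_mem hy
  have hN : C.N w i = y := by
    rw [Conf.N, Conf.γ, Nat.mod_eq_of_lt hi, List.getD_eq_getElem _ _ hi, e]
  rw [inX_iff, ← hN]
  exact hX w hw i

lemma dp2_cf {C : Conf} {one j w a : ℕ} {H : List (List ℕ)} {Φ : ℕ → K}
    (hH : ∀ c < 4, ∀ i < C.r, (hget H c i).testBit j = decide (Φ i = code c))
    (hone : one.testBit j = true)
    (hX : ∀ v < C.k, ∀ i, Φ (C.r + v) = Φ (C.N v i) ↔ C.InX (C.r + v) (C.N v i))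
    (ha : a < 4) (e : code a = Φ (C.r + w)) : (cfk one H C C.X w a).testBit j = false := by
  have h := fun y => dp2_nb hX (w := w) (y := y)
  unfold cfk
  generalize nth [] C.nb w = l at h
  induction l with
  | nil => exact Nat.zero_testBit j
  | cons y l ih =>
    have ih' := ih fun z hz => h z (List.mem_cons_of_mem _ hz)
    have hy := h y List.mem_cons_self
    change (cond (Nat.blt y C.r) (orZ _ _) _).testBit j = false
    cases hb : Nat.blt y C.r
    · exact ih'
    · have h2 := hH a ha y (Nat.blt_eq ▸ hb)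
      rw [cond_true, orZ_eq, Nat.testBit_or, ih', Bool.false_or]
      cases hx : inX C C.X (Nat.add C.r w) y
      · rw [cond_false, h2, e]
        exact decide_eq_false fun c => Bool.false_ne_true (hx.symm.trans (hy.1 c.symm))
      · rw [cond_true, Nat.xor_eq, Nat.testBit_xor, hone, h2, e, decide_eq_true (hy.2 hx).symm]
        rfl

lemma dp2_cm {C : Conf} {w v : ℕ} {Φ : ℕ → K} {a : ℕ → ℕ}
    (hX : ∀ v < C.k, ∀ i, Φ (C.r + v) = Φ (C.N v i) ↔ C.InX (C.r + v) (C.N v i))
    (ha : ∀ v, a v < 4) (e : ∀ v, code (a v) = Φ (C.r + v)) :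
    (cmk C C.X w (a w)).testBit (4 * v + a v) = false := by
  have h := fun y => dp2_nb hX (w := w) (y := y)
  unfold cmk
  generalize nth [] C.nb w = l at h
  induction l with
  | nil => exact Nat.zero_testBit _
  | cons y l ih =>
    have ih' := ih fun z hz => h z (List.mem_cons_of_mem _ hz)
    have hy := h y List.mem_cons_self
    change (cond (Nat.blt y C.r) _ (Nat.lor _ _)).testBit _ = false
    cases hb : Nat.blt y C.r
    · have h0 : C.r ≤ y := not_lt.1 fun c => by simp [Nat.blt_eq.mpr c] at hb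
      obtain ⟨u, rfl⟩ := Nat.exists_eq_add_of_le h0
      rw [cond_false, Nat.lor_eq, Nat.testBit_or, ih', Bool.false_or, Nat.shiftLeft_eq',
        Nat.testBit_shiftLeft, Nat.sub_eq, Nat.add_sub_cancel_left, Nat.mul_eq,
        Bool.and_eq_false_imp, decide_eq_true_eq]
      intro h4
      have k1 := ha v
      have k2 := ha w
      have one : ∀ b, (Nat.shiftLeft 1 (a w)).testBit b = decide (a w = b) := fun b => by
        rw [Nat.shiftLeft_eq', Nat.one_shiftLeft, Nat.testBit_two_pow]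
      rw [← e, ← e] at hy
      cases hx : inX C C.X (Nat.add C.r w) (C.r + u)
      · rw [cond_false, one]
        refine decide_eq_false fun c => ?_
        obtain rfl : v = u := by omega
        have : a w = a v := by omega
        exact Bool.false_ne_true (hx.symm.trans (hy.1 (by rw [this])))
      · have := code_inj k2 (ha u) (hy.2 hx)
        rw [cond_true, Nat.xor_eq, Nat.testBit_xor, one,
          show (15 : ℕ) = 2 ^ 4 - 1 from rfl, Nat.testBit_two_pow_sub_one]
        by_cases c : v = u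
        · subst c
          rw [decide_eq_true (by omega), decide_eq_true (by omega)]
          rfl
        · rw [decide_eq_false (by omega), decide_eq_false (by omega)]
          rfl
    · exact ih'

lemma dp2_set {ψ w : ℕ} {a : ℕ → ℕ} (h : ∀ p, ψ.testBit p = true → ∃ v, p = 4 * v + a v) (p : ℕ)
    (hp : (Nat.lor ψ (Nat.shiftLeft 1 (Nat.add (Nat.mul 4 w) (a w)))).testBit p = true) :
    ∃ v, p = 4 * v + a v := by
  rw [Nat.lor_eq, Nat.testBit_or, Nat.shiftLeft_eq', Nat.one_shiftLeft, Nat.testBit_two_pow,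
    Bool.or_eq_true, decide_eq_true_eq] at hp
  exact hp.elim (h p) fun e => ⟨w, e.symm⟩

lemma dp2_ne {one j : ℕ} {cm cf : ℕ → ℕ → ℕ} {a : ℕ → ℕ} (ha : ∀ v, a v < 4)
    (h1 : ∀ w v, (cm w (a w)).testBit (4 * v + a v) = false)
    (h2 : ∀ w, (cf w (a w)).testBit j = false) (t : ET) : ∀ ψ acc : ℕ,
    (∀ p, ψ.testBit p = true → ∃ v, p = 4 * v + a v) → acc.testBit j = false →
    (ne one cm cf t ψ acc).testBit j = false := by
  induction t with
  | nil => exact fun _ _ _ h => h
  | cons w m s r ihs ihr =>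
    intro ψ acc hψ hacc
    have hφ : ∀ p, (Nat.land ψ m).testBit p = true → ∃ v, p = 4 * v + a v := fun p hp => by
      rw [Nat.land_eq, Nat.testBit_and, Bool.and_eq_true] at hp
      exact hψ p hp.1
    change (frc (Nat.land ψ m) (nxt one cm cf w (ne one cm cf s) (ne one cm cf r ψ) acc)).testBit j
      = false
    rw [frc_eq, nxt]
    refine ihr ψ _ hψ ?_
    rw [orZ_eq, Nat.testBit_or, hacc, Bool.false_or, node]
    refine dp2_and4 (ha w) ?_ (ihs _ _ (dp2_set hφ) (h2 w))
    rw [okc, Nat.beq_eq, Nat.land_eq (m := Nat.land ψ m)]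
    refine Nat.eq_of_testBit_eq fun p => ?_
    rw [Nat.testBit_and, Nat.zero_testBit, Bool.and_eq_false_imp]
    intro hp
    obtain ⟨v, rfl⟩ := hφ p hp
    exact h1 w v

/-- TASK DP2. Let `a v < 4` be the code of `Φ (r + v)`. Call `ψ` consistent if every set bit of `ψ`
is some `4 v + a v`. Induction on `t`: for consistent `ψ` and `acc.testBit j = false` bit `j` of
`ne … t ψ acc` is zero; at a node `w` the colour `a w` passes `okc` and bit `j` of `cfk … w (a w)`
is zero (an entry `y` of `nb w` is `N w i` for some `i`; for `w ≥ k` the list is empty), and bit `j`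
of `and4 one ok g` is zero as soon as `ok a` holds and bit `j` of `g a` is zero for one `a < 4`. -/
theorem ne_of_ext {C : Conf} {one j w : ℕ} {H : List (List ℕ)} {Φ : ℕ → K} (t : ET)
    (hH : ∀ c < 4, ∀ i < C.r, (hget H c i).testBit j = decide (Φ i = code c))
    (hone : one.testBit j = true)
    (hX : ∀ v < C.k, ∀ i, Φ (C.r + v) = Φ (C.N v i) ↔ C.InX (C.r + v) (C.N v i))
    (h1 : Φ (C.r + w) = code 1) : (neR one H C C.X w t).testBit j = false := by
  choose a ha e using fun v => exists_code (Φ (C.r + v))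
  have e1 : a w = 1 := code_inj (ha w) (by norm_num) ((e w).trans h1)
  change (sub (cfk one H C C.X) w (ne one (cmk C C.X) (cfk one H C C.X) t) 0 1).testBit j = false
  rw [← e1, sub]
  exact dp2_ne ha (fun w v => dp2_cm hX ha e) (fun w => dp2_cf hH hone hX (ha w) (e w)) t _ _
    (dp2_set fun p hp => by simp at hp) (dp2_cf hH hone hX (ha w) (e w))

end Pool.Agent.MP_8c1b0d_co.CT4.Chk

/-! Soundness of the reducibility checker. -/

namespace Pool.Agent.MP_8c1b0d_co.CT4.Chk

open Finset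

theorem sound_kstep_zero (r : ℕ) (t : MT) (x : ℕ) : kstep r (0 + 1) t x = x := rfl

theorem sound_kstep_succ (r n : ℕ) (t : MT) (x : ℕ) : kstep r (n + 1 + 1) t x =
    x ||| (enter (wd r (n + 1 + 1)) (n + 1 + 1)
      (kgo (wd r (n + 1 + 1)) (sb (n + 1 + 1)) (n + 1 + 1) t) n
      ((x >>> off r (n + 1)) &&& ones (sz r (n + 1 + 1)))) <<< off r (n + 1) := rfl

theorem sound_hs (W n : ℕ) : 2 * hs W (n + 1 + 1) n = 2 ^ (2 * (n + 1)) * W := by
  have h : hs W (n + 1 + 1) n = W <<< (n + 1 + n) := rfl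
  rw [h, Nat.shiftLeft_eq]
  ring

theorem sound_lt {i α c : ℕ} (hα : α < 2 ^ i) (hc : c < 2 ^ i) :
    α * 2 ^ i + c < 2 ^ (2 * i) := by
  have h1 : 2 ^ (2 * i) = 2 ^ i * 2 ^ i := by rw [two_mul, pow_add]
  have h2 : (α + 1) * 2 ^ i ≤ 2 ^ i * 2 ^ i := Nat.mul_le_mul_right _ hα
  rw [h1]
  linarith only [hc, h2]

/-- TASK Sound. For `i = 0` nothing happens. For `i = n + 1` a new bit `j` lies in
`off r i + range (sz r (i+1))` by `enter_lt`; write it as `ix r i m τ`. If `S (d j)`, then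
`kempe_orbit`, `path_of_cov` and `enter_spec` (with `c = m % 2 ^ i ^^^ mu b (m / 2 ^ i) i` and
`α = m / 2 ^ i`) show that the bit is zero. -/
theorem kstep_inv {r : ℕ} {d : ℕ → ℕ → K} {S : (ℕ → K) → Prop} (hL : Layout r d)
    (hS : KempeClosed r S) {i : ℕ} (hi : i < r / 2) {t : MT}
    (hc : cov (i + 1) i [] (some t) = true) {x : ℕ} (hx : Inv r d S x) :
    Inv r d S (kstep r (i + 1) t x) := by
  rcases i with _ | n
  · rw [sound_kstep_zero]
    exact hx
  intro j hj hb hSj
  rw [sound_kstep_succ, Nat.testBit_or, Bool.or_eq_true] at hb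
  rcases hb with hb | hb
  · exact hx j hj hb hSj
  rw [Nat.testBit_shiftLeft, Bool.and_eq_true, decide_eq_true_eq] at hb
  obtain ⟨hge, hb⟩ := hb
  set W := wd r (n + 1 + 1) with hW
  set y := (x >>> off r (n + 1)) &&& ones (sz r (n + 1 + 1)) with hy
  have hp : j - off r (n + 1) < 2 ^ (2 * (n + 1)) * W := by
    by_contra hcon
    have hlt := enter_lt W (sb (n + 1 + 1)) (n + 1 + 1) t n y
    rw [sound_hs] at hlt
    have h2 := Nat.testBit_lt_two_pow
      (lt_of_lt_of_le hlt (Nat.pow_le_pow_right (by norm_num) (not_lt.mp hcon)))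
    rw [h2] at hb
    exact Bool.false_ne_true hb
  have hWpos : 0 < W := by
    rcases Nat.eq_zero_or_pos W with h0 | h0
    · rw [h0] at hp
      omega
    · exact h0
  obtain ⟨m, hm⟩ : ∃ m, m = (j - off r (n + 1)) / W := ⟨_, rfl⟩
  obtain ⟨τ, hτ⟩ : ∃ τ, τ = (j - off r (n + 1)) % W := ⟨_, rfl⟩
  have hmτ : j - off r (n + 1) = m * W + τ := by
    rw [hm, hτ, Nat.div_add_mod']
  have hτW : τ < W := by
    rw [hτ]
    exact Nat.mod_lt _ hWpos
  have hm2 : m < 2 ^ (2 * (n + 1)) := by
    rw [hm]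
    exact (Nat.div_lt_iff_lt_mul hWpos).mpr hp
  have hjix : j = ix r (n + 1) m τ := by
    unfold ix
    rw [← hW, ← hmτ]
    omega
  rw [hjix] at hSj
  obtain ⟨M, hM, hall⟩ := kempe_orbit hL hS hi hm2 hτW hSj
  have hbb : ∀ j < n + 1, (fun j => M (2 * j + 1) / 2) j ≤ n + 1 := by
    intro j hj
    have := (hM.1 (2 * j + 1) (by omega)).1
    show M (2 * j + 1) / 2 ≤ n + 1
    omega
  have hpos : 0 < 2 ^ (n + 1) := by positivity
  have hcc : m % 2 ^ (n + 1) ^^^ mu (fun j => M (2 * j + 1) / 2) (m / 2 ^ (n + 1)) (n + 1) <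
      2 ^ (n + 1) := Nat.xor_lt_two_pow (Nat.mod_lt _ hpos) (mu_lt hbb _)
  have hα : m / 2 ^ (n + 1) < 2 ^ (n + 1) := by
    rw [Nat.div_lt_iff_lt_mul hpos, ← pow_add, ← two_mul]
    exact hm2
  have key := enter_spec hbb hcc hτW n (Nat.lt_succ_self n) t (path_of_cov hM hc) y (by
    intro α hα'
    have hlt := sound_lt hα' (Nat.xor_lt_two_pow hcc (mu_lt hbb α))
    have h1 := hx _ (ix_lt hi hlt hτW)
    have h2 : x.testBit (ix r (n + 1) (α * 2 ^ (n + 1) + ((m % 2 ^ (n + 1) ^^^
        mu (fun j => M (2 * j + 1) / 2) (m / 2 ^ (n + 1)) (n + 1)) ^^^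
        mu (fun j => M (2 * j + 1) / 2) α (n + 1))) τ) = false := by
      rw [Bool.eq_false_iff]
      intro h3
      exact h1 h3 (hall α hα')
    rw [hy, Nat.testBit_and, Nat.testBit_shiftRight]
    unfold ix at h2
    rw [h2, Bool.false_and]) _ hα
  rw [Nat.xor_assoc, Nat.xor_self, Nat.xor_zero, Nat.div_add_mod', ← hmτ, hb] at key
  exact Bool.noConfusion key

theorem sound_fold_inv {T : Tab} {d : ℕ → ℕ → K} {S : (ℕ → K) → Prop} (hT : TabOk T d)
    (hS : KempeClosed T.r S) (n : ℕ) {x : ℕ} (hx : Inv T.r d S x) (m : ℕ) (hm : m ≤ T.r / 2) :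
    Inv T.r d S (fold (fun i s => cond (Nat.beq (Nat.land (Nat.shiftRight n (Nat.succ i)) 1) 1)
      (kstep T.r (Nat.succ i) (nth MT.nil T.mt i) s) s) x m) := by
  induction m with
  | zero => exact hx
  | succ m ih =>
    rw [fold_succ]
    have ih' := ih (by omega)
    cases Nat.beq (Nat.land (Nat.shiftRight n (Nat.succ m)) 1) 1 with
    | false => exact ih'
    | true => exact kstep_inv hT.lay hS (by omega) (hT.mt m (by omega)) ih'

theorem sound_op_inv {T : Tab} {d : ℕ → ℕ → K} {S : (ℕ → K) → Prop} (hT : TabOk T d)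
    (hS : KempeClosed T.r S) (n : ℕ) {x : ℕ} (hx : Inv T.r d S x) :
    Inv T.r d S (op T n x) := by
  unfold op
  cases Nat.beq n 0 with
  | false => exact sound_fold_inv hT hS n hx _ le_rfl
  | true =>
    intro j hj hb hSj
    have hb' : (x ||| net T.net x).testBit j = true := hb
    rw [Nat.testBit_or, Bool.or_eq_true] at hb'
    rcases hb' with h1 | h1
    · exact hx j hj h1 hSj
    · obtain ⟨j', hj', h2, σ, hσ⟩ := hT.net x j hj h1
      exact hx j' hj' h2 (hS.ext _ _ (fun a ha => (hσ a ha).symm) (hS.perm σ _ hSj))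

theorem run_inv {T : Tab} {d : ℕ → ℕ → K} {S : (ℕ → K) → Prop} (hT : TabOk T d)
    (hS : KempeClosed T.r S) (l : List ℕ) {x : ℕ} (hx : Inv T.r d S x) :
    Inv T.r d S (run T l x) := by
  induction l generalizing x with
  | nil => exact hx
  | cons n l ih =>
    have h : run T (n :: l) x = seq x (run T l (op T n x)) := rfl
    rw [h, seq_eq]
    exact ih (sound_op_inv hT hS n hx)

theorem sound_add_self (x : K) : x + x = 0 := by
  revert x
  decide

theorem sound_sigma (c : K) (hc : c ≠ 0) : ∃ σ : K ≃+ K, σ c = (0, 1) := by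
  have h : ∀ c : K, c ≠ 0 → c = (0, 1) ∨ c = (1, 0) ∨ c = (1, 1) := by decide
  rcases h c hc with rfl | rfl | rfl
  · exact ⟨AddEquiv.refl _, rfl⟩
  · exact ⟨AddEquiv.prodComm, rfl⟩
  · refine ⟨⟨⟨fun p => (p.1 + p.2, p.2), fun p => (p.1 + p.2, p.2), ?_, ?_⟩, ?_⟩, ?_⟩
    · intro p
      revert p
      decide
    · intro p
      revert p
      decide
    · intro p q
      revert p q
      decide
    · decide

theorem sound_N_of_any (C : Conf) (w y : ℕ) (h : (C.nb.getD w []).any (Nat.beq y) = true) :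
    ∃ i, C.N w i = y := by
  rw [List.any_eq_true] at h
  obtain ⟨z, hz, hyz⟩ := h
  have hy : y = z := Nat.eq_of_beq_eq_true hyz
  obtain ⟨i, hi, rfl⟩ := List.getElem_of_mem hz
  refine ⟨i, ?_⟩
  unfold Conf.N Conf.γ
  rw [Nat.mod_eq_of_lt hi, List.getD_eq_getElem _ _ hi, hy]

theorem sound_ext {C : Conf} {κ Φ : ℕ → K} (hs : ∑ a ∈ range C.r, κ a = 0)
    (h1 : ∀ i < C.r, Φ i = ∑ a ∈ range i, κ a) :
    ∀ j < C.r, κ j = Φ j + Φ ((j + 1) % C.r) := by
  intro j hj
  rcases Nat.lt_or_ge (j + 1) C.r with h | h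
  · rw [Nat.mod_eq_of_lt h, h1 j hj, h1 _ h, sum_range_succ, ← add_assoc, sound_add_self,
      zero_add]
  · have hr : C.r = j + 1 := by omega
    have h0 : (j + 1) % C.r = 0 := by rw [hr, Nat.mod_self]
    rw [h0, h1 j hj, h1 0 (by omega), sum_range_zero, add_zero]
    rw [hr, sum_range_succ] at hs
    have h2 : κ j = (∑ a ∈ range j, κ a + κ j) + ∑ a ∈ range j, κ a := by
      rw [add_right_comm, sound_add_self, zero_add]
    rw [h2, hs, zero_add]

theorem sound_psum {r : ℕ} {κ φ : ℕ → K} (h : ∀ j < r, κ j = φ j + φ ((j + 1) % r)) (i : ℕ)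
    (hi : i < r) : φ i + φ 0 = ∑ a ∈ range i, κ a := by
  induction i with
  | zero => rw [sound_add_self, sum_range_zero]
  | succ i ih =>
    rw [sum_range_succ, ← ih (by omega), h i (by omega), Nat.mod_eq_of_lt hi]
    have h2 : φ i + φ 0 + (φ i + φ (i + 1)) = φ (i + 1) + φ 0 + (φ i + φ i) := by abel
    rw [h2, sound_add_self, add_zero]

/-- The start set satisfies `Inv` by `ext_of_ne` with `φ i = ∑ a ∈ range i, d j a` (the last ring
equation uses `sum`). Let `κ ∈ S` extend modulo the contract by `φ`; replace `φ` by `φ + φ 0`, so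
`φ i = ∑ a ∈ range i, κ a`. By `okR` the colour `c = φ (r + w₂)` differs from `φ 0 = 0` and from
`φ 1 = κ 0`. Choose `σ₁` with `σ₁ c = (0, 1) = code 1`, apply `cover` to `σ₁ ∘ κ` and `ne_of_ext` to
`Φ = σ ∘ σ₁ ∘ φ`; so bit `j` of the final set is one, against `perm` and `ext`. -/
theorem check_sound {T : Tab} {d : ℕ → ℕ → K} (hT : TabOk T d) {C : Conf} (hw : C.WF)
    {w₁ w₂ : ℕ} {t₁ t₂ : ET} {prog : List ℕ} (h : check T C w₁ t₁ w₂ t₂ prog = true) :
    C.Reducible := by
  unfold check at h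
  simp only [Bool.and_eq_true] at h
  obtain ⟨⟨⟨hr, hT1⟩, hR⟩, hfin⟩ := h
  have hr' : T.r = C.r := Nat.eq_of_beq_eq_true hr
  have hfin' := Nat.eq_of_beq_eq_true hfin
  unfold okR at hR
  simp only [Bool.and_eq_true, Bool.not_eq_true', Nat.blt_eq] at hR
  obtain ⟨⟨⟨⟨⟨hwk, hr1⟩, hn0⟩, hn1⟩, hx0⟩, hx1⟩ := hR
  intro S hS hExt κ hκ ⟨φ, hφ1, hφ2⟩
  have hS' : KempeClosed T.r S := hr' ▸ hS
  have hstart : Inv T.r d S
      (Nat.xor (ones (tot T.r)) (neR (ones (tot T.r)) T.H C [] w₁ t₁)) := by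
    intro j hj hb hSj
    have hone : (ones (tot T.r)).testBit j = true := by
      rw [testBit_ones, decide_eq_true_eq]
      exact hj
    have hb' : ((ones (tot T.r)) ^^^ (neR (ones (tot T.r)) T.H C [] w₁ t₁)).testBit j = true := hb
    rw [Nat.testBit_xor, hone, Bool.true_xor, Bool.not_eq_true'] at hb'
    obtain ⟨Φ, h1, h2⟩ := ext_of_ne hw (φ := fun i => ∑ a ∈ range i, d j a)
      (fun c hc i hi => hT.H j hj c hc i (hr' ▸ hi)) hone hT1 hb'
    exact hExt _ hSj ⟨Φ, sound_ext (hS.sum _ hSj) h1, h2⟩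
  have hrun := run_inv hT hS' prog hstart
  obtain ⟨i0, hi0⟩ := sound_N_of_any C w₂ 0 hn0
  obtain ⟨i1, hi1⟩ := sound_N_of_any C w₂ 1 hn1
  have hc0 : φ (C.r + w₂) ≠ φ 0 := by
    intro h0
    have h1 := (hφ2 w₂ hwk i0).mp (by rw [hi0]; exact h0)
    rw [hi0, ← inX_iff] at h1
    have h2 : inX C C.X (C.r + w₂) 0 = false := hx0
    rw [h2] at h1
    exact Bool.false_ne_true h1
  have hc1 : φ (C.r + w₂) ≠ φ 1 := by
    intro h0
    have h1 := (hφ2 w₂ hwk i1).mp (by rw [hi1]; exact h0)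
    rw [hi1, ← inX_iff] at h1
    have h2 : inX C C.X (C.r + w₂) 1 = false := hx1
    rw [h2] at h1
    exact Bool.false_ne_true h1
  obtain ⟨σ₁, hσ₁⟩ := sound_sigma (φ (C.r + w₂) + φ 0) (by
    intro h0
    apply hc0
    rw [← sound_add_self (φ 0)] at h0
    exact add_right_cancel h0)
  have hS1 := hS.perm σ₁ κ hκ
  obtain ⟨j, hj, σ, hσ, hd⟩ := cover hT.lay (fun a => σ₁ (κ a)) (hS'.ne _ hS1) (hS'.sum _ hS1)
    ⟨0, by omega, by
      intro h0
      rw [← hσ₁] at h0
      have h1 := σ₁.injective h0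
      rw [hφ1 0 (by omega), Nat.mod_eq_of_lt (by omega : 0 + 1 < C.r), add_comm (φ 0)] at h1
      exact hc1 (add_right_cancel h1).symm⟩
  have hone : (ones (tot T.r)).testBit j = true := by
    rw [testBit_ones, decide_eq_true_eq]
    exact hj
  have hne := ne_of_ext (C := C) (H := T.H) (w := w₂) (Φ := fun v => σ (σ₁ (φ v + φ 0))) t₂ (by
    intro c hc i hi
    rw [hT.H j hj c hc i (hr' ▸ hi), sound_psum hφ1 i hi, map_sum, map_sum,
      sum_congr rfl fun a ha => hd a (by rw [mem_range] at ha; omega)]) hone (by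
    intro v hv i
    rw [← hφ2 v hv i]
    simp only [EmbeddingLike.apply_eq_iff_eq, add_left_inj]) (by
    show σ (σ₁ (φ (C.r + w₂) + φ 0)) = code 1
    rw [hσ₁, hσ]
    rfl)
  have hb : (run T prog (Nat.xor (ones (tot T.r)) (neR (ones (tot T.r)) T.H C [] w₁ t₁)) |||
      neR (ones (tot T.r)) T.H C C.X w₂ t₂).testBit j = true := by
    rw [← hone]
    exact congrArg (fun z => Nat.testBit z j) hfin'
  rw [Nat.testBit_or, hne, Bool.or_false] at hb
  exact hrun j hj hb (hS'.ext _ _ (fun a ha => (hd a ha).symm) (hS.perm σ _ hS1))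

theorem tabOk {r : ℕ} (hr : r ≤ 14) {l : List (ℕ × ℕ)} {E₁ E₂ : List ℕ} {H : List (List ℕ)}
    {mt : List MT} (h1 : (List.range r).map (e1 r) = E₁) (h2 : (List.range r).map (e2 r) = E₂)
    (hH : hps r E₁ E₂ = H) (hn : netOk r l E₁ E₂ = true)
    (hm : ((List.range 7).all fun i => cov (i + 1) i [] (some (nth MT.nil mt i))) = true) :
    TabOk ⟨r, l, H, mt⟩ (dec E₁ E₂) := by
  refine ⟨?_, netSpec hn, ?_, ?_⟩
  · rw [← h1, ← h2]
    exact layout r
  · intro j hj c hc i hi
    rw [← hH]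
    exact testBit_hps r E₁ E₂ hj hc hi
  · intro i hi
    rw [List.all_eq_true] at hm
    refine hm i (List.mem_range.mpr ?_)
    have hi' : i < r / 2 := hi
    omega

end Pool.Agent.MP_8c1b0d_co.CT4.Chk
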