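import Pool.Agent.MP_8c1b0d_co.CT4.PB

attribute [-instance] Fintype.decidableForallFintype Finset.decidableDforallFinset
  Multiset.decidableDforallMultiset Vector.instDecidableForallForallMemOfDecidablePred
  Int.decidableLTLE Option.decidableForallMem AddQuantale.instAddLeftMono
  Array.instDecidableForallForallMemOfDecidablePred RKHS.instFunLike Int.decidableLELT
  Int.decidableLTLT Int.decidableLELE littleWedderburn CategoryTheory.CommGrpObj.toGrpObj
  AddGroup.addLeftReflectLE_of_addLeftMono Semiring.toMonoid CommMonoid.toMonoid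
  DivisionRing.toDivInvMonoid MonTypeEquivalenceMon.monMonoid DivisionSemiring.toGroupWithZero
  AddQuantale.instAddRightMono Group.IsPerfect.subsingleton_of_isMulCommutative

set_option linter.unusedSectionVars false
set_option linter.unusedVariables false
set_option linter.unusedSimpArgs false

/-! The second neighbourhood of a face: positions, masks, symbolic navigation, rotation. -/


namespace Pool.Agent.MP_8c1b0d_co.CT4.Cart

open Equiv Finset Function

/-! ### Executable part -/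

/-- case distinction by the recursor -/
def cnd {α : Type} (c : Bool) (x y : α) : α := Bool.rec y x c

theorem cnd_eq {α : Type} (c : Bool) (x y : α) : cnd c x y = if c = true then x else y := by
  cases c <;> rfl

/-- evaluate `n` before going on -/
noncomputable def fN {β : Type} (n : ℕ) (k : ℕ → β) : β :=
  Nat.rec (k 0) (fun j _ => k (Nat.succ j)) n

theorem fN_eq {β : Type} (n : ℕ) (k : ℕ → β) : fN n k = k n := by cases n <;> rfl

/-- The symbolic dart `f ^ (u - 16)` applied to the base dart of the position `5 * i + b`;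
`b = 5` is the hub, `b = 6` a failure. -/
structure SD where
  b : ℕ
  i : ℕ
  u : ℕ

def fail : SD := ⟨6, 0, 0⟩

/-- the exact size that `M` gives to the position `5 * i + b`, or `0` -/
def ex (M b i : ℕ) : ℕ := Nat.land (Nat.shiftRight 34360198736 (Nat.mul 4
  (Nat.land (Nat.shiftRight M (Nat.add (Nat.mul 25 i) (Nat.mul 5 b))) 31))) 15

/-- the offset `T - 32` modulo `g` -/
def md (g T : ℕ) : ℕ := Nat.mod (Nat.add T (Nat.mul 32 (Nat.sub g 1))) g

/-- normal form of the offset `T - 32`, shifted by `16` -/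
noncomputable def nrm (g T : ℕ) : ℕ := fN g fun g => cnd (Nat.beq g 0) (Nat.sub T 16)
  (fN (md g T) fun r => cnd (Nat.ble g (Nat.add r 2)) (Nat.sub (Nat.add 16 r) g) (Nat.add 16 r))

def sc (Δ i : ℕ) : ℕ := Nat.mod (Nat.succ i) Δ
def pr (Δ i : ℕ) : ℕ := Nat.mod (Nat.add i (Nat.sub Δ 1)) Δ

/-- the reverse of a dart of a spoke -/
def step0 (Δ i n : ℕ) : SD :=
  cnd (Nat.ble 18 n) (cnd (Nat.ble n 21) ⟨Nat.sub n 17, i, 16⟩ fail)
    (cnd (Nat.beq n 16) ⟨5, 0, Nat.add 16 i⟩ (cnd (Nat.beq n 17) ⟨0, pr Δ i, 15⟩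
      (cnd (Nat.beq n 15) ⟨0, sc Δ i, 17⟩ (cnd (Nat.beq n 14) ⟨1, sc Δ i, 17⟩ fail))))

/-- the reverse of a dart of a hat or a fan -/
noncomputable def step1 (Δ M b i n : ℕ) : SD :=
  cnd (Nat.beq n 16) ⟨0, i, Nat.add 17 b⟩
    (cnd (Nat.beq n 17) (cnd (Nat.beq b 1) ⟨0, pr Δ i, 14⟩ ⟨Nat.sub b 1, i, 15⟩)
      (cnd (Nat.beq n 15) (cnd (Nat.beq (Nat.add b 4) (ex M 0 i)) ⟨1, sc Δ i, 18⟩
          (cnd (Nat.ble b 3) ⟨Nat.succ b, i, 17⟩ fail))
        (cnd (Nat.beq n 18) (cnd (Nat.beq b 1) (fN (ex M 0 (pr Δ i)) fun g =>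
          cnd (Nat.ble 5 g) (cnd (Nat.ble g 8) ⟨Nat.sub g 4, pr Δ i, 15⟩ fail) fail) fail) fail)))

/-- the reverse of the dart with offset `T - 32` -/
noncomputable def step (Δ M b i T : ℕ) : SD :=
  cnd (Nat.beq T 0) fail (cnd (Nat.ble 5 b) (cnd (Nat.beq b 5) ⟨0, md Δ T, 16⟩ fail)
    (fN (nrm (ex M b i) T) fun n => cnd (Nat.beq b 0) (step0 Δ i n) (step1 Δ M b i n)))

/-- the offset after `t` more steps, shifted by `32` -/
noncomputable def shf (u : ℕ) (t : ℤ) : ℕ :=
  Int.rec (fun n => Nat.add (Nat.add u 16) n) (fun n => Nat.sub (Nat.add u 15) n) t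

/-- follow a word -/
noncomputable def nav (Δ M : ℕ) (w : List ℤ) : ℕ → ℕ → ℕ → SD :=
  List.rec (fun b i u => ⟨b, i, u⟩) (fun t _ ih b i u =>
    SD.rec (motive := fun _ => SD) ih (step Δ M b i (shf u t))) w

/-- the classes `5, 6, 7, 8, ≥ 9` that lie inside (`s = true`) or meet (`s = false`) the mask `m` -/
noncomputable def cls (s : Bool) (m : ℕ) : ℕ :=
  Nat.lor (Nat.land (Nat.shiftRight m 5) 15) (fN (Nat.land (Nat.shiftRight m 9) 15) fun h =>
    cnd s (cnd (Nat.beq h 15) 16 0) (cnd (Nat.beq h 0) 0 16))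

/-- keep only the classes `a` in the field that starts at bit `q` -/
def cut (M q a : ℕ) : ℕ := Nat.xor M (Nat.land M (Nat.shiftLeft (Nat.xor 31 a) q))

/-- Translate a pattern read at the symbolic dart `(b, i, u)` into a mask inside `M`. -/
noncomputable def comp (s : Bool) (Δ b i u : ℕ) (pat : Pattern) : ℕ → ℕ :=
  List.rec (fun M => M) (fun c _ ih M => SD.rec (motive := fun _ => ℕ) (fun b' i' _ =>
    cnd (Nat.ble 5 b') (cnd (Nat.beq b' 5) (cnd (c.2.testBit Δ) (ih M) 0) (cnd s 0 (ih M)))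
      (ih (cut M (Nat.add (Nat.mul 25 i') (Nat.mul 5 b')) (cls s c.2)))) (nav Δ M c.1 b i u)) pat

/-- the full mask -/
def full (Δ : ℕ) : ℕ := Nat.sub (Nat.shiftLeft 1 (Nat.mul 25 Δ)) 1

/-- rotation by `k` spokes -/
def rot (Δ k A : ℕ) : ℕ := Nat.land (Nat.lor (Nat.shiftLeft A (Nat.mul 25 k))
  (Nat.shiftRight A (Nat.mul 25 (Nat.sub Δ k)))) (full Δ)

/-- evaluate a word -/
noncomputable def fW {β : Type} (w : List ℤ) : (List ℤ → β) → β :=
  List.rec (fun k => k []) (fun t _ ih k => Int.rec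
    (fun n => fN n fun n => ih fun l => k (Int.ofNat n :: l))
    (fun n => fN n fun n => ih fun l => k (Int.negSucc n :: l)) t) w

theorem fW_eq {β : Type} (w : List ℤ) (k : List ℤ → β) : fW w k = k w := by
  induction w generalizing k with
  | nil => rfl
  | cons t w ih =>
    cases t with
    | ofNat n => exact (fN_eq n fun n => fW w fun l => k (Int.ofNat n :: l)).trans (ih _)
    | negSucc n => exact (fN_eq n fun n => fW w fun l => k (Int.negSucc n :: l)).trans (ih _)

/-- evaluate a pattern once -/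
noncomputable def fP {β : Type} (p : Pattern) : (Pattern → β) → β :=
  List.rec (fun k => k []) (fun c _ ih k => fW c.1 fun w => fN c.2 fun m =>
    ih fun l => k ((w, m) :: l)) p

theorem fP_eq {β : Type} (p : Pattern) (k : Pattern → β) : fP p k = k p := by
  induction p generalizing k with
  | nil => rfl
  | cons c p ih =>
    refine (fW_eq c.1 fun w => fN c.2 fun m => fP p fun l => k ((w, m) :: l)).trans ?_
    rw [fN_eq, ih]

/-- the words of the 22 positions around a dart: `s t a b`, `sa sb ta tb`, then the remaining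
neighbours of `s`, `t`, `a`, `b` -/
def words : List (List ℤ) := [[], [0], [1], [-1], [2], [-2], [0, -2], [0, 2], [3], [4], [5],
  [0, -3], [0, -4], [0, -5], [1, -2], [1, -3], [1, -4], [1, -5], [-1, 2], [-1, 3], [-1, 4], [-1, 5]]

/-- the pattern of a rule code: five bits for each of the 22 positions, `31` for no condition -/
noncomputable def rulePat (c : ℕ) : Pattern :=
  List.rec (motive := fun _ => ℕ → Pattern) (fun _ => []) (fun w _ ih c =>
    fN (Nat.land c 31) fun m => fN (Nat.shiftRight c 5) fun c' => cnd (Nat.beq m 31) (ih c')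
      ((w, cnd (Nat.ble 16 m) (Nat.add (Nat.mul 32 m) 7168) (Nat.mul 32 m)) :: ih c')) words c

/-- exact sizes of up to `n` spokes: seven bits each (spoke, class, a marker bit) -/
noncomputable def hints (M n : ℕ) : ℕ → ℕ :=
  Nat.rec (fun _ => M) (fun _ ih h => cnd (Nat.beq h 0) M (cut (ih (Nat.shiftRight h 7))
    (Nat.mul 25 (Nat.land h 15)) (Nat.shiftLeft 1 (Nat.land (Nat.shiftRight h 4) 3)))) n

/-- short words first -/
def srt (p : Pattern) : Pattern :=
  p.filter (fun c => Nat.ble c.1.length 1) ++ p.filter fun c => !Nat.ble c.1.length 1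

theorem srt_excl {p : Pattern} (h : p.Excluded) : (srt p).Excluded := fun D _ G hG d k =>
  h D G hG d fun c hc => k c (by
    cases e : Nat.ble c.1.length 1 <;> simp only [srt, List.mem_append, List.mem_filter, hc, e] <;>
      simp)

/-! ### Meaning -/

variable {D : Type} [Fintype D] (G : Map D)

/-- the dart of spoke `i` that points to the hub -/
def spk (d : D) (i : ℤ) : D := G.e ((G.f ^ i) d)

/-- base darts: hub (`b = 5`), spoke `go d [i]` (`b = 0`), `go d [i, b + 1]` otherwise -/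
def base (d : D) (b i : ℕ) : D :=
  if b = 5 then d else if b = 0 then spk G d i else spk G (spk G d i) (b + 1 : ℕ)

/-- the class of the face at position `p` -/
noncomputable def om (d : D) (p : ℕ) : ℕ := min (G.deg (base G d (p % 5) (p / 5))) 9 - 5

/-- the second neighbourhood of `d` lies in the mask `A` -/
def Fits (Δ A : ℕ) (d : D) : Prop := ∀ p < 5 * Δ, A.testBit (5 * p + om G d p) = true

/-- the dart named by `(b, i, u)` -/
def dart (d : D) (b i u : ℕ) : D := (G.f ^ ((u : ℤ) - 16)) (base G d b i)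

/-- `s` names the dart `x`, unless it is a failure -/
def Rep (Δ : ℕ) (d x : D) (s : SD) : Prop := s.b ≤ 5 → s.i < Δ ∧ x = dart G d s.b s.i s.u

variable {G} {Δ M : ℕ} {d : D}

theorem om_lt (p : ℕ) : om G d p < 5 := by unfold om; omega

theorem Fits.mono {A B : ℕ} (h : Fits G Δ A d) (s : ∀ j, A.testBit j = true → B.testBit j = true) :
    Fits G Δ B d := fun p hp => s _ (h p hp)

theorem not_fits_zero (h : 0 < Δ) : ¬ Fits G Δ 0 d := fun k => by simpa using k 0 (by omega)

theorem testBit_full (j : ℕ) : (full Δ).testBit j = decide (j < 25 * Δ) := by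
  show (1 <<< (25 * Δ) - 1).testBit j = _
  rw [Nat.one_shiftLeft, Nat.testBit_two_pow_sub_one]

theorem fits_full : Fits G Δ (full Δ) d := fun p hp => by
  have := om_lt (G := G) (d := d) p
  rw [testBit_full, decide_eq_true_eq]
  omega

theorem om_pos {b i : ℕ} (hb : b < 5) : om G d (5 * i + b) = min (G.deg (base G d b i)) 9 - 5 := by
  rw [om, show (5 * i + b) % 5 = b by omega, show (5 * i + b) / 5 = i by omega]

theorem ex_ok (h5 : ∀ x, 5 ≤ G.deg x) (hM : Fits G Δ M d) {b i : ℕ} (hb : b < 5) (hi : i < Δ)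
    (h : ex M b i ≠ 0) : G.deg (base G d b i) = ex M b i := by
  have key : ∀ F < 32, ∀ v < 5, F.testBit v = true → (34360198736 >>> (4 * F)) &&& 15 ≠ 0 →
      v < 4 ∧ (34360198736 >>> (4 * F)) &&& 15 = 5 + v := by decide +kernel
  have h1 := hM (5 * i + b) (by omega)
  have h2 := om_lt (G := G) (d := d) (5 * i + b)
  have h3 : ((M >>> (25 * i + 5 * b)) &&& 31).testBit (om G d (5 * i + b)) = true := by
    rw [Nat.testBit_and, Nat.testBit_shiftRight, show 25 * i + 5 * b = 5 * (5 * i + b) by omega, h1,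
      show 31 = 2 ^ 5 - 1 from rfl, Nat.testBit_two_pow_sub_one]
    simpa using h2
  have h4 := key _ (Nat.lt_succ_of_le Nat.and_le_right) _ h2 h3 h
  have h6 := h5 (base G d b i)
  rw [om_pos hb] at h4
  exact (show _ = 5 + (min (G.deg (base G d b i)) 9 - 5) by omega).trans h4.2.symm

theorem pow_add_apply (s t : ℤ) (x : D) : (G.f ^ s) ((G.f ^ t) x) = (G.f ^ (s + t)) x := by
  rw [zpow_add, Perm.mul_apply]

theorem pow_congr {x : D} {s t : ℤ} (c : ℤ) (h : s = t + G.deg x * c) :
    (G.f ^ s) x = (G.f ^ t) x := by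
  have h1 : (G.f ^ (G.deg x : ℤ)) x = x := by rw [zpow_natCast, Map.f_pow_deg]
  rw [h, ← pow_add_apply, zpow_mul, Perm.zpow_apply_eq_self_of_apply_eq_self h1]

theorem md_ok {x : D} {g : ℕ} (hg : G.deg x = g) (T : ℕ) :
    md g T < g ∧ (G.f ^ ((T : ℤ) - 32)) x = (G.f ^ (md g T : ℤ)) x := by
  have h0 : 0 < g := hg ▸ Map.deg_pos x
  refine ⟨Nat.mod_lt _ h0, pow_congr (((T + 32 * (g - 1)) / g : ℕ) - 32) ?_⟩
  have h1 : (md g T : ℤ) + g * ((T + 32 * (g - 1)) / g : ℕ) = (T + 32 * (g - 1) : ℕ) := by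
    exact_mod_cast Nat.mod_add_div (T + 32 * (g - 1)) g
  rw [hg, mul_sub, ← add_sub_assoc, h1]
  push_cast [Nat.cast_sub h0]
  ring

theorem nrm_ok {x : D} {g : ℕ} (hg : g ≠ 0 → G.deg x = g) (T : ℕ) (h : nrm g T ≠ 0) :
    (G.f ^ ((T : ℤ) - 32)) x = (G.f ^ ((nrm g T : ℤ) - 16)) x := by
  simp only [nrm, fN_eq, cnd_eq, Nat.beq_eq, Nat.ble_eq, Nat.add_eq, Nat.sub_eq] at h ⊢
  split_ifs at h ⊢ with h1 h2
  · congr 2
    omega
  · rw [(md_ok (hg h1) T).2]
    exact pow_congr 1 (by rw [hg h1]; omega)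
  · rw [(md_ok (hg h1) T).2]
    congr 2
    omega

theorem spk_congr {x : D} {s t : ℤ} (c : ℤ) (h : s = t + G.deg x * c) : spk G x s = spk G x t :=
  congrArg G.e (pow_congr c h)

theorem spk_zero (x : D) (t : ℤ) : spk G (spk G x t) 0 = (G.f ^ t) x := by
  simp [spk, G.ee]

/-- the triangle rule -/
theorem spk_neg (hc : G.Cubic) (x : D) (t : ℤ) :
    spk G (spk G x t) (-1) = (G.f ^ (1 : ℤ)) (spk G x (t + 1)) := by
  have := Map.nav_id hc ((G.f ^ t) x)
  rw [spk, spk, spk, add_comm t, ← pow_add_apply]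
  simpa using this

theorem spk_one (hc : G.Cubic) (x : D) (t : ℤ) :
    spk G (spk G x t) 1 = (G.f ^ (-1 : ℤ)) (spk G x (t - 1)) := by
  have := spk_neg hc x (t - 1)
  rw [sub_add_cancel] at this
  rw [spk, ← this, spk, G.ee]

theorem spk_pow (x : D) (s t : ℤ) : spk G ((G.f ^ t) x) s = spk G x (s + t) := by
  rw [spk, pow_add_apply, spk]

theorem sc_ok (hΔ : G.deg d = Δ) (i : ℕ) : sc Δ i < Δ ∧ spk G d (sc Δ i) = spk G d (i + 1) := by
  have h0 : 0 < Δ := hΔ ▸ Map.deg_pos d
  refine ⟨Nat.mod_lt _ h0, (spk_congr ((i + 1) / Δ : ℕ) ?_).symm⟩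
  rw [hΔ]
  exact_mod_cast (Nat.mod_add_div (i + 1) Δ).symm

theorem pr_ok (hΔ : G.deg d = Δ) (i : ℕ) : pr Δ i < Δ ∧ spk G d (pr Δ i) = spk G d (i - 1) := by
  have h0 : 0 < Δ := hΔ ▸ Map.deg_pos d
  refine ⟨Nat.mod_lt _ h0, (spk_congr (((i + (Δ - 1)) / Δ : ℕ) - 1) ?_).symm⟩
  have h1 : (pr Δ i : ℤ) + Δ * ((i + (Δ - 1)) / Δ : ℕ) = (i + (Δ - 1) : ℕ) := by
    exact_mod_cast Nat.mod_add_div (i + (Δ - 1)) Δ
  rw [hΔ, mul_sub, ← add_sub_assoc, h1]
  push_cast [Nat.cast_sub h0]
  ring

/-- the hat seen from its other spoke -/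
theorem hat_eq (hc : G.Cubic) (x : D) (t : ℤ) :
    spk G (spk G x t) (-2) = (G.f ^ (1 : ℤ)) (spk G (spk G x (t + 1)) 2) := by
  have h1 := spk_neg hc (spk G x (t + 1)) 1
  rw [spk_one hc x, spk_pow, add_sub_cancel_right] at h1
  exact h1

theorem rep_fail {x : D} : Rep G Δ d x fail := fun h => absurd h (by decide)

theorem step0_ok (hc : G.Cubic) (hΔ : G.deg d = Δ) {i : ℕ} (hi : i < Δ) (n : ℕ) :
    Rep G Δ d (spk G (spk G d i) ((n : ℤ) - 16)) (step0 Δ i n) := by
  simp only [step0, cnd_eq, Nat.beq_eq, Nat.ble_eq, Nat.add_eq, Nat.sub_eq]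
  split_ifs with h1 h2 h3 h4 h5 h6
  · refine fun _ => ⟨hi, ?_⟩
    rw [dart, base, if_neg (by simp only; omega), if_neg (by simp only; omega)]
    simp only [Nat.cast_ofNat, sub_self, zpow_zero, Perm.one_apply]
    congr 1
    omega
  · exact rep_fail
  · subst h3
    exact fun _ => ⟨by simp only; omega, by simp [dart, base, spk_zero]⟩
  · subst h4
    exact fun _ => ⟨(pr_ok hΔ i).1, by simpa [dart, base, (pr_ok hΔ i).2] using spk_one hc d i⟩
  · subst h5
    exact fun _ => ⟨(sc_ok hΔ i).1, by simpa [dart, base, (sc_ok hΔ i).2] using spk_neg hc d i⟩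
  · subst h6
    exact fun _ => ⟨(sc_ok hΔ i).1, by simpa [dart, base, (sc_ok hΔ i).2] using hat_eq hc d i⟩
  · exact rep_fail

theorem step1_ok (hc : G.Cubic) (h5 : ∀ x, 5 ≤ G.deg x) (hΔ : G.deg d = Δ) (hM : Fits G Δ M d)
    {b i : ℕ} (hb0 : b ≠ 0) (hb : b < 5) (hi : i < Δ) (n : ℕ) :
    Rep G Δ d (spk G (spk G (spk G d i) (b + 1 : ℕ)) ((n : ℤ) - 16)) (step1 Δ M b i n) := by
  simp only [step1, fN_eq, cnd_eq, Nat.beq_eq, Nat.ble_eq, Nat.add_eq, Nat.sub_eq]
  split_ifs with h1 h2 h3 h4 h6 h7 h8 h9 h10 h11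
  · subst h1
    refine fun _ => ⟨hi, ?_⟩
    simp only [dart, base, Nat.cast_ofNat, sub_self, spk_zero]
    congr 2
    push_cast
    ring
  · subst h2 h3
    refine fun _ => ⟨(pr_ok hΔ i).1, ?_⟩
    have := hat_eq hc d (i - 1)
    rw [sub_add_cancel, spk] at this
    rw [dart, base, if_neg (by simp), if_pos rfl, (pr_ok hΔ i).2]
    exact (congrArg G.e this.symm).trans (G.ee _)
  · subst h2
    refine fun _ => ⟨hi, ?_⟩
    rw [dart, base, if_neg (by simp only; omega), if_neg (by simp only; omega)]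
    refine (spk_one hc _ _).trans ?_
    congr 2
    simp only
    omega
  · subst h4
    refine fun _ => ⟨(sc_ok hΔ i).1, ?_⟩
    have e := ex_ok h5 hM (b := 0) (by omega) hi (by omega)
    have e2 : spk G (spk G d i) ((b + 1 : ℕ) + 1) = spk G (spk G d i) (-2) :=
      spk_congr 1 (by rw [show G.deg (spk G d i) = b + 4 from e.trans h6.symm]; omega)
    refine (spk_neg hc _ _).trans ?_
    rw [e2, hat_eq hc, pow_add_apply]
    simp only [Int.reduceAdd, zpow_ofNat, dart, Nat.cast_ofNat, Int.reduceSub, base, OfNat.one_ne_ofNat, ↓ reduceIte, one_ne_zero, (sc_ok hΔ i).2, Nat.reduceAdd]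
  · subst h4
    refine fun _ => ⟨hi, ?_⟩
    rw [dart, base, if_neg (by simp only; omega), if_neg (by simp only; omega)]
    exact spk_neg hc _ _
  · exact rep_fail
  · subst h8 h9
    refine fun _ => ⟨(pr_ok hΔ i).1, ?_⟩
    have e := ex_ok h5 hM (b := 0) (by omega) (pr_ok hΔ i).1 (by omega)
    rw [dart, base, if_neg (by simp only; omega), if_neg (by simp only; omega)]
    have e1 := hat_eq hc d (i - 1)
    rw [sub_add_cancel, ← (pr_ok hΔ i).2] at e1
    have e2 := spk_one hc (spk G d (pr Δ i)) (-2)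
    rw [e1, spk_pow] at e2
    refine e2.trans ?_
    congr 1
    refine spk_congr (-1) ?_
    rw [show G.deg (spk G d (pr Δ i)) = ex M 0 (pr Δ i) from e]
    simp only
    omega
  all_goals exact rep_fail

theorem step_ok (hc : G.Cubic) (h5 : ∀ x, 5 ≤ G.deg x) (hΔ : G.deg d = Δ) (hM : Fits G Δ M d)
    {b i u : ℕ} {x : D} (h : Rep G Δ d x ⟨b, i, u⟩) (t : ℤ) :
    Rep G Δ d (spk G x t) (step Δ M b i (shf u t)) := by
  simp only [step, fN_eq, cnd_eq, Nat.beq_eq, Nat.ble_eq]
  by_cases h0 : shf u t = 0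
  · rw [if_pos h0]; exact rep_fail
  rw [if_neg h0]
  by_cases h6 : b ≤ 5
  swap
  · rw [if_pos (by omega), if_neg (by omega)]; exact rep_fail
  obtain ⟨hi, rfl⟩ := h h6
  have e : t + ((u : ℤ) - 16) = (shf u t : ℤ) - 32 := by
    cases t with
    | ofNat n =>
      show (n : ℤ) + _ = ((u + 16 + n : ℕ) : ℤ) - 32
      omega
    | negSucc n =>
      have : u + 15 - n ≠ 0 := h0
      show _ = ((u + 15 - n : ℕ) : ℤ) - 32
      omega
  rw [dart, spk_pow, e]
  simp only
  by_cases hb : 5 ≤ b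
  · obtain rfl : b = 5 := by omega
    rw [if_pos hb, if_pos rfl]
    exact fun _ => ⟨(md_ok hΔ _).1, by simpa only [spk, base, ↓ reduceIte, dart, Nat.cast_ofNat, sub_self, zpow_ofNat, pow_zero, OfNat.zero_ne_ofNat, zpow_natCast, Perm.coe_one, id_eq, EmbeddingLike.apply_eq_iff_eq] using (md_ok hΔ (shf u t)).2⟩
  rw [if_neg hb]
  by_cases hn : nrm (ex M b i) (shf u t) = 0
  · rw [hn]
    split_ifs <;> exact rep_fail
  rw [spk, nrm_ok (ex_ok h5 hM (by omega) hi) _ hn]
  split_ifs with hb0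
  · subst hb0
    exact step0_ok hc hΔ hi _
  · rw [base, if_neg (by omega), if_neg hb0]
    exact step1_ok hc h5 hΔ hM hb0 (by omega) hi _

theorem nav_ok (hc : G.Cubic) (h5 : ∀ x, 5 ≤ G.deg x) (hΔ : G.deg d = Δ) (hM : Fits G Δ M d)
    (w : List ℤ) : ∀ {b i u : ℕ} {x : D}, Rep G Δ d x ⟨b, i, u⟩ →
      Rep G Δ d (G.go x w) (nav Δ M w b i u) := by
  induction w with
  | nil => exact fun h => h
  | cons t w ih =>
    exact fun h => ih (step_ok hc h5 hΔ hM h t)

theorem cls_lt (s : Bool) (m : ℕ) : cls s m < 2 ^ 5 := by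
  refine Nat.or_lt_two_pow (Nat.lt_of_le_of_lt Nat.and_le_right (by norm_num)) ?_
  simp only [fN_eq, cnd_eq]
  split_ifs <;> norm_num

theorem cls_ok (m : ℕ) {g : ℕ} (hg : 5 ≤ g) :
    ((cls true m).testBit (min g 9 - 5) = true → m.testBit (min g 12) = true) ∧
    (m.testBit (min g 12) = true → (cls false m).testBit (min g 9 - 5) = true) := by
  have k1 : ∀ a j, j < 4 → ((m >>> a) &&& 15).testBit j = m.testBit (a + j) := fun a j hj => by
    rw [Nat.testBit_and, Nat.testBit_shiftRight, show 15 = 2 ^ 4 - 1 from rfl,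
      Nat.testBit_two_pow_sub_one, decide_eq_true hj, Bool.and_true]
  have k2 : ∀ s j, (cls s m).testBit j = (((m >>> 5) &&& 15).testBit j ||
      (if s = true then if (m >>> 9) &&& 15 = 15 then 16 else 0
        else if (m >>> 9) &&& 15 = 0 then 0 else 16 : ℕ).testBit j) := fun s j => by
    simp only [cls, fN_eq, cnd_eq, Nat.beq_eq]
    exact Nat.testBit_or _ _ _
  by_cases h : g ≤ 8
  · have k3 : ∀ s, (cls s m).testBit (g - 5) = m.testBit g := fun s => by
      have : (16 : ℕ).testBit (g - 5) = false := by interval_cases g <;> rfl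
      rw [k2, k1 _ _ (by omega), show 5 + (g - 5) = g by omega]
      split_ifs <;> simp [this]
    rw [min_eq_left (by omega), min_eq_left (by omega), k3, k3]
    exact ⟨id, id⟩
  · have k4 : ((m >>> 5) &&& 15).testBit 4 = false := by
      rw [Nat.testBit_and]; simp [show (15 : ℕ).testBit 4 = false from rfl]
    have k5 := k1 9 (min g 12 - 9) (by omega)
    rw [show 9 + (min g 12 - 9) = min g 12 by omega] at k5
    rw [min_eq_right (by omega), k2, k2, k4, ← k5]
    constructor
    · intro h1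
      by_cases e : (m >>> 9) &&& 15 = 15
      · rw [e, show 15 = 2 ^ 4 - 1 from rfl, Nat.testBit_two_pow_sub_one, decide_eq_true_eq]
        omega
      · simp [e] at h1
    · intro h1
      by_cases e : (m >>> 9) &&& 15 = 0
      · simp only [e, Nat.zero_testBit, Bool.false_eq_true] at h1
      · simp only [e, Bool.false_or, if_false, Bool.false_eq_true]
        rfl

theorem testBit_cut (M p0 : ℕ) {a : ℕ} (ha : a < 2 ^ 5) (p : ℕ) {v : ℕ} (hv : v < 5) :
    (cut M (5 * p0) a).testBit (5 * p + v) = true ↔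
      M.testBit (5 * p + v) = true ∧ (p = p0 → a.testBit v = true) := by
  have e : (cut M (5 * p0) a).testBit (5 * p + v) =
      (M.testBit (5 * p + v) && !((31 ^^^ a) <<< (5 * p0)).testBit (5 * p + v)) := by
    show (M ^^^ (M &&& ((31 ^^^ a) <<< (5 * p0)))).testBit _ = _
    rw [Nat.testBit_xor, Nat.testBit_and]
    cases M.testBit (5 * p + v) <;> cases ((31 ^^^ a) <<< (5 * p0)).testBit (5 * p + v) <;> rfl
  rw [e, Bool.and_eq_true, Nat.testBit_shiftLeft]
  refine and_congr_right fun _ => ?_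
  rcases lt_trichotomy p p0 with h | rfl | h
  · simp only [ge_iff_le, show ¬ 5 * p0 ≤ 5 * p + v by omega, decide_false, Nat.testBit_xor, Bool.false_and, Bool.not_false, h.ne, IsEmpty.forall_iff]
  · have : (31 : ℕ).testBit v = true := by interval_cases v <;> rfl
    simp only [ge_iff_le, le_add_iff_nonneg_right, zero_le, decide_true, add_tsub_cancel_left, Nat.testBit_xor, this, Bool.true_bne, Bool.true_and, Bool.not_not, forall_const]
  · rw [Nat.testBit_lt_two_pow (x := 31 ^^^ a) ((Nat.xor_lt_two_pow (by norm_num) ha).trans_le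
      (Nat.pow_le_pow_right (by norm_num) (by omega)))]
    simp [h.ne']

theorem fits_cut {p0 a : ℕ} (hp : p0 < 5 * Δ) (ha : a < 2 ^ 5) :
    Fits G Δ (cut M (5 * p0) a) d ↔ Fits G Δ M d ∧ a.testBit (om G d p0) = true := by
  simp only [Fits, testBit_cut M p0 ha _ (om_lt _)]
  exact ⟨fun h => ⟨fun p hp => (h p hp).1, (h p0 hp).2 rfl⟩,
    fun h p hp => ⟨h.1 p hp, fun e => e ▸ h.2⟩⟩

theorem comp_cons (s : Bool) (Δ b i u : ℕ) (c : List ℤ × ℕ) (pat : Pattern) (M : ℕ) :
    comp s Δ b i u (c :: pat) M =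
      if 5 ≤ (nav Δ M c.1 b i u).b then
        if (nav Δ M c.1 b i u).b = 5 then if c.2.testBit Δ = true then comp s Δ b i u pat M else 0
        else if s = true then 0 else comp s Δ b i u pat M
      else comp s Δ b i u pat
        (cut M (5 * (5 * (nav Δ M c.1 b i u).i + (nav Δ M c.1 b i u).b)) (cls s c.2)) := by
  have e : comp s Δ b i u (c :: pat) M = cnd (Nat.ble 5 (nav Δ M c.1 b i u).b)
    (cnd (Nat.beq (nav Δ M c.1 b i u).b 5) (cnd (c.2.testBit Δ) (comp s Δ b i u pat M) 0)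
      (cnd s 0 (comp s Δ b i u pat M))) (comp s Δ b i u pat (cut M (25 * (nav Δ M c.1 b i u).i +
        5 * (nav Δ M c.1 b i u).b) (cls s c.2))) := rfl
  simp only [e, cnd_eq, Nat.beq_eq, Nat.ble_eq]
  congr 3
  ring

theorem deg_dart (b i u : ℕ) : G.deg (dart G d b i u) = G.deg (base G d b i) := Map.deg_f _ _

/-- (A) a neighbourhood that fits the translated mask fits `M` and shows the pattern -/
theorem comp_suff (hc : G.Cubic) (h5 : ∀ x, 5 ≤ G.deg x) (hΔ : G.deg d = Δ) (h12 : Δ ≤ 12)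
    {b i u : ℕ} (hi : i < Δ) (pat : Pattern) : ∀ M, Fits G Δ (comp true Δ b i u pat M) d →
      Fits G Δ M d ∧ G.Holds pat (dart G d b i u) := by
  induction pat with
  | nil => exact fun M h => ⟨h, fun _ h => absurd h List.not_mem_nil⟩
  | cons c pat ih =>
    intro M h
    have h0 : ¬ Fits G Δ 0 d := not_fits_zero (by omega)
    have nv := fun hM : Fits G Δ M d =>
      nav_ok hc h5 hΔ hM c.1 (b := b) (u := u) (x := dart G d b i u) fun _ => ⟨hi, rfl⟩
    rw [comp_cons] at h
    split_ifs at h with h1 h2 h3 h4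
    · obtain ⟨k1, k2⟩ := ih M h
      refine ⟨k1, List.forall_mem_cons.2 ⟨?_, k2⟩⟩
      rw [(nv k1 h2.le).2, deg_dart, h2, base, if_pos rfl, hΔ, min_eq_left h12]
      exact h3
    · exact absurd h h0
    · exact absurd h h0
    · exact absurd rfl h4
    · obtain ⟨k1, k2⟩ := ih _ h
      have k3 : Fits G Δ M d := k1.mono fun j hj => by
        have : (M ^^^ (M &&& _)).testBit j = true := hj
        rw [Nat.testBit_xor, Nat.testBit_and] at this
        by_contra hn
        simp only [Nat.xor_eq, Nat.shiftLeft_eq', Nat.testBit_shiftLeft, ge_iff_le, Nat.testBit_xor, bne_iff_ne, ne_eq, Bool.eq_self_and, hn, Bool.and_eq_true, decide_eq_true_eq, IsEmpty.forall_iff, not_true_eq_false] at this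
      obtain ⟨k4, k5⟩ := nv k3 (by omega)
      have k6 := ((fits_cut (by omega) (cls_lt _ _)).1 k1).2
      refine ⟨k3, List.forall_mem_cons.2 ⟨?_, k2⟩⟩
      rw [om_pos (by omega)] at k6
      rw [k5, deg_dart]
      exact (cls_ok _ (h5 _)).1 k6

/-- (B) a neighbourhood that fits `M` and shows the pattern fits the translated mask -/
theorem comp_nec (hc : G.Cubic) (h5 : ∀ x, 5 ≤ G.deg x) (hΔ : G.deg d = Δ) (h12 : Δ ≤ 12)
    {b i u : ℕ} (hi : i < Δ) (pat : Pattern) : ∀ M, Fits G Δ M d → G.Holds pat (dart G d b i u) →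
      Fits G Δ (comp false Δ b i u pat M) d := by
  induction pat with
  | nil => exact fun M h _ => h
  | cons c pat ih =>
    intro M hM h
    obtain ⟨k1, k2⟩ := List.forall_mem_cons.1 h
    have nv := nav_ok hc h5 hΔ hM c.1 (b := b) (u := u) (x := dart G d b i u) fun _ => ⟨hi, rfl⟩
    rw [comp_cons]
    split_ifs with h1 h2 h3 h4
    · exact ih M hM k2
    · rw [(nv h2.le).2, deg_dart, h2, base, if_pos rfl, hΔ, min_eq_left h12] at k1
      exact absurd k1 h3
    · exact h4.elim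
    · exact ih M hM k2
    · obtain ⟨k4, k5⟩ := nv (by omega)
      refine ih _ ((fits_cut (by omega) (cls_lt _ _)).2 ⟨hM, ?_⟩) k2
      rw [k5, deg_dart] at k1
      rw [om_pos (by omega)]
      exact (cls_ok _ (h5 _)).2 k1

/-- the source dart of the rules that send from spoke `i` to the hub -/
theorem dart_in (i : ℕ) : dart G d 0 i 16 = G.e ((G.f ^ i) d) := by simp only [dart, Nat.cast_ofNat, sub_self, zpow_ofNat, pow_zero, base, OfNat.zero_ne_ofNat, ↓ reduceIte, spk, zpow_natCast, Perm.coe_one, id_eq]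

/-- the source dart of the rules that send from the hub to spoke `i` -/
theorem dart_out (i : ℕ) : dart G d 5 0 (16 + i) = (G.f ^ i) d := by simp [dart, base]

/-- an excluded pattern excludes its translations -/
theorem not_fits_comp {pat : Pattern} (hp : pat.Excluded) (hG : G.MinCex) (h5 : ∀ x, 5 ≤ G.deg x)
    (hΔ : G.deg d = Δ) (h12 : Δ ≤ 12) (b : ℕ) {i : ℕ} (hi : i < Δ) (u M : ℕ) :
    ¬ Fits G Δ (comp true Δ b i u pat M) d :=
  fun h => hp D G hG _ (comp_suff hG.cubic h5 hΔ h12 hi pat M h).2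

/-! ### Rotation -/

theorem om_rot (hΔ : G.deg d = Δ) (k p : ℕ) :
    om G ((G.f ^ k) d) p = om G d ((p + 5 * k) % (5 * Δ)) := by
  have e : spk G ((G.f ^ k) d) (p / 5 : ℕ) = spk G d ((p / 5 + k) % Δ : ℕ) := by
    rw [← zpow_natCast, spk_pow]
    refine spk_congr ((p / 5 + k) / Δ : ℕ) ?_
    rw [hΔ]
    exact_mod_cast (Nat.mod_add_div (p / 5 + k) Δ).symm
  rw [om, om, Nat.mod_mul_right_div_self, Nat.mod_mul_right_mod,
    show (p + 5 * k) % 5 = p % 5 by omega, show (p + 5 * k) / 5 = p / 5 + k by omega, base, base,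
    if_neg (show p % 5 ≠ 5 by omega), if_neg (show p % 5 ≠ 5 by omega), e]

theorem testBit_rot (Δ k A j : ℕ) : (rot Δ k A).testBit j = true ↔
    ((25 * k ≤ j ∧ A.testBit (j - 25 * k) = true) ∨ A.testBit (25 * (Δ - k) + j) = true) ∧
      j < 25 * Δ := by
  show ((A <<< (25 * k) ||| A >>> (25 * (Δ - k))) &&& full Δ).testBit j = true ↔ _
  simp only [Nat.testBit_and, Nat.testBit_or, Nat.testBit_shiftLeft, ge_iff_le, Nat.testBit_shiftRight, testBit_full, Bool.and_eq_true, Bool.or_eq_true, decide_eq_true_eq]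

theorem mod_cases {k p : ℕ} (hk : k ≤ Δ) (hp : p < 5 * Δ) :
    (p + 5 * k < 5 * Δ ∧ (p + 5 * k) % (5 * Δ) = p + 5 * k) ∨
      (5 * Δ ≤ p + 5 * k ∧ (p + 5 * k) % (5 * Δ) = p + 5 * k - 5 * Δ) := by
  rcases lt_or_ge (p + 5 * k) (5 * Δ) with h | h
  · exact .inl ⟨h, Nat.mod_eq_of_lt h⟩
  · exact .inr ⟨h, by rw [Nat.mod_eq_sub_mod h, Nat.mod_eq_of_lt (by omega)]⟩

/-- (C) rotation, valid for every `A` -/
theorem Fits.rot (hΔ : G.deg d = Δ) {k A : ℕ} (hk : k ≤ Δ) (h : Fits G Δ A ((G.f ^ k) d)) :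
    Fits G Δ (rot Δ k A) d := by
  intro q hq
  have hv := om_lt (G := G) (d := d) q
  rw [testBit_rot]
  refine ⟨?_, by omega⟩
  rcases lt_or_ge q (5 * k) with c | c
  · have := h (q + 5 * (Δ - k)) (by omega)
    rw [om_rot hΔ, show q + 5 * (Δ - k) + 5 * k = q + 5 * Δ by omega, Nat.add_mod_right,
      Nat.mod_eq_of_lt hq] at this
    exact .inr (by rw [← this]; congr 1; omega)
  · have := h (q - 5 * k) (by omega)
    rw [om_rot hΔ, Nat.sub_add_cancel c, Nat.mod_eq_of_lt hq] at this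
    exact .inl ⟨by omega, by rw [← this]; congr 1; omega⟩

/-- (C) the converse, for masks without high bits -/
theorem Fits.of_rot (hΔ : G.deg d = Δ) {k A : ℕ} (hk : k ≤ Δ) (hA : A < 2 ^ (25 * Δ))
    (h : Fits G Δ (Cart.rot Δ k A) d) : Fits G Δ A ((G.f ^ k) d) := by
  intro p hp
  have hv := om_lt (G := G) (d := d) ((p + 5 * k) % (5 * Δ))
  have := h _ (Nat.mod_lt (p + 5 * k) (by omega))
  rw [om_rot hΔ]
  rw [testBit_rot] at this
  generalize om G d ((p + 5 * k) % (5 * Δ)) = v at this hv ⊢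
  rcases mod_cases hk hp with ⟨c, e⟩ | ⟨c, e⟩ <;> rw [e] at this <;>
    rcases this.1 with ⟨h1, h2⟩ | h2
  · rw [← h2]; congr 1; omega
  · rw [Nat.testBit_lt_two_pow (hA.trans_le (Nat.pow_le_pow_right (by norm_num) (by omega)))] at h2
    exact absurd h2 Bool.false_ne_true
  · omega
  · rw [← h2]; congr 1; omega

end Pool.Agent.MP_8c1b0d_co.CT4.Cart

/-! Bits of packed numbers. -/

namespace Pool.Agent.MP_8c1b0d_co.CT4.UChk

open Chk Finset

theorem bit_eq (x n : ℕ) : bit x n = (x.testBit n).toNat := by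
  show x >>> n &&& 1 = _
  rw [Nat.and_one_is_mod, Nat.toNat_testBit, Nat.shiftRight_eq_div_pow]

theorem upack_bit_lt (x n : ℕ) : bit x n < 2 ^ 1 := by
  rw [bit_eq]
  cases x.testBit n <;> decide

theorem pack_nil (f : Rl → ℕ) : pack f [] = 0 := rfl

theorem pack_cons (f : Rl → ℕ) (a : Rl) (l : List Rl) :
    pack f (a :: l) = f a ||| pack f l <<< 64 := rfl

theorem pack_lt {f : Rl → ℕ} {l : List Rl} (hf : ∀ a ∈ l, f a < 2 ^ 64) :
    pack f l < 2 ^ (64 * l.length) := by
  induction l with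
  | nil => exact Nat.two_pow_pos _
  | cons a l ih =>
    rw [pack_cons, List.length_cons, Nat.mul_succ, Nat.add_comm]
    exact bits_app_lt (hf a List.mem_cons_self) (ih fun b hb => hf b (List.mem_cons_of_mem _ hb))

theorem testBit_pack {f : Rl → ℕ} {l : List Rl} (hf : ∀ a ∈ l, f a < 2 ^ 64) {r : ℕ} {a : Rl}
    (ha : l[r]? = some a) {q : ℕ} (hq : q < 64) :
    (pack f l).testBit (64 * r + q) = (f a).testBit q := by
  induction l generalizing r with
  | nil => simp at ha
  | cons c l ih =>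
    rw [pack_cons, bits_testBit_app (hf c List.mem_cons_self)]
    cases r with
    | zero =>
      obtain rfl : c = a := by simpa using ha
      rw [if_pos (by omega), Nat.mul_zero, Nat.zero_add]
    | succ r =>
      rw [if_neg (by omega), show 64 * (r + 1) + q - 64 = 64 * r + q by omega]
      exact ih (fun b hb => hf b (List.mem_cons_of_mem _ hb)) (by simpa only [List.getElem?_cons_succ] using ha)

theorem upack_comb_cons (s c : ℕ) (l : List ℕ) : comb s (c :: l) = c ||| comb s l <<< s := rfl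

theorem comb_lt {s : ℕ} {l : List ℕ} (hl : ∀ x ∈ l, x < 2 ^ s) : comb s l < 2 ^ (s * l.length) := by
  induction l with
  | nil => exact Nat.two_pow_pos _
  | cons a l ih =>
    rw [upack_comb_cons, List.length_cons, Nat.mul_succ, Nat.add_comm]
    exact bits_app_lt (hl a List.mem_cons_self) (ih fun b hb => hl b (List.mem_cons_of_mem _ hb))

theorem testBit_comb {s : ℕ} {l : List ℕ} (hl : ∀ x ∈ l, x < 2 ^ s) (b : ℕ) {q : ℕ} (hq : q < s) :
    (comb s l).testBit (b * s + q) = (l.getD b 0).testBit q := by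
  induction l generalizing b with
  | nil =>
    show (0 : ℕ).testBit _ = (0 : ℕ).testBit _
    rw [Nat.zero_testBit, Nat.zero_testBit]
  | cons c l ih =>
    rw [upack_comb_cons, bits_testBit_app (hl c List.mem_cons_self)]
    cases b with
    | zero => rw [Nat.zero_mul, Nat.zero_add, if_pos hq, List.getD_cons_zero]
    | succ b =>
      rw [Nat.succ_mul, if_neg (by omega), show b * s + s + q - s = b * s + q by omega,
        List.getD_cons_succ]
      exact ih (fun b hb => hl b (List.mem_cons_of_mem _ hb)) b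

theorem upack_blocks_succ (s n : ℕ) (g : ℕ → ℕ) :
    blocks s (n + 1) g = blocks s n g ||| g n <<< (n * s) := rfl

theorem blocks_lt {s n : ℕ} {g : ℕ → ℕ} (hg : ∀ b < n, g b < 2 ^ s) :
    blocks s n g < 2 ^ (n * s) := by
  induction n with
  | zero => exact Nat.two_pow_pos _
  | succ n ih =>
    rw [upack_blocks_succ, Nat.succ_mul]
    exact bits_app_lt (ih fun b hb => hg b (by omega)) (hg n (by omega))

theorem testBit_blocks {s n : ℕ} {g : ℕ → ℕ} (hg : ∀ b < n, g b < 2 ^ s) (b : ℕ) {q : ℕ}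
    (hq : q < s) : (blocks s n g).testBit (b * s + q) = (decide (b < n) && (g b).testBit q) := by
  induction n with
  | zero =>
    show (0 : ℕ).testBit _ = _
    simp
  | succ n ih =>
    have hg' : ∀ b < n, g b < 2 ^ s := fun b hb => hg b (by omega)
    rw [upack_blocks_succ, bits_testBit_app (blocks_lt hg')]
    rcases lt_trichotomy b n with h | rfl | h
    · have := Nat.mul_le_mul_right s (Nat.succ_le_of_lt h)
      rw [Nat.succ_mul] at this
      rw [if_pos (by omega), ih hg', decide_eq_true h, decide_eq_true (by omega : b < n + 1)]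
    · rw [if_neg (by omega), Nat.add_sub_cancel_left, decide_eq_true (by omega : b < b + 1),
        Bool.true_and]
    · have := Nat.mul_le_mul_right s (Nat.succ_le_of_lt h)
      rw [Nat.succ_mul] at this
      rw [if_neg (by omega), decide_eq_false (by omega : ¬ b < n + 1), Bool.false_and]
      exact Nat.testBit_lt_two_pow ((hg n (by omega)).trans_le
        (Nat.pow_le_pow_right (by norm_num) (by omega)))

theorem upack_mul_bit {x s : ℕ} (hx : x < 2 ^ s) (S b : ℕ) : Nat.mul x (bit S b) < 2 ^ s := by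
  rw [bit_eq]
  cases S.testBit b
  · exact Nat.two_pow_pos _
  · exact (Nat.mul_one x).trans_lt hx

theorem atS_lt (X : Ctx) {x : ℕ} (hx : x < 2 ^ X.sz) (S : ℕ) : atS X x S < 2 ^ (X.D * X.sz) := by
  exact blocks_lt fun b _ => upack_mul_bit hx S b

theorem testBit_atS (X : Ctx) {x : ℕ} (hx : x < 2 ^ X.sz) (S i : ℕ) {q : ℕ} (hq : q < X.sz) :
    (atS X x S).testBit (i * X.sz + q) = (decide (i < X.D) && S.testBit i && x.testBit q) := by
  unfold atS
  rw [testBit_blocks (fun b _ => upack_mul_bit hx S b) i hq, bit_eq, Bool.and_assoc]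
  cases S.testBit i <;> simp

theorem fld_lt {p : ℕ} (hp : p < 63) (v : ℕ) (a : Rl) : fld p v a < 2 ^ 63 := by
  unfold fld
  have hb := upack_bit_lt a.M (Nat.add (Nat.mul 5 p) v)
  cases a.neg
  · exact hb.trans_le (Nat.pow_le_pow_right (by norm_num) (by norm_num))
  · refine Nat.xor_lt_two_pow (x := ones 63) ?_
      ((bits_shift_lt hb p).trans_le (Nat.pow_le_pow_right (by norm_num) hp))
    rw [ones_eq]
    exact Nat.sub_lt (Nat.two_pow_pos _) Nat.one_pos

theorem upack_fold_lt (c : ℕ → Bool) (n : ℕ) :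
    fold (fun p s => cond (c p) s (Nat.lor s (Nat.shiftLeft 1 p))) 0 n < 2 ^ n := by
  induction n with
  | zero => exact Nat.two_pow_pos _
  | succ n ih =>
    rw [fold_succ]
    cases c n
    · exact bits_app_lt ih (by norm_num : 1 < 2 ^ 1)
    · exact ih.trans_le (Nat.pow_le_pow_right (by norm_num) n.le_succ)

theorem upack_fold_bit (c : ℕ → Bool) {q n : ℕ} (hq : q < n) (hc : c q = false) :
    (fold (fun p s => cond (c p) s (Nat.lor s (Nat.shiftLeft 1 p))) 0 n).testBit q = true := by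
  induction n with
  | zero => omega
  | succ n ih =>
    rw [fold_succ]
    rcases Nat.lt_succ_iff_lt_or_eq.1 hq with h | rfl
    · cases c n
      · show Nat.testBit (_ ||| _) q = true
        rw [Nat.testBit_or, ih h, Bool.true_or]
      · exact ih h
    · rw [hc]
      show Nat.testBit (_ ||| 1 <<< q) q = true
      rw [Nat.testBit_or, Nat.one_shiftLeft, Nat.testBit_two_pow_self, Bool.or_true]

theorem ini_lt {D : ℕ} (hD : D ≤ 12) (a : Rl) : ini D a < 2 ^ 63 := by
  unfold ini
  cases a.neg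
  · show 1 < 2 ^ 63
    norm_num
  · refine (upack_fold_lt _ _).trans_le (Nat.pow_le_pow_right (by norm_num) ?_)
    show 5 * D ≤ 63
    omega

/-- the field for the true value at `p` keeps the bits that have to stay -/
theorem Alive.fld {D : ℕ} (hD : D ≤ 12) {a : Rl} {ω : ℕ → ℕ} {q : ℕ} (h : Alive D a ω q) {p : ℕ}
    (hp : p < 5 * D) : (fld p (ω p) a).testBit q = true := by
  unfold UChk.fld
  rcases h with ⟨h1, rfl, h3⟩ | ⟨h1, h2, h3⟩
  · rw [h1, cond_false, Nat.add_eq, Nat.mul_eq, bit_eq, h3 p hp]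
    decide
  · rw [h1, cond_true, Nat.add_eq, Nat.mul_eq, Nat.xor_eq, Nat.shiftLeft_eq', Nat.testBit_xor,
      testBit_ones, decide_eq_true (by omega : q < 63), Nat.testBit_shiftLeft]
    rcases lt_trichotomy q p with c | rfl | c
    · rw [decide_eq_false (by omega : ¬ q ≥ p), Bool.false_and, Bool.xor_false]
    · rw [bit_eq, h3]
      simp
    · rw [Nat.testBit_lt_two_pow ((upack_bit_lt _ _).trans_le
        (Nat.pow_le_pow_right (by norm_num) (by omega)))]
      simp

/-- a bit that has to stay is set at the start: if the five bits of `a.M` at position `q` were all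
set then the bit `5 * q + ω q` would be set -/
theorem Alive.ini {D : ℕ} {a : Rl} {ω : ℕ → ℕ} (hω : ∀ p, ω p < 5) {q : ℕ} (h : Alive D a ω q) :
    (ini D a).testBit q = true := by
  unfold UChk.ini
  rcases h with ⟨h1, rfl, -⟩ | ⟨h1, h2, h3⟩
  · rw [h1, cond_false]
    decide
  · rw [h1, cond_true]
    refine upack_fold_bit _ h2 ?_
    by_contra hc
    have e : a.M >>> (5 * q) &&& 31 = 31 := Nat.eq_of_beq_eq_true (eq_true_of_ne_false hc)
    have e2 := congrArg (fun y => Nat.testBit y (ω q)) e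
    have e3 : (31 : ℕ).testBit (ω q) = true := by
      rw [show (31 : ℕ) = 2 ^ 5 - 1 by norm_num, Nat.testBit_two_pow_sub_one, decide_eq_true (hω q)]
    simp only [Nat.testBit_and, Nat.testBit_shiftRight, h3, e3] at e2
    exact absurd e2 (by decide)

theorem Alive.lt {D : ℕ} (hD : D ≤ 12) {a : Rl} {ω : ℕ → ℕ} {q : ℕ} (h : Alive D a ω q) :
    q < 63 := by
  rcases h with h | h <;> omega

/-- a rule that counts has a bit that has to stay -/
theorem exists_alive {D : ℕ} {a : Rl} {ω : ℕ → ℕ} (h : a.val D ω ≠ 0) : ∃ q, Alive D a ω q := by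
  unfold Rl.val at h
  split_ifs at h with c
  · cases e : a.neg
    · exact ⟨0, Or.inl ⟨e, rfl, c.2 e⟩⟩
    · have : ¬ Fit D a.M ω := fun f => by
        have := c.1 f
        rw [e] at this
        exact absurd this (by decide)
      unfold Fit at this
      push Not at this
      obtain ⟨p, hp, hb⟩ := this
      exact ⟨p, Or.inr ⟨e, hp, eq_false_of_ne_true hb⟩⟩
  · exact absurd rfl h

theorem val_le (D : ℕ) (a : Rl) (ω : ℕ → ℕ) : a.val D ω ≤ a.w := by
  unfold Rl.val; split_ifs <;> simp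

end Pool.Agent.MP_8c1b0d_co.CT4.UChk

/-! Fields of 64 bits. -/

namespace Pool.Agent.MP_8c1b0d_co.CT4.UChk

open Chk Finset

/-- field `k` of `x` -/
def fd (x k : ℕ) : ℕ := x / 2 ^ (64 * k) % 2 ^ 64

theorem ufd_zero (x : ℕ) : fd x 0 = x % 2 ^ 64 := by
  rw [fd, mul_zero, pow_zero, Nat.div_one]

theorem ufd_succ (x k : ℕ) : fd x (k + 1) = fd (x / 2 ^ 64) k := by
  rw [fd, fd, Nat.div_div_eq_div_mul, ← pow_add, mul_add, mul_one, add_comm]

theorem testBit_fd (x k : ℕ) {q : ℕ} (hq : q < 64) :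
    (fd x k).testBit q = x.testBit (64 * k + q) := by
  rw [fd, Nat.testBit_mod_two_pow, Nat.testBit_div_two_pow, decide_eq_true hq, Bool.true_and,
    add_comm]

/-- no carries: induction on `k` for all `x`, `y` (divide by `2 ^ 64`) -/
theorem fd_add {x y : ℕ} (h : ∀ k, fd x k + fd y k < 2 ^ 64) (k : ℕ) :
    fd (x + y) k = fd x k + fd y k := by
  induction k generalizing x y with
  | zero =>
    have h0 := h 0
    simp only [ufd_zero] at h0 ⊢
    omega
  | succ k ih =>
    have h0 := h 0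
    simp only [ufd_zero] at h0
    have e : (x + y) / 2 ^ 64 = x / 2 ^ 64 + y / 2 ^ 64 := by omega
    rw [ufd_succ, ufd_succ, ufd_succ, e]
    exact ih fun j => by rw [← ufd_succ, ← ufd_succ]; exact h _

theorem ufd_le {x y : ℕ} (h : ∀ k, fd y k ≤ fd x k) : y ≤ x := by
  induction y using Nat.strong_induction_on generalizing x with
  | _ y ih =>
    rcases Nat.eq_zero_or_pos y with rfl | hy
    · exact Nat.zero_le _
    · have h0 := h 0
      simp only [ufd_zero] at h0
      have := ih (y / 2 ^ 64) (by omega) (x := x / 2 ^ 64) fun j => by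
        rw [← ufd_succ, ← ufd_succ]; exact h _
      omega

theorem fd_sub {x y : ℕ} (h : ∀ k, fd y k ≤ fd x k) (k : ℕ) :
    fd (x - y) k = fd x k - fd y k := by
  induction k generalizing x y with
  | zero =>
    have h0 := h 0
    have h1 := ufd_le h
    simp only [ufd_zero] at h0 ⊢
    omega
  | succ k ih =>
    have h0 := h 0
    have h1 := ufd_le h
    simp only [ufd_zero] at h0
    have e : (x - y) / 2 ^ 64 = x / 2 ^ 64 - y / 2 ^ 64 := by omega
    rw [ufd_succ, ufd_succ, ufd_succ, e]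
    exact ih fun j => by rw [← ufd_succ, ← ufd_succ]; exact h _

theorem fd_and (x y k : ℕ) : fd (x &&& y) k = fd x k &&& fd y k := by
  rw [fd, fd, fd, Nat.and_div_two_pow, Nat.and_mod_two_pow]

theorem ufd_mod {x n : ℕ} (hx : x < 2 ^ (64 * n)) :
    x % 18446744073709551615 = (∑ k ∈ range n, fd x k) % 18446744073709551615 := by
  induction n generalizing x with
  | zero =>
    have : x = 0 := by simpa using hx
    simp [this]
  | succ n ih =>
    have h1 : x / 2 ^ 64 < 2 ^ (64 * n) := by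
      rw [Nat.div_lt_iff_lt_mul (Nat.two_pow_pos _), ← pow_add]; exact hx
    have h2 := ih h1
    rw [Finset.sum_range_succ', ufd_zero]
    simp only [ufd_succ]
    generalize ∑ k ∈ range n, fd (x / 2 ^ 64) k = s at h2 ⊢
    omega

/-- the sum of the fields modulo `2 ^ 64 - 1` -/
theorem mod_eq_sum {x n : ℕ} (hx : x < 2 ^ (64 * n)) (h : ∑ k ∈ range n, fd x k < 2 ^ 64 - 1) :
    x % 18446744073709551615 = ∑ k ∈ range n, fd x k := by
  rw [ufd_mod hx]
  exact Nat.mod_eq_of_lt h

theorem ufd_geom (n : ℕ) : (2 ^ (64 * n) - 1) / (2 ^ 64 - 1) = ∑ i ∈ range n, (2 ^ 64) ^ i := by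
  rw [Nat.geomSum_eq (by norm_num), pow_mul]

theorem fd_div (n k : ℕ) :
    fd ((2 ^ (64 * n) - 1) / (2 ^ 64 - 1)) k = if k < n then 1 else 0 := by
  rw [ufd_geom]
  induction k generalizing n with
  | zero =>
    cases n with
    | zero => simp only [fd, range_zero, Nat.reducePow, sum_empty, mul_zero, pow_zero, Nat.div_one, Nat.zero_mod, lt_self_iff_false, ↓ reduceIte]
    | succ n =>
      rw [geom_sum_succ, ufd_zero, if_pos (Nat.succ_pos n)]
      generalize ∑ i ∈ range n, (2 ^ 64) ^ i = s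
      omega
  | succ k ih =>
    cases n with
    | zero => simp [fd]
    | succ n =>
      have e : (∑ i ∈ range (n + 1), (2 ^ 64) ^ i) / 2 ^ 64 = ∑ i ∈ range n, (2 ^ 64) ^ i := by
        rw [geom_sum_succ]
        generalize ∑ i ∈ range n, (2 ^ 64) ^ i = s
        omega
      rw [ufd_succ, e, ih]
      simp

theorem ufd_shift {Z : ℕ} (hZ : ∀ k, fd Z k = 0 ∨ fd Z k = 2 ^ 63) (k : ℕ) :
    fd (Z >>> 63) k = if fd Z k = 0 then 0 else 1 := by
  have h0 := hZ k
  have h1 := hZ (k + 1)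
  have e1 : fd Z (k + 1) = Z / 2 ^ (64 * k) / 2 ^ 64 % 2 ^ 64 := by
    rw [fd, Nat.div_div_eq_div_mul, ← pow_add, mul_add, mul_one]
  have e2 : fd (Z >>> 63) k = Z / 2 ^ (64 * k) / 2 ^ 63 % 2 ^ 64 := by
    rw [fd, Nat.shiftRight_eq_div_pow, Nat.div_div_eq_div_mul, Nat.div_div_eq_div_mul, mul_comm]
  rw [e1] at h1
  rw [e2]
  unfold fd at h0 ⊢
  generalize Z / 2 ^ (64 * k) = W at h0 h1 ⊢
  split_ifs <;> omega

/-- a number whose fields are `0` or `2 ^ 63` -/
theorem fd_spread {Z : ℕ} (hZ : ∀ k, fd Z k = 0 ∨ fd Z k = 2 ^ 63) (k : ℕ) :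
    fd (Z - Z >>> 63) k = if fd Z k = 0 then 0 else 2 ^ 63 - 1 := by
  rw [fd_sub fun j => ?_, ufd_shift hZ]
  · have := hZ k
    split_ifs <;> omega
  · rw [ufd_shift hZ]
    split_ifs <;> omega

end Pool.Agent.MP_8c1b0d_co.CT4.UChk

/-! The tables keep the bits that have to stay. -/

namespace Pool.Agent.MP_8c1b0d_co.CT4.UChk

open Chk Finset

variable {X : Ctx} {l : List Rl} {ω : ℕ → ℕ}

theorem utab_lt64 {x : ℕ} (h : x < 2 ^ 63) : x < 2 ^ 64 :=
  h.trans_le (Nat.pow_le_pow_right (by norm_num) (by norm_num))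

theorem utab_getD {α : Type} (f : ℕ → α) (d : α) {r a : ℕ} (h : a < r) :
    ((List.range r).map f).getD a d = f a := by
  rw [List.getD_eq_getElem?_getD, List.getElem?_map, List.getElem?_range h]
  rfl

theorem utab_row (D : ℕ) (l : List Rl) {j v : ℕ} (hj : j < 5) (hv : v < 5) :
    nth [] (nth [] (rows D l) j) v =
      (List.range D).map fun b => pack (fld (5 * ((D - b) % D) + j) v) l := by
  rw [nth_eq, nth_eq]
  unfold rows
  rw [utab_getD _ _ hj, utab_getD _ _ hv]
  refine List.map_congr_left fun b _ => ?_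
  rw [frc_eq]
  exact Nat.zero_or _

theorem utab_pos_lt {D j : ℕ} (hD : 0 < D) (hj : j < 5) (c : ℕ) : 5 * (c % D) + j < 5 * D := by
  have := Nat.mod_lt c hD
  omega

theorem utab_31 {v : ℕ} (hv : v < 5) : Nat.testBit 31 v = true := by
  interval_cases v <;> decide

theorem utab_idx {r q : ℕ} {a : Rl} (ha : l[r]? = some a) (hq : q < 64) :
    64 * r + q < 64 * l.length := by
  have := (List.getElem?_eq_some_iff.1 ha).1
  omega

/-- Block `b < 2 D` of `uu X j v` is `pack (fld p v) l` for `p = 5 * ((D - b % D) % D) + j`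
(`nth_eq`, `frc_eq`, `testBit_dbl` with `m = 1` or `bits_dbl_succ`, `testBit_comb`, `comb_lt`,
`pack_lt`, `fld_lt`). -/
theorem testBit_uu (hX : Ok X l) {j v b q : ℕ} (hj : j < 5) (hv : v < 5) (hb : b < 2 * X.D)
    (hq : q < X.sz) : (uu X j v).testBit (b * X.sz + q) =
      (pack (fld (5 * ((X.D - b % X.D) % X.D) + j) v) l).testBit q := by
  obtain ⟨h0, h12, hsz, hR, -, -, -⟩ := hX
  have e : uu X j v = dbl (comb X.sz (nth [] (nth [] X.R j) v)) (X.sz * X.D) 1 := rfl
  rw [e, hR, utab_row X.D l hj hv]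
  have hl : ∀ x ∈ (List.range X.D).map fun b => pack (fld (5 * ((X.D - b) % X.D) + j) v) l,
      x < 2 ^ X.sz := by
    intro x hx
    obtain ⟨c, -, rfl⟩ := List.mem_map.1 hx
    rw [hsz]
    refine pack_lt fun a _ => utab_lt64 (fld_lt ?_ v a)
    have := utab_pos_lt h0 hj (X.D - c)
    omega
  have h1 := comb_lt hl
  rw [List.length_map, List.length_range] at h1
  have hm : b % X.D < X.D := Nat.mod_lt b h0
  have h2 : b * X.sz + q = b / X.D * (X.sz * X.D) + (b % X.D * X.sz + q) := by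
    have h := Nat.div_add_mod' b X.D
    calc b * X.sz + q = (b / X.D * X.D + b % X.D) * X.sz + q := by rw [h]
      _ = _ := by ring
  have h3 : b % X.D * X.sz + q < X.sz * X.D := by nlinarith only [hq, hm]
  have h4 : b / X.D < 2 ^ 1 := (Nat.div_lt_iff_lt_mul h0).2 (by simpa using hb)
  rw [h2, testBit_dbl h1 1 _ h3, decide_eq_true h4, Bool.true_and, testBit_comb hl _ hq,
    utab_getD _ _ hm]

theorem utab_um (j m : ℕ) {v k : ℕ} (hm : m.testBit v = true)
    (h : (uu X j v).testBit k = true) (n : ℕ) (hv : v < n) :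
    (fold (fun v s => cond (Nat.beq (bit m v) 1) (orZ s (uu X j v)) s) 0 n).testBit k = true := by
  induction n with
  | zero => exact absurd hv (Nat.not_lt_zero v)
  | succ n ih =>
    rw [fold_succ]
    rcases Nat.lt_succ_iff_lt_or_eq.1 hv with h1 | rfl
    · have h2 := ih h1
      cases Nat.beq (bit m n) 1
      · exact h2
      · rw [cond_true, orZ_eq, Nat.testBit_or, h2, Bool.true_or]
    · have h2 : Nat.beq (bit m v) 1 = true := by
        rw [bit_eq, hm]
        rfl
      rw [h2, cond_true, orZ_eq, Nat.testBit_or, h, Bool.or_true]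

/-- `um X j m` contains `uu X j v` for every bit `v < 5` of `m` -/
theorem testBit_um {j m v k : ℕ} (hv : v < 5) (hm : m.testBit v = true)
    (h : (uu X j v).testBit k = true) : (um X j m).testBit k = true :=
  utab_um j m hm h 5 hv

theorem utab_turn {D i p : ℕ} (hi : i < D) (hp : p < 5 * D) :
    (5 * ((D - (i + (D - p / 5)) % D) % D) + p % 5 + 5 * i) % (5 * D) = p := by
  have ht : p / 5 < D := by omega
  have hp5 := Nat.div_add_mod p 5
  have hj : p % 5 < 5 := Nat.mod_lt p (by norm_num)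
  generalize p / 5 = t at *
  generalize p % 5 = j at *
  subst hp5
  rcases lt_trichotomy i t with h | rfl | h
  · rw [Nat.mod_eq_of_lt (show i + (D - t) < D by omega),
      Nat.mod_eq_of_lt (show D - (i + (D - t)) < D by omega),
      show 5 * (D - (i + (D - t))) + j + 5 * i = 5 * t + j by omega, Nat.mod_eq_of_lt hp]
  · rw [show i + (D - i) = D by omega, Nat.mod_self, Nat.sub_zero, Nat.mod_self,
      show 5 * 0 + j + 5 * i = 5 * i + j by omega, Nat.mod_eq_of_lt hp]
  · rw [show i + (D - t) = D + (i - t) by omega, Nat.add_mod_left,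
      Nat.mod_eq_of_lt (show i - t < D by omega),
      Nat.mod_eq_of_lt (show D - (i - t) < D by omega),
      show 5 * (D - (i - t)) + j + 5 * i = 5 * D + (5 * t + j) by omega, Nat.add_mod_left,
      Nat.mod_eq_of_lt hp]

/-- Block `i` of `tt X n` is block `b = i + (D - p / 5)` of `um X (p % 5) (n &&& 31)`, where
`p = n >>> 5`; it belongs to the position `p' = 5 * ((D - b % D) % D) + p % 5`, and
`(p' + 5 * i) % (5 * D) = p`, so `rt D i ω p' = ω p`; then `Alive.fld` and `testBit_pack`. -/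
theorem keep_tt (hX : Ok X l) (hω : ∀ p, ω p < 5) {n : ℕ} (hp : n >>> 5 < 5 * X.D)
    (hm : n.testBit (ω (n >>> 5)) = true) (S : ℕ) : Keep X.D l ω S (tt X n) := by
  intro i hi _ r a ha q hq
  have e : tt X n = um X (n >>> 5 % 5) (n &&& 31) >>> ((X.D - n >>> 5 / 5) * X.sz) := by
    unfold tt
    rw [frc_eq, frc_eq]
    rfl
  generalize n >>> 5 = p at hp hm e
  have hX' := hX
  obtain ⟨h0, h12, hsz, -, -, -, -⟩ := hX'
  have hq63 := hq.lt h12
  have hj : p % 5 < 5 := Nat.mod_lt p (by norm_num)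
  have hidx : 64 * r + q < X.sz := by
    rw [hsz]
    exact utab_idx ha (by omega)
  rw [e, Nat.testBit_shiftRight, ← hsz,
    show (X.D - p / 5) * X.sz + (i * X.sz + (64 * r + q)) =
      (i + (X.D - p / 5)) * X.sz + (64 * r + q) by ring]
  refine testBit_um (hω p) ?_ ?_
  · rw [Nat.testBit_and, hm, utab_31 (hω p), Bool.and_self]
  · have hp' := utab_pos_lt h0 hj (X.D - (i + (X.D - p / 5)) % X.D)
    rw [testBit_uu hX hj (hω p) (by omega) hidx,
      testBit_pack (fun a _ => utab_lt64 (fld_lt (by omega) _ a)) ha (by omega)]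
    have h1 := hq.fld h12 hp'
    have h2 : rt X.D i ω (5 * ((X.D - (i + (X.D - p / 5)) % X.D) % X.D) + p % 5) = ω p := by
      unfold rt
      rw [utab_turn hi hp]
    rwa [h2] at h1

theorem utab_y0 (hX : Ok X l) : X.y0 < 2 ^ X.sz := by
  obtain ⟨-, h12, hsz, -, hy, -, -⟩ := hX
  rw [hy, hsz]
  exact pack_lt fun a _ => utab_lt64 (ini_lt h12 a)

theorem keep_atS (hX : Ok X l) (hω : ∀ p, ω p < 5) (S : ℕ) : Keep X.D l ω S (atS X X.y0 S) := by
  intro i hi hS r a ha q hq
  have hy0 := utab_y0 hX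
  obtain ⟨-, h12, hsz, -, hy, -, -⟩ := hX
  have hq63 := hq.lt h12
  have hidx : 64 * r + q < X.sz := by
    rw [hsz]
    exact utab_idx ha (by omega)
  rw [← hsz, testBit_atS X hy0 S i hidx, decide_eq_true hi, hS, hy,
    testBit_pack (fun a _ => utab_lt64 (ini_lt h12 a)) ha (by omega),
    hq.ini fun p => hω _]
  rfl

/-- if `sz = 0` the number is below `2 ^ 0`; otherwise write `64 k + 63 = i * sz + q` -/
theorem low_atS (hX : Ok X l) (S : ℕ) : Low (atS X X.y0 S) := by
  intro k
  have hy0 := utab_y0 hX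
  obtain ⟨-, h12, hsz, -, hy, -, -⟩ := hX
  rcases Nat.eq_zero_or_pos l.length with h | h
  · have h1 := atS_lt X hy0 S
    refine Nat.testBit_lt_two_pow (h1.trans_le (Nat.pow_le_pow_right (by norm_num) ?_))
    rw [hsz, h]
    exact Nat.zero_le _
  · have hr : k % l.length < l.length := Nat.mod_lt k h
    have ha : l[k % l.length]? = some l[k % l.length] := List.getElem?_eq_getElem hr
    have hidx : 64 * (k % l.length) + 63 < X.sz := by
      rw [hsz]
      exact utab_idx ha (by norm_num)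
    have e : 64 * k + 63 = k / l.length * X.sz + (64 * (k % l.length) + 63) := by
      have h1 := Nat.div_add_mod' k l.length
      rw [hsz]
      calc 64 * k + 63 = 64 * (k / l.length * l.length + k % l.length) + 63 := by rw [h1]
        _ = _ := by ring
    rw [e, testBit_atS X hy0 S _ hidx, hy,
      testBit_pack (fun a _ => utab_lt64 (ini_lt h12 a)) ha (by norm_num),
      Nat.testBit_lt_two_pow (ini_lt h12 _), Bool.and_false]

theorem utab_code {p m : ℕ} (hm : m < 2 ^ 5) :
    (p <<< 5 ||| m) >>> 5 = p ∧ ∀ v < 5, (p <<< 5 ||| m).testBit v = m.testBit v := by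
  rw [Nat.or_comm]
  refine ⟨Nat.eq_of_testBit_eq fun i => ?_, fun v hv => ?_⟩
  · rw [Nat.testBit_shiftRight, bits_testBit_app hm, if_neg (by omega), Nat.add_sub_cancel_left]
  · rw [bits_testBit_app hm, if_pos hv]

theorem utab_and31 (x : ℕ) : x &&& 31 < 2 ^ 5 :=
  Nat.and_lt_two_pow x (by norm_num)

theorem utab_yini (hX : Ok X l) (hω : ∀ p, ω p < 5) {A : ℕ} (hA : Fit X.D A ω) (S y n : ℕ)
    (hy : Keep X.D l ω S y ∧ Low y) (hn : n ≤ 5 * X.D) :
    Keep X.D l ω S (fold (fun p Y => cond (Nat.beq (A >>> (5 * p) &&& 31) 31) Y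
      (frc (p <<< 5 + (A >>> (5 * p) &&& 31)) (yand X Y))) y n) ∧
    Low (fold (fun p Y => cond (Nat.beq (A >>> (5 * p) &&& 31) 31) Y
      (frc (p <<< 5 + (A >>> (5 * p) &&& 31)) (yand X Y))) y n) := by
  induction n with
  | zero => exact hy
  | succ n ih =>
    have h1 := ih (by omega)
    rw [fold_succ]
    generalize fold (fun p Y => cond (Nat.beq (A >>> (5 * p) &&& 31) 31) Y
      (frc (p <<< 5 + (A >>> (5 * p) &&& 31)) (yand X Y))) y n = Y at h1 ⊢
    cases Nat.beq (A >>> (5 * n) &&& 31) 31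
    · rw [cond_false, frc_eq]
      have hm := utab_and31 (A >>> (5 * n))
      rw [Nat.shiftLeft_add_eq_or_of_lt hm]
      obtain ⟨h2, h3⟩ := utab_code (p := n) hm
      refine ⟨h1.1.and (keep_tt hX hω ?_ ?_ S), h1.2.and _⟩
      · rw [h2]
        omega
      · rw [h2, h3 _ (hω n), Nat.testBit_and, Nat.testBit_shiftRight, hA n (by omega),
          utab_31 (hω n), Bool.and_self]
    · exact h1

/-- induction over the fold, for all bounds `n ≤ 5 D` -/
theorem yini_ok (hX : Ok X l) (hω : ∀ p, ω p < 5) {A : ℕ} (hA : Fit X.D A ω) (S : ℕ) :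
    Keep X.D l ω S (yini X A S) ∧ Low (yini X A S) :=
  utab_yini hX hω hA S _ _ ⟨keep_atS hX hω S, low_atS hX S⟩ le_rfl

theorem keep_ty₁ (hX : Ok X l) (hω : ∀ p, ω p < 5) {n : ℕ} (hp : n >>> 10 < 5 * X.D)
    (hm : n.testBit (5 + ω (n >>> 10)) = true) (S : ℕ) : Keep X.D l ω S (ty₁ X n) := by
  have e : ty₁ X n = tt X (n >>> 5) := by
    unfold ty₁
    rw [frc_eq]
    exact Nat.zero_or _
  have h : n >>> 5 >>> 5 = n >>> 10 := (Nat.shiftRight_add n 5 5).symm
  rw [e]
  refine keep_tt hX hω ?_ ?_ S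
  · rwa [h]
  · rwa [h, Nat.testBit_shiftRight]

theorem keep_ty₂ (hX : Ok X l) (hω : ∀ p, ω p < 5) {n : ℕ} (hp : n >>> 10 < 5 * X.D)
    (hm : n.testBit (ω (n >>> 10)) = true) (S : ℕ) : Keep X.D l ω S (ty₂ X n) := by
  have e : ty₂ X n = tt X ((n >>> 10) <<< 5 ||| (n &&& 31)) := by
    unfold ty₂
    rw [frc_eq]
    exact Nat.zero_or _
  obtain ⟨h2, h3⟩ := utab_code (p := n >>> 10) (utab_and31 n)
  rw [e]
  refine keep_tt hX hω ?_ ?_ S
  · rwa [h2]
  · rw [h2, h3 _ (hω _), Nat.testBit_and, hm, utab_31 (hω _), Bool.and_self]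

end Pool.Agent.MP_8c1b0d_co.CT4.UChk

/-! The evaluation of a leaf bounds the cost. -/

namespace Pool.Agent.MP_8c1b0d_co.CT4.UChk

open Chk Finset

variable {X : Ctx} {l : List Rl} {ω : ℕ → ℕ}

theorem uev_lt (x k : ℕ) : fd x k < 2 ^ 64 := Nat.mod_lt _ (Nat.two_pow_pos 64)

theorem uev_ext {x k c : ℕ} (hc : c < 2 ^ 64)
    (h : ∀ q < 64, x.testBit (64 * k + q) = c.testBit q) : fd x k = c := by
  refine Nat.eq_of_testBit_eq fun q => ?_
  rcases lt_or_ge q 64 with hq | hq
  · rw [testBit_fd x k hq, h q hq]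
  · have := Nat.pow_le_pow_right (show 0 < 2 by decide) hq
    rw [Nat.testBit_lt_two_pow ((uev_lt x k).trans_le this), Nat.testBit_lt_two_pow (hc.trans_le this)]

theorem fd_unit (hX : Ok X l) (k : ℕ) :
    fd (unit X) k = if k < l.length * X.D then 1 else 0 := by
  have e : unit X = ones (X.sz * X.D) / ones 64 := rfl
  rw [e, ones_eq, ones_eq, hX.2.2.1, mul_assoc, fd_div]

theorem fd_hi (hX : Ok X l) (k : ℕ) :
    fd (hi X) k = if k < l.length * X.D then 2 ^ 63 else 0 := by
  have e : hi X = unit X <<< 63 := rfl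
  refine uev_ext (by split_ifs <;> norm_num) fun q hq => ?_
  rw [e, Nat.testBit_shiftLeft]
  rcases Nat.lt_or_ge q 63 with h | h
  · have h2 : (if k < l.length * X.D then 2 ^ 63 else 0).testBit q = false := by
      split_ifs
      · exact Nat.testBit_two_pow_of_ne h.ne'
      · exact Nat.zero_testBit q
    rw [h2]
    rcases k with _ | k
    · simp only [mul_zero, zero_add, ge_iff_le, Bool.and_eq_false_imp, decide_eq_true_eq, isEmpty_Prop, not_le, h, IsEmpty.forall_iff]
    · rw [show 64 * (k + 1) + q - 63 = 64 * k + (q + 1) by omega, ← testBit_fd _ _ (by omega),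
        fd_unit hX]
      split_ifs <;> simp [Nat.testBit_succ]
  · obtain rfl : q = 63 := by omega
    rw [show 64 * k + 63 - 63 = 64 * k + 0 by omega, ← testBit_fd _ _ (by omega), fd_unit hX]
    split_ifs
    · rw [Nat.testBit_two_pow_self]; simp
    · simp

theorem uev_ones (n k : ℕ) : fd (ones (64 * n)) k = if k < n then 2 ^ 64 - 1 else 0 := by
  refine uev_ext (by split_ifs <;> norm_num) fun q hq => ?_
  rw [testBit_ones]
  split_ifs with h
  · rw [Nat.testBit_two_pow_sub_one, decide_eq_true hq, decide_eq_true (by omega)]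
  · rw [Nat.zero_testBit, decide_eq_false (by omega)]

theorem fd_m1 (hX : Ok X l) (S k : ℕ) : fd (m1 X S) k =
    if k < l.length * X.D ∧ k < l.length * (S.log2 + 1) then 2 ^ 63 - 1 else 0 := by
  have e : m1 X S = (hi X - unit X) &&& ones (X.sz * (S.log2 + 1)) := rfl
  rw [e, fd_and, fd_sub fun j => by rw [fd_unit hX, fd_hi hX]; split_ifs <;> norm_num, fd_unit hX,
    fd_hi hX, hX.2.2.1, mul_assoc, uev_ones]
  by_cases h1 : k < l.length * X.D <;> by_cases h2 : k < l.length * (S.log2 + 1) <;>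
    simp only [h1, h2, if_true, if_false, and_self, and_false, false_and, Nat.and_zero, Nat.zero_and,
      Nat.sub_self]
  rw [Nat.and_two_pow_sub_one_eq_mod, Nat.mod_eq_of_lt (by norm_num)]

theorem uev_low {Y : ℕ} (hY : Low Y) (k : ℕ) : fd Y k < 2 ^ 63 := by
  refine Nat.lt_pow_two_of_testBit _ fun q hq => ?_
  rcases hq.eq_or_lt with rfl | h
  · rw [testBit_fd _ _ (by decide), hY k]
  · exact Nat.testBit_lt_two_pow ((uev_lt Y k).trans_le (Nat.pow_le_pow_right (by decide) h))

/-- the top bit of field `k` tells if the field of `Y` is nonzero -/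
theorem fd_z (hX : Ok X l) {Y : ℕ} (hY : Low Y) (S k : ℕ) :
    fd ((Y + m1 X S) &&& hi X) k =
      if k < l.length * X.D ∧ k < l.length * (S.log2 + 1) ∧ fd Y k ≠ 0 then 2 ^ 63 else 0 := by
  have h := uev_low hY
  rw [fd_and, fd_add fun j => by have := h j; rw [fd_m1 hX]; split_ifs <;> omega, fd_m1 hX, fd_hi hX]
  have h0 := h k
  generalize fd Y k = y at *
  by_cases h1 : k < l.length * X.D
  · rw [if_pos h1, Nat.and_two_pow]
    by_cases h2 : k < l.length * (S.log2 + 1)
    · rw [if_pos ⟨h1, h2⟩]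
      by_cases h3 : y = 0
      · rw [if_neg fun k => k.2.2 h3, Nat.testBit_lt_two_pow (by omega)]; rfl
      · rw [if_pos ⟨h1, h2, h3⟩,
          Nat.testBit_of_two_pow_le_and_two_pow_add_one_gt (by omega) (by omega)]; rfl
    · rw [if_neg fun k => h2 k.2, if_neg fun k => h2 k.2.1, Nat.testBit_lt_two_pow (by omega)]; rfl
  · rw [if_neg h1, if_neg fun k => h1 k.1, if_neg fun k => h1 k.1, Nat.and_zero]

theorem uev_w (hX : Ok X l) : ∀ a ∈ l, a.w < 2 ^ 63 := fun _ ha =>
  ((List.le_sum_of_mem (List.mem_map_of_mem ha)).trans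
    (Nat.le_mul_of_pos_left _ hX.1)).trans_lt hX.2.2.2.2.2.2

theorem uev_w0 (hX : Ok X l) : X.w0 < 2 ^ X.sz := by
  rw [hX.2.2.1, hX.2.2.2.2.2.1]
  exact pack_lt fun a ha => (uev_w hX a ha).trans (by norm_num)

theorem fd_w (hX : Ok X l) (S i : ℕ) {r : ℕ} {a : Rl} (ha : l[r]? = some a) :
    fd (atS X X.w0 S) (i * l.length + r) = if i < X.D ∧ S.testBit i = true then a.w else 0 := by
  have hw : ∀ a ∈ l, a.w < 2 ^ 64 := fun a ha => (uev_w hX a ha).trans (by norm_num)
  have hr : r < l.length := (List.getElem?_eq_some_iff.1 ha).1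
  refine uev_ext (by
    split_ifs
    · exact hw a (List.mem_of_getElem? ha)
    · norm_num) fun q hq => ?_
  rw [show 64 * (i * l.length + r) + q = i * X.sz + (64 * r + q) by rw [hX.2.2.1]; ring,
    testBit_atS X (uev_w0 hX) S i (by rw [hX.2.2.1]; omega), hX.2.2.2.2.2.1, testBit_pack hw ha hq]
  by_cases h1 : i < X.D <;> cases h2 : S.testBit i <;> simp [h1]

theorem uev_sum (f : ℕ → ℕ) (n D : ℕ) :
    ∑ k ∈ range (D * n), f k = ∑ i ∈ range D, ∑ r ∈ range n, f (i * n + r) := by
  induction D with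
  | zero => simp
  | succ D ih => rw [Nat.succ_mul, sum_range_add, ih, sum_range_succ]

theorem uev_list (g : Rl → ℕ) (l : List Rl) :
    (l.map g).sum = ∑ r ∈ range l.length, l[r]?.elim 0 g := by
  induction l with
  | nil => simp
  | cons a l ih => simp only [List.map_cons, List.sum_cons, ih, List.length_cons, sum_range_succ', List.getElem?_cons_succ, lt_add_iff_pos_left, Order.lt_add_one_iff, zero_le, getElem?_pos, List.getElem_cons_zero, Option.elim_some, add_comm, Nat.add_left_cancel_iff]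

/-- The masked number has the field `w` or `0` at `i * length + r`; the sum of its fields is at most
`D * ∑ w < 2 ^ 63`, so `ev` is that sum (`mod_eq_sum`, `atS_lt`); a rule that counts at a spoke
`i ∈ S` has a nonzero field in `Y` (`exists_alive`, `Keep`), and `i ≤ S.log2`. Split the sum over
`range (D * length)` by `Finset.sum_range_mul`-like reindexing or induction on `D`. -/
theorem ev_ge (hX : Ok X l) {Y S : ℕ} (hK : Keep X.D l ω S Y) (hY : Low Y) :
    tot X.D l ω S ≤ ev X Y S := by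
  have hz := fd_z hX hY S
  have e : ev X Y S = ((((Y + m1 X S) &&& hi X) - ((Y + m1 X S) &&& hi X) >>> 63) &&&
    atS X X.w0 S) % 18446744073709551615 := rfl
  generalize (Y + m1 X S) &&& hi X = Z at hz e
  have hs := fd_spread (Z := Z) fun k => by rw [hz]; split_ifs <;> simp
  have h1 : (Z - Z >>> 63) &&& atS X X.w0 S < 2 ^ (64 * (X.D * l.length)) := by
    refine Nat.and_le_right.trans_lt ((atS_lt X (uev_w0 hX) S).trans_eq ?_)
    rw [hX.2.2.1, mul_left_comm]
  have h2 : ∑ k ∈ range (X.D * l.length), fd ((Z - Z >>> 63) &&& atS X X.w0 S) k ≤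
      X.D * (l.map Rl.w).sum := by
    rw [uev_sum, uev_list, ← smul_eq_mul, ← card_range X.D, ← sum_const, card_range]
    refine sum_le_sum fun i _ => sum_le_sum fun r hr => ?_
    have ha := List.getElem?_eq_getElem (mem_range.1 hr)
    rw [fd_and, fd_w hX S i ha, ha]
    refine Nat.and_le_right.trans ?_
    split_ifs
    · exact le_rfl
    · exact Nat.zero_le _
  rw [e, mod_eq_sum h1 ((h2.trans_lt hX.2.2.2.2.2.2).trans (by norm_num)), uev_sum]
  refine sum_le_sum fun i hi => ?_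
  split_ifs with hS
  swap
  · exact Nat.zero_le _
  rw [cost, uev_list]
  refine sum_le_sum fun r hr => ?_
  have hi := mem_range.1 hi
  have hr := mem_range.1 hr
  have ha := List.getElem?_eq_getElem hr
  generalize l[r] = a at ha
  rw [ha, Option.elim_some]
  by_cases h0 : a.val X.D (rt X.D i ω) = 0
  · exact h0.trans_le (Nat.zero_le _)
  obtain ⟨q, hq⟩ := exists_alive h0
  have h3 := hK i hi hS r a ha q hq
  have h4 := hq.lt hX.2.1
  rw [show i * (64 * l.length) + (64 * r + q) = 64 * (i * l.length + r) + q by ring,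
    ← testBit_fd _ _ (by omega)] at h3
  have h5 : i < S.log2 + 1 :=
    Nat.lt_succ_of_le ((Nat.le_log2 (by rintro rfl; simp at hS)).2 (Nat.ge_two_pow_of_testBit hS))
  have h6 : ∀ n, i < n → i * l.length + r < l.length * n := fun n hn => by
    have := Nat.mul_le_mul_left l.length hn
    rw [Nat.mul_succ, mul_comm] at this
    omega
  have h7 : fd Z (i * l.length + r) = 2 ^ 63 :=
    (hz _).trans (if_pos ⟨h6 _ hi, h6 _ h5, fun k => by simp [k] at h3⟩)
  rw [fd_and, (hs _).trans (if_neg (by rw [h7]; norm_num)), (fd_w hX S i ha).trans (if_pos ⟨hi, hS⟩),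
    Nat.and_comm, Nat.and_two_pow_sub_one_eq_mod,
    Nat.mod_eq_of_lt (uev_w hX a (List.mem_of_getElem? ha))]
  exact val_le _ _ _

end Pool.Agent.MP_8c1b0d_co.CT4.UChk

/-! Turned entries. -/

namespace Pool.Agent.MP_8c1b0d_co.CT4.UChk

open Chk Finset

theorem rt_rt {D : ℕ} (i k : ℕ) (ω : ℕ → ℕ) : rt D i (rt D k ω) = rt D ((i + k) % D) ω := by
  funext p
  simp only [rt]
  rw [← Nat.mul_mod_mul_left, Nat.mod_add_mod, Nat.add_mod_mod, Nat.mul_add, Nat.add_assoc]

/-- every bit `j < w` of `x` shows up in the turned number -/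
theorem testBit_turn {x w t j k : ℕ} (hj : x.testBit j = true) (h : k + t = j ∨ k + t = j + w) :
    (turn x w t).testBit k = true := by
  show ((x ||| x <<< w) >>> t).testBit k = true
  rw [Nat.testBit_shiftRight, Nat.testBit_or, Nat.testBit_shiftLeft]
  rcases h with h | h
  · rw [show t + k = j by omega, hj, Bool.true_or]
  · rw [show t + k = j + w by omega, Nat.add_sub_cancel, hj]
    simp

theorem urot_sum_shift (D : ℕ) (g : ℕ → ℕ) (k : ℕ) :
    ∑ i ∈ range D, g ((i + k) % D) = ∑ i ∈ range D, g i := by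
  induction k with
  | zero => exact sum_congr rfl fun i hi => by rw [Nat.add_zero, Nat.mod_eq_of_lt (mem_range.1 hi)]
  | succ k ih =>
    have h1 := sum_range_succ' (fun i => g ((i + k) % D)) D
    have h2 := sum_range_succ (fun i => g ((i + k) % D)) D
    rw [Nat.zero_add] at h1
    rw [Nat.add_mod_left] at h2
    have h3 : ∑ i ∈ range D, g ((i + (k + 1)) % D) = ∑ i ∈ range D, g ((i + 1 + k) % D) :=
      sum_congr rfl fun i _ => by rw [show i + (k + 1) = i + 1 + k by omega]
    omega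

/-- reindex by `i ↦ (i + k) % D` -/
theorem tot_rt {D : ℕ} (l : List Rl) (ω : ℕ → ℕ) (k : ℕ) :
    tot D l (rt D k ω) (ones D) = tot D l ω (ones D) := by
  have key : ∀ η : ℕ → ℕ, tot D l η (ones D) = ∑ i ∈ range D, cost D l (rt D i η) := fun η =>
    sum_congr rfl fun i hi => by
      rw [testBit_ones, if_pos (by simpa using hi)]
  rw [key, key, ← urot_sum_shift D (fun i => cost D l (rt D i ω)) k]
  exact sum_congr rfl fun i _ => by rw [rt_rt]

theorem av_turn {D F t : ℕ} {ω : ℕ → ℕ} (hω : ∀ p, ω p < 5) (ht : t < D)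
    (h : Av D (turn F (25 * D) (25 * t)) ω) : Av D F (rt D (D - t) ω) := by
  have _ := hω
  intro p hp
  have hq : (p + 5 * (D - t)) % (5 * D) < 5 * D := Nat.mod_lt _ (by omega)
  have h1 := h _ hq
  simp only [rt]
  by_contra hF
  rw [Bool.not_eq_false] at hF
  rw [testBit_turn hF] at h1
  · exact absurd h1 (by simp)
  · generalize ω ((p + 5 * (D - t)) % (5 * D)) = v
    by_cases hc : 5 * t ≤ p
    · rw [show p + 5 * (D - t) = (p - 5 * t) + 5 * D by omega, Nat.add_mod_right,
        Nat.mod_eq_of_lt (by omega)]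
      left; omega
    · rw [Nat.mod_eq_of_lt (by omega)]
      right; omega

/-- the spokes of `S` outside `turn C D t` are matched with spokes outside `C` by
`i ↦ (i + t) % D` -/
theorem tot_turn {D C t : ℕ} (l : List Rl) (ω : ℕ → ℕ) (ht : t < D) (S : ℕ) :
    tot D l ω S ≤ tot D l ω (S &&& turn C D t) +
      tot D l (rt D (D - t) ω) (Nat.xor (ones D) C) := by
  unfold tot
  rw [← urot_sum_shift D (fun j => if (Nat.xor (ones D) C).testBit j = true then
    cost D l (rt D j (rt D (D - t) ω)) else 0) t, ← sum_add_distrib]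
  refine sum_le_sum fun i hi => ?_
  have hi' := mem_range.1 hi
  have hlt : (i + t) % D < D := Nat.mod_lt _ (by omega)
  have hback : ((i + t) % D + (D - t)) % D = i := by
    rw [Nat.mod_add_mod, show i + t + (D - t) = i + D by omega, Nat.add_mod_right,
      Nat.mod_eq_of_lt hi']
  have hx : (Nat.xor (ones D) C).testBit ((i + t) % D) = !C.testBit ((i + t) % D) := by
    show (ones D ^^^ C).testBit _ = _
    rw [Nat.testBit_xor, testBit_ones, decide_eq_true hlt, Bool.true_xor]
  rw [rt_rt, hback, hx, Nat.testBit_and]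
  cases hC : C.testBit ((i + t) % D)
  · split_ifs <;> simp_all
  · have h1 : (turn C D t).testBit i = true := by
      refine testBit_turn hC ?_
      by_cases hc : i + t < D
      · rw [Nat.mod_eq_of_lt hc]; left; rfl
      · rw [show i + t = (i + t - D) + D by omega, Nat.add_mod_right,
          Nat.mod_eq_of_lt (by omega)]
        right; rfl
    rw [h1, Bool.and_true]
    exact Nat.le_add_right _ _

variable {X : Ctx} {l : List Rl} {W : Set (ℕ → ℕ)} {ω : ℕ → ℕ} {n : ℕ}

theorem cite_ok (hD : 0 < X.D) (hW : Wh X.D W) (hn : Val X l W (n >>> 4)) (hω : ω ∈ W)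
    (hc : X.cap < tot X.D l ω (ones X.D)) (h : Av X.D (fbT X n) ω) (S : ℕ) :
    tot X.D l ω S ≤ tot X.D l ω (S &&& coT X n) + bdT X n := by
  have ht : tn X n < X.D := Nat.mod_lt _ hD
  have e1 : fbT X n = turn (fb X (n >>> 4)) (25 * X.D) (25 * tn X n) := frc_eq _ _
  have e2 : coT X n = turn (co X (n >>> 4)) X.D (tn X n) := frc_eq _ _
  have e3 : bdT X n = bd X (n >>> 4) := (frc_eq _ _).trans (Nat.zero_or _)
  rw [e1] at h
  have h1 := hn _ (hW.rot ω hω (X.D - tn X n)) (by rw [tot_rt]; exact hc)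
    (av_turn (hW.lt ω hω) ht h)
  rw [e2, e3]
  exact (tot_turn l ω ht S).trans (Nat.add_le_add_left h1 _)

theorem urot_tot_zero (D : ℕ) (l : List Rl) (ω : ℕ → ℕ) : tot D l ω 0 = 0 := by
  simp [tot]

/-- `cite_ok` with `S = ones D`; a wheel cannot avoid `ones (25 D)` -/
theorem red_ok (hD : 0 < X.D) (hW : Wh X.D W) (hn : Val X l W (n >>> 4)) (hω : ω ∈ W)
    (hc : X.cap < tot X.D l ω (ones X.D)) : ¬ Av X.D (fbR X n) ω := by
  intro h
  unfold fbR at h
  cases hb : (Nat.beq (coT X n) 0 && Nat.ble (bdT X n) X.cap)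
  · rw [hb, cond_false] at h
    have h0 := h 0 (by omega)
    have h5 := hW.lt ω hω 0
    have h6 : 5 * 0 + ω 0 < Nat.mul 25 X.D := by
      show _ < 25 * X.D
      omega
    rw [testBit_ones, decide_eq_true h6] at h0
    exact absurd h0 (by simp)
  · rw [hb, cond_true] at h
    rw [Bool.and_eq_true, Nat.beq_eq, Nat.ble_eq] at hb
    have h1 := cite_ok hD hW hn hω hc h (ones X.D)
    rw [hb.1, Nat.and_zero, urot_tot_zero] at h1
    omega

theorem tot_zero (D : ℕ) (l : List Rl) (ω : ℕ → ℕ) : tot D l ω 0 = 0 := by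
  simp [tot]

theorem av_of_and {D A F : ℕ} (hA : Fit D A ω) (h : A &&& F = 0) : Av D F ω := by
  intro p hp
  have h1 : (A &&& F).testBit (5 * p + ω p) = false := by rw [h, Nat.zero_testBit]
  rwa [Nat.testBit_and, hA p hp, Bool.true_and] at h1

theorem fit_of_av {D F : ℕ} (hω : ∀ p, ω p < 5) (h : Av D F ω) :
    Fit D (Nat.xor (ones (25 * D)) F) ω := by
  intro p hp
  have h5 := hω p
  show (ones (25 * D) ^^^ F).testBit _ = true
  rw [Nat.testBit_xor, testBit_ones, h p hp, decide_eq_true (by omega), Bool.xor_false]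

theorem urot_testBit_out (n m p : ℕ) {v : ℕ} (hv : v < 5) :
    (out n m).testBit (5 * p + v) = (decide (p = n >>> 10) && !m.testBit v) := by
  show ((31 ^^^ (m &&& 31)) <<< (5 * (n >>> 10))).testBit (5 * p + v) = _
  generalize n >>> 10 = P
  have h31 : ∀ j, Nat.testBit 31 j = decide (j < 5) := fun j => Nat.testBit_two_pow_sub_one 5 j
  rw [Nat.testBit_shiftLeft, Nat.testBit_xor, Nat.testBit_and, h31]
  rcases lt_trichotomy p P with hp | hp | hp
  · rw [decide_eq_false (by omega), decide_eq_false (p := p = P) (by omega)]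
    simp only [Bool.false_and]
  · subst hp
    rw [Nat.add_sub_cancel_left, decide_eq_true hv]
    simp
  · rw [decide_eq_false (p := 5 * p + v - 5 * P < 5) (by omega),
      decide_eq_false (p := p = P) (by omega)]
    simp only [ge_iff_le, Bool.and_false, bne_self_eq_false, Bool.false_and]

theorem urot_fit_out {D A : ℕ} (hω : ∀ p, ω p < 5) (hA : Fit D A ω) {m : ℕ}
    (hm : m.testBit (ω (n >>> 10)) = true) :
    Fit D (A &&& Nat.xor (ones (25 * D)) (out n m)) ω := by
  have h1 : Av D (out n m) ω := fun p _ => by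
    rw [urot_testBit_out n m p (hω p)]
    by_cases hp : p = n >>> 10
    · rw [hp, hm]; simp
    · simp [hp]
  intro p hp
  rw [Nat.testBit_and, hA p hp, fit_of_av hω h1 p hp, Bool.and_self]

/-- a split covers the wheel -/
theorem split_ok (hD : 0 < X.D) (hω : ∀ p, ω p < 5) {A : ℕ} (hA : Fit X.D A ω)
    (h : A &&& cv X n = 0) : n >>> 10 < 5 * X.D ∧
      ((n.testBit (5 + ω (n >>> 10)) = true ∧ Fit X.D (A &&& ta₁ X n) ω) ∨
        (n.testBit (ω (n >>> 10)) = true ∧ Fit X.D (A &&& ta₂ X n) ω)) := by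
  have h1 := av_of_and hA h
  unfold cv at h1
  cases hb : Nat.ble (Nat.mul 5 X.D) (Nat.shiftRight n 10)
  · rw [hb, cond_false] at h1
    have hP : n >>> 10 < 5 * X.D := by
      have : ¬ (5 * X.D ≤ n >>> 10) := fun hle => by
        have h2 : Nat.ble (Nat.mul 5 X.D) (Nat.shiftRight n 10) = true := Nat.ble_eq_true_of_le hle
        rw [hb] at h2
        exact absurd h2 (by simp)
      omega
    refine ⟨hP, ?_⟩
    have h2 := h1 _ hP
    rw [urot_testBit_out _ _ _ (hω _), decide_eq_true rfl, Bool.true_and] at h2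
    have h3 : (n ||| n >>> 5).testBit (ω (n >>> 10)) = true := by
      have : (Nat.lor n (Nat.shiftRight n 5)).testBit (ω (n >>> 10)) = true := by
        rwa [Bool.not_eq_false'] at h2
      exact this
    rw [Nat.testBit_or, Bool.or_eq_true] at h3
    rcases h3 with h3 | h3
    · exact Or.inr ⟨h3, urot_fit_out hω hA h3⟩
    · exact Or.inl ⟨by rwa [Nat.testBit_shiftRight] at h3, urot_fit_out hω hA h3⟩
  · rw [hb, cond_true] at h1
    have h0 := h1 0 (by omega)
    have h5 := hω 0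
    have h6 : 5 * 0 + ω 0 < Nat.mul 25 X.D := by
      show _ < 25 * X.D
      omega
    rw [testBit_ones, decide_eq_true h6] at h0
    exact absurd h0 (by simp)

end Pool.Agent.MP_8c1b0d_co.CT4.UChk

/-! Soundness of the unavoidability checker. -/

namespace Pool.Agent.MP_8c1b0d_co.CT4.UChk

open Chk Finset

variable {X : Ctx} {l : List Rl} {W : Set (ℕ → ℕ)} {ω : ℕ → ℕ}

/-- a reader of proofs that is sound for the wheel `ω` -/
def Good (X : Ctx) (l : List Rl) (ω : ℕ → ℕ) (B : ℕ) (f : Fn) : Prop :=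
  ∀ A Y S U c, Fit X.D A ω → Keep X.D l ω S Y → Low Y → f A Y S U c ≠ 0 →
    tot X.D l ω S + U ≤ B

theorem usnd_rec {b : Bool} {x y : ℕ} (h : (Bool.rec 0 x b : ℕ) = y) (hy : y ≠ 0) :
    b = true ∧ x = y := by
  cases b with
  | false => exact absurd h.symm hy
  | true => exact ⟨rfl, h⟩

theorem usnd_rec' {b : Bool} {x y : ℕ} (h : (Bool.rec x 0 b : ℕ) = y) (hy : y ≠ 0) :
    b = false ∧ x = y := by
  cases b with
  | false => exact ⟨rfl, h⟩
  | true => exact absurd h.symm hy

theorem usnd_beq {x y : ℕ} (h : Nat.beq x y = true) : x = y := Nat.eq_of_beq_eq_true h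

theorem usnd_ble {x y : ℕ} (h : Nat.ble x y = false) : y < x :=
  Nat.lt_of_not_le fun h1 => by rw [Nat.ble_eq_true_of_le h1] at h; exact Bool.noConfusion h

theorem usnd_nxt {g : ℕ → ℕ} {x : ℕ} (h : nxt g x ≠ 0) : x ≠ 0 ∧ g x ≠ 0 := by
  obtain ⟨h1, h2⟩ := usnd_rec' (b := Nat.beq x 0) (x := g x) (y := nxt g x) rfl h
  exact ⟨Nat.ne_of_beq_eq_false h1, h2 ▸ h⟩

theorem usnd_code {m n : ℕ} (h : n < 16 * m) : n >>> 4 < m := by
  rw [Nat.shiftRight_eq_div_pow]
  omega

theorem usnd_spl (hX : Ok X l) (hω : ∀ p, ω p < 5) {B : ℕ} {f : Fn} (hf : Good X l ω B f)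
    {A Y S U c n : ℕ} (hA : Fit X.D A ω) (hK : Keep X.D l ω S Y) (hY : Low Y)
    (h : spl X f A Y S U c n ≠ 0) : tot X.D l ω S + U ≤ B := by
  obtain ⟨h1, h2⟩ := usnd_rec (y := spl X f A Y S U c n) rfl h
  rw [← h2] at h
  obtain ⟨h3, h4⟩ := usnd_nxt h
  obtain ⟨hp, ⟨hb, hF⟩ | ⟨hb, hF⟩⟩ := split_ok (n := n) hX.1 hω hA (usnd_beq h1)
  · exact hf _ _ S U _ hF (hK.and (keep_ty₁ hX hω hp hb S)) (hY.and _) h3
  · exact hf _ _ S U _ hF (hK.and (keep_ty₂ hX hω hp hb S)) (hY.and _) h4

theorem usnd_red (hX : Ok X l) (hW : Wh X.D W) (hω : ω ∈ W)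
    (hc : X.cap < tot X.D l ω (ones X.D)) {m : ℕ} (hm : ∀ k < m, Val X l W k) {A c n : ℕ}
    (hA : Fit X.D A ω) : red X (16 * m) A c n = 0 := by
  by_contra h
  obtain ⟨h1, h2⟩ := usnd_rec' (y := red X (16 * m) A c n) rfl h
  obtain ⟨h3, -⟩ := usnd_rec h2 h
  exact red_ok hX.1 hW (hm _ (usnd_code (usnd_ble h1))) hω hc (av_of_and hA (usnd_beq h3))

theorem usnd_cit (hX : Ok X l) (hW : Wh X.D W) (hω : ω ∈ W)
    (hc : X.cap < tot X.D l ω (ones X.D)) {m B : ℕ} (hm : ∀ k < m, Val X l W k) {f : Fn}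
    (hf : Good X l ω B f) {A Y S U c n : ℕ} (hA : Fit X.D A ω) (hK : Keep X.D l ω S Y)
    (hY : Low Y) (h : cit X (16 * m) f A Y S U c n ≠ 0) : tot X.D l ω S + U ≤ B := by
  obtain ⟨h1, h2⟩ := usnd_rec' (y := cit X (16 * m) f A Y S U c n) rfl h
  obtain ⟨h3, h4⟩ := usnd_rec h2 h
  rw [← h4] at h
  have h5 := cite_ok hX.1 hW (hm _ (usnd_code (usnd_ble h1))) hω hc
    (av_of_and hA (usnd_beq h3)) S
  have h6 : Keep X.D l ω (S &&& coT X n) Y := hK.mono fun i _ hi => by
    rw [Nat.testBit_and, Bool.and_eq_true] at hi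
    exact hi.1
  have h7 : tot X.D l ω (S &&& coT X n) + (U + bdT X n) ≤ B := hf A Y _ _ _ hA h6 hY h
  omega

theorem usnd_s₃ (hX : Ok X l) {lim B : ℕ} {f : Fn} {A Y S U c : ℕ} (hK : Keep X.D l ω S Y)
    (hY : Low Y) (h : s₃ X lim B f A Y S U c ≠ 0) : tot X.D l ω S + U ≤ B := by
  cases S with
  | zero =>
    obtain ⟨h1, -⟩ := usnd_rec (b := Nat.ble U B) (x := Nat.shiftRight c 2)
      (y := s₃ X lim B f A Y 0 U c) rfl h
    rw [tot_zero, Nat.zero_add]
    exact Nat.le_of_ble_eq_true h1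
  | succ n =>
    obtain ⟨h1, -⟩ := usnd_rec (b := Nat.ble (Nat.add U (ev X Y (n + 1))) B)
      (x := Nat.shiftRight c 2) (y := s₃ X lim B f A Y (n + 1) U c) rfl h
    have h2 : U + ev X Y (n + 1) ≤ B := Nat.le_of_ble_eq_true h1
    have h3 := ev_ge hX hK hY
    omega

theorem usnd_step (X : Ctx) (lim B : ℕ) (f : Fn) (A Y S U c : ℕ) :
    step X lim B f A Y S U c = s₀ X lim B f A Y S U c ∨
      step X lim B f A Y S U c = s₁ X lim B f A Y S U c ∨
      step X lim B f A Y S U c = s₂ X lim B f A Y S U c ∨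
      step X lim B f A Y S U c = s₃ X lim B f A Y S U c := by
  unfold step
  generalize Nat.land c 3 = t
  rcases t with _ | _ | _ | t
  · exact Or.inl rfl
  · exact Or.inr (Or.inl rfl)
  · exact Or.inr (Or.inr (Or.inl rfl))
  · exact Or.inr (Or.inr (Or.inr rfl))

/-- Four cases for `c &&& 3` (unfold `step` by `rfl` lemmas for `0`, `1`, `2`, `n + 3`, use
`frc_eq`). Split: `split_ok`, `keep_ty₁`, `keep_ty₂`; a nonzero result of `nxt g x` gives `x ≠ 0` and
`g x ≠ 0`. Codes `n < 16 * m` have `n >>> 4 < m`. -/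
theorem Good.step (hX : Ok X l) (hW : Wh X.D W) (hω : ω ∈ W)
    (hc : X.cap < tot X.D l ω (ones X.D)) {m B : ℕ} (hm : ∀ k < m, Val X l W k) {f : Fn}
    (hf : Good X l ω B f) : Good X l ω B (step X (16 * m) B f) := by
  intro A Y S U c hA hK hY h
  rcases usnd_step X (16 * m) B f A Y S U c with e | e | e | e <;> rw [e] at h
  · rw [s₀, frc_eq] at h
    exact usnd_spl hX (hW.lt ω hω) hf hA hK hY h
  · rw [s₁, frc_eq] at h
    exact absurd (usnd_red hX hW hω hc hm hA) h
  · rw [s₂, frc_eq] at h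
    exact usnd_cit hX hW hω hc hm hf hA hK hY h
  · exact usnd_s₃ hX hK hY h

theorem good_chk (hX : Ok X l) (hW : Wh X.D W) (hω : ω ∈ W)
    (hc : X.cap < tot X.D l ω (ones X.D)) {m B : ℕ} (hm : ∀ k < m, Val X l W k) (fuel : ℕ) :
    Good X l ω B (chk X (16 * m) B fuel) := by
  induction fuel with
  | zero => exact fun _ _ _ _ _ _ _ _ h => absurd rfl h
  | succ k ih => exact Good.step hX hW hω hc hm ih

theorem one_sound (hX : Ok X l) (hW : Wh X.D W) {n c : ℕ} (hn : ∀ k < n, Val X l W k)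
    (h : one X c n ≠ 0) : Val X l W n := by
  intro ω hω hc ha
  rw [one, frc_eq] at h
  have hA := fit_of_av (hW.lt ω hω) ha
  obtain ⟨h1, h2⟩ := yini_ok hX (hW.lt ω hω) hA (Nat.xor (ones X.D) (co X n))
  exact good_chk hX hW hω hc hn 200 _ _ _ 0 c hA h1 h2 h

theorem many_sound (hX : Ok X l) (hW : Wh X.D W) (cs : List ℕ) {n : ℕ} (h : many X cs n = true)
    (hn : ∀ k < n, Val X l W k) : ∀ k < n + cs.length, Val X l W k := by
  induction cs generalizing n with
  | nil => exact hn
  | cons c cs ih =>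
    have h0 : (Bool.rec (many X cs (n + 1)) false (Nat.beq (frc n (one X c)) 0) : Bool) = true := h
    cases hb : Nat.beq (frc n (one X c)) 0 with
    | true => rw [hb] at h0; exact Bool.noConfusion h0
    | false =>
      rw [hb] at h0
      have h1 : one X c n ≠ 0 := by
        have := Nat.ne_of_beq_eq_false hb
        rwa [frc_eq] at this
      intro k hk
      refine ih (n := n + 1) h0 (fun j hj => ?_) k (by rw [List.length_cons] at hk; omega)
      rcases Nat.lt_succ_iff_lt_or_eq.1 hj with h2 | rfl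
      · exact hn j h2
      · exact one_sound hX hW hn h1

/-- an entry without conditions that bounds the whole cost -/
theorem Val.top {n : ℕ} (h : Val X l W n) (h1 : fb X n = 0) (h2 : co X n = 0)
    (h3 : bd X n ≤ X.cap) (hω : ω ∈ W) : tot X.D l ω (ones X.D) ≤ X.cap := by
  by_contra hc
  have h4 := h ω hω (Nat.lt_of_not_le hc) (fun p _ => by rw [h1, Nat.zero_testBit])
  rw [h2, Nat.xor_eq, Nat.xor_zero] at h4
  omega

/-- an entry about spoke zero with value four; use `rt D 0 ω p = ω p` for `p < 5 D`, so that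
`cost D l (rt D 0 ω) ≤ tot D l ω (ones D)` -/
theorem Val.edge {n : ℕ} (hD : 0 < X.D) (h : Val X l W n) (h1 : fb X n = 15)
    (h2 : Nat.xor (ones X.D) (co X n) = 1) (h3 : bd X n ≤ X.cap) (hω : ω ∈ W) (h4 : ω 0 = 4) :
    cost X.D l (rt X.D 0 ω) ≤ X.cap := by
  have h0 : 0 ∈ range X.D := mem_range.2 hD
  by_cases hc : X.cap < tot X.D l ω (ones X.D)
  · have h5 : Av X.D (fb X n) ω := fun p _ => by
      rw [h1]
      refine Nat.testBit_lt_two_pow (lt_of_lt_of_le (by norm_num : 15 < 2 ^ 4)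
        (Nat.pow_le_pow_right (by norm_num) ?_))
      rcases Nat.eq_zero_or_pos p with rfl | hp <;> omega
    have h6 := h ω hω hc h5
    rw [h2] at h6
    refine le_trans ?_ (h6.trans h3)
    have h7 := single_le_sum (f := fun i => if Nat.testBit 1 i = true then
      cost X.D l (rt X.D i ω) else 0) (fun _ _ => Nat.zero_le _) h0
    rwa [if_pos (by decide)] at h7
  · refine le_trans ?_ (Nat.le_of_not_lt hc)
    have h7 := single_le_sum (f := fun i => if (ones X.D).testBit i = true then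
      cost X.D l (rt X.D i ω) else 0) (fun _ _ => Nat.zero_le _) h0
    rwa [if_pos (by rw [testBit_ones]; exact decide_eq_true hD)] at h7

/-- an entry whose mask no wheel fits -/
theorem val_of_unfit (hW : Wh X.D W) {n : ℕ}
    (h : ∀ ω ∈ W, ¬ Fit X.D (Nat.xor (ones (25 * X.D)) (fb X n)) ω) : Val X l W n :=
  fun ω hω _ ha => absurd (fit_of_av (hW.lt ω hω) ha) (h ω hω)

end Pool.Agent.MP_8c1b0d_co.CT4.UChk
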