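import Pool.Agent.MP_8c1b0d_co.CT4.PD
import Pool.Agent.MP_8c1b0d_co.CT4.PE
import Pool.Agent.MP_8c1b0d_co.CT4.PF
import Pool.Agent.MP_8c1b0d_co.CT4.T13
import Pool.Agent.MP_8c1b0d_co.CT4.T14

set_option linter.unusedSectionVars false
set_option linter.unusedVariables false
set_option linter.unusedSimpArgs false

/-! Discharging rules: flows, the final argument, rotation and reflection. -/


namespace Pool.Agent.MP_8c1b0d_co.CT4.Cart

open Equiv Finset Function

/-- patterns with weights -/
abbrev Rules : Type := List (Pattern × ℕ)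

/-- the five bits of `A` that start at `q` -/
def fld (A q : ℕ) : ℕ := Nat.land (Nat.shiftRight A q) 31

/-- the mirror image of the fan position `t` of spoke `j` -/
def fan (B j t : ℕ) : ℕ := cnd (Nat.ble (Nat.add t 4) (ex B 0 j))
  (fld B (Nat.add (Nat.mul 25 j) (Nat.mul 5 (Nat.sub (Nat.sub (ex B 0 j) 2) t)))) 31

/-- the mirror image of the block of spoke `j` -/
def blk (Δ B j : ℕ) : ℕ := Nat.lor (Nat.lor (Nat.lor (Nat.lor (fld B (Nat.mul 25 j))
  (Nat.shiftLeft (fld B (Nat.add (Nat.mul 25 (sc Δ j)) 5)) 5)) (Nat.shiftLeft (fan B j 2) 10))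
  (Nat.shiftLeft (fan B j 3) 15)) (Nat.shiftLeft (fan B j 4) 20)

/-- the first `n` blocks of the mirror image of a mask -/
noncomputable def reflN (Δ B n : ℕ) : ℕ := Nat.rec 0 (fun i acc => Nat.lor acc
  (Nat.shiftLeft (blk Δ B (Nat.mod (Nat.sub Δ i) Δ)) (Nat.mul 25 i))) n

/-- the mirror image of a mask -/
noncomputable def refl (Δ B : ℕ) : ℕ := reflN Δ B Δ

/-- a list of rules together with the mirror images -/
def sym (B : Rules) : Rules := B ++ B.map fun r => (r.1.neg, r.2)

/-- every rule asks for a source of size at most eight -/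
def smallB (R : Rules) : Bool :=
  R.all fun r => r.1.any fun c => c.1.isEmpty && Nat.blt c.2 512

variable {D : Type} [Fintype D] (G : Map D)

open scoped Classical in
/-- what the face of `x` sends along `x` -/
noncomputable def outw (R : Rules) (x : D) : ℕ :=
  (R.map fun r => if G.Holds r.1 x then r.2 else 0).sum

/-- what the face of `x` gains along `x` -/
noncomputable def net (R : Rules) (x : D) : ℤ := (outw G R (G.e x) : ℤ) - outw G R x

variable {G} {Δ M : ℕ} {d : D} {R : Rules}

open scoped Classical in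
/-- upper bound for the flow along a symbolic dart -/
theorem outw_le (hG : G.MinCex) (hΔ : G.deg d = Δ) (h12 : Δ ≤ 12) (hM : Fits G Δ M d) (b : ℕ)
    {i : ℕ} (hi : i < Δ) (u : ℕ) : outw G R (dart G d b i u) ≤
      (R.map fun r => if Fits G Δ (comp false Δ b i u r.1 M) d then r.2 else 0).sum := by
  refine List.sum_le_sum fun r _ => ?_
  split_ifs with h1 h2
  · exact le_rfl
  · exact absurd (comp_nec hG.cubic (Map.deg_ge_five hG) hΔ h12 hi _ M hM h1) h2
  all_goals exact Nat.zero_le _

open scoped Classical in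
/-- lower bound for the flow along a symbolic dart -/
theorem le_outw (hG : G.MinCex) (hΔ : G.deg d = Δ) (h12 : Δ ≤ 12) (M b : ℕ)
    {i : ℕ} (hi : i < Δ) (u : ℕ) :
    (R.map fun r => if Fits G Δ (comp true Δ b i u r.1 M) d then r.2 else 0).sum ≤
      outw G R (dart G d b i u) := by
  refine List.sum_le_sum fun r _ => ?_
  split_ifs with h1 h2
  · exact le_rfl
  · exact absurd (comp_suff hG.cubic (Map.deg_ge_five hG) hΔ h12 hi _ M h1).2 h2
  all_goals exact Nat.zero_le _

theorem net_dart (i : ℕ) : net G R ((G.f ^ i) d) =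
    (outw G R (dart G d 0 i 16) : ℤ) - outw G R (dart G d 5 0 (16 + i)) := by
  rw [dart_in, dart_out, net]

theorem outw_big (h : smallB R = true) {x : D} (hx : 9 ≤ G.deg x) : outw G R x = 0 := by
  refine List.sum_eq_zero fun a ha => ?_
  obtain ⟨r, hr, rfl⟩ := List.mem_map.1 ha
  refine if_neg fun k => ?_
  obtain ⟨⟨w, m⟩, hc, h2⟩ := List.any_eq_true.1 (List.all_eq_true.1 h r hr)
  simp only [Bool.and_eq_true, List.isEmpty_iff, Nat.blt_eq] at h2
  obtain ⟨rfl, h2⟩ := h2
  have h3 : m.testBit (min (G.deg x) 12) = true := k _ hc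
  rw [Nat.testBit_lt_two_pow (h2.trans_le (Nat.pow_le_pow_right (n := 2) (i := 9) (by norm_num)
    (by omega)))] at h3
  exact absurd h3 Bool.false_ne_true

/-- The discharging argument: no face of size `5 … 11` ends positive, and a face of size at most
eight sends at most `c / 2` to a face of size at least nine. -/
theorem glue (R : Rules) {c : ℤ} (hc : 0 < c) (small : smallB R = true)
    (hub : ∀ Δ : ℕ, 5 ≤ Δ → Δ ≤ 11 → ∀ (D : Type) [Fintype D] (G : Map D), G.MinCex → ∀ d,
      G.deg d = Δ → ∑ i ∈ range Δ, net G R ((G.f ^ i) d) ≤ c * (Δ - 6))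
    (edge : ∀ Δ : ℕ, 5 ≤ Δ → Δ ≤ 8 → ∀ (D : Type) [Fintype D] (G : Map D), G.MinCex → ∀ d,
      G.deg d = Δ → Fits G Δ (cut (full Δ) 0 16) d → 2 * -net G R d ≤ c)
    (D : Type) [Fintype D] (G : Map D) : ¬ G.MinCex := by
  intro hG
  have := hG.nonempty
  obtain ⟨d, hd⟩ := Map.exists_pos hG.cubic hG.planar hc fun x => (outw G R x : ℤ)
  have h5 := Map.deg_ge_five hG
  rcases le_or_gt (G.deg d) 11 with h | h
  · have := hub _ (h5 d) h D G hG d rfl
    simp only [net] at this
    linarith
  · have k : ∀ x, 9 ≤ G.deg x → 2 * net G R x ≤ c := fun x hx => by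
      rcases le_or_gt (G.deg (G.e x)) 8 with h8 | h8
      · have h0 := h5 (G.e x)
        have := edge _ h0 h8 D G hG (G.e x) rfl ((fits_cut (p0 := 0) (by omega) (by norm_num)).2
          ⟨fits_full, by
            have e : base G (G.e x) 0 0 = x := by simp [base, spk, G.ee]
            rw [om, e, min_eq_right hx]
            rfl⟩)
        simp only [net, G.ee] at this ⊢
        linarith
      · simp only [net, outw_big small h8, outw_big small hx]
        omega
    have k2 : ∑ i ∈ range (G.deg d), 2 * net G R ((G.f ^ i) d) ≤ (G.deg d : ℤ) * c := by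
      simpa using sum_le_card_nsmul (range (G.deg d)) _ c fun i _ => k ((G.f ^ i) d) (by
        rw [← zpow_natCast, Map.deg_f]; omega)
    rw [← mul_sum] at k2
    simp only [net] at k2
    have h12 : (12 : ℤ) ≤ G.deg d := by exact_mod_cast h
    nlinarith

/-! ### Rotation and reflection of sums -/

theorem pow_mod (hΔ : G.deg d = Δ) (i : ℕ) : (G.f ^ (i % Δ)) d = (G.f ^ i) d :=
  hΔ ▸ iterate_mod_minimalPeriod_eq

theorem pow_pow_apply (i k : ℕ) : (G.f ^ i) ((G.f ^ k) d) = (G.f ^ (i + k)) d := by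
  rw [pow_add, Perm.mul_apply]

theorem deg_pow (k : ℕ) : G.deg ((G.f ^ k) d) = G.deg d := by rw [← zpow_natCast, Map.deg_f]

/-- a periodic sum can be shifted -/
theorem sum_shift {F : ℕ → ℤ} (h : ∀ i, F (i + Δ) = F i) (k : ℕ) :
    ∑ i ∈ range Δ, F (i + k) = ∑ i ∈ range Δ, F i := by
  induction k with
  | zero => rfl
  | succ k ih =>
    have h1 := sum_range_succ (fun i => F (i + k)) Δ
    rw [sum_range_succ', add_comm Δ, h, zero_add, ih] at h1
    rw [← add_right_cancel h1]
    exact sum_congr rfl fun i _ => by rw [add_right_comm, add_assoc]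

theorem sum_rot (hΔ : G.deg d = Δ) (F : D → ℤ) (k : ℕ) :
    ∑ i ∈ range Δ, F ((G.f ^ i) ((G.f ^ k) d)) = ∑ i ∈ range Δ, F ((G.f ^ i) d) := by
  simp only [pow_pow_apply]
  exact sum_shift (F := fun i => F ((G.f ^ i) d)) (fun i => by
    rw [← pow_mod hΔ, Nat.add_mod_right, pow_mod hΔ]) k

theorem mirror_pow (hΔ : G.deg d = Δ) {i : ℕ} (hi : i ≤ Δ) :
    (G.mirror.f ^ i) d = (G.f ^ (Δ - i)) d := by
  rw [G.mirror_f, inv_pow, ← zpow_natCast, ← zpow_neg, ← zpow_natCast]
  exact pow_congr (-1) (by rw [hΔ]; omega)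

theorem sum_mirror (hΔ : G.deg d = Δ) (F : D → ℤ) :
    ∑ i ∈ range Δ, F ((G.mirror.f ^ i) d) = ∑ i ∈ range Δ, F ((G.f ^ i) d) := by
  rw [← sum_rot hΔ F 1, ← sum_range_reflect]
  refine sum_congr rfl fun i hi => ?_
  have := mem_range.1 hi
  rw [mirror_pow hΔ (by omega), pow_pow_apply]
  congr 3
  omega

theorem deg_mirror (x : D) : G.mirror.deg x = G.deg x := by
  unfold Map.deg
  rw [G.mirror_f]
  exact MulAction.period_inv G.f x

theorem holds_mirror (p : Pattern) (x : D) : G.mirror.Holds p x ↔ G.Holds p.neg x := by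
  have h1 : ∀ w, G.mirror.go x w = G.go x (w.map Neg.neg) := fun w => by
    unfold Map.go
    rw [List.foldl_map, G.mirror_f]
    simp only [inv_zpow, zpow_neg]
    rfl
  simp only [Map.Holds, Pattern.neg, List.forall_mem_map, h1, deg_mirror]

theorem neg_neg_pat (p : Pattern) : p.neg.neg = p := by
  simp [Pattern.neg, Function.comp_def]

theorem outw_mirror (B : Rules) (x : D) : outw G.mirror (sym B) x = outw G (sym B) x := by
  classical
  simp only [outw, sym, List.map_append, List.sum_append, List.map_map, Function.comp_def]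
  rw [Nat.add_comm]
  congr 2 <;> refine List.map_congr_left fun r _ => if_congr ?_ rfl rfl
  · exact (holds_mirror _ _).trans (by rw [neg_neg_pat])
  · exact holds_mirror _ _

theorem net_mirror (B : Rules) (x : D) : net G.mirror (sym B) x = net G (sym B) x := by
  simp only [net, outw_mirror]
  rfl

theorem spk_mirror (x : D) (t : ℤ) : spk G.mirror x t = spk G x (-t) := by
  rw [spk, spk, G.mirror_f, inv_zpow, zpow_neg]
  rfl

theorem testBit_fld (A q : ℕ) {v : ℕ} (hv : v < 5) : (fld A q).testBit v = A.testBit (q + v) := by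
  have : (31 : ℕ).testBit v = true := by interval_cases v <;> rfl
  show ((A >>> q) &&& 31).testBit v = _
  rw [Nat.testBit_and, Nat.testBit_shiftRight, this, Bool.and_true]

theorem ex_le (M b i : ℕ) : ex M b i ≤ 8 := by
  have key : ∀ F < 32, (34360198736 >>> (4 * F)) &&& 15 ≤ 8 := by decide +kernel
  exact key _ (Nat.lt_succ_of_le Nat.and_le_right)

theorem testBit_reflN (Δ B : ℕ) {i j n : ℕ} (hi : i < n)
    (h : (blk Δ B ((Δ - i) % Δ)).testBit j = true) : (reflN Δ B n).testBit (25 * i + j) = true := by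
  induction n with
  | zero => omega
  | succ n ih =>
    show (reflN Δ B n ||| blk Δ B ((Δ - n) % Δ) <<< (25 * n)).testBit _ = true
    rw [Nat.testBit_or, Bool.or_eq_true]
    rcases Nat.lt_succ_iff_lt_or_eq.1 hi with h1 | rfl
    · exact .inl (ih h1)
    · exact .inr (by simpa using h)

/-- reflection -/
theorem Fits.refl (hc : G.Cubic) (h5 : ∀ x, 5 ≤ G.deg x) (hΔ : G.deg d = Δ) {B : ℕ}
    (h : Fits G Δ B d) : Fits G.mirror Δ (refl Δ B) d := by
  intro p hp
  obtain ⟨i, b, hb, rfl⟩ : ∃ i b, b < 5 ∧ p = 5 * i + b := ⟨p / 5, p % 5, by omega, by omega⟩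
  have hv := om_lt (G := G.mirror) (d := d) (5 * i + b)
  have hj : (Δ - i) % Δ < Δ := Nat.mod_lt _ (by omega)
  have e0 : spk G.mirror d i = spk G d ((Δ - i) % Δ : ℕ) := by
    rw [spk, spk, zpow_natCast, zpow_natCast, pow_mod hΔ, mirror_pow hΔ (by omega)]
    rfl
  rw [show 5 * (5 * i + b) + om G.mirror d (5 * i + b) =
    25 * i + (5 * b + om G.mirror d (5 * i + b)) by ring]
  refine testBit_reflN Δ B (by omega) ?_
  generalize (Δ - i) % Δ = j at hj e0 ⊢
  have use : ∀ b' j', b' < 5 → j' < Δ → G.deg (base G.mirror d b i) = G.deg (base G d b' j') →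
      (fld B (25 * j' + 5 * b')).testBit (om G.mirror d (5 * i + b)) = true := fun b' j' k1 k2 k3 => by
    have := h (5 * j' + b') (by omega)
    rw [testBit_fld _ _ hv, om_pos hb, deg_mirror, k3, ← om_pos k1, ← this]
    congr 1
    ring
  have fn : ∀ t, 2 ≤ t → t = b → (fan B j t).testBit (om G.mirror d (5 * i + b)) = true := by
    rintro t k1 rfl
    simp only [fan, cnd_eq, Nat.ble_eq, Nat.add_eq, Nat.sub_eq, Nat.mul_eq]
    split_ifs with k2
    · have k3 := ex_le B 0 j
      have k4 : G.deg (spk G d j) = ex B 0 j := ex_ok h5 h (b := 0) (by omega) hj (by omega)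
      refine use _ _ (by omega) hj ?_
      rw [base, base, if_neg (by omega), if_neg (by omega), if_neg (by omega), if_neg (by omega), e0,
        spk_mirror, spk_congr (t := (ex B 0 j - 2 - t + 1 : ℕ)) (-1) (by rw [k4]; omega)]
    · generalize om G.mirror d (5 * i + t) = v at hv
      interval_cases v <;> rfl
  have e1 : ∀ q, (blk Δ B j).testBit q = ((fld B (25 * j)).testBit q ||
      (fld B (25 * sc Δ j + 5) <<< 5).testBit q || (fan B j 2 <<< 10).testBit q ||
      (fan B j 3 <<< 15).testBit q || (fan B j 4 <<< 20).testBit q) := fun q => by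
    simp only [← Nat.testBit_or]
    rfl
  simp only [e1, Bool.or_eq_true, Nat.testBit_shiftLeft, Bool.and_eq_true, decide_eq_true_eq]
  interval_cases b
  · refine .inl (.inl (.inl (.inl ?_)))
    simpa using use 0 j (by omega) hj (by simp [base, e0])
  · refine .inl (.inl (.inl (.inr ⟨by omega, ?_⟩)))
    simpa using use 1 (sc Δ j) (by omega) (sc_ok hΔ j).1 (by
      have := hat_eq hc d j
      simp only [base, e0, spk_mirror, (sc_ok hΔ j).2]
      norm_num
      rw [this, Map.deg_f])
  · exact .inl (.inl (.inr ⟨by omega, by simpa using fn 2 le_rfl rfl⟩))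
  · exact .inl (.inr ⟨by omega, by simpa using fn 3 (by omega) rfl⟩)
  · exact .inr ⟨by omega, by simpa using fn 4 (by omega) rfl⟩

/-- a rotation invariant bound may be proved at any rotation -/
theorem total_rot (hΔ : G.deg d = Δ) (k : ℕ) :
    ∑ i ∈ range Δ, net G R ((G.f ^ i) ((G.f ^ k) d)) = ∑ i ∈ range Δ, net G R ((G.f ^ i) d) :=
  sum_rot hΔ (net G R) k

theorem total_mirror (hΔ : G.deg d = Δ) (B : Rules) :
    ∑ i ∈ range Δ, net G.mirror (sym B) ((G.mirror.f ^ i) d) =
      ∑ i ∈ range Δ, net G (sym B) ((G.f ^ i) d) := by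
  simp only [net_mirror]
  exact sum_mirror hΔ (net G (sym B))

end Pool.Agent.MP_8c1b0d_co.CT4.Cart

/-! From the unavoidability checker to the four colour theorem. -/


namespace Pool.Agent.MP_8c1b0d_co.CT4.UChk

open Chk Cart Finset

/-! ### Executable part -/

/-- entry `k` is the placement `c` (mirror bit, three bits `b`, four bits `i`, offset `u`) of the
pattern `p` or of its mirror image `q` -/
noncomputable def plOk (X : Ctx) (p q : Pattern) (c k : ℕ) : Bool :=
  Bool.rec false (Nat.beq (comp true X.D (Nat.land (Nat.shiftRight c 1) 7)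
    (Nat.land (Nat.shiftRight c 4) 15) (Nat.shiftRight c 8) (Bool.rec q p (Nat.beq (Nat.land c 1) 0))
    (Nat.xor (ones (Nat.mul 25 X.D)) (fb X k))) (Nat.xor (ones (Nat.mul 25 X.D)) (fb X k)))
    (Nat.blt (Nat.land (Nat.shiftRight c 4) 15) X.D)

noncomputable def plsOk (X : Ctx) (p q : Pattern) (cs : List ℕ) : ℕ → Bool :=
  List.rec (fun _ => true) (fun c _ ih k => Bool.rec false (ih (Nat.succ k)) (plOk X p q c k)) cs

/-- the entries `n`, `n + 1`, … are the listed placements of the listed patterns -/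
noncomputable def baseOk (X : Ctx) (L : List (Pattern × List ℕ)) : ℕ → Bool :=
  List.rec (fun _ => true) (fun a _ ih n => List.rec (ih n) (fun _ _ _ =>
    Bool.rec false (ih (Nat.add n a.2.length))
      (fP a.1 fun p => fP p.neg fun q => plsOk X p q a.2 n)) a.2) L

/-- the number of placements -/
def cnt (L : List (Pattern × List ℕ)) : ℕ := (L.map fun a => a.2.length).sum

/-- the first `n` fields of `M` are not empty -/
noncomputable def live (M n : ℕ) : Bool :=
  Nat.rec true (fun p ih => Bool.rec ih false (Nat.beq (Cart.fld M (Nat.mul 5 p)) 0)) n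

/-- the rules with codes `P` read at the base dart `b` -/
noncomputable def mk (s : Bool) (D b : ℕ) (P : List (ℕ × ℕ)) : List Rl :=
  (P.map fun r => (⟨comp s D b 0 16 (rulePat r.1) (full D), r.2, s⟩ : Rl)).filter
    fun a => live a.M (Nat.mul 5 D)

/-- rules into the hub, then rules out of the hub -/
noncomputable def mk0 (D : ℕ) (P : List (ℕ × ℕ)) : List Rl := mk false D 0 P ++ mk true D 5 P

/-- rules out of the hub, counted positively -/
noncomputable def mk1 (D : ℕ) (P : List (ℕ × ℕ)) : List Rl := mk false D 5 P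

/-- equality of lists of rules -/
noncomputable def same (l : List Rl) : List Rl → Bool :=
  List.rec (fun l' => l'.isEmpty) (fun a _ ih l' => List.casesOn l' false fun a' t =>
    Nat.beq a.M a'.M && Nat.beq a.w a'.w && a.neg == a'.neg && ih t) l

/-- the weight of the rules that count when they fail -/
def wneg (l : List Rl) : ℕ := (l.map fun a => cond a.neg a.w 0).sum

/-- entry `n` bounds the charge of the hub -/
noncomputable def topB (X : Ctx) (l : List Rl) (Q n : ℕ) : Bool :=
  Nat.beq (fb X n) 0 && Nat.beq (co X n) 0 && Nat.ble (bd X n) X.cap &&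
    Nat.ble (X.cap + 60 * Q) (10 * Q * X.D + X.D * wneg l)

/-- entry `n` bounds the flow into a big spoke -/
noncomputable def edgeB (X : Ctx) (Q n : ℕ) : Bool :=
  Nat.beq (fb X n) 15 && Nat.beq (Nat.xor (ones X.D) (co X n)) 1 && Nat.ble (bd X n) X.cap &&
    Nat.ble X.cap (5 * Q)

/-- the rules with codes `P` -/
noncomputable def rules (P : List (ℕ × ℕ)) : Rules := P.map fun r => (rulePat r.1, r.2)

noncomputable def idx (l : List ℕ) (x : ℕ) : ℕ :=
  List.rec 0 (fun a _ ih => Bool.rec (Nat.succ ih) 0 (Nat.beq a x)) l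

noncomputable def len (l : List ℕ) : ℕ := List.rec 0 (fun _ _ ih => Nat.succ ih) l

/-- the parent of a kernel face with neighbour list `row` -/
noncomputable def par (C : Conf) (row : List ℕ) : ℕ := Nat.sub (List.rec 0 (fun a _ _ => a) row) C.r

noncomputable def pathF (C : Conf) (w p : ℕ) (rp : List ℕ) : List ℤ :=
  Bool.rec (Bool.rec [Int.ofNat (idx (nth [] C.nb (par C rp)) (Nat.add C.r p)),
    Int.ofNat (idx rp (Nat.add C.r w))] [Int.ofNat (idx rp (Nat.add C.r w))] (Nat.beq p 0)) []
    (Nat.beq w 0)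

noncomputable def patA (C : Conf) (l : List (List ℕ)) : ℕ → Pattern :=
  List.rec (fun _ => []) (fun row _ ih w => (pathF C w (par C row) (nth [] C.nb (par C row)),
    Nat.shiftLeft 1 (len row)) :: ih (Nat.succ w)) l

/-- the pattern of a configuration, in a form that is quick to evaluate -/
noncomputable def patF (C : Conf) : Pattern := patA C C.nb 0

theorem beq_no {a b : ℕ} (h : a ≠ b) : Nat.beq a b = false :=
  Bool.eq_false_iff.2 fun e => h (Nat.eq_of_beq_eq_true e)

theorem idx_eq (l : List ℕ) (x : ℕ) : idx l x = l.idxOf x := by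
  induction l with
  | nil => rfl
  | cons a l ih =>
    show (Bool.rec (idx l x + 1) 0 (Nat.beq a x) : ℕ) = _
    rw [List.idxOf_cons, ih]
    by_cases h : a = x
    · simp [h]
    · rw [beq_no h, beq_false_of_ne h]
      rfl

theorem len_eq (l : List ℕ) : len l = l.length := by
  induction l with
  | nil => rfl
  | cons a l ih => exact congrArg Nat.succ ih

theorem par_eq (C : Conf) (w : ℕ) : par C (C.nb.getD w []) = C.far w 0 := by
  rw [Conf.far, Conf.N, Nat.zero_mod]
  cases C.nb.getD w [] <;> rfl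

theorem patA_eq (C : Conf) (l : List (List ℕ)) : ∀ w, (∀ i, l.getD i [] = C.nb.getD (w + i) []) →
    patA C l w = (List.range' w l.length).map fun w => (C.path w, 2 ^ C.γ w) := by
  induction l with
  | nil => exact fun _ _ => rfl
  | cons row l ih =>
    intro w h
    obtain rfl : row = C.nb.getD w [] := h 0
    have e := ih (w + 1) fun i => (h (i + 1)).trans (by rw [add_assoc, add_comm 1])
    rw [List.length_cons, List.range'_succ, List.map_cons, ← e]
    refine congrArg (· :: _) (Prod.ext ?_ ((Nat.one_shiftLeft _).trans (by rw [len_eq]; rfl)))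
    simp only [pathF, par_eq, nth_eq, idx_eq, Conf.path, Conf.rev]
    by_cases h1 : w = 0
    · subst h1
      rfl
    · rw [beq_no h1, if_neg h1]
      by_cases h2 : C.far w 0 = 0
      · rw [if_pos h2, h2]
        rfl
      · rw [beq_no h2, if_neg h2]
        rfl

theorem patF_eq (C : Conf) : patF C = C.pattern := by
  rw [patF, patA_eq C _ 0 fun i => by rw [zero_add], Conf.pattern, List.range_eq_range']
  rfl

/-! ### Meaning -/

/-- the wheels of the faces of size `Δ` -/
def whs {D : Type} (G : Map D) (Δ : ℕ) : Set (ℕ → ℕ) := {ω | ∃ d, G.deg d = Δ ∧ ω = om G d}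

/-- the entries below `n` hold in every minimal counterexample -/
def Upto (X : Ctx) (l : List Rl) (n : ℕ) : Prop :=
  ∀ (D : Type) [Fintype D] (G : Map D), G.MinCex → ∀ k < n, Val X l (whs G X.D) k

/-- faces of size `Δ` do not end positive -/
def Hub (P : List (ℕ × ℕ)) (Q Δ : ℕ) : Prop :=
  ∀ (D : Type) [Fintype D] (G : Map D), G.MinCex → ∀ d, G.deg d = Δ →
    ∑ i ∈ range Δ, Cart.net G (rules P) ((G.f ^ i) d) ≤ (10 * Q : ℕ) * ((Δ : ℤ) - 6)

/-- faces of size `Δ` send at most `5 Q` to a big face -/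
def Edge (P : List (ℕ × ℕ)) (Q Δ : ℕ) : Prop :=
  ∀ (D : Type) [Fintype D] (G : Map D), G.MinCex → ∀ d, G.deg d = Δ →
    Fits G Δ (cut (full Δ) 0 16) d → 2 * -Cart.net G (rules P) d ≤ (10 * Q : ℕ)

section
variable {D : Type} [Fintype D] {G : Map D} {Δ : ℕ} {d : D} {X : Ctx} {l : List Rl}

theorem om_pow (h : G.deg d = Δ) (k : ℕ) : om G ((G.f ^ k) d) = rt Δ k (om G d) :=
  funext fun p => om_rot h k p

theorem wh_whs (G : Map D) (Δ : ℕ) : Wh Δ (whs G Δ) where
  lt := by
    rintro _ ⟨d, -, rfl⟩ p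
    exact om_lt p
  rot := by
    rintro _ ⟨d, h, rfl⟩ k
    exact ⟨_, (deg_pow k).trans h, (om_pow h k).symm⟩

theorem plOk_sound (hG : G.MinCex) (h12 : X.D ≤ 12) {p q : Pattern} (hp : p.Excluded)
    (hq : q.Excluded) {c k : ℕ} (h : plOk X p q c k = true) : Val X l (whs G X.D) k := by
  refine val_of_unfit (wh_whs G _) ?_
  rintro _ ⟨d, hd, rfl⟩ hf
  unfold plOk at h
  cases e : Nat.blt (Nat.land (Nat.shiftRight c 4) 15) X.D <;> rw [e] at h
  · exact Bool.false_ne_true h
  · refine not_fits_comp (pat := Bool.rec q p (Nat.beq (Nat.land c 1) 0)) ?_ hG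
      (Map.deg_ge_five hG) hd h12 _ (by simpa using e) _ _ (Nat.eq_of_beq_eq_true h ▸ hf)
    cases Nat.beq (Nat.land c 1) 0
    exacts [hq, hp]

theorem plsOk_sound (hG : G.MinCex) (h12 : X.D ≤ 12) {p q : Pattern} (hp : p.Excluded)
    (hq : q.Excluded) (cs : List ℕ) : ∀ n, plsOk X p q cs n = true → ∀ k, n ≤ k →
      k < n + cs.length → Val X l (whs G X.D) k := by
  induction cs with
  | nil => intro n _ k h1 h2; simp only [List.length_nil] at h2; omega
  | cons c cs ih =>
    intro n h k h1 h2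
    have h' : (Bool.rec false (plsOk X p q cs (n + 1)) (plOk X p q c n) : Bool) = true := h
    cases e : plOk X p q c n <;> rw [e] at h'
    · exact absurd h' Bool.false_ne_true
    · rcases h1.eq_or_lt with rfl | h3
      · exact plOk_sound hG h12 hp hq e
      · exact ih _ h' k h3 (by simp only [List.length_cons] at h2; omega)

theorem base_sound (hG : G.MinCex) (h12 : X.D ≤ 12) (L : List (Pattern × List ℕ)) :
    (∀ a ∈ L, a.1.Excluded) → ∀ n, baseOk X L n = true → ∀ k, n ≤ k → k < n + cnt L →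
      Val X l (whs G X.D) k := by
  induction L with
  | nil => intro _ n _ k h1 h2; simp only [cnt, List.map_nil, List.sum_nil] at h2; omega
  | cons a L ih =>
    obtain ⟨p, cs⟩ := a
    intro hL' n h k h1 h2
    obtain ⟨hp, hL⟩ := List.forall_mem_cons.1 hL'
    have e : cnt ((p, cs) :: L) = cs.length + cnt L := rfl
    rw [e] at h2
    cases cs with
    | nil => exact ih hL n h k h1 (by simpa using h2)
    | cons c cs =>
      have h' : (Bool.rec false (baseOk X L (n + (c :: cs).length))
        (fP p fun p => fP p.neg fun q => plsOk X p q (c :: cs) n) : Bool) = true := h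
      simp only [fP_eq] at h'
      cases e : plsOk X p p.neg (c :: cs) n <;> rw [e] at h'
      · exact absurd h' Bool.false_ne_true
      · rcases lt_or_ge k (n + (c :: cs).length) with h3 | h3
        · exact plsOk_sound hG h12 hp hp.neg _ n e k h1 h3
        · exact ih hL _ h' k h3 (by omega)

theorem Upto.zero (X : Ctx) (l : List Rl) : Upto X l 0 := fun _ _ _ _ _ h => absurd h (Nat.not_lt_zero _)

theorem Upto.base {n m : ℕ} (h : Upto X l n) (hX : Ok X l) {ps : List Pattern}
    (hp : ∀ p ∈ ps, p.Excluded) {cs : List (List ℕ)} (hb : baseOk X (ps.zip cs) n = true)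
    (hm : m = n + cnt (ps.zip cs)) : Upto X l m := fun D _ G hG k hk =>
  (lt_or_ge k n).elim (h D G hG k) fun h1 => base_sound hG hX.2.1 _
    (fun a ha => hp _ (List.of_mem_zip (a := a.1) (b := a.2) ha).1) n hb k h1 (hm ▸ hk)

theorem Upto.many {n m : ℕ} (h : Upto X l n) (hX : Ok X l) {cs : List ℕ}
    (hc : many X cs n = true) (hm : m = n + cs.length) : Upto X l m := fun D _ G hG =>
  hm ▸ many_sound hX (wh_whs G _) cs hc (h D G hG)

theorem same_eq (l : List Rl) : ∀ l', same l l' = true → l = l' := by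
  induction l with
  | nil => exact fun l' h => (List.isEmpty_iff.1 h).symm
  | cons a l ih =>
    rintro (_ | ⟨a', t⟩) h
    · exact absurd h Bool.false_ne_true
    · have h' : (Nat.beq a.M a'.M && Nat.beq a.w a'.w && a.neg == a'.neg && same l t) = true := h
      simp only [Bool.and_eq_true, Nat.beq_eq, beq_iff_eq] at h'
      obtain ⟨⟨⟨h1, h2⟩, h3⟩, h4⟩ := h'
      cases a
      cases a'
      simp only at h1 h2 h3
      rw [h1, h2, h3, ih t h4]

theorem live_of_fits {M : ℕ} (h : Fits G Δ M d) : ∀ n ≤ 5 * Δ, live M n = true := by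
  intro n
  induction n with
  | zero => exact fun _ => rfl
  | succ n ih =>
    intro hn
    have e : Nat.beq (Cart.fld M (5 * n)) 0 = false := by
      rw [Bool.eq_false_iff, Ne, Nat.beq_eq]
      intro e
      have := testBit_fld M (5 * n) (om_lt (G := G) (d := d) n)
      rw [e, h n (by omega), Nat.zero_testBit] at this
      exact Bool.false_ne_true this
    show (Bool.rec (live M n) false (Nat.beq (Cart.fld M (5 * n)) 0) : Bool) = true
    rw [e]
    exact ih (by omega)

theorem cost_append (Δ : ℕ) (l l' : List Rl) (ω : ℕ → ℕ) :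
    cost Δ (l ++ l') ω = cost Δ l ω + cost Δ l' ω := by simp [cost]

theorem wneg_append (l l' : List Rl) : wneg (l ++ l') = wneg l + wneg l' := by simp [wneg]

theorem mk_cons (s : Bool) (Δ b : ℕ) (r : ℕ × ℕ) (P : List (ℕ × ℕ)) : mk s Δ b (r :: P) =
    if live (comp s Δ b 0 16 (rulePat r.1) (full Δ)) (5 * Δ) = true then
      ⟨comp s Δ b 0 16 (rulePat r.1) (full Δ), r.2, s⟩ :: mk s Δ b P else mk s Δ b P :=
  List.filter_cons

open scoped Classical in
theorem outw_cons (r : ℕ × ℕ) (P : List (ℕ × ℕ)) (x : D) : outw G (rules (r :: P)) x =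
    (if G.Holds (rulePat r.1) x then r.2 else 0) + outw G (rules P) x := rfl

theorem cost_cons (a : Rl) (l : List Rl) (ω : ℕ → ℕ) :
    cost Δ (a :: l) ω = a.val Δ ω + cost Δ l ω := rfl

theorem val_pos {M w : ℕ} (h : Fits G Δ M d) : (⟨M, w, false⟩ : Rl).val Δ (om G d) = w :=
  if_pos (iff_of_true h rfl)

theorem val_neg {M w : ℕ} (h : ¬ Fits G Δ M d) : (⟨M, w, true⟩ : Rl).val Δ (om G d) = w :=
  if_pos (iff_of_false h (by simp))

theorem wneg_cons (a : Rl) (l : List Rl) : wneg (a :: l) = cond a.neg a.w 0 + wneg l := rfl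

theorem outw_le_cost (hG : G.MinCex) (hΔ : G.deg d = Δ) (h12 : Δ ≤ 12) (b : ℕ) (P : List (ℕ × ℕ)) :
    outw G (rules P) (dart G d b 0 16) ≤ cost Δ (mk false Δ b P) (om G d) ∧
      wneg (mk false Δ b P) = 0 := by
  induction P with
  | nil => exact ⟨le_rfl, rfl⟩
  | cons r P ih =>
    have k := comp_nec hG.cubic (Map.deg_ge_five hG) hΔ h12 (b := b) (u := 16)
      (hΔ ▸ Map.deg_pos d) (rulePat r.1) _ fits_full
    rw [mk_cons, outw_cons]
    split_ifs with h1 h2 h2
    · rw [cost_cons, wneg_cons, val_pos (k h1)]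
      exact ⟨Nat.add_le_add_left ih.1 _, by simpa using ih.2⟩
    · exact absurd (live_of_fits (k h1) _ le_rfl) h2
    · rw [cost_cons, wneg_cons]
      exact ⟨Nat.add_le_add (Nat.zero_le _) ih.1, by simpa using ih.2⟩
    · simpa using ih

theorem wneg_le_cost (hG : G.MinCex) (hΔ : G.deg d = Δ) (h12 : Δ ≤ 12) (b : ℕ) (P : List (ℕ × ℕ)) :
    wneg (mk true Δ b P) ≤ cost Δ (mk true Δ b P) (om G d) + outw G (rules P) (dart G d b 0 16) := by
  induction P with
  | nil => exact le_rfl
  | cons r P ih =>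
    have k := comp_suff hG.cubic (Map.deg_ge_five hG) hΔ h12 (b := b) (u := 16)
      (hΔ ▸ Map.deg_pos d) (rulePat r.1) (full Δ)
    rw [mk_cons, outw_cons]
    split_ifs with h1 h2 h2
    · rw [cost_cons, wneg_cons, cond_true]
      dsimp only
      omega
    · rw [cost_cons, wneg_cons, cond_true, val_neg fun h => h2 (k h).2]
      dsimp only
      omega
    all_goals omega

theorem net_le_cost (hG : G.MinCex) (hΔ : G.deg d = Δ) (h12 : Δ ≤ 12) (P : List (ℕ × ℕ)) :
    Cart.net G (rules P) d ≤ (cost Δ (mk0 Δ P) (om G d) : ℤ) - wneg (mk0 Δ P) := by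
  have h1 := outw_le_cost hG hΔ h12 0 P
  have h2 := wneg_le_cost hG hΔ h12 5 P
  have h3 := net_dart (G := G) (d := d) (R := rules P) 0
  rw [mk0, cost_append, wneg_append, h1.2]
  rw [pow_zero, Equiv.Perm.one_apply, add_zero] at h3
  omega

theorem hub_ok {P : List (ℕ × ℕ)} {Q n : ℕ} (hX : Ok X l) (hl : same l (mk0 X.D P) = true)
    (h : Upto X l (n + 1)) (ht : topB X l Q n = true) : Hub P Q X.D := by
  intro D _ G hG d hd
  simp only [topB, Bool.and_eq_true, Nat.beq_eq, Nat.ble_eq] at ht
  obtain ⟨⟨⟨t1, t2⟩, t3⟩, t4⟩ := ht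
  have k1 := (h D G hG n (Nat.lt_succ_self n)).top t1 t2 t3 ⟨d, hd, rfl⟩
  have k2 : ∑ i ∈ range X.D, Cart.net G (rules P) ((G.f ^ i) d) ≤
      ∑ i ∈ range X.D, ((cost X.D l (rt X.D i (om G d)) : ℤ) - wneg l) := sum_le_sum fun i _ => by
    rw [same_eq _ _ hl, ← om_pow hd]
    exact net_le_cost hG ((deg_pow i).trans hd) hX.2.1 P
  have k3 : tot X.D l (om G d) (ones X.D) = ∑ i ∈ range X.D, cost X.D l (rt X.D i (om G d)) :=
    sum_congr rfl fun i hi => if_pos (by rw [testBit_ones]; simpa using hi)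
  rw [sum_sub_distrib, ← Nat.cast_sum, ← k3, sum_const, card_range, nsmul_eq_mul] at k2
  have k4 : ((tot X.D l (om G d) (ones X.D) + 60 * Q : ℕ) : ℤ) ≤
    (10 * Q * X.D + X.D * wneg l : ℕ) := Nat.cast_le.2 (by omega)
  refine k2.trans ?_
  push_cast at k4 ⊢
  linarith

theorem edge_ok {P : List (ℕ × ℕ)} {Q n : ℕ} (hX : Ok X l) (hl : same l (mk1 X.D P) = true)
    (h : Upto X l (n + 1)) (ht : edgeB X Q n = true) : Edge P Q X.D := by
  intro D _ G hG d hd hf
  simp only [edgeB, Bool.and_eq_true, Nat.beq_eq, Nat.ble_eq] at ht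
  obtain ⟨⟨⟨t1, t2⟩, t3⟩, t4⟩ := ht
  have h4 : om G d 0 = 4 := by
    have k := ((fits_cut (p0 := 0) (a := 16) (by have := hX.1; omega) (by norm_num)).1 hf).2
    have k' := om_lt (G := G) (d := d) 0
    generalize om G d 0 = v at k k'
    interval_cases v <;> first | rfl | exact absurd k (by decide)
  have k1 := (h D G hG n (Nat.lt_succ_self n)).edge hX.1 t1 t2 t3 ⟨d, hd, rfl⟩ h4
  have k2 := (outw_le_cost hG hd hX.2.1 5 P).1
  have k3 := dart_out (G := G) (d := d) 0
  rw [pow_zero, Equiv.Perm.one_apply, add_zero] at k3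
  rw [← om_pow hd, pow_zero, Equiv.Perm.one_apply, same_eq _ _ hl, mk1] at k1
  rw [k3] at k2
  simp only [Cart.net]
  omega
end

/-- the four colour theorem from the eleven checks -/
theorem four_colour_of (P : List (ℕ × ℕ)) {Q : ℕ} (hQ : 0 < Q) (hs : smallB (rules P) = true)
    (h5 : Hub P Q 5) (h6 : Hub P Q 6) (h7 : Hub P Q 7) (h8 : Hub P Q 8) (h9 : Hub P Q 9)
    (h10 : Hub P Q 10) (h11 : Hub P Q 11) (e5 : Edge P Q 5) (e6 : Edge P Q 6) (e7 : Edge P Q 7)
    (e8 : Edge P Q 8) (D : Type) [Fintype D] (G : Map D) : G.Planar → G.Bridgeless → G.Colourable :=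
  colourable_of_no_minCex (glue (rules P) (c := (10 * Q : ℕ)) (by omega) hs
    (fun Δ a b => by interval_cases Δ <;> assumption)
    fun Δ a b => by interval_cases Δ <;> assumption) D G

end Pool.Agent.MP_8c1b0d_co.CT4.UChk

/-! Configurations that pass the tests are excluded. -/

namespace Pool.Agent.MP_8c1b0d_co.CT4.Chk

/-- the patterns of a list of jobs -/
noncomputable def pats (l : List Job) : List Pattern := l.map fun j => UChk.patF j.C

theorem excl {T : Tab} {d : ℕ → ℕ → K} (hT : TabOk T d) {l : List Job} (h : AllOk T l) :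
    ∀ p ∈ pats l, p.Excluded := by
  induction l with
  | nil => exact fun _ h => absurd h List.not_mem_nil
  | cons j l ih =>
    refine List.forall_mem_cons.2 ⟨?_, ih h.2⟩
    have k := Bool.and_eq_true_iff.1 h.1
    exact (UChk.patF_eq j.C).symm.subst (motive := Pattern.Excluded)
      (Conf.excluded (Conf.wfB_sound k.1) (check_sound hT (Conf.wfB_sound k.1) k.2))

theorem tabOk6 : TabOk tab6 (dec p6 q6) :=
  tabOk (by decide) p6_eq q6_eq h6_eq ok6 mts_cov

theorem tabOk7 : TabOk tab7 (dec p7 q7) :=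
  tabOk (by decide) p7_eq q7_eq h7_eq ok7 mts_cov

theorem tabOk8 : TabOk tab8 (dec p8 q8) :=
  tabOk (by decide) p8_eq q8_eq h8_eq ok8 mts_cov

theorem tabOk9 : TabOk tab9 (dec p9 q9) :=
  tabOk (by decide) p9_eq q9_eq h9_eq ok9 mts_cov

theorem tabOk10 : TabOk tab10 (dec p10 q10) :=
  tabOk (by decide) p10_eq q10_eq h10_eq ok10 mts_cov

theorem tabOk11 : TabOk tab11 (dec p11 q11) :=
  tabOk (by decide) p11_eq q11_eq h11_eq ok11 mts_cov

theorem tabOk12 : TabOk tab12 (dec p12 q12) :=
  tabOk (by decide) p12_eq q12_eq h12_eq ok12 mts_cov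

theorem tabOk13 : TabOk tab13 (dec p13 q13) :=
  tabOk (by decide) p13_eq q13_eq h13_eq ok13 mts_cov

theorem tabOk14 : TabOk tab14 (dec p14 q14) :=
  tabOk (by decide) p14_eq q14_eq h14_eq ok14 mts_cov

end Pool.Agent.MP_8c1b0d_co.CT4.Chk
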